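import Pool.Agent.Lib.MP_b6048d_co.F.Base3

set_option autoImplicit false

/-!
# Section A of the full solution of MP_b6048d_co: the blob theorem

Every `Prop` below is to be proved in its own file; the docstring is a complete proof. Statements
proved in other files may be used as HYPOTHESES (e.g. `theorem conn (hE : Exp) : Conn`), the
assembly is done in the last file. Library: `Base.lean` (walks, paths, cycles as lists), `Base2.lean`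
(`nbr`, `bl`, `dg`, `ed`, `MinD.touch`), `Base3.lean` (connected sets, numbers).

Notation in the proofs: `n = |H|`, `L = Lg H`, `τ = tau D`, `e = ed Γ`, `N(B) = nbr Γ H B`.
-/

open scoped Classical

namespace Pool.Agent.Lib.MP_b6048d_co.F

/-- **A01 TauFacts.**
Proof. Since `x + 3 ≥ 3 > e` (`Real.exp_one_lt_d9`), `log (x+3) > 1`, so `0 < 1/log(x+3) < 1`: this
gives the bounds; `log` is increasing, which gives monotonicity. For `a ≤ b`: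
`τ(b) - τ(a) = D (1/log(a+3) - 1/log(b+3)) = D (log(b+3) - log(a+3)) / (log(a+3) log(b+3))`.
(third claim) `log(b+3) - log(a+3) = -log((a+3)/(b+3)) ≥ 1 - (a+3)/(b+3) = (b-a)/(b+3)`
(`Real.log_le_sub_one_of_pos`), and `log(a+3) log(b+3) ≤ L^2`.
(fourth claim) if `(a+3)^2 ≤ b+3` then `log(b+3) ≥ 2 log(a+3)`, so
`1/log(a+3) - 1/log(b+3) ≥ 1/(2 log(a+3))`. -/
def TauFacts : Prop := ∀ D : ℝ, 0 < D →
  (∀ x : ℕ, D ≤ tau D x ∧ tau D x ≤ 2 * D) ∧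
  (∀ a b : ℕ, a ≤ b → tau D a ≤ tau D b) ∧
  (∀ a b : ℕ, a ≤ b → ∀ L : ℝ, Real.log ((b : ℝ) + 3) ≤ L →
    D * (((b : ℝ) - a) / (b + 3)) / L ^ 2 ≤ tau D b - tau D a) ∧
  (∀ a b : ℕ, (a + 3) ^ 2 ≤ b + 3 → D / (2 * Real.log ((a : ℝ) + 3)) ≤ tau D b - tau D a)

/-- **A02 MinBasics.** Basic facts on a minimal dense set `H` for `τ = tau D`, `D ≥ 1`.
Proof. (1) `τ(n) n ≤ e(H)` and `2 e(H) ≤ n (n-1)` (`ed_le_sq`), `n > 0`, `τ(n) ≥ D`: so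
`2 D ≤ n - 1`.
(2) `MinD.touch` with `A = {v}` and `ed_touch_le`: `τ(n) ≤ e(H) - e(H \ {v}) ≤ dg_H(v)`.
(3) is `MinD.touch` (monotonicity of `τ` from `TauFacts`). (4) is `MinD.le` and `τ ≤ 2 D`.
(5) given `L₀` take `D₀ = 2^{L₀}`, then `n ≥ 2 D ≥ 2^{L₀}` and `le_Lg` applies. -/
def MinBasics : Prop :=
  (∀ (V : Type) (Γ : SimpleGraph V) (D : ℝ) (H : Finset V), 1 ≤ D → MinD Γ (tau D) H →
    (2 * D + 1 ≤ H.card) ∧
    (∀ v ∈ H, tau D H.card ≤ dg Γ H v ∧ D ≤ dg Γ H v) ∧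
    (∀ A : Finset V, A ⊆ H → tau D H.card * A.card ≤ ed Γ H - ed Γ (H \ A)) ∧
    (∀ A : Finset V, A.card < H.card →
      ed Γ A ≤ tau D A.card * A.card ∧ ed Γ A ≤ 2 * D * A.card)) ∧
  (∀ L₀ : ℕ, ∃ D₀ : ℝ, 1 ≤ D₀ ∧ ∀ (V : Type) (Γ : SimpleGraph V) (D : ℝ) (H : Finset V), D₀ ≤ D →
    MinD Γ (tau D) H → L₀ ≤ Lg H ∧ L₀ ≤ H.card)

/-- **A03 Exp** (expansion of sets of at most half the size).
Proof. `B = ∅` is trivial. Let `N = N(B)`, `m = |B| + |N| = |B ∪ N|`. If `m ≥ n`, or more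
generally `3 m ≥ 2 n`, then `|N| = m - |B| ≥ 2n/3 - n/2 = n/6 ≥ |B|/3`, fine as `10 L^2 ≥ 3`.
Otherwise `3 m < 2 n`, in particular `m < n`. By `ed_touch` with `R = ∅` and `MinBasics` (3),
`τ(n) |B| ≤ e(H) - e(H \ B) ≤ e(B ∪ N) ≤ τ(m) m = τ(m) (|B| + |N|)`, so
`τ(m) |N| ≥ (τ(n) - τ(m)) |B|`. By `TauFacts` (third claim, with `log (n+3) ≤ L`, `log_le_Lg`)
`τ(n) - τ(m) ≥ D ((n-m)/(n+3)) / L^2`, and `(n-m)/(n+3) ≥ (n/3)/(n+3) ≥ 1/5` since `n ≥ 2D+1`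
and `n ≥ 5` (for `n ≤ 4`, `L ≥ 4` and the claim follows as `N ≠ ∅`: in fact if `N = ∅` then
`τ(m)·0 ≥ (τ(n)-τ(m))|B| > 0` is impossible, so `|N| ≥ 1 ≥ |B|/160`). With `τ(m) ≤ 2D`:
`|N| ≥ |B| / (10 L^2)`. -/
def Exp : Prop := ∀ (V : Type) (Γ : SimpleGraph V) (D : ℝ) (H : Finset V), 1 ≤ D →
  MinD Γ (tau D) H → ∀ B : Finset V, B ⊆ H → 2 * B.card ≤ H.card →
  B.card ≤ 10 * Lg H ^ 2 * (nbr Γ H B).card

/-- **A04 ExpSmall** (expansion of small sets).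
Proof. `B = ∅` is trivial. Let `N = N(B)`. If `|N| ≥ |B|` the claim holds because
`8 log(|B|+3) ≥ 1`. Otherwise `m = |B ∪ N| ≤ 2 |B| < n` and `(m+3)^2 ≤ n+3`. As in `Exp`,
`τ(m) |N| ≥ (τ(n) - τ(m)) |B|`, and by `TauFacts` (fourth claim)
`τ(n) - τ(m) ≥ D/(2 log(m+3)) ≥ D/(2 log (2|B|+3)) ≥ D/(4 log(|B|+3))`, because
`2|B|+3 ≤ (|B|+3)^2`. With `τ(m) ≤ 2D` we get `|N| ≥ |B|/(8 log(|B|+3))`. -/
def ExpSmall : Prop := ∀ (V : Type) (Γ : SimpleGraph V) (D : ℝ) (H : Finset V), 1 ≤ D →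
  MinD Γ (tau D) H → ∀ B : Finset V, B ⊆ H → (2 * B.card + 3) ^ 2 ≤ H.card + 3 →
  (B.card : ℝ) ≤ 8 * Real.log ((B.card : ℝ) + 3) * (nbr Γ H B).card

/-- **A05 HalfBall.** Growth of a set `A` in `H \ W`, when few vertices of `W` are adjacent to the
growing ball.
Proof. Let `B_i = bl Γ (H \ W) A i`, so `B_0 = A`. `nbr Γ (H \ W) B_i` contains
`nbr Γ H B_i` minus the vertices of `W ∩ H` adjacent to `B_i`; so if `2 |B_i| ≤ n`, `i < 14 L^3`,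
then by `Exp` `|B_{i+1}| = |B_i| + |nbr Γ (H\W) B_i| ≥ |B_i| + |B_i|/(10 L^2) - M`, and
`M ≤ |A|/(40 L^2) ≤ |B_i|/(40 L^2)`, hence `|B_{i+1}| ≥ |B_i| (1 + 3/(40 L^2))`. If
`2 |B_i| ≤ n` held for all `i < 14 L^3 = (14 L^2) L` then, because
`(1 + 3/(40L^2))^{14 L^2} ≥ 1 + 42/40 ≥ 2` (Bernoulli, `one_add_mul_le_pow`), we would get
`|B_{14L^3}| ≥ 2^L |A| ≥ 2^L > n` (`card_le_pow_Lg`), which contradicts `B_{14 L^3} ⊆ H`. So
`2 |B_i| > n` for some `i ≤ 14 L^3`, and balls increase. -/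
def HalfBall : Prop := ∀ (V : Type) (Γ : SimpleGraph V) (D : ℝ) (H : Finset V), 1 ≤ D →
  MinD Γ (tau D) H → ∀ (W A : Finset V) (M : ℕ), A ⊆ H \ W → A.Nonempty →
  40 * Lg H ^ 2 * M ≤ A.card →
  (∀ i < 14 * Lg H ^ 3,
    ((W ∩ H).filter (fun w => ∃ x ∈ bl Γ (H \ W) A i, Γ.Adj x w)).card ≤ M) →
  H.card < 2 * (bl Γ (H \ W) A (14 * Lg H ^ 3)).card

/-- **A06 Conn.** Two large sets are joined by a short walk avoiding a small set `O`.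
Proof. Apply `HalfBall` with `W = O`, `M = |O|` to `A` and to `A'`: both balls of radius `14 L^3`
in `H \ O` have more than `n/2` elements of `H`, so they share a vertex; combine the two walks
(`mem_bl`, `Wk.append`, `Wk.reverse`). -/
def Conn : Prop := ∀ (V : Type) (Γ : SimpleGraph V) (D : ℝ) (H : Finset V), 1 ≤ D →
  MinD Γ (tau D) H → ∀ (O A A' : Finset V), A ⊆ H \ O → A' ⊆ H \ O → A.Nonempty → A'.Nonempty →
  40 * Lg H ^ 2 * O.card ≤ A.card → 40 * Lg H ^ 2 * O.card ≤ A'.card →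
  ∃ a ∈ A, ∃ a' ∈ A', ∃ l, Wk Γ ((H \ O : Finset V) : Set V) a a' l ∧
    l.length ≤ 28 * Lg H ^ 3 + 1

/-- **A07 Spread.** After `36 L^3` steps the ball misses only few vertices of `H`.
Proof. Let `B_i = bl Γ (H \ W) A i`, `U_i = H \ B_i`. By `HalfBall`, `2 |U_i| ≤ n` for
`i ≥ 14 L^3`. Let `C_i = H \ (B_i ∪ N(B_i))`: no vertex of `C_i` is adjacent to `B_i`, so
`N(C_i) ⊆ N(B_i)`, and `2 |C_i| ≤ n`; by `Exp` `|C_i| ≤ 10 L^2 |N(B_i)|`, so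
`|U_i| = |C_i| + |N(B_i)| ≤ 11 L^2 |N(B_i)| ≤ 11 L^2 (|nbr Γ (H \ W) B_i| + M)` for `i < 36 L^3`.
Hence `|U_{i+1}| = |U_i| - |nbr Γ (H\W) B_i| ≤ |U_i| - |U_i|/(11 L^2) + M`. While
`|U_i| > 22 L^2 M` this is at most `|U_i| (1 - 1/(22 L^2))`. The `U_i` decrease, so if
`|U_{36L^3}| > 22 L^2 M` then `|U_{36 L^3}| ≤ n (1 - 1/(22L^2))^{22 L^3} ≤ n e^{-L} < 1` (as
`n < 2^L < e^L`), a contradiction. -/
def Spread : Prop := ∀ (V : Type) (Γ : SimpleGraph V) (D : ℝ) (H : Finset V), 1 ≤ D →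
  MinD Γ (tau D) H → ∀ (W A : Finset V) (M : ℕ), A ⊆ H \ W → A.Nonempty →
  40 * Lg H ^ 2 * M ≤ A.card →
  (∀ i < 36 * Lg H ^ 3,
    ((W ∩ H).filter (fun w => ∃ x ∈ bl Γ (H \ W) A i, Γ.Adj x w)).card ≤ M) →
  (H \ bl Γ (H \ W) A (36 * Lg H ^ 3)).card ≤ 22 * Lg H ^ 2 * M

/-- **A08 NumGrow** (numerical).
Proof. Let `a = 2 κ (4q)^3 + 1` and `A₀ = a ^ q`; put `y_i = a + (i-1)/(4q)` (real). Suppose
`f i < Y` for all `1 ≤ i ≤ 4qt+1`. Claim: `f i ≥ y_i^q` for `1 ≤ i ≤ 4qt+1`. For `i = 1` this is the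
hypothesis. Step: let `s = (f i)^{1/q}` (real power), `s ≥ y_i ≥ a ≥ 1`. There is `N` with
`(f i)^{q-1} ≤ N^q`, i.e. `N ≥ s^{q-1}`, and `f (i+1) ≥ f i + N - κ (i+1)^3`. Now
`y_i ≥ (i+1)/(4q)` (because `a ≥ 2/(4q)`), and `q - 1 ≥ 4`, so
`s^{q-1} ≥ y_i^{q-1} ≥ a y_i^3 ≥ 2 κ (4q)^3 ((i+1)/(4q))^3 = 2 κ (i+1)^3`. Hence
`f (i+1) ≥ s^q + s^{q-1}/2`. With `δ = 1/(4q)`: `(s+δ)^q = s^q (1+δ/s)^q ≤ s^q exp(qδ/s) ≤
s^q (1 + 2qδ/s) = s^q + s^{q-1}/2` (as `0 ≤ qδ/s ≤ 1` and `exp x ≤ 1 + 2x` on `[0,1]`). So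
`f (i+1) ≥ (s+δ)^q ≥ y_{i+1}^q`. At `i = 4qt+1`, `y_i = a + t ≥ t`, so `f i ≥ t^q ≥ Y`, a
contradiction. -/
def NumGrow : Prop := ∀ q κ : ℕ, 5 ≤ q → ∃ A₀ : ℕ, ∀ (f : ℕ → ℕ) (Y t : ℕ), A₀ ≤ f 1 → Y ≤ t ^ q →
  (∀ i, 1 ≤ i → i ≤ 4 * q * t + 1 → f i < Y →
    ∃ N : ℕ, f i ^ (q - 1) ≤ N ^ q ∧ f i + N ≤ f (i + 1) + κ * (i + 1) ^ 3) →
  ∃ i, 1 ≤ i ∧ i ≤ 4 * q * t + 1 ∧ Y ≤ f i

/-- **A09 ThinBall.** A ball of radius `L` avoiding a thin set is larger than any given power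
of `L`.
Proof. Let `q = c + 6` and let `A₀` be the number of `NumGrow` for `q, κ`; `Y = L^c`,
`t = (L-1)/(4q)` (natural division), `f i = |bl Γ (H \ W) {u} i|`. For `L` large
(`MinBasics` (5)), `Y ≤ t^q`; also `4qt+1 ≤ L`. `f 1 ≥ 1 + dg_H(u) - κ ≥ D - κ ≥ A₀` (thinness for
`i = 0`; `bl .. 0 = {u}`) if `D ≥ A₀ + κ`. Let `1 ≤ i`, `f i < Y`, `B = bl Γ (H\W) {u} i`,
`N = |N(B)|`. For `L` large `(2Y+3)^2 ≤ n+3` (`poly_Lg_le`), so `ExpSmall` gives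
`|B| ≤ 8 log(|B|+3) N`. We may take `A₀` so large that `8 log(x+3) ≤ x^{1/q}` for `x ≥ A₀`; as
`|B| ≥ f 1 ≥ A₀` we get `N ≥ |B|^{1-1/q}`, i.e. `|B|^{q-1} ≤ N^q`. Finally
`f (i+1) = |B| + |nbr Γ (H\W) B| ≥ |B| + N - κ (i+1)^3` by thinness. `NumGrow` gives `i ≤ L` with
`f i ≥ Y`, and balls increase. (`A₀` of `NumGrow` may be increased.) -/
def ThinBall : Prop := ∀ κ c : ℕ, ∃ D₀ : ℝ, 1 ≤ D₀ ∧
  ∀ (V : Type) (Γ : SimpleGraph V) (D : ℝ) (H : Finset V), D₀ ≤ D →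
  MinD Γ (tau D) H → ∀ (W : Finset V) (u : V), u ∈ H → u ∉ W → Thin Γ κ H W u →
  Lg H ^ c ≤ (bl Γ (H \ W) {u} (Lg H)).card

/-- **A10 ThinSmall.** A thin set is small.
Proof. Let `L` be large. By `ThinBall` (`c = 15`) the set `A = bl Γ (H \ W) {u} L` has at least
`L^15` elements, and `bl Γ (H \ W) A i = bl Γ (H \ W) {u} (L + i)` (by induction, or by
`mem_bl`). Put `M = κ (L + 36 L^3)^3`, at most `κ 37^3 L^9`; for `L` large `40 L^2 M ≤ L^15` and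
`22 L^2 M ≤ L^15`. Thinness bounds the number of vertices of `W ∩ H` adjacent to
`bl Γ (H \ W) A i`, `i < 36 L^3`, by `κ (L+i+1)^3 ≤ M`. `Spread` gives
`|H \ bl Γ (H \ W) A (36 L^3)| ≤ 22 L^2 M ≤ L^15`, and `W ∩ H` is contained in this set. -/
def ThinSmall : Prop := ∀ κ : ℕ, ∃ D₀ : ℝ, 1 ≤ D₀ ∧
  ∀ (V : Type) (Γ : SimpleGraph V) (D : ℝ) (H : Finset V), D₀ ≤ D →
  MinD Γ (tau D) H → ∀ (W : Finset V) (u : V), u ∈ H → u ∉ W → Thin Γ κ H W u →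
  (W ∩ H).card ≤ Lg H ^ 15

/-- **A11 LocLemma.** A large connected set avoiding a thin set is close to the centre.
Proof. Let `L` be large. `|W ∩ H| ≤ L^15` (`ThinSmall`), `|bl Γ (H\W) {x} L| ≥ L^18`
(`ThinBall`, `c = 18`), and `40 L^2 L^15 ≤ L^18`. Apply `Conn` with `O = W ∩ H`
(`H \ (W ∩ H) = H \ W`) to the ball and `A`: a walk of at most `28 L^3` steps from the ball to
`a ∈ A`, so `z` is reached from `x` by at most `L + 28 L^3 + 2 L ≤ L^4` steps in `H \ W`. -/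
def LocLemma : Prop := ∀ κ : ℕ, ∃ D₀ : ℝ, 1 ≤ D₀ ∧
  ∀ (V : Type) (Γ : SimpleGraph V) (D : ℝ) (H : Finset V), D₀ ≤ D →
  MinD Γ (tau D) H → ∀ (W : Finset V) (x : V), x ∈ H → x ∉ W → Thin Γ κ H W x →
  ∀ (A : Finset V) (z : V), A ⊆ H \ W → Lg H ^ 18 ≤ A.card → ConS Γ z (2 * Lg H) A →
  z ∈ bl Γ (H \ W) {x} (Lg H ^ 4)

/-- **A12 Closure.** A small set `R` is contained in a small set `R'` outside of which small sets
expand.
Proof. Let `t₁ = (τ(X) + τ(n))/2 ≤ 2D` and `f(R') = e(R') - t₁ |R'|`; let `R'` maximise `f` over all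
`R'` with `R ⊆ R' ⊆ H`, `|R'| ≤ X` (`R` itself is allowed, since `8 log(X+3) ≥ 1` gives `|R| ≤ X`).
By `TauFacts` (fourth) `τ(n) - τ(X) ≥ D/(2 log(X+3))`, so `t₁ - τ(X) ≥ D/(4 log(X+3))` and
`τ(n) - t₁ ≥ D/(4 log(X+3))`. For `|R'| = m ≤ X < n`: `e(R') ≤ τ(m) m ≤ τ(X) m`, so
`-t₁ |R| ≤ f(R) ≤ f(R') ≤ -(t₁ - τ(X)) |R'| ≤ -(D/(4 log(X+3))) |R'|`, hence
`|R'| ≤ 8 log(X+3) |R| ≤ X/4`.
(Expansion) Let `∅ ≠ B ⊆ H \ R'`, `4|B| ≤ X`, `N₁ = nbr Γ (H \ R') B`, and suppose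
`|B| > 8 log(X+3) |N₁|`. Then `|N₁| < |B|/8` and `M = R' ∪ B ∪ N₁` has at most `X` elements, so
`f(M) ≤ f(R')`, i.e. `e(M) - e(R') ≤ t₁ (|B| + |N₁|)`. By `ed_touch` (with `A = B`, `R = R'`; note
`B ∪ nbr Γ H B ∪ R' = M`) and `MinBasics` (3), `τ(n) |B| ≤ e(H) - e(H\B) ≤ e(M) - e(R')`. So
`t₁ |N₁| ≥ (τ(n) - t₁) |B| ≥ (D/(4 log(X+3))) |B|`, and `|N₁| ≥ |B|/(8 log(X+3))`, a contradiction.
(Degrees) For `v ∈ H \ R'`, `M = insert v R'` has at most `X/4 + 1 ≤ X` elements, so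
`dg Γ R' v = e(M) - e(R') ≤ t₁` (`ed_insert`), and `dg Γ (H\R') v = dg Γ H v - dg Γ R' v ≥
τ(n) - t₁ ≥ D/(4 log(X+3))`. -/
def Closure : Prop := ∀ (V : Type) (Γ : SimpleGraph V) (D : ℝ) (H : Finset V), 1 ≤ D →
  MinD Γ (tau D) H → ∀ (R : Finset V) (X : ℕ), R ⊆ H → 4 ≤ X → (X + 3) ^ 2 ≤ H.card + 3 →
  32 * Real.log ((X : ℝ) + 3) * R.card ≤ X →
  ∃ R' : Finset V, R ⊆ R' ∧ R' ⊆ H ∧ (R'.card : ℝ) ≤ 8 * Real.log ((X : ℝ) + 3) * R.card ∧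
    (∀ B : Finset V, B ⊆ H \ R' → B.Nonempty → 4 * B.card ≤ X →
      (B.card : ℝ) ≤ 8 * Real.log ((X : ℝ) + 3) * (nbr Γ (H \ R') B).card) ∧
    ∀ v ∈ H \ R', D / (4 * Real.log ((X : ℝ) + 3)) ≤ dg Γ (H \ R') v

/-- **A13 Pockets.** There are few pairwise disjoint sets of size `b` with few neighbours outside
`R`.
Proof. Let `S = H \ R`, `r = |R|`. For `v ∈ S` let `N'(v)` be `N(v) ∩ R` if `|N(v) ∩ R| ≤ τ(n)`, and
otherwise a chosen subset of `N(v) ∩ R` with `⌈τ(n)⌉₊` elements; always `|N'(v)| ≤ 2D` (as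
`τ(n) ≤ 2D`, an integer). The type of `B` is `J(B) = ⋃_{v∈B} N'(v) ⊆ R`, of size at most `2Db`.
The number of subsets of `R` with at most `k` elements is at most `(r+1)^k` (send a function
`Fin k → Option R` to its range). If the family has more than `b^2 (r+1)^{3Db}` members then some
`b^2` of them have the same type `J` (pigeonhole). Let `U` be their union, `|U| = b^3` (disjoint), and
`M = J ∪ U ∪ ⋃ nbr Γ S B` (over these `b^2` sets). With `s = max |nbr Γ S B|`, `s^q < b^{q-1}`, we have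
`m = |M| ≤ b^3 + 2Db + b^2 s ≤ 3 b^3` (as `2Db ≤ b^3` and `s ≤ b`) and `3b^3 + 3 ≤ b^4`, so
`(m+3)^2 ≤ b^8 ≤ n`; in particular `m < n` and `e(M) ≤ τ(m) m`.
Let `U_n = {v ∈ U : |N(v) ∩ R| ≤ τ(n)}` and `U_e = U \ U_n`. All neighbours in `H` of `v ∈ U_n` are
in `M`, and by `ed_touch` (`A = U_n`, `R = U_e ∪ J`, disjoint from `U_n` because `J ⊆ R`) and
`MinBasics` (3): `τ(n)|U_n| + e(U_e ∪ J) ≤ e(M)`. By `ed_split` `e(U_e ∪ J) ≥ ∑_{v∈U_e} dg Γ J v ≥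
τ(n) |U_e|` (each `v ∈ U_e` has `⌈τ(n)⌉` neighbours in `J`). So
`τ(n) b^3 ≤ e(M) ≤ τ(m) (b^3 + 2Db + b^2 s)`, whence
`(τ(n) - τ(m)) b^3 ≤ τ(m) (2Db + b^2 s) ≤ 2D (2Db + b^2 s)`. By `TauFacts` (fourth),
`τ(n) - τ(m) ≥ D/(2 log(m+3)) ≥ D/(8 log b)`. So `1/(8 log b) ≤ 4D/b^2 + 2s/b`. Here
`4D/b^2 ≤ 1/(24 log b)` by hypothesis, and `2s/b ≤ 2 b^{-1/q} ≤ 1/(24 log b)` for `b ≥ b₀(q)`. The
sum is `1/(12 log b) < 1/(8 log b)`, a contradiction. -/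
def Pockets : Prop := ∀ q : ℕ, 2 ≤ q → ∃ b₀ : ℕ, 4 ≤ b₀ ∧
  ∀ (V : Type) (Γ : SimpleGraph V) (D : ℕ) (H : Finset V), 1 ≤ D →
  MinD Γ (tau D) H → ∀ (R : Finset V) (b : ℕ), R ⊆ H → b₀ ≤ b →
  96 * (D : ℝ) * Real.log b ≤ (b : ℝ) ^ 2 → b ^ 8 ≤ H.card →
  ∀ F : Finset (Finset V),
    (∀ B ∈ F, B ⊆ H \ R ∧ B.card = b ∧ (nbr Γ (H \ R) B).card ^ q < b ^ (q - 1)) →
    (∀ B ∈ F, ∀ B' ∈ F, B ≠ B' → Disjoint B B') →
    F.card ≤ b ^ 2 * (R.card + 1) ^ (3 * D * b)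

/-- **A14 Exceptional.** Few vertices have many neighbours in `R`; the others have many neighbours
outside `R`.
Proof. (1) Let `t₀ = ⌈τ(2D²) + 6⌉₊ ≤ 2D + 7` and `E` the set in question; for `v ∈ E` choose
a `t₀`-subset `J(v)` of `N(v) ∩ R`. The number of `t₀`-subsets of `R` is at most
`(r+1)^{t₀} ≤ (r+1)^{2D+7}`. If `|E| > D² (r+1)^{2D+7}` some `D²` vertices of `E` have the same
`J`; `U` = the set of these, `M = U ∪ J`, `m = |M| = D² + t₀ ≤ 2D²` (as `2D+7 ≤ D²`), `m < n`. By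
`ed_split` `e(M) ≥ t₀ D²` and `e(M) ≤ τ(m) m ≤ τ(2D²) (D² + t₀)`. So
`6 D² ≤ D² (t₀ - τ(2D²)) ≤ τ(2D²) t₀ ≤ 2D (2D+7)`, i.e. `2 D² ≤ 14 D`: false for `D ≥ 8`.
(2) `dg Γ (H\R) v = dg Γ H v - dg Γ R v ≥ τ(n) - τ(2D²) - 6 ≥ D/(2 log(2D²+3)) - 6` by
`MinBasics` (2) and `TauFacts` (fourth). For `D ≥ 1500`: `2D²+3 ≤ D^{5/2}`, so this is at least
`D/(5 log D) - 6 ≥ D/(6 log D)`, because `D ≥ 180 log D`. (`D₀ = 1500` or any larger number may be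
used.) -/
def Exceptional : Prop := ∃ D₀ : ℕ, 8 ≤ D₀ ∧
  ∀ (V : Type) (Γ : SimpleGraph V) (D : ℕ) (H : Finset V), D₀ ≤ D →
  MinD Γ (tau D) H → ∀ R : Finset V, R ⊆ H → (2 * D ^ 2 + 3) ^ 2 ≤ H.card + 3 →
  ((H \ R).filter (fun v => tau D (2 * D ^ 2) + 6 ≤ dg Γ R v)).card ≤
      D ^ 2 * (R.card + 1) ^ (2 * D + 7) ∧
  ∀ v ∈ H \ R, (dg Γ R v : ℝ) < tau D (2 * D ^ 2) + 6 →
    (D : ℝ) / (6 * Real.log D) ≤ dg Γ (H \ R) v

/-- **A15 BadCount** (pure counting). If pairwise disjoint connected pockets of size `b` are at most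
`T` many, then few vertices are in such pockets.
Proof. If `B` is a pocket, `v ∈ B`, then `dg Γ S v ≤ |B| + |nbr Γ S B| ≤ 2b`, since
`|nbr Γ S B|^q < b^{q-1} ≤ b^q`. Let `F` be a maximal family of pairwise disjoint pockets
(finitely many subsets of `S`), `|F| ≤ T`. Let `v` be in the pocket `B`. By maximality `B` meets some
`B' ∈ F` in a vertex `x` (or `B ∈ F` and we take `B' = B`). Inside `B` there is a path from `x` to
`v`, with at most `b` vertices, all of `S`-degree at most `2b`. Let `Z₀ = {x}` and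
`Z_{k+1} = Z_k ∪ ⋃_{z ∈ Z_k, dg Γ S z ≤ 2b} N_S(z)`: `|Z_{k+1}| ≤ (2b+1) |Z_k|`, so
`v ∈ Z_b`, `|Z_b| ≤ (2b+1)^b`. There are at most `T b` choices of `x`. -/
def BadCount : Prop := ∀ (V : Type) (Γ : SimpleGraph V) (S : Finset V) (b q T : ℕ),
  1 ≤ b → 1 ≤ q →
  (∀ F : Finset (Finset V),
    (∀ B ∈ F, B ⊆ S ∧ B.card = b ∧ (nbr Γ S B).card ^ q < b ^ (q - 1)) →
    (∀ B ∈ F, ∀ B' ∈ F, B ≠ B' → Disjoint B B') → F.card ≤ T) →
  (∀ v, (∃ B : Finset V, v ∈ B ∧ B ⊆ S ∧ B.card = b ∧ Cn Γ B ∧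
      (nbr Γ S B).card ^ q < b ^ (q - 1)) → dg Γ S v ≤ 2 * b) ∧
  (S.filter (fun v => ∃ B : Finset V, v ∈ B ∧ B ⊆ S ∧ B.card = b ∧ Cn Γ B ∧
      (nbr Γ S B).card ^ q < b ^ (q - 1))).card ≤ T * b * (2 * b + 1) ^ b

/-- **A16 NumBad** (numerical). Here `λ = 8 log(4 L^{c₁+20} + 3)`.
Proof. All claims say that a power of `λ` (which is a polynomial in `log L`) is small. By
`isLittleO` facts (`log L` is smaller than any power of `L`), `λ ≤ L^{1/(10(q+5))}` for large `L`.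
(1) and (3)-(5) are immediate from this (for (4): `log D ≤ (q+1) log λ ≤ (q+1) λ`).
(2) is `L^{c₁+1}` against `2^L`.
(6) With `a ≤ λ^q + 1 ≤ L^{1/10} + 1` and `D ≤ λ^{q+1} ≤ L^{1/10}`, `r + 1 ≤ 2 L^{c₁+1}`: the
logarithm of the left-hand side is at most
`(2D+7+3Da)·log(r+1) + 10 a log(2a+1) + 10 log (D + a + 3) + 10`, at most `C L^{1/2}` with `C`
depending on `c₁`, whereas the logarithm of the right-hand side is `(L-4) log 2 - log 6`. -/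
def NumBad : Prop := ∀ q c₁ : ℕ, 1 ≤ q → ∃ L₀ : ℕ, 8 ≤ L₀ ∧ ∀ L : ℕ, L₀ ≤ L →
  ∀ lam : ℝ, lam = 8 * Real.log (4 * (L : ℝ) ^ (c₁ + 20) + 3) →
    8 ≤ lam ∧ lam ≤ L ∧
    ((4 * L ^ (c₁ + 20) + 3) ^ 2 + 6 * L ^ (c₁ + 1) + L) * 16 ≤ 2 ^ L ∧
    (∀ D : ℕ, 2 ≤ D → (D : ℝ) < lam ^ (q + 1) → 6 * Real.log D ≤ L ∧
      ((2 * D ^ 2 + 3) ^ 2) * 16 ≤ 2 ^ L ∧
      ∀ a r : ℕ, (a : ℝ) ≤ lam ^ q + 1 → r ≤ L ^ (c₁ + 1) →
        a ^ 8 * 16 ≤ 2 ^ L ∧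
        96 * (D ^ 3 * (r + 1) ^ (2 * D + 7) +
          (a + 1) * ((2 * a + 1) * (a ^ 2 * (r + 1) ^ (3 * D * a) * a * (2 * a + 1) ^ a)))
          ≤ 2 ^ L)

/-- **A17 GoodLemma.** After enlarging `R` slightly, most vertices outside are good.
Proof. Let `L` be large, `X = 4 L^{c₁+20}`, `λ = 8 log(X+3)`, `r = |R'|` below. By `NumBad`
and `pow_Lg_le` (`2^L ≤ 16 n`): `(X+3)^2 ≤ n+3`, `8 ≤ λ ≤ L`, `6 L^{c₁+1} ≤ n`, and
`32 log(X+3) |R| = 4λ|R| ≤ 4 L^{c₁+1} ≤ X`. `Closure` gives `R'` with `|R'| ≤ λ|R| ≤ L^{c₁+1}`;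
`S = H \ R'`; (P1) `|B| ≤ λ |nbr Γ S B|` for nonempty `B ⊆ S`, `|B| ≤ L^{c₁+20}`; (P2)
`dg Γ S v ≥ 2D/λ` for `v ∈ S`. If moreover `|B| ≥ λ^q` then `|nbr Γ S B| ≥ |B|/λ ≥ |B|^{1-1/q}`,
that is `|B|^{q-1} ≤ |nbr Γ S B|^q` (*).
*Case `D ≥ λ^{q+1}`* (natural number `D`). Put `c₀ = 2D/λ ≥ 2 λ^q`, `Bad = ∅`; all is clear from
(P2) and (*): `c₀ L ≥ D` since `λ ≤ L`; `λ ≤ D^{1/(q+1)}` gives `c₀ ≥ 2 D^{q/(q+1)} ≥ A₀` for `D` large;
`3 e(S) = (3/2) ∑_S dg ≥ (3/2) c₀ (n - L^{c₁+1}) ≥ (3/2)(5/6) c₀ n ≥ c₀ n`.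
*Case `D < λ^{q+1}`*. Put `c₀ = D/(6 log D)`, `a = ⌈λ^q⌉₊ ≤ λ^q + 1`. Let `E = {v ∈ S : dg Γ S v < c₀}`
and for natural `b` with `c₀/2 ≤ b ≤ a` let `P_b` be the set of `v ∈ S` lying in some connected
`B ⊆ S` with `|B| = b` and `|nbr Γ S B|^q < b^{q-1}`. `Bad = E ∪ ⋃_b P_b`. For `D ≥ D₀` and all
such `b`: `b ≥ D/(12 log D) ≥ b₀(q)` and `96 D log b ≤ b²` (the function `b²/log b` increases for
`b ≥ 2`, and at `b = D/(12 log D)` it is at least `D²/(144 (log D)^3) ≥ 96 D`), and `b^8 ≤ n`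
(`NumBad`). By `Pockets` and `BadCount`, `|P_b| ≤ b²(r+1)^{3Db}·b·(2b+1)^b` and `dg Γ S v ≤ 2b` on
`P_b`. By `Exceptional` (2) `E` is contained in the exceptional set, so
`|E| ≤ D²(r+1)^{2D+7}`, with degrees `< c₀ ≤ D`. By the last claim of `NumBad` and
`2^L ≤ 16 n`: `∑_{Bad} dg + |Bad| ≤ n/6` (there are at most `a+1` values of `b`; every summand for `b`
is at most the one for `a`). `c₀ ≥ A₀` for `D ≥ D₀`; `c₀ L ≥ D` as `6 log D ≤ L`.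
`3 e(S) ≥ (3/2) c₀ (n - |R'| - |Bad|) ≥ (3/2)(2/3) c₀ n = c₀ n`. If `v ∈ S \ Bad` and `B ∋ v` is
connected, `|B| = b ≥ c₀/2`: if `b ≤ a` then `v ∉ P_b` gives the claim; if `b > a ≥ λ^q` it
is (*). -/
def GoodLemma : Prop := ∀ q A₀ c₁ : ℕ, 2 ≤ q → ∃ D₀ : ℕ, 1 ≤ D₀ ∧
  ∀ (V : Type) (Γ : SimpleGraph V) (D : ℕ) (H : Finset V), D₀ ≤ D →
  MinD Γ (tau D) H → ∀ R : Finset V, R ⊆ H → R.card ≤ Lg H ^ c₁ →
  ∃ (R' Bad : Finset V) (c₀ : ℝ), R ⊆ R' ∧ R' ⊆ H ∧ R'.card ≤ Lg H ^ (c₁ + 1) ∧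
    (A₀ : ℝ) ≤ c₀ ∧ (D : ℝ) ≤ c₀ * Lg H ∧ Bad ⊆ H \ R' ∧
    ∑ v ∈ Bad, (dg Γ (H \ R') v : ℝ) ≤ H.card ∧
    c₀ * H.card ≤ 3 * ed Γ (H \ R') ∧
    ∀ v ∈ H \ R', v ∉ Bad → c₀ ≤ dg Γ (H \ R') v ∧
      ∀ B : Finset V, B ⊆ H \ R' → v ∈ B → Cn Γ B → c₀ / 2 ≤ B.card →
        B.card ≤ Lg H ^ (c₁ + 20) → B.card ^ (q - 1) ≤ (nbr Γ (H \ R') B).card ^ q

/-- **A18 GoodGrow.** A good vertex `v` of `S` has large balls, also after deleting a set `T` thin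
at `v`.
Proof. `q = c + 6`, `A₀'` the number of `NumGrow` for `q, κ`, `A₀ = 2A₀' + 2κ + 2`; `Y = L^c`,
`t = (L-1)/(4q)`, `Y ≤ t^q` for `L ≥ L₀`, `4qt+1 ≤ L`. `f i = |bl Γ (S\T) {v} i|`,
`f 1 ≥ 1 + dg Γ S v - κ ≥ c₀ - κ ≥ c₀/2 ≥ A₀'` (thinness for `i = 0`). For `1 ≤ i`, `f i < Y`,
`B = bl Γ (S\T) {v} i` is connected (`conS_bl`, `ConS.cn`) and contains `v`, `|B| ≥ f 1 ≥ c₀/2`, so
`|B|^{q-1} ≤ N^q` with `N = |nbr Γ S B|`; `nbr Γ (S\T) B` is `nbr Γ S B` minus the vertices of `T`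
adjacent to `B`, so `f (i+1) ≥ f i + N - κ (i+1)^3`. Apply `NumGrow`; balls increase. -/
def GoodGrow : Prop := ∀ κ c : ℕ, ∃ A₀ L₀ : ℕ, ∀ (V : Type) (Γ : SimpleGraph V) (S T : Finset V)
  (v : V) (c₀ : ℝ) (L : ℕ), L₀ ≤ L → (A₀ : ℝ) ≤ c₀ → v ∈ S → v ∉ T → c₀ ≤ dg Γ S v →
  (∀ B : Finset V, B ⊆ S → v ∈ B → Cn Γ B → c₀ / 2 ≤ B.card → B.card ≤ L ^ c →
    B.card ^ (c + 5) ≤ (nbr Γ S B).card ^ (c + 6)) →
  (∀ i : ℕ, ((T ∩ S).filter (fun w => ∃ x ∈ bl Γ (S \ T) {v} i, Γ.Adj x w)).card ≤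
    κ * (i + 1) ^ 3) →
  L ^ c ≤ (bl Γ (S \ T) {v} L).card

/-- **A19 HatPrefix.** Connected sets of prescribed size.
Proof. Downward induction on `|B|`: if `|B| > m ≥ |A|`, let `d(y)` (`y ∈ B`) be the least number of
steps of a walk in `B` from `A` to `y`, and let `y` be an element of `B` with `d(y)` maximal;
`y ∉ A` (if all `d` are zero then `B ⊆ A`, impossible). For `z ∈ B`, `z ≠ y`, a shortest walk from
`A` to `z` in `B` does not contain `y`, otherwise `d(y) < d(z)`. So `B \ {y}` has the same property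
with the same `i`. -/
def HatPrefix : Prop := ∀ (V : Type) (Γ : SimpleGraph V) (A B : Finset V) (i m : ℕ), Hat Γ A i B →
  A.card ≤ m → m ≤ B.card → ∃ B' : Finset V, B' ⊆ B ∧ B'.card = m ∧ Hat Γ A i B'

/-- **A20 NewSet.** A connected set of prescribed polylogarithmic size outside a given set.
Proof. Let `c₁ = max a₁ a₂`, `q = c₁ + 26`, and let `A₀` be the number of `GoodGrow` for `κ = 0`,
`c = c₁ + 20` (`A₀ ≥ 1` may be assumed). Apply `GoodLemma`: since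
`∑_{v ∈ Bad} dg ≤ n < 2 c₀ n/3 ≤ 2 e(S) = ∑_{v∈S} dg` (`c₀ ≥ 2`) there is `v ∈ S \ Bad`. `GoodGrow`
with `T = ∅` gives `|bl Γ S {v} L| ≥ L^{c₁+20} ≥ L^{a₂}`; `HatPrefix` (with `hat_single`,
`conS_bl`) gives a subset of exactly `L^{a₂}` elements. -/
def NewSet : Prop := ∀ a₁ a₂ : ℕ, ∃ D₀ : ℕ, 1 ≤ D₀ ∧
  ∀ (V : Type) (Γ : SimpleGraph V) (D : ℕ) (H : Finset V), D₀ ≤ D →
  MinD Γ (tau D) H → ∀ R : Finset V, R ⊆ H → R.card ≤ Lg H ^ a₁ →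
  ∃ (z : V) (B : Finset V), B ⊆ H \ R ∧ B.card = Lg H ^ a₂ ∧ ConS Γ z (Lg H) B

/-- **A21 LevelCount** (pure counting in a bipartite graph). If the ball of radius `r` around `z₀`
in `S` touches more than `|S| + ∑_{Bad} dg` edges of `S`, then some vertex of level `i + 1` has two
neighbours of level `i ≥ 1` outside `Bad`.
Proof. Let `B_i = bl Γ S {z₀} i`. Every edge of `S` touching `B_r` has a lower end `u` of level
`i ≤ r` (level = least `i` with `u ∈ B_i`) and, as neighbours of `B_i` are in `B_{i+1}` and no edge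
joins two vertices of the same level (two vertices of the same level are joined to `z₀` by walks
with the same number of edges in the bipartite graph, so they have the same colour), an upper end
`w` of level exactly `i + 1`. Charge the edge to `u` if `u ∈ Bad`, and to `w` otherwise. At most
`∑_{u∈Bad} dg Γ S u` edges are charged to lower ends. If every `w` has at most one lower neighbour
outside `Bad`, then at most `|S|` edges are charged to upper ends, so at most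
`|S| + ∑_{Bad} dg` edges in all; a contradiction. So some `w` of level `i + 1 ≤ r + 1` has two
distinct neighbours `u₀, u₁` of level `i` outside `Bad`; level `0` is `{z₀}`, so `i ≥ 1`. -/
def LevelCount : Prop := ∀ (V : Type) (Γ : SimpleGraph V) (col : V → Bool) (S Bad : Finset V)
  (z₀ : V) (r : ℕ), z₀ ∈ S → (∀ u ∈ S, ∀ v ∈ S, Γ.Adj u v → col u ≠ col v) →
  (S.card : ℝ) + ∑ v ∈ Bad, (dg Γ S v : ℝ) < ed Γ S - ed Γ (S \ bl Γ S {z₀} r) →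
  ∃ (i : ℕ) (w u₀ u₁ : V), 1 ≤ i ∧ i ≤ r ∧ u₀ ≠ u₁ ∧ u₀ ∉ Bad ∧ u₁ ∉ Bad ∧
    u₀ ∈ bl Γ S {z₀} i ∧ u₀ ∉ bl Γ S {z₀} (i - 1) ∧
    u₁ ∈ bl Γ S {z₀} i ∧ u₁ ∉ bl Γ S {z₀} (i - 1) ∧
    w ∈ S ∧ w ∉ bl Γ S {z₀} i ∧ Γ.Adj u₀ w ∧ Γ.Adj u₁ w

/-- **A22 GeoDevice** (pure). Geodesics make a thin switch.
Proof. Let `P₀`, `P₁` be shortest walks of `S` from `z₀` to `u₀`, `u₁`: they have `i` edges, are paths,
and their `k`-th vertex has level exactly `k` (level = least radius of a ball around `z₀` containing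
it). `D = P₀ ∪ P₁ ∪ {w}`, at most `2(i+1)+1` vertices, at most two of each level `≤ i` and one
(`w`) of level `i+1` (level of `w` is `i+1` since it is adjacent to `u₀` and not in the ball of
radius `i`). Short path: `P₀` (`i` edges). Long path: `P₁` followed by `w`, `u₀` (`i+2` edges); it is
a path because `u₁` is the only vertex of `P₁` of level `i` and `w` has level `i+1`. So
`Device Γ S z₀ u₀ D i` holds (`z₀ ≠ u₀` as `i ≥ 1`).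
Thinness at `s = z₀` with `T = (D \ {z₀}) ∪ {c}`: a vertex of `D` adjacent to (a vertex of) the ball
of radius `k` around `z₀` in `S \ T` has level at most `k + 1`: there are at most `2(k+2)+1` such
vertices in `D`, and one more for `c`: at most `2k + 6 ≤ 6 (k+1)^3`. At `s = u₀`,
`T = (D \ {u₀}) ∪ {c}`: the vertices of the ball of radius `k` around `u₀` have level at least
`i - k`, so the vertices of `D` adjacent to it have level in `[i-k-1, i+1]`: at most `2(k+2)+1` of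
them, and `c`. -/
def GeoDevice : Prop := ∀ (V : Type) (Γ : SimpleGraph V) (S : Finset V) (z₀ w u₀ u₁ : V) (i : ℕ),
  z₀ ∈ S → 1 ≤ i → u₀ ≠ u₁ →
  u₀ ∈ bl Γ S {z₀} i → u₀ ∉ bl Γ S {z₀} (i - 1) →
  u₁ ∈ bl Γ S {z₀} i → u₁ ∉ bl Γ S {z₀} (i - 1) →
  w ∈ S → w ∉ bl Γ S {z₀} i → Γ.Adj u₀ w → Γ.Adj u₁ w →
  ∃ D : Finset V, Device Γ S z₀ u₀ D i ∧ D.card ≤ 2 * i + 3 ∧
    ∀ s, s = z₀ ∨ s = u₀ → ∀ T : Finset V, (∃ c, T ⊆ insert c (D \ {s})) → s ∉ T →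
      D \ {s} ⊆ T → ∀ k : ℕ,
      ((T ∩ S).filter (fun y => ∃ x ∈ bl Γ (S \ T) {s} k, Γ.Adj x y)).card ≤ 6 * (k + 1) ^ 3

/-- **A23 DeviceLemma.** A switch with growing ports outside a given set.
Proof. `q = c₁ + 26`, `A₀` = the maximum of `100` and the numbers of `GoodGrow` for
(`κ = 6`, `c = c₁ + 20`). Apply `GoodLemma`: `R', Bad, c₀`, `S = H \ R'`. As in `NewSet` there is a
vertex `z₀ ∈ S \ Bad`. `GoodGrow` with `T = ∅`: `|bl Γ S {z₀} L| ≥ L^{c₁+20} ≥ 40 L² |R'|`.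
`Spread` with `W = R'`, `A = bl Γ S {z₀} L`, `M = |R'|`: with `r₀ = L + 36 L³` the set
`U = H \ bl Γ S {z₀} r₀` has at most `22 L^2 L^{c₁+1}` elements (use
`bl Γ S (bl Γ S {z₀} L) k ⊆ bl Γ S {z₀} (L+k)`). So
`e(S \ bl Γ S {z₀} r₀) ≤ e(U) ≤ 2D|U| ≤ 2 c₀ L · 22 L^{c₁+3} ≤ c₀ n/12` for `L` large, and
`e(S) - e(S \ bl ..r₀) ≥ c₀ n/3 - c₀ n/12 = c₀ n/4 > 2n ≥ |S| + ∑_{Bad} dg`. `LevelCount` gives
`i ≤ r₀, w, u₀, u₁`, and `GeoDevice` the switch `D'` with ports `p = z₀`, `q = u₀`, both in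
`S \ Bad`, `|D'| ≤ 2 r₀ + 3 ≤ L^6`. (Γ is bipartite on `H ⊇ S`.)
Ports: for `s ∈ {p, q}` and `c ≠ s`, let `T = insert c (D' \ {s})`; `GoodGrow` (with the thinness
of `GeoDevice`) gives `|bl Γ (S\T) {s} L| ≥ L^{c₁+20}`, and `B = bl Γ (S\T) {s} L` is as required
in `Port` (`conS_bl`). -/
def DeviceLemma : Prop := ∀ c₁ : ℕ, ∃ D₀ : ℕ, 1 ≤ D₀ ∧
  ∀ (V : Type) (Γ : SimpleGraph V) (col : V → Bool) (D : ℕ) (H : Finset V), D₀ ≤ D →
  MinD Γ (tau D) H → (∀ u ∈ H, ∀ v ∈ H, Γ.Adj u v → col u ≠ col v) →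
  ∀ R : Finset V, R ⊆ H → R.card ≤ Lg H ^ c₁ →
  ∃ (p q : V) (D' : Finset V) (j : ℕ), Device Γ (H \ R) p q D' j ∧ D'.card ≤ Lg H ^ 6 ∧
    Port Γ (H \ R) D' (Lg H ^ (c₁ + 20)) (Lg H) p ∧
    Port Γ (H \ R) D' (Lg H ^ (c₁ + 20)) (Lg H) q

/-- **A24 Link2** (pure; two disjoint paths to two contracted sets).
Proof. Take one path `P₀` as in (i) with any `c ∉ S` or, if needed, `c` arbitrary (e.g. the one for
`c = q`); for every vertex `c ∉ A₁ ∪ A₂` of `P₀` take the path `P_c` of (i); and take the paths of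
(ii), (iii). All walks may be cut at their first vertex in `A₁ ∪ A₂` (for (ii) the first vertex of
`A₂`). Let `U` be the union of the vertex sets of these at most `ρ + 3` walks,
`|U| ≤ (ρ+3)(ρ+1)`. Contract `A₁ ∩ U` to one vertex `a₁` and `A₂ ∩ U` to one vertex `a₂`: formally
let `a₁ ∈ A₁ ∩ U`, `a₂ ∈ A₂ ∩ U`, `φ : V → V` the map sending `A₁` to `a₁`, `A₂` to `a₂`, other
vertices to themselves, and `G'` the graph with `x ~ y` iff `x ≠ y` and there are `x', y' ∈ U` with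
`φ x' = x`, `φ y' = y`, `x' ~ y'` in `Γ`. In `G'` no single vertex `c` separates `{p, q}` from
`{a₁, a₂}`: if `c ∉ {a₁, a₂}` and `c ∉ P₀` then `P₀` is a path avoiding `c`, if `c ∈ P₀` then
`P_c` is; if `c = a₁` the path of (ii), which avoids `A₁`, if `c = a₂` that of (iii). By Menger's
theorem (`linked_of_sep` with `k = 2`, in `Sep.lean`; or `menger` in
`Lib/MP_2ce0dd_pr/Menger.lean`) there are two disjoint paths of `G'` from `{p,q}` to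
`{a₁,a₂}` inside `φ(U)`; cut them at their first vertex in `{a₁,a₂}`: being disjoint and starting at
different elements of `{p,q}`, one ends in `a₁` and the other in `a₂`. (Make sure that each path
meets `{p,q}` only in its first vertex by cutting at the last such vertex; the two paths are
disjoint, so they use both `p` and `q`.) Lifting: all edges of the path but the last are edges of
`Γ` between vertices outside `A₁ ∪ A₂`; the last one lifts to an edge of `Γ` from an ordinary vertex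
to some `y₁ ∈ A₁` (resp. `y₂ ∈ A₂`). Each path has at most `|U| ≤ (ρ+4)²` vertices. -/
def Link2 : Prop := ∀ (V : Type) (Γ : SimpleGraph V) (S A₁ A₂ : Finset V) (p q : V) (ρ : ℕ),
  p ≠ q → p ∈ S → q ∈ S → A₁ ⊆ S → A₂ ⊆ S → Disjoint A₁ A₂ →
  p ∉ A₁ → p ∉ A₂ → q ∉ A₁ → q ∉ A₂ →
  (∀ c, c ∉ A₁ → c ∉ A₂ → ∃ s, (s = p ∨ s = q) ∧ ∃ y, (y ∈ A₁ ∨ y ∈ A₂) ∧
    ∃ l, Wk Γ ((S \ {c} : Finset V) : Set V) s y l ∧ l.length ≤ ρ + 1) →
  (∃ s, (s = p ∨ s = q) ∧ ∃ y ∈ A₂,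
    ∃ l, Wk Γ ((S \ A₁ : Finset V) : Set V) s y l ∧ l.length ≤ ρ + 1) →
  (∃ s, (s = p ∨ s = q) ∧ ∃ y ∈ A₁,
    ∃ l, Wk Γ ((S \ A₂ : Finset V) : Set V) s y l ∧ l.length ≤ ρ + 1) →
  LinkC Γ S p q A₁ A₂ ((ρ + 4) ^ 2)

/-- **A25 LinkH.** The linking lemma in `H`.
Proof. We verify the hypotheses of `Link2` with `S = H \ O`, `A₁ = B₁`, `A₂ = B₂`,
`ρ = 28 L³ + 2 r`.
(i) Let `c ∉ B₁ ∪ B₂`; take `s ∈ {p,q}` with `s ≠ c`, and let `B` be the set of `Port` for `s` and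
`c`. `Conn` with the forbidden set `insert c O`, `A = B`, `A' = B₂` (`c ∉ B₂`, and both sizes are at
least `40 L² (|O|+1)`): a walk of at most `28 L³` steps from `b ∈ B` to `y ∈ B₂` in
`H \ (O ∪ {c})`; precede it by the walk from `s` to `b` inside `B ⊆ H \ O`, `c ∉ B`.
(ii) Let `B` be the port set for `s = p`, `c = q`; `Conn` with the forbidden set `O ∪ B₁`, `A = B`
(disjoint from `B̂₁ ⊇ B₁`), `A' = B₂`. Precede by a walk inside `B`.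
(iii) The same port set, `Conn` with the forbidden set `O ∪ B₂`, `A = B`, `A' = B̂₁`: a walk avoiding
`O ∪ B₂` to some `y ∈ B̂₁`; then a walk of at most `r` steps inside `B̂₁` (which avoids `B₂` and `O`)
from `y` to `B₁`. In all: at most `r + 28L³ + r` steps. -/
def LinkH : Prop := ∀ (V : Type) (Γ : SimpleGraph V) (D : ℝ) (H : Finset V), 1 ≤ D →
  MinD Γ (tau D) H → ∀ (O B₁ B₁' B₂ : Finset V) (p q : V) (r Y : ℕ),
  p ≠ q → p ∈ H \ O → q ∈ H \ O → B₁' ⊆ H \ O → B₂ ⊆ H \ O → Disjoint B₁' B₂ →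
  p ∉ B₁' → p ∉ B₂ → q ∉ B₁' → q ∉ B₂ → B₁.Nonempty → Hat Γ B₁ r B₁' →
  40 * Lg H ^ 2 * (O.card + B₂.card + 2) ≤ B₁'.card →
  40 * Lg H ^ 2 * (O.card + B₁.card + 2) ≤ B₂.card →
  40 * Lg H ^ 2 * (O.card + B₁.card + B₂.card + 2) ≤ Y →
  Port Γ (H \ (O ∪ B₁' ∪ B₂)) {p, q} Y r p → Port Γ (H \ (O ∪ B₁' ∪ B₂)) {p, q} Y r q →
  LinkC Γ (H \ O) p q B₁ B₂ ((28 * Lg H ^ 3 + 2 * r + 4) ^ 2)

/-- **A26 StepSets.** The objects used in one step of the chain.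
Proof. Let `L` be large, `O' = (W ∩ H) ∪ (P \ {z}) ∪ P' ∪ A'`, `|O'| ≤ L^{c₁} + L^{c₁+4}`.
*Hat.* `A ⊆ H \ O'` (by the disjointness properties of `St`; note that `z ∉ O'`), and
`|A| = L^{c₁+8} ≥ 40 L² |O'|`; `HalfBall` with `W := O'`, `M := |O'|` gives
`|bl Γ (H \ O') A (14 L³)| > n/2 ≥ L^{c₁+16}`; by `hat_bl` and `HatPrefix` there is `A₁ ⊇ A` in
`H \ O'` with `|A₁| = L^{c₁+16}`, `Hat Γ A (14 L³) A₁`.
*New hub.* `NewSet` (`a₁ = c₁ + 17`, `a₂ = c₁ + 12`) with `R = O' ∪ A₁`: `b, B`,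
`|B| = L^{c₁+12}`, `ConS Γ b L B`, `B ⊆ H \ (O' ∪ A₁)` (`z ∈ A ⊆ A₁`).
*Switch.* `DeviceLemma` (with `c₁ + 18`) and `R = O' ∪ A₁ ∪ B`: `p, q, D', j`.
*Link.* `LinkH` with `O := O' ∪ (D' \ {p,q})`, `B₁ := A`, `B₁' := A₁`, `B₂ := B`,
`r := 14 L³`, `Y := L^{c₁+38}`. The size conditions hold for `L` large:
`40L²(L^{c₁}+L^{c₁+4}+L^6+L^{c₁+12}+2) ≤ L^{c₁+16}` and
`40 L²(L^{c₁}+L^{c₁+4}+L^6+L^{c₁+8}+2) ≤ L^{c₁+12}`, etc. The port sets of `DeviceLemma` avoid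
`R` and meet `D'` only in the port, so they are in `H \ (O ∪ A₁ ∪ B)` (each port set
contains only its own port from `D'`) and meet `{p,q}` only in the port; radius
`L ≤ 14 L³` (`ConS.radius`). The path bound is `(28L³+28L³+4)² ≤ L^9`. -/
def StepSets : Prop := ∀ c₁ : ℕ, 16 ≤ c₁ → ∃ D₀ : ℕ, 1 ≤ D₀ ∧
  ∀ (V : Type) (Γ : SimpleGraph V) (col : V → Bool) (D : ℕ) (H : Finset V), D₀ ≤ D →
  MinD Γ (tau D) H → (∀ u ∈ H, ∀ v ∈ H, Γ.Adj u v → col u ≠ col v) →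
  ∀ (W : Finset V) (x x' : V) (k : ℕ) (P P' A A' : Finset V) (z z' : V) (c : ℕ),
  St Γ H W x x' c₁ k P P' A A' z z' c →
  (W ∩ H).card + P.card + P'.card ≤ Lg H ^ c₁ →
  ∃ (B D' : Finset V) (b p q : V) (j : ℕ),
    B ⊆ H \ (W ∪ P ∪ P' ∪ A' ∪ A) ∧ B.card = Lg H ^ (c₁ + 12) ∧ ConS Γ b (Lg H) B ∧
    Device Γ (H \ (W ∪ P ∪ P' ∪ A' ∪ A ∪ B)) p q D' j ∧ D'.card ≤ Lg H ^ 6 ∧
    LinkC Γ (H \ (W ∪ (P \ {z}) ∪ P' ∪ A' ∪ (D' \ {p, q}))) p q A B (Lg H ^ 9)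

/-- **A27 StepGlue.** One more switch: from the objects of `StepSets` to the next state.
Proof. `LinkC` gives `{s, s'} = {p, q}`, disjoint paths `l₁ : s → y₁ ∈ A` and `l₂ : s' → y₂ ∈ B`,
meeting `A ∪ B` only in `y₁`, resp. `y₂`. Let `m` be a path from `z` to `y₁` inside `A`
(`ConS`; `Wk.toPth`), with at most `2L+1` vertices. New data: `z_new = y₂`,
`P_new = P ∪ m ∪ l₁ ∪ D' ∪ l₂`, `A_new` = a subset of `B` with `L^{c₁+8}` elements, containing `y₂`,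
with `ConS Γ y₂ (2L) A_new` (`ConS.recenter`, `HatPrefix` for `{y₂}`), `P', A', z'` as before,
`c_new = c + (|m| - 1) + (|l₁| - 1) + j + (|l₂| - 1)` (numbers of edges).
Paths: from `x` to `z` in `P`, then `m`, then `l₁` reversed from `y₁` to `s`, then one of the two
paths of the switch from `s` to `s'` (reversed if `s = q`), then `l₂`. Consecutive pieces share
exactly the joint vertex and other pieces are disjoint: `P ∩ A = {z}`; `l₁, l₂` avoid `P \ {z}` and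
meet `A` only in `y₁` (`l₁`), not at all (`l₂`, since `A ∩ B = ∅` and `l₂` meets `A ∪ B` only in
`y₂ ∈ B`), so they meet `P` at most in `z`, and `z ∈ l₁` only if `z = y₁`, `z ∉ l₂`; `D'` is disjoint
from `P ∪ A ∪ B`, `l₁ ∩ D' = {s}` (it avoids `D' \ {p,q}` and, being disjoint from `l₂`, avoids `s'`),
`l₂ ∩ D' = {s'}`; `l₁ ∩ l₂ = ∅`. So all of them concatenate to paths (`Pth.append`); their numbers of
edges are `c_new + 2 j'` for all `0 ≤ j' ≤ k+1` (use the short path of the switch for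
`j' ≤ k` and the long one for `j' = k + 1`).
Disjointness for the new state: `B` is disjoint from `P ∪ P' ∪ A' ∪ A ∪ D'`, and meets `l₁ ∪ l₂` only
in `y₂`; so `A_new ∩ P_new = {y₂}`, and `A_new` is disjoint from `P'`, `A'`. `m ⊆ A`, `l₁`, `D'`, `l₂`
are disjoint from `P'` and `A'`.
Location: the set `X = m ∪ l₁ ∪ D' ∪ l₂ ∪ A_new` is connected; every new vertex is joined to `y₂`
inside `P_new \ P ∪ {z}` ... by at most `|m| + |l₁| + |D'| + |l₂| ≤ L^10` steps: for `y ∈ D'` use the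
switch paths (every vertex of `D'`: see below) - to avoid any problem with vertices of `D'` on
neither path of the switch, first replace `D'` by the union of its two paths. By hypothesis (`hloc`)
`b` is within `L^4` of `x` in `H \ W`, hence so is everything within `L^4 + L + L^10 ≤ L^11`.
`|P_new| ≤ |P| + (2L+1) + 2 L^9 + L^6 ≤ |P| + L^10`, `c_new ≤ c + L^10`. -/
def StepGlue : Prop := ∃ L₀ : ℕ, ∀ (V : Type) (Γ : SimpleGraph V) (H : Finset V) (c₁ : ℕ),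
  L₀ ≤ Lg H →
  ∀ (W : Finset V) (x x' : V) (k : ℕ) (P P' A A' : Finset V) (z z' : V) (c : ℕ),
  St Γ H W x x' c₁ k P P' A A' z z' c →
  ∀ (B D' : Finset V) (b p q : V) (j : ℕ),
    B ⊆ H \ (W ∪ P ∪ P' ∪ A' ∪ A) → B.card = Lg H ^ (c₁ + 12) → ConS Γ b (Lg H) B →
    Device Γ (H \ (W ∪ P ∪ P' ∪ A' ∪ A ∪ B)) p q D' j → D'.card ≤ Lg H ^ 6 →
    LinkC Γ (H \ (W ∪ (P \ {z}) ∪ P' ∪ A' ∪ (D' \ {p, q}))) p q A B (Lg H ^ 9) →
    b ∈ bl Γ (H \ W) {x} (Lg H ^ 4) →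
  ∃ (P₂ A₂ : Finset V) (z₂ : V) (c₂ : ℕ), St Γ H W x x' c₁ (k + 1) P₂ P' A₂ A' z₂ z' c₂ ∧
    P₂.card ≤ P.card + Lg H ^ 10 ∧ c ≤ c₂ ∧ c₂ ≤ c + Lg H ^ 10

/-- **A28 InitState.** The initial state.
Proof. Let `L` be large, `x ≠ x'` in `H \ W`, `W` thin at both (constant `κ`). For `s ∈ {x, x'}`, `s'`
the other one, and any `c ≠ s`, the set `W ∪ {s', c}` is thin at `s` with constant `κ + 2`
(the ball of `H \ (W ∪ {s',c})` around `s` is contained in that of `H \ W`); by `ThinBall` (with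
`κ + 2` and exponent `c₁ + 20`), `conS_bl` and `HatPrefix` there is a set `E(s,c)` of exactly
`Y = L^{c₁+20}` elements with `ConS Γ s L E(s,c)`, contained in `H \ W` and avoiding `s'` and `c`.
Let `E₀(s) = E(s, s')` and `E(s) = E₀(s) ∪ ⋃_{c ∈ E₀(s), c ≠ s} E(s,c)`, `|E(s)| ≤ Y + Y²`. Let
`R = (W ∩ H) ∪ E(x) ∪ E(x')`, `|R| ≤ L^{2c₁+42}` (`ThinSmall`). `NewSet` (`a₁ = 2c₁+42`,
`a₂ = c₁+16`): `b₁`, `B₁' ⊆ H \ R`, `|B₁'| = L^{c₁+16}`, `ConS Γ b₁ L B₁'`; let `B₁ ⊆ B₁'` with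
`|B₁| = L^{c₁+8}`, `ConS Γ b₁ L B₁` (`HatPrefix`); then `Hat Γ B₁ L B₁'` (every element of `B₁'` is
joined to `b₁ ∈ B₁`). `NewSet` again with `R ∪ B₁'` (`a₁ = 2c₁+43`, `a₂ = c₁+12`):
`b₂`, `B₂`, `|B₂| = L^{c₁+12}`. `LinkH` with `O = W ∩ H`, `p = x`, `q = x'`, `r = L`: the port
sets are: for `c ∉ E₀(s)` the set `E₀(s)`, otherwise `E(s,c)`; they avoid `B₁' ∪ B₂`. The size
conditions are satisfied (`|W ∩ H| ≤ L^15 ≤ L^{c₁}`). We get disjoint paths from `{x,x'}` to `B₁`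
and `B₂`, with at most `(28L³+2L+4)² ≤ L^9` vertices.
Let `l` be the path starting at `x`, ending in `z ∈ B_i`, `{i,i'} = {1,2}`, and `l'` the one from
`x'` to `z' ∈ B_{i'}`. `P = l`, `P' = l'` (as sets), `A ⊆ B_i` with `L^{c₁+8}` elements, containing `z`,
`ConS Γ z (2L) A` (`ConS.recenter` and `HatPrefix`), `A' ⊆ B_{i'}` with `L^{c₁+4}` elements,
`ConS Γ z' (2L) A'`. `k = 0`, `c = |l| - 1`. The disjointness conditions follow from `LinkC` (each path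
meets `B₁ ∪ B₂` only in its last vertex).
Location: `l` starts at `x`, so `P ⊆ bl Γ (H\W) {x} (L^9)`. By `LocLemma` applied to `B_{i'}` (at
least `L^{c₁+8} ≥ L^18` elements, `ConS Γ z' (2L) B_{i'}`) `z'` is within `L^4` of `x`, so `P'` is
within `L^4 + L^9 ≤ L^11`. -/
def InitState : Prop := ∀ κ c₁ : ℕ, 16 ≤ c₁ → ∃ D₀ : ℕ, 1 ≤ D₀ ∧
  ∀ (V : Type) (Γ : SimpleGraph V) (D : ℕ) (H : Finset V), D₀ ≤ D →
  MinD Γ (tau D) H →
  ∀ (W : Finset V) (x x' : V), x ∈ H → x' ∈ H → x ∉ W → x' ∉ W → x ≠ x' →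
  Thin Γ κ H W x → Thin Γ κ H W x' →
  ∃ (P P' A A' : Finset V) (z z' : V) (c : ℕ), St Γ H W x x' c₁ 0 P P' A A' z z' c ∧
    P.card ≤ Lg H ^ 9 ∧ P'.card ≤ Lg H ^ 9 ∧ c ≤ Lg H ^ 9

/-- **A29 Closing.** From a state with `k` switches: all lengths `a + 2j`, `0 ≤ j ≤ k`.
Proof. Let `L` be large and `O = (W ∩ H) ∪ (P \ {z}) ∪ (P' \ {z'})`, `|O| ≤ L^{c₁}`... The sets `A` and
`A'` are in `H \ O` and have at least `L^{c₁+4} ≥ 40 L² L^{c₁}` elements. By `Conn` there is a walk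
from `a ∈ A` to `a' ∈ A'` in `H \ O` with at most `28 L³` steps. Precede it by a walk from `z` to `a`
inside `A` and follow it by a walk from `a'` to `z'` inside `A'`: a walk from `z` to `z'` in
`H \ O`, with at most `28L³ + 4L` steps, hence a path `m` from `z` to `z'` in `H \ O` with at most
`28 L³ + 4L + 1` vertices. It meets `P` only in `z` and `P'` only in `z'`. So for each `j ≤ k`: path
of `P` from `x` to `z` with `c + 2j` edges, `m`, path of `P'` from `z'` to `x'` (reversed `path'`)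
concatenate to a path from `x` to `x'`; `a = c + (|m|-1) + (|l'|-1)`, and
`c ≤ a ≤ c + 28L³ + 4L + |P'| ≤ c + L^4 + |P'|`.
Location: `P`, `P'` by `locP`, `locP'`; the vertices of `m` are within `28L³+4L` of `z ∈ P`. -/
def Closing : Prop := ∀ c₁ : ℕ, ∃ D₀ : ℝ, 1 ≤ D₀ ∧
  ∀ (V : Type) (Γ : SimpleGraph V) (D : ℝ) (H : Finset V), D₀ ≤ D →
  MinD Γ (tau D) H →
  ∀ (W : Finset V) (x x' : V) (k : ℕ) (P P' A A' : Finset V) (z z' : V) (c : ℕ),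
  St Γ H W x x' c₁ k P P' A A' z z' c →
  (W ∩ H).card + P.card + P'.card ≤ Lg H ^ c₁ →
  ∃ a : ℕ, c ≤ a ∧ a ≤ c + Lg H ^ 4 + P'.card ∧ ∀ j ≤ k, ∃ l,
    Pth Γ ((H \ W : Finset V) : Set V) x x' l ∧ l.length = a + 2 * j + 1 ∧
    ∀ y ∈ l, y ∈ bl Γ (H \ W) {x} (Lg H ^ 12)

/-- **A30 Ranges** (numerical). Overlapping ranges of the same parity cover everything.
Proof. All `a k` have the same parity as `ℓ`. Let `k` be the least index with `k₀ ≤ k ≤ K` and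
`ℓ ≤ a k + 2k` (it exists: `K` satisfies `ℓ ≤ 2K ≤ a K + 2 K`). If `k = k₀` then
`a k₀ ≤ ℓ ≤ a k₀ + 2k₀` and we are done by parity. Otherwise `ℓ > a (k-1) + 2(k-1)`, so by parity
`ℓ ≥ a (k-1) + 2k ≥ a k` because `a k ≤ a (k-1) + 2 k₀ ≤ a(k-1) + 2k`; again `ℓ = a k + 2j` with
`j ≤ k`. -/
def Ranges : Prop := ∀ (a : ℕ → ℕ) (k₀ K ℓ : ℕ), k₀ ≤ K →
  (∀ k ≤ K, a k % 2 = ℓ % 2) → (∀ k < K, a (k + 1) ≤ a k + 2 * k₀) → a k₀ ≤ ℓ → ℓ ≤ 2 * K →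
  ∃ k ≤ K, ∃ j ≤ k, ℓ = a k + 2 * j

/-- **A31 BlobThm.** Minimal dense sets are blobs.
Proof. `L = Lg H` large, `lam = L^30` (so `lam ≥ lam₀`), `K = lam^C`, `c₁ = 30 C + 20`. Let `W, u, v, ℓ`
be as in `Blob`, `x = u`, `x' = v`. `InitState` gives a state for `k = 0`; `StepSets`, `LocLemma`
(applied to `B`, `b`: `|B| ≥ L^18`, `ConS.radius`) and `StepGlue` give by induction states for all
`k ≤ K`, with the same `P'`, with `|P_k| ≤ L^9 + k L^10`, `c_k ≤ c_{k+1} ≤ c_k + L^10`,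
`c_0 ≤ L^9`: the size condition `|W ∩ H| + |P_k| + |P'| ≤ L^15 + L^9 + K L^10 + L^9 ≤ L^{c₁}`
(`ThinSmall`) holds because `K L^10 = L^{30C+10}`. `Closing` gives `a_k` with
`c_k ≤ a_k ≤ c_k + L^4 + L^9` and paths from `u` to `v` in `H \ W` with `a_k + 2j` edges, `j ≤ k`.
All paths are in a bipartite graph, so `a_k` is even iff `col u = col v` (prove:
along a walk in `H` the colour alternates), and `ℓ` as well: same parity. `k₀ = L^11`: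
`a_{k+1} ≤ c_k + L^10 + L^4 + L^9 ≤ a_k + 2 L^11`; `a_{k₀} ≤ L^9 + L^11·L^10 + L^4 + L^9 ≤ L^30 ≤ ℓ`;
`ℓ ≤ lam^C = K ≤ 2K`; (if `C = 0` then `ℓ ≤ 1 < lam ≤ ℓ` is impossible; so `C ≥ 1` and
`k₀ ≤ K`). `Ranges` gives `ℓ = a_k + 2j`. Location: `L^12 ≤ lam`. -/
def BlobThm : Prop := ∀ κ C lam₀ : ℕ, ∃ D₀ : ℕ, 1 ≤ D₀ ∧
  ∀ (V : Type) (Γ : SimpleGraph V) (col : V → Bool) (D : ℕ) (H : Finset V), D₀ ≤ D →
  MinD Γ (tau D) H → (∀ u ∈ H, ∀ v ∈ H, Γ.Adj u v → col u ≠ col v) →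
  ∃ lam, lam₀ ≤ lam ∧ Blob κ C lam Γ col H

/-- **A32 BlobRestrict.** Being a blob only depends on the edges inside `H`.
Proof. For `S ⊆ H`: `nbr`, `bl`, `Thin`, and paths inside `S` only use edges with both ends in
`H`. -/
def BlobRestrict : Prop := ∀ (V : Type) (Γ Γ' : SimpleGraph V) (col : V → Bool) (H : Finset V)
  (κ C lam : ℕ), (∀ u ∈ H, ∀ v ∈ H, Γ.Adj u v ↔ Γ'.Adj u v) →
  Blob κ C lam Γ col H → Blob κ C lam Γ' col H

/-- **A33 DenseBip** (pure). A graph which is not `8 K`-colourable contains a finite bipartite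
subgraph with at least `K |A|` edges.
Proof. By de Bruijn-Erdős (`SimpleGraph.nonempty_hom_of_forall_finite_subgraph_hom`, see
`Lib/MP_b6048d_co/Nested.lean` or `Balls.lean` for its use) there is a finite set `A₀` on which `F` has
no proper `8K`-colouring. Take `A ⊆ A₀` minimal such that `F` has no proper `8K`-colouring on `A`:
every `v ∈ A` has at least `8K` neighbours in `A` (else colour `A \ {v}` and extend), so
`ed F A ≥ 4K|A|`, `A ≠ ∅`. Choose `col : V → Bool` maximising the number of edges of `F` inside `A`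
with differently coloured ends: every vertex of `A` has at least half of its neighbours in `A` on
the other side, so at least `2K|A| ≥ K|A|` edges are bichromatic. Let `Γ` be the graph of the
bichromatic edges of `F` inside `A`. -/
def DenseBip : Prop := ∀ (K : ℕ), 1 ≤ K → ∀ (V : Type) (F : SimpleGraph V),
  ¬ F.Colorable (8 * K) →
  ∃ (Γ : SimpleGraph V) (col : V → Bool) (A : Finset V), Γ ≤ F ∧ A.Nonempty ∧
    (∀ u v, Γ.Adj u v → u ∈ A ∧ v ∈ A ∧ col u ≠ col v) ∧ (K : ℝ) * A.card ≤ ed Γ A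

/-- **A34 CovThm.** Every graph has a subgraph covered by blobs such that the rest has bounded
chromatic number.
Proof. Let `D = D₀` of `BlobThm` for `κ, C, lam₀`, `K₁ = 16 D`. Let `G'` be the graph of all edges
`uv` of `G` for which there are `Γ ≤ G`, `col`, `H ∋ u, v`, `lam ≥ lam₀` with `Γ.Adj u v` and
`Blob κ C lam Γ col H`; `F` the graph of the other edges of `G`. `F.Colorable (16 D)`: otherwise
`DenseBip` (`K = 2D`) gives `Γ ≤ F`, `col`, `A` with `2D|A| ≤ ed Γ A`. As `τ ≤ 2D`,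
`exists_minD` gives `H` with `MinD Γ (tau D) H`; `BlobThm` makes `H` a blob of `Γ` with
`lam ≥ lam₀`. Since `0 < D |H| ≤ ed Γ H` there are adjacent `u, v ∈ H`: `Γ.Adj u v`, so `uv` is an
edge of `F ≤ G`, and it is in a blob: contradiction to the definition of `F`.
`Cov G' κ C lam₀`: for an edge `uv` of `G'` with its `Γ, H`, let `Γ'` be the graph of the edges of
`Γ` with both ends in `H`; it is a blob on `H` by `BlobRestrict`, and `Γ' ≤ G'`, because every edge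
of `Γ'` is in the blob `(Γ, H)`. Product colouring: if `G'` is `n`-colourable then `G = G' ⊔ F`
is `n·16D`-colourable (`SimpleGraph.Coloring` product). -/
def CovThm : Prop := ∀ κ C lam₀ : ℕ, ∃ K₁ : ℕ, 1 ≤ K₁ ∧ ∀ (V : Type) (G : SimpleGraph V),
  ∃ G' : SimpleGraph V, G' ≤ G ∧ Cov G' κ C lam₀ ∧ ∀ n : ℕ, G'.Colorable n → G.Colorable (n * K₁)

end Pool.Agent.Lib.MP_b6048d_co.F
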