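import Mathlib
import Pool.Agent.Lib.MP_b6048d_co.F.SpecA

set_option autoImplicit false

open scoped Classical

namespace Pool.Agent.Lib.MP_b6048d_co.F

namespace BadCountAux

variable {V : Type}

/-- The vertices reached from `x` by at most `k` steps in `S` from vertices of `S`-degree at most
`2 * b`. -/
noncomputable def zs (Γ : SimpleGraph V) (S : Finset V) (b : ℕ) (x : V) : ℕ → Finset V
  | 0 => {x}
  | k + 1 => zs Γ S b x k ∪ ((zs Γ S b x k).filter (fun z => dg Γ S z ≤ 2 * b)).biUnion
      (fun z => S.filter (fun w => Γ.Adj z w))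

theorem card_zs (Γ : SimpleGraph V) (S : Finset V) (b : ℕ) (x : V) (k : ℕ) :
    (zs Γ S b x k).card ≤ (2 * b + 1) ^ k := by
  induction k with
  | zero => simp [zs]
  | succ k ih =>
    rw [zs]
    refine (Finset.card_union_le _ _).trans ?_
    have h1 : (((zs Γ S b x k).filter (fun z => dg Γ S z ≤ 2 * b)).biUnion
        (fun z => S.filter (fun w => Γ.Adj z w))).card ≤ (zs Γ S b x k).card * (2 * b) := by
      refine Finset.card_biUnion_le.trans ?_
      have h2 : ∑ z ∈ (zs Γ S b x k).filter (fun z => dg Γ S z ≤ 2 * b),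
          (S.filter (fun w => Γ.Adj z w)).card ≤
          ∑ z ∈ (zs Γ S b x k).filter (fun z => dg Γ S z ≤ 2 * b), (2 * b) := by
        apply Finset.sum_le_sum
        intro z hz
        exact (Finset.mem_filter.1 hz).2
      refine h2.trans ?_
      rw [Finset.sum_const, smul_eq_mul]
      exact Nat.mul_le_mul_right _ (Finset.card_filter_le _ _)
    calc (zs Γ S b x k).card + _ ≤ (zs Γ S b x k).card + (zs Γ S b x k).card * (2 * b) := by
          exact Nat.add_le_add_left h1 _
      _ = (zs Γ S b x k).card * (2 * b + 1) := by ring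
      _ ≤ (2 * b + 1) ^ k * (2 * b + 1) := Nat.mul_le_mul_right _ ih
      _ = (2 * b + 1) ^ (k + 1) := by ring

theorem self_zs (Γ : SimpleGraph V) (S : Finset V) (b : ℕ) (x : V) (k : ℕ) :
    x ∈ zs Γ S b x k := by
  induction k with
  | zero => simp [zs]
  | succ k ih => rw [zs]; exact Finset.mem_union_left _ ih

theorem mem_zs (Γ : SimpleGraph V) (S B : Finset V) (b : ℕ) (x : V) (hB : B ⊆ S)
    (hd : ∀ z ∈ B, dg Γ S z ≤ 2 * b) (k : ℕ) :
    ∀ (v : V) (l : List V), Wk Γ (B : Set V) x v l → l.length ≤ k + 1 → v ∈ zs Γ S b x k := by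
  induction k with
  | zero =>
    intro v l hl hlen
    obtain ⟨t, rfl⟩ := hl.exists_cons
    have ht : t = [] := by
      rw [List.length_cons] at hlen
      exact List.eq_nil_of_length_eq_zero (by omega)
    subst ht
    have := hl.last
    simp only [List.getLast?_singleton, Option.some.injEq] at this
    subst this
    exact self_zs _ _ _ _ _
  | succ k ih =>
    intro v l hl hlen
    obtain ⟨t, rfl⟩ := hl.exists_concat
    rcases List.eq_nil_or_concat t with ht | ⟨s, w, ht⟩
    · subst ht
      have := hl.head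
      simp only [List.nil_append, List.head?_cons, Option.some.injEq] at this
      subst this
      exact self_zs _ _ _ _ _
    · rw [List.concat_eq_append] at ht
      subst ht
      have hl' : Wk Γ (B : Set V) x v (s ++ w :: [v]) := by simpa using hl
      obtain ⟨h1, h2⟩ := hl'.cut
      have hw : w ∈ zs Γ S b x k := ih w _ h1 (by simp at hlen ⊢; omega)
      have hadj : Γ.Adj w v := by
        have := h2.chain
        simpa using this
      have hwB : w ∈ B := h1.right_in
      have hvB : v ∈ B := hl.right_in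
      rw [zs]
      apply Finset.mem_union_right
      rw [Finset.mem_biUnion]
      exact ⟨w, Finset.mem_filter.2 ⟨hw, hd w hwB⟩, Finset.mem_filter.2 ⟨hB hvB, hadj⟩⟩

theorem dg_le (Γ : SimpleGraph V) (S B : Finset V) (b q : ℕ) (hb : 1 ≤ b) (hq : 1 ≤ q)
    (hc : B.card = b) (hn : (nbr Γ S B).card ^ q < b ^ (q - 1)) (v : V) (hv : v ∈ B) :
    dg Γ S v ≤ 2 * b := by
  have h1 : S.filter (fun w => Γ.Adj v w) ⊆ B ∪ nbr Γ S B := by
    intro w hw
    rw [Finset.mem_filter] at hw
    by_cases hwB : w ∈ B
    · exact Finset.mem_union_left _ hwB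
    · apply Finset.mem_union_right
      rw [nbr, Finset.mem_filter, Finset.mem_sdiff]
      exact ⟨⟨hw.1, hwB⟩, v, hv, hw.2⟩
  have h2 : (nbr Γ S B).card < b := by
    by_contra h
    push Not at h
    have h3 : b ^ q ≤ (nbr Γ S B).card ^ q := Nat.pow_le_pow_left h q
    have h4 : b ^ (q - 1) ≤ b ^ q := Nat.pow_le_pow_right hb (by omega)
    omega
  have h3 := (Finset.card_le_card h1).trans (Finset.card_union_le _ _)
  rw [dg]
  omega

end BadCountAux

open BadCountAux

theorem badCount : BadCount := by
  intro V Γ S b q T hb hq hF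
  refine ⟨?_, ?_⟩
  · rintro v ⟨B, hv, -, hc, -, hn⟩
    exact dg_le Γ S B b q hb hq hc hn v hv
  · set P : Finset V → Prop := fun B => B ⊆ S ∧ B.card = b ∧ Cn Γ B ∧
      (nbr Γ S B).card ^ q < b ^ (q - 1) with hP
    set Fam : Finset (Finset (Finset V)) := ((S.powerset.filter P).powerset).filter
      (fun F => ∀ B ∈ F, ∀ B' ∈ F, B ≠ B' → Disjoint B B') with hFam
    have hne : Fam.Nonempty := ⟨∅, by simp [hFam]⟩
    obtain ⟨F, hFF, hmax⟩ := Finset.exists_max_image Fam Finset.card hne
    rw [hFam, Finset.mem_filter, Finset.mem_powerset] at hFF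
    obtain ⟨hFP, hFd⟩ := hFF
    have hPF : ∀ B ∈ F, P B := fun B hB => (Finset.mem_filter.1 (hFP hB)).2
    have hFT : F.card ≤ T := by
      apply hF F _ hFd
      intro B hB
      obtain ⟨h1, h2, -, h4⟩ := hPF B hB
      exact ⟨h1, h2, h4⟩
    have hsub : (S.filter (fun v => ∃ B : Finset V, v ∈ B ∧ B ⊆ S ∧ B.card = b ∧ Cn Γ B ∧
        (nbr Γ S B).card ^ q < b ^ (q - 1))) ⊆
        F.biUnion (fun B' => B'.biUnion (fun x => zs Γ S b x b)) := by
      intro v hv
      obtain ⟨-, B, hvB, hPB⟩ := Finset.mem_filter.1 hv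
      have hPB' : P B := hPB
      obtain ⟨hBS, hBc, hBC, hBn⟩ := hPB
      have hmeet : ∃ B' ∈ F, ∃ x ∈ B', x ∈ B := by
        by_contra hno
        push Not at hno
        have hBF : B ∉ F := fun h => hno B h v hvB hvB
        have h1 : insert B F ∈ Fam := by
          rw [hFam, Finset.mem_filter, Finset.mem_powerset]
          refine ⟨?_, ?_⟩
          · intro B' hB'
            rcases Finset.mem_insert.1 hB' with rfl | h
            · exact Finset.mem_filter.2 ⟨Finset.mem_powerset.2 hBS, hPB'⟩
            · exact hFP h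
          · intro B₁ h₁ B₂ h₂ h12
            rcases Finset.mem_insert.1 h₁ with rfl | h₁' <;>
            rcases Finset.mem_insert.1 h₂ with rfl | h₂'
            · exact absurd rfl h12
            · rw [Finset.disjoint_left]
              intro x hx hx'
              exact hno B₂ h₂' x hx' hx
            · rw [Finset.disjoint_left]
              intro x hx hx'
              exact hno B₁ h₁' x hx hx'
            · exact hFd B₁ h₁' B₂ h₂' h12
        have h2 := hmax _ h1
        rw [Finset.card_insert_of_notMem hBF] at h2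
        omega
      obtain ⟨B', hB'F, x, hxB', hxB⟩ := hmeet
      obtain ⟨l, hl⟩ := hBC x hxB v hvB
      obtain ⟨l', hl', -, -⟩ := hl.toPth
      have hlen : l'.length ≤ b := by
        rw [← List.toFinset_card_of_nodup hl'.nodup, ← hBc]
        apply Finset.card_le_card
        intro z hz
        exact hl'.mem z (List.mem_toFinset.1 hz)
      rw [Finset.mem_biUnion]
      refine ⟨B', hB'F, ?_⟩
      rw [Finset.mem_biUnion]
      exact ⟨x, hxB', mem_zs Γ S B b x hBS
        (fun z hz => dg_le Γ S B b q hb hq hBc hBn z hz) b v l' hl'.toWk (by omega)⟩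
    refine (Finset.card_le_card hsub).trans (Finset.card_biUnion_le.trans ?_)
    have h1 : ∀ B' ∈ F, (B'.biUnion (fun x => zs Γ S b x b)).card ≤ b * (2 * b + 1) ^ b := by
      intro B' hB'
      refine Finset.card_biUnion_le.trans ?_
      refine (Finset.sum_le_sum (fun x _ => card_zs Γ S b x b)).trans ?_
      rw [Finset.sum_const, smul_eq_mul, (hPF B' hB').2.1]
    refine (Finset.sum_le_sum h1).trans ?_
    rw [Finset.sum_const, smul_eq_mul, mul_assoc]
    exact Nat.mul_le_mul_right _ hFT

end Pool.Agent.Lib.MP_b6048d_co.F
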