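import Pool.Agent.Lib.MP_b6048d_co.F.SpecD

set_option autoImplicit false

/-!
# D06 BlobInside: the blob of an edge of a block is inside the block
-/

open scoped Classical

namespace Pool.Agent.Lib.MP_b6048d_co.F

namespace BlobInsideAux

variable {V : Type*}

/-- The graph of the edges of `G` which are not inside `X`. -/
def outG (G : SimpleGraph V) (X : Set V) : SimpleGraph V where
  Adj x y := G.Adj x y ∧ ¬ (x ∈ X ∧ y ∈ X)
  symm := ⟨fun _ _ h => ⟨h.1.symm, fun h' => h.2 ⟨h'.2, h'.1⟩⟩⟩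
  loopless := ⟨fun x h => G.loopless.irrefl x h.1⟩

lemma outG_le (G : SimpleGraph V) (X : Set V) : outG G X ≤ G := fun _ _ h => h.1

lemma chain_out {G : SimpleGraph V} {X : Set V} (a : List V) (x : V)
    (h : (a ++ [x]).IsChain G.Adj) (ha : ∀ y ∈ a, y ∉ X) :
    (a ++ [x]).IsChain (outG G X).Adj := by
  induction a with
  | nil => simp
  | cons c a ih =>
    have hc : c ∉ X := ha c (by simp)
    have ha' : ∀ y ∈ a, y ∉ X := fun y hy => ha y (List.mem_cons_of_mem _ hy)
    cases a with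
    | nil =>
      simp only [List.cons_append, List.nil_append, List.isChain_cons_cons] at h ⊢
      exact ⟨⟨h.1, fun h' => hc h'.1⟩, by simp⟩
    | cons d a =>
      simp only [List.cons_append, List.isChain_cons_cons] at h ⊢
      exact ⟨⟨h.1, fun h' => hc h'.1⟩, ih h.2 ha'⟩

/-- A path starting outside `X` and ending in `X`, cut at its first vertex in `X`. -/
lemma cut_first {G Γ : SimpleGraph V} {S X : Set V} {z u : V} {l : List V} (hΓ : Γ ≤ G)
    (h : Pth Γ S z u l) (hu : u ∈ X) :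
    ∃ (u' : V) (p : List V), u' ∈ X ∧ u' ∈ S ∧ Wk (outG G X) Set.univ z u' p ∧
      p.length ≤ l.length ∧ ∀ y ∈ p, y ∈ X → y = u' := by
  obtain ⟨a, u', b, rfl, hu', ha⟩ := exists_first (fun z => z ∈ X) l ⟨u, h.toWk.right_mem, hu⟩
  have h1 := h.cut.1
  refine ⟨u', a ++ [u'], hu', h1.toWk.right_in, ⟨?_, h1.head, h1.last, fun _ _ => Set.mem_univ _⟩,
    ?_, ?_⟩
  · exact chain_out a u' ((h1.toWk.monoG hΓ).chain) ha
  · simp only [List.length_append, List.length_cons, List.length_nil]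
    omega
  · intro y hy hyX
    simp only [List.mem_append, List.mem_cons, List.not_mem_nil, or_false] at hy
    rcases hy with h2 | h2
    · exact absurd hyX (ha y h2)
    · exact h2

lemma thin_empty {Γ : SimpleGraph V} {κ : ℕ} {H : Finset V} (u : V) : Thin Γ κ H ∅ u := by
  intro i
  rw [Finset.empty_inter, Finset.filter_empty, Finset.card_empty]
  exact Nat.zero_le _

lemma thin_single {Γ : SimpleGraph V} {κ : ℕ} {H : Finset V} (hκ : 1 ≤ κ) (c u : V) :
    Thin Γ κ H {c} u := by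
  intro i
  have h1 : (({c} ∩ H : Finset V).filter
      (fun w => ∃ x ∈ bl Γ (H \ {c}) {u} i, Γ.Adj x w)).card ≤ 1 := by
    refine (Finset.card_le_card ((Finset.filter_subset _ _).trans Finset.inter_subset_left)).trans ?_
    simp
  have h2 : 1 ≤ κ * (i + 1) ^ 3 := Nat.mul_pos hκ (by positivity)
  exact h1.trans h2

/-- A path with `lam` or `lam + 1` edges in a blob. -/
lemma blob_path {Γ : SimpleGraph V} {col : V → Bool} {H : Finset V} {κ C lam : ℕ}
    (hB : Blob κ C lam Γ col H) (hC : 2 ≤ C) (hlam : 3 ≤ lam) (W : Finset V) (u v : V)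
    (hu : u ∈ H) (hv : v ∈ H) (huW : u ∉ W) (hvW : v ∉ W) (huv : u ≠ v)
    (h1 : Thin Γ κ H W u) (h2 : Thin Γ κ H W v) :
    ∃ l, Pth Γ ((H \ W : Finset V) : Set V) u v l ∧ l.length ≤ lam + 2 := by
  have hpow : lam + 1 ≤ lam ^ C := by
    calc lam + 1 ≤ lam ^ 2 := by nlinarith
      _ ≤ lam ^ C := Nat.pow_le_pow_right (by omega) hC
  have hex : ∃ ℓ, lam ≤ ℓ ∧ ℓ ≤ lam + 1 ∧ (Even ℓ ↔ col u = col v) := by
    by_cases hc : col u = col v
    · rcases Nat.even_or_odd lam with he | ho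
      · exact ⟨lam, le_rfl, by omega, by simp [he, hc]⟩
      · exact ⟨lam + 1, by omega, le_rfl, by simp [ho.add_one, hc]⟩
    · rcases Nat.even_or_odd lam with he | ho
      · refine ⟨lam + 1, by omega, le_rfl, ?_⟩
        have : ¬ Even (lam + 1) := Nat.not_even_iff_odd.2 he.add_one
        simp [this, hc]
      · refine ⟨lam, le_rfl, by omega, ?_⟩
        have : ¬ Even lam := Nat.not_even_iff_odd.2 ho
        simp [this, hc]
  obtain ⟨ℓ, h3, h4, h5⟩ := hex
  obtain ⟨l, hl, hlen, -⟩ := hB.paths W u hu v hv huW hvW huv h1 h2 ℓ h3 (h4.trans hpow) h5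
  exact ⟨l, hl, by omega⟩

end BlobInsideAux

open BlobInsideAux

theorem blobInside (h : LongOdd) : BlobInside := by
  intro V G Γ XX a g col H κ C lam A R hBl hag hA hMiss hΓ hκ hC hlam hR hBlob X hX u hu w hw
    huw huH hwH
  have hne : u ≠ w := huw.ne
  have hC2 : 2 ≤ C := by omega
  -- the first claim
  have hfirst : lam ^ 200 < 3 * a + 1 := by
    obtain ⟨l, hl, hodd, hlen⟩ := (hBl.par X hX u hu w hw hne).2
    have h2 := hl.two_le hne
    have h3 : 3 ≤ l.length := by
      rcases hodd with ⟨k, hk⟩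
      omega
    have hcyc := hl.close huw.symm h3
    have := h V G Γ col H κ C lam A R hA hMiss hΓ hκ hC hlam hR hBlob l hcyc hodd
      ⟨u, hl.toWk.left_mem, w, hl.toWk.right_mem, hne, huH, hwH⟩
    omega
  refine ⟨hfirst, ?_⟩
  intro z hz
  by_contra hzX
  have hzu : z ≠ u := fun hh => hzX (hh ▸ hu)
  obtain ⟨l₁, hl₁, hlen₁⟩ := blob_path hBlob hC2 hlam ∅ z u hz huH (by simp) (by simp) hzu
    (thin_empty z) (thin_empty u)
  obtain ⟨u', p₁, hu'X, -, hp₁, hpl₁, hpX₁⟩ := cut_first (X := X) hΓ hl₁ hu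
  have ht : ∃ t, t ∈ X ∧ t ∈ H ∧ t ≠ u' := by
    by_cases huu : u = u'
    · exact ⟨w, hw, hwH, fun hh => hne (huu.trans hh.symm)⟩
    · exact ⟨u, hu, huH, huu⟩
  obtain ⟨t, htX, htH, htu⟩ := ht
  have hzt : z ≠ t := fun hh => hzX (hh ▸ htX)
  have hzu' : z ≠ u' := fun hh => hzX (hh ▸ hu'X)
  obtain ⟨l₂, hl₂, hlen₂⟩ := blob_path hBlob hC2 hlam {u'} z t hz htH (by simpa using hzu')
    (by simpa using htu) hzt (thin_single (by omega) u' z) (thin_single (by omega) u' t)
  obtain ⟨u'', p₂, hu''X, hu''S, hp₂, hpl₂, hpX₂⟩ := cut_first (X := X) hΓ hl₂ htX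
  have hu'' : u' ≠ u'' := by
    rintro rfl
    have : u' ∈ H \ {u'} := by exact_mod_cast hu''S
    simp at this
  have hwalk := hp₁.reverse.append hp₂
  obtain ⟨l', hl', hsub, hle⟩ := hwalk.toPth
  have hl'2 := hl'.two_le hu''
  have hlen3 : 3 ≤ l'.length := by
    by_contra hcon
    have h2 : l'.length = 2 := by omega
    obtain ⟨c, d, rfl⟩ := List.length_eq_two.1 h2
    have hc : c = u' := by simpa using hl'.head
    have hd : d = u'' := by simpa using hl'.last
    have hch := hl'.chain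
    rw [List.isChain_cons_cons] at hch
    rw [hc, hd] at hch
    exact hch.1.2 ⟨hu'X, hu''X⟩
  have hmemX : ∀ y ∈ l', y ∈ X → y = u' ∨ y = u'' := by
    intro y hy hyX
    rcases List.mem_append.1 (hsub hy) with h1 | h1
    · exact Or.inl (hpX₁ y (List.mem_reverse.1 h1) hyX)
    · exact Or.inr (hpX₂ y (List.mem_of_mem_tail h1) hyX)
  have hear := hBl.ear X hX u' hu'X u'' hu''X hu'' l' (hl'.monoG (outG_le G X)) hlen3 hmemX
  have hlen' : l'.length ≤ 2 * lam + 3 := by
    have h1 := hp₂.length_pos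
    have h2 := hp₁.length_pos
    simp only [List.length_append, List.length_reverse, List.length_tail] at hle
    omega
  have hbig : 2 * lam + 3 ≤ lam ^ 200 := by
    calc 2 * lam + 3 ≤ lam ^ 2 := by nlinarith
      _ ≤ lam ^ 200 := Nat.pow_le_pow_right (by omega) (by norm_num)
  omega

end Pool.Agent.Lib.MP_b6048d_co.F
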