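import Pool.Agent.Lib.MP_b6048d_co.F.SpecA

set_option autoImplicit false

/-!
A32: being a blob only depends on the edges inside `H`.
-/

open scoped Classical

namespace Pool.Agent.Lib.MP_b6048d_co.F

namespace BlobRestrictAux

variable {V : Type}

lemma bl_subset (Γ : SimpleGraph V) (S A : Finset V) (i : ℕ) : bl Γ S A i ⊆ S := by
  induction i with
  | zero => exact Finset.inter_subset_right
  | succ i ih =>
    apply Finset.union_subset ih
    exact (Finset.filter_subset _ _).trans Finset.sdiff_subset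

lemma nbr_congr {Γ Γ' : SimpleGraph V} {H : Finset V}
    (h : ∀ u ∈ H, ∀ v ∈ H, Γ.Adj u v ↔ Γ'.Adj u v) {S A : Finset V} (hS : S ⊆ H) (hA : A ⊆ H) :
    nbr Γ S A = nbr Γ' S A := by
  unfold nbr
  apply Finset.filter_congr
  intro w hw
  have hwH : w ∈ H := hS (Finset.mem_sdiff.mp hw).1
  constructor
  · rintro ⟨a, ha, haw⟩
    exact ⟨a, ha, (h a (hA ha) w hwH).mp haw⟩
  · rintro ⟨a, ha, haw⟩
    exact ⟨a, ha, (h a (hA ha) w hwH).mpr haw⟩

lemma bl_congr {Γ Γ' : SimpleGraph V} {H : Finset V}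
    (h : ∀ u ∈ H, ∀ v ∈ H, Γ.Adj u v ↔ Γ'.Adj u v) {S : Finset V} (hS : S ⊆ H) (A : Finset V)
    (i : ℕ) : bl Γ S A i = bl Γ' S A i := by
  induction i with
  | zero => rfl
  | succ i ih =>
    show bl Γ S A i ∪ nbr Γ S (bl Γ S A i) = bl Γ' S A i ∪ nbr Γ' S (bl Γ' S A i)
    rw [← ih, nbr_congr h hS ((bl_subset Γ S A i).trans hS)]

lemma thin_congr {Γ Γ' : SimpleGraph V} {H : Finset V}
    (h : ∀ u ∈ H, ∀ v ∈ H, Γ.Adj u v ↔ Γ'.Adj u v) {κ : ℕ} {W : Finset V} {u : V}
    (ht : Thin Γ' κ H W u) : Thin Γ κ H W u := by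
  intro i
  refine le_trans (Finset.card_le_card ?_) (ht i)
  intro w hw
  obtain ⟨hw1, x, hx, hxw⟩ := Finset.mem_filter.mp hw
  have hxH : x ∈ H := Finset.sdiff_subset (bl_subset Γ (H \ W) {u} i hx)
  refine Finset.mem_filter.mpr ⟨hw1, x, ?_, ?_⟩
  · rw [← bl_congr h Finset.sdiff_subset]
    exact hx
  · exact (h x hxH w (Finset.mem_inter.mp hw1).2).mp hxw

lemma chain_congr {Γ Γ' : SimpleGraph V} {H : Finset V}
    (h : ∀ u ∈ H, ∀ v ∈ H, Γ.Adj u v ↔ Γ'.Adj u v) (l : List V) (hl : ∀ x ∈ l, x ∈ H)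
    (hc : l.IsChain Γ.Adj) : l.IsChain Γ'.Adj := by
  induction l with
  | nil => exact List.isChain_nil
  | cons a t ih =>
    cases t with
    | nil => exact List.isChain_singleton a
    | cons b t =>
      rw [List.isChain_cons_cons] at hc ⊢
      refine ⟨(h a (hl a (by simp)) b (hl b (by simp))).mp hc.1, ih ?_ hc.2⟩
      intro x hx
      exact hl x (List.mem_cons_of_mem _ hx)

end BlobRestrictAux

open BlobRestrictAux

theorem blobRestrict : BlobRestrict := by
  intro V Γ Γ' col H κ C lam h hb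
  refine ⟨?_, ?_⟩
  · intro u hu v hv huv
    exact hb.bip u hu v hv ((h u hu v hv).mpr huv)
  · intro W u hu v hv huW hvW huv htu htv ℓ h1 h2 h3
    obtain ⟨l, hp, hlen, hx⟩ := hb.paths W u hu v hv huW hvW huv (thin_congr h htu)
      (thin_congr h htv) ℓ h1 h2 h3
    refine ⟨l, ⟨⟨?_, hp.head, hp.last, hp.mem⟩, hp.nodup⟩, hlen, ?_⟩
    · apply chain_congr h l _ hp.chain
      intro x hxl
      have := hp.mem x hxl
      rw [Finset.mem_coe] at this
      exact Finset.sdiff_subset this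
    · intro x hxl
      rw [← bl_congr h Finset.sdiff_subset]
      exact hx x hxl

end Pool.Agent.Lib.MP_b6048d_co.F
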