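import Pool.Agent.Lib.MP_b6048d_co.F.SpecA

set_option autoImplicit false

/-!
A31 BlobThm: minimal dense sets are blobs.
-/

open scoped Classical

namespace Pool.Agent.Lib.MP_b6048d_co.F.BlobThmAux

variable {V : Type}

/-- Along a walk inside `H` the colour alternates. -/
theorem parity {Γ : SimpleGraph V} {col : V → Bool} {H : Finset V}
    (hb : ∀ u ∈ H, ∀ v ∈ H, Γ.Adj u v → col u ≠ col v) :
    ∀ (l : List V) (u v : V) (S : Set V), S ⊆ H → Wk Γ S u v l → ∀ m, l.length = m + 1 →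
      (Even m ↔ col u = col v) := by
  intro l
  induction l with
  | nil =>
    intro u v S _ h
    exact absurd rfl h.ne_nil
  | cons a t ih =>
    intro u v S hS h m hm
    have hau : a = u := by
      have := h.head
      simpa using this
    subst hau
    cases t with
    | nil =>
      have hv : a = v := by
        have := h.last
        simpa using this
      have hm0 : m = 0 := by simpa using hm.symm
      subst hv hm0
      simp
    | cons b t =>
      have hch := h.chain
      rw [List.isChain_cons_cons] at hch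
      have hw : Wk Γ S b v (b :: t) := by
        refine ⟨hch.2, by simp, ?_, fun x hx => h.mem x (List.mem_cons_of_mem _ hx)⟩
        have := h.last
        simpa using this
      obtain ⟨m', rfl⟩ : ∃ m', m = m' + 1 := by
        refine ⟨m - 1, ?_⟩
        simp at hm
        omega
      have h1 := ih b v S hS hw m' (by simpa using hm)
      have h2 := hb a (hS (h.mem a (by simp))) b (hS (h.mem b (by simp))) hch.1
      rw [Nat.even_add_one, h1]
      revert h2
      cases col a <;> cases col b <;> cases col v <;> simp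

end Pool.Agent.Lib.MP_b6048d_co.F.BlobThmAux

namespace Pool.Agent.Lib.MP_b6048d_co.F

open BlobThmAux

theorem blobThm (hM : MinBasics) (hTS : ThinSmall) (hLoc : LocLemma) (hSS : StepSets)
    (hSG : StepGlue) (hIS : InitState) (hCl : Closing) (hR : Ranges) : BlobThm := by
  intro κ C lam₀
  obtain ⟨L₁, hG⟩ := hSG
  obtain ⟨D₁, hD₁, h1⟩ := hM.2 (max lam₀ (max L₁ 4))
  obtain ⟨D₂, hD₂, h2⟩ := hTS κ
  obtain ⟨D₃, hD₃, h3⟩ := hLoc κ
  obtain ⟨D₄, hD₄, h4⟩ := hSS (30 * C + 20) (by omega)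
  obtain ⟨D₅, hD₅, h5⟩ := hIS κ (30 * C + 20) (by omega)
  obtain ⟨D₆, hD₆, h6⟩ := hCl (30 * C + 20)
  refine ⟨max (max ⌈D₁⌉₊ (max ⌈D₂⌉₊ ⌈D₃⌉₊)) (max D₄ (max D₅ ⌈D₆⌉₊)), ?_, ?_⟩
  · exact hD₄.trans ((le_max_left _ _).trans (le_max_right _ _))
  intro V Γ col D H hD hmin hbip
  have e1 : D₁ ≤ (D : ℝ) := (Nat.le_ceil _).trans (by
    exact_mod_cast ((le_max_left _ _).trans (le_max_left _ _)).trans hD)
  have e2 : D₂ ≤ (D : ℝ) := (Nat.le_ceil _).trans (by
    exact_mod_cast (((le_max_left _ _).trans (le_max_right _ _)).trans (le_max_left _ _)).trans hD)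
  have e3 : D₃ ≤ (D : ℝ) := (Nat.le_ceil _).trans (by
    exact_mod_cast (((le_max_right _ _).trans (le_max_right _ _)).trans (le_max_left _ _)).trans hD)
  have e4 : D₄ ≤ D := ((le_max_left _ _).trans (le_max_right _ _)).trans hD
  have e5 : D₅ ≤ D :=
    (((le_max_left _ _).trans (le_max_right _ _)).trans (le_max_right _ _)).trans hD
  have e6 : D₆ ≤ (D : ℝ) := (Nat.le_ceil _).trans (by
    exact_mod_cast
      (((le_max_right _ _).trans (le_max_right _ _)).trans (le_max_right _ _)).trans hD)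
  have hL := (h1 V Γ D H e1 hmin).1
  have hL0 : lam₀ ≤ Lg H := (le_max_left _ _).trans hL
  have hL1 : L₁ ≤ Lg H := ((le_max_left _ _).trans (le_max_right _ _)).trans hL
  have hL4 : 4 ≤ Lg H := four_le_Lg H
  obtain ⟨L, hLdef⟩ : ∃ L, L = Lg H := ⟨_, rfl⟩
  rw [← hLdef] at hL0 hL1 hL4
  have hLpos : 1 ≤ L := by omega
  refine ⟨L ^ 30, hL0.trans (Nat.le_self_pow (by norm_num) L), hbip, ?_⟩
  intro W u hu v hv huW hvW huv hTu hTv ℓ hlam hℓ hpar
  obtain ⟨P₀, P', A₀, A', z₀, z', c₀, hSt₀, hP₀, hP', hc₀⟩ :=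
    h5 V Γ D H e5 hmin W u v hu hv huW hvW huv hTu hTv
  have hW := h2 V Γ D H e2 hmin W u hu huW hTu
  rw [← hLdef] at hP₀ hP' hc₀ hW
  have hC : 1 ≤ C := by
    by_contra hC
    have hC0 : C = 0 := by omega
    subst hC0
    rw [pow_zero] at hℓ
    have : 4 ^ 30 ≤ L ^ 30 := Nat.pow_le_pow_left hL4 30
    have : (1 : ℕ) < 4 ^ 30 := by norm_num
    omega
  have hK : (L ^ 30) ^ C = L ^ (30 * C) := by rw [← pow_mul]
  -- size condition
  have hsize : ∀ k ≤ (L ^ 30) ^ C, ∀ x : ℕ, x ≤ L ^ 9 + k * L ^ 10 →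
      (W ∩ H).card + x + P'.card ≤ L ^ (30 * C + 20) := by
    intro k hk x hx
    have q1 : k * L ^ 10 ≤ L ^ (30 * C + 10) := by
      rw [pow_add, ← hK]
      exact Nat.mul_le_mul_right _ hk
    have q2 : L ^ (30 * C + 10) ≤ L ^ (30 * C + 15) := Nat.pow_le_pow_right hLpos (by omega)
    have q3 : L ^ 15 ≤ L ^ (30 * C + 15) := Nat.pow_le_pow_right hLpos (by omega)
    have q4 : L ^ 9 ≤ L ^ (30 * C + 15) := Nat.pow_le_pow_right hLpos (by omega)
    have q5 : 4 * L ^ (30 * C + 15) ≤ L ^ (30 * C + 16) := by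
      rw [pow_succ, mul_comm]
      exact Nat.mul_le_mul_left _ hL4
    have q6 : L ^ (30 * C + 16) ≤ L ^ (30 * C + 20) := Nat.pow_le_pow_right hLpos (by omega)
    omega
  -- the states
  have hstates : ∀ m ≤ (L ^ 30) ^ C, ∃ c : ℕ → ℕ, c 0 = c₀ ∧
      (∀ k ≤ m, ∃ P A z, St Γ H W u v (30 * C + 20) k P P' A A' z z' (c k) ∧
        P.card ≤ L ^ 9 + k * L ^ 10) ∧
      ∀ k < m, c k ≤ c (k + 1) ∧ c (k + 1) ≤ c k + L ^ 10 := by
    intro m
    induction m with
    | zero =>
      intro _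
      refine ⟨fun _ => c₀, rfl, ?_, fun k hk => absurd hk (Nat.not_lt_zero _)⟩
      intro k hk
      have hk0 : k = 0 := by omega
      subst hk0
      exact ⟨P₀, A₀, z₀, hSt₀, by omega⟩
    | succ m ih =>
      intro hm
      obtain ⟨c, hc0, hc1, hc2⟩ := ih (by omega)
      obtain ⟨P, A, z, hSt, hPc⟩ := hc1 m le_rfl
      have hsz := hsize m (by omega) _ hPc
      have hsz' : (W ∩ H).card + P.card + P'.card ≤ Lg H ^ (30 * C + 20) := by
        rw [← hLdef]; exact hsz
      obtain ⟨B, D', b, p, q, j, hB, hBc, hBcon, hDev, hD'c, hLink⟩ :=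
        h4 V Γ col D H e4 hmin hbip W u v m P P' A A' z z' (c m) hSt hsz'
      have hBW : B ⊆ H \ W := by
        intro y hy
        have := hB hy
        simp only [Finset.mem_sdiff, Finset.mem_union, not_or] at this
        exact Finset.mem_sdiff.2 ⟨this.1, this.2.1.1.1.1⟩
      have hb := h3 V Γ D H e3 hmin W u hu huW hTu B b hBW (by
        rw [hBc]
        exact Nat.pow_le_pow_right (by rw [← hLdef]; exact hLpos) (by omega))
        (hBcon.radius (by omega))
      obtain ⟨P₂, A₂, z₂, c₂, hSt₂, hP₂, hcc, hcc'⟩ :=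
        hG V Γ H (30 * C + 20) (by rw [← hLdef]; exact hL1) W u v m P P' A A' z z' (c m) hSt
          B D' b p q j hB hBc hBcon hDev hD'c hLink hb
      rw [← hLdef] at hP₂ hcc'
      refine ⟨Function.update c (m + 1) c₂, ?_, ?_, ?_⟩
      · rw [Function.update_of_ne (by omega)]
        exact hc0
      · intro k hk
        rcases Nat.lt_or_ge k (m + 1) with h | h
        · rw [Function.update_of_ne (by omega)]
          exact hc1 k (by omega)
        · have hkm : k = m + 1 := by omega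
          subst hkm
          rw [Function.update_self]
          refine ⟨P₂, A₂, z₂, hSt₂, ?_⟩
          rw [Nat.add_mul, Nat.one_mul]
          omega
      · intro k hk
        rcases Nat.lt_or_ge k m with h | h
        · rw [Function.update_of_ne (by omega), Function.update_of_ne (by omega)]
          exact hc2 k h
        · have hkm : k = m := by omega
          subst hkm
          rw [Function.update_self, Function.update_of_ne (by omega)]
          exact ⟨hcc, hcc'⟩
  obtain ⟨c, hc0, hc1, hc2⟩ := hstates _ le_rfl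
  -- closing
  have hclose : ∀ k, k ≤ (L ^ 30) ^ C → ∃ a : ℕ, c k ≤ a ∧ a ≤ c k + L ^ 4 + P'.card ∧
      ∀ j ≤ k, ∃ l, Pth Γ ((H \ W : Finset V) : Set V) u v l ∧ l.length = a + 2 * j + 1 ∧
        ∀ y ∈ l, y ∈ bl Γ (H \ W) {u} (L ^ 12) := by
    intro k hk
    obtain ⟨P, A, z, hSt, hPc⟩ := hc1 k hk
    have hsz := hsize k hk _ hPc
    have := h6 V Γ D H e6 hmin W u v k P P' A A' z z' (c k) hSt (by rw [← hLdef]; exact hsz)
    rw [← hLdef] at this
    exact this
  choose! a ha1 ha2 ha3 using hclose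
  have hck : ∀ k ≤ (L ^ 30) ^ C, c k ≤ L ^ 9 + k * L ^ 10 := by
    intro k
    induction k with
    | zero =>
      intro _
      rw [hc0]
      omega
    | succ k ih =>
      intro hk
      have i1 := ih (by omega)
      have i2 := (hc2 k (by omega)).2
      rw [Nat.add_mul, Nat.one_mul]
      omega
  have hk₀ : L ^ 11 ≤ (L ^ 30) ^ C := by
    rw [hK]
    exact Nat.pow_le_pow_right hLpos (by omega)
  have hsub : (((H \ W : Finset V)) : Set V) ⊆ H := by
    intro y hy
    have hy' : y ∈ H \ W := hy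
    exact (Finset.mem_sdiff.1 hy').1
  obtain ⟨k, hk, j, hj, hkj⟩ := hR a (L ^ 11) ((L ^ 30) ^ C) ℓ hk₀ (by
    intro k hk
    obtain ⟨l, hl1, hl2, -⟩ := ha3 k hk 0 (Nat.zero_le _)
    have hp := parity hbip l u v _ hsub hl1.toWk (a k) (by omega)
    have hp2 : Even (a k) ↔ Even ℓ := hp.trans hpar.symm
    rcases Nat.even_or_odd ℓ with h | h
    · have := hp2.2 h
      rw [Nat.even_iff] at this h
      omega
    · have h' : ¬ Even (a k) := fun hh => (Nat.not_even_iff_odd.2 h) (hp2.1 hh)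
      rw [Nat.not_even_iff] at h'
      rw [Nat.odd_iff] at h
      omega) (by
    intro k hk
    have i1 := (hc2 k hk).2
    have i2 := ha2 (k + 1) (by omega)
    have i3 := ha1 k (by omega)
    have q1 : L ^ 10 ≤ L ^ 11 := Nat.pow_le_pow_right hLpos (by omega)
    have q2 : 4 * L ^ 10 ≤ L ^ 11 := by
      rw [pow_succ L 10, mul_comm]
      exact Nat.mul_le_mul_left _ hL4
    have q3 : L ^ 4 ≤ L ^ 10 := Nat.pow_le_pow_right hLpos (by omega)
    have q4 : L ^ 9 ≤ L ^ 10 := Nat.pow_le_pow_right hLpos (by omega)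
    omega) (by
    have i1 := ha2 (L ^ 11) hk₀
    have i2 := hck (L ^ 11) hk₀
    have q1 : L ^ 11 * L ^ 10 = L ^ 21 := by rw [← pow_add]
    have q2 : 4 * L ^ 21 ≤ L ^ 22 := by
      rw [pow_succ L 21, mul_comm]
      exact Nat.mul_le_mul_left _ hL4
    have q3 : L ^ 4 ≤ L ^ 21 := Nat.pow_le_pow_right hLpos (by omega)
    have q4 : L ^ 9 ≤ L ^ 21 := Nat.pow_le_pow_right hLpos (by omega)
    have q5 : L ^ 22 ≤ L ^ 30 := Nat.pow_le_pow_right hLpos (by omega)
    rw [q1] at i2
    omega) (by omega)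
  obtain ⟨l, hl1, hl2, hl3⟩ := ha3 k hk j hj
  refine ⟨l, hl1, by omega, fun x hx => ?_⟩
  exact bl_mono (Nat.pow_le_pow_right hLpos (by omega)) (hl3 x hx)

end Pool.Agent.Lib.MP_b6048d_co.F
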