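import Pool.Agent.Lib.MP_b6048d_co.F.SpecD

set_option autoImplicit false

/-!
# D02: ears of blocks are long
-/

open scoped Classical

namespace Pool.Agent.Lib.MP_b6048d_co.F.BlockEarAux

variable {V : Type}

lemma exists_inner {G : SimpleGraph V} {S : Set V} {u w : V} {l : List V} (h : Pth G S u w l)
    (hl : 3 ≤ l.length) : ∃ v ∈ l, v ≠ u ∧ v ≠ w := by
  obtain ⟨t, rfl⟩ := h.toWk.exists_cons
  match t, h, hl with
  | [], _, hl => simp at hl
  | [_], _, hl => simp at hl
  | x :: y :: r, h, _ =>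
    have hn := h.nodup
    rw [List.nodup_cons, List.nodup_cons] at hn
    refine ⟨x, by simp, ?_, ?_⟩
    · rintro rfl
      exact hn.1 (by simp)
    · rintro rfl
      have hlast := h.last
      rw [List.getLast?_cons_cons, List.getLast?_cons_cons] at hlast
      exact hn.2.1 (List.mem_of_mem_getLast? hlast)

lemma exists_minEar {G : SimpleGraph V} {Q : Set V} {q₁ q₂ v : V} {l : List V}
    (h : Ear G Q q₁ q₂ v l) : ∃ q₁' q₂' l', MinEar G Q q₁' q₂' v l' ∧ l'.length ≤ l.length := by
  have hex : ∃ n, ∃ q₁' q₂' l', Ear G Q q₁' q₂' v l' ∧ l'.length = n := ⟨_, q₁, q₂, l, h, rfl⟩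
  obtain ⟨q₁', q₂', l', hE, hlen⟩ := Nat.find_spec hex
  refine ⟨q₁', q₂', l', ⟨hE, ?_⟩, ?_⟩
  · intro a b m hm
    rw [hlen]
    exact Nat.find_min' hex ⟨a, b, m, hm, rfl⟩
  · rw [hlen]
    exact Nat.find_min' hex ⟨q₁, q₂, l, h, rfl⟩

end Pool.Agent.Lib.MP_b6048d_co.F.BlockEarAux

namespace Pool.Agent.Lib.MP_b6048d_co.F

open BlockEarAux

theorem blockEar (h : TwoPaths) : BlockEar := by
  intro V G a b hgap hab Q hQ hodd hQa u hu w hw huw l hl hl3 hint
  by_contra hcon
  push Not at hcon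
  obtain ⟨v, hvl, hvu, hvw⟩ := exists_inner hl hl3
  have hvX : v ∉ XQ G a Q := by
    intro hv
    rcases hint v hvl hv with h1 | h1
    · exact hvu h1
    · exact hvw h1
  have hQX : ∀ z ∈ Q, z ∈ XQ G a Q := fun z hz => Or.inl hz
  obtain ⟨q, q', l1, l2, hq, hq', hp1, hp2, hdisj, hl1, hl2, hlen⟩ := h V G a Q hQ hQa u hu w hw huw
  have hu1 : u ∈ l1 := hp1.toWk.left_mem
  have hw2 : w ∈ l2 := hp2.toWk.left_mem
  have hP1 : Pth G Set.univ q w (l1.reverse ++ l.tail) := by
    refine Pth.append (hp1.reverse.mono (Set.subset_univ _)) hl ?_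
    intro z hz hz'
    rw [List.mem_reverse] at hz
    rcases hint z hz' (hp1.toWk.mem z hz) with h1 | h1
    · exact h1
    · rw [h1] at hz
      exact absurd hw2 (hdisj hz)
  have hP2 : Pth G Set.univ q q' ((l1.reverse ++ l.tail) ++ l2.tail) := by
    refine Pth.append hP1 (hp2.mono (Set.subset_univ _)) ?_
    intro z hz hz'
    rcases List.mem_append.1 hz with h1 | h1
    · rw [List.mem_reverse] at h1
      exact absurd hz' (hdisj h1)
    · rcases hint z (List.mem_of_mem_tail h1) (hp2.toWk.mem z hz') with h2 | h2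
      · rw [h2] at hz'
        exact absurd hz' (hdisj hu1)
      · exact h2
  have hEar : Ear G {z | z ∈ Q} q q' v ((l1.reverse ++ l.tail) ++ l2.tail) := by
    refine ⟨hq, hq', ?_, hP2, ?_, ?_, ?_⟩
    · intro heq
      have h1 : q ∈ l1 := hp1.toWk.right_mem
      have h2 : q' ∈ l2 := hp2.toWk.right_mem
      rw [← heq] at h2
      exact hdisj h1 h2
    · intro x hx hxQ
      have hxQ' : x ∈ Q := hxQ
      rcases List.mem_append.1 hx with h1 | h1
      · rcases List.mem_append.1 h1 with h2 | h2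
        · rw [List.mem_reverse] at h2
          exact Or.inl (hl1 x h2 hxQ')
        · rcases hint x (List.mem_of_mem_tail h2) (hQX x hxQ') with h3 | h3
          · rw [h3] at hxQ' ⊢
            exact Or.inl (hl1 u hu1 hxQ')
          · rw [h3] at hxQ' ⊢
            exact Or.inr (hl2 w hw2 hxQ')
      · exact Or.inr (hl2 x (List.mem_of_mem_tail h1) hxQ')
    · apply List.mem_append_left
      apply List.mem_append_right
      obtain ⟨t, rfl⟩ := hl.toWk.exists_cons
      rcases List.mem_cons.1 hvl with h1 | h1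
      · exact absurd h1 hvu
      · exact h1
    · exact fun hv => hvX (hQX v hv)
  obtain ⟨a1, a2, m, hm, hmlen⟩ := exists_minEar hEar
  have hL1 := (Pth.toWk (hp1.reverse.mono (Set.subset_univ _))).append_length hl.toWk
  have hL2 := hP1.toWk.append_length (hp2.mono (Set.subset_univ _)).toWk
  rw [List.length_reverse] at hL1
  rcases hgap Q a1 a2 v m hQ hodd hQa hm with h1 | h1
  · exact hvX (Or.inr ⟨a1, a2, m, hm.1, h1⟩)
  · omega

end Pool.Agent.Lib.MP_b6048d_co.F
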