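import Pool.Agent.Lib.MP_b6048d_co.F.SpecD

set_option autoImplicit false

/-!
# D04 BlockOne: different blocks share at most one vertex
-/

open scoped Classical

namespace Pool.Agent.Lib.MP_b6048d_co.F

namespace BlockOneAux

variable {V : Type*} {G : SimpleGraph V}

/-- The maximal subpath outside `X` around a vertex which is not in `X`. -/
lemma maxsub {X : Set V} {x y v : V} {l : List V} (h : Pth G Set.univ x y l) (hx : x ∈ X)
    (hy : y ∈ X) (hv : v ∈ l) (hvX : v ∉ X) :
    ∃ (u w : V) (l' : List V), u ∈ X ∧ w ∈ X ∧ u ≠ w ∧ Pth G Set.univ u w l' ∧ 3 ≤ l'.length ∧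
      (∀ z ∈ l', z ∈ X → z = u ∨ z = w) ∧ l'.length ≤ l.length := by
  obtain ⟨a, b, rfl⟩ := List.append_of_mem hv
  have hxa : x ∈ a := by
    cases a with
    | nil =>
      have : v = x := by simpa using h.head
      exact absurd (this ▸ hx) hvX
    | cons c a =>
      have : c = x := by simpa using h.head
      rw [this]; simp
  have hyb : y ∈ b := by
    have h1 := h.last
    rw [List.getLast?_append_of_ne_nil _ (by simp)] at h1
    cases b with
    | nil =>
      have : v = y := by simpa using h1
      exact absurd (this ▸ hy) hvX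
    | cons c b =>
      rw [List.getLast?_cons_cons] at h1
      exact List.mem_of_mem_getLast? h1
  obtain ⟨a₁, u, a₂, rfl, hu, ha₂⟩ := exists_last (fun z => z ∈ X) a ⟨x, hxa, hx⟩
  obtain ⟨b₁, w, b₂, rfl, hw, hb₁⟩ := exists_first (fun z => z ∈ X) b ⟨y, hyb, hy⟩
  have e1 : (a₁ ++ u :: a₂) ++ v :: (b₁ ++ w :: b₂) =
      a₁ ++ u :: (a₂ ++ v :: (b₁ ++ w :: b₂)) := by simp
  rw [e1] at h
  have h2 := h.cut.2
  have e2 : u :: (a₂ ++ v :: (b₁ ++ w :: b₂)) = (u :: (a₂ ++ v :: b₁)) ++ w :: b₂ := by simp
  rw [e2] at h2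
  have h3 := h2.cut.1
  refine ⟨u, w, _, hu, hw, ?_, h3, ?_, ?_, ?_⟩
  · rintro rfl
    have h4 := h3.nodup
    rw [List.cons_append, List.nodup_cons] at h4
    exact h4.1 (by simp)
  · simp only [List.length_append, List.length_cons, List.length_nil]
    omega
  · intro z hz hzX
    simp only [List.mem_append, List.mem_cons, List.not_mem_nil, or_false] at hz
    rcases hz with (h4 | h4 | h4 | h4) | h4
    · exact Or.inl h4
    · exact absurd hzX (ha₂ z h4)
    · exact absurd (h4 ▸ hzX) hvX
    · exact absurd hzX (hb₁ z h4)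
    · exact Or.inr h4
  · simp only [List.length_append, List.length_cons, List.length_nil]
    omega

end BlockOneAux

open BlockOneAux

theorem blockOne (h : TwoPaths) (hE : BlockEar) : BlockOne := by
  -- short paths with ends in a block are inside the block
  have inner : ∀ (V : Type) (G : SimpleGraph V) (a b : ℕ), GapP G a b → 5 * a ≤ b →
      ∀ Q : List V, IsCyc G Q → Odd Q.length → Q.length ≤ a →
      ∀ x ∈ XQ G a Q, ∀ y ∈ XQ G a Q, ∀ l : List V, Pth G Set.univ x y l →
        l.length ≤ 3 * a + 1 → ∀ v ∈ l, v ∈ XQ G a Q := by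
    intro V G a b hg hab Q hQ hQo hQa x hx y hy l hl hlen v hv
    by_contra hvX
    obtain ⟨u, w, l', hu, hw, huw, hl', h3, hX, hle⟩ := maxsub hl hx hy hv hvX
    have := hE V G a b hg (by omega) Q hQ hQo hQa u hu w hw huw l' hl' h3 hX
    omega
  have sub : ∀ (V : Type) (G : SimpleGraph V) (a b : ℕ), GapP G a b → 5 * a ≤ b →
      ∀ Q Q' : List V, IsCyc G Q → Odd Q.length → Q.length ≤ a → IsCyc G Q' →
      Q'.length ≤ a → ∀ x, x ∈ XQ G a Q → x ∈ XQ G a Q' → ∀ y, y ∈ XQ G a Q →
      y ∈ XQ G a Q' → x ≠ y → XQ G a Q' ⊆ XQ G a Q := by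
    intro V G a b hg hab Q Q' hQ hQo hQa hQ' hQa' x hx hx' y hy hy' hxy
    -- step 1
    have step1 : ∀ z ∈ Q', z ∈ XQ G a Q := by
      obtain ⟨q, q', l, l', hq, hq', hl, hl', hd, hlq, hlq', hlen⟩ :=
        h V G a Q' hQ' hQa' x hx' y hy' hxy
      have hqq : q ≠ q' := by
        rintro rfl
        exact hd hl.toWk.right_mem hl'.toWk.right_mem
      obtain ⟨m, m', hm, hm', hml, -, hmem⟩ := cyc_arcs hQ' hq hq' hqq
      have hm2 := hm.two_le hqq
      have hm2' := hm'.two_le hqq
      have key : ∀ m : List V, Pth G {z | z ∈ Q'} q q' m → m.length ≤ a → ∀ z ∈ m,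
          z ∈ XQ G a Q := by
        intro m hm hma z hz
        have g1 : Pth G Set.univ x q l := hl.mono (Set.subset_univ _)
        have g2 : Pth G Set.univ q q' m := hm.mono (Set.subset_univ _)
        have g3 : Pth G Set.univ q' y l'.reverse := (hl'.mono (Set.subset_univ _)).reverse
        have g4 := g1.append g2 fun t ht ht' => hlq t ht (hm.mem t ht')
        have g5 := g4.append g3 (by
          intro t ht ht'
          have ht2 : t ∈ l' := List.mem_reverse.1 ht'
          rcases List.mem_append.1 ht with h1 | h1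
          · exact absurd ht2 (fun hh => hd h1 hh)
          · exact hlq' t ht2 (hm.mem t (List.mem_of_mem_tail h1)))
        have hz5 : z ∈ (l ++ m.tail) ++ l'.reverse.tail := by
          by_cases hzq : z = q
          · rw [hzq]
            exact List.mem_append_left _ (List.mem_append_left _ hl.toWk.right_mem)
          · refine List.mem_append_left _ (List.mem_append_right _ ?_)
            obtain ⟨t, rfl⟩ := hm.toWk.exists_cons
            rcases List.mem_cons.1 hz with h1 | h1
            · exact absurd h1 hzq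
            · exact h1
        refine inner V G a b hg hab Q hQ hQo hQa x hx y hy _ g5 ?_ z hz5
        simp only [List.length_append, List.length_tail, List.length_reverse]
        omega
      intro z hz
      rcases (hmem z).1 hz with h1 | h1
      · exact key m hm (by omega) z h1
      · exact key m' hm' (by omega) z h1
    intro v hv
    rcases hv with hv | ⟨q₁, q₂, l, hear, hla⟩
    · exact step1 v hv
    · exact inner V G a b hg hab Q hQ hQo hQa q₁ (step1 _ hear.q1) q₂ (step1 _ hear.q2) l hear.pth
        (by omega) v hear.mem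
  intro V G a b hg hab Q Q' hQ hQo hQa hQ' hQo' hQa' hne x hx hx' y hy hy'
  by_contra hxy
  apply hne
  exact Set.Subset.antisymm
    (sub V G a b hg hab Q' Q hQ' hQo' hQa' hQ hQa x hx' hx y hy' hy hxy)
    (sub V G a b hg hab Q Q' hQ hQo hQa hQ' hQa' x hx hx' y hy hy' hxy)

end Pool.Agent.Lib.MP_b6048d_co.F
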