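import Pool.Agent.Lib.MP_b6048d_co.F.SpecD

set_option autoImplicit false

/-!
# D03: two vertices of a block are joined inside it by short paths of both parities
-/

open scoped Classical

namespace Pool.Agent.Lib.MP_b6048d_co.F.BlockParAux

variable {V : Type}

/-- The concatenation of two disjoint connecting paths with an arc of the cycle. -/
lemma join3 {G : SimpleGraph V} {a : ℕ} {Q : List V} {u w q q' : V} {l l' m : List V}
    (hl : Pth G (XQ G a Q) u q l) (hl' : Pth G (XQ G a Q) w q' l')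
    (hd : List.Disjoint l l') (h1 : ∀ z ∈ l, z ∈ Q → z = q) (h2 : ∀ z ∈ l', z ∈ Q → z = q')
    (hm : Pth G {z | z ∈ Q} q q' m) :
    ∃ r, Pth G (XQ G a Q) u w r ∧ r.length + 2 = l.length + m.length + l'.length := by
  have hm' : Pth G (XQ G a Q) q q' m := hm.mono (fun z hz => Or.inl hz)
  have s1 := hl.append hm' (fun z hz hz' => h1 z hz (hm.mem z hz'))
  have s2 := s1.append hl'.reverse (by
    intro z hz hz'
    have hz2 : z ∈ l' := List.mem_reverse.1 hz'
    rcases List.mem_append.1 hz with h3 | h3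
    · exact absurd hz2 (fun hh => hd h3 hh)
    · exact h2 z hz2 (hm.mem z (List.mem_of_mem_tail h3)))
  refine ⟨_, s2, ?_⟩
  have e1 := hl.toWk.append_length hm'.toWk
  have e2 := s1.toWk.append_length hl'.reverse.toWk
  rw [List.length_reverse] at e2
  omega

end Pool.Agent.Lib.MP_b6048d_co.F.BlockParAux

namespace Pool.Agent.Lib.MP_b6048d_co.F

open BlockParAux

theorem blockPar (h : TwoPaths) : BlockPar := by
  intro V G a Q hQ hodd hQa u hu w hw huw
  obtain ⟨q, q', l, l', hq, hq', hp, hp', hdisj, h1, h2, hlen⟩ := h V G a Q hQ hQa u hu w hw huw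
  have hne : q ≠ q' := by
    rintro rfl
    exact hdisj hp.toWk.right_mem hp'.toWk.right_mem
  obtain ⟨m, m', hm, hm', hsum, -, -⟩ := cyc_arcs hQ hq hq' hne
  have k1 := hm.two_le hne
  have k2 := hm'.two_le hne
  obtain ⟨r, hr, hrl⟩ := join3 hp hp' hdisj h1 h2 hm
  obtain ⟨r', hr', hrl'⟩ := join3 hp hp' hdisj h1 h2 hm'
  obtain ⟨c, hc⟩ := hodd
  rcases Nat.even_or_odd r.length with he | ho
  · refine ⟨⟨r, hr, he, by omega⟩, ⟨r', hr', ?_, by omega⟩⟩
    obtain ⟨d, hd⟩ := he
    rw [Nat.odd_iff]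
    omega
  · refine ⟨⟨r', hr', ?_, by omega⟩, ⟨r, hr, ho, by omega⟩⟩
    obtain ⟨d, hd⟩ := ho
    rw [Nat.even_iff]
    omega

end Pool.Agent.Lib.MP_b6048d_co.F
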