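import Pool.Agent.Lib.MP_b6048d_co.F.SpecD

set_option autoImplicit false

/-!
MP_b6048d_co, D05: existence of the system of blocks.
-/

open scoped Classical

namespace Pool.Agent.Lib.MP_b6048d_co.F

theorem blocksExist (hE : BlockEar) (hP : BlockPar) (hO : BlockOne) : BlocksExist := by
  intro V G a b hgap hab
  refine ⟨{X | ∃ Q : List V, IsCyc G Q ∧ Odd Q.length ∧ Q.length ≤ a ∧ X = XQ G a Q}, ?_⟩
  constructor
  · intro Q hQ hodd hlen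
    exact ⟨XQ G a Q, ⟨Q, hQ, hodd, hlen, rfl⟩, fun z hz => Or.inl hz⟩
  · rintro X ⟨Q, hQ, hodd, hlen, rfl⟩ u hu w hw huw
    obtain ⟨⟨l, h1, h2, h3⟩, l', h4, h5, h6⟩ := hP V G a Q hQ hodd hlen u hu w hw huw
    exact ⟨⟨l, h1, h2, by omega⟩, l', h4, h5, by omega⟩
  · rintro X ⟨Q, hQ, hodd, hlen, rfl⟩ X' ⟨Q', hQ', hodd', hlen', rfl⟩ hne x hx hx' y hy hy'
    exact hO V G a b hgap hab Q Q' hQ hodd hlen hQ' hodd' hlen' hne x hx hx' y hy hy'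
  · rintro X ⟨Q, hQ, hodd, hlen, rfl⟩ u hu w hw huw l hl h3 hz
    exact hE V G a b hgap (by omega) Q hQ hodd hlen u hu w hw huw l hl h3 hz
  · rintro X ⟨Q, hQ, hodd, hlen, rfl⟩
    have h3 : 3 ≤ Q.length := hQ.1
    obtain ⟨x, t, rfl⟩ := List.exists_cons_of_ne_nil (l := Q) (by rintro rfl; simp at h3)
    exact ⟨x, Or.inl (by simp)⟩

end Pool.Agent.Lib.MP_b6048d_co.F
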