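import Pool.Agent.Lib.MP_b6048d_co.F.SpecA

set_option autoImplicit false

/-!
A29: closing the chain.
-/

open scoped Classical

namespace Pool.Agent.Lib.MP_b6048d_co.F.ClosingAux

variable {V : Type} {Γ : SimpleGraph V}

/-- The size conditions. -/
lemma num_small {L : ℕ} (hL : 64 ≤ L) : 28 * L ^ 3 + 4 * L ≤ L ^ 4 := by
  have h1 : 4 * L ≤ L ^ 3 := by
    calc 4 * L ≤ L * L := Nat.mul_le_mul_right _ (by omega)
      _ ≤ L * L * L := Nat.le_mul_of_pos_right _ (by omega)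
      _ = L ^ 3 := by ring
  calc 28 * L ^ 3 + 4 * L ≤ 28 * L ^ 3 + L ^ 3 := by omega
    _ = 29 * L ^ 3 := by ring
    _ ≤ L * L ^ 3 := Nat.mul_le_mul_right _ (by omega)
    _ = L ^ 4 := by ring

lemma num_O {L c₁ o : ℕ} (hL : 64 ≤ L) (ho : o ≤ L ^ c₁) : 40 * L ^ 2 * o ≤ L ^ (c₁ + 4) := by
  have h1 : 40 ≤ L ^ 2 := by
    calc 40 ≤ 64 := by norm_num
      _ ≤ L := hL
      _ = L ^ 1 := (pow_one L).symm
      _ ≤ L ^ 2 := Nat.pow_le_pow_right (by omega) (by norm_num)
  calc 40 * L ^ 2 * o ≤ L ^ 2 * L ^ 2 * L ^ c₁ := by gcongr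
    _ = L ^ (c₁ + 4) := by ring

lemma num_loc {L : ℕ} (hL : 64 ≤ L) : L ^ 11 + L ^ 4 ≤ L ^ 12 := by
  have h1 : L ^ 4 ≤ L ^ 11 := Nat.pow_le_pow_right (by omega) (by norm_num)
  calc L ^ 11 + L ^ 4 ≤ L ^ 11 + L ^ 11 := by omega
    _ = 2 * L ^ 11 := by ring
    _ ≤ L * L ^ 11 := Nat.mul_le_mul_right _ (by omega)
    _ = L ^ 12 := by ring

/-- Every vertex of a walk is close to its first vertex. -/
lemma mem_bl_of_mem {S : Finset V} {u v y : V} {l : List V} {i : ℕ}
    (h : Wk Γ (S : Set V) u v l) (hy : y ∈ l) (hi : l.length ≤ i + 1) : y ∈ bl Γ S {u} i := by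
  obtain ⟨a, b, rfl, h1, -⟩ := h.split hy
  refine mem_bl_single.2 ⟨_, h1, ?_⟩
  simp only [List.length_append, List.length_cons, List.length_nil] at hi ⊢
  omega

end Pool.Agent.Lib.MP_b6048d_co.F.ClosingAux

namespace Pool.Agent.Lib.MP_b6048d_co.F

open ClosingAux

theorem closing (hM : MinBasics) (hC : Conn) : Closing := by
  intro c₁
  obtain ⟨D₀, hD₀, hD⟩ := hM.2 64
  refine ⟨D₀, hD₀, ?_⟩
  intro V Γ D H hDD hH W x x' k P P' A A' z z' c hSt hcard
  have hL : 64 ≤ Lg H := (hD V Γ D H hDD hH).1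
  have hD1 : 1 ≤ D := hD₀.trans hDD
  obtain ⟨L, hLdef⟩ : ∃ L, Lg H = L := ⟨_, rfl⟩
  have cardA : A.card = L ^ (c₁ + 8) := by rw [← hLdef]; exact hSt.cardA
  have cardA' : A'.card = L ^ (c₁ + 4) := by rw [← hLdef]; exact hSt.cardA'
  have conA : ConS Γ z (2 * L) A := by rw [← hLdef]; exact hSt.conA
  have conA' : ConS Γ z' (2 * L) A' := by rw [← hLdef]; exact hSt.conA'
  have locP : ∀ y ∈ P, y ∈ bl Γ (H \ W) {x} (L ^ 11) := by rw [← hLdef]; exact hSt.locP
  have locP' : ∀ y ∈ P', y ∈ bl Γ (H \ W) {x} (L ^ 11) := by rw [← hLdef]; exact hSt.locP'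
  rw [hLdef] at hL hcard
  rw [hLdef]
  set O : Finset V := (W ∩ H) ∪ (P \ {z}) ∪ (P' \ {z'}) with hO
  have hOcard : O.card ≤ L ^ c₁ := by
    calc O.card ≤ ((W ∩ H) ∪ (P \ {z})).card + (P' \ {z'}).card := Finset.card_union_le _ _
      _ ≤ (W ∩ H).card + (P \ {z}).card + (P' \ {z'}).card := by
          have := Finset.card_union_le (W ∩ H) (P \ {z})
          omega
      _ ≤ (W ∩ H).card + P.card + P'.card := by
          have h1 := Finset.card_le_card (Finset.sdiff_subset (s := P) (t := {z}))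
          have h2 := Finset.card_le_card (Finset.sdiff_subset (s := P') (t := {z'}))
          omega
      _ ≤ _ := hcard
  -- `A` and `A'` avoid `O`
  have hAO : A ⊆ H \ O := by
    intro y hy
    have h1 := Finset.mem_sdiff.1 (hSt.subA hy)
    rw [Finset.mem_sdiff]
    refine ⟨h1.1, ?_⟩
    rw [hO, Finset.mem_union, Finset.mem_union, Finset.mem_inter, Finset.mem_sdiff,
      Finset.mem_sdiff, Finset.mem_singleton, Finset.mem_singleton]
    rintro ((h2 | h2) | h2)
    · exact h1.2 h2.1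
    · exact h2.2 (hSt.PA y h2.1 hy)
    · exact Finset.disjoint_left.1 hSt.dAP' hy h2.1
  have hAO' : A' ⊆ H \ O := by
    intro y hy
    have h1 := Finset.mem_sdiff.1 (hSt.subA' hy)
    rw [Finset.mem_sdiff]
    refine ⟨h1.1, ?_⟩
    rw [hO, Finset.mem_union, Finset.mem_union, Finset.mem_inter, Finset.mem_sdiff,
      Finset.mem_sdiff, Finset.mem_singleton, Finset.mem_singleton]
    rintro ((h2 | h2) | h2)
    · exact h1.2 h2.1
    · exact Finset.disjoint_left.1 hSt.dPA' h2.1 hy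
    · exact h2.2 (hSt.PA' y h2.1 hy)
  have hnum := num_O hL hOcard
  obtain ⟨a, ha, a', ha', l₀, hl₀, hlen₀⟩ := hC V Γ D H hD1 hH O A A' hAO hAO' ⟨z, hSt.zA⟩
    ⟨z', hSt.zA'⟩ (by
      rw [cardA, hLdef]
      exact hnum.trans (Nat.pow_le_pow_right (by omega) (by omega))) (by
      rw [cardA', hLdef]
      exact hnum)
  rw [hLdef] at hlen₀
  obtain ⟨l₁, hl₁, hlen₁⟩ := conA.con a ha
  obtain ⟨l₂, hl₂, hlen₂⟩ := conA'.con a' ha'
  have hw₁ : Wk Γ ((H \ O : Finset V) : Set V) z a l₁ := hl₁.mono (by exact_mod_cast hAO)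
  have hw₂ : Wk Γ ((H \ O : Finset V) : Set V) a' z' l₂.reverse :=
    (hl₂.mono (by exact_mod_cast hAO')).reverse
  have hw := (hw₁.append hl₀).append hw₂
  have hwlen : ((l₁ ++ l₀.tail) ++ l₂.reverse.tail).length ≤ 28 * L ^ 3 + 4 * L + 1 := by
    have h1 := hw₁.append_length hl₀
    have h2 := (hw₁.append hl₀).append_length hw₂
    rw [List.length_reverse] at h2
    omega
  obtain ⟨m, hm, -, hmlen⟩ := hw.toPth
  have hmlen' : m.length ≤ 28 * L ^ 3 + 4 * L + 1 := hmlen.trans hwlen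
  have hmlen4 : m.length ≤ L ^ 4 + 1 := by
    have := num_small hL
    omega
  have hOW : ((H \ O : Finset V) : Set V) ⊆ ((H \ W : Finset V) : Set V) := by
    intro y hy
    rw [Finset.mem_coe, Finset.mem_sdiff] at hy ⊢
    refine ⟨hy.1, fun h => hy.2 ?_⟩
    rw [hO, Finset.mem_union, Finset.mem_union, Finset.mem_inter]
    exact Or.inl (Or.inl ⟨h, hy.1⟩)
  have hmP : ∀ y ∈ m, y ∈ P → y = z := by
    intro y hy hyP
    by_contra hne
    have h1 := Finset.mem_sdiff.1 (Finset.mem_coe.1 (hm.mem y hy))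
    apply h1.2
    rw [hO, Finset.mem_union, Finset.mem_union, Finset.mem_sdiff, Finset.mem_singleton]
    exact Or.inl (Or.inr ⟨hyP, hne⟩)
  have hmP' : ∀ y ∈ m, y ∈ P' → y = z' := by
    intro y hy hyP
    by_contra hne
    have h1 := Finset.mem_sdiff.1 (Finset.mem_coe.1 (hm.mem y hy))
    apply h1.2
    rw [hO, Finset.mem_union, Finset.mem_sdiff (s := P'), Finset.mem_singleton]
    exact Or.inr ⟨hyP, hne⟩
  obtain ⟨l', hl'⟩ := hSt.path'
  have hmpos := hm.toWk.length_pos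
  have hl'pos := hl'.toWk.length_pos
  have hl'len := hl'.length_le
  refine ⟨c + (m.length - 1) + (l'.length - 1), by omega, by omega, ?_⟩
  intro j hj
  obtain ⟨l, hl, hllen⟩ := hSt.paths j hj
  have hlW : Pth Γ ((H \ W : Finset V) : Set V) x z l := hl.mono (by exact_mod_cast hSt.subP)
  have hmW : Pth Γ ((H \ W : Finset V) : Set V) z z' m := hm.mono hOW
  have hl'W : Pth Γ ((H \ W : Finset V) : Set V) z' x' l'.reverse :=
    (hl'.mono (by exact_mod_cast hSt.subP')).reverse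
  have hp₁ := hlW.append hmW (fun y hy hy' => hmP y hy' (by exact_mod_cast hl.mem y hy))
  have hp := hp₁.append hl'W (by
    intro y hy hy'
    have hyP' : y ∈ P' := by exact_mod_cast hl'.mem y (List.mem_reverse.1 hy')
    rcases List.mem_append.1 hy with h1 | h1
    · have hyP : y ∈ P := by exact_mod_cast hl.mem y h1
      exact absurd hyP' (Finset.disjoint_left.1 hSt.dPP hyP)
    · exact hmP' y (List.mem_of_mem_tail h1) hyP')
  refine ⟨_, hp, ?_, ?_⟩
  · have h1 := hlW.toWk.append_length hmW.toWk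
    have h2 := hp₁.toWk.append_length hl'W.toWk
    rw [List.length_reverse] at h2
    omega
  · intro y hy
    have h11 : L ^ 11 ≤ L ^ 12 := Nat.pow_le_pow_right (by omega) (by norm_num)
    rcases List.mem_append.1 hy with h1 | h1
    · rcases List.mem_append.1 h1 with h2 | h2
      · exact bl_mono h11 (locP y (by exact_mod_cast hl.mem y h2))
      · have h3 : y ∈ bl Γ (H \ W) {z} (L ^ 4) :=
          mem_bl_of_mem hmW.toWk (List.mem_of_mem_tail h2) hmlen4
        exact bl_mono (num_loc hL) (bl_trans (locP z hSt.zP) h3)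
    · have hyP' : y ∈ P' := by
        exact_mod_cast hl'.mem y (List.mem_reverse.1 (List.mem_of_mem_tail h1))
      exact bl_mono h11 (locP' y hyP')

end Pool.Agent.Lib.MP_b6048d_co.F
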