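import Pool.Agent.Lib.MP_b6048d_co.F.SpecA

set_option autoImplicit false

/-! A06 Conn: two large sets are joined by a short walk avoiding a small set. -/

open scoped Classical

namespace Pool.Agent.Lib.MP_b6048d_co.F

theorem conn (hH : HalfBall) : Conn := by
  intro V Γ D H hD hM O A A' hA hA' hne hne' hc hc'
  have hfil : ∀ (B : Finset V), ((O ∩ H).filter (fun w => ∃ x ∈ B, Γ.Adj x w)).card ≤ O.card :=
    fun B => Finset.card_le_card ((Finset.filter_subset _ _).trans Finset.inter_subset_left)
  have h1 := hH V Γ D H hD hM O A O.card hA hne hc fun i _ => hfil _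
  have h2 := hH V Γ D H hD hM O A' O.card hA' hne' hc' fun i _ => hfil _
  set B := bl Γ (H \ O) A (14 * Lg H ^ 3) with hB
  set B' := bl Γ (H \ O) A' (14 * Lg H ^ 3) with hB'
  have hBH : B ⊆ H := bl_subset.trans Finset.sdiff_subset
  have hBH' : B' ⊆ H := bl_subset.trans Finset.sdiff_subset
  have h3 : (B ∪ B').card ≤ H.card := Finset.card_le_card (Finset.union_subset hBH hBH')
  have h4 := Finset.card_union_add_card_inter B B'
  have h5 : 0 < (B ∩ B').card := by omega
  obtain ⟨x, hx⟩ := Finset.card_pos.1 h5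
  rw [Finset.mem_inter] at hx
  obtain ⟨a, ha, l, hl, hlen⟩ := mem_bl.1 hx.1
  obtain ⟨a', ha', l', hl', hlen'⟩ := mem_bl.1 hx.2
  refine ⟨a, ha, a', ha', _, hl.append hl'.reverse, ?_⟩
  have h6 := hl.append_length hl'.reverse
  rw [List.length_reverse] at h6
  omega

end Pool.Agent.Lib.MP_b6048d_co.F
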