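import Pool.Agent.Lib.MP_b6048d_co.F.SpecA

set_option autoImplicit false

/-!
# A34: covering by blobs
-/

open scoped Classical

namespace Pool.Agent.Lib.MP_b6048d_co.F.CovThmAux

variable {V : Type*}

/-- A set with a positive number of edges contains an edge. -/
lemma exists_adj {Γ : SimpleGraph V} {H : Finset V} (h : 0 < ed Γ H) :
    ∃ u ∈ H, ∃ v ∈ H, Γ.Adj u v := by
  by_contra hc
  push Not at hc
  have h0 : ed Γ H = 0 := by
    unfold ed
    have : ∀ v ∈ H, (dg Γ H v : ℝ) = 0 := by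
      intro v hv
      have : dg Γ H v = 0 := by
        unfold dg
        rw [Finset.card_eq_zero, Finset.filter_eq_empty_iff]
        intro w hw
        exact hc v hv w hw
      rw [this]; simp
    rw [Finset.sum_eq_zero this]; simp
  rw [h0] at h
  exact lt_irrefl _ h

/-- Product colouring. -/
lemma colorable_mul {G A B : SimpleGraph V} (h : ∀ u v, G.Adj u v → A.Adj u v ∨ B.Adj u v)
    {n m : ℕ} (hA : A.Colorable n) (hB : B.Colorable m) : G.Colorable (n * m) := by
  obtain ⟨cA⟩ := hA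
  obtain ⟨cB⟩ := hB
  have c : G.Coloring (Fin n × Fin m) := SimpleGraph.Coloring.mk (fun v => (cA v, cB v)) (by
    intro u v huv he
    rcases h u v huv with h1 | h1
    · exact cA.valid h1 (by simpa using congrArg Prod.fst he)
    · exact cB.valid h1 (by simpa using congrArg Prod.snd he))
  have := c.colorable
  simpa using this

/-- The graph of the edges of `G` lying in a blob. -/
def cover (G : SimpleGraph V) (κ C lam₀ : ℕ) : SimpleGraph V where
  Adj u v := G.Adj u v ∧ ∃ (Γ : SimpleGraph V) (col : V → Bool) (H : Finset V) (lam : ℕ),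
    Γ ≤ G ∧ u ∈ H ∧ v ∈ H ∧ Γ.Adj u v ∧ lam₀ ≤ lam ∧ Blob κ C lam Γ col H
  symm := ⟨by
    rintro u v ⟨h, Γ, col, H, lam, h1, h2, h3, h4, h5, h6⟩
    exact ⟨h.symm, Γ, col, H, lam, h1, h3, h2, h4.symm, h5, h6⟩⟩
  loopless := ⟨fun u h => h.1.ne rfl⟩

/-- The graph of the edges of `Γ` with both ends in `H`. -/
def inside (Γ : SimpleGraph V) (H : Finset V) : SimpleGraph V where
  Adj u v := Γ.Adj u v ∧ u ∈ H ∧ v ∈ H
  symm := ⟨by
    rintro u v ⟨h, h1, h2⟩
    exact ⟨h.symm, h2, h1⟩⟩
  loopless := ⟨fun u h => h.1.ne rfl⟩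

end Pool.Agent.Lib.MP_b6048d_co.F.CovThmAux

namespace Pool.Agent.Lib.MP_b6048d_co.F

open CovThmAux

/-- **A34 CovThm.** -/
theorem covThm (hT : TauFacts) (hBT : BlobThm) (hBR : BlobRestrict) (hDB : DenseBip) : CovThm := by
  intro κ C lam₀
  obtain ⟨D, hD1, hD⟩ := hBT κ C lam₀
  refine ⟨8 * (2 * D), by omega, ?_⟩
  intro V G
  refine ⟨cover G κ C lam₀, fun u v h => h.1, ?_, ?_⟩
  · rintro u v ⟨hG, Γ, col, H, lam, h1, h2, h3, h4, h5, h6⟩
    refine ⟨inside Γ H, col, H, lam, ?_, h2, h3, ⟨h4, h2, h3⟩, h5, ?_⟩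
    · rintro a b ⟨hab, ha, hb⟩
      exact ⟨h1 hab, Γ, col, H, lam, h1, ha, hb, hab, h5, h6⟩
    · refine hBR V Γ (inside Γ H) col H κ C lam ?_ h6
      intro a ha b hb
      exact ⟨fun h => ⟨h, ha, hb⟩, fun h => h.1⟩
  · intro n hn
    refine colorable_mul (A := cover G κ C lam₀) (B := G \ cover G κ C lam₀) ?_ hn ?_
    · intro u v huv
      by_cases h : (cover G κ C lam₀).Adj u v
      · exact Or.inl h
      · right
        rw [SimpleGraph.sdiff_adj]
        exact ⟨huv, h⟩
    · by_contra hc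
      obtain ⟨Γ, col, A, hΓ, hA, hbip, hed⟩ := hDB (2 * D) (by omega) V _ hc
      have hD0 : (0 : ℝ) < D := by exact_mod_cast (by omega : 0 < D)
      have hbd := (hT D hD0).1
      have hdens : tau D A.card * A.card ≤ ed Γ A := by
        refine le_trans ?_ hed
        refine mul_le_mul_of_nonneg_right ?_ (by positivity)
        have := (hbd A.card).2
        push_cast
        exact this
      obtain ⟨H, hH⟩ := exists_minD hA hdens
      obtain ⟨lam, hlam, hblob⟩ := hD V Γ col D H le_rfl hH (fun u _ v _ huv => (hbip u v huv).2.2)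
      have hpos : 0 < ed Γ H := by
        refine lt_of_lt_of_le ?_ hH.dens
        have h1 : 0 < tau D H.card := lt_of_lt_of_le hD0 (hbd H.card).1
        have h2 : (0 : ℝ) < H.card := by exact_mod_cast hH.ne.card_pos
        positivity
      obtain ⟨u, hu, v, hv, huv⟩ := exists_adj hpos
      have h3 := hΓ huv
      rw [SimpleGraph.sdiff_adj] at h3
      refine h3.2 ⟨h3.1, Γ, col, H, lam, ?_, hu, hv, huv, hlam, hblob⟩
      exact le_trans hΓ sdiff_le

end Pool.Agent.Lib.MP_b6048d_co.F
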