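import Pool.Agent.Lib.MP_b6048d_co.F.SpecC

set_option autoImplicit false

/-!
C05 of the full solution of MP_b6048d_co: crossing links.
-/

open scoped Classical

namespace Pool.Agent.Lib.MP_b6048d_co.F.CrossAux

variable {V : Type*} {G : SimpleGraph V} {S : Set V} {u v w : V} {l l' : List V}

theorem mem_append_tail (h : Wk G S u v l) (h' : Wk G S v w l') (z : V) :
    z ∈ l ++ l'.tail ↔ z ∈ l ∨ z ∈ l' := by
  obtain ⟨t, rfl⟩ := h'.exists_cons
  rw [List.tail_cons, List.mem_append, List.mem_cons]
  constructor
  · rintro (h1 | h1)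
    · exact Or.inl h1
    · exact Or.inr (Or.inr h1)
  · rintro (h1 | h1 | h1)
    · exact Or.inl h1
    · rw [h1]
      exact Or.inl h.right_mem
    · exact Or.inr h1

/-- positions in a list without repetition -/
theorem idx_inj (hn : l.Nodup) {i j : ℕ} {x : V} (hi : l[i]? = some x) (hj : l[j]? = some x) :
    i = j := by
  obtain ⟨hi1, hi2⟩ := List.getElem?_eq_some_iff.1 hi
  obtain ⟨hj1, hj2⟩ := List.getElem?_eq_some_iff.1 hj
  exact (hn.getElem_inj_iff).1 (hi2.trans hj2.symm)

theorem mem_of_idx {i : ℕ} {x : V} (hi : l[i]? = some x) : x ∈ l :=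
  List.mem_of_getElem? hi

/-- cut a list in one position -/
theorem split_idx {i : ℕ} {x : V} (hi : l[i]? = some x) :
    l = l.take i ++ x :: l.drop (i + 1) ∧ (l.take i).length = i := by
  obtain ⟨hi1, hi2⟩ := List.getElem?_eq_some_iff.1 hi
  constructor
  · rw [← hi2, List.cons_getElem_drop_succ, List.take_append_drop]
  · rw [List.length_take]
    omega

/-- the part of a path between two of its positions -/
theorem seg (h : Pth G S u v l) {b c : ℕ} {x y : V} (hbc : b ≤ c) (hb : l[b]? = some x)
    (hc : l[c]? = some y) :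
    ∃ s, Pth G S x y s ∧ s.length = c - b + 1 ∧
      (∀ z ∈ s, ∃ i, b ≤ i ∧ i ≤ c ∧ l[i]? = some z) ∧
      ∀ i z, b ≤ i → i ≤ c → l[i]? = some z → z ∈ s := by
  obtain ⟨hc1, hc2⟩ := split_idx hc
  obtain ⟨hcl, -⟩ := List.getElem?_eq_some_iff.1 hc
  have hp1 : Pth G S u y (l.take c ++ [y]) := by
    rw [hc1] at h
    exact h.cut.1
  have hidx : ∀ i, i ≤ c → (l.take c ++ [y])[i]? = l[i]? := by
    intro i hi
    rcases Nat.lt_or_ge i c with h1 | h1
    · rw [List.getElem?_append_left (by rw [hc2]; exact h1), List.getElem?_take_of_lt h1]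
    · have h2 : i = c := le_antisymm hi h1
      rw [h2, List.getElem?_append_right (by rw [hc2]), hc2, hc]
      simp
  have hlen : (l.take c ++ [y]).length = c + 1 := by
    rw [List.length_append, hc2, List.length_singleton]
  generalize l.take c ++ [y] = L at hp1 hidx hlen
  have hb' : L[b]? = some x := by rw [hidx b hbc, hb]
  obtain ⟨hb1, hb2⟩ := split_idx hb'
  have hp2 : Pth G S x y (x :: L.drop (b + 1)) := by
    rw [hb1] at hp1
    exact hp1.cut.2
  have hdrop : x :: L.drop (b + 1) = L.drop b := by
    obtain ⟨h3, h4⟩ := List.getElem?_eq_some_iff.1 hb'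
    rw [← h4, List.cons_getElem_drop_succ]
  rw [hdrop] at hp2
  refine ⟨_, hp2, ?_, ?_, ?_⟩
  · rw [List.length_drop, hlen]
    omega
  · intro z hz
    obtain ⟨i, hi⟩ := List.getElem?_of_mem hz
    rw [List.getElem?_drop] at hi
    have h5 : b + i < L.length := (List.getElem?_eq_some_iff.1 hi).1
    refine ⟨b + i, by omega, by omega, ?_⟩
    rw [← hidx (b + i) (by omega)]
    exact hi
  · intro i z h5 h6 h7
    rw [← hidx i h6] at h7
    have h8 : (L.drop b)[i - b]? = some z := by
      rw [List.getElem?_drop, show b + (i - b) = i by omega]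
      exact h7
    exact List.mem_of_getElem? h8

theorem ends (h : Wk G S u v l) : l[0]? = some u ∧ l[l.length - 1]? = some v := by
  constructor
  · rw [← List.head?_eq_getElem?]
    exact h.head
  · rw [← List.getLast?_eq_getElem?]
    exact h.last

/-- two links with a common vertex outside `W` give a link between their starting points -/
theorem link_join {W : Set V} {x' x t' t z : V} {r' r : List V} {k : ℕ}
    (hr' : Pth G Set.univ x' t' r') (hr : Pth G Set.univ x t r)
    (hl' : r'.length ≤ k + 1) (hl : r.length ≤ k + 1)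
    (hW' : ∀ y ∈ r', y ∈ W → y = x' ∨ y = t') (hW : ∀ y ∈ r, y ∈ W → y = x ∨ y = t)
    (ht'W : t' ∈ W) (htW : t ∈ W) (hz' : z ∈ r') (hz : z ∈ r) (hzW : z ∉ W) :
    Lk G W x' x (2 * k) := by
  obtain ⟨s1, s2, e1, p1, p2⟩ := hr'.split hz'
  obtain ⟨s3, s4, e3, p3, p4⟩ := hr.split hz
  obtain ⟨p, hp, hsub, hlen⟩ := (p1.toWk.append p3.toWk.reverse).toPth
  have hlen2 := p1.toWk.append_length p3.toWk.reverse
  refine ⟨p, hp, ?_, ?_⟩
  · have h5 : (s1 ++ [z]).length = s1.length + 1 := by simp
    have h6 : (s3 ++ [z]).reverse.length = s3.length + 1 := by simp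
    rw [h5, h6] at hlen2
    rw [e1, List.length_append, List.length_cons] at hl'
    rw [e3, List.length_append, List.length_cons] at hl
    omega
  · intro y hy hyW
    have h1 := (mem_append_tail p1.toWk p3.toWk.reverse y).1 (hsub hy)
    rcases h1 with h1 | h1
    · left
      have h2 : y ∈ r' := by
        rw [e1, List.mem_append, List.mem_cons]
        rw [List.mem_append, List.mem_singleton] at h1
        tauto
      rcases hW' y h2 hyW with h3 | h3
      · exact h3
      · exfalso
        rw [h3, List.mem_append, List.mem_singleton] at h1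
        rcases h1 with h1 | h1
        · have hn := hr'.nodup
          rw [e1, List.nodup_append'] at hn
          exact hn.2.2 h1 p2.toWk.right_mem
        · rw [h1] at ht'W
          exact hzW ht'W
    · right
      rw [List.mem_reverse] at h1
      have h2 : y ∈ r := by
        rw [e3, List.mem_append, List.mem_cons]
        rw [List.mem_append, List.mem_singleton] at h1
        tauto
      rcases hW y h2 hyW with h3 | h3
      · exact h3
      · exfalso
        rw [h3, List.mem_append, List.mem_singleton] at h1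
        rcases h1 with h1 | h1
        · have hn := hr.nodup
          rw [e3, List.nodup_append'] at hn
          exact hn.2.2 h1 p4.toWk.right_mem
        · rw [h1] at htW
          exact hzW htW

end Pool.Agent.Lib.MP_b6048d_co.F.CrossAux

namespace Pool.Agent.Lib.MP_b6048d_co.F

open CrossAux

theorem cross (h : SameLeg) : Cross := by
  intro V G Q q₁ q₂ v l hmin m a b c d k x' x t' t hm ha hb hc hd hab hbm hmc hcd
    ⟨r', hr', hl', hW'⟩ ⟨r, hr, hl, hW⟩
  by_contra hcon
  push Not at hcon
  have hpth := hmin.1.pth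
  have hn := hpth.nodup
  have inW : ∀ {i : ℕ} {z : V}, l[i]? = some z → z ∈ Q ∪ {z | z ∈ l} := fun hi =>
    Or.inr (mem_of_idx hi)
  -- the links are disjoint
  have hdisj : ∀ z, z ∈ r' → z ∉ r := by
    intro z hz' hz
    by_cases hzW : z ∈ Q ∪ {z | z ∈ l}
    · rcases hW' z hz' hzW with h1 | h1 <;> rcases hW z hz hzW with h2 | h2
      · rw [← h1, h2] at ha
        have := idx_inj hn ha hb
        omega
      · rw [← h1, h2] at ha
        have := idx_inj hn ha hd
        omega
      · have h3 := h V G Q q₁ q₂ v l hmin m a b k x' x hm ha hb hab hbm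
          ⟨r', by rw [← h2, h1]; exact hr', hl', by rw [← h2, h1]; exact hW'⟩
        omega
      · rw [← h1, h2] at hc
        have := idx_inj hn hc hd
        omega
    · have h3 := h V G Q q₁ q₂ v l hmin m a b (2 * k) x' x hm ha hb hab hbm
        (link_join hr' hr hl' hl hW' hW (inW hc) (inW hd) hz' hz hzW)
      omega
  have hbc : b ≤ c := hbm.trans hmc
  obtain ⟨h0, hlast⟩ := ends hpth.toWk
  have hdl : d < l.length := (List.getElem?_eq_some_iff.1 hd).1
  -- the pieces
  obtain ⟨s1, p1, n1, i1, -⟩ := seg hpth (Nat.zero_le a) h0 ha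
  obtain ⟨s3, p3, n3, i3, j3⟩ := seg hpth hbc hb hc
  obtain ⟨s5, p5, n5, i5, -⟩ := seg hpth (show d ≤ l.length - 1 by omega) hd hlast
  have hWl' : ∀ y ∈ r', ∀ i, l[i]? = some y → i = a ∨ i = c := by
    intro y hy i hi
    rcases hW' y hy (inW hi) with h1 | h1
    · rw [h1] at hi
      exact Or.inl (idx_inj hn hi ha)
    · rw [h1] at hi
      exact Or.inr (idx_inj hn hi hc)
  have hWl : ∀ y ∈ r, ∀ i, l[i]? = some y → i = b ∨ i = d := by
    intro y hy i hi
    rcases hW y hy (inW hi) with h1 | h1
    · rw [h1] at hi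
      exact Or.inl (idx_inj hn hi hb)
    · rw [h1] at hi
      exact Or.inr (idx_inj hn hi hd)
  have eqat : ∀ {i j : ℕ} {y z : V}, l[i]? = some y → l[j]? = some z → i = j → y = z := by
    intro i j y z hi hj hij
    rw [hij, hj] at hi
    exact (Option.some.inj hi).symm
  -- first join
  have q2 : Pth G Set.univ q₁ t' (s1 ++ r'.tail) := by
    apply p1.append hr'
    intro z hz hz'
    obtain ⟨i, -, hi2, hi3⟩ := i1 z hz
    rcases hWl' z hz' i hi3 with h1 | h1
    · exact eqat hi3 ha h1
    · omega
  have m2 := mem_append_tail p1.toWk hr'.toWk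
  have l2 := p1.toWk.append_length hr'.toWk
  -- second join
  have p3r := p3.reverse
  have q3 : Pth G Set.univ q₁ x ((s1 ++ r'.tail) ++ s3.reverse.tail) := by
    apply q2.append p3r
    intro z hz hz'
    rw [List.mem_reverse] at hz'
    obtain ⟨j, hj1, hj2, hj3⟩ := i3 z hz'
    rcases (m2 z).1 hz with h1 | h1
    · obtain ⟨i, -, hi2, hi3⟩ := i1 z h1
      have := idx_inj hn hi3 hj3
      omega
    · rcases hWl' z h1 j hj3 with h4 | h4
      · omega
      · exact eqat hj3 hc h4
  have m3 := mem_append_tail q2.toWk p3r.toWk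
  have l3 := q2.toWk.append_length p3r.toWk
  -- third join
  have q4 : Pth G Set.univ q₁ t (((s1 ++ r'.tail) ++ s3.reverse.tail) ++ r.tail) := by
    apply q3.append hr
    intro z hz hz'
    rcases (m3 z).1 hz with h1 | h1
    · rcases (m2 z).1 h1 with h2 | h2
      · obtain ⟨i, -, hi2, hi3⟩ := i1 z h2
        rcases hWl z hz' i hi3 with h4 | h4 <;> omega
      · exact absurd hz' (hdisj z h2)
    · rw [List.mem_reverse] at h1
      obtain ⟨j, hj1, hj2, hj3⟩ := i3 z h1
      rcases hWl z hz' j hj3 with h4 | h4
      · exact eqat hj3 hb h4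
      · omega
  have m4 := mem_append_tail q3.toWk hr.toWk
  have l4 := q3.toWk.append_length hr.toWk
  -- fourth join
  have q5 : Pth G Set.univ q₁ q₂
      ((((s1 ++ r'.tail) ++ s3.reverse.tail) ++ r.tail) ++ s5.tail) := by
    apply q4.append p5
    intro z hz hz'
    obtain ⟨j, hj1, hj2, hj3⟩ := i5 z hz'
    rcases (m4 z).1 hz with h1 | h1
    · rcases (m3 z).1 h1 with h2 | h2
      · rcases (m2 z).1 h2 with h3 | h3
        · obtain ⟨i, -, hi2, hi3⟩ := i1 z h3
          have := idx_inj hn hi3 hj3
          omega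
        · rcases hWl' z h3 j hj3 with h4 | h4 <;> omega
      · rw [List.mem_reverse] at h2
        obtain ⟨i, hi1, hi2, hi3⟩ := i3 z h2
        have := idx_inj hn hi3 hj3
        omega
    · rcases hWl z h1 j hj3 with h4 | h4
      · omega
      · exact eqat hj3 hd h4
  have m5 := mem_append_tail q4.toWk p5.toWk
  have l5 := q4.toWk.append_length p5.toWk
  -- the new ear
  have hear : Ear G Q q₁ q₂ v
      ((((s1 ++ r'.tail) ++ s3.reverse.tail) ++ r.tail) ++ s5.tail) := by
    refine ⟨hmin.1.q1, hmin.1.q2, hmin.1.ne, q5, ?_, ?_, hmin.1.out⟩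
    · intro z hz hzQ
      apply hmin.1.int z _ hzQ
      rcases (m5 z).1 hz with h1 | h1
      · rcases (m4 z).1 h1 with h2 | h2
        · rcases (m3 z).1 h2 with h3 | h3
          · rcases (m2 z).1 h3 with h4 | h4
            · obtain ⟨i, -, -, hi⟩ := i1 z h4
              exact mem_of_idx hi
            · rcases hW' z h4 (Or.inl hzQ) with h5 | h5
              · rw [h5]
                exact mem_of_idx ha
              · rw [h5]
                exact mem_of_idx hc
          · rw [List.mem_reverse] at h3
            obtain ⟨i, -, -, hi⟩ := i3 z h3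
            exact mem_of_idx hi
        · rcases hW z h2 (Or.inl hzQ) with h5 | h5
          · rw [h5]
            exact mem_of_idx hb
          · rw [h5]
            exact mem_of_idx hd
      · obtain ⟨i, -, -, hi⟩ := i5 z h1
        exact mem_of_idx hi
    · rw [m5, m4, m3]
      left; left; right
      rw [List.mem_reverse]
      exact j3 m v hbm hmc hm
  have hle := hmin.2 q₁ q₂ _ hear
  rw [List.length_reverse] at l3
  omega

end Pool.Agent.Lib.MP_b6048d_co.F
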