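import Pool.Agent.Lib.MP_b6048d_co.F.SpecC

set_option autoImplicit false

open scoped Classical

namespace Pool.Agent.Lib.MP_b6048d_co.F.CrossCountAux

/-- One residue class. -/
theorem oneClass (m p t : ℕ) (T : ℕ → Finset ℕ) (S : Finset ℕ)
    (hT : ∀ a, T a ⊆ Finset.Ioc m p)
    (hS : ∀ a ∈ S, t < (T a).card)
    (hlt : ∀ a ∈ S, ∀ b ∈ S, a < b → ∀ c ∈ T a, ∀ d ∈ T b, d ≤ c) :
    t * S.card ≤ p - m := by
  have hne : ∀ a ∈ S, (T a).Nonempty := fun a ha =>
    Finset.card_pos.1 ((Nat.zero_le _).trans_lt (hS a ha))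
  let T' : ℕ → Finset ℕ := fun a => (T a).filter (fun c => ∃ c' ∈ T a, c' < c)
  have hT' : ∀ a ∈ S, t ≤ (T' a).card := by
    intro a ha
    have h1 : T a ⊆ insert ((T a).min' (hne a ha)) (T' a) := by
      intro c hc
      rw [Finset.mem_insert]
      rcases (Finset.min'_le _ c hc).eq_or_lt with h | h
      · exact Or.inl h.symm
      · exact Or.inr (Finset.mem_filter.2 ⟨hc, _, Finset.min'_mem _ (hne a ha), h⟩)
    have h2 := (Finset.card_le_card h1).trans (Finset.card_insert_le _ _)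
    have h3 := hS a ha
    omega
  have hdisj : (S : Set ℕ).PairwiseDisjoint T' := by
    have aux : ∀ a ∈ S, ∀ b ∈ S, a < b → Disjoint (T' a) (T' b) := by
      intro a ha b hb hab
      rw [Finset.disjoint_left]
      intro c hc hc'
      obtain ⟨h1, c', h2, h3⟩ := Finset.mem_filter.1 hc
      have h4 := hlt a ha b hb hab c' h2 c (Finset.mem_filter.1 hc').1
      omega
    intro a ha b hb hab
    rcases lt_or_gt_of_ne hab with h | h
    · exact aux a ha b hb h
    · exact (aux b hb a ha h).symm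
  have h1 : S.biUnion T' ⊆ Finset.Ioc m p := by
    intro c hc
    obtain ⟨a, _, h⟩ := Finset.mem_biUnion.1 hc
    exact hT a (Finset.mem_filter.1 h).1
  have h2 := Finset.card_le_card h1
  rw [Finset.card_biUnion hdisj, Nat.card_Ioc] at h2
  calc t * S.card = ∑ a ∈ S, t := by rw [Finset.sum_const, smul_eq_mul, mul_comm]
    _ ≤ ∑ a ∈ S, (T' a).card := Finset.sum_le_sum hT'
    _ ≤ p - m := h2

/-- All residue classes. -/
theorem oneK (m p κ k : ℕ) (T : ℕ → Finset ℕ) (B : Finset ℕ) (hk : 1 ≤ k)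
    (hT : ∀ a, T a ⊆ Finset.Ioc m p) (hBm : ∀ a ∈ B, a ≤ m)
    (hB : ∀ a ∈ B, κ * k ^ 3 < (T a).card)
    (h : ∀ a b c d, a < b → b ≤ m → c ∈ T a → d ∈ T b → c < d → b ≤ a + 2 * k) :
    κ * k ^ 2 * B.card ≤ 3 * (p - m) := by
  have h1 : B.card = ∑ c ∈ Finset.range (2 * k + 1), (B.filter (fun a => a % (2 * k + 1) = c)).card :=
    Finset.card_eq_sum_card_fiberwise (fun a _ => by
      have := Nat.mod_lt a (show 0 < 2 * k + 1 by omega)
      simpa using this)
  have h2 : ∀ c ∈ Finset.range (2 * k + 1),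
      κ * k ^ 3 * (B.filter (fun a => a % (2 * k + 1) = c)).card ≤ p - m := by
    intro c _
    apply oneClass m p _ T _ hT
    · intro a ha
      exact hB a (Finset.mem_filter.1 ha).1
    · intro a ha b hb hab x hx y hy
      by_contra hcon
      have ha' := Finset.mem_filter.1 ha
      have hb' := Finset.mem_filter.1 hb
      have h3 := h a b x y hab (hBm b hb'.1) hx hy (by omega)
      have h4 : (b - a) % (2 * k + 1) = 0 := by
        have h5 : a ≡ b [MOD (2 * k + 1)] := by
          rw [Nat.ModEq, ha'.2, hb'.2]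
        have h6 := (Nat.modEq_iff_dvd' hab.le).1 h5
        exact Nat.mod_eq_zero_of_dvd h6
      have h5 := Nat.mod_eq_of_lt (show b - a < 2 * k + 1 by omega)
      omega
  have h3 : κ * k ^ 3 * B.card ≤ (2 * k + 1) * (p - m) := by
    rw [h1, Finset.mul_sum]
    calc _ ≤ ∑ c ∈ Finset.range (2 * k + 1), (p - m) := Finset.sum_le_sum h2
      _ = _ := by rw [Finset.sum_const, Finset.card_range, smul_eq_mul]
  have h4 : k * (κ * k ^ 2 * B.card) ≤ k * (3 * (p - m)) := by
    calc k * (κ * k ^ 2 * B.card) = κ * k ^ 3 * B.card := by ring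
      _ ≤ (2 * k + 1) * (p - m) := h3
      _ ≤ (3 * k) * (p - m) := Nat.mul_le_mul_right _ (by omega)
      _ = k * (3 * (p - m)) := by ring
  exact Nat.le_of_mul_le_mul_left h4 (by omega)

theorem sum_inv_sq (N : ℕ) : ∑ k ∈ Finset.range N, (1 : ℝ) / ((k : ℝ) + 1) ^ 2 ≤ 2 := by
  have h : ∀ N : ℕ, 1 ≤ N → ∑ k ∈ Finset.range N, (1 : ℝ) / ((k : ℝ) + 1) ^ 2 ≤ 2 - 1 / (N : ℝ) := by
    intro N hN
    induction N, hN using Nat.le_induction with
    | base => norm_num
    | succ n hn ih =>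
      rw [Finset.sum_range_succ]
      have hn' : (1 : ℝ) ≤ n := by exact_mod_cast hn
      have h1 : (1 : ℝ) / ((n : ℝ) + 1) ^ 2 ≤ 1 / n - 1 / ((n : ℝ) + 1) := by
        rw [div_sub_div _ _ (by positivity) (by positivity), div_le_div_iff₀ (by positivity)
          (by positivity)]
        nlinarith
      push_cast
      linarith
  rcases Nat.eq_zero_or_pos N with rfl | hN
  · simp
  · have h1 := h N hN
    have h2 : (0 : ℝ) ≤ 1 / (N : ℝ) := by positivity
    linarith

end Pool.Agent.Lib.MP_b6048d_co.F.CrossCountAux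

namespace Pool.Agent.Lib.MP_b6048d_co.F

open CrossCountAux

theorem crossCount : CrossCount := by
  intro m p κ T hκ hT h
  set n := p - m with hn
  let B : ℕ → Finset ℕ := fun k =>
    (Finset.range (m + 1)).filter (fun a => κ * (k + 1) ^ 3 < (T (k + 1) a).card)
  have hB : ∀ k, (κ : ℝ) * (B k).card ≤ 3 * n * (1 / ((k : ℝ) + 1) ^ 2) := by
    intro k
    have h1 := oneK m p κ (k + 1) (T (k + 1)) (B k) (by omega) (hT (k + 1))
      (fun a ha => by
        have := Finset.mem_range.1 (Finset.mem_filter.1 ha).1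
        omega)
      (fun a ha => (Finset.mem_filter.1 ha).2) (h (k + 1))
    have h2 : (κ : ℝ) * ((k : ℝ) + 1) ^ 2 * (B k).card ≤ 3 * n := by exact_mod_cast h1
    rw [mul_one_div, le_div_iff₀ (by positivity)]
    linarith
  have hsub : (Finset.range (m + 1)).filter (fun a => ∃ k, 1 ≤ k ∧ κ * k ^ 3 < (T k a).card) ⊆
      (Finset.range n).biUnion B := by
    intro a ha
    obtain ⟨h1, k, hk, h2⟩ := Finset.mem_filter.1 ha
    rw [Finset.mem_biUnion]
    have h3 : (T k a).card ≤ n := by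
      have := Finset.card_le_card (hT k a)
      rwa [Nat.card_Ioc] at this
    have h4 : k ≤ κ * k ^ 3 := by
      calc k = 1 * k ^ 1 := by ring
        _ ≤ κ * k ^ 3 := Nat.mul_le_mul hκ (Nat.pow_le_pow_right hk (by norm_num))
    refine ⟨k - 1, Finset.mem_range.2 (by omega), Finset.mem_filter.2 ⟨h1, ?_⟩⟩
    have h5 : k - 1 + 1 = k := by omega
    rw [h5]
    exact h2
  have h1 := Finset.card_le_card hsub
  have h2 := h1.trans Finset.card_biUnion_le
  have h3 : (κ : ℝ) * ((Finset.range (m + 1)).filter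
      (fun a => ∃ k, 1 ≤ k ∧ κ * k ^ 3 < (T k a).card)).card ≤ 6 * n := by
    calc (κ : ℝ) * ((Finset.range (m + 1)).filter
          (fun a => ∃ k, 1 ≤ k ∧ κ * k ^ 3 < (T k a).card)).card
        ≤ κ * ∑ k ∈ Finset.range n, ((B k).card : ℝ) := by
          apply mul_le_mul_of_nonneg_left _ (by positivity)
          exact_mod_cast h2
      _ = ∑ k ∈ Finset.range n, (κ : ℝ) * (B k).card := by rw [Finset.mul_sum]
      _ ≤ ∑ k ∈ Finset.range n, 3 * n * (1 / ((k : ℝ) + 1) ^ 2) :=
          Finset.sum_le_sum fun k _ => hB k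
      _ = 3 * n * ∑ k ∈ Finset.range n, (1 : ℝ) / ((k : ℝ) + 1) ^ 2 := by rw [Finset.mul_sum]
      _ ≤ 3 * n * 2 := mul_le_mul_of_nonneg_left (sum_inv_sq n) (by positivity)
      _ = 6 * n := by ring
  exact_mod_cast h3

end Pool.Agent.Lib.MP_b6048d_co.F
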