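import Pool.Agent.Lib.MP_b6048d_co.F.SpecA

/-!
# A graph of large chromatic number contains a dense finite bipartite subgraph
-/

set_option autoImplicit false

open scoped Classical

namespace Pool.Agent.Lib.MP_b6048d_co.F

namespace DenseBipAux

variable {V : Type}

theorem filter_ext (A : Finset V) (P Q : V → Prop) {i1 : DecidablePred P} {i2 : DecidablePred Q}
    (h : ∀ v ∈ A, P v ↔ Q v) : @Finset.filter _ P i1 A = @Finset.filter _ Q i2 A := by
  ext v
  rw [Finset.mem_filter, Finset.mem_filter]
  exact ⟨fun hv => ⟨hv.1, (h v hv.1).1 hv.2⟩, fun hv => ⟨hv.1, (h v hv.1).2 hv.2⟩⟩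

/-- the graph of the bichromatic edges inside `A` -/
def bi (F : SimpleGraph V) (A : Finset V) (col : V → Bool) : SimpleGraph V where
  Adj := fun u v => F.Adj u v ∧ u ∈ A ∧ v ∈ A ∧ col u ≠ col v
  symm := ⟨fun _ _ h => ⟨h.1.symm, h.2.2.1, h.2.1, h.2.2.2.symm⟩⟩
  loopless := ⟨fun _ h => h.2.2.2 rfl⟩

/-- `c` is a proper colouring of `F` on `A` -/
def Good (F : SimpleGraph V) (n : ℕ) (A : Finset V) : Prop :=
  ∃ c : V → Fin n, ∀ u ∈ A, ∀ v ∈ A, F.Adj u v → c u ≠ c v

theorem exists_bad {F : SimpleGraph V} {n : ℕ} (h : ¬ F.Colorable n) : ∃ A, ¬ Good F n A := by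
  by_contra hcon
  push Not at hcon
  apply h
  have h1 : ∀ G' : F.Subgraph, G'.verts.Finite →
      Nonempty (G'.coe →g (⊤ : SimpleGraph (Fin n))) := by
    intro G' hG'
    obtain ⟨θ, hθ⟩ := hcon hG'.toFinset
    refine ⟨⟨fun v => θ v.1, ?_⟩⟩
    intro u v huv
    rw [SimpleGraph.top_adj]
    exact hθ u.1 (by simp) v.1 (by simp) (G'.adj_sub huv)
  obtain ⟨f⟩ := SimpleGraph.nonempty_hom_of_forall_finite_subgraph_hom
    (fun G' hG' => (h1 G' hG').some)
  exact ⟨f⟩

/-- a critical set -/
theorem exists_critical {F : SimpleGraph V} {n : ℕ} (hn : 1 ≤ n) (h : ¬ F.Colorable n) :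
    ∃ A : Finset V, A.Nonempty ∧ ∀ v ∈ A, n ≤ dg F A v := by
  have hex : ∃ m, ∃ A : Finset V, A.card = m ∧ ¬ Good F n A := by
    obtain ⟨A, hA⟩ := exists_bad h
    exact ⟨A.card, A, rfl, hA⟩
  obtain ⟨A, hAm, hA⟩ := Nat.find_spec hex
  have hmin : ∀ B : Finset V, B.card < A.card → Good F n B := by
    intro B hB
    by_contra hcon
    rw [hAm] at hB
    exact Nat.find_min hex hB ⟨B, rfl, hcon⟩
  refine ⟨A, ?_, ?_⟩
  · rw [Finset.nonempty_iff_ne_empty]
    rintro rfl
    apply hA
    exact ⟨fun _ => ⟨0, hn⟩, fun u hu => absurd hu (Finset.notMem_empty u)⟩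
  · intro v hv
    by_contra hlt
    push Not at hlt
    obtain ⟨c, hc⟩ := hmin (A.erase v) (Finset.card_erase_lt_of_mem hv)
    set N := A.filter (fun w => F.Adj v w) with hN
    have hNn : (N.image c).card < (Finset.univ : Finset (Fin n)).card := by
      rw [Finset.card_univ, Fintype.card_fin]
      exact lt_of_le_of_lt Finset.card_image_le hlt
    obtain ⟨k, -, hk⟩ := Finset.exists_mem_notMem_of_card_lt_card hNn
    apply hA
    refine ⟨Function.update c v k, ?_⟩
    intro x hx y hy hxy
    by_cases hxv : x = v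
    · subst hxv
      have hyx : y ≠ x := fun h => F.loopless.irrefl x (h ▸ hxy)
      rw [Function.update_self, Function.update_of_ne hyx]
      intro hcon
      exact hk (Finset.mem_image.2 ⟨y, Finset.mem_filter.2 ⟨hy, hxy⟩, hcon.symm⟩)
    · by_cases hyv : y = v
      · subst hyv
        rw [Function.update_self, Function.update_of_ne hxv]
        intro hcon
        exact hk (Finset.mem_image.2 ⟨x, Finset.mem_filter.2 ⟨hx, hxy.symm⟩, hcon⟩)
      · rw [Function.update_of_ne hxv, Function.update_of_ne hyv]
        exact hc x (Finset.mem_erase.2 ⟨hxv, hx⟩) y (Finset.mem_erase.2 ⟨hyv, hy⟩) hxy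

/-- number of ordered pairs of `A` related by `R` -/
noncomputable def cnt (R : V → V → Prop) (A : Finset V) : ℕ := ∑ u ∈ A, (A.filter (fun v => R u v)).card

theorem cnt_insert {R : V → V → Prop} (hs : ∀ u v, R u v → R v u) (hi : ∀ u, ¬ R u u)
    {a : V} {A : Finset V} (ha : a ∉ A) :
    cnt R (insert a A) = cnt R A + 2 * (A.filter (fun v => R a v)).card := by
  unfold cnt
  rw [Finset.sum_insert ha, Finset.filter_insert, if_neg (hi a)]
  have h1 : ∀ u ∈ A, ((insert a A).filter (fun v => R u v)).card =
      (A.filter (fun v => R u v)).card + if R u a then 1 else 0 := by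
    intro u _
    rw [Finset.filter_insert]
    split_ifs with h
    · rw [Finset.card_insert_of_notMem]
      intro hcon
      exact ha (Finset.mem_filter.1 hcon).1
    · rfl
  rw [Finset.sum_congr rfl h1, Finset.sum_add_distrib, ← Finset.card_filter]
  have h2 : A.filter (fun u => R u a) = A.filter (fun u => R a u) :=
    Finset.filter_congr fun u _ => ⟨hs _ _, hs _ _⟩
  rw [h2]
  ring

theorem exists_cut (F : SimpleGraph V) (A : Finset V) : ∃ col : V → Bool,
    cnt F.Adj A ≤ 2 * cnt (fun u v => F.Adj u v ∧ col u ≠ col v) A := by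
  induction A using Finset.induction_on with
  | empty => exact ⟨fun _ => true, by simp [cnt]⟩
  | insert a A ha ih =>
    obtain ⟨col, hcol⟩ := ih
    set s := (A.filter (fun v => F.Adj a v ∧ col v = true)).card with hs
    set t := (A.filter (fun v => F.Adj a v ∧ col v = false)).card with ht
    have hst : (A.filter (fun v => F.Adj a v)).card = s + t := by
      rw [hs, ht, ← Finset.card_union_of_disjoint]
      · congr 1
        ext v
        simp only [Finset.mem_filter, Finset.mem_union]
        cases h : col v <;> simp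
      · rw [Finset.disjoint_left]
        intro v hv hv'
        have h1 := (Finset.mem_filter.1 hv).2.2
        have h2 := (Finset.mem_filter.1 hv').2.2
        rw [h1] at h2
        exact absurd h2 (by decide)
    -- the new colour
    have key : ∀ b : Bool, cnt (fun u v => F.Adj u v ∧ Function.update col a b u ≠
        Function.update col a b v) (insert a A) =
        cnt (fun u v => F.Adj u v ∧ col u ≠ col v) A +
          2 * (A.filter (fun v => F.Adj a v ∧ b ≠ col v)).card := by
      intro b
      rw [cnt_insert (fun u v h => ⟨h.1.symm, h.2.symm⟩) (fun u h => h.2 rfl) ha]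
      congr 1
      · unfold cnt
        refine Finset.sum_congr rfl fun u hu => ?_
        congr 1
        refine filter_ext _ _ _ fun v hv => ?_
        have hua : u ≠ a := fun h => ha (h ▸ hu)
        have hva : v ≠ a := fun h => ha (h ▸ hv)
        beta_reduce
        rw [Function.update_of_ne hua, Function.update_of_ne hva]
      · congr 2
        refine filter_ext _ _ _ fun v hv => ?_
        have hva : v ≠ a := fun h => ha (h ▸ hv)
        rw [Function.update_self, Function.update_of_ne hva]
    rw [cnt_insert (fun u v h => h.symm) (fun u => F.loopless.irrefl u) ha, hst]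
    have hA1 : (A.filter (fun v => F.Adj a v ∧ false ≠ col v)).card = s := by
      rw [hs]
      congr 1
      refine Finset.filter_congr fun v _ => ?_
      cases h : col v <;> simp
    have hA2 : (A.filter (fun v => F.Adj a v ∧ true ≠ col v)).card = t := by
      rw [ht]
      congr 1
      refine Finset.filter_congr fun v _ => ?_
      cases h : col v <;> simp
    rcases le_total s t with h | h
    · refine ⟨Function.update col a true, ?_⟩
      rw [key true, hA2]
      omega
    · refine ⟨Function.update col a false, ?_⟩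
      rw [key false, hA1]
      omega

end DenseBipAux

open DenseBipAux

/-- **A33.** -/
theorem denseBip : DenseBip := by
  intro K hK V F hF
  obtain ⟨A, hne, hdeg⟩ := exists_critical (show 1 ≤ 8 * K by omega) hF
  obtain ⟨col, hcol⟩ := exists_cut F A
  refine ⟨bi F A col, col, A, ?_, hne, ?_, ?_⟩
  · intro u v h
    exact h.1
  · intro u v h
    exact h.2
  · unfold ed
    have h1 : ∑ v ∈ A, dg (bi F A col) A v = cnt (fun u v => F.Adj u v ∧ col u ≠ col v) A := by
      unfold cnt dg
      refine Finset.sum_congr rfl fun u hu => ?_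
      congr 1
      refine filter_ext _ _ _ fun v hv => ?_
      exact ⟨fun h => ⟨h.1, h.2.2.2⟩, fun h => ⟨h.1, hu, hv, h.2⟩⟩
    have h2 : 8 * K * A.card ≤ cnt F.Adj A := by
      unfold cnt
      rw [mul_comm, ← smul_eq_mul]
      exact Finset.card_nsmul_le_sum A _ _ (fun v hv => hdeg v hv)
    have h3 : 4 * K * A.card ≤ cnt (fun u v => F.Adj u v ∧ col u ≠ col v) A := by
      have e : 8 * K * A.card = 2 * (4 * K * A.card) := by ring
      omega
    rw [← h1] at h3
    have h4 : ((4 * K * A.card : ℕ) : ℝ) ≤ ∑ v ∈ A, (dg (bi F A col) A v : ℝ) := by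
      exact_mod_cast h3
    push_cast at h4
    have h5 : (0 : ℝ) ≤ (K : ℝ) * A.card := by positivity
    linarith

end Pool.Agent.Lib.MP_b6048d_co.F
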