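import Pool.Agent.Lib.MP_b6048d_co.F.SpecC

set_option autoImplicit false

/-!
C10: replacing several edges of a path by disjoint paths.
-/

open scoped Classical

namespace Pool.Agent.Lib.MP_b6048d_co.F

namespace DetourAux

variable {V : Type} {G : SimpleGraph V} {u v : V}

/-- the two entries at the places `a`, `a + 1` -/
lemma split_two {l : List V} {a : ℕ} {x y : V} (hx : l[a]? = some x) (hy : l[a + 1]? = some y) :
    ∃ l₁ l₂, l = l₁ ++ x :: y :: l₂ ∧ l₁.length = a := by
  obtain ⟨h1, h1'⟩ := List.getElem?_eq_some_iff.1 hx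
  obtain ⟨h2, h2'⟩ := List.getElem?_eq_some_iff.1 hy
  refine ⟨l.take a, l.drop (a + 2), ?_, ?_⟩
  · have e1 : l.drop a = x :: l.drop (a + 1) := by
      rw [List.drop_eq_getElem_cons h1, h1']
    have e2 : l.drop (a + 1) = y :: l.drop (a + 2) := by
      rw [List.drop_eq_getElem_cons h2, h2']
    rw [← e2, ← e1, List.take_append_drop]
  · rw [List.length_take]
    omega

lemma main (D : ℕ → List V) (n : ℕ) : ∀ (l : List V) (J : Finset ℕ), J.card = n →
    Pth G Set.univ u v l →
    (∀ a ∈ J, ∃ x y, l[a]? = some x ∧ l[a + 1]? = some y ∧ Pth G Set.univ x y (D a) ∧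
      ∀ z ∈ D a, z ∈ l → z = x ∨ z = y) →
    (∀ a ∈ J, ∀ b ∈ J, a ≠ b → List.Disjoint (D a) (D b)) →
    ∃ l' : List V, Pth G Set.univ u v l' ∧
      l'.length + 2 * J.card = l.length + ∑ a ∈ J, (D a).length ∧
      ∀ z ∈ l', z ∈ l ∨ ∃ a ∈ J, z ∈ D a := by
  induction n with
  | zero =>
    intro l J hJ hl _ _
    rw [Finset.card_eq_zero] at hJ
    subst hJ
    exact ⟨l, hl, by simp, fun z hz => Or.inl hz⟩
  | succ n ih =>
    intro l J hJ hl hD hdis
    have hne : J.Nonempty := by
      rw [← Finset.card_pos]
      omega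
    obtain ⟨a, haJ, hmax⟩ : ∃ a ∈ J, ∀ b ∈ J, b ≤ a :=
      ⟨J.max' hne, J.max'_mem hne, fun b hb => J.le_max' b hb⟩
    obtain ⟨x, y, hx, hy, hDa, hDal⟩ := hD a haJ
    obtain ⟨l₁, l₂, rfl, hlen⟩ := split_two hx hy
    obtain ⟨t, ht⟩ := hDa.toWk.exists_cons
    have hnd := hl.nodup
    have hcut := hl.cut (a := l₁) (b := y :: l₂)
    have hcut2 := Pth.cut (a := [x]) (b := l₂) (x := y) (by simpa using hcut.2)
    have hnd' : (∀ z ∈ l₁, z ≠ x ∧ z ≠ y ∧ z ∉ l₂) ∧ x ≠ y ∧ x ∉ l₂ ∧ y ∉ l₂ := by
      rw [List.nodup_append] at hnd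
      obtain ⟨_, h2, h3⟩ := hnd
      rw [List.nodup_cons, List.nodup_cons] at h2
      refine ⟨fun z hz => ⟨?_, ?_, ?_⟩, ?_, ?_, h2.2.1⟩
      · exact h3 z hz x (by simp)
      · exact h3 z hz y (by simp)
      · intro hz2
        exact h3 z hz z (by simp [hz2]) rfl
      · rintro rfl
        exact h2.1 (by simp)
      · intro hx2
        exact h2.1 (by simp [hx2])
    obtain ⟨hn1, hxy, hx2, hy2⟩ := hnd'
    have p1 := hcut.1.append hDa (by
      intro z hz hzD
      have hzl : z ∈ l₁ ++ x :: y :: l₂ := by
        rcases List.mem_append.1 hz with h | h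
        · exact List.mem_append_left _ h
        · rw [List.mem_singleton.1 h]
          simp
      rcases hDal z hzD hzl with h | h
      · exact h
      · rcases List.mem_append.1 hz with h4 | h4
        · exact absurd h (hn1 z h4).2.1
        · exact List.mem_singleton.1 h4)
    have p2 := p1.append hcut2.2 (by
      intro z hz hz2
      rcases List.mem_append.1 hz with h | h
      · rcases List.mem_append.1 h with h4 | h4
        · rcases List.mem_cons.1 hz2 with h5 | h5
          · exact h5
          · exact absurd h5 (hn1 z h4).2.2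
        · rw [List.mem_singleton.1 h4] at hz2 ⊢
          rcases List.mem_cons.1 hz2 with h5 | h5
          · exact h5
          · exact absurd h5 hx2
      · have hzD : z ∈ D a := List.mem_of_mem_tail h
        have hzl : z ∈ l₁ ++ x :: y :: l₂ :=
          List.mem_append_right _ (List.mem_cons_of_mem _ hz2)
        rcases hDal z hzD hzl with h4 | h4
        · rw [h4] at hz2 ⊢
          rcases List.mem_cons.1 hz2 with h5 | h5
          · exact h5
          · exact absurd h5 hx2
        · exact h4)
    rw [List.tail_cons] at p2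
    rw [ht, List.tail_cons] at p2
    have hJ' : (J.erase a).card = n := by
      rw [Finset.card_erase_of_mem haJ, hJ]
      omega
    have hmemD : ∀ z ∈ t, z ∈ D a := fun z hz => by
      rw [ht]
      exact List.mem_cons_of_mem _ hz
    have el : l₁ ++ [x] ++ t ++ l₂ = l₁ ++ x :: (t ++ l₂) := by simp
    rw [el] at p2
    obtain ⟨l', hl', hcount, hmem⟩ := ih (l₁ ++ x :: (t ++ l₂)) (J.erase a) hJ' p2 (by
      intro b hb
      obtain ⟨hba, hbJ⟩ := Finset.mem_erase.1 hb
      have hlt : b < a := lt_of_le_of_ne (hmax b hbJ) hba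
      obtain ⟨x', y', hx', hy', hDb, hDbl⟩ := hD b hbJ
      refine ⟨x', y', ?_, ?_, hDb, ?_⟩
      · rw [List.getElem?_append_left (by omega)] at hx' ⊢
        exact hx'
      · rcases Nat.lt_or_ge (b + 1) l₁.length with h | h
        · rw [List.getElem?_append_left h] at hy' ⊢
          exact hy'
        · have h5 : b + 1 - l₁.length = 0 := by omega
          rw [List.getElem?_append_right h, h5] at hy' ⊢
          exact hy'
      · intro z hz hz2
        apply hDbl z hz
        rcases List.mem_append.1 hz2 with h | h
        · exact List.mem_append_left _ h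
        · rcases List.mem_cons.1 h with h | h
          · rw [h]
            simp
          · rcases List.mem_append.1 h with h | h
            · exact absurd (hmemD z h) (fun h6 => hdis b hbJ a haJ hba hz h6)
            · exact List.mem_append_right _ (List.mem_cons_of_mem _ (List.mem_cons_of_mem _ h)))
      (fun b hb c hc hbc => hdis b (Finset.mem_of_mem_erase hb) c (Finset.mem_of_mem_erase hc) hbc)
    refine ⟨l', hl', ?_, ?_⟩
    · rw [hJ'] at hcount
      rw [hJ, ← Finset.add_sum_erase J _ haJ, ht]
      simp only [List.length_append, List.length_cons] at hcount ⊢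
      omega
    · intro z hz
      rcases hmem z hz with h | ⟨b, hb, h⟩
      · rcases List.mem_append.1 h with h | h
        · exact Or.inl (List.mem_append_left _ h)
        · rcases List.mem_cons.1 h with h | h
          · left
            rw [h]
            simp
          · rcases List.mem_append.1 h with h | h
            · exact Or.inr ⟨a, haJ, hmemD z h⟩
            · exact Or.inl (List.mem_append_right _
                (List.mem_cons_of_mem _ (List.mem_cons_of_mem _ h)))
      · exact Or.inr ⟨b, Finset.mem_of_mem_erase hb, h⟩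

end DetourAux

theorem detour : Detour := by
  intro V G u v l J D hl hD hdis
  exact DetourAux.main D J.card l J rfl hl hD hdis

end Pool.Agent.Lib.MP_b6048d_co.F
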