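import Pool.Agent.Lib.MP_b6048d_co.F.SpecA

set_option autoImplicit false

/-! A14 Exceptional: few vertices have many neighbours in a small set. -/

open scoped Classical

namespace Pool.Agent.Lib.MP_b6048d_co.F

namespace ExceptionalAux

theorem part1 (hT : TauFacts) (hM : MinBasics) (V : Type) (Γ : SimpleGraph V) (D : ℕ)
    (H : Finset V) (hD : 8 ≤ D) (hH : MinD Γ (tau D) H) (R : Finset V)
    (hsize : (2 * D ^ 2 + 3) ^ 2 ≤ H.card + 3) :
    ((H \ R).filter (fun v => tau D (2 * D ^ 2) + 6 ≤ dg Γ R v)).card ≤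
      D ^ 2 * (R.card + 1) ^ (2 * D + 7) := by
  have hDr : (8 : ℝ) ≤ D := by exact_mod_cast hD
  obtain ⟨-, -, -, h4⟩ := hM.1 V Γ D H (by linarith) hH
  obtain ⟨t1, t2, -, -⟩ := hT D (by linarith)
  set τ₂ := tau D (2 * D ^ 2) with hτ
  set E := (H \ R).filter (fun v => τ₂ + 6 ≤ dg Γ R v) with hE
  have hτ0 : (D : ℝ) ≤ τ₂ := (t1 _).1
  have hτ1 : τ₂ ≤ 2 * D := (t1 _).2
  set t₀ := ⌈τ₂ + 6⌉₊ with ht₀
  have ht1 : τ₂ + 6 ≤ t₀ := Nat.le_ceil _
  have ht2 : t₀ ≤ 2 * D + 6 := by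
    rw [ht₀, Nat.ceil_le]
    push_cast
    linarith
  by_contra hcon
  push Not at hcon
  have hJ : ∀ v : V, ∃ J : Finset V, v ∈ E → J ⊆ R.filter (fun w => Γ.Adj v w) ∧ J.card = t₀ := by
    intro v
    by_cases hv : v ∈ E
    · have h5 : t₀ ≤ (R.filter (fun w => Γ.Adj v w)).card := by
        rw [ht₀, Nat.ceil_le]
        exact (Finset.mem_filter.1 hv).2
      obtain ⟨J, hJ1, hJ2⟩ := Finset.exists_subset_card_eq h5
      exact ⟨J, fun _ => ⟨hJ1, hJ2⟩⟩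
    · exact ⟨∅, fun h => absurd h hv⟩
  choose J hJ using hJ
  have hmaps : ∀ v ∈ E, J v ∈ Finset.powersetCard t₀ R := by
    intro v hv
    rw [Finset.mem_powersetCard]
    exact ⟨(hJ v hv).1.trans (Finset.filter_subset _ _), (hJ v hv).2⟩
  have hcard : (Finset.powersetCard t₀ R).card * D ^ 2 < E.card := by
    refine lt_of_le_of_lt ?_ hcon
    rw [Finset.card_powersetCard, mul_comm]
    refine Nat.mul_le_mul_left _ ?_
    calc Nat.choose R.card t₀ ≤ R.card ^ t₀ := Nat.choose_le_pow _ _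
      _ ≤ (R.card + 1) ^ t₀ := Nat.pow_le_pow_left (Nat.le_succ _) _
      _ ≤ (R.card + 1) ^ (2 * D + 7) := Nat.pow_le_pow_right (Nat.succ_pos _) (by omega)
  obtain ⟨J₀, hJ₀, hfib⟩ := Finset.exists_lt_card_fiber_of_mul_lt_card_of_maps_to hmaps hcard
  obtain ⟨U, hU1, hU2⟩ := Finset.exists_subset_card_eq hfib.le
  rw [Finset.mem_powersetCard] at hJ₀
  have hUE : ∀ v ∈ U, v ∈ E ∧ J v = J₀ := fun v hv => Finset.mem_filter.1 (hU1 hv)
  have hdisj : Disjoint U J₀ := by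
    rw [Finset.disjoint_left]
    intro v hv hvJ
    have h5 := (Finset.mem_filter.1 (hUE v hv).1).1
    exact (Finset.mem_sdiff.1 h5).2 (hJ₀.1 hvJ)
  have hMc : (U ∪ J₀).card = D ^ 2 + t₀ := by
    rw [Finset.card_union_of_disjoint hdisj, hU2, hJ₀.2]
  have hM2 : (U ∪ J₀).card ≤ 2 * D ^ 2 := by
    rw [hMc]
    nlinarith
  have hMn : (U ∪ J₀).card < H.card := by nlinarith
  have h5 := (h4 (U ∪ J₀) hMn).1
  have h6 := ed_split (Γ := Γ) (A := U) (H := U ∪ J₀) Finset.subset_union_left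
  have h7 : (U ∪ J₀) \ U = J₀ := Finset.union_sdiff_cancel_left hdisj
  rw [h7] at h6
  have h8 : ∀ v ∈ U, (dg Γ J₀ v : ℝ) = t₀ := by
    intro v hv
    obtain ⟨hvE, hvJ⟩ := hUE v hv
    have h9 := (hJ v hvE).1
    rw [hvJ] at h9
    have h10 : J₀.filter (fun w => Γ.Adj v w) = J₀ := by
      rw [Finset.filter_eq_self]
      intro w hw
      exact (Finset.mem_filter.1 (h9 hw)).2
    unfold dg
    rw [h10, hJ₀.2]
  have h9 : ∑ v ∈ U, (dg Γ J₀ v : ℝ) = (D : ℝ) ^ 2 * t₀ := by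
    rw [Finset.sum_congr rfl h8, Finset.sum_const, hU2, nsmul_eq_mul]
    push_cast
    ring
  have h10 : (D : ℝ) ^ 2 * t₀ ≤ ed Γ (U ∪ J₀) := by
    have h11 := ed_nonneg (Γ := Γ) (A := J₀)
    have h12 := ed_nonneg (Γ := Γ) (A := U)
    linarith
  have h11 : tau D (U ∪ J₀).card ≤ τ₂ := t2 _ _ hM2
  have h12 : ((U ∪ J₀).card : ℝ) = (D : ℝ) ^ 2 + t₀ := by rw [hMc]; push_cast; ring
  have h13 : (D : ℝ) ^ 2 * t₀ ≤ τ₂ * ((D : ℝ) ^ 2 + t₀) := by
    rw [h12] at h5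
    refine h10.trans (h5.trans ?_)
    exact mul_le_mul_of_nonneg_right h11 (by positivity)
  have h14 : (t₀ : ℝ) ≤ 2 * D + 6 := by exact_mod_cast ht2
  have h15 : (0 : ℝ) ≤ t₀ := Nat.cast_nonneg _
  have h16 : 6 * (D : ℝ) ^ 2 ≤ ((t₀ : ℝ) - τ₂) * (D : ℝ) ^ 2 :=
    mul_le_mul_of_nonneg_right (by linarith) (by positivity)
  have h17 : τ₂ * t₀ ≤ 2 * D * (2 * D + 6) :=
    mul_le_mul hτ1 h14 h15 (by linarith)
  nlinarith

theorem num (D : ℕ) (hD : 129600 ≤ D) :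
    (D : ℝ) / (6 * Real.log D) ≤
      (D : ℝ) / (2 * Real.log (((2 * D ^ 2 : ℕ) : ℝ) + 3)) - 6 := by
  have hDr : (129600 : ℝ) ≤ D := by exact_mod_cast hD
  set x : ℝ := (D : ℝ) with hx
  have hx0 : 0 < x := by linarith
  set ℓ := Real.log x with hℓ
  have hs : Real.sqrt x * Real.sqrt x = x := Real.mul_self_sqrt hx0.le
  have hs1 : 360 ≤ Real.sqrt x := by
    apply Real.le_sqrt_of_sq_le
    norm_num
    linarith
  have hlog : ℓ ≤ 2 * Real.sqrt x := by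
    have h1 : ℓ = 2 * Real.log (Real.sqrt x) := by
      rw [hℓ, Real.log_sqrt hx0.le]
      ring
    have h2 := Real.log_le_sub_one_of_pos (Real.sqrt_pos.2 hx0)
    rw [h1]
    linarith
  have hℓ0 : 0 < ℓ := Real.log_pos (by linarith)
  have h180 : 180 * ℓ ≤ x := by nlinarith
  have hcast : (((2 * D ^ 2 : ℕ) : ℝ) + 3) = 2 * x ^ 2 + 3 := by
    rw [hx]
    push_cast
    ring
  have h5 : 2 * Real.log (((2 * D ^ 2 : ℕ) : ℝ) + 3) ≤ 5 * ℓ := by
    rw [hcast]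
    have h6 : (2 * x ^ 2 + 3) ^ 2 ≤ x ^ 5 := by
      have h7 : 2 * x ^ 2 + 3 ≤ 3 * x ^ 2 := by nlinarith
      calc (2 * x ^ 2 + 3) ^ 2 ≤ (3 * x ^ 2) ^ 2 := pow_le_pow_left₀ (by positivity) h7 2
        _ = 9 * x ^ 4 := by ring
        _ ≤ x * x ^ 4 := mul_le_mul_of_nonneg_right (by linarith) (by positivity)
        _ = x ^ 5 := by ring
    have h7 := Real.log_le_log (by positivity) h6
    rw [Real.log_pow, Real.log_pow] at h7
    push_cast at h7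
    exact h7
  have h6 : 0 < Real.log (((2 * D ^ 2 : ℕ) : ℝ) + 3) := by
    apply Real.log_pos
    rw [hcast]
    nlinarith
  have h7 : x / (5 * ℓ) ≤ x / (2 * Real.log (((2 * D ^ 2 : ℕ) : ℝ) + 3)) :=
    div_le_div_of_nonneg_left hx0.le (by linarith) h5
  have h8 : x / (6 * ℓ) ≤ x / (5 * ℓ) - 6 := by
    rw [le_sub_iff_add_le, ← sub_nonneg]
    have h9 : x / (5 * ℓ) - (x / (6 * ℓ) + 6) = (x - 180 * ℓ) / (30 * ℓ) := by
      field_simp
      ring
    rw [h9]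
    apply div_nonneg <;> linarith
  linarith

end ExceptionalAux

open ExceptionalAux in
theorem exceptional (hT : TauFacts) (hM : MinBasics) : Exceptional := by
  refine ⟨129600, by norm_num, ?_⟩
  intro V Γ D H hD hH R hR hsize
  refine ⟨part1 hT hM V Γ D H (by omega) hH R hsize, ?_⟩
  intro v hv hlt
  have hDr : (129600 : ℝ) ≤ D := by exact_mod_cast hD
  obtain ⟨-, h2, -, -⟩ := hM.1 V Γ D H (by linarith) hH
  obtain ⟨-, -, -, t4⟩ := hT D (by linarith)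
  have h5 := (h2 v (Finset.mem_sdiff.1 hv).1).1
  have h6 : (dg Γ H v : ℝ) = dg Γ (H \ R) v + dg Γ R v := by
    rw [dg_sdiff hR]
    push_cast
    ring
  have h7 := t4 (2 * D ^ 2) H.card hsize
  have h8 := num D hD
  linarith

end Pool.Agent.Lib.MP_b6048d_co.F
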