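import Pool.Agent.Lib.MP_b6048d_co.F.SpecA

set_option autoImplicit false

/-!
A03 Exp: expansion of sets of at most half the size in a minimal dense set.
-/

open scoped Classical

namespace Pool.Agent.Lib.MP_b6048d_co.F

theorem exp_ (hT : TauFacts) (hM : MinBasics) : Exp := by
  intro V Γ D H hD hH B hB hB2
  obtain ⟨hn, -, htouch, -⟩ := hM.1 V Γ D H hD hH
  have hD0 : (0 : ℝ) < D := by linarith
  obtain ⟨hb1, -, hb3, -⟩ := hT D hD0
  have hL4 := four_le_Lg H
  -- the union of `B` and its neighbourhood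
  have hcard : (B ∪ nbr Γ H B).card = B.card + (nbr Γ H B).card :=
    Finset.card_union_of_disjoint nbr_disjoint
  have hn3 : 3 ≤ H.card := by
    have : (3 : ℝ) ≤ (H.card : ℝ) := by linarith
    exact_mod_cast this
  by_cases hcase : 2 * H.card ≤ 3 * (B.card + (nbr Γ H B).card)
  · have h1 : B.card ≤ 3 * (nbr Γ H B).card := by omega
    have h2 : 3 ≤ 10 * Lg H ^ 2 := by nlinarith
    exact h1.trans (Nat.mul_le_mul_right _ h2)
  · push Not at hcase
    have hmn : (B ∪ nbr Γ H B).card < H.card := by omega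
    have h5 : 5 * (B.card + (nbr Γ H B).card) + 3 ≤ 4 * H.card := by omega
    -- edges touching `B`
    have h6 := htouch B hB
    have h7 := ed_touch (Γ := Γ) (R := (∅ : Finset V)) hB (Finset.disjoint_empty_right B)
    rw [Finset.union_empty, ed_empty] at h7
    have h8 := hH.le hmn
    rw [hcard] at h8
    have h9 := hb3 (B.card + (nbr Γ H B).card) H.card (by omega) (Lg H : ℝ) (log_le_Lg H)
    have h10 := (hb1 (B.card + (nbr Γ H B).card)).2
    set t := tau D (B.card + (nbr Γ H B).card) with ht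
    set T := tau D H.card with hTT
    have hbn : (0 : ℝ) ≤ (B.card : ℝ) := Nat.cast_nonneg _
    have hNn : (0 : ℝ) ≤ ((nbr Γ H B).card : ℝ) := Nat.cast_nonneg _
    have hnn : (0 : ℝ) < (H.card : ℝ) + 3 := by positivity
    have hL : (0 : ℝ) < (Lg H : ℝ) := by
      have : 0 < Lg H := by omega
      exact_mod_cast this
    have h11 : (1 : ℝ) / 5 ≤
        (((H.card : ℕ) : ℝ) - ((B.card + (nbr Γ H B).card : ℕ) : ℝ)) / (((H.card : ℕ) : ℝ) + 3) := by
      rw [le_div_iff₀ hnn]
      have h12 : ((5 * (B.card + (nbr Γ H B).card) + 3 : ℕ) : ℝ) ≤ ((4 * H.card : ℕ) : ℝ) := by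
        exact_mod_cast h5
      push_cast at h12 ⊢
      linarith
    have h13 : D * (1 / 5) / (Lg H : ℝ) ^ 2 ≤ T - t := by
      refine le_trans ?_ h9
      apply div_le_div_of_nonneg_right _ (by positivity)
      exact mul_le_mul_of_nonneg_left h11 hD0.le
    have h14 : (T - t) * (B.card : ℝ) ≤ t * ((nbr Γ H B).card : ℝ) := by
      push_cast at h8
      nlinarith
    have h15 : D * (1 / 5) / (Lg H : ℝ) ^ 2 * (B.card : ℝ) ≤ 2 * D * ((nbr Γ H B).card : ℝ) :=
      (mul_le_mul_of_nonneg_right h13 hbn).trans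
        (h14.trans (mul_le_mul_of_nonneg_right h10 hNn))
    have h16 : (B.card : ℝ) ≤ 10 * (Lg H : ℝ) ^ 2 * ((nbr Γ H B).card : ℝ) := by
      have hL2 : (0 : ℝ) < (Lg H : ℝ) ^ 2 := by positivity
      have e1 : D * (1 / 5) / (Lg H : ℝ) ^ 2 * (B.card : ℝ) =
          (D * (B.card : ℝ)) / (5 * (Lg H : ℝ) ^ 2) := by
        field_simp
      rw [e1, div_le_iff₀ (by positivity)] at h15
      have h17 : D * (B.card : ℝ) ≤ D * (10 * (Lg H : ℝ) ^ 2 * ((nbr Γ H B).card : ℝ)) := by
        linarith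
      exact le_of_mul_le_mul_left h17 hD0
    exact_mod_cast h16

end Pool.Agent.Lib.MP_b6048d_co.F
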