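import Pool.Agent.Lib.MP_b6048d_co.F.SpecA

set_option autoImplicit false

/-! A04 ExpSmall: expansion of small sets. -/

open scoped Classical

namespace Pool.Agent.Lib.MP_b6048d_co.F

namespace ExpSmallAux

theorem one_le_log (b : ℕ) : 1 ≤ Real.log ((b : ℝ) + 3) := by
  rw [Real.le_log_iff_exp_le (by positivity)]
  have h1 := Real.exp_one_lt_d9
  have h2 : (0 : ℝ) ≤ b := Nat.cast_nonneg b
  linarith

theorem log_le (b m : ℕ) (h : m ≤ 2 * b) :
    Real.log ((m : ℝ) + 3) ≤ 2 * Real.log ((b : ℝ) + 3) := by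
  have h1 : (m : ℝ) ≤ 2 * b := by exact_mod_cast h
  have h2 : (0 : ℝ) ≤ b := Nat.cast_nonneg b
  have h3 : (0 : ℝ) ≤ m := Nat.cast_nonneg m
  calc Real.log ((m : ℝ) + 3) ≤ Real.log (((b : ℝ) + 3) ^ 2) :=
        Real.log_le_log (by positivity) (by nlinarith)
    _ = 2 * Real.log ((b : ℝ) + 3) := by
        rw [Real.log_pow]
        norm_num

end ExpSmallAux

open ExpSmallAux in
theorem expSmall (hT : TauFacts) (hM : MinBasics) : ExpSmall := by
  intro V Γ D H hD hH B hB hsize
  obtain ⟨-, h2, h3, h4⟩ := hM.1 V Γ D H hD hH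
  obtain ⟨t1, -, -, t4⟩ := hT D (by linarith)
  set N := nbr Γ H B with hN
  set ℓ := Real.log ((B.card : ℝ) + 3) with hℓ
  have hℓ1 : 1 ≤ ℓ := one_le_log _
  have hb0 : (0 : ℝ) ≤ B.card := Nat.cast_nonneg _
  have hν0 : (0 : ℝ) ≤ N.card := Nat.cast_nonneg _
  rcases le_or_gt B.card N.card with hle | hlt
  · have h5 : (B.card : ℝ) ≤ N.card := by exact_mod_cast hle
    nlinarith
  · have hm : (B ∪ N).card = B.card + N.card := Finset.card_union_of_disjoint nbr_disjoint
    have hm2 : (B ∪ N).card ≤ 2 * B.card := by omega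
    have hsq : ((B ∪ N).card + 3) ^ 2 ≤ H.card + 3 :=
      (Nat.pow_le_pow_left (by omega) 2).trans hsize
    have hmn : (B ∪ N).card < H.card := by nlinarith
    have h5 := ed_touch (Γ := Γ) (R := ∅) hB (Finset.disjoint_empty_right B)
    rw [Finset.union_empty, ed_empty, add_zero] at h5
    have h6 := h3 B hB
    have h7 := (h4 (B ∪ N) hmn).1
    have h8 := t4 (B ∪ N).card H.card hsq
    have h9 := (t1 (B ∪ N).card).2
    have h10 : ((B ∪ N).card : ℝ) = B.card + N.card := by rw [hm]; push_cast; ring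
    have h11 : Real.log (((B ∪ N).card : ℝ) + 3) ≤ 2 * ℓ := log_le _ _ hm2
    have h12 : 1 ≤ Real.log (((B ∪ N).card : ℝ) + 3) := one_le_log _
    have h13 : D / (4 * ℓ) ≤ tau D H.card - tau D (B ∪ N).card := by
      refine le_trans ?_ h8
      apply div_le_div_of_nonneg_left (by linarith) (by linarith) (by linarith)
    have h14 : (tau D H.card - tau D (B ∪ N).card) * B.card ≤ 2 * D * N.card := by
      have h15 : tau D H.card * B.card ≤ tau D (B ∪ N).card * (B.card + N.card) := by
        rw [← h10]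
        linarith
      have h16 : tau D (B ∪ N).card * N.card ≤ 2 * D * N.card :=
        mul_le_mul_of_nonneg_right h9 hν0
      nlinarith
    have h17 : D / (4 * ℓ) * B.card ≤ 2 * D * N.card :=
      (mul_le_mul_of_nonneg_right h13 hb0).trans h14
    rw [div_mul_eq_mul_div, div_le_iff₀ (by linarith)] at h17
    have h18 : D * (B.card : ℝ) ≤ D * (8 * ℓ * N.card) := by
      calc D * (B.card : ℝ) ≤ 2 * D * N.card * (4 * ℓ) := h17
        _ = D * (8 * ℓ * N.card) := by ring
    exact le_of_mul_le_mul_left h18 (by linarith)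

end Pool.Agent.Lib.MP_b6048d_co.F
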