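import Pool.Agent.Lib.MP_b6048d_co.F.SpecC

set_option autoImplicit false

/-!
# C11 GapLemma
-/

open scoped Classical

namespace Pool.Agent.Lib.MP_b6048d_co.F.GapLemmaAux

open Pool.Agent.Lib.MP_b6048d_co.F

/-- An ear has at least three vertices. -/
lemma ear_len {V : Type} {G : SimpleGraph V} {Q : Set V} {q₁ q₂ v : V} {l : List V}
    (h : Ear G Q q₁ q₂ v l) : 3 ≤ l.length := by
  have h1 : ({q₁, v, q₂} : Finset V) ⊆ l.toFinset := by
    intro z hz
    simp only [Finset.mem_insert, Finset.mem_singleton] at hz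
    rw [List.mem_toFinset]
    rcases hz with rfl | rfl | rfl
    · exact h.pth.toWk.left_mem
    · exact h.mem
    · exact h.pth.toWk.right_mem
  have hv1 : q₁ ≠ v := by
    rintro rfl
    exact h.out h.q1
  have hv2 : v ≠ q₂ := by
    rintro rfl
    exact h.out h.q2
  have h2 : ({q₁, v, q₂} : Finset V).card = 3 :=
    Finset.card_eq_three.2 ⟨q₁, v, q₂, hv1, h.ne, hv2, rfl⟩
  have h3 := Finset.card_le_card h1
  rw [h2] at h3
  exact h3.trans (List.toFinset_card_le l)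

/-- The reverse of an ear. -/
lemma ear_reverse {V : Type} {G : SimpleGraph V} {Q : Set V} {q₁ q₂ v : V} {l : List V}
    (h : Ear G Q q₁ q₂ v l) : Ear G Q q₂ q₁ v l.reverse :=
  ⟨h.q2, h.q1, h.ne.symm, h.pth.reverse,
    fun x hx hQ => (h.int x (List.mem_reverse.1 hx) hQ).symm, List.mem_reverse.2 h.mem, h.out⟩

lemma minEar_reverse {V : Type} {G : SimpleGraph V} {Q : Set V} {q₁ q₂ v : V} {l : List V}
    (h : MinEar G Q q₁ q₂ v l) : MinEar G Q q₂ q₁ v l.reverse := by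
  refine ⟨ear_reverse h.1, ?_⟩
  intro q₁' q₂' l' hl'
  rw [List.length_reverse]
  exact h.2 _ _ _ hl'

/-- A cycle through `Q` and the ear, or a path which replaces it. -/
lemma close_up {V : Type} {G : SimpleGraph V} {Q : List V} {q₁ q₂ : V} {l arc : List V}
    (harc : Pth G {z | z ∈ Q} q₁ q₂ arc) (hl : Pth G Set.univ q₁ q₂ l) (h3 : 3 ≤ l.length)
    (hne : q₁ ≠ q₂) (hint : ∀ z ∈ l, z ∈ Q → z = q₁ ∨ z = q₂) :
    ∃ D, IsCyc G D ∧ D.length + 2 = arc.length + l.length ∧ ∀ z, z ∈ l → z ∈ D := by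
  obtain ⟨D, hD, hlen, hmem⟩ := (harc.mono (Set.subset_univ _)).theta hl
    (fun z hz hz' => hint z hz' (harc.mem z hz)) h3 hne
  exact ⟨D, hD, hlen, fun z hz => (hmem z).2 (Or.inr hz)⟩

/-- The two arcs between the ends of the ear have different parities. -/
lemma two_arcs {V : Type} {G : SimpleGraph V} {Q : List V} {q₁ q₂ : V} (hQ : IsCyc G Q)
    (hodd : Odd Q.length) (h1 : q₁ ∈ Q) (h2 : q₂ ∈ Q) (hne : q₁ ≠ q₂) (n : ℕ) :
    ∃ arc, Pth G {z | z ∈ Q} q₁ q₂ arc ∧ arc.length ≤ Q.length ∧ Even (arc.length + n) := by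
  obtain ⟨a, b, ha, hb, hab, -, -⟩ := cyc_arcs hQ h1 h2 hne
  have ha2 := ha.two_le hne
  have hb2 := hb.two_le hne
  rcases Nat.even_or_odd (a.length + n) with h | h
  · exact ⟨a, ha, by omega, h⟩
  · refine ⟨b, hb, by omega, ?_⟩
    have h3 : Odd (a.length + b.length) := by
      rw [hab]
      exact hodd.add_even (by decide)
    rcases Nat.even_or_odd (b.length + n) with h4 | h4
    · exact h4
    · exfalso
      obtain ⟨i, hi⟩ := h
      obtain ⟨j, hj⟩ := h4
      obtain ⟨k, hk⟩ := h3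
      omega

/-- (1) the parameters of the blobs are small. -/
lemma blob_small (hLO : LongOdd) {V : Type} {G Γ : SimpleGraph V} {col : V → Bool} {H : Finset V}
    {lam A R C : ℕ} {Q : List V} {q₁ q₂ v : V} {l : List V} (hA : 1 ≤ A) (hM : Miss G A R)
    (hΓ : Γ ≤ G) (hC : 202 * A ≤ C) (h3 : 3 ≤ lam) (hR : R ≤ lam) (hB : Blob 3000 C lam Γ col H)
    (hQ : IsCyc G Q) (hodd : Odd Q.length) (he : Ear G {z | z ∈ Q} q₁ q₂ v l)
    (hlen : Q.length + 1 ≤ l.length) {x y : V} (hx : x ∈ l) (hy : y ∈ l) (hxy : x ≠ y)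
    (hxH : x ∈ H) (hyH : y ∈ H) : lam ^ 200 < 2 * (l.length - 1) + 1 := by
  obtain ⟨arc, harc, hle, hev⟩ := two_arcs hQ hodd he.q1 he.q2 he.ne (l.length + 1)
  obtain ⟨D, hD, hDlen, hDmem⟩ := close_up harc he.pth (ear_len he) he.ne (fun z hz hz' =>
    he.int z hz hz')
  have hDodd : Odd D.length := by
    rcases Nat.even_or_odd D.length with h4 | h4
    · exfalso
      obtain ⟨i, hi⟩ := hev
      obtain ⟨j, hj⟩ := h4
      omega
    · exact h4
  have := hLO V G Γ col H 3000 C lam A R hA hM hΓ (by norm_num) hC h3 hR hB D hD hDodd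
    ⟨x, hDmem x hx, y, hDmem y hy, hxy, hxH, hyH⟩
  omega

/-- (2) few bad places. -/
lemma card_bad (hC : Cross) (hCC : CrossCount) {V : Type} {G : SimpleGraph V} {Q : Set V}
    {q₁ q₂ v : V} {l : List V} (he : MinEar G Q q₁ q₂ v l) {m : ℕ} (hm : l[m]? = some v) :
    1200 * ((Finset.range (m + 1)).filter (fun a => ∃ k, 1 ≤ k ∧
      1200 * k ^ 3 < (TS G (Q ∪ {z | z ∈ l}) l m k a).card)).card ≤ 6 * (l.length - 1 - m) := by
  refine hCC m (l.length - 1) 1200 (fun k a => TS G (Q ∪ {z | z ∈ l}) l m k a) (by norm_num) ?_ ?_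
  · intro k a
    exact Finset.filter_subset _ _
  · intro k a b c d hab hbm hc hd hcd
    simp only [TS, Finset.mem_filter, Finset.mem_Ioc] at hc hd
    obtain ⟨⟨hc1, -⟩, x', t', h1, h2, h3⟩ := hc
    obtain ⟨-, x, t, h4, h5, h6⟩ := hd
    exact hC V G Q q₁ q₂ v l he m a b c d k x' x t' t hm h1 h4 h2 h5 hab hbm hc1.le hcd h3 h6

/-- (3) many good places. -/
lemma card_good (B : Finset ℕ) {m p : ℕ} (hB : 1200 * B.card ≤ 6 * (p - m)) (hmp : m ≤ p)
    (hpm : p ≤ 2 * m) (h8 : 8 ≤ p) :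
    p ≤ 4 * ((Finset.Ico (p / 8) m).filter (fun a => a ∉ B ∧ a + 1 ∉ B)).card := by
  have h1 : Finset.Ico (p / 8) m ⊆
      (Finset.Ico (p / 8) m).filter (fun a => a ∉ B ∧ a + 1 ∉ B) ∪ (B ∪ B.image (fun b => b - 1)) := by
    intro a ha
    rw [Finset.mem_union, Finset.mem_union, Finset.mem_filter, Finset.mem_image]
    by_cases h2 : a ∈ B
    · exact Or.inr (Or.inl h2)
    · by_cases h3 : a + 1 ∈ B
      · exact Or.inr (Or.inr ⟨a + 1, h3, rfl⟩)
      · exact Or.inl ⟨ha, h2, h3⟩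
  have h2 := Finset.card_le_card h1
  rw [Nat.card_Ico] at h2
  have h3 := Finset.card_union_le
    ((Finset.Ico (p / 8) m).filter (fun a => a ∉ B ∧ a + 1 ∉ B)) (B ∪ B.image (fun b => b - 1))
  have h4 := Finset.card_union_le B (B.image (fun b => b - 1))
  have h5 : (B.image (fun b => b - 1)).card ≤ B.card := Finset.card_image_le
  omega

/-- A walk between two edges of the ear contains a link. -/
lemma link_of_walk {V : Type} {G : SimpleGraph V} {W : Set V} {x x' y y' : V} {w : List V} {k : ℕ}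
    (hw : Wk G Set.univ x y w) (hlen : w.length ≤ k + 1)
    (hW : ∀ z ∈ w, z ∈ W → z = x ∨ z = x' ∨ z = y ∨ z = y')
    (h1 : x ≠ y) (h2 : x ≠ y') (h3 : x' ≠ y) (h4 : x' ≠ y') :
    ∃ s t, (s = x ∨ s = x') ∧ (t = y ∨ t = y') ∧ Lk G W s t k := by
  obtain ⟨α, s, β, hαβ, hs, hβ⟩ := exists_last (fun z => z = x ∨ z = x') w
    ⟨x, hw.left_mem, Or.inl rfl⟩
  subst hαβ
  have hw2 := hw.cut.2
  have hsy : ¬ (s = y ∨ s = y') := by
    rintro (h | h)
    · rcases hs with h5 | h5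
      · exact h1 (h5.symm.trans h)
      · exact h3 (h5.symm.trans h)
    · rcases hs with h5 | h5
      · exact h2 (h5.symm.trans h)
      · exact h4 (h5.symm.trans h)
  obtain ⟨γ, t, δ, hγδ, ht, hγ⟩ := exists_first (fun z => z = y ∨ z = y') (s :: β)
    ⟨y, hw2.right_mem, Or.inl rfl⟩
  have hw3 := hw2
  rw [hγδ] at hw3
  have hw4 := hw3.cut.1
  -- the first vertex of `γ` is `s`
  obtain ⟨γ', rfl⟩ : ∃ γ', γ = s :: γ' := by
    cases γ with
    | nil =>
      simp only [List.nil_append, List.cons.injEq] at hγδ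
      exact absurd (hγδ.1 ▸ ht) hsy
    | cons c γ' =>
      simp only [List.cons_append, List.cons.injEq] at hγδ
      exact ⟨γ', by rw [hγδ.1]⟩
  simp only [List.cons_append, List.cons.injEq, true_and] at hγδ
  obtain ⟨r, hr, hsub, hle⟩ := hw4.toPth
  refine ⟨s, t, hs, ht, r, hr, ?_, ?_⟩
  · refine hle.trans ?_
    rw [hγδ] at hlen
    simp only [List.length_append, List.length_cons, List.length_nil] at hlen ⊢
    omega
  · intro z hz hzW
    have hz1 := hsub hz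
    simp only [List.cons_append, List.mem_cons, List.mem_append, List.not_mem_nil, or_false] at hz1
    rcases hz1 with h5 | h5 | h5
    · exact Or.inl h5
    · exfalso
      have hzβ : z ∈ β := by
        rw [hγδ]
        simp [h5]
      have hzw : z ∈ α ++ s :: β := by simp [hzβ]
      rcases hW z hzw hzW with h6 | h6 | h6 | h6
      · exact hβ z hzβ (Or.inl h6)
      · exact hβ z hzβ (Or.inr h6)
      · exact hγ z (by simp [h5]) (Or.inl h6)
      · exact hγ z (by simp [h5]) (Or.inr h6)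
    · exact Or.inr h5

/-- The detours at a thin edge. -/
lemma detour_path {V : Type} {G Γ : SimpleGraph V} {col : V → Bool} {H : Finset V}
    {lam C : ℕ} {W₀ : Finset V} {x y : V} (hΓ : Γ ≤ G) (h3 : 3 ≤ lam)
    (hB : Blob 3000 C lam Γ col H) (hx : x ∈ H) (hy : y ∈ H) (hxy : Γ.Adj x y)
    (htx : Thin Γ 3000 H (W₀ \ {x, y}) x) (hty : Thin Γ 3000 H (W₀ \ {x, y}) y) (inc : ℕ)
    (hinc : inc = 0 ∨ (Even inc ∧ lam ≤ inc ∧ inc + 1 ≤ lam ^ C)) :
    ∃ D : List V, D.length = inc + 2 ∧ Pth G Set.univ x y D ∧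
      ∀ z ∈ D, ∃ w, Wk G Set.univ x z w ∧ w.length ≤ lam + 1 ∧
        ∀ u ∈ w, u ∈ W₀ → u = x ∨ u = y := by
  have hne : x ≠ y := hxy.ne
  rcases hinc with rfl | ⟨hev, hle, hle2⟩
  · refine ⟨[x, y], rfl, (Pth.single (Set.mem_univ y)).cons (Set.mem_univ x) (hΓ hxy)
      (by simpa using hne), ?_⟩
    intro z hz
    simp only [List.mem_cons, List.not_mem_nil, or_false] at hz
    rcases hz with rfl | rfl
    · refine ⟨[z], Wk.single (Set.mem_univ _), by simp, ?_⟩
      intro u hu _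
      exact Or.inl (List.mem_singleton.1 hu)
    · refine ⟨[x, z], (Wk.single (Set.mem_univ z)).cons (Set.mem_univ x) (hΓ hxy), ?_, ?_⟩
      · simp only [List.length_cons, List.length_nil]
        omega
      · intro u hu _
        simpa using hu
  · obtain ⟨D, hD, hlen, hmem⟩ := hB.paths (W₀ \ {x, y}) x hx y hy (by simp) (by simp) hne htx hty
      (inc + 1) (by omega) hle2 (by
        constructor
        · intro h
          exact absurd h (by rw [Nat.even_add_one]; exact fun h' => h' hev)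
        · intro h
          exact absurd h (hB.bip x hx y hy hxy))
    refine ⟨D, hlen, (hD.monoG hΓ).mono (Set.subset_univ _), ?_⟩
    intro z hz
    obtain ⟨w, hw, hwlen⟩ := mem_bl_single.1 (hmem z hz)
    refine ⟨w, (hw.monoG hΓ).mono (Set.subset_univ _), hwlen, ?_⟩
    intro u hu huW
    have h1 := hw.mem u hu
    rw [Finset.mem_coe, Finset.mem_sdiff, Finset.mem_sdiff] at h1
    by_contra hcon
    apply h1.2
    refine ⟨huW, ?_⟩
    simpa using hcon

/-- The data at a good edge of the first leg. -/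
lemma edge_data (hLO : LongOdd) (hTE : ThinEdge) {V : Type} {G : SimpleGraph V}
    {lam₀ A R C : ℕ} {Q : List V} {q₁ q₂ v : V} {l : List V} (hA : 1 ≤ A) (hM : Miss G A R)
    (hCov : Cov G 3000 C lam₀) (hC : 202 * A ≤ C) (h3 : 3 ≤ lam₀) (hR : R ≤ lam₀)
    (hQ : IsCyc G Q) (hodd : Odd Q.length) (he : MinEar G {z | z ∈ Q} q₁ q₂ v l)
    (hlen : Q.length + 1 ≤ l.length) {m a : ℕ} (hm : l[m]? = some v) (ham : a + 1 ≤ m)
    (ha : 2 * l.length ≤ 3000 * a ^ 3)
    (hT : ∀ k, 1 ≤ k → (TS G ({z | z ∈ Q} ∪ {z | z ∈ l}) l m k a).card ≤ 1200 * k ^ 3)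
    (hT' : ∀ k, 1 ≤ k → (TS G ({z | z ∈ Q} ∪ {z | z ∈ l}) l m k (a + 1)).card ≤ 1200 * k ^ 3) :
    ∃ lam : ℕ, lam₀ ≤ lam ∧ lam ^ 200 < 2 * (l.length - 1) + 1 ∧
      ∃ x y, l[a]? = some x ∧ l[a + 1]? = some y ∧
      ∀ inc : ℕ, (inc = 0 ∨ (Even inc ∧ lam ≤ inc ∧ inc + 1 ≤ lam ^ C)) →
      ∃ D : List V, D.length = inc + 2 ∧ Pth G Set.univ x y D ∧
      ∀ z ∈ D, ∃ w, Wk G Set.univ x z w ∧ w.length ≤ lam + 1 ∧
        ∀ u ∈ w, u ∈ Q ∨ u ∈ l → u = x ∨ u = y := by
  have hml : m < l.length := by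
    by_contra hcon
    rw [List.getElem?_eq_none (by omega)] at hm
    exact absurd hm (by simp)
  have hx : l[a]? = some l[a] := List.getElem?_eq_getElem (by omega)
  have hy : l[a + 1]? = some l[a + 1] := List.getElem?_eq_getElem (by omega)
  have hxy : G.Adj l[a] l[a + 1] := by
    have hch := he.1.pth.chain
    rw [List.isChain_iff_getElem] at hch
    exact hch a (by omega)
  obtain ⟨Γ, col, H, lam, hΓ, hxH, hyH, hΓxy, hlam, hB⟩ := hCov _ _ hxy
  have hsmall := blob_small hLO hA hM hΓ hC (h3.trans hlam) (hR.trans hlam) hB hQ hodd he.1 hlen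
    (List.getElem_mem _) (List.getElem_mem _) hxy.ne hxH hyH
  obtain ⟨htx, hty⟩ := hTE V G Γ H Q q₁ q₂ v l hΓ he hlen m a _ _ hm hx hy ham ha hT hT' hxH hyH
  refine ⟨lam, hlam, hsmall, _, _, hx, hy, ?_⟩
  intro inc hinc
  obtain ⟨D, h1, h2, h4⟩ := detour_path hΓ (h3.trans hlam) hB hxH hyH hΓxy htx hty inc hinc
  refine ⟨D, h1, h2, ?_⟩
  intro z hz
  obtain ⟨w, hw, hwl, hwm⟩ := h4 z hz
  refine ⟨w, hw, hwl, ?_⟩
  intro u hu huW
  apply hwm u hu
  rw [Finset.mem_union, List.mem_toFinset, List.mem_toFinset]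
  exact huW

/-- Entries of a list without repetition at different places are different. -/
lemma ne_of_idx {V : Type} {l : List V} (hl : l.Nodup) {a b : ℕ} {x y : V} (hx : l[a]? = some x)
    (hy : l[b]? = some y) (hab : a ≠ b) : x ≠ y := by
  rintro rfl
  obtain ⟨h1, h2⟩ := List.getElem?_eq_some_iff.1 hx
  obtain ⟨h3, h4⟩ := List.getElem?_eq_some_iff.1 hy
  exact hab ((List.Nodup.getElem_inj_iff hl).1 (h2.trans h4.symm))

/-- Detours at far edges are disjoint. -/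
lemma detours_disjoint (hS : SameLeg) {V : Type} {G : SimpleGraph V} {Q : List V} {q₁ q₂ v : V}
    {l : List V} (he : MinEar G {z | z ∈ Q} q₁ q₂ v l) {m a b k k' : ℕ} (hm : l[m]? = some v)
    (hbm : b + 1 ≤ m) (hab : a + k + k' + 2 < b) {x x' y y' : V} (hx : l[a]? = some x)
    (hx' : l[a + 1]? = some x') (hy : l[b]? = some y) (hy' : l[b + 1]? = some y') {z : V}
    {w w' : List V} (hw : Wk G Set.univ x z w) (hwl : w.length ≤ k + 1)
    (hwm : ∀ u ∈ w, u ∈ Q ∨ u ∈ l → u = x ∨ u = x')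
    (hw' : Wk G Set.univ y z w') (hwl' : w'.length ≤ k' + 1)
    (hwm' : ∀ u ∈ w', u ∈ Q ∨ u ∈ l → u = y ∨ u = y') : False := by
  have hnd := he.1.pth.nodup
  have h1 := hw.append hw'.reverse
  have h2 := hw.append_length hw'.reverse
  rw [List.length_reverse] at h2
  obtain ⟨s, t, hs, ht, hlk⟩ := link_of_walk (W := {z | z ∈ Q} ∪ {z | z ∈ l}) (k := k + k') h1
    (by omega) (x' := x') (y' := y') (by
      intro u hu huW
      rcases List.mem_append.1 hu with h3 | h3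
      · rcases hwm u h3 huW with h4 | h4
        · exact Or.inl h4
        · exact Or.inr (Or.inl h4)
      · rcases hwm' u (List.mem_reverse.1 (List.mem_of_mem_tail h3)) huW with h4 | h4
        · exact Or.inr (Or.inr (Or.inl h4))
        · exact Or.inr (Or.inr (Or.inr h4)))
    (ne_of_idx hnd hx hy (by omega)) (ne_of_idx hnd hx hy' (by omega))
    (ne_of_idx hnd hx' hy (by omega)) (ne_of_idx hnd hx' hy' (by omega))
  have key : ∀ i j, l[i]? = some s → l[j]? = some t → i ≤ a + 1 → b ≤ j → j ≤ b + 1 → False := by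
    intro i j hi hj hia hbj hjb
    have := hS V G {z | z ∈ Q} q₁ q₂ v l he m i j (k + k') s t hm hi hj (by omega) (by omega) hlk
    omega
  rcases hs with rfl | rfl <;> rcases ht with rfl | rfl
  · exact key a b hx hy (by omega) (by omega) (by omega)
  · exact key a (b + 1) hx hy' (by omega) (by omega) (by omega)
  · exact key (a + 1) b hx' hy (by omega) (by omega) (by omega)
  · exact key (a + 1) (b + 1) hx' hy' (by omega) (by omega) (by omega)

/-- The numerical estimate of step (5). -/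
lemma num_sum {Δ C lam₀ p : ℕ} (hC : 2 ≤ C) (hlam₀ : 24 * Δ + 25 ≤ lam₀) (I J : Finset ℕ)
    (lam : ℕ → ℕ) (hlam : ∀ a ∈ J, lam₀ ≤ lam a) (hI : p ≤ 4 * I.card)
    (hIJ : I.card ≤ 6 * ∑ a ∈ J, lam a) : Δ * p ≤ ∑ a ∈ J, (lam a ^ C - 2) := by
  have h1 : ∀ a ∈ J, lam a * (24 * Δ) ≤ lam a ^ C - 2 := by
    intro a ha
    have h2 := hlam a ha
    have h3 : lam a ^ 2 ≤ lam a ^ C := Nat.pow_le_pow_right (by omega) hC
    have h4 : lam a * (24 * Δ + 25) ≤ lam a ^ 2 := by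
      rw [pow_two]
      exact Nat.mul_le_mul_left _ (hlam₀.trans h2)
    have h5 : lam a * (24 * Δ + 25) = lam a * (24 * Δ) + 25 * lam a := by ring
    omega
  have h2 : ∑ a ∈ J, lam a * (24 * Δ) ≤ ∑ a ∈ J, (lam a ^ C - 2) := Finset.sum_le_sum h1
  refine le_trans ?_ h2
  rw [← Finset.sum_mul]
  calc Δ * p ≤ Δ * (24 * ∑ a ∈ J, lam a) := Nat.mul_le_mul_left _ (by omega)
    _ = (∑ a ∈ J, lam a) * (24 * Δ) := by ring

/-- The lemma when `v` is in the second half of the ear. -/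
lemma core (hLO : LongOdd) (hS : SameLeg) (hC : Cross) (hCC : CrossCount) (hTE : ThinEdge)
    (hG : Greedy) (hSu : Sumset) (hD : Detour) {A R Δ C lam₀ : ℕ} (hA : 1 ≤ A)
    (hCA : 202 * A ≤ C) (hC3 : 3 ≤ C) (hlam₀ : R + 24 * Δ + 25 ≤ lam₀) {V : Type}
    {G : SimpleGraph V} (hM : Miss G A R) (hCov : Cov G 3000 C lam₀) {Q : List V} {q₁ q₂ v : V}
    {l : List V} (hQ : IsCyc G Q) (hodd : Odd Q.length) (he : MinEar G {z | z ∈ Q} q₁ q₂ v l)
    (hlen : Q.length + 1 ≤ l.length) (hp : 9 ≤ l.length) {m : ℕ} (hm : l[m]? = some v)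
    (hpm : l.length - 1 ≤ 2 * m) {ℓ : ℕ} (hℓ : 3 * (l.length - 1) ≤ ℓ)
    (hℓ' : ℓ ≤ Δ * (l.length - 1)) : ∃ D, IsCyc G D ∧ D.length = ℓ := by
  have hml : m < l.length := by
    by_contra hcon
    rw [List.getElem?_eq_none (by omega)] at hm
    exact absurd hm (by simp)
  -- the good places
  have hBc := card_bad hC hCC he hm
  set B := (Finset.range (m + 1)).filter (fun a => ∃ k, 1 ≤ k ∧
      1200 * k ^ 3 < (TS G ({z | z ∈ Q} ∪ {z | z ∈ l}) l m k a).card) with hBdef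
  have hI4 := card_good B (p := l.length - 1) hBc (by omega) hpm (by omega)
  set I := (Finset.Ico ((l.length - 1) / 8) m).filter (fun a => a ∉ B ∧ a + 1 ∉ B) with hIdef
  have hIB : ∀ b, b ≤ m → b ∉ B → ∀ k, 1 ≤ k →
      (TS G ({z | z ∈ Q} ∪ {z | z ∈ l}) l m k b).card ≤ 1200 * k ^ 3 := by
    intro b hb hbB k hk
    by_contra hcon
    apply hbB
    rw [hBdef, Finset.mem_filter, Finset.mem_range]
    exact ⟨by omega, k, hk, by omega⟩
  have hIm : ∀ a ∈ I, (l.length - 1) / 8 ≤ a ∧ a + 1 ≤ m ∧ a ∉ B ∧ a + 1 ∉ B := by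
    intro a ha
    rw [hIdef, Finset.mem_filter, Finset.mem_Ico] at ha
    exact ⟨ha.1.1, by omega, ha.2.1, ha.2.2⟩
  have hdata : ∀ a ∈ I, ∃ lam : ℕ, lam₀ ≤ lam ∧ lam ^ 200 < 2 * (l.length - 1) + 1 ∧
      ∃ x y, l[a]? = some x ∧ l[a + 1]? = some y ∧
      ∀ inc : ℕ, (inc = 0 ∨ (Even inc ∧ lam ≤ inc ∧ inc + 1 ≤ lam ^ C)) →
      ∃ D : List V, D.length = inc + 2 ∧ Pth G Set.univ x y D ∧
      ∀ z ∈ D, ∃ w, Wk G Set.univ x z w ∧ w.length ≤ lam + 1 ∧
        ∀ u ∈ w, u ∈ Q ∨ u ∈ l → u = x ∨ u = y := by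
    intro a ha
    obtain ⟨h1, h2, h3, h4⟩ := hIm a ha
    refine edge_data hLO hTE hA hM hCov hCA (by omega) (by omega) hQ hodd he hlen hm h2 ?_
      (hIB a (by omega) h3) (hIB (a + 1) h2 h4)
    have h5 : 1 ≤ a := by omega
    have h6 : a ≤ a ^ 3 := Nat.le_self_pow (by norm_num) a
    omega
  have : Nonempty V := ⟨v⟩
  choose! lam hlam1 hlam2 X Y hX hY hinc using hdata
  have hlam3 : ∀ a ∈ I, 3 ≤ lam a := fun a ha => by
    have := hlam1 a ha
    omega
  have hlamp : ∀ a ∈ I, lam a ≤ l.length - 2 := by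
    intro a ha
    by_contra hcon
    have h1 := hlam2 a ha
    have h2 : lam a ^ 2 ≤ lam a ^ 200 := Nat.pow_le_pow_right (by have := hlam3 a ha; omega)
      (by norm_num)
    have h3 : (l.length - 1) ^ 2 ≤ lam a ^ 2 := Nat.pow_le_pow_left (by omega) 2
    have h4 : (l.length - 1) * 8 ≤ (l.length - 1) ^ 2 := by
      rw [pow_two]
      exact Nat.mul_le_mul_left _ (by omega)
    omega
  obtain ⟨J, hJI, hJsep, hJsum⟩ := hG I lam hlam3
  -- the arc
  obtain ⟨arc, harc, harcle, harcev⟩ := two_arcs hQ hodd he.1.q1 he.1.q2 he.1.ne (ℓ + l.length)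
  have harc2 := harc.two_le he.1.ne
  obtain ⟨t, ht⟩ : ∃ t, t + arc.length + l.length = ℓ + 2 := ⟨ℓ + 2 - arc.length - l.length, by omega⟩
  have htev : Even t := by
    obtain ⟨i, hi⟩ := harcev
    exact ⟨i - arc.length - l.length + 1, by omega⟩
  have htle : t ≤ ∑ a ∈ J, (lam a ^ C - 2) := by
    have h1 := num_sum (Δ := Δ) (C := C) (lam₀ := lam₀) (p := l.length - 1) (by omega) (by omega)
      I J lam (fun a ha => hlam1 a (hJI ha)) hI4 hJsum
    omega
  obtain ⟨inc, hinc1, hinc2⟩ := hSu J lam C (l.length - 2) t hC3 (fun a ha => hlam3 a (hJI ha))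
    (fun a ha => hlamp a (hJI ha)) htev (by omega) htle
  have hDex : ∀ a ∈ J, ∃ D : List V, D.length = inc a + 2 ∧ Pth G Set.univ (X a) (Y a) D ∧
      ∀ z ∈ D, ∃ w, Wk G Set.univ (X a) z w ∧ w.length ≤ lam a + 1 ∧
        ∀ u ∈ w, u ∈ Q ∨ u ∈ l → u = X a ∨ u = Y a :=
    fun a ha => hinc a (hJI ha) (inc a) (hinc1 a ha)
  choose! D hDlen hDp hDw using hDex
  have hDW : ∀ a ∈ J, ∀ z ∈ D a, z ∈ Q ∨ z ∈ l → z = X a ∨ z = Y a := by
    intro a ha z hz hzW
    obtain ⟨w, hw, -, hwm⟩ := hDw a ha z hz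
    exact hwm z hw.right_mem hzW
  have hsep : ∀ a ∈ J, ∀ b ∈ J, a < b → List.Disjoint (D a) (D b) := by
    intro a ha b hb hab z hza hzb
    obtain ⟨w, hw, hwl, hwm⟩ := hDw a ha z hza
    obtain ⟨w', hw', hwl', hwm'⟩ := hDw b hb z hzb
    exact detours_disjoint hS he hm (hIm b (hJI hb)).2.1 (hJsep a ha b hb hab) (hX a (hJI ha))
      (hY a (hJI ha)) (hX b (hJI hb)) (hY b (hJI hb)) hw hwl hwm hw' hwl' hwm'
  obtain ⟨l', hl', hl'len, hl'mem⟩ := hD V G q₁ q₂ l J D he.1.pth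
    (fun a ha => ⟨X a, Y a, hX a (hJI ha), hY a (hJI ha), hDp a ha,
      fun z hz hzl => hDW a ha z hz (Or.inr hzl)⟩) (by
      intro a ha b hb hab
      rcases Nat.lt_or_gt_of_ne hab with h | h
      · exact hsep a ha b hb h
      · exact (hsep b hb a ha h).symm)
  have hsum : ∑ a ∈ J, (D a).length = t + 2 * J.card := by
    rw [Finset.sum_congr rfl hDlen, Finset.sum_add_distrib, hinc2, Finset.sum_const, smul_eq_mul]
    ring
  have hl'len2 : l'.length = l.length + t := by omega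
  obtain ⟨E, hE, hElen, -⟩ := close_up harc hl' (by omega) he.1.ne (by
    intro z hz hzQ
    rcases hl'mem z hz with h | ⟨a, ha, h⟩
    · exact he.1.int z h hzQ
    · have h1 : z ∈ l := by
        rcases hDW a ha z h (Or.inl hzQ) with h2 | h2
        · rw [h2]
          exact List.mem_of_getElem? (hX a (hJI ha))
        · rw [h2]
          exact List.mem_of_getElem? (hY a (hJI ha))
      exact he.1.int z h1 hzQ)
  exact ⟨E, hE, by omega⟩

end Pool.Agent.Lib.MP_b6048d_co.F.GapLemmaAux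

namespace Pool.Agent.Lib.MP_b6048d_co.F

/-- **C11 GapLemma.** -/
theorem gapLemma (hLO : LongOdd) (hS : SameLeg) (hC : Cross) (hCC : CrossCount) (hTE : ThinEdge)
    (hG : Greedy) (hSu : Sumset) (hD : Detour) : GapLemma := by
  intro A R Δ hA
  refine ⟨202 * A + 3, R + 24 * Δ + 25, 9, by omega, ?_⟩
  intro V G hM hCov Q q₁ q₂ v l hQ hodd he hlen hp ℓ hℓ hℓ'
  obtain ⟨m, hml, hm⟩ := List.mem_iff_getElem.1 he.1.mem
  have hm' : l[m]? = some v := by rw [List.getElem?_eq_getElem hml, hm]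
  rcases Nat.le_total (l.length - 1) (2 * m) with h | h
  · exact GapLemmaAux.core hLO hS hC hCC hTE hG hSu hD hA (by omega) (by omega) le_rfl hM hCov hQ
      hodd he hlen hp hm' h hℓ hℓ'
  · refine GapLemmaAux.core (l := l.reverse) (m := l.length - 1 - m) hLO hS hC hCC hTE hG hSu hD hA
      (by omega) (by omega) le_rfl hM hCov hQ hodd (GapLemmaAux.minEar_reverse he) ?_ ?_ ?_ ?_ ?_ ?_
    · rw [List.length_reverse]
      exact hlen
    · rw [List.length_reverse]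
      exact hp
    · rw [List.getElem?_reverse (by omega), ← hm']
      congr 1
      omega
    · rw [List.length_reverse]
      omega
    · rw [List.length_reverse]
      exact hℓ
    · rw [List.length_reverse]
      exact hℓ'

end Pool.Agent.Lib.MP_b6048d_co.F
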