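import Pool.Agent.Lib.MP_b6048d_co.F.SpecD

set_option autoImplicit false

open scoped Classical

namespace Pool.Agent.Lib.MP_b6048d_co.F

theorem gapToGapP : GapToGapP := by
  intro V G Δ p₀ y hΔ hmiss hp₀ hgap Q q₁ q₂ v l hQ hodd hlen hmin
  by_contra hcon
  simp only [not_or, not_le] at hcon
  obtain ⟨h1, h2⟩ := hcon
  have hΔ0 : 0 < Δ := by omega
  have h3 : 3 * (y / 3) ≤ y := Nat.mul_div_le y 3
  have h4 : y < Δ * (y / Δ + 1) := by
    have := Nat.lt_mul_div_succ y hΔ0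
    simpa using this
  have h5 : y / Δ + 1 ≤ l.length - 1 := by omega
  have h6 : y ≤ Δ * (l.length - 1) := h4.le.trans (Nat.mul_le_mul_left Δ h5)
  obtain ⟨D, hD, hDy⟩ := hgap Q q₁ q₂ v l hQ hodd hmin (by omega) (by omega) y (by omega) h6
  exact hmiss D hD hDy

end Pool.Agent.Lib.MP_b6048d_co.F
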