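import Pool.Agent.Lib.MP_b6048d_co.F.SpecA

set_option autoImplicit false

/-!
A22 GeoDevice: geodesics make a thin switch.
-/

open scoped Classical

namespace Pool.Agent.Lib.MP_b6048d_co.F.GeoDeviceAux

open Pool.Agent.Lib.MP_b6048d_co.F

variable {V : Type*} {Γ : SimpleGraph V} {S : Finset V} {z u : V} {i : ℕ}

/-- A geodesic from the centre of a ball; the `k`-th vertex has level exactly `k`. -/
lemma geod (hi : 1 ≤ i) (hu : u ∈ bl Γ S {z} i) (hu' : u ∉ bl Γ S {z} (i - 1)) :
    ∃ l, Pth Γ (S : Set V) z u l ∧ l.length = i + 1 ∧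
      ∀ k (hk : k < l.length), l[k] ∈ bl Γ S {z} k ∧ ∀ j, l[k] ∈ bl Γ S {z} j → k ≤ j := by
  obtain ⟨l, hl, hlen⟩ := mem_bl_single.1 hu
  have hlen' : l.length = i + 1 := by
    by_contra hne
    exact hu' (mem_bl_single.2 ⟨l, hl, by omega⟩)
  have hlev : ∀ k (hk : k < l.length), l[k] ∈ bl Γ S {z} k ∧
      ∀ j, l[k] ∈ bl Γ S {z} j → k ≤ j := by
    intro k hk
    refine ⟨hl.prefix_bl k hk, ?_⟩
    intro j hj
    by_contra hlt
    have e1 : l = l.take k ++ l[k] :: l.drop (k + 1) := by
      rw [List.cons_getElem_drop_succ, List.take_append_drop]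
    have h1 := hl
    rw [e1] at h1
    have h2 := h1.cut.2
    have h3 : u ∈ bl Γ S {l[k]} (i - k) := by
      refine mem_bl_single.2 ⟨_, h2, ?_⟩
      simp only [List.length_cons, List.length_drop]
      omega
    have h4 := bl_trans hj h3
    exact hu' (bl_mono (by omega) h4)
  refine ⟨l, ⟨hl, ?_⟩, hlen', hlev⟩
  rw [List.nodup_iff_injective_getElem]
  intro a b hab
  have ha := hlev a.1 a.2
  have hb := hlev b.1 b.2
  have hab' : l[a.1] = l[b.1] := hab
  have h1 := ha.2 b.1 (by rw [hab']; exact hb.1)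
  have h2 := hb.2 a.1 (by rw [← hab']; exact ha.1)
  exact Fin.ext (le_antisymm h1 h2)

/-- The count of the vertices in a window of levels of two geodesics. -/
lemma count (l₀ l₁ : List V) (d c w : V) (a b : ℕ) (F : Finset V)
    (hF : ∀ y ∈ F, y = c ∨ y = w ∨
      (∃ k, ∃ hk : k < l₀.length, l₀[k] = y ∧ a ≤ k ∧ k ≤ b) ∨
      (∃ k, ∃ hk : k < l₁.length, l₁[k] = y ∧ a ≤ k ∧ k ≤ b)) :
    F.card ≤ 2 * (b + 1 - a) + 2 := by
  have hsub : F ⊆ ({c, w} : Finset V) ∪ ((Finset.Icc a b).image (fun k => l₀.getD k d) ∪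
      (Finset.Icc a b).image (fun k => l₁.getD k d)) := by
    intro y hy
    simp only [Finset.mem_union, Finset.mem_insert, Finset.mem_singleton, Finset.mem_image,
      Finset.mem_Icc]
    rcases hF y hy with h | h | ⟨k, hk, h1, h2, h3⟩ | ⟨k, hk, h1, h2, h3⟩
    · exact Or.inl (Or.inl h)
    · exact Or.inl (Or.inr h)
    · right; left
      exact ⟨k, ⟨h2, h3⟩, by rw [List.getD_eq_getElem _ _ hk]; exact h1⟩
    · right; right
      exact ⟨k, ⟨h2, h3⟩, by rw [List.getD_eq_getElem _ _ hk]; exact h1⟩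
  have h1 := Finset.card_le_card hsub
  have h2 := Finset.card_union_le ({c, w} : Finset V)
    ((Finset.Icc a b).image (fun k => l₀.getD k d) ∪
      (Finset.Icc a b).image (fun k => l₁.getD k d))
  have h3 := Finset.card_union_le ((Finset.Icc a b).image (fun k => l₀.getD k d))
    ((Finset.Icc a b).image (fun k => l₁.getD k d))
  have h4 : ((Finset.Icc a b).image (fun k => l₀.getD k d)).card ≤ b + 1 - a := by
    refine Finset.card_image_le.trans ?_
    rw [Nat.card_Icc]
  have h5 : ((Finset.Icc a b).image (fun k => l₁.getD k d)).card ≤ b + 1 - a := by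
    refine Finset.card_image_le.trans ?_
    rw [Nat.card_Icc]
  have h6 : ({c, w} : Finset V).card ≤ 2 := Finset.card_le_two
  omega

lemma num (k : ℕ) : 2 * (k + 2) + 2 ≤ 6 * (k + 1) ^ 3 := by
  have h1 : k + 1 ≤ (k + 1) ^ 3 := Nat.le_self_pow (by norm_num) _
  have h2 : 1 ≤ k + 1 := by omega
  nlinarith

end Pool.Agent.Lib.MP_b6048d_co.F.GeoDeviceAux

namespace Pool.Agent.Lib.MP_b6048d_co.F

open GeoDeviceAux

theorem geoDevice : GeoDevice := by
  intro V Γ S z₀ w u₀ u₁ i hz hi hne hu₀ hu₀' hu₁ hu₁' hwS hw hw0 hw1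
  obtain ⟨l₀, hl₀, hlen₀, hlev₀⟩ := geod hi hu₀ hu₀'
  obtain ⟨l₁, hl₁, hlen₁, hlev₁⟩ := geod hi hu₁ hu₁'
  -- last entries
  have hlast : ∀ (l : List V) (u : V), Pth Γ (S : Set V) z₀ u l → (hl : l.length = i + 1) →
      l[i]'(by omega) = u := by
    intro l u h hl
    have h1 := h.last
    rw [List.getLast?_eq_getElem?, List.getElem?_eq_getElem (by omega)] at h1
    have h2 := Option.some.inj h1
    rw [← h2]
    congr 1
    omega
  set D : Finset V := insert w (l₀.toFinset ∪ l₁.toFinset) with hD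
  have hmemD : ∀ y, y ∈ D ↔ y = w ∨ y ∈ l₀ ∨ y ∈ l₁ := by
    intro y
    rw [hD]
    simp only [Finset.mem_insert, Finset.mem_union, List.mem_toFinset]
  have hw₁ : w ∉ l₁ := by
    intro h
    obtain ⟨k, hk, hkw⟩ := List.getElem_of_mem h
    have := (hlev₁ k hk).1
    rw [hkw] at this
    exact hw (bl_mono (by omega) this)
  have hu₀₁ : u₀ ∉ l₁ := by
    intro h
    obtain ⟨k, hk, hku⟩ := List.getElem_of_mem h
    have h1 := hlev₁ k hk
    rw [hku] at h1
    have h2 : k = i := by
      by_contra hk'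
      exact hu₀' (bl_mono (by omega) h1.1)
    subst h2
    have h3 := hlast l₁ u₁ hl₁ hlen₁
    exact hne (hku.symm.trans h3)
  have hdev : Device Γ S z₀ u₀ D i := by
    refine ⟨?_, ?_, ?_, ?_, ?_, ?_⟩
    · intro h
      rw [← h] at hu₀'
      exact hu₀' (self_mem_bl hz)
    · intro y hy
      rcases (hmemD y).1 hy with h | h | h
      · rw [h]; exact hwS
      · exact_mod_cast hl₀.mem y h
      · exact_mod_cast hl₁.mem y h
    · exact (hmemD _).2 (Or.inr (Or.inl hl₀.toWk.left_mem))
    · exact (hmemD _).2 (Or.inr (Or.inl hl₀.toWk.right_mem))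
    · exact ⟨l₀, hl₀.restrict (fun x hx => by
        have := (hmemD x).2 (Or.inr (Or.inl hx))
        exact_mod_cast this), hlen₀⟩
    · have h1 : Pth Γ (D : Set V) z₀ u₁ l₁ := hl₁.restrict (fun x hx => by
        have := (hmemD x).2 (Or.inr (Or.inr hx))
        exact_mod_cast this)
      have hwD : w ∈ (D : Set V) := by
        have := (hmemD w).2 (Or.inl rfl)
        exact_mod_cast this
      have huD : u₀ ∈ (D : Set V) := by
        have := (hmemD u₀).2 (Or.inr (Or.inl hl₀.toWk.right_mem))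
        exact_mod_cast this
      have h2 := h1.concat hwD hw1 hw₁
      have h3 := h2.concat huD hw0.symm (by
        intro h
        rcases List.mem_append.1 h with h4 | h4
        · exact hu₀₁ h4
        · rw [List.mem_singleton] at h4
          rw [h4] at hw0
          exact Γ.loopless.irrefl _ hw0)
      exact ⟨_, h3, by simp only [List.length_append, List.length_singleton]; omega⟩
  refine ⟨D, hdev, ?_, ?_⟩
  · have h1 : D.card ≤ (l₀.toFinset ∪ l₁.toFinset).card + 1 := Finset.card_insert_le _ _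
    have h2 := Finset.card_union_le l₀.toFinset l₁.toFinset
    have h3 := List.toFinset_card_le l₀
    have h4 := List.toFinset_card_le l₁
    omega
  · rintro s hs T ⟨c, hTc⟩ hsT hDT k
    have hbl : ∀ x, x ∈ bl Γ (S \ T) {s} k → x ∈ bl Γ S {s} k := fun x hx =>
      bl_mono_set Finset.sdiff_subset (Finset.Subset.refl _) hx
    rcases hs with rfl | rfl
    · have hc := count l₀ l₁ s c w 0 (k + 1)
        ((T ∩ S).filter (fun y => ∃ x ∈ bl Γ (S \ T) {s} k, Γ.Adj x y)) (by
          intro y hy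
          obtain ⟨hy1, x, hx, hxy⟩ := Finset.mem_filter.1 hy
          obtain ⟨hyT, hyS⟩ := Finset.mem_inter.1 hy1
          have hyb : y ∈ bl Γ S {s} (k + 1) := bl_step (hbl x hx) hyS hxy
          rcases Finset.mem_insert.1 (hTc hyT) with h | h
          · exact Or.inl h
          · rcases (hmemD y).1 (Finset.mem_sdiff.1 h).1 with h1 | h1 | h1
            · exact Or.inr (Or.inl h1)
            · obtain ⟨m, hm, hmy⟩ := List.getElem_of_mem h1
              refine Or.inr (Or.inr (Or.inl ⟨m, hm, hmy, Nat.zero_le _, ?_⟩))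
              exact (hlev₀ m hm).2 _ (by rw [hmy]; exact hyb)
            · obtain ⟨m, hm, hmy⟩ := List.getElem_of_mem h1
              refine Or.inr (Or.inr (Or.inr ⟨m, hm, hmy, Nat.zero_le _, ?_⟩))
              exact (hlev₁ m hm).2 _ (by rw [hmy]; exact hyb))
      have := num k
      omega
    · have hc := count l₀ l₁ s c w (i - (k + 1)) i
        ((T ∩ S).filter (fun y => ∃ x ∈ bl Γ (S \ T) {s} k, Γ.Adj x y)) (by
          intro y hy
          obtain ⟨hy1, x, hx, hxy⟩ := Finset.mem_filter.1 hy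
          obtain ⟨hyT, hyS⟩ := Finset.mem_inter.1 hy1
          have hyb : y ∈ bl Γ S {s} (k + 1) := bl_step (hbl x hx) hyS hxy
          have hby : s ∈ bl Γ S {y} (k + 1) := bl_symm hyb
          have key : ∀ m, y ∈ bl Γ S {z₀} m → i - (k + 1) ≤ m := by
            intro m hm
            by_contra hlt
            have := bl_trans hm hby
            exact hu₀' (bl_mono (by omega) this)
          rcases Finset.mem_insert.1 (hTc hyT) with h | h
          · exact Or.inl h
          · rcases (hmemD y).1 (Finset.mem_sdiff.1 h).1 with h1 | h1 | h1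
            · exact Or.inr (Or.inl h1)
            · obtain ⟨m, hm, hmy⟩ := List.getElem_of_mem h1
              refine Or.inr (Or.inr (Or.inl ⟨m, hm, hmy, ?_, by omega⟩))
              exact key m (by rw [← hmy]; exact (hlev₀ m hm).1)
            · obtain ⟨m, hm, hmy⟩ := List.getElem_of_mem h1
              refine Or.inr (Or.inr (Or.inr ⟨m, hm, hmy, ?_, by omega⟩))
              exact key m (by rw [← hmy]; exact (hlev₁ m hm).1))
      have := num k
      omega

end Pool.Agent.Lib.MP_b6048d_co.F
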