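import Pool.Agent.Lib.MP_b6048d_co.F.SpecA

set_option autoImplicit false

/-!
A18 GoodGrow: a good vertex has large balls.
-/

open scoped Classical

namespace Pool.Agent.Lib.MP_b6048d_co.F.GoodGrowAux

variable {V : Type} {Γ : SimpleGraph V} {S T B : Finset V} {v : V}

/-- The neighbours in `S` are neighbours in `S \ T` or elements of `T` adjacent to the set. -/
lemma nbr_split : (nbr Γ S B).card ≤ (nbr Γ (S \ T) B).card +
    ((T ∩ S).filter (fun w => ∃ x ∈ B, Γ.Adj x w)).card := by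
  refine le_trans (Finset.card_le_card ?_) (Finset.card_union_le _ _)
  intro w hw
  obtain ⟨hwS, hwB, a, ha, haw⟩ := mem_nbr.1 hw
  by_cases hT : w ∈ T
  · exact Finset.mem_union_right _ (Finset.mem_filter.2 ⟨Finset.mem_inter.2 ⟨hT, hwS⟩, a, ha, haw⟩)
  · exact Finset.mem_union_left _ (mem_nbr.2 ⟨Finset.mem_sdiff.2 ⟨hwS, hT⟩, hwB, a, ha, haw⟩)

lemma bl_zero (hv : v ∈ S) : bl Γ S {v} 0 = {v} := by
  rw [bl]
  exact Finset.inter_eq_left.2 (Finset.singleton_subset_iff.2 hv)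

lemma dg_eq_nbr : dg Γ S v = (nbr Γ S {v}).card := by
  unfold dg
  congr 1
  ext w
  rw [mem_nbr, Finset.mem_filter]
  constructor
  · rintro ⟨h1, h2⟩
    refine ⟨h1, ?_, v, Finset.mem_singleton_self v, h2⟩
    rw [Finset.mem_singleton]
    rintro rfl
    exact h2.ne rfl
  · rintro ⟨h1, -, a, ha, h2⟩
    rw [Finset.mem_singleton] at ha
    subst ha
    exact ⟨h1, h2⟩

/-- The numbers. -/
lemma num (q c L : ℕ) (hq : q = c + 6) (hL : 4 * q * (8 * q) ^ c + 1 ≤ L) :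
    L ^ c ≤ ((L - 1) / (4 * q)) ^ q ∧ 4 * q * ((L - 1) / (4 * q)) + 1 ≤ L := by
  have hq0 : 0 < 4 * q := by omega
  set t := (L - 1) / (4 * q) with ht
  have h1 : (8 * q) ^ c ≤ t := by
    rw [ht, Nat.le_div_iff_mul_le hq0]
    have : (8 * q) ^ c * (4 * q) = 4 * q * (8 * q) ^ c := by ring
    omega
  have h8 : 1 ≤ (8 * q) ^ c := Nat.one_le_pow _ _ (by omega)
  have ht1 : 1 ≤ t := h8.trans h1
  have h2 : 4 * q * t ≤ L - 1 := Nat.mul_div_le _ _
  have h3 : L - 1 < 4 * q * (t + 1) := by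
    have := Nat.lt_mul_div_succ (L - 1) hq0
    rw [← ht] at this
    exact this
  refine ⟨?_, by omega⟩
  have h4 : L ≤ 8 * q * t := by
    have : 4 * q * (t + 1) ≤ 8 * q * t := by nlinarith
    omega
  calc L ^ c ≤ (8 * q * t) ^ c := Nat.pow_le_pow_left h4 _
    _ = (8 * q) ^ c * t ^ c := by rw [mul_pow]
    _ ≤ t * t ^ c := Nat.mul_le_mul_right _ h1
    _ = t ^ (c + 1) := by ring
    _ ≤ t ^ q := Nat.pow_le_pow_right ht1 (by omega)

end Pool.Agent.Lib.MP_b6048d_co.F.GoodGrowAux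

namespace Pool.Agent.Lib.MP_b6048d_co.F

open GoodGrowAux in
theorem goodGrow (hN : NumGrow) : GoodGrow := by
  intro κ c
  obtain ⟨A, hA⟩ := hN (c + 6) κ (by omega)
  refine ⟨2 * A + 2 * κ + 2, 4 * (c + 6) * (8 * (c + 6)) ^ c + 1, ?_⟩
  intro V Γ S T v c₀ L hL hc₀ hvS hvT hdg hexp hthin
  obtain ⟨hY, ht⟩ := num (c + 6) c L rfl hL
  set t := (L - 1) / (4 * (c + 6)) with htdef
  have hvST : v ∈ S \ T := Finset.mem_sdiff.2 ⟨hvS, hvT⟩
  -- the second ball
  have h1 : dg Γ S v + 1 ≤ (bl Γ (S \ T) {v} 1).card + κ := by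
    have e1 : (bl Γ (S \ T) {v} (0 + 1)).card =
        (bl Γ (S \ T) {v} 0).card + (nbr Γ (S \ T) (bl Γ (S \ T) {v} 0)).card := card_bl_succ
    have e2 := hthin 0
    rw [bl_zero hvST] at e1 e2
    have e3 := nbr_split (Γ := Γ) (S := S) (T := T) (B := {v})
    rw [dg_eq_nbr]
    simp only [zero_add, Finset.card_singleton, one_pow, mul_one] at e1 e2
    omega
  have h1' : (dg Γ S v : ℝ) + 1 ≤ (bl Γ (S \ T) {v} 1).card + κ := by exact_mod_cast h1
  have hc0' : (2 : ℝ) * A + 2 * κ + 2 ≤ c₀ := by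
    have := hc₀
    push_cast at this
    exact this
  have h2 : c₀ / 2 ≤ (bl Γ (S \ T) {v} 1).card := by linarith
  have hAf : A ≤ (bl Γ (S \ T) {v} 1).card := by
    have hκ : (0 : ℝ) ≤ κ := Nat.cast_nonneg κ
    have : (A : ℝ) ≤ (bl Γ (S \ T) {v} 1).card := by linarith
    exact_mod_cast this
  obtain ⟨i, hi1, hi2, hi3⟩ := hA (fun i => (bl Γ (S \ T) {v} i).card) (L ^ c) t hAf hY (by
    intro i hi1 hi2 hi3
    have hB1 : bl Γ (S \ T) {v} i ⊆ S := bl_subset.trans Finset.sdiff_subset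
    have hB2 : v ∈ bl Γ (S \ T) {v} i := self_mem_bl hvST
    have hB3 : Cn Γ (bl Γ (S \ T) {v} i) := (conS_bl hvST).cn
    have hB4 : c₀ / 2 ≤ (bl Γ (S \ T) {v} i).card := by
      have : (bl Γ (S \ T) {v} 1).card ≤ (bl Γ (S \ T) {v} i).card :=
        Finset.card_le_card (bl_mono hi1)
      have h' : ((bl Γ (S \ T) {v} 1).card : ℝ) ≤ (bl Γ (S \ T) {v} i).card := by
        exact_mod_cast this
      linarith
    refine ⟨(nbr Γ S (bl Γ (S \ T) {v} i)).card, ?_, ?_⟩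
    · exact hexp _ hB1 hB2 hB3 hB4 (le_of_lt hi3)
    · have e1 : (bl Γ (S \ T) {v} (i + 1)).card =
          (bl Γ (S \ T) {v} i).card + (nbr Γ (S \ T) (bl Γ (S \ T) {v} i)).card := card_bl_succ
      have e2 := hthin i
      have e3 := nbr_split (Γ := Γ) (S := S) (T := T) (B := bl Γ (S \ T) {v} i)
      show (bl Γ (S \ T) {v} i).card + _ ≤ (bl Γ (S \ T) {v} (i + 1)).card + _
      omega)
  exact hi3.trans (Finset.card_le_card (bl_mono (hi2.trans ht)))

end Pool.Agent.Lib.MP_b6048d_co.F
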