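import Pool.Agent.Lib.MP_b6048d_co.F.SpecA

set_option autoImplicit false

/-!
# A17 GoodLemma
-/

open scoped Classical

namespace Pool.Agent.Lib.MP_b6048d_co.F

namespace GoodLemmaAux

open Filter

/-- powers of logarithms are small -/
lemma logpow (M : ℝ) (k : ℕ) : ∃ N : ℕ, ∀ D : ℕ, N ≤ D → M * (Real.log D) ^ k ≤ D := by
  have h := Real.isLittleO_pow_log_id_atTop (n := k)
  have h1 := h.def (c := 1 / (|M| + 1)) (by positivity)
  have h2 : ∀ᶠ n : ℕ in atTop, ‖Real.log (n : ℝ) ^ k‖ ≤ 1 / (|M| + 1) * ‖id (n : ℝ)‖ :=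
    tendsto_natCast_atTop_atTop.eventually h1
  obtain ⟨N, hN⟩ := eventually_atTop.1 h2
  refine ⟨N, fun D hD => ?_⟩
  have h3 := hN D hD
  rw [Real.norm_eq_abs, Real.norm_eq_abs, id, Nat.abs_cast] at h3
  have h4 : M * Real.log D ^ k ≤ |M| * |Real.log (D : ℝ) ^ k| := by
    rw [← abs_mul]
    exact le_abs_self _
  have h5 : |M| * |Real.log (D : ℝ) ^ k| ≤ |M| * (1 / (|M| + 1) * D) :=
    mul_le_mul_of_nonneg_left h3 (abs_nonneg _)
  have h6 : |M| * (1 / (|M| + 1) * (D : ℝ)) = (|M| / (|M| + 1)) * D := by ring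
  have h7 : |M| / (|M| + 1) ≤ 1 := by
    rw [div_le_one (by positivity)]
    linarith
  have h8 : (|M| / (|M| + 1)) * (D : ℝ) ≤ 1 * D :=
    mul_le_mul_of_nonneg_right h7 (by positivity)
  linarith

lemma star_le {q b N : ℕ} {lam : ℝ} (hq : 1 ≤ q) (hb : 1 ≤ b)
    (h1 : lam ^ q ≤ b) (h2 : (b : ℝ) ≤ lam * N) : b ^ (q - 1) ≤ N ^ q := by
  have h3 : (b : ℝ) ^ q ≤ (b : ℝ) * (N : ℝ) ^ q := by
    calc (b : ℝ) ^ q ≤ (lam * N) ^ q := pow_le_pow_left₀ (by positivity) h2 q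
      _ = lam ^ q * (N : ℝ) ^ q := by rw [mul_pow]
      _ ≤ (b : ℝ) * (N : ℝ) ^ q := mul_le_mul_of_nonneg_right h1 (by positivity)
  have h4 : (b : ℝ) ^ q = b * (b : ℝ) ^ (q - 1) := by
    obtain ⟨k, rfl⟩ : ∃ k, q = k + 1 := ⟨q - 1, by omega⟩
    rw [Nat.add_sub_cancel, pow_succ]
    ring
  rw [h4] at h3
  have hb' : (0 : ℝ) < b := by exact_mod_cast hb
  have h5 := le_of_mul_le_mul_left h3 hb'
  exact_mod_cast h5

lemma ed_lower {V : Type} {Γ : SimpleGraph V} {S Bad : Finset V} {c₀ : ℝ} (hBad : Bad ⊆ S)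
    (h : ∀ v ∈ S, v ∉ Bad → c₀ ≤ dg Γ S v) :
    c₀ * ((S.card : ℝ) - Bad.card) ≤ 2 * ed Γ S := by
  have h1 : 2 * ed Γ S = ∑ v ∈ S, (dg Γ S v : ℝ) := by
    unfold ed
    ring
  have h2 : ∑ v ∈ S \ Bad, (dg Γ S v : ℝ) ≤ ∑ v ∈ S, (dg Γ S v : ℝ) :=
    Finset.sum_le_sum_of_subset_of_nonneg Finset.sdiff_subset fun _ _ _ => by positivity
  have h3 : ((S \ Bad).card : ℝ) * c₀ ≤ ∑ v ∈ S \ Bad, (dg Γ S v : ℝ) := by
    rw [← nsmul_eq_mul]
    apply Finset.card_nsmul_le_sum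
    intro v hv
    rw [Finset.mem_sdiff] at hv
    exact h v hv.1 hv.2
  have h4 : ((S \ Bad).card : ℝ) = (S.card : ℝ) - Bad.card := by
    have := Finset.card_sdiff_add_card_eq_card hBad
    have h5 : ((S \ Bad).card : ℝ) + Bad.card = S.card := by exact_mod_cast this
    linarith
  rw [h4] at h3
  linarith

/-- the square condition -/
lemma sq_cond {D b N : ℕ} (hN2 : ∀ D : ℕ, N ≤ D → 96 * 144 * (Real.log D) ^ 3 ≤ D)
    (hN4 : ∀ D : ℕ, N ≤ D → 96 * (Real.log D) ^ 1 ≤ D) (hD : N ≤ D) (hD3 : 3 ≤ D)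
    (hlog : 0 < Real.log D) (hb : (D : ℝ) / (6 * Real.log D) / 2 ≤ b) :
    96 * (D : ℝ) * Real.log b ≤ (b : ℝ) ^ 2 := by
  have hDpos : (0 : ℝ) < D := by
    have : 0 < D := by omega
    exact_mod_cast this
  have hb2 : (D : ℝ) ≤ 12 * Real.log D * b := by
    rw [div_div, div_le_iff₀ (by positivity)] at hb
    linarith
  have hbpos : (0 : ℝ) < b := by
    by_contra hcon
    push Not at hcon
    have h0 : (b : ℝ) = 0 := le_antisymm hcon (by positivity)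
    rw [h0] at hb2
    linarith
  by_cases hbD : b ≤ D
  · have h1 : Real.log b ≤ Real.log D := Real.log_le_log hbpos (by exact_mod_cast hbD)
    have h2 := hN2 D hD
    have h3 : 96 * (D : ℝ) * Real.log b ≤ 96 * D * Real.log D :=
      mul_le_mul_of_nonneg_left h1 (by positivity)
    have h4 : (D : ℝ) ^ 2 ≤ (12 * Real.log D * b) ^ 2 := pow_le_pow_left₀ hDpos.le hb2 2
    -- 144 log^2 * (96 D log) ≤ D * D ≤ 144 log^2 b^2
    have h5 : (144 * Real.log D ^ 2) * (96 * D * Real.log D) ≤ (144 * Real.log D ^ 2) * (b : ℝ) ^ 2 := by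
      calc (144 * Real.log D ^ 2) * (96 * D * Real.log D)
          = (D : ℝ) * (96 * 144 * (Real.log D) ^ 3) := by ring
        _ ≤ (D : ℝ) * D := mul_le_mul_of_nonneg_left h2 hDpos.le
        _ = (D : ℝ) ^ 2 := by ring
        _ ≤ (12 * Real.log D * b) ^ 2 := h4
        _ = (144 * Real.log D ^ 2) * (b : ℝ) ^ 2 := by ring
    have h6 := le_of_mul_le_mul_left h5 (by positivity)
    linarith
  · push Not at hbD
    have h1 := hN4 b (by omega)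
    rw [pow_one] at h1
    have h2 : (D : ℝ) ≤ b := by exact_mod_cast hbD.le
    have h0 : 0 ≤ Real.log b := Real.log_nonneg (by
      have : 1 ≤ b := by omega
      exact_mod_cast this)
    calc 96 * (D : ℝ) * Real.log b = (D : ℝ) * (96 * Real.log b) := by ring
      _ ≤ (b : ℝ) * (96 * Real.log b) := mul_le_mul_of_nonneg_right h2 (by positivity)
      _ ≤ (b : ℝ) * b := mul_le_mul_of_nonneg_left h1 hbpos.le
      _ = (b : ℝ) ^ 2 := by ring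

lemma sum_biUnion_le' {ι V : Type} (I : Finset ι) (t : ι → Finset V) (f : V → ℝ)
    (hf : ∀ v, 0 ≤ f v) : ∑ v ∈ I.biUnion t, f v ≤ ∑ i ∈ I, ∑ v ∈ t i, f v := by
  induction I using Finset.induction_on with
  | empty => simp
  | insert i I hi ih =>
    rw [Finset.biUnion_insert, Finset.sum_insert hi]
    have h1 := Finset.sum_union_inter (s₁ := t i) (s₂ := I.biUnion t) (f := f)
    have h2 : 0 ≤ ∑ v ∈ t i ∩ I.biUnion t, f v := Finset.sum_nonneg fun v _ => hf v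
    linarith

/-- `v` lies in a pocket of size `b` of `S` -/
def Pk {V : Type} (Γ : SimpleGraph V) (S : Finset V) (q b : ℕ) (v : V) : Prop :=
  ∃ B : Finset V, v ∈ B ∧ B ⊆ S ∧ B.card = b ∧ Cn Γ B ∧ (nbr Γ S B).card ^ q < b ^ (q - 1)

/-- sum over a union of bad sets -/
lemma sum_bad {V : Type} {Γ : SimpleGraph V} {S E : Finset V} {q a Q₁ Q₂ D : ℕ}
    (I : Finset ℕ) (hI : I ⊆ Finset.range (a + 1))
    (hE1 : ∀ v ∈ E, (dg Γ S v : ℝ) + 1 ≤ D) (hE2 : E.card ≤ Q₁)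
    (hP1 : ∀ b ∈ I, ∀ v, Pk Γ S q b v → dg Γ S v ≤ 2 * b)
    (hP2 : ∀ b ∈ I, (S.filter (fun v => Pk Γ S q b v)).card ≤ Q₂) :
    ∑ v ∈ E ∪ I.biUnion (fun b => S.filter (fun v => Pk Γ S q b v)), ((dg Γ S v : ℝ) + 1) ≤
      D * Q₁ + (a + 1) * ((2 * a + 1) * Q₂) := by
  have h0 : ∀ v, (0 : ℝ) ≤ (dg Γ S v : ℝ) + 1 := fun v => by positivity
  have h1 : ∑ v ∈ E ∪ I.biUnion (fun b => S.filter (fun v => Pk Γ S q b v)),
      ((dg Γ S v : ℝ) + 1) ≤ ∑ v ∈ E, ((dg Γ S v : ℝ) + 1) +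
        ∑ v ∈ I.biUnion (fun b => S.filter (fun v => Pk Γ S q b v)), ((dg Γ S v : ℝ) + 1) := by
    have := Finset.sum_union_inter (s₁ := E)
      (s₂ := I.biUnion (fun b => S.filter (fun v => Pk Γ S q b v)))
      (f := fun v => ((dg Γ S v : ℝ) + 1))
    have h2 : 0 ≤ ∑ v ∈ E ∩ I.biUnion (fun b => S.filter (fun v => Pk Γ S q b v)),
        ((dg Γ S v : ℝ) + 1) := Finset.sum_nonneg fun v _ => h0 v
    linarith
  have h2 : ∑ v ∈ E, ((dg Γ S v : ℝ) + 1) ≤ D * Q₁ := by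
    have h3 := Finset.sum_le_card_nsmul E (fun v => (dg Γ S v : ℝ) + 1) (D : ℝ) hE1
    rw [nsmul_eq_mul] at h3
    have h4 : (E.card : ℝ) ≤ Q₁ := by exact_mod_cast hE2
    calc _ ≤ (E.card : ℝ) * D := h3
      _ ≤ Q₁ * D := mul_le_mul_of_nonneg_right h4 (by positivity)
      _ = D * Q₁ := by ring
  have h3 : ∑ v ∈ I.biUnion (fun b => S.filter (fun v => Pk Γ S q b v)), ((dg Γ S v : ℝ) + 1) ≤
      ∑ b ∈ I, ∑ v ∈ S.filter (fun v => Pk Γ S q b v), ((dg Γ S v : ℝ) + 1) :=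
    sum_biUnion_le' I _ _ h0
  have h4 : ∀ b ∈ I, ∑ v ∈ S.filter (fun v => Pk Γ S q b v), ((dg Γ S v : ℝ) + 1) ≤
      (2 * a + 1) * Q₂ := by
    intro b hb
    have hba : b ≤ a := by
      have := Finset.mem_range.1 (hI hb)
      omega
    have h5 : ∀ v ∈ S.filter (fun v => Pk Γ S q b v), (dg Γ S v : ℝ) + 1 ≤ 2 * a + 1 := by
      intro v hv
      have h6 := hP1 b hb v (Finset.mem_filter.1 hv).2
      have h7 : dg Γ S v ≤ 2 * a := by omega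
      have h8 : (dg Γ S v : ℝ) ≤ 2 * a := by exact_mod_cast h7
      linarith
    have h6 := Finset.sum_le_card_nsmul _ (fun v => (dg Γ S v : ℝ) + 1) _ h5
    rw [nsmul_eq_mul] at h6
    have h7 : ((S.filter (fun v => Pk Γ S q b v)).card : ℝ) ≤ Q₂ := by exact_mod_cast hP2 b hb
    calc _ ≤ ((S.filter (fun v => Pk Γ S q b v)).card : ℝ) * (2 * a + 1) := h6
      _ ≤ Q₂ * (2 * a + 1) := mul_le_mul_of_nonneg_right h7 (by positivity)
      _ = (2 * a + 1) * Q₂ := by ring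
  have h5 := Finset.sum_le_card_nsmul I _ _ h4
  rw [nsmul_eq_mul] at h5
  have h6 : (I.card : ℝ) ≤ a + 1 := by
    have := Finset.card_le_card hI
    rw [Finset.card_range] at this
    exact_mod_cast this
  have h7 : (I.card : ℝ) * ((2 * a + 1) * Q₂) ≤ (a + 1) * ((2 * a + 1) * Q₂) :=
    mul_le_mul_of_nonneg_right h6 (by positivity)
  linarith

lemma card_sdiff_real {V : Type} {H R' : Finset V} (hR'H : R' ⊆ H) :
    ((H \ R').card : ℝ) = (H.card : ℝ) - R'.card := by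
  have := Finset.card_sdiff_add_card_eq_card hR'H
  have h5 : ((H \ R').card : ℝ) + R'.card = H.card := by exact_mod_cast this
  linarith

lemma setup (hCl : Closure) {V : Type} {Γ : SimpleGraph V} {D : ℕ} {H R : Finset V} {L c₁ : ℕ}
    {lam : ℝ} (hD : (1 : ℝ) ≤ D) (hMin : MinD Γ (tau D) H) (hRH : R ⊆ H)
    (hRc : R.card ≤ L ^ c₁) (hL1 : 1 ≤ L)
    (hlam : lam = 8 * Real.log (4 * (L : ℝ) ^ (c₁ + 20) + 3)) (hlamL : lam ≤ L)
    (hX1 : (4 * L ^ (c₁ + 20) + 3) ^ 2 ≤ H.card + 3) (hX2 : 6 * L ^ (c₁ + 1) ≤ H.card) :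
    ∃ R' : Finset V, R ⊆ R' ∧ R' ⊆ H ∧ R'.card ≤ L ^ (c₁ + 1) ∧ 6 * (R'.card : ℝ) ≤ H.card ∧
      (∀ v ∈ H \ R', 2 * (D : ℝ) / lam ≤ dg Γ (H \ R') v) ∧
      (∀ B : Finset V, B ⊆ H \ R' → B.Nonempty → B.card ≤ L ^ (c₁ + 20) →
        (B.card : ℝ) ≤ lam * (nbr Γ (H \ R') B).card) := by
  have hLR1 : (1 : ℝ) ≤ L := by exact_mod_cast hL1
  obtain ⟨X, hXdef⟩ : ∃ X, X = 4 * L ^ (c₁ + 20) := ⟨_, rfl⟩
  rw [← hXdef] at hX1
  have hXcast : ((X : ℕ) : ℝ) = 4 * (L : ℝ) ^ (c₁ + 20) := by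
    rw [hXdef, Nat.cast_mul, Nat.cast_pow]; norm_num
  have hlamX : 8 * Real.log ((X : ℝ) + 3) = lam := by rw [hXcast, hlam]
  have hLp : 1 ≤ L ^ (c₁ + 20) := Nat.one_le_pow _ _ hL1
  have hX4 : 4 ≤ X := by rw [hXdef]; exact Nat.le_mul_of_pos_right 4 hLp
  have hRcR : (R.card : ℝ) ≤ (L : ℝ) ^ c₁ := by exact_mod_cast hRc
  have hlamR : lam * R.card ≤ (L : ℝ) ^ (c₁ + 1) := by
    calc lam * R.card ≤ (L : ℝ) * (L : ℝ) ^ c₁ :=
          mul_le_mul hlamL hRcR (Nat.cast_nonneg _) (Nat.cast_nonneg _)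
      _ = (L : ℝ) ^ (c₁ + 1) := by rw [pow_succ, mul_comm]
  have hpowle : (L : ℝ) ^ (c₁ + 1) ≤ (L : ℝ) ^ (c₁ + 20) :=
    pow_le_pow_right₀ hLR1 (by omega)
  have h32 : 32 * Real.log ((X : ℝ) + 3) * R.card ≤ X := by
    have e1 : 32 * Real.log ((X : ℝ) + 3) * R.card = 4 * (lam * R.card) := by
      rw [← hlamX]; ring
    rw [e1, hXcast]
    linarith
  obtain ⟨R', hRR', hR'H, hR'c, hExp, hDeg⟩ := hCl V Γ D H hD hMin R X hRH hX4 hX1 h32
  rw [hlamX] at hR'c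
  have hR'L : R'.card ≤ L ^ (c₁ + 1) := by
    have : (R'.card : ℝ) ≤ (L : ℝ) ^ (c₁ + 1) := hR'c.trans hlamR
    exact_mod_cast this
  refine ⟨R', hRR', hR'H, hR'L, ?_, ?_, ?_⟩
  · have : 6 * R'.card ≤ H.card := (Nat.mul_le_mul_left 6 hR'L).trans hX2
    exact_mod_cast this
  · intro v hv
    have h1 := hDeg v hv
    have h2 : 2 * (D : ℝ) / lam = D / (4 * Real.log ((X : ℝ) + 3)) := by
      rw [← hlamX, show (8 : ℝ) * Real.log ((X : ℝ) + 3) = 2 * (4 * Real.log ((X : ℝ) + 3)) by ring,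
        mul_div_mul_left _ _ (by norm_num)]
    rw [h2]
    exact h1
  · intro B hB1 hB2 hB3
    have := hExp B hB1 hB2 (by rw [hXdef]; exact Nat.mul_le_mul_left 4 hB3)
    rwa [hlamX] at this

/-- the case of large `D` -/
lemma case1 {V : Type} {Γ : SimpleGraph V} {D : ℕ} {H R' : Finset V} {q A₀ m : ℕ} {lam L : ℝ}
    (hq : 2 ≤ q) (hD : (1 : ℝ) ≤ D) (hQ : (A₀ : ℝ) ^ (q + 1) ≤ D) (h8 : 8 ≤ lam) (hlamL : lam ≤ L)
    (hR'H : R' ⊆ H) (hR'n : 6 * (R'.card : ℝ) ≤ H.card)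
    (hDeg : ∀ v ∈ H \ R', 2 * (D : ℝ) / lam ≤ dg Γ (H \ R') v)
    (hExp : ∀ B : Finset V, B ⊆ H \ R' → B.Nonempty → B.card ≤ m →
        (B.card : ℝ) ≤ lam * (nbr Γ (H \ R') B).card)
    (hcase : lam ^ (q + 1) ≤ (D : ℝ)) :
    (A₀ : ℝ) ≤ 2 * D / lam ∧ (D : ℝ) ≤ 2 * D / lam * L ∧
      2 * (D : ℝ) / lam * H.card ≤ 3 * ed Γ (H \ R') ∧
      ∀ v ∈ H \ R', 2 * (D : ℝ) / lam ≤ dg Γ (H \ R') v ∧
        ∀ B : Finset V, B ⊆ H \ R' → v ∈ B → Cn Γ B → 2 * (D : ℝ) / lam / 2 ≤ B.card →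
          B.card ≤ m → B.card ^ (q - 1) ≤ (nbr Γ (H \ R') B).card ^ q := by
  have hlampos : 0 < lam := by linarith
  have hc0 : 0 ≤ 2 * (D : ℝ) / lam := by positivity
  have hScard := card_sdiff_real hR'H
  have hnpos : (0 : ℝ) ≤ H.card := Nat.cast_nonneg _
  refine ⟨?_, ?_, ?_, ?_⟩
  · by_contra hcon
    push Not at hcon
    have h1 : (2 * (D : ℝ) / lam) ^ (q + 1) < (A₀ : ℝ) ^ (q + 1) :=
      pow_lt_pow_left₀ hcon hc0 (by omega)
    have h3 : (D : ℝ) ≤ (2 * (D : ℝ) / lam) ^ (q + 1) := by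
      rw [div_pow, le_div_iff₀ (by positivity)]
      calc (D : ℝ) * lam ^ (q + 1) ≤ D * D := mul_le_mul_of_nonneg_left hcase (by positivity)
        _ = (D : ℝ) ^ 2 := by ring
        _ ≤ (D : ℝ) ^ (q + 1) := pow_le_pow_right₀ hD (by omega)
        _ ≤ (2 * (D : ℝ)) ^ (q + 1) := pow_le_pow_left₀ (by positivity) (by linarith) _
    linarith
  · rw [div_mul_eq_mul_div, le_div_iff₀ hlampos]
    have : (D : ℝ) * lam ≤ D * L := mul_le_mul_of_nonneg_left hlamL (by linarith)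
    nlinarith
  · have h1 := ed_lower (Γ := Γ) (S := H \ R') (Bad := ∅) (c₀ := 2 * D / lam) (by simp)
      (fun v hv _ => hDeg v hv)
    rw [hScard, Finset.card_empty, Nat.cast_zero, sub_zero] at h1
    have h2 : 2 * (D : ℝ) / lam * H.card ≤
        2 * D / lam * (3 / 2 * ((H.card : ℝ) - R'.card)) := by
      apply mul_le_mul_of_nonneg_left _ hc0
      linarith
    have h3 : 2 * (D : ℝ) / lam * (3 / 2 * ((H.card : ℝ) - R'.card)) =
      3 / 2 * (2 * (D : ℝ) / lam * ((H.card : ℝ) - R'.card)) := by ring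
    linarith
  · intro v hv
    refine ⟨hDeg v hv, ?_⟩
    intro B hB1 hvB _ hB3 hB4
    have h1 : lam ^ q ≤ 2 * (D : ℝ) / lam / 2 := by
      rw [div_div, le_div_iff₀ (by positivity)]
      calc lam ^ q * (lam * 2) = 2 * lam ^ (q + 1) := by ring
        _ ≤ 2 * D := by linarith
    exact star_le (by omega) (Finset.card_pos.2 ⟨v, hvB⟩) (h1.trans hB3)
      (hExp B hB1 ⟨v, hvB⟩ hB4)

/-- the case of small `D` -/
lemma case2 (hB : BadCount) {V : Type} {Γ : SimpleGraph V} {D : ℕ} {H R' : Finset V}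
    {q m b₀ a Q₁ Q₂ : ℕ} {lam tE c₀ : ℝ} (hq : 2 ≤ q) (hb₀1 : 1 ≤ b₀)
    (hc₀ : 0 ≤ c₀) (hc₀D : c₀ + 1 ≤ D) (h8 : 8 ≤ lam)
    (hR'H : R' ⊆ H) (hR'n : 6 * (R'.card : ℝ) ≤ H.card)
    (hExp : ∀ B : Finset V, B ⊆ H \ R' → B.Nonempty → B.card ≤ m →
        (B.card : ℝ) ≤ lam * (nbr Γ (H \ R') B).card)
    (ha : lam ^ q ≤ (a : ℝ))
    (hb₀ : ∀ b : ℕ, c₀ / 2 ≤ b → b₀ ≤ b)
    (hPk : ∀ b : ℕ, b ≤ a → c₀ / 2 ≤ b →
      ∀ F : Finset (Finset V),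
        (∀ B ∈ F, B ⊆ H \ R' ∧ B.card = b ∧ (nbr Γ (H \ R') B).card ^ q < b ^ (q - 1)) →
        (∀ B ∈ F, ∀ B' ∈ F, B ≠ B' → Disjoint B B') →
        F.card ≤ b ^ 2 * (R'.card + 1) ^ (3 * D * b))
    (hQ₂ : ∀ b ≤ a, b ^ 2 * (R'.card + 1) ^ (3 * D * b) * b * (2 * b + 1) ^ b ≤ Q₂)
    (hE1 : ((H \ R').filter (fun v => tE ≤ dg Γ R' v)).card ≤ Q₁)
    (hE2 : ∀ v ∈ H \ R', (dg Γ R' v : ℝ) < tE → c₀ ≤ dg Γ (H \ R') v)
    (hbig : 6 * ((D : ℝ) * Q₁ + (a + 1) * ((2 * a + 1) * Q₂)) ≤ H.card) :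
    ∃ Bad : Finset V, Bad ⊆ H \ R' ∧ ∑ v ∈ Bad, (dg Γ (H \ R') v : ℝ) ≤ H.card ∧
      c₀ * H.card ≤ 3 * ed Γ (H \ R') ∧
      ∀ v ∈ H \ R', v ∉ Bad → c₀ ≤ dg Γ (H \ R') v ∧
        ∀ B : Finset V, B ⊆ H \ R' → v ∈ B → Cn Γ B → c₀ / 2 ≤ B.card →
          B.card ≤ m → B.card ^ (q - 1) ≤ (nbr Γ (H \ R') B).card ^ q := by
  have hlampos : 0 < lam := by linarith
  have hScard := card_sdiff_real hR'H
  have hnpos : (0 : ℝ) ≤ H.card := Nat.cast_nonneg _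
  obtain ⟨S, hS⟩ : ∃ S, S = H \ R' := ⟨_, rfl⟩
  rw [← hS] at hExp hPk hE1 hE2 hScard ⊢
  obtain ⟨E, hE⟩ : ∃ E, E = S.filter (fun v => (dg Γ S v : ℝ) < c₀) := ⟨_, rfl⟩
  obtain ⟨I, hI⟩ : ∃ I, I = (Finset.range (a + 1)).filter (fun b : ℕ => c₀ / 2 ≤ (b : ℝ)) :=
    ⟨_, rfl⟩
  have hIr : I ⊆ Finset.range (a + 1) := by rw [hI]; exact Finset.filter_subset _ _
  have hEQ : E.card ≤ Q₁ := by
    refine (Finset.card_le_card ?_).trans hE1
    intro v hv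
    rw [hE, Finset.mem_filter] at hv
    rw [Finset.mem_filter]
    refine ⟨hv.1, ?_⟩
    by_contra hcon
    push Not at hcon
    have := hE2 v hv.1 hcon
    linarith [hv.2]
  have hBC : ∀ b ∈ I, (∀ v, Pk Γ S q b v → dg Γ S v ≤ 2 * b) ∧
      (S.filter (fun v => Pk Γ S q b v)).card ≤ Q₂ := by
    intro b hb
    rw [hI, Finset.mem_filter, Finset.mem_range] at hb
    have hba : b ≤ a := by omega
    have h1 := hB V Γ S b q (b ^ 2 * (R'.card + 1) ^ (3 * D * b)) (hb₀1.trans (hb₀ b hb.2))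
      (by omega) (hPk b hba hb.2)
    exact ⟨h1.1, h1.2.trans (hQ₂ b hba)⟩
  have hsum := sum_bad (Γ := Γ) (S := S) (E := E) (q := q) (a := a) (Q₁ := Q₁) (Q₂ := Q₂) (D := D)
    I hIr (fun v hv => by
      rw [hE, Finset.mem_filter] at hv
      linarith [hv.2]) hEQ (fun b hb => (hBC b hb).1) (fun b hb => (hBC b hb).2)
  obtain ⟨Bad, hBad⟩ : ∃ Bad, Bad = E ∪ I.biUnion (fun b => S.filter (fun v => Pk Γ S q b v)) :=
    ⟨_, rfl⟩
  rw [← hBad] at hsum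
  have hBadS : Bad ⊆ S := by
    rw [hBad, hE]
    refine Finset.union_subset (Finset.filter_subset _ _) ?_
    rw [Finset.biUnion_subset]
    intro b _
    exact Finset.filter_subset _ _
  have hsum2 : ∑ v ∈ Bad, (dg Γ S v : ℝ) + Bad.card ≤ H.card / 6 := by
    have h1 : ∑ v ∈ Bad, ((dg Γ S v : ℝ) + 1) = ∑ v ∈ Bad, (dg Γ S v : ℝ) + Bad.card := by
      rw [Finset.sum_add_distrib, Finset.sum_const, nsmul_eq_mul, mul_one]
    rw [← h1]
    linarith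
  have hpos1 : 0 ≤ ∑ v ∈ Bad, (dg Γ S v : ℝ) := Finset.sum_nonneg fun _ _ => Nat.cast_nonneg _
  have hpos2 : (0 : ℝ) ≤ Bad.card := Nat.cast_nonneg _
  have hgood : ∀ v ∈ S, v ∉ Bad → c₀ ≤ dg Γ S v := by
    intro v hv hvB
    by_contra hcon
    push Not at hcon
    apply hvB
    rw [hBad, hE]
    exact Finset.mem_union_left _ (Finset.mem_filter.2 ⟨hv, hcon⟩)
  refine ⟨Bad, hBadS, by linarith, ?_, ?_⟩
  · have h1 := ed_lower (Γ := Γ) hBadS hgood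
    have h2 : c₀ * H.card ≤ c₀ * (3 / 2 * ((S.card : ℝ) - Bad.card)) := by
      apply mul_le_mul_of_nonneg_left _ hc₀
      rw [hScard]
      linarith
    have h3 : c₀ * (3 / 2 * ((S.card : ℝ) - Bad.card)) =
      3 / 2 * (c₀ * ((S.card : ℝ) - Bad.card)) := by ring
    linarith
  · intro v hv hvB
    refine ⟨hgood v hv hvB, ?_⟩
    intro B hB1 hvB1 hCn hB3 hB4
    by_cases hba : B.card ≤ a
    · by_contra hcon
      push Not at hcon
      apply hvB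
      rw [hBad]
      refine Finset.mem_union_right _ (Finset.mem_biUnion.2 ⟨B.card, ?_, ?_⟩)
      · rw [hI, Finset.mem_filter, Finset.mem_range]
        exact ⟨by omega, hB3⟩
      · exact Finset.mem_filter.2 ⟨hv, B, hvB1, hB1, rfl, hCn, hcon⟩
    · push Not at hba
      have h1 : (a : ℝ) ≤ B.card := by exact_mod_cast hba.le
      exact star_le (by omega) (Finset.card_pos.2 ⟨v, hvB1⟩) (ha.trans h1)
        (hExp B hB1 ⟨v, hvB1⟩ hB4)

end GoodLemmaAux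

open GoodLemmaAux in
theorem goodLemma (hM : MinBasics) (hCl : Closure) (hP : Pockets)
    (hEx : Exceptional) (hB : BadCount) (hN : NumBad) : GoodLemma := by
  intro q A₀ c₁ hq
  obtain ⟨b₀, hb₀4, hPk⟩ := hP q hq
  obtain ⟨DE, hDE8, hExc⟩ := hEx
  obtain ⟨L₀, hL₀8, hNum⟩ := hN q c₁ (by omega)
  obtain ⟨-, hMLg⟩ := hM
  obtain ⟨DL, hDL1, hLg⟩ := hMLg L₀
  obtain ⟨N1, hN1⟩ := logpow (12 * b₀) 1
  obtain ⟨N2, hN2⟩ := logpow (96 * 144) 3
  obtain ⟨N3, hN3⟩ := logpow (6 * A₀) 1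
  obtain ⟨N4, hN4⟩ := logpow 96 1
  obtain ⟨Q, hQ⟩ : ∃ Q, Q = A₀ ^ (q + 1) := ⟨_, rfl⟩
  refine ⟨DE + ⌈DL⌉₊ + N1 + N2 + N3 + N4 + Q + 3, by omega, ?_⟩
  intro V Γ D H hD hMin R hRH hRc
  have hD3 : 3 ≤ D := by omega
  have hDR1 : (1 : ℝ) ≤ D := by
    have : 1 ≤ D := by omega
    exact_mod_cast this
  have hDR3 : (3 : ℝ) ≤ D := by exact_mod_cast hD3
  have hDL : DL ≤ D := (Nat.le_ceil DL).trans (by
    have : ⌈DL⌉₊ ≤ D := by omega
    exact_mod_cast this)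
  obtain ⟨hL, -⟩ := hLg V Γ D H hDL hMin
  have hpow : 2 ^ Lg H ≤ 16 * H.card := pow_Lg_le hMin.ne
  obtain ⟨L, hLdef⟩ : ∃ L, L = Lg H := ⟨_, rfl⟩
  rw [← hLdef] at hL hpow hRc
  rw [← hLdef]
  have hL1 : 1 ≤ L := by omega
  obtain ⟨lam, hlam⟩ : ∃ lam : ℝ, lam = 8 * Real.log (4 * (L : ℝ) ^ (c₁ + 20) + 3) := ⟨_, rfl⟩
  obtain ⟨h8, hlamL, hX, hrest⟩ := hNum L hL lam hlam
  have hX2 : (4 * L ^ (c₁ + 20) + 3) ^ 2 + 6 * L ^ (c₁ + 1) + L ≤ H.card := by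
    have h16 := hX.trans hpow
    rw [mul_comm] at h16
    exact Nat.le_of_mul_le_mul_left h16 (by norm_num)
  have hXsq : (4 * L ^ (c₁ + 20) + 3) ^ 2 ≤ H.card + 3 :=
    ((Nat.le_add_right _ _).trans (Nat.le_add_right _ _)).trans (hX2.trans (Nat.le_add_right _ _))
  have h6L : 6 * L ^ (c₁ + 1) ≤ H.card :=
    ((Nat.le_add_left _ _).trans (Nat.le_add_right _ _)).trans hX2
  obtain ⟨R', hRR', hR'H, hR'L, hR'n, hDeg, hExp⟩ :=
    setup hCl hDR1 hMin hRH hRc hL1 hlam hlamL hXsq h6L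
  clear hX hX2 hXsq h6L
  by_cases hcase : lam ^ (q + 1) ≤ (D : ℝ)
  · have hQD : (A₀ : ℝ) ^ (q + 1) ≤ D := by
      have : Q ≤ D := by omega
      rw [hQ] at this
      exact_mod_cast this
    obtain ⟨g1, g2, g3, g4⟩ := case1 (A₀ := A₀) hq hDR1 hQD h8 hlamL hR'H hR'n hDeg hExp hcase
    refine ⟨R', ∅, 2 * D / lam, hRR', hR'H, hR'L, g1, g2, Finset.empty_subset _, ?_, g3,
      fun v hv _ => g4 v hv⟩
    rw [Finset.sum_empty]
    exact Nat.cast_nonneg _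
  · push Not at hcase
    obtain ⟨hlogL, hDsq, hrest2⟩ := hrest D (by omega) hcase
    obtain ⟨a, ha⟩ : ∃ a, a = ⌈lam ^ q⌉₊ := ⟨_, rfl⟩
    have hlampos : 0 < lam := by linarith
    have ha1 : lam ^ q ≤ a := by rw [ha]; exact Nat.le_ceil _
    have ha2 : (a : ℝ) ≤ lam ^ q + 1 := by
      rw [ha]; exact (Nat.ceil_lt_add_one (pow_nonneg hlampos.le q)).le
    obtain ⟨ha8, hbig⟩ := hrest2 a R'.card ha2 hR'L
    obtain ⟨Q₁, hQ₁⟩ : ∃ Q₁, Q₁ = D ^ 2 * (R'.card + 1) ^ (2 * D + 7) := ⟨_, rfl⟩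
    obtain ⟨Q₂, hQ₂⟩ : ∃ Q₂, Q₂ = a ^ 2 * (R'.card + 1) ^ (3 * D * a) * a * (2 * a + 1) ^ a :=
      ⟨_, rfl⟩
    have hbig2 : 6 * (D * Q₁ + (a + 1) * ((2 * a + 1) * Q₂)) ≤ H.card := by
      have e1 : D ^ 3 * (R'.card + 1) ^ (2 * D + 7) = D * Q₁ := by rw [hQ₁]; ring
      rw [e1, ← hQ₂] at hbig
      have h1 := hbig.trans hpow
      have h2 : 16 * (6 * (D * Q₁ + (a + 1) * ((2 * a + 1) * Q₂))) ≤ 16 * H.card := by
        calc _ = 96 * (D * Q₁ + (a + 1) * ((2 * a + 1) * Q₂)) := by ring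
          _ ≤ _ := h1
      exact Nat.le_of_mul_le_mul_left h2 (by norm_num)
    have ha8' : a ^ 8 ≤ H.card := by
      have h1 := ha8.trans hpow
      rw [mul_comm] at h1
      exact Nat.le_of_mul_le_mul_left h1 (by norm_num)
    have hDsq' : (2 * D ^ 2 + 3) ^ 2 ≤ H.card + 3 := by
      have h1 := hDsq.trans hpow
      rw [mul_comm] at h1
      exact (Nat.le_of_mul_le_mul_left h1 (by norm_num)).trans (Nat.le_add_right _ _)
    have hbigR : 6 * ((D : ℝ) * Q₁ + (a + 1) * ((2 * a + 1) * Q₂)) ≤ H.card := by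
      exact_mod_cast hbig2
    clear hDsq hrest2 ha8 hbig hbig2 hrest hNum hpow
    have hlogD : 1 ≤ Real.log D := by
      have h1 : Real.exp 1 ≤ D := by
        have := Real.exp_one_lt_d9
        linarith
      have h2 := Real.log_le_log (Real.exp_pos 1) h1
      rwa [Real.log_exp] at h2
    have hlogpos : 0 < Real.log D := by linarith
    have hDpos : (0 : ℝ) < D := by linarith
    obtain ⟨c₀, hc₀⟩ : ∃ c₀ : ℝ, c₀ = D / (6 * Real.log D) := ⟨_, rfl⟩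
    have hc₀e : c₀ * (6 * Real.log D) = D := by
      rw [hc₀]
      exact div_mul_cancel₀ _ (mul_pos (by norm_num) hlogpos).ne'
    have hc₀pos : 0 ≤ c₀ := by
      rw [hc₀]
      exact div_nonneg hDpos.le (mul_pos (by norm_num) hlogpos).le
    have hc₀D : c₀ + 1 ≤ D := by
      have h1 : c₀ * (6 * 1) ≤ c₀ * (6 * Real.log D) :=
        mul_le_mul_of_nonneg_left (mul_le_mul_of_nonneg_left hlogD (by norm_num)) hc₀pos
      linarith
    have hc₀A : (A₀ : ℝ) ≤ c₀ := by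
      have h1 := hN3 D (by omega)
      rw [pow_one] at h1
      have h2 : (A₀ : ℝ) * (6 * Real.log D) ≤ c₀ * (6 * Real.log D) := by
        rw [hc₀e]
        linarith
      exact le_of_mul_le_mul_right h2 (mul_pos (by norm_num) hlogpos)
    have hc₀L : (D : ℝ) ≤ c₀ * L := by
      calc (D : ℝ) = c₀ * (6 * Real.log D) := hc₀e.symm
        _ ≤ c₀ * L := mul_le_mul_of_nonneg_left hlogL hc₀pos
    have hbb : ∀ b : ℕ, c₀ / 2 ≤ b → b₀ ≤ b := by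
      intro b hb
      have h1 := hN1 D (by omega)
      rw [pow_one] at h1
      have h2 : (b₀ : ℝ) * (12 * Real.log D) ≤ (c₀ / 2) * (12 * Real.log D) := by
        have h4 : (c₀ / 2) * (12 * Real.log D) = c₀ * (6 * Real.log D) := by ring
        rw [h4, hc₀e]
        linarith
      have h3 : (b₀ : ℝ) ≤ c₀ / 2 :=
        le_of_mul_le_mul_right h2 (mul_pos (by norm_num) hlogpos)
      exact_mod_cast h3.trans hb
    have hExc' := hExc V Γ D H (by omega) hMin R' hR'H hDsq'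
    obtain ⟨Bad, k1, k2, k3, k4⟩ := case2 (Γ := Γ) (D := D) (a := a) (Q₁ := Q₁) (Q₂ := Q₂)
      (b₀ := b₀) (c₀ := c₀) hB hq (by omega) hc₀pos hc₀D h8 hR'H hR'n hExp ha1 hbb
      (fun b hba hb F hF1 hF2 => hPk V Γ D H (by omega) hMin R' b hR'H (hbb b hb)
        (sq_cond (N := N2 + N4) (fun D hD => hN2 D (by omega)) (fun D hD => hN4 D (by omega))
          (by omega) hD3 hlogpos (by rw [← hc₀]; exact hb))
        ((Nat.pow_le_pow_left hba 8).trans ha8') F hF1 hF2)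
      (fun b hba => by
        rw [hQ₂]
        gcongr <;> omega)
      (by rw [hQ₁]; exact hExc'.1) (fun v hv h => by rw [hc₀]; exact hExc'.2 v hv h) hbigR
    exact ⟨R', Bad, c₀, hRR', hR'H, hR'L, hc₀A, hc₀L, k1, k2, k3, k4⟩

end Pool.Agent.Lib.MP_b6048d_co.F
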