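import Pool.Agent.Lib.MP_b6048d_co.F.SpecC

set_option autoImplicit false

/-!
C08: a greedy choice of separated indices.
-/

open scoped Classical

namespace Pool.Agent.Lib.MP_b6048d_co.F

theorem greedy : Greedy := by
  intro I lam
  induction I using Finset.strongInduction with
  | H I ih =>
    intro h3
    rcases I.eq_empty_or_nonempty with rfl | hne
    · exact ⟨∅, Finset.Subset.refl _, by simp, by simp⟩
    obtain ⟨a, ha, hmax⟩ := Finset.exists_max_image I lam hne
    set I' := I.filter (fun b => a + (2 * lam a + 2) < b ∨ b + (2 * lam a + 2) < a) with hI'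
    have hsub : I' ⊆ I := Finset.filter_subset _ _
    have haI' : a ∉ I' := by
      rw [hI', Finset.mem_filter]
      rintro ⟨-, h | h⟩ <;> omega
    have hss : I' ⊂ I := by
      rw [Finset.ssubset_iff_of_subset hsub]
      exact ⟨a, ha, haI'⟩
    obtain ⟨J, hJ, hsep, hcard⟩ := ih I' hss (fun b hb => h3 b (hsub hb))
    have haJ : a ∉ J := fun h => haI' (hJ h)
    refine ⟨insert a J, ?_, ?_, ?_⟩
    · intro b hb
      rw [Finset.mem_insert] at hb
      rcases hb with rfl | hb
      · exact ha
      · exact hsub (hJ hb)
    · intro b hb c hc hbc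
      rw [Finset.mem_insert] at hb hc
      rcases hb with rfl | hb <;> rcases hc with rfl | hc
      · omega
      · have h1 := hJ hc
        rw [hI', Finset.mem_filter] at h1
        have h2 := hmax c h1.1
        rcases h1.2 with h | h <;> omega
      · have h1 := hJ hb
        rw [hI', Finset.mem_filter] at h1
        have h2 := hmax b h1.1
        rcases h1.2 with h | h <;> omega
      · exact hsep b hb c hc hbc
    · rw [Finset.sum_insert haJ]
      have h1 : I.card = I'.card + (I \ I').card := by
        have := Finset.card_sdiff_add_card_eq_card hsub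
        omega
      have h2 : I \ I' ⊆ Finset.Icc (a - (2 * lam a + 2)) (a + (2 * lam a + 2)) := by
        intro b hb
        rw [Finset.mem_sdiff, hI', Finset.mem_filter] at hb
        rw [Finset.mem_Icc]
        have h4 : ¬ (a + (2 * lam a + 2) < b ∨ b + (2 * lam a + 2) < a) := fun h => hb.2 ⟨hb.1, h⟩
        omega
      have h4 := Finset.card_le_card h2
      rw [Nat.card_Icc] at h4
      have h5 := h3 a ha
      omega

end Pool.Agent.Lib.MP_b6048d_co.F
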