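import Pool.Agent.Lib.MP_b6048d_co.F.SpecA

set_option autoImplicit false

/-!
A05 HalfBall: growth of a set in `H \ W` up to half the size of `H`.
-/

open scoped Classical

namespace Pool.Agent.Lib.MP_b6048d_co.F.HalfBallAux

variable {V : Type*} {Γ : SimpleGraph V} {H W A B : Finset V}

lemma nbr_subset_union (B : Finset V) :
    nbr Γ H B ⊆ nbr Γ (H \ W) B ∪ (W ∩ H).filter (fun w => ∃ x ∈ B, Γ.Adj x w) := by
  intro w hw
  obtain ⟨h1, h2, h3⟩ := mem_nbr.1 hw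
  by_cases hW : w ∈ W
  · apply Finset.mem_union_right
    rw [Finset.mem_filter, Finset.mem_inter]
    exact ⟨⟨hW, h1⟩, h3⟩
  · apply Finset.mem_union_left
    exact mem_nbr.2 ⟨Finset.mem_sdiff.2 ⟨h1, hW⟩, h2, h3⟩

lemma card_nbr_le (B : Finset V) :
    (nbr Γ H B).card ≤ (nbr Γ (H \ W) B).card +
      ((W ∩ H).filter (fun w => ∃ x ∈ B, Γ.Adj x w)).card :=
  (Finset.card_le_card (nbr_subset_union B)).trans (Finset.card_union_le _ _)

end Pool.Agent.Lib.MP_b6048d_co.F.HalfBallAux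

namespace Pool.Agent.Lib.MP_b6048d_co.F

open HalfBallAux

theorem halfBall (hE : Exp) : HalfBall := by
  intro V Γ D H hD hH W A M hA hAne hM hW
  by_contra hcon
  push Not at hcon
  have hL4 := four_le_Lg H
  have hLpos : (0 : ℝ) < (Lg H : ℝ) := by
    have : 0 < Lg H := by omega
    exact_mod_cast this
  have hL2 : (0 : ℝ) < (Lg H : ℝ) ^ 2 := by positivity
  -- the balls
  have hbH : ∀ i, bl Γ (H \ W) A i ⊆ H := fun i => bl_subset.trans Finset.sdiff_subset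
  have hA0 : A ⊆ bl Γ (H \ W) A 0 := fun x hx => mem_bl_zero.2 ⟨hx, hA hx⟩
  have hApos : 0 < A.card := Finset.card_pos.2 hAne
  have hhalf : ∀ i, i ≤ 14 * Lg H ^ 3 → 2 * (bl Γ (H \ W) A i).card ≤ H.card := by
    intro i hi
    have := Finset.card_le_card (bl_mono (Γ := Γ) (S := H \ W) (A := A) hi)
    omega
  -- one step
  have hstep : ∀ i, i < 14 * Lg H ^ 3 →
      (40 * Lg H ^ 2 + 3) * (bl Γ (H \ W) A i).card ≤
        40 * Lg H ^ 2 * (bl Γ (H \ W) A (i + 1)).card := by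
    intro i hi
    have h1 := hE V Γ D H hD hH (bl Γ (H \ W) A i) (hbH i) (hhalf i hi.le)
    have h2 := card_nbr_le (Γ := Γ) (H := H) (W := W) (bl Γ (H \ W) A i)
    have h3 := hW i hi
    have h4 := card_bl_succ (Γ := Γ) (S := H \ W) (A := A) (i := i)
    have h5 : A.card ≤ (bl Γ (H \ W) A i).card :=
      Finset.card_le_card (hA0.trans (bl_mono (Nat.zero_le i)))
    rw [h4]
    set b := (bl Γ (H \ W) A i).card
    set N := (nbr Γ (H \ W) (bl Γ (H \ W) A i)).card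
    set N' := (nbr Γ H (bl Γ (H \ W) A i)).card
    have h6 : N' ≤ N + M := h2.trans (Nat.add_le_add_left h3 _)
    have h7 : 4 * b ≤ 40 * Lg H ^ 2 * (N + M) := by
      have : 10 * Lg H ^ 2 * N' ≤ 10 * Lg H ^ 2 * (N + M) := Nat.mul_le_mul_left _ h6
      nlinarith
    nlinarith
  -- iterate
  have hiter : ∀ i, i ≤ 14 * Lg H ^ 3 →
      (1 + 3 / (40 * (Lg H : ℝ) ^ 2)) ^ i ≤ ((bl Γ (H \ W) A i).card : ℝ) := by
    intro i
    induction i with
    | zero =>
      intro _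
      have : 1 ≤ (bl Γ (H \ W) A 0).card := hApos.trans_le (Finset.card_le_card hA0)
      simpa using (by exact_mod_cast this : (1 : ℝ) ≤ ((bl Γ (H \ W) A 0).card : ℝ))
    | succ i ih =>
      intro hi
      have h1 := ih (by omega)
      have h2 := hstep i (by omega)
      have h3 : ((40 * (Lg H : ℝ) ^ 2 + 3) * ((bl Γ (H \ W) A i).card : ℝ)) ≤
          40 * (Lg H : ℝ) ^ 2 * ((bl Γ (H \ W) A (i + 1)).card : ℝ) := by exact_mod_cast h2
      have h4 : (1 + 3 / (40 * (Lg H : ℝ) ^ 2)) * ((bl Γ (H \ W) A i).card : ℝ) ≤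
          ((bl Γ (H \ W) A (i + 1)).card : ℝ) := by
        have e1 : (1 + 3 / (40 * (Lg H : ℝ) ^ 2)) * ((bl Γ (H \ W) A i).card : ℝ) =
            ((40 * (Lg H : ℝ) ^ 2 + 3) * ((bl Γ (H \ W) A i).card : ℝ)) /
              (40 * (Lg H : ℝ) ^ 2) := by
          field_simp
        rw [e1, div_le_iff₀ (by positivity)]
        linarith
      rw [pow_succ, mul_comm]
      refine le_trans ?_ h4
      exact mul_le_mul_of_nonneg_left h1 (by positivity)
  have hfin := hiter (14 * Lg H ^ 3) le_rfl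
  have hbern : (2 : ℝ) ≤ (1 + 3 / (40 * (Lg H : ℝ) ^ 2)) ^ (14 * Lg H ^ 2) := by
    have h1 := one_add_mul_le_pow (a := 3 / (40 * (Lg H : ℝ) ^ 2))
      (by have : (0 : ℝ) ≤ 3 / (40 * (Lg H : ℝ) ^ 2) := by positivity
          linarith) (14 * Lg H ^ 2)
    refine le_trans ?_ h1
    push_cast
    have e1 : (14 * (Lg H : ℝ) ^ 2) * (3 / (40 * (Lg H : ℝ) ^ 2)) = 42 / 40 := by
      field_simp
      norm_num
    rw [e1]
    norm_num
  have hbig : (2 : ℝ) ^ Lg H ≤ (1 + 3 / (40 * (Lg H : ℝ) ^ 2)) ^ (14 * Lg H ^ 3) := by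
    have e1 : 14 * Lg H ^ 3 = (14 * Lg H ^ 2) * Lg H := by ring
    rw [e1, pow_mul]
    exact pow_le_pow_left₀ (by norm_num) hbern _
  have h1 : (2 : ℝ) ^ Lg H ≤ ((bl Γ (H \ W) A (14 * Lg H ^ 3)).card : ℝ) := hbig.trans hfin
  have h2 : 2 ^ Lg H ≤ (bl Γ (H \ W) A (14 * Lg H ^ 3)).card := by exact_mod_cast h1
  have h3 := card_le_pow_Lg H
  have h4 := Finset.card_le_card (hbH (14 * Lg H ^ 3))
  omega

end Pool.Agent.Lib.MP_b6048d_co.F
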