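import Pool.Agent.Lib.MP_b6048d_co.F.SpecA

set_option autoImplicit false

/-!
# A19 HatPrefix

Connected sets of prescribed size.
-/

open scoped Classical

namespace Pool.Agent.Lib.MP_b6048d_co.F.HatPrefixAux

open Pool.Agent.Lib.MP_b6048d_co.F

variable {V : Type} {Γ : SimpleGraph V} {A B : Finset V} {i m : ℕ}

/-- One step: a vertex of maximal distance from `A` can be removed. -/
lemma remove_one (h : Hat Γ A i B) (hc : A.card < B.card) :
    ∃ y ∈ B, Hat Γ A i (B \ {y}) := by
  have hex : ∃ j, B ⊆ bl Γ B A j := by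
    refine ⟨i, ?_⟩
    intro y hy
    obtain ⟨a, ha, l, hl, hlen⟩ := h.con y hy
    exact mem_bl.2 ⟨a, ha, l, hl, hlen⟩
  have hji : Nat.find hex ≤ i := by
    apply Nat.find_le
    intro y hy
    obtain ⟨a, ha, l, hl, hlen⟩ := h.con y hy
    exact mem_bl.2 ⟨a, ha, l, hl, hlen⟩
  have hspec := Nat.find_spec hex
  have hmin : ∀ j < Nat.find hex, ¬ B ⊆ bl Γ B A j := fun j hj => Nat.find_min hex hj
  obtain ⟨j, hj⟩ : ∃ j, j = Nat.find hex := ⟨_, rfl⟩
  rw [← hj] at hji hspec hmin
  cases j with
  | zero =>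
    exfalso
    have h1 : B ⊆ A := fun y hy => (mem_bl_zero.1 (hspec hy)).1
    have := Finset.card_le_card h1
    omega
  | succ j =>
    obtain ⟨y, hyB, hy⟩ := Finset.not_subset.1 (hmin j (Nat.lt_succ_self j))
    refine ⟨y, hyB, ?_, ?_⟩
    · intro a ha
      rw [Finset.mem_sdiff, Finset.mem_singleton]
      refine ⟨h.sub ha, ?_⟩
      rintro rfl
      exact hy (bl_mono (Nat.zero_le j) (mem_bl_zero.2 ⟨ha, h.sub ha⟩))
    · intro z hz
      rw [Finset.mem_sdiff, Finset.mem_singleton] at hz
      obtain ⟨a, ha, l, hl, hlen⟩ := mem_bl.1 (hspec hz.1)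
      refine ⟨a, ha, l, hl.restrict ?_, by omega⟩
      intro x hx
      have hxB := hl.mem x hx
      rw [Finset.mem_coe, Finset.mem_sdiff, Finset.mem_singleton]
      refine ⟨by exact_mod_cast hxB, ?_⟩
      rintro rfl
      obtain ⟨s, t, hst, h1, -⟩ := hl.split hx
      apply hy
      refine mem_bl.2 ⟨a, ha, _, h1, ?_⟩
      have ht : t ≠ [] := by
        rintro rfl
        apply hz.2
        have := hl.last
        rw [hst] at this
        simpa using this.symm
      have ht' : 1 ≤ t.length := List.length_pos_iff.2 ht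
      rw [hst] at hlen
      simp only [List.length_append, List.length_cons, List.length_nil] at hlen ⊢
      omega

lemma hat_aux (n : ℕ) : ∀ B : Finset V, B.card = m + n → Hat Γ A i B → A.card ≤ m →
    ∃ B' : Finset V, B' ⊆ B ∧ B'.card = m ∧ Hat Γ A i B' := by
  induction n with
  | zero =>
    intro B hB hH _
    exact ⟨B, Finset.Subset.refl _, by omega, hH⟩
  | succ n ih =>
    intro B hB hH hA
    obtain ⟨y, hy, hH'⟩ := remove_one hH (by omega)
    have hcard : (B \ {y}).card = m + n := by
      have := Finset.card_sdiff_add_card_eq_card (Finset.singleton_subset_iff.2 hy)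
      rw [Finset.card_singleton] at this
      omega
    obtain ⟨B', h1, h2, h3⟩ := ih (B \ {y}) hcard hH' hA
    exact ⟨B', h1.trans Finset.sdiff_subset, h2, h3⟩

end Pool.Agent.Lib.MP_b6048d_co.F.HatPrefixAux

namespace Pool.Agent.Lib.MP_b6048d_co.F

open HatPrefixAux

theorem hatPrefix : HatPrefix := by
  intro V Γ A B i m hH hA hB
  exact hat_aux (B.card - m) B (by omega) hH hA

end Pool.Agent.Lib.MP_b6048d_co.F
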