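import Pool.Agent.Lib.MP_b6048d_co.F.SpecA

set_option autoImplicit false

/-!
# A28: the initial state.
-/

open scoped Classical

namespace Pool.Agent.Lib.MP_b6048d_co.F

namespace InitStateAux

variable {V : Type} {Γ : SimpleGraph V}

/-- Two more vertices do not destroy thinness. -/
lemma thin_union {κ : ℕ} {H W : Finset V} {u : V} (h : Thin Γ κ H W u) (a b : V) :
    Thin Γ (κ + 2) H (W ∪ {a, b}) u := by
  intro i
  have h1 : (((W ∪ {a, b}) ∩ H).filter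
      (fun w => ∃ x ∈ bl Γ (H \ (W ∪ {a, b})) {u} i, Γ.Adj x w)) ⊆
      ((W ∩ H).filter (fun w => ∃ x ∈ bl Γ (H \ W) {u} i, Γ.Adj x w)) ∪ {a, b} := by
    intro w hw
    rw [Finset.mem_filter, Finset.mem_inter, Finset.mem_union] at hw
    obtain ⟨⟨hw1 | hw1, hw2⟩, y, hy, hyw⟩ := hw
    · refine Finset.mem_union_left _ (Finset.mem_filter.2 ⟨Finset.mem_inter.2 ⟨hw1, hw2⟩, y,
        bl_mono_set (Finset.sdiff_subset_sdiff (Finset.Subset.refl _) Finset.subset_union_left)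
          (Finset.Subset.refl _) hy, hyw⟩)
    · exact Finset.mem_union_right _ hw1
  have h2 := (Finset.card_le_card h1).trans (Finset.card_union_le _ _)
  have h3 := h i
  have h4 : ({a, b} : Finset V).card ≤ 2 := Finset.card_le_two
  have h5 : 1 ≤ (i + 1) ^ 3 := Nat.one_le_pow _ _ (by omega)
  have h6 : (κ + 2) * (i + 1) ^ 3 = κ * (i + 1) ^ 3 + 2 * (i + 1) ^ 3 := by ring
  omega

/-- A connected set of prescribed size around a thin vertex, avoiding two given vertices. -/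
lemma port_set (hHP : HatPrefix) {κ L Y : ℕ} {H W : Finset V} {u v c : V}
    (hball : ∀ W' : Finset V, u ∉ W' → Thin Γ (κ + 2) H W' u →
      Y ≤ (bl Γ (H \ W') {u} L).card)
    (hY : 1 ≤ Y) (huH : u ∈ H) (huW : u ∉ W) (hth : Thin Γ κ H W u) (huv : u ≠ v) (huc : u ≠ c) :
    ∃ E : Finset V, E ⊆ H \ W ∧ E.card = Y ∧ ConS Γ u L E ∧ v ∉ E ∧ c ∉ E := by
  have hu' : u ∉ W ∪ {v, c} := by
    rw [Finset.mem_union, Finset.mem_insert, Finset.mem_singleton]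
    tauto
  have h1 := hball (W ∪ {v, c}) hu' (thin_union hth v c)
  have huS : u ∈ H \ (W ∪ {v, c}) := Finset.mem_sdiff.2 ⟨huH, hu'⟩
  obtain ⟨E, hE1, hE2, hE3⟩ := hHP V Γ {u} (bl Γ (H \ (W ∪ {v, c})) {u} L) L Y
    (hat_single.2 (conS_bl huS)) (by simpa using hY) h1
  have hsub : E ⊆ H \ (W ∪ {v, c}) := hE1.trans bl_subset
  refine ⟨E, ?_, hE2, hat_single.1 hE3, ?_, ?_⟩
  · exact hsub.trans (Finset.sdiff_subset_sdiff (Finset.Subset.refl _) Finset.subset_union_left)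
  · intro hv
    exact (Finset.mem_sdiff.1 (hsub hv)).2 (by simp)
  · intro hv
    exact (Finset.mem_sdiff.1 (hsub hv)).2 (by simp)

/-- A single set `E` of polylogarithmic size which contains port sets for all `c`. -/
lemma port_union (hHP : HatPrefix) {κ L Y : ℕ} {H W : Finset V} {u v : V}
    (hball : ∀ W' : Finset V, u ∉ W' → Thin Γ (κ + 2) H W' u →
      Y ≤ (bl Γ (H \ W') {u} L).card)
    (hY : 1 ≤ Y) (huH : u ∈ H) (huW : u ∉ W) (hth : Thin Γ κ H W u) (huv : u ≠ v) :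
    ∃ E : Finset V, E.card ≤ Y + Y * Y ∧ u ∈ E ∧ E ⊆ H \ W ∧ ∀ c, c ≠ u →
      ∃ B : Finset V, B ⊆ E ∧ B.card = Y ∧ ConS Γ u L B ∧ v ∉ B ∧ c ∉ B := by
  obtain ⟨E₀, h0a, h0b, h0c, h0d, -⟩ := port_set hHP hball hY huH huW hth huv huv
  have hex : ∀ c : V, ∃ E : Finset V, c ≠ u →
      E ⊆ H \ W ∧ E.card = Y ∧ ConS Γ u L E ∧ v ∉ E ∧ c ∉ E := by
    intro c
    by_cases hc : c = u
    · exact ⟨∅, fun h => absurd hc h⟩
    · obtain ⟨E, hE⟩ := port_set hHP hball hY huH huW hth huv (Ne.symm hc)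
      exact ⟨E, fun _ => hE⟩
  choose Ef hEf using hex
  refine ⟨E₀ ∪ (E₀.erase u).biUnion Ef, ?_, ?_, ?_, ?_⟩
  · refine (Finset.card_union_le _ _).trans ?_
    rw [h0b]
    apply Nat.add_le_add_left
    refine Finset.card_biUnion_le.trans ?_
    calc ∑ c ∈ E₀.erase u, (Ef c).card ≤ ∑ _c ∈ E₀.erase u, Y := by
          refine Finset.sum_le_sum fun c hc => ?_
          exact (hEf c (Finset.mem_erase.1 hc).1).2.1.le
      _ = (E₀.erase u).card * Y := by rw [Finset.sum_const, smul_eq_mul]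
      _ ≤ Y * Y := by
          apply Nat.mul_le_mul_right
          rw [← h0b]
          exact Finset.card_le_card (Finset.erase_subset _ _)
  · exact Finset.mem_union_left _ h0c.mem
  · intro y hy
    rcases Finset.mem_union.1 hy with h | h
    · exact h0a h
    · obtain ⟨c, hc, hyc⟩ := Finset.mem_biUnion.1 h
      exact (hEf c (Finset.mem_erase.1 hc).1).1 hyc
  · intro c hc
    by_cases hcE : c ∈ E₀
    · obtain ⟨h1, h2, h3, h4, h5⟩ := hEf c hc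
      refine ⟨Ef c, ?_, h2, h3, h4, h5⟩
      intro y hy
      exact Finset.mem_union_right _ (Finset.mem_biUnion.2
        ⟨c, Finset.mem_erase.2 ⟨hc, hcE⟩, hy⟩)
    · exact ⟨E₀, Finset.subset_union_left, h0b, h0c, h0d, hcE⟩

/-- Vertices of a walk are in a ball around its start. -/
lemma walk_loc {S : Finset V} {u v : V} {l : List V} (h : Wk Γ (S : Set V) u v l) {N : ℕ}
    (hl : l.length ≤ N) : ∀ y ∈ l, y ∈ bl Γ S {u} N := by
  intro y hy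
  obtain ⟨k, hk, rfl⟩ := List.getElem_of_mem hy
  exact bl_mono (by omega) (h.prefix_bl k hk)

/-- The state made from the two paths. -/
lemma mk_state (hHP : HatPrefix) {L c₁ : ℕ} {H W : Finset V} {x x' z z' b b' : V}
    {B B' : Finset V} {l l' : List V} (hL : L = Lg H) (hLbig : 2 ≤ L)
    (hBs : B ⊆ H \ W) (hB's : B' ⊆ H \ W) (hBB : Disjoint B B')
    (hBc : L ^ (c₁ + 8) ≤ B.card) (hB'c : L ^ (c₁ + 8) ≤ B'.card)
    (hB : ConS Γ b L B) (hB' : ConS Γ b' L B')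
    (hz : z ∈ B) (hz' : z' ∈ B')
    (hl : Pth Γ ((H \ W : Finset V) : Set V) x z l)
    (hl' : Pth Γ ((H \ W : Finset V) : Set V) x' z' l')
    (hdis : List.Disjoint l l')
    (hm : ∀ y ∈ l, y ∈ B ∨ y ∈ B' → y = z) (hm' : ∀ y ∈ l', y ∈ B ∨ y ∈ B' → y = z')
    (hlen : l.length ≤ L ^ 9) (hlen' : l'.length ≤ L ^ 9)
    (hloc : z' ∈ bl Γ (H \ W) {x} (L ^ 4)) :
    ∃ (P P' A A' : Finset V) (z z' : V) (c : ℕ), St Γ H W x x' c₁ 0 P P' A A' z z' c ∧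
      P.card ≤ Lg H ^ 9 ∧ P'.card ≤ Lg H ^ 9 ∧ c ≤ Lg H ^ 9 := by
  have hL1 : 1 ≤ L := by omega
  obtain ⟨A, hA1, hA2, hA3⟩ := hHP V Γ {z} B (2 * L) (L ^ (c₁ + 8))
    (hat_single.2 (hB.recenter hz)) (by simpa using Nat.one_le_pow _ _ hL1) hBc
  obtain ⟨A', hA'1, hA'2, hA'3⟩ := hHP V Γ {z'} B' (2 * L) (L ^ (c₁ + 4))
    (hat_single.2 (hB'.recenter hz')) (by simpa using Nat.one_le_pow _ _ hL1)
    ((Nat.pow_le_pow_right hL1 (by omega)).trans hB'c)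
  rw [hat_single] at hA3 hA'3
  have hzz : z ∉ B' := fun h => Finset.disjoint_left.1 hBB hz h
  have hzz' : z' ∉ B := fun h => Finset.disjoint_left.1 hBB h hz'
  have hpow : L ^ 9 ≤ L ^ 11 := Nat.pow_le_pow_right hL1 (by omega)
  have hpow' : L ^ 4 + L ^ 9 ≤ L ^ 11 := by
    have h1 : L ^ 4 ≤ L ^ 9 := Nat.pow_le_pow_right hL1 (by omega)
    have h2 : L ^ 11 = L ^ 2 * L ^ 9 := by ring
    have h3 : 4 ≤ L ^ 2 := by nlinarith
    have h4 : 4 * L ^ 9 ≤ L ^ 2 * L ^ 9 := Nat.mul_le_mul_right _ h3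
    omega
  subst hL
  refine ⟨l.toFinset, l'.toFinset, A, A', z, z', l.length - 1, ?_, ?_, ?_, ?_⟩
  · refine ⟨?_, ?_, hA1.trans hBs, hA'1.trans hB's, ?_, hA3.mem, ?_, hA'3.mem, ?_, ?_, ?_, ?_, ?_,
      ?_, hA2, hA'2, hA3, hA'3, ?_, ?_, ?_, ?_⟩
    · intro y hy
      exact_mod_cast hl.mem y (List.mem_toFinset.1 hy)
    · intro y hy
      exact_mod_cast hl'.mem y (List.mem_toFinset.1 hy)
    · exact List.mem_toFinset.2 hl.right_mem
    · exact List.mem_toFinset.2 hl'.right_mem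
    · intro y hy hyA
      exact hm y (List.mem_toFinset.1 hy) (Or.inl (hA1 hyA))
    · intro y hy hyA
      exact hm' y (List.mem_toFinset.1 hy) (Or.inr (hA'1 hyA))
    · rw [Finset.disjoint_left]
      intro y hy hy'
      exact hdis (List.mem_toFinset.1 hy) (List.mem_toFinset.1 hy')
    · rw [Finset.disjoint_left]
      intro y hy hy'
      have := hm y (List.mem_toFinset.1 hy) (Or.inr (hA'1 hy'))
      exact hzz (this ▸ hA'1 hy')
    · rw [Finset.disjoint_left]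
      intro y hy hy'
      have := hm' y (List.mem_toFinset.1 hy') (Or.inl (hA1 hy))
      exact hzz' (this ▸ hA1 hy)
    · rw [Finset.disjoint_left]
      intro y hy hy'
      exact Finset.disjoint_left.1 hBB (hA1 hy) (hA'1 hy')
    · intro j hj
      refine ⟨l, hl.restrict fun y hy => by simpa using hy, ?_⟩
      have := hl.length_pos
      omega
    · exact ⟨l', hl'.restrict fun y hy => by simpa using hy⟩
    · intro y hy
      exact bl_mono hpow (walk_loc hl.toWk hlen y (List.mem_toFinset.1 hy))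
    · intro y hy
      have h1 := walk_loc hl'.reverse.toWk (N := Lg H ^ 9) (by simpa using hlen') y
        (by simpa using hy)
      exact bl_mono hpow' (bl_trans hloc h1)
  · exact (List.toFinset_card_le _).trans hlen
  · exact (List.toFinset_card_le _).trans hlen'
  · omega

lemma nums {L c₁ : ℕ} (hL : 1000 ≤ L) (hc : 16 ≤ c₁) :
    L ^ 15 + (L ^ (c₁ + 20) + L ^ (c₁ + 20) * L ^ (c₁ + 20)) +
      (L ^ (c₁ + 20) + L ^ (c₁ + 20) * L ^ (c₁ + 20)) ≤ L ^ (2 * c₁ + 42) ∧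
    L ^ (2 * c₁ + 42) + L ^ (c₁ + 16) ≤ L ^ (2 * c₁ + 43) ∧
    40 * L ^ 2 * (L ^ 15 + L ^ (c₁ + 12) + 2) ≤ L ^ (c₁ + 16) ∧
    40 * L ^ 2 * (L ^ 15 + L ^ (c₁ + 8) + 2) ≤ L ^ (c₁ + 12) ∧
    40 * L ^ 2 * (L ^ 15 + L ^ (c₁ + 8) + L ^ (c₁ + 12) + 2) ≤ L ^ (c₁ + 20) ∧
    (28 * L ^ 3 + 2 * L + 4) ^ 2 ≤ L ^ 9 := by
  have hL1 : 1 ≤ L := by omega
  have hL2 : 1000 ≤ L ^ 2 := by nlinarith
  have hmon : ∀ a b : ℕ, a ≤ b → L ^ a ≤ L ^ b := fun a b h => Nat.pow_le_pow_right hL1 h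
  have h2 : ∀ a : ℕ, 1 ≤ a → 2 ≤ L ^ a := by
    intro a ha
    calc 2 ≤ L := by omega
      _ = L ^ 1 := (pow_one L).symm
      _ ≤ L ^ a := hmon 1 a ha
  have hstep : ∀ a : ℕ, 1000 * L ^ a ≤ L ^ (a + 2) := by
    intro a
    calc 1000 * L ^ a ≤ L ^ 2 * L ^ a := Nat.mul_le_mul_right _ hL2
      _ = L ^ (a + 2) := by ring
  refine ⟨?_, ?_, ?_, ?_, ?_, ?_⟩
  · have e1 : L ^ (c₁ + 20) * L ^ (c₁ + 20) = L ^ (2 * c₁ + 40) := by ring
    rw [e1]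
    have h3 := hmon 15 (2 * c₁ + 40) (by omega)
    have h4 := hmon (c₁ + 20) (2 * c₁ + 40) (by omega)
    have h5 := hstep (2 * c₁ + 40)
    have e2 : 2 * c₁ + 40 + 2 = 2 * c₁ + 42 := by ring
    rw [e2] at h5
    omega
  · have h3 := hmon (c₁ + 16) (2 * c₁ + 42) (by omega)
    have h4 : 2 * L ^ (2 * c₁ + 42) ≤ L ^ (2 * c₁ + 43) := by
      calc 2 * L ^ (2 * c₁ + 42) ≤ L * L ^ (2 * c₁ + 42) := Nat.mul_le_mul_right _ (by omega)
        _ = L ^ (2 * c₁ + 43) := by ring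
    omega
  · have h3 := hmon 15 (c₁ + 12) (by omega)
    have h4 := h2 (c₁ + 12) (by omega)
    calc 40 * L ^ 2 * (L ^ 15 + L ^ (c₁ + 12) + 2) ≤ 40 * L ^ 2 * (3 * L ^ (c₁ + 12)) :=
          Nat.mul_le_mul_left _ (by omega)
      _ = 120 * L ^ (c₁ + 14) := by ring
      _ ≤ 1000 * L ^ (c₁ + 14) := Nat.mul_le_mul_right _ (by norm_num)
      _ ≤ L ^ (c₁ + 14 + 2) := hstep _
  · have h3 := hmon 15 (c₁ + 8) (by omega)
    have h4 := h2 (c₁ + 8) (by omega)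
    calc 40 * L ^ 2 * (L ^ 15 + L ^ (c₁ + 8) + 2) ≤ 40 * L ^ 2 * (3 * L ^ (c₁ + 8)) :=
          Nat.mul_le_mul_left _ (by omega)
      _ = 120 * L ^ (c₁ + 10) := by ring
      _ ≤ 1000 * L ^ (c₁ + 10) := Nat.mul_le_mul_right _ (by norm_num)
      _ ≤ L ^ (c₁ + 10 + 2) := hstep _
  · have h3 := hmon 15 (c₁ + 12) (by omega)
    have h3' := hmon (c₁ + 8) (c₁ + 12) (by omega)
    have h4 := h2 (c₁ + 12) (by omega)
    calc 40 * L ^ 2 * (L ^ 15 + L ^ (c₁ + 8) + L ^ (c₁ + 12) + 2)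
        ≤ 40 * L ^ 2 * (4 * L ^ (c₁ + 12)) := Nat.mul_le_mul_left _ (by omega)
      _ = 160 * L ^ (c₁ + 14) := by ring
      _ ≤ 1000 * L ^ (c₁ + 14) := Nat.mul_le_mul_right _ (by norm_num)
      _ ≤ L ^ (c₁ + 14 + 2) := hstep _
      _ ≤ L ^ (c₁ + 20) := hmon _ _ (by omega)
  · have h3 : L ≤ L ^ 3 := Nat.le_self_pow (by norm_num) _
    have h4 := h2 3 (by norm_num)
    calc (28 * L ^ 3 + 2 * L + 4) ^ 2 ≤ (32 * L ^ 3) ^ 2 := Nat.pow_le_pow_left (by omega) 2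
      _ = 1024 * L ^ 6 := by ring
      _ ≤ L ^ 2 * L * L ^ 6 := by
          apply Nat.mul_le_mul_right
          nlinarith
      _ = L ^ 9 := by ring

end InitStateAux

open InitStateAux

theorem initState (hM : MinBasics) (hTB : ThinBall) (hTS : ThinSmall) (hLoc : LocLemma)
    (hHP : HatPrefix) (hNS : NewSet) (hLH : LinkH) : InitState := by
  intro κ c₁ hc₁
  obtain ⟨D₁, hD₁, hball⟩ := hTB (κ + 2) (c₁ + 20)
  obtain ⟨D₂, hD₂, hsmall⟩ := hTS κ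
  obtain ⟨D₃, hD₃, hloc⟩ := hLoc κ
  obtain ⟨D₄, hD₄, hnew1⟩ := hNS (2 * c₁ + 42) (c₁ + 16)
  obtain ⟨D₅, hD₅, hnew2⟩ := hNS (2 * c₁ + 43) (c₁ + 12)
  obtain ⟨D₆, hD₆, hlarge⟩ := hM.2 1000
  refine ⟨max (max (⌈D₁⌉₊ + 1) (max (⌈D₂⌉₊ + 1) (⌈D₃⌉₊ + 1))) (max (max D₄ D₅) (⌈D₆⌉₊ + 1)),
    by omega, ?_⟩
  intro V Γ D H hD hMin W x x' hxH hx'H hxW hx'W hxx hth hth'
  have hcast : ∀ E : ℝ, ⌈E⌉₊ + 1 ≤ D → E ≤ (D : ℝ) := by
    intro E hE
    have h2 : ((⌈E⌉₊ : ℕ) : ℝ) + 1 ≤ D := by exact_mod_cast hE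
    have h3 := Nat.le_ceil E
    linarith
  have hDD₁ : D₁ ≤ (D : ℝ) := hcast _ (by omega)
  have hDD₂ : D₂ ≤ (D : ℝ) := hcast _ (by omega)
  have hDD₃ : D₃ ≤ (D : ℝ) := hcast _ (by omega)
  have hDD₄ : D₄ ≤ D := by omega
  have hDD₅ : D₅ ≤ D := by omega
  have hDD₆ : D₆ ≤ (D : ℝ) := hcast _ (by omega)
  have hD1 : (1 : ℝ) ≤ D := hD₁.trans hDD₁
  obtain ⟨hL, -⟩ := hlarge V Γ D H hDD₆ hMin
  obtain ⟨L, hLdef⟩ : ∃ L, L = Lg H := ⟨_, rfl⟩
  rw [← hLdef] at hL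
  have hL1 : 1 ≤ L := by omega
  obtain ⟨n1, n2, n3, n4, n5, n6⟩ := nums hL hc₁
  have hWc : (W ∩ H).card ≤ L ^ 15 := by
    rw [hLdef]; exact hsmall V Γ D H hDD₂ hMin W x hxH hxW hth
  have hY1 : 1 ≤ L ^ (c₁ + 20) := Nat.one_le_pow _ _ hL1
  have hHW : H \ (W ∩ H) = H \ W := by
    ext y
    simp only [Finset.mem_sdiff, Finset.mem_inter]
    tauto
  -- the port sets
  obtain ⟨E, hEc, hxE, hEs, hE⟩ := port_union (L := L) (Y := L ^ (c₁ + 20)) (v := x') hHP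
    (fun W' hu hT => by rw [hLdef]; exact hball V Γ D H hDD₁ hMin W' x hxH hu hT)
    hY1 hxH hxW hth hxx
  obtain ⟨E', hE'c, hx'E, hE's, hE'⟩ := port_union (L := L) (Y := L ^ (c₁ + 20)) (v := x) hHP
    (fun W' hu hT => by rw [hLdef]; exact hball V Γ D H hDD₁ hMin W' x' hx'H hu hT)
    hY1 hx'H hx'W hth' hxx.symm
  -- the new sets
  obtain ⟨R, hRdef⟩ : ∃ R, R = W ∩ H ∪ E ∪ E' := ⟨_, rfl⟩
  have hRH : R ⊆ H := by
    rw [hRdef]
    refine Finset.union_subset (Finset.union_subset Finset.inter_subset_right ?_) ?_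
    · exact hEs.trans Finset.sdiff_subset
    · exact hE's.trans Finset.sdiff_subset
  have hRc : R.card ≤ L ^ (2 * c₁ + 42) := by
    rw [hRdef]
    have h1 := Finset.card_union_le (W ∩ H ∪ E) E'
    have h2 := Finset.card_union_le (W ∩ H) E
    omega
  obtain ⟨b₁, B₁', hB₁'s, hB₁'c, hB₁'⟩ := hnew1 V Γ D H hDD₄ hMin R hRH (by rw [← hLdef]; exact hRc)
  rw [← hLdef] at hB₁'c hB₁'
  obtain ⟨B₁, hB₁a, hB₁c, hB₁⟩ := hHP V Γ {b₁} B₁' L (L ^ (c₁ + 8)) (hat_single.2 hB₁')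
    (by simpa using Nat.one_le_pow _ _ hL1)
    (by rw [hB₁'c]; exact Nat.pow_le_pow_right hL1 (by omega))
  rw [hat_single] at hB₁
  have hHat : Hat Γ B₁ L B₁' := by
    refine ⟨hB₁a, ?_⟩
    intro y hy
    obtain ⟨l, hl, hlen⟩ := hB₁'.con y hy
    exact ⟨b₁, hB₁.mem, l, hl, hlen⟩
  obtain ⟨b₂, B₂, hB₂s, hB₂c, hB₂⟩ := hnew2 V Γ D H hDD₅ hMin (R ∪ B₁')
    (Finset.union_subset hRH (hB₁'s.trans Finset.sdiff_subset)) (by
      rw [← hLdef]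
      have h1 := Finset.card_union_le R B₁'
      omega)
  rw [← hLdef] at hB₂c hB₂
  -- memberships
  have hxR : x ∈ R := by rw [hRdef]; simp [hxE]
  have hx'R : x' ∈ R := by rw [hRdef]; simp [hx'E]
  have hWR : W ∩ H ⊆ R := by rw [hRdef]; exact fun y hy => by simp [Finset.mem_inter.1 hy]
  have hER : E ⊆ R := by rw [hRdef]; exact fun y hy => by simp [hy]
  have hE'R : E' ⊆ R := by rw [hRdef]; exact fun y hy => by simp [hy]
  have hB₁'R : ∀ y ∈ R, y ∉ B₁' := fun y hy hy' => (Finset.mem_sdiff.1 (hB₁'s hy')).2 hy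
  have hB₂R : ∀ y ∈ R, y ∉ B₂ := fun y hy hy' =>
    (Finset.mem_sdiff.1 (hB₂s hy')).2 (Finset.mem_union_left _ hy)
  have hB₁'W : B₁' ⊆ H \ W := by
    intro y hy
    have h1 := Finset.mem_sdiff.1 (hB₁'s hy)
    exact Finset.mem_sdiff.2 ⟨h1.1, fun h => h1.2 (hWR (Finset.mem_inter.2 ⟨h, h1.1⟩))⟩
  have hB₂W : B₂ ⊆ H \ W := by
    intro y hy
    have h1 := Finset.mem_sdiff.1 (hB₂s hy)
    exact Finset.mem_sdiff.2 ⟨h1.1, fun h => h1.2 (Finset.mem_union_left _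
      (hWR (Finset.mem_inter.2 ⟨h, h1.1⟩)))⟩
  have hdis : Disjoint B₁' B₂ := by
    rw [Finset.disjoint_left]
    intro y hy hy'
    exact (Finset.mem_sdiff.1 (hB₂s hy')).2 (Finset.mem_union_right _ hy)
  have hport : ∀ (u v : V) (F : Finset V), F ⊆ R → F ⊆ H \ W → (∀ c, c ≠ u →
      ∃ B : Finset V, B ⊆ F ∧ B.card = L ^ (c₁ + 20) ∧ ConS Γ u L B ∧ v ∉ B ∧ c ∉ B) →
      ∀ c, c ≠ u → ∃ B : Finset V, B ⊆ H \ (W ∩ H ∪ B₁' ∪ B₂) ∧ L ^ (c₁ + 20) ≤ B.card ∧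
        ConS Γ u L B ∧ c ∉ B ∧ v ∉ B := by
    intro u v F hF1 hF2 hF3 c hc
    obtain ⟨B, h1, h2, h3, h4, h5⟩ := hF3 c hc
    refine ⟨B, ?_, h2.ge, h3, h5, h4⟩
    intro y hy
    have h6 := Finset.mem_sdiff.1 (hF2 (h1 hy))
    refine Finset.mem_sdiff.2 ⟨h6.1, ?_⟩
    rw [Finset.mem_union, Finset.mem_union]
    rintro ((h | h) | h)
    · exact h6.2 (Finset.mem_inter.1 h).1
    · exact hB₁'R y (hF1 (h1 hy)) h
    · exact hB₂R y (hF1 (h1 hy)) h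
  have hlink := hLH V Γ D H hD1 hMin (W ∩ H) B₁ B₁' B₂ x x' L (L ^ (c₁ + 20)) hxx
    (by rw [hHW]; exact Finset.mem_sdiff.2 ⟨hxH, hxW⟩)
    (by rw [hHW]; exact Finset.mem_sdiff.2 ⟨hx'H, hx'W⟩)
    (by rw [hHW]; exact hB₁'W) (by rw [hHW]; exact hB₂W) hdis
    (hB₁'R x hxR) (hB₂R x hxR) (hB₁'R x' hx'R) (hB₂R x' hx'R) ⟨b₁, hB₁.mem⟩ hHat
    (by
      rw [← hLdef, hB₁'c, hB₂c]
      exact (Nat.mul_le_mul_left _ (by omega)).trans n3)
    (by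
      rw [← hLdef, hB₁c, hB₂c]
      exact (Nat.mul_le_mul_left _ (by omega)).trans n4)
    (by
      rw [← hLdef, hB₁c, hB₂c]
      exact (Nat.mul_le_mul_left _ (by omega)).trans n5)
    (by
      intro c hc
      obtain ⟨B, h1, h2, h3, h4, h5⟩ := hport x x' E hER hEs hE c hc
      refine ⟨B, h1, h2, h3, h4, ?_⟩
      intro y hy hy'
      rw [Finset.mem_insert, Finset.mem_singleton] at hy'
      rcases hy' with h | h
      · exact h
      · exact absurd (h ▸ hy) h5)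
    (by
      intro c hc
      obtain ⟨B, h1, h2, h3, h4, h5⟩ := hport x' x E' hE'R hE's hE' c hc
      refine ⟨B, h1, h2, h3, h4, ?_⟩
      intro y hy hy'
      rw [Finset.mem_insert, Finset.mem_singleton] at hy'
      rcases hy' with h | h
      · exact absurd (h ▸ hy) h5
      · exact h)
  rw [hHW, ← hLdef] at hlink
  obtain ⟨s, s', y₁, y₂, l₁, l₂, hss, hy₁, hy₂, hl₁, hl₂, hld, hm₁, hm₂, hlen₁, hlen₂⟩ := hlink
  have hBB : Disjoint B₁ B₂ := Finset.disjoint_of_subset_left hB₁a hdis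
  have hB₁W : B₁ ⊆ H \ W := hB₁a.trans hB₁'W
  have hB₂c' : L ^ (c₁ + 8) ≤ B₂.card := by
    rw [hB₂c]; exact Nat.pow_le_pow_right hL1 (by omega)
  have hbig : L ^ 18 ≤ L ^ (c₁ + 8) := Nat.pow_le_pow_right hL1 (by omega)
  rcases hss with ⟨rfl, rfl⟩ | ⟨rfl, rfl⟩
  · refine mk_state hHP hLdef (by omega) hB₁W hB₂W hBB hB₁c.ge hB₂c' hB₁ hB₂ hy₁ hy₂ hl₁ hl₂ hld
      hm₁ hm₂ (hlen₁.trans n6) (hlen₂.trans n6) ?_
    have h1 := hloc V Γ D H hDD₃ hMin W s hxH hxW hth B₂ y₂ hB₂W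
      (by rw [← hLdef]; exact hbig.trans hB₂c') (by rw [← hLdef]; exact hB₂.recenter hy₂)
    rwa [← hLdef] at h1
  · refine mk_state hHP hLdef (by omega) hB₂W hB₁W hBB.symm hB₂c' hB₁c.ge hB₂ hB₁ hy₂ hy₁ hl₂ hl₁
      hld.symm (fun y hy h => hm₂ y hy h.symm) (fun y hy h => hm₁ y hy h.symm)
      (hlen₂.trans n6) (hlen₁.trans n6) ?_
    have h1 := hloc V Γ D H hDD₃ hMin W s' hxH hxW hth B₁ y₁ hB₁W
      (by rw [← hLdef, hB₁c]; exact hbig) (by rw [← hLdef]; exact hB₁.recenter hy₁)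
    rwa [← hLdef] at h1

end Pool.Agent.Lib.MP_b6048d_co.F
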