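import Pool.Agent.Lib.MP_b6048d_co.F.SpecA

set_option autoImplicit false

/-!
A21 LevelCount: pure counting in a bipartite graph.
-/

open scoped Classical

namespace Pool.Agent.Lib.MP_b6048d_co.F.LevelCountAux

open Pool.Agent.Lib.MP_b6048d_co.F

variable {V : Type} {Γ : SimpleGraph V} {col : V → Bool} {S Bad : Finset V} {z₀ : V}

/-- the colour of the levels -/
def lev (b : Bool) : ℕ → Bool
  | 0 => b
  | k + 1 => !(lev b k)

lemma col_nbr (hz : z₀ ∈ S) (hbip : ∀ u ∈ S, ∀ v ∈ S, Γ.Adj u v → col u ≠ col v) (k : ℕ) :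
    ∀ x ∈ nbr Γ S (bl Γ S {z₀} k), col x = lev (col z₀) (k + 1) := by
  induction k with
  | zero =>
    intro x hx
    obtain ⟨hxS, hxn, a, ha, hax⟩ := mem_nbr.1 hx
    have ha1 := (mem_bl_zero.1 ha).1
    rw [Finset.mem_singleton] at ha1
    subst ha1
    have h := hbip a hz x hxS hax
    simp only [lev]
    revert h
    cases col a <;> cases col x <;> simp
  | succ k ih =>
    intro x hx
    obtain ⟨hxS, hxn, a, ha, hax⟩ := mem_nbr.1 hx
    have haS := bl_subset ha
    have han : a ∉ bl Γ S {z₀} k := fun h => hxn (bl_step h hxS hax)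
    have ha2 : a ∈ nbr Γ S (bl Γ S {z₀} k) := by
      rw [bl] at ha
      rcases Finset.mem_union.1 ha with h | h
      · exact absurd h han
      · exact h
    have h1 := ih a ha2
    have h := hbip a haS x hxS hax
    rw [h1] at h
    rw [lev]
    revert h
    cases lev (col z₀) (k + 1) <;> cases col x <;> simp

lemma ed_nbr (hz : z₀ ∈ S) (hbip : ∀ u ∈ S, ∀ v ∈ S, Γ.Adj u v → col u ≠ col v) (k : ℕ) :
    ed Γ (nbr Γ S (bl Γ S {z₀} k)) = 0 := by
  unfold ed
  rw [Finset.sum_eq_zero, zero_div]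
  intro v hv
  have h0 : dg Γ (nbr Γ S (bl Γ S {z₀} k)) v = 0 := by
    unfold dg
    rw [Finset.card_eq_zero, Finset.filter_eq_empty_iff]
    intro x hx hadj
    have h1 := col_nbr hz hbip k x hx
    have h2 := col_nbr hz hbip k v hv
    exact hbip v (nbr_subset hv) x (nbr_subset hx) hadj (h2.trans h1.symm)
  rw [h0, Nat.cast_zero]

lemma sdiff_bl_succ (k : ℕ) :
    (S \ bl Γ S {z₀} k) \ nbr Γ S (bl Γ S {z₀} k) = S \ bl Γ S {z₀} (k + 1) := by
  rw [bl]
  ext x
  simp only [Finset.mem_sdiff, Finset.mem_union]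
  tauto

lemma nbr_sub (k : ℕ) : nbr Γ S (bl Γ S {z₀} k) ⊆ S \ bl Γ S {z₀} k := by
  intro x hx
  exact Finset.mem_sdiff.2 ⟨nbr_subset hx, (mem_nbr.1 hx).2.1⟩

/-- the edges from the non-bad part of a level to the next level -/
lemma up_edges (A B : Finset V) (hAB : A ⊆ B)
    (h1 : ∀ w ∈ nbr Γ S B, ∀ u ∈ A, ∀ u' ∈ A, Γ.Adj u w → Γ.Adj u' w → u = u') :
    ∑ v ∈ A, (dg Γ (S \ B) v : ℝ) ≤ (nbr Γ S B).card := by
  rw [sum_dg_comm]
  have h2 : ∑ w ∈ S \ B, (dg Γ A w : ℝ) = ∑ w ∈ nbr Γ S B, (dg Γ A w : ℝ) := by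
    symm
    refine Finset.sum_subset ?_ ?_
    · intro x hx
      exact Finset.mem_sdiff.2 ⟨nbr_subset hx, (mem_nbr.1 hx).2.1⟩
    · intro x hx hxn
      have h0 : dg Γ A x = 0 := by
        unfold dg
        rw [Finset.card_eq_zero, Finset.filter_eq_empty_iff]
        intro y hy hadj
        exact hxn (mem_nbr.2 ⟨(Finset.mem_sdiff.1 hx).1, (Finset.mem_sdiff.1 hx).2, y, hAB hy,
          hadj.symm⟩)
      rw [h0, Nat.cast_zero]
  rw [h2]
  have h3 : ∑ w ∈ nbr Γ S B, (dg Γ A w : ℝ) ≤ ∑ _w ∈ nbr Γ S B, (1 : ℝ) := by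
    refine Finset.sum_le_sum fun w hw => ?_
    have h4 : dg Γ A w ≤ 1 := by
      unfold dg
      rw [Finset.card_le_one]
      intro a ha b hb
      rw [Finset.mem_filter] at ha hb
      exact h1 w hw a ha.1 b hb.1 ha.2.symm hb.2.symm
    exact_mod_cast h4
  refine h3.trans (le_of_eq ?_)
  rw [Finset.sum_const, nsmul_eq_mul, mul_one]

lemma bad_edges (A B : Finset V) :
    ∑ v ∈ A, (dg Γ (S \ B) v : ℝ) ≤ ∑ v ∈ A, (dg Γ S v : ℝ) := by
  refine Finset.sum_le_sum fun v _ => ?_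
  exact_mod_cast dg_mono Finset.sdiff_subset

end Pool.Agent.Lib.MP_b6048d_co.F.LevelCountAux

namespace Pool.Agent.Lib.MP_b6048d_co.F

open LevelCountAux in
/-- **A21 LevelCount.** -/
theorem levelCount : LevelCount := by
  intro V Γ col S Bad z₀ r hz hbip hlt
  by_contra hcon
  have key : ∀ k : ℕ, k ≤ r → ed Γ S - ed Γ (S \ bl Γ S {z₀} k) ≤
      (bl Γ S {z₀} (k + 1)).card + ∑ v ∈ Bad.filter (fun v => v ∈ bl Γ S {z₀} k),
        (dg Γ S v : ℝ) := by
    intro k
    induction k with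
    | zero =>
      intro _
      have hb0 : bl Γ S {z₀} 0 = {z₀} := by
        rw [bl]
        exact Finset.inter_eq_left.2 (Finset.singleton_subset_iff.2 hz)
      have hsp := ed_split (Γ := Γ) (A := bl Γ S {z₀} 0) (H := S) bl_subset
      have he : ed Γ (bl Γ S {z₀} 0) = 0 := by
        rw [hb0]
        unfold ed dg
        simp
      have hup := up_edges (Γ := Γ) (S := S) (bl Γ S {z₀} 0) (bl Γ S {z₀} 0)
        (Finset.Subset.refl _) (by
          intro w _ u hu u' hu' _ _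
          rw [hb0, Finset.mem_singleton] at hu hu'
          rw [hu, hu'])
      have hc := card_bl_succ (Γ := Γ) (S := S) (A := {z₀}) (i := 0)
      have hc' : ((bl Γ S {z₀} (0 + 1)).card : ℝ) = (bl Γ S {z₀} 0).card +
          (nbr Γ S (bl Γ S {z₀} 0)).card := by
        rw [hc]; push_cast; ring
      have hn : (0 : ℝ) ≤ ∑ v ∈ Bad.filter (fun v => v ∈ bl Γ S {z₀} 0), (dg Γ S v : ℝ) :=
        Finset.sum_nonneg fun _ _ => Nat.cast_nonneg _
      have hn2 : (0 : ℝ) ≤ ((bl Γ S {z₀} 0).card : ℝ) := Nat.cast_nonneg _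
      rw [hc']
      linarith
    | succ k ih =>
      intro hk
      have h0 := ih (by omega)
      have hsp := ed_split (Γ := Γ) (nbr_sub (Γ := Γ) (S := S) (z₀ := z₀) k)
      rw [sdiff_bl_succ, ed_nbr hz hbip] at hsp
      have hsum : ∑ v ∈ nbr Γ S (bl Γ S {z₀} k), (dg Γ (S \ bl Γ S {z₀} (k + 1)) v : ℝ) =
          ∑ v ∈ (nbr Γ S (bl Γ S {z₀} k)).filter (fun v => v ∈ Bad),
            (dg Γ (S \ bl Γ S {z₀} (k + 1)) v : ℝ) +
          ∑ v ∈ (nbr Γ S (bl Γ S {z₀} k)).filter (fun v => ¬ v ∈ Bad),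
            (dg Γ (S \ bl Γ S {z₀} (k + 1)) v : ℝ) :=
        (Finset.sum_filter_add_sum_filter_not _ _ _).symm
      have h1 := bad_edges (Γ := Γ) (S := S)
        ((nbr Γ S (bl Γ S {z₀} k)).filter (fun v => v ∈ Bad)) (bl Γ S {z₀} (k + 1))
      have h2 := up_edges (Γ := Γ) (S := S)
        ((nbr Γ S (bl Γ S {z₀} k)).filter (fun v => ¬ v ∈ Bad)) (bl Γ S {z₀} (k + 1))
        (by
          intro x hx
          rw [bl]
          exact Finset.mem_union_right _ (Finset.mem_filter.1 hx).1)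
        (by
          intro w hw u hu u' hu' hadj hadj'
          by_contra hne
          obtain ⟨hu1, hu2⟩ := Finset.mem_filter.1 hu
          obtain ⟨hu1', hu2'⟩ := Finset.mem_filter.1 hu'
          obtain ⟨hw1, hw2, -⟩ := mem_nbr.1 hw
          refine hcon ⟨k + 1, w, u, u', by omega, hk, hne, hu2, hu2', ?_, ?_, ?_, ?_, hw1, hw2,
            hadj, hadj'⟩
          · rw [bl]
            exact Finset.mem_union_right _ hu1
          · rw [Nat.add_sub_cancel]
            exact (mem_nbr.1 hu1).2.1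
          · rw [bl]
            exact Finset.mem_union_right _ hu1'
          · rw [Nat.add_sub_cancel]
            exact (mem_nbr.1 hu1').2.1)
      have hc := card_bl_succ (Γ := Γ) (S := S) (A := {z₀}) (i := k + 1)
      have hc' : ((bl Γ S {z₀} (k + 1 + 1)).card : ℝ) = (bl Γ S {z₀} (k + 1)).card +
          (nbr Γ S (bl Γ S {z₀} (k + 1))).card := by
        rw [hc]; push_cast; ring
      have h3 : ∑ v ∈ Bad.filter (fun v => v ∈ bl Γ S {z₀} (k + 1)), (dg Γ S v : ℝ) =
          ∑ v ∈ Bad.filter (fun v => v ∈ bl Γ S {z₀} k), (dg Γ S v : ℝ) +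
          ∑ v ∈ (nbr Γ S (bl Γ S {z₀} k)).filter (fun v => v ∈ Bad), (dg Γ S v : ℝ) := by
        rw [← Finset.sum_union]
        · refine Finset.sum_congr ?_ fun _ _ => rfl
          ext x
          rw [bl]
          simp only [Finset.mem_filter, Finset.mem_union]
          tauto
        · rw [Finset.disjoint_left]
          intro x hx hx'
          exact (mem_nbr.1 (Finset.mem_filter.1 hx').1).2.1 (Finset.mem_filter.1 hx).2
      rw [hc', h3]
      linarith
  have hr := key r le_rfl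
  have h1 : ((bl Γ S {z₀} (r + 1)).card : ℝ) ≤ S.card := by
    exact_mod_cast Finset.card_le_card bl_subset
  have h2 : ∑ v ∈ Bad.filter (fun v => v ∈ bl Γ S {z₀} r), (dg Γ S v : ℝ) ≤
      ∑ v ∈ Bad, (dg Γ S v : ℝ) :=
    Finset.sum_le_sum_of_subset_of_nonneg (Finset.filter_subset _ _)
      fun _ _ _ => Nat.cast_nonneg _
  linarith

end Pool.Agent.Lib.MP_b6048d_co.F
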