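import Pool.Agent.Lib.MP_b6048d_co.F.Base3
import Pool.Agent.Lib.MP_b6048d_co.F.SpecA

set_option autoImplicit false

/-!
A24: two disjoint paths to two contracted sets.
-/

open scoped Classical

namespace Pool.Agent.Lib.MP_b6048d_co.F

namespace Link2Aux

open Pool.Agent.Lib.MP_2ce0dd_pr

variable {V : Type}

/-- The contraction map. -/
noncomputable def phi (A₁ A₂ : Finset V) (a₁ a₂ : V) (x : V) : V :=
  if x ∈ A₁ then a₁ else if x ∈ A₂ then a₂ else x

/-- The directed edges of the contracted graph; no edge leaves a contracted vertex. -/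
noncomputable def EE (Γ : SimpleGraph V) (U A₁ A₂ : Finset V) (a₁ a₂ : V) : Finset (V × V) :=
  ((U ×ˢ U).filter (fun z => Γ.Adj z.1 z.2 ∧ z.1 ∉ A₁ ∧ z.1 ∉ A₂)).image
    (fun z => (z.1, phi A₁ A₂ a₁ a₂ z.2))

variable {Γ : SimpleGraph V} {U A₁ A₂ : Finset V} {a₁ a₂ : V}

lemma mem_EE {u w : V} : (u, w) ∈ EE Γ U A₁ A₂ a₁ a₂ ↔
    ∃ y, u ∈ U ∧ y ∈ U ∧ Γ.Adj u y ∧ u ∉ A₁ ∧ u ∉ A₂ ∧ phi A₁ A₂ a₁ a₂ y = w := by
  unfold EE
  simp only [Finset.mem_image, Finset.mem_filter, Finset.mem_product, Prod.mk.injEq, Prod.exists]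
  constructor
  · rintro ⟨x, y, ⟨⟨hx, hy⟩, hxy, h1, h2⟩, rfl, h3⟩
    exact ⟨y, hx, hy, hxy, h1, h2, h3⟩
  · rintro ⟨y, hx, hy, hxy, h1, h2, h3⟩
    exact ⟨u, y, ⟨⟨hx, hy⟩, hxy, h1, h2⟩, rfl, h3⟩

lemma chain_proj : ∀ (a : List V) (x : V), (a ++ [x]).IsChain Γ.Adj →
    (∀ u ∈ a, u ∈ U ∧ u ∉ A₁ ∧ u ∉ A₂) → x ∈ U →
    (a ++ [phi A₁ A₂ a₁ a₂ x]).IsChain (fun u w => (u, w) ∈ EE Γ U A₁ A₂ a₁ a₂) := by
  intro a
  induction a with
  | nil => intro x _ _ _; simp
  | cons u t ih =>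
    intro x hc ha hx
    have hu := ha u (by simp)
    cases t with
    | nil =>
      simp only [List.cons_append, List.nil_append, List.isChain_cons_cons] at hc ⊢
      exact ⟨mem_EE.2 ⟨x, hu.1, hx, hc.1, hu.2.1, hu.2.2, rfl⟩, by simp⟩
    | cons v t =>
      simp only [List.cons_append, List.isChain_cons_cons] at hc ⊢
      have hv := ha v (by simp)
      have h1 := ih x (by simpa using hc.2) (fun z hz => ha z (List.mem_cons_of_mem _ hz)) hx
      refine ⟨mem_EE.2 ⟨v, hu.1, hv.1, hc.1, hu.2.1, hu.2.2, ?_⟩, by simpa using h1⟩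
      unfold phi
      rw [if_neg hv.2.1, if_neg hv.2.2]

lemma proj {A B : Finset V} {X : Set V} {s y : V} {l : List V} (hA : s ∈ A)
    (hB1 : a₁ ∈ B) (hB2 : a₂ ∈ B)
    (hw : Wk Γ X s y l) (hy : y ∈ A₁ ∨ y ∈ A₂) (hsA₁ : s ∉ A₁) (hsA₂ : s ∉ A₂)
    (hU : ∀ z ∈ l, z ∈ U) :
    ∃ π : List V, IsABPath (EE Γ U A₁ A₂ a₁ a₂) A B π ∧
      ∀ v ∈ π, (v ∈ l ∧ v ∉ A₁ ∧ v ∉ A₂) ∨ (v = a₁ ∧ ∃ z ∈ l, z ∈ A₁) ∨
        (v = a₂ ∧ ∃ z ∈ l, z ∈ A₂) := by
  obtain ⟨a, x, b, rfl, hx, ha⟩ := exists_first (fun z => z ∈ A₁ ∨ z ∈ A₂) l ⟨y, hw.right_mem, hy⟩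
  have hw1 := hw.cut.1
  have ha' : ∀ u ∈ a, u ∈ U ∧ u ∉ A₁ ∧ u ∉ A₂ := by
    intro u hu
    have := ha u hu
    push Not at this
    exact ⟨hU u (List.mem_append_left _ hu), this.1, this.2⟩
  have hxU : x ∈ U := hU x (by simp)
  have hane : a ≠ [] := by
    rintro rfl
    have : x = s := by simpa using hw1.head
    rw [this] at hx
    rcases hx with h | h
    · exact hsA₁ h
    · exact hsA₂ h
  have hphi : phi A₁ A₂ a₁ a₂ x = a₁ ∧ x ∈ A₁ ∨ phi A₁ A₂ a₁ a₂ x = a₂ ∧ x ∈ A₂ := by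
    unfold phi
    by_cases h : x ∈ A₁
    · left; rw [if_pos h]; exact ⟨rfl, h⟩
    · right
      have h2 := hx.resolve_left h
      rw [if_neg h, if_pos h2]; exact ⟨rfl, h2⟩
  refine ⟨a ++ [phi A₁ A₂ a₁ a₂ x], ⟨chain_proj a x hw1.chain ha' hxU, ⟨s, hA, ?_⟩,
    ⟨phi A₁ A₂ a₁ a₂ x, ?_, by simp⟩⟩, ?_⟩
  · have h1 := hw1.head
    cases a with
    | nil => exact absurd rfl hane
    | cons c a => simpa using h1
  · rcases hphi with h | h
    · rw [h.1]; exact hB1
    · rw [h.1]; exact hB2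
  · intro v hv
    rcases List.mem_append.1 hv with h | h
    · exact Or.inl ⟨List.mem_append_left _ h, (ha' v h).2⟩
    · rw [List.mem_singleton] at h
      rcases hphi with h1 | h1
      · exact Or.inr (Or.inl ⟨h.trans h1.1, x, by simp, h1.2⟩)
      · exact Or.inr (Or.inr ⟨h.trans h1.1, x, by simp, h1.2⟩)

lemma chain_lift (h1 : a₁ ∈ A₁) (h2 : a₂ ∈ A₂) (hd : Disjoint A₁ A₂) :
    ∀ (t : List V) (e : V), t ≠ [] →
    (t ++ [e]).IsChain (fun u w => (u, w) ∈ EE Γ U A₁ A₂ a₁ a₂) → (e = a₁ ∨ e = a₂) →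
    ∃ y ∈ U, ((e = a₁ ∧ y ∈ A₁) ∨ (e = a₂ ∧ y ∈ A₂)) ∧ (t ++ [y]).IsChain Γ.Adj ∧
      ∀ v ∈ t, v ∈ U ∧ v ∉ A₁ ∧ v ∉ A₂ := by
  intro t
  induction t with
  | nil => intro e h; exact absurd rfl h
  | cons u t ih =>
    intro e _ hc he
    cases t with
    | nil =>
      simp only [List.cons_append, List.nil_append, List.isChain_cons_cons] at hc
      obtain ⟨y, hu, hy, huy, hu1, hu2, hphi⟩ := mem_EE.1 hc.1
      refine ⟨y, hy, ?_, by simpa using huy, ?_⟩
      · unfold phi at hphi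
        by_cases hy1 : y ∈ A₁
        · rw [if_pos hy1] at hphi
          exact Or.inl ⟨hphi.symm, hy1⟩
        · rw [if_neg hy1] at hphi
          by_cases hy2 : y ∈ A₂
          · rw [if_pos hy2] at hphi
            exact Or.inr ⟨hphi.symm, hy2⟩
          · rw [if_neg hy2] at hphi
            exfalso
            rcases he with he | he
            · rw [hphi, he] at hy1; exact hy1 h1
            · rw [hphi, he] at hy2; exact hy2 h2
      · intro v hv
        rw [List.mem_singleton] at hv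
        rw [hv]; exact ⟨hu, hu1, hu2⟩
    | cons v t =>
      simp only [List.cons_append, List.isChain_cons_cons] at hc
      obtain ⟨y, hy, hye, hyc, hyt⟩ := ih e (by simp) (by simpa using hc.2) he
      obtain ⟨y', hu, hy', huy, hu1, hu2, hphi⟩ := mem_EE.1 hc.1
      have hv := hyt v (by simp)
      have hyv : y' = v := by
        unfold phi at hphi
        by_cases hy1 : y' ∈ A₁
        · rw [if_pos hy1] at hphi
          rw [← hphi] at hv
          exact absurd h1 hv.2.1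
        · rw [if_neg hy1] at hphi
          by_cases hy2 : y' ∈ A₂
          · rw [if_pos hy2] at hphi
            rw [← hphi] at hv
            exact absurd h2 hv.2.2
          · rw [if_neg hy2] at hphi
            exact hphi
      refine ⟨y, hy, hye, ?_, ?_⟩
      · simp only [List.cons_append, List.isChain_cons_cons]
        exact ⟨by rw [← hyv]; exact huy, by simpa using hyc⟩
      · intro w hw
        rcases List.mem_cons.1 hw with h | h
        · rw [h]; exact ⟨hu, hu1, hu2⟩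
        · exact hyt w h

lemma lift {p q : V} {π : List V} (h1 : a₁ ∈ A₁) (h2 : a₂ ∈ A₂) (hd : Disjoint A₁ A₂)
    (hp1 : p ∉ A₁) (hp2 : p ∉ A₂) (hq1 : q ∉ A₁) (hq2 : q ∉ A₂)
    (h : IsABPath (EE Γ U A₁ A₂ a₁ a₂) {p, q} {a₁, a₂} π) :
    ∃ s e y l, (s = p ∨ s = q) ∧ s ∈ π ∧ e ∈ π ∧ ((e = a₁ ∧ y ∈ A₁) ∨ (e = a₂ ∧ y ∈ A₂)) ∧
      Pth Γ (U : Set V) s y l ∧ (∀ z ∈ l, z = y ∨ (z ∈ π ∧ z ∉ A₁ ∧ z ∉ A₂)) := by
  obtain ⟨s, hs, hsh⟩ := h.head
  obtain ⟨e, he, hel⟩ := h.last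
  have hs' : s = p ∨ s = q := by simpa using hs
  have he' : e = a₁ ∨ e = a₂ := by simpa using he
  obtain ⟨t, ht⟩ : ∃ t, π = t ++ [e] := by
    rcases List.eq_nil_or_concat π with h0 | ⟨t, b, h0⟩
    · rw [h0] at hel; simp at hel
    · rw [h0, List.concat_eq_append] at hel ⊢
      have : b = e := by simpa using hel
      exact ⟨t, by rw [this]⟩
  have hse : s ∉ A₁ ∧ s ∉ A₂ := by
    rcases hs' with h0 | h0
    · rw [h0]; exact ⟨hp1, hp2⟩
    · rw [h0]; exact ⟨hq1, hq2⟩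
  have htne : t ≠ [] := by
    rintro rfl
    rw [ht] at hsh
    have : e = s := by simpa using hsh
    rcases he' with h0 | h0
    · exact hse.1 (by rw [← this, h0]; exact h1)
    · exact hse.2 (by rw [← this, h0]; exact h2)
  obtain ⟨y, hy, hye, hyc, hyt⟩ := chain_lift h1 h2 hd t e htne (by rw [← ht]; exact h.chain) he'
  have hwk : Wk Γ (U : Set V) s y (t ++ [y]) := by
    refine ⟨hyc, ?_, by simp, ?_⟩
    · rw [ht] at hsh
      cases t with
      | nil => exact absurd rfl htne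
      | cons c t => simpa using hsh
    · intro x hx
      rcases List.mem_append.1 hx with h0 | h0
      · exact_mod_cast (hyt x h0).1
      · rw [List.mem_singleton.1 h0]; exact_mod_cast hy
  obtain ⟨l, hl, hlsub, -⟩ := hwk.toPth
  refine ⟨s, e, y, l, hs', List.mem_of_mem_head? hsh, List.mem_of_mem_getLast? hel, hye, hl, ?_⟩
  intro z hz
  rcases List.mem_append.1 (hlsub hz) with h0 | h0
  · right
    exact ⟨by rw [ht]; exact List.mem_append_left _ h0, (hyt z h0).2⟩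
  · left
    exact List.mem_singleton.1 h0

end Link2Aux

open Link2Aux Pool.Agent.Lib.MP_2ce0dd_pr in
theorem link2 : Link2 := by
  intro V Γ S A₁ A₂ p q ρ hpq hp hq hA₁ hA₂ hd hp1 hp2 hq1 hq2 hi hii hiii
  obtain ⟨s₂, hs₂, y₂, hy₂, l₂, hl₂, hlen₂⟩ := hii
  obtain ⟨s₃, hs₃, y₃, hy₃, l₃, hl₃, hlen₃⟩ := hiii
  have hf : ∀ c, ∃ l : List V, l.length ≤ ρ + 1 ∧ (∀ x ∈ l, x ∈ S) ∧
      (c ∉ A₁ → c ∉ A₂ → ∃ s, (s = p ∨ s = q) ∧ ∃ y, (y ∈ A₁ ∨ y ∈ A₂) ∧
        Wk Γ ((S \ {c} : Finset V) : Set V) s y l) := by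
    intro c
    by_cases h : c ∉ A₁ ∧ c ∉ A₂
    · obtain ⟨s, hs, y, hy, l, hl, hlen⟩ := hi c h.1 h.2
      refine ⟨l, hlen, ?_, fun _ _ => ⟨s, hs, y, hy, hl⟩⟩
      intro x hx
      have := hl.mem x hx
      rw [Finset.mem_coe, Finset.mem_sdiff] at this
      exact this.1
    · exact ⟨[], by simp, by simp, fun h1 h2 => absurd ⟨h1, h2⟩ h⟩
  choose f hflen hfS hfw using hf
  set P₀ := f p with hP₀
  set U : Finset V := (P₀.toFinset ∪ P₀.toFinset.biUnion (fun c => (f c).toFinset)) ∪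
    (l₂.toFinset ∪ l₃.toFinset) with hU
  have hUS : U ⊆ S := by
    intro x hx
    simp only [hU, Finset.mem_union, Finset.mem_biUnion, List.mem_toFinset] at hx
    rcases hx with (h | ⟨c, -, h⟩) | (h | h)
    · exact hfS _ x h
    · exact hfS _ x h
    · have := hl₂.mem x h
      rw [Finset.mem_coe, Finset.mem_sdiff] at this
      exact this.1
    · have := hl₃.mem x h
      rw [Finset.mem_coe, Finset.mem_sdiff] at this
      exact this.1
  have hUcard : U.card ≤ (ρ + 4) ^ 2 := by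
    have h0 : P₀.toFinset.card ≤ ρ + 1 := (List.toFinset_card_le _).trans (hflen _)
    have h1 : (P₀.toFinset.biUnion (fun c => (f c).toFinset)).card ≤ (ρ + 1) * (ρ + 1) := by
      refine (Finset.card_biUnion_le_card_mul _ _ (ρ + 1) ?_).trans
        (Nat.mul_le_mul_right _ h0)
      intro c _
      exact (List.toFinset_card_le _).trans (hflen _)
    have h2 : l₂.toFinset.card ≤ ρ + 1 := (List.toFinset_card_le _).trans hlen₂
    have h3 : l₃.toFinset.card ≤ ρ + 1 := (List.toFinset_card_le _).trans hlen₃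
    have h4 : U.card ≤ ((ρ + 1) + (ρ + 1) * (ρ + 1)) + ((ρ + 1) + (ρ + 1)) := by
      refine (Finset.card_union_le _ _).trans (Nat.add_le_add ?_ ?_)
      · exact (Finset.card_union_le _ _).trans (Nat.add_le_add h0 h1)
      · exact (Finset.card_union_le _ _).trans (Nat.add_le_add h2 h3)
    nlinarith
  have ha₁ : y₃ ∈ A₁ := hy₃
  have ha₂ : y₂ ∈ A₂ := hy₂
  have hne : y₃ ≠ y₂ := fun h => Finset.disjoint_left.1 hd ha₁ (h ▸ ha₂)
  have hpq1 : ∀ s, (s = p ∨ s = q) → s ∉ A₁ ∧ s ∉ A₂ := by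
    rintro s (h | h)
    · rw [h]; exact ⟨hp1, hp2⟩
    · rw [h]; exact ⟨hq1, hq2⟩
  obtain ⟨P, hP, hPd⟩ := menger 2 _ (EE Γ U A₁ A₂ y₃ y₂) rfl {p, q} {y₃, y₂} (by
    intro T hT
    by_contra hcard
    have hcard1 : T.card ≤ 1 := by omega
    -- a path avoiding `c`
    have hkey : ∀ c : V, ∃ π : List V,
        IsABPath (EE Γ U A₁ A₂ y₃ y₂) {p, q} {y₃, y₂} π ∧ c ∉ π := by
      intro c
      by_cases hc1 : c ∈ A₁
      · obtain ⟨π, hπ, hmem⟩ := proj (Γ := Γ) (U := U) (a₁ := y₃) (a₂ := y₂)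
          (A := {p, q}) (B := {y₃, y₂}) (by simpa using hs₂) (by simp) (by simp) hl₂
          (Or.inr hy₂) (hpq1 _ hs₂).1 (hpq1 _ hs₂).2 (by
            intro z hz
            simp only [hU, Finset.mem_union, List.mem_toFinset]
            exact Or.inr (Or.inl hz))
        refine ⟨π, hπ, ?_⟩
        intro hc
        rcases hmem c hc with h | ⟨-, z, hz, hz1⟩ | ⟨h, -⟩
        · exact h.2.1 hc1
        · have := hl₂.mem z hz
          rw [Finset.mem_coe, Finset.mem_sdiff] at this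
          exact this.2 hz1
        · exact Finset.disjoint_left.1 hd hc1 (h ▸ ha₂)
      · by_cases hc2 : c ∈ A₂
        · obtain ⟨π, hπ, hmem⟩ := proj (Γ := Γ) (U := U) (a₁ := y₃) (a₂ := y₂)
            (A := {p, q}) (B := {y₃, y₂}) (by simpa using hs₃) (by simp) (by simp) hl₃
            (Or.inl hy₃) (hpq1 _ hs₃).1 (hpq1 _ hs₃).2 (by
              intro z hz
              simp only [hU, Finset.mem_union, List.mem_toFinset]
              exact Or.inr (Or.inr hz))
          refine ⟨π, hπ, ?_⟩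
          intro hc
          rcases hmem c hc with h | ⟨h, -⟩ | ⟨-, z, hz, hz1⟩
          · exact h.2.2 hc2
          · exact Finset.disjoint_left.1 hd (h ▸ ha₁) hc2
          · have := hl₃.mem z hz
            rw [Finset.mem_coe, Finset.mem_sdiff] at this
            exact this.2 hz1
        · by_cases hcP : c ∈ P₀
          · obtain ⟨s, hs, y, hy, hw⟩ := hfw c hc1 hc2
            obtain ⟨π, hπ, hmem⟩ := proj (Γ := Γ) (U := U) (a₁ := y₃) (a₂ := y₂)
              (A := {p, q}) (B := {y₃, y₂}) (by simpa using hs) (by simp) (by simp) hw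
              hy (hpq1 _ hs).1 (hpq1 _ hs).2 (by
                intro z hz
                simp only [hU, Finset.mem_union, List.mem_toFinset, Finset.mem_biUnion]
                exact Or.inl (Or.inr ⟨c, hcP, hz⟩))
            refine ⟨π, hπ, ?_⟩
            intro hc
            rcases hmem c hc with h | ⟨h, -⟩ | ⟨h, -⟩
            · have := hw.mem c h.1
              rw [Finset.mem_coe, Finset.mem_sdiff] at this
              exact this.2 (by simp)
            · exact hc1 (h ▸ ha₁)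
            · exact hc2 (h ▸ ha₂)
          · obtain ⟨s, hs, y, hy, hw⟩ := hfw p hp1 hp2
            obtain ⟨π, hπ, hmem⟩ := proj (Γ := Γ) (U := U) (a₁ := y₃) (a₂ := y₂)
              (A := {p, q}) (B := {y₃, y₂}) (by simpa using hs) (by simp) (by simp) hw
              hy (hpq1 _ hs).1 (hpq1 _ hs).2 (by
                intro z hz
                simp only [hU, Finset.mem_union, List.mem_toFinset, Finset.mem_biUnion]
                exact Or.inl (Or.inl hz))
            refine ⟨π, hπ, ?_⟩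
            intro hc
            rcases hmem c hc with h | ⟨h, -⟩ | ⟨h, -⟩
            · exact hcP h.1
            · exact hc1 (h ▸ ha₁)
            · exact hc2 (h ▸ ha₂)
    haveI : Nonempty V := ⟨p⟩
    rcases Finset.card_le_one_iff_subset_singleton.1 hcard1 with ⟨c, hc⟩
    obtain ⟨π, hπ, hcπ⟩ := hkey c
    obtain ⟨v, hv, hvT⟩ := hT π hπ
    have := Finset.mem_singleton.1 (hc hvT)
    exact hcπ (this ▸ hv))
  obtain ⟨s, e, y, l, hs, hsπ, heπ, hey, hl, hlm⟩ := lift ha₁ ha₂ hd hp1 hp2 hq1 hq2 (hP 0)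
  obtain ⟨s', e', y', l', hs', hsπ', heπ', hey', hl', hlm'⟩ :=
    lift ha₁ ha₂ hd hp1 hp2 hq1 hq2 (hP 1)
  have hdis : List.Disjoint (P 0) (P 1) := hPd 0 1 (by decide)
  have hss : s ≠ s' := fun h => hdis hsπ (h ▸ hsπ')
  have hee : e ≠ e' := fun h => hdis heπ (h ▸ heπ')
  have hUS' : (U : Set V) ⊆ (S : Set V) := by exact_mod_cast hUS
  have hyA : y ∈ A₁ ∨ y ∈ A₂ := by
    rcases hey with h | h
    · exact Or.inl h.2
    · exact Or.inr h.2
  have hyA' : y' ∈ A₁ ∨ y' ∈ A₂ := by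
    rcases hey' with h | h
    · exact Or.inl h.2
    · exact Or.inr h.2
  have hyy : y ≠ y' := by
    rintro rfl
    rcases hey with h | h
    · rcases hey' with h' | h'
      · exact hee (h.1.trans h'.1.symm)
      · exact Finset.disjoint_left.1 hd h.2 h'.2
    · rcases hey' with h' | h'
      · exact Finset.disjoint_left.1 hd h'.2 h.2
      · exact hee (h.1.trans h'.1.symm)
  have hd1 : List.Disjoint l l' := by
    intro z hz hz'
    rcases hlm z hz with h | h
    · rcases hlm' z hz' with h' | h'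
      · exact hyy (h.symm.trans h')
      · rw [h] at h'
        rcases hyA with h2 | h2
        · exact h'.2.1 h2
        · exact h'.2.2 h2
    · rcases hlm' z hz' with h' | h'
      · rw [h'] at h
        rcases hyA' with h2 | h2
        · exact h.2.1 h2
        · exact h.2.2 h2
      · exact hdis h.1 h'.1
  have hz1 : ∀ z ∈ l, z ∈ A₁ ∨ z ∈ A₂ → z = y := by
    intro z hz hzA
    rcases hlm z hz with h | h
    · exact h
    · rcases hzA with h2 | h2
      · exact absurd h2 h.2.1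
      · exact absurd h2 h.2.2
  have hz2 : ∀ z ∈ l', z ∈ A₁ ∨ z ∈ A₂ → z = y' := by
    intro z hz hzA
    rcases hlm' z hz with h | h
    · exact h
    · rcases hzA with h2 | h2
      · exact absurd h2 h.2.1
      · exact absurd h2 h.2.2
  have hlen1 : l.length ≤ (ρ + 4) ^ 2 := hl.length_le.trans hUcard
  have hlen2 : l'.length ≤ (ρ + 4) ^ 2 := hl'.length_le.trans hUcard
  have hsp : (s = p ∧ s' = q) ∨ (s = q ∧ s' = p) := by
    rcases hs with h | h
    · rcases hs' with h' | h'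
      · exact absurd (h.trans h'.symm) hss
      · exact Or.inl ⟨h, h'⟩
    · rcases hs' with h' | h'
      · exact Or.inr ⟨h, h'⟩
      · exact absurd (h.trans h'.symm) hss
  rcases hey with h | h
  · rcases hey' with h' | h'
    · exact absurd (h.1.trans h'.1.symm) hee
    · exact ⟨s, s', y, y', l, l', hsp, h.2, h'.2, hl.mono hUS', hl'.mono hUS', hd1, hz1, hz2,
        hlen1, hlen2⟩
  · rcases hey' with h' | h'
    · refine ⟨s', s, y', y, l', l, ?_, h'.2, h.2, hl'.mono hUS', hl.mono hUS', hd1.symm, hz2, hz1,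
        hlen2, hlen1⟩
      rcases hsp with h0 | h0
      · exact Or.inr ⟨h0.2, h0.1⟩
      · exact Or.inl ⟨h0.2, h0.1⟩
    · exact absurd (h.1.trans h'.1.symm) hee

end Pool.Agent.Lib.MP_b6048d_co.F
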