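import Pool.Agent.Lib.MP_b6048d_co.F.SpecA

set_option autoImplicit false

/-!
# A25 LinkH: the linking lemma in `H`
-/

open scoped Classical

namespace Pool.Agent.Lib.MP_b6048d_co.F.LinkHAux

open Pool.Agent.Lib.MP_b6048d_co.F

variable {V : Type}

lemma forty_pos {H : Finset V} (k : ℕ) (hk : 1 ≤ k) : 0 < 40 * Lg H ^ 2 * k := by
  have h4 : 0 < Lg H := by unfold Lg; omega
  positivity

/-- From a port set to a target set, avoiding a forbidden set. -/
lemma joinWalk (hC : Conn) {Γ : SimpleGraph V} {D : ℝ} {H : Finset V} (hD : 1 ≤ D)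
    (hM : MinD Γ (tau D) H) {F B A' T : Finset V} {s : V} {r : ℕ}
    (hB : B ⊆ H \ F) (hA' : A' ⊆ H \ F) (hBn : B.Nonempty) (hAn : A'.Nonempty)
    (h1 : 40 * Lg H ^ 2 * F.card ≤ B.card) (h2 : 40 * Lg H ^ 2 * F.card ≤ A'.card)
    (hT : H \ F ⊆ T) (hcon : ConS Γ s r B) :
    ∃ y ∈ A', ∃ l, Wk Γ (T : Set V) s y l ∧ l.length ≤ 28 * Lg H ^ 3 + r + 1 := by
  obtain ⟨a, ha, a', ha', l, hl, hlen⟩ := hC V Γ D H hD hM F B A' hB hA' hBn hAn h1 h2
  obtain ⟨l₀, hl₀, hlen₀⟩ := hcon.con a ha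
  have e₀ : Wk Γ (T : Set V) s a l₀ := hl₀.mono (by
    intro x hx
    exact_mod_cast hT (hB (by exact_mod_cast hx)))
  have e₁ : Wk Γ (T : Set V) a a' l := hl.mono (by
    intro x hx
    exact_mod_cast hT (by exact_mod_cast hx))
  refine ⟨a', ha', l₀ ++ l.tail, e₀.append e₁, ?_⟩
  have := e₀.append_length e₁
  omega

end Pool.Agent.Lib.MP_b6048d_co.F.LinkHAux

namespace Pool.Agent.Lib.MP_b6048d_co.F

open LinkHAux

theorem linkH (hC : Conn) (hL : Link2) : LinkH := by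
  intro V Γ D H hD hM O B₁ B₁' B₂ p q r Y hpq hp hq hB₁'S hB₂S hdis hpB₁' hpB₂ hqB₁' hqB₂
    hB₁n hHat hc1 hc2 hcY hPp hPq
  have hB₁B₁' : B₁ ⊆ B₁' := hHat.sub
  have hB₂n : B₂.Nonempty := by
    rw [← Finset.card_pos]
    exact lt_of_lt_of_le (forty_pos _ (by omega)) hc2
  have hB₁'n : B₁'.Nonempty := by
    rw [← Finset.card_pos]
    exact lt_of_lt_of_le (forty_pos _ (by omega)) hc1
  have hYpos : 0 < Y := lt_of_lt_of_le (forty_pos _ (by omega)) hcY
  have hmono : ∀ a b : ℕ, a ≤ b → 40 * Lg H ^ 2 * a ≤ 40 * Lg H ^ 2 * b :=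
    fun a b hab => Nat.mul_le_mul_left _ hab
  -- port set for `p` avoiding `q`
  obtain ⟨B, hBS, hBY, hBcon, -, -⟩ := hPp q hpq.symm
  have hBn : B.Nonempty := by
    rw [← Finset.card_pos]; omega
  have hρ : (28 * Lg H ^ 3 + 2 * r + 4) ^ 2 = ((28 * Lg H ^ 3 + 2 * r) + 4) ^ 2 := rfl
  rw [hρ]
  refine hL V Γ (H \ O) B₁ B₂ p q (28 * Lg H ^ 3 + 2 * r) hpq hp hq (hB₁B₁'.trans hB₁'S) hB₂S
    (Finset.disjoint_of_subset_left hB₁B₁' hdis) (fun h => hpB₁' (hB₁B₁' h)) hpB₂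
    (fun h => hqB₁' (hB₁B₁' h)) hqB₂ ?_ ?_ ?_
  · -- (i)
    intro c hcB₁ hcB₂
    obtain ⟨s, hs, hsc, hport⟩ : ∃ s, (s = p ∨ s = q) ∧ c ≠ s ∧
        Port Γ (H \ (O ∪ B₁' ∪ B₂)) {p, q} Y r s := by
      by_cases hcp : c = p
      · exact ⟨q, Or.inr rfl, by rw [hcp]; exact hpq, hPq⟩
      · exact ⟨p, Or.inl rfl, hcp, hPp⟩
    obtain ⟨E, hES, hEY, hEcon, hcE, -⟩ := hport c hsc
    have hEn : E.Nonempty := by
      rw [← Finset.card_pos]; omega
    have hcard : (insert c O).card ≤ O.card + 1 := Finset.card_insert_le _ _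
    obtain ⟨y, hy, l, hl, hlen⟩ := joinWalk hC hD hM (F := insert c O) (B := E) (A' := B₂)
      (T := (H \ O) \ {c}) (s := s) (r := r)
      (by
        intro x hx
        have h1 := hES hx
        simp only [Finset.mem_sdiff, Finset.mem_union, Finset.mem_insert, not_or] at h1 ⊢
        exact ⟨h1.1, fun h => hcE (h ▸ hx), h1.2.1.1⟩)
      (by
        intro x hx
        have h1 := hB₂S hx
        simp only [Finset.mem_sdiff, Finset.mem_insert, not_or] at h1 ⊢
        exact ⟨h1.1, fun h => hcB₂ (h ▸ hx), h1.2⟩)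
      hEn hB₂n
      (le_trans (hmono _ _ (by omega)) (hcY.trans hEY))
      (le_trans (hmono _ _ (by omega)) hc2)
      (by
        intro x hx
        simp only [Finset.mem_sdiff, Finset.mem_insert, not_or, Finset.mem_singleton] at hx ⊢
        exact ⟨⟨hx.1, hx.2.2⟩, hx.2.1⟩)
      hEcon
    exact ⟨s, hs, y, Or.inr hy, l, hl, by omega⟩
  · -- (ii)
    have hcard : (O ∪ B₁).card ≤ O.card + B₁.card := Finset.card_union_le _ _
    obtain ⟨y, hy, l, hl, hlen⟩ := joinWalk hC hD hM (F := O ∪ B₁) (B := B) (A' := B₂)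
      (T := (H \ O) \ B₁) (s := p) (r := r)
      (by
        intro x hx
        have h1 := hBS hx
        simp only [Finset.mem_sdiff, Finset.mem_union, not_or] at h1 ⊢
        exact ⟨h1.1, h1.2.1.1, fun h => h1.2.1.2 (hB₁B₁' h)⟩)
      (by
        intro x hx
        have h1 := hB₂S hx
        simp only [Finset.mem_sdiff, Finset.mem_union, not_or] at h1 ⊢
        exact ⟨h1.1, h1.2, fun h => Finset.disjoint_left.1 hdis (hB₁B₁' h) hx⟩)
      hBn hB₂n
      (le_trans (hmono _ _ (by omega)) (hcY.trans hBY))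
      (le_trans (hmono _ _ (by omega)) hc2)
      (by
        intro x hx
        simp only [Finset.mem_sdiff, Finset.mem_union, not_or] at hx ⊢
        exact ⟨⟨hx.1, hx.2.1⟩, hx.2.2⟩)
      hBcon
    exact ⟨p, Or.inl rfl, y, hy, l, hl, by omega⟩
  · -- (iii)
    have hcard : (O ∪ B₂).card ≤ O.card + B₂.card := Finset.card_union_le _ _
    obtain ⟨y, hy, l, hl, hlen⟩ := joinWalk hC hD hM (F := O ∪ B₂) (B := B) (A' := B₁')
      (T := (H \ O) \ B₂) (s := p) (r := r)
      (by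
        intro x hx
        have h1 := hBS hx
        simp only [Finset.mem_sdiff, Finset.mem_union, not_or] at h1 ⊢
        exact ⟨h1.1, h1.2.1.1, h1.2.2⟩)
      (by
        intro x hx
        have h1 := hB₁'S hx
        simp only [Finset.mem_sdiff, Finset.mem_union, not_or] at h1 ⊢
        exact ⟨h1.1, h1.2, fun h => Finset.disjoint_left.1 hdis hx h⟩)
      hBn hB₁'n
      (le_trans (hmono _ _ (by omega)) (hcY.trans hBY))
      (le_trans (hmono _ _ (by omega)) hc1)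
      (by
        intro x hx
        simp only [Finset.mem_sdiff, Finset.mem_union, not_or] at hx ⊢
        exact ⟨⟨hx.1, hx.2.1⟩, hx.2.2⟩)
      hBcon
    obtain ⟨a, ha, l', hl', hlen'⟩ := hHat.con y hy
    have e' : Wk Γ (((H \ O) \ B₂ : Finset V) : Set V) y a l'.reverse := hl'.reverse.mono (by
      intro x hx
      have hx' : x ∈ B₁' := by exact_mod_cast hx
      have h1 := hB₁'S hx'
      have h2 : x ∉ B₂ := fun h => Finset.disjoint_left.1 hdis hx' h
      exact_mod_cast Finset.mem_sdiff.2 ⟨h1, h2⟩)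
    refine ⟨p, Or.inl rfl, a, ha, l ++ l'.reverse.tail, hl.append e', ?_⟩
    have := hl.append_length e'
    rw [List.length_reverse] at this
    omega

end Pool.Agent.Lib.MP_b6048d_co.F
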