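import Pool.Agent.Lib.MP_b6048d_co.F.SpecA

set_option autoImplicit false

/-! A11 LocLemma: a large connected set avoiding a thin set is close to the centre. -/

open scoped Classical

namespace Pool.Agent.Lib.MP_b6048d_co.F

namespace LocLemmaAux

theorem num1 (L : ℕ) (hL : 40 ≤ L) : L + 28 * L ^ 3 + 2 * L ≤ L ^ 4 := by
  have h1 : L ≤ L ^ 3 := by
    calc L = L ^ 1 := (pow_one L).symm
      _ ≤ L ^ 3 := Nat.pow_le_pow_right (by omega) (by norm_num)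
  have h2 : 40 * L ^ 3 ≤ L ^ 4 := by
    calc 40 * L ^ 3 ≤ L * L ^ 3 := Nat.mul_le_mul_right _ hL
      _ = L ^ 4 := by ring
  omega

theorem num2 (L w : ℕ) (hL : 40 ≤ L) (hw : w ≤ L ^ 15) : 40 * L ^ 2 * w ≤ L ^ 18 := by
  calc 40 * L ^ 2 * w ≤ 40 * L ^ 2 * L ^ 15 := Nat.mul_le_mul_left _ hw
    _ = 40 * L ^ 17 := by ring
    _ ≤ L * L ^ 17 := Nat.mul_le_mul_right _ hL
    _ = L ^ 18 := by ring

theorem sdiff_inter_eq {V : Type} (H W : Finset V) : H \ (W ∩ H) = H \ W := by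
  ext y
  rw [Finset.mem_sdiff, Finset.mem_sdiff, Finset.mem_inter]
  constructor
  · rintro ⟨h1, h2⟩
    exact ⟨h1, fun h3 => h2 ⟨h3, h1⟩⟩
  · rintro ⟨h1, h2⟩
    exact ⟨h1, fun h3 => h2 h3.1⟩

theorem chain_bl {V : Type} {Γ : SimpleGraph V} {S A : Finset V} (hA : A ⊆ S) {x a a' z : V}
    {l l' : List V} (i j k m : ℕ) (hm : i + j + k ≤ m) (ha : a ∈ bl Γ S {x} i)
    (hl : Wk Γ (S : Set V) a a' l) (hlen : l.length ≤ j + 1)
    (hl' : Wk Γ (A : Set V) z a' l') (hlen' : l'.length ≤ k + 1) : z ∈ bl Γ S {x} m := by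
  have h1 : a' ∈ bl Γ S {a} j := mem_bl_single.2 ⟨l, hl, hlen⟩
  have h2 : a' ∈ bl Γ S {z} k :=
    mem_bl_single.2 ⟨l', hl'.mono (by exact_mod_cast hA), hlen'⟩
  exact bl_mono hm (bl_trans (bl_trans ha h1) (bl_symm h2))

end LocLemmaAux

open LocLemmaAux in
theorem locLemma (hM : MinBasics) (hB : ThinBall) (hS : ThinSmall) (hC : Conn) : LocLemma := by
  intro κ
  obtain ⟨D₁, hD₁, H₁⟩ := hB κ 18
  obtain ⟨D₂, hD₂, H₂⟩ := hS κ
  obtain ⟨D₃, hD₃, H₃⟩ := hM.2 40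
  refine ⟨max D₁ (max D₂ D₃), le_trans hD₁ (le_max_left _ _), ?_⟩
  intro V Γ D H hD hMin W x hxH hxW hT A z hA hcard hcon
  have hd1 : D₁ ≤ D := le_trans (le_max_left _ _) hD
  have hd2 : D₂ ≤ D := le_trans (le_trans (le_max_left _ _) (le_max_right _ _)) hD
  have hd3 : D₃ ≤ D := le_trans (le_trans (le_max_right _ _) (le_max_right _ _)) hD
  have hD1 : 1 ≤ D := le_trans hD₁ hd1
  have hL : 40 ≤ Lg H := (H₃ V Γ D H hd3 hMin).1
  have hball := H₁ V Γ D H hd1 hMin W x hxH hxW hT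
  have hsmall := H₂ V Γ D H hd2 hMin W x hxH hxW hT
  have hset : H \ (W ∩ H) = H \ W := sdiff_inter_eq H W
  have hx : x ∈ H \ W := Finset.mem_sdiff.2 ⟨hxH, hxW⟩
  have hnum := num2 (Lg H) _ hL hsmall
  have hAne : A.Nonempty := ⟨z, hcon.mem⟩
  have e1 : 40 * Lg H ^ 2 * (W ∩ H).card ≤ (bl Γ (H \ W) {x} (Lg H)).card := le_trans hnum hball
  have e2 : 40 * Lg H ^ 2 * (W ∩ H).card ≤ A.card := le_trans hnum hcard
  have e3 : bl Γ (H \ W) {x} (Lg H) ⊆ H \ (W ∩ H) := by rw [hset]; exact bl_subset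
  have e4 : A ⊆ H \ (W ∩ H) := by rw [hset]; exact hA
  have e5 : (bl Γ (H \ W) {x} (Lg H)).Nonempty := ⟨x, self_mem_bl hx⟩
  have e6 := hC V Γ D H hD1 hMin (W ∩ H) (bl Γ (H \ W) {x} (Lg H)) A e3 e4 e5 hAne e1 e2
  obtain ⟨a, ha, a', ha', l, hl, hlen⟩ := e6
  rw [hset] at hl
  obtain ⟨l', hl', hlen'⟩ := hcon.con a' ha'
  exact chain_bl hA (Lg H) (28 * Lg H ^ 3) (2 * Lg H) (Lg H ^ 4) (num1 (Lg H) hL) ha hl hlen
    hl' hlen'

end Pool.Agent.Lib.MP_b6048d_co.F
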