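import Pool.Agent.Lib.MP_b6048d_co.F.SpecC

set_option autoImplicit false

/-!
# C02: odd cycles with two vertices in a blob are long
-/

open scoped Classical

namespace Pool.Agent.Lib.MP_b6048d_co.F.LongOddAux

open Pool.Agent.Lib.MP_b6048d_co.F

lemma thin_mono {V : Type} {Γ : SimpleGraph V} {κ κ' : ℕ} {H W : Finset V} {u : V} (h : κ ≤ κ')
    (ht : Thin Γ κ H W u) : Thin Γ κ' H W u :=
  fun i => (ht i).trans (Nat.mul_le_mul_right _ h)

/-- one arc of the required parity leads to a contradiction -/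
lemma arc_false {V : Type} {G Γ : SimpleGraph V} {col : V → Bool} {H : Finset V}
    {κ C lam y : ℕ} (hΓ : Γ ≤ G) (hlam : 3 ≤ lam) (hblob : Blob κ C lam Γ col H)
    {Q : List V} (hlen : Q.length ≤ lam ^ 200) {u v : V} (huH : u ∈ H) (hvH : v ∈ H)
    (huv : u ≠ v) (htu : Thin Γ κ H (Q.toFinset \ {u, v}) u)
    (htv : Thin Γ κ H (Q.toFinset \ {u, v}) v) (hy1 : 2 * lam ^ 201 + 1 ≤ y) (hy2 : y ≤ lam ^ C)
    (hmiss : Missing G y) {l : List V} (hl : Pth G {z | z ∈ Q} u v l) (hll : l.length ≤ Q.length)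
    (hpar : Even (y - (l.length - 1)) ↔ col u = col v) : False := by
  have h1 : 1 ≤ l.length := hl.toWk.length_pos
  have hp1 : lam ^ 200 ≤ lam ^ 201 := Nat.pow_le_pow_right (by omega) (by norm_num)
  have hp2 : lam ≤ lam ^ 201 := Nat.le_self_pow (by norm_num) lam
  have hW : ∀ z, z ∉ Q.toFinset \ {u, v} → z ∈ Q → z = u ∨ z = v := by
    intro z hz hzQ
    by_contra hcon
    apply hz
    rw [Finset.mem_sdiff, List.mem_toFinset, Finset.mem_insert, Finset.mem_singleton]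
    exact ⟨hzQ, hcon⟩
  obtain ⟨p, hp, hplen, -⟩ := hblob.paths (Q.toFinset \ {u, v}) u huH v hvH (by simp) (by simp) huv
    htu htv (y - (l.length - 1)) (by omega) (by omega) hpar
  have hp' : Pth G Set.univ u v p := (hp.monoG hΓ).mono (Set.subset_univ _)
  have hl' : Pth G Set.univ u v l := hl.mono (Set.subset_univ _)
  obtain ⟨D, hD, hDlen, -⟩ := Pth.theta hl' hp' (by
    intro z hz hzp
    have h2 : z ∈ ((H \ (Q.toFinset \ {u, v}) : Finset V) : Set V) := hp.mem z hzp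
    rw [Finset.mem_coe, Finset.mem_sdiff] at h2
    exact hW z h2.2 (hl.mem z hz)) (by omega) huv
  apply hmiss D hD
  omega

end Pool.Agent.Lib.MP_b6048d_co.F.LongOddAux

namespace Pool.Agent.Lib.MP_b6048d_co.F

open LongOddAux in
theorem longOdd (h : ShortOddThin) : LongOdd := by
  intro V G Γ col H κ C lam A R hA hmiss hΓ hκ hC hlam hR hblob Q hQ hodd hex
  by_contra hcon
  push Not at hcon
  -- a shortest odd cycle with two vertices in `H`
  have hP : ∃ n, ∃ Q' : List V, IsCyc G Q' ∧ Odd Q'.length ∧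
      (∃ a ∈ Q', ∃ b ∈ Q', a ≠ b ∧ a ∈ H ∧ b ∈ H) ∧ Q'.length = n := ⟨_, Q, hQ, hodd, hex, rfl⟩
  obtain ⟨Q₀, hQ₀, hodd₀, ⟨u, hu, v, hv, huv, huH, hvH⟩, hlen₀⟩ := Nat.find_spec hP
  have hmin : ∀ Q' : List V, IsCyc G Q' → Odd Q'.length →
      (∃ a ∈ Q', ∃ b ∈ Q', a ≠ b ∧ a ∈ H ∧ b ∈ H) → Q₀.length ≤ Q'.length := by
    intro Q' h1 h2 h3
    rw [hlen₀]
    exact Nat.find_min' hP ⟨Q', h1, h2, h3, rfl⟩
  have hlen : Q₀.length ≤ lam ^ 200 := (hmin Q hQ hodd hex).trans hcon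
  have htu : Thin Γ κ H (Q₀.toFinset \ {u, v}) u :=
    thin_mono hκ (h V G Γ H Q₀ u v hΓ hQ₀ hodd₀ hu hv huv huH hvH hmin)
  have htv : Thin Γ κ H (Q₀.toFinset \ {u, v}) v := by
    have h1 := thin_mono hκ (h V G Γ H Q₀ v u hΓ hQ₀ hodd₀ hv hu huv.symm hvH huH hmin)
    rwa [Finset.pair_comm] at h1
  have hRs : R ≤ lam ^ 201 := hR.trans (Nat.le_self_pow (by norm_num) lam)
  obtain ⟨y, hy1, hy2, hym⟩ := hmiss (lam ^ 201) hRs
  have hyC : y ≤ lam ^ C := by
    refine hy2.trans ?_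
    rw [← pow_mul]
    exact Nat.pow_le_pow_right (by omega) (by nlinarith)
  obtain ⟨l, l', hl, hl', hsum, -, -⟩ := cyc_arcs hQ₀ hu hv huv
  have h2 := hl.two_le huv
  have h2' := hl'.two_le huv
  by_cases hpar : Even (y - (l.length - 1)) ↔ col u = col v
  · exact arc_false hΓ hlam hblob hlen huH hvH huv htu htv hy1 hyC hym hl (by omega) hpar
  · refine arc_false hΓ hlam hblob hlen huH hvH huv htu htv hy1 hyC hym hl' (by omega) ?_
    have hp1 : lam ^ 200 ≤ lam ^ 201 := Nat.pow_le_pow_right (by omega) (by norm_num)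
    have hneg : Even (y - (l'.length - 1)) ↔ ¬ Even (y - (l.length - 1)) := by
      obtain ⟨k, hk⟩ := hodd₀
      have e1 : (y - (l.length - 1)) + (y - (l'.length - 1)) = 2 * (y - k) - 1 := by omega
      have e2 : 1 ≤ y - k := by omega
      rw [Nat.even_iff, Nat.even_iff]
      omega
    rw [hneg]
    tauto

end Pool.Agent.Lib.MP_b6048d_co.F
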