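import Pool.Agent.Lib.MP_b6048d_co.F.SpecD

set_option autoImplicit false

/-!
D08: the nested layers theorem for subgraphs of balls.
-/

open scoped Classical

namespace Pool.Agent.Lib.MP_b6048d_co.F.MainSubAux

open Pool.Agent.Lib.MP_b6048d_co

variable {V : Type*}

lemma cyc_mono {G G' : SimpleGraph V} (h : G ≤ G') {D : List V} (hD : IsCyc G D) :
    IsCyc G' D :=
  ⟨hD.len, hD.nodup, hD.chain.imp fun _ _ hab => h hab,
    fun a ha b hb => h (hD.closed a ha b hb)⟩

/-- Cycles of all lengths from a long cycle in a layer of a subgraph of a layer. -/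
theorem all_lengths' {G F' : SimpleGraph V} (L : Levelling G) (i : ℕ) (L' : Levelling F')
    (hF' : F' ≤ L.layer i) (j : ℕ) {C : List V} (hC : IsCyc (L'.layer j) C) (ℓ : ℕ)
    (h1 : 2 * i + 1 ≤ ℓ) (h2 : ℓ ≤ C.length) : ∃ D, IsCyc G D ∧ D.length = ℓ := by
  classical
  obtain ⟨D, r, hr, hD', heven, hr2, hrn, hchord', hCD⟩ := exists_chorded L' j hC
  have hD : IsCyc (L.layer i) D := cyc_mono hF' hD'
  have hchord := hF' hchord'
  obtain ⟨v, hper, hinj, hadj, hget, hmem⟩ := cyc_fun hD
  have hDlen := hD.len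
  -- levels and roots
  have hlev : ∀ k, L.lev (v k) = i := fun k => (hadj k).2.1
  have hroot : ∀ x ∈ D, ∀ y ∈ D, L.root x = L.root y :=
    chain_const (fun x y hxy => L.root_adj x y hxy) D (hD.chain.imp fun a b hab => hab.1)
  have hexk : ∃ k, ∀ a b, L.par^[k] (v a) = L.par^[k] (v b) := by
    refine ⟨i, ?_⟩
    intro a b
    have h3 := L.iter_lev (v a)
    have h4 := L.iter_lev (v b)
    rw [hlev] at h3 h4
    rw [h3, h4]
    exact hroot _ (hmem a) _ (hmem b)
  have hk0 : Nat.find hexk ≠ 0 := by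
    intro h0
    have h3 := Nat.find_spec hexk 0 1
    rw [h0] at h3
    simp only [Function.iterate_zero, id] at h3
    have h4 := hinj _ _ h3
    have h5 : (D.length : ℤ) ∣ 1 := by
      have : (0 : ℤ) - 1 = -1 := by ring
      rw [this] at h4
      exact (dvd_neg.1 h4)
    have := Int.le_of_dvd (by omega) h5
    omega
  obtain ⟨h0, hh0⟩ : ∃ h0, Nat.find hexk = h0 + 1 := ⟨Nat.find hexk - 1, by omega⟩
  have hconst : ∀ a b, L.par^[h0 + 1] (v a) = L.par^[h0 + 1] (v b) := by
    rw [← hh0]; exact Nat.find_spec hexk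
  have hh0i : h0 + 1 ≤ i := by
    rw [← hh0]
    apply Nat.find_min'
    intro a b
    have h3 := L.iter_lev (v a)
    have h4 := L.iter_lev (v b)
    rw [hlev] at h3 h4
    rw [h3, h4]
    exact hroot _ (hmem a) _ (hmem b)
  have hnc : ∃ a b, (L.par^[h0]) (v a) ≠ (L.par^[h0]) (v b) := by
    have h3 := Nat.find_min hexk (show h0 < Nat.find hexk by omega)
    push Not at h3
    exact h3
  -- the path
  obtain ⟨p, hp⟩ : ∃ p, ℓ = p + 2 * h0 + 2 := ⟨ℓ - (2 * h0 + 2), by omega⟩
  have hch : (L.layer i).Adj (v 0) (v r) := by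
    have e1 := hget 0 (by omega)
    have e2 := hget r hr
    simp only [Nat.cast_zero] at e1
    rw [e1, e2]; exact hchord
  obtain ⟨l, hl1, hl2, hl3, hl4, a, ha, b, hb, hab⟩ := theta_paths hper hinj hadj hr2 hrn hch
    heven (L.par^[h0]) hnc (p := p) (by omega) (by omega)
  have haD : ∃ k, a = v k := hl4 a (List.mem_of_mem_head? ha)
  have hbD : ∃ k, b = v k := hl4 b (List.mem_of_getLast? hb)
  obtain ⟨ka, rfl⟩ := haD
  obtain ⟨kb, rfl⟩ := hbD
  obtain ⟨E, hE1, hE2, hE3, hE4⟩ := L.ear h0 (v kb) (v ka) (by rw [hlev, hlev])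
    (by rw [hlev]; exact hh0i) (by
      intro k hk he
      apply hab
      have e1 : h0 = (h0 - k) + k := by omega
      rw [e1, Function.iterate_add_apply, Function.iterate_add_apply, he]) (hconst _ _)
  obtain ⟨e, E', hEe⟩ : ∃ e E', E = e :: E' := by
    cases E with
    | nil => simp at hE1
    | cons e E' => exact ⟨e, E', rfl⟩
  refine ⟨l ++ E, ⟨?_, ?_, ?_, ?_⟩, ?_⟩
  · rw [List.length_append]; omega
  · rw [List.nodup_append']
    refine ⟨hl2, ?_, ?_⟩
    · have h3 := (List.nodup_cons.1 hE3).2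
      rw [List.nodup_append'] at h3
      exact h3.1
    · intro z hz hz'
      obtain ⟨k, rfl⟩ := hl4 z hz
      have h3 := hE4 _ hz'
      rw [hlev, hlev] at h3
      omega
  · rw [List.isChain_append]
    have h3 := List.isChain_cons.1 hE2
    refine ⟨hl1.imp fun _ _ hxy => hxy.1, ?_, ?_⟩
    · have h4 := h3.2
      rw [List.isChain_append] at h4
      exact h4.1
    · intro x hx y hy
      have hxb : v kb = x := by
        rw [Option.mem_def] at hb hx
        rw [hb] at hx
        exact Option.some.inj hx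
      rw [← hxb]
      apply h3.1
      rw [hEe] at hy ⊢
      simpa using hy
  · intro x hx y hy
    have hxa : v ka = x := by
      rw [List.head?_append] at hx
      rw [Option.mem_def] at ha hx
      rw [ha] at hx
      simpa using hx
    rw [← hxa]
    have h3 := (List.isChain_cons.1 hE2).2
    rw [List.isChain_append] at h3
    apply h3.2.2
    · rw [List.getLast?_append] at hy
      rw [hEe] at hy ⊢
      have : (e :: E').getLast? = some ((e :: E').getLast (by simp)) :=
        List.getLast?_eq_getLast_of_ne_nil (by simp)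
      rw [this] at hy ⊢
      simpa using hy
    · simp
  · rw [List.length_append]; omega

/-- If all `F ⊓ layer i` are `k`-colourable then `F` is `2 k`-colourable. -/
lemma colorable_sub {G F : SimpleGraph V} (L : Levelling G) (hF : F ≤ G) {k : ℕ}
    (h : ∀ i, (F ⊓ L.layer i).Colorable k) : F.Colorable (2 * k) := by
  have C := fun i => (h i).some
  let col : F.Coloring (Bool × Fin k) := SimpleGraph.Coloring.mk
    (fun x => ((L.lev x).bodd, C (L.lev x) x)) (by
      intro x y hxy he
      have h1 := (Prod.mk.inj he).1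
      have h2 := (Prod.mk.inj he).2
      have h3 := bodd_eq_of_le h1 (L.lip x y (hF hxy)) (L.lip y x (hF hxy.symm))
      rw [← h3] at h2
      exact (C (L.lev x)).valid
        (show (F ⊓ L.layer (L.lev x)).Adj x y from ⟨hxy, hF hxy, rfl, h3.symm⟩) h2)
  have := col.colorable
  simpa using this

end Pool.Agent.Lib.MP_b6048d_co.F.MainSubAux

namespace Pool.Agent.Lib.MP_b6048d_co.F

open Pool.Agent.Lib.MP_b6048d_co

theorem mainSub : MainSub := by
  intro V G F v₀ r ρ c M hFG hρ hc hrad hloc hG ℓ h1 h2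
  set K := (25 * M ^ 2 + 30 * M + 2) * c with hK
  obtain ⟨L, -, hL⟩ := exists_levelling G
    (fun x => if G.Reachable v₀ x then v₀ else Quot.out (G.connectedComponentMk x)) (by
      intro x
      split_ifs with hx
      · exact hx
      · apply SimpleGraph.ConnectedComponent.exact
        exact Quot.out_eq _) (by
      intro x y hxy
      by_cases hx : G.Reachable v₀ x
      · have hy : G.Reachable v₀ y := hx.trans hxy.reachable
        simp only [hx, hy, if_true]
      · have hy : ¬ G.Reachable v₀ y := fun hy => hx (hy.trans hxy.symm.reachable)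
        simp only [hx, hy, if_false]
        rw [SimpleGraph.ConnectedComponent.sound hxy.reachable])
  have hlev : ∀ x y, F.Adj x y → L.lev x ≤ r := by
    intro x y hxy
    obtain ⟨p, hp⟩ := hrad x y hxy
    rw [hL]
    simp only [p.reachable, if_true]
    exact (SimpleGraph.dist_le p).trans hp
  have hi : ∃ i, ¬ (F ⊓ L.layer i).Colorable (2 * K) := by
    by_contra hcon
    push Not at hcon
    apply hG
    have := MainSubAux.colorable_sub L hFG hcon
    have e1 : 2 * (2 * K) = 4 * K := by ring
    rwa [e1] at this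
  obtain ⟨i, hi⟩ := hi
  obtain ⟨L'⟩ := exists_levelling' (F ⊓ L.layer i)
  have hj : ∃ j, ¬ (L'.layer j).Colorable K := by
    by_contra hcon
    push Not at hcon
    exact hi (L'.colorable hcon)
  obtain ⟨j, hj⟩ := hj
  have hle : L'.layer j ≤ F := (L'.layer_le j).trans inf_le_left
  have hloc' : Loc (L'.layer j) ρ c := by
    intro v
    obtain ⟨θ, hθ⟩ := hloc v
    refine ⟨θ, ?_⟩
    have hwd : ∀ x, Wd (L'.layer j) ρ v x → Wd F ρ v x := by
      rintro x ⟨p, hp⟩
      exact ⟨p.mapLe hle, by rw [SimpleGraph.Walk.length_mapLe]; exact hp⟩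
    intro x y hxy hx hy
    exact hθ x y (hle hxy) (hwd x hx) (hwd y hy)
  have hcirc : ∃ C, IsCyc (L'.layer j) C ∧ ρ ^ M < C.length := by
    by_contra hcon
    push Not at hcon
    exact hj (circ_thm hρ hc hloc' hcon)
  obtain ⟨C, hC, hClen⟩ := hcirc
  have hir : i ≤ r := by
    obtain ⟨v, -, -, hadj, -, -⟩ := cyc_fun hC
    have h3 : (F ⊓ L.layer i).Adj (v 0) (v (0 + 1)) := (hadj 0).1
    have h4 : L.lev (v 0) = i := h3.2.2.1
    rw [← h4]; exact hlev _ _ h3.1
  exact MainSubAux.all_lengths' L i L' inf_le_right j hC ℓ (by omega) (by omega)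

end Pool.Agent.Lib.MP_b6048d_co.F
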