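import Pool.Agent.Lib.MP_b6048d_co.F.SpecA

set_option autoImplicit false

/-! A02 MinBasics: basic facts on minimal dense sets. -/

open scoped Classical

namespace Pool.Agent.Lib.MP_b6048d_co.F

namespace MinBasicsAux

theorem part1 (hT : TauFacts) (V : Type) (Γ : SimpleGraph V) (D : ℝ) (H : Finset V) (hD : 1 ≤ D)
    (hH : MinD Γ (tau D) H) : 2 * D + 1 ≤ H.card := by
  obtain ⟨t1, -, -, -⟩ := hT D (by linarith)
  have h1 := hH.dens
  have h2 := ed_le_sq (Γ := Γ) (A := H)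
  have h3 : (0 : ℝ) < H.card := by exact_mod_cast Finset.card_pos.2 hH.ne
  have h4 := (t1 H.card).1
  have h5 : D * H.card ≤ tau D H.card * H.card := mul_le_mul_of_nonneg_right h4 h3.le
  have h6 : (H.card : ℝ) * (2 * D) ≤ H.card * (H.card - 1 : ℝ) := by linarith
  have h7 := le_of_mul_le_mul_left h6 h3
  linarith

theorem part2 (hT : TauFacts) (V : Type) (Γ : SimpleGraph V) (D : ℝ) (H : Finset V) (hD : 1 ≤ D)
    (hH : MinD Γ (tau D) H) (v : V) (hv : v ∈ H) : tau D H.card ≤ dg Γ H v := by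
  obtain ⟨-, t2, -, -⟩ := hT D (by linarith)
  have hA : ({v} : Finset V) ⊆ H := Finset.singleton_subset_iff.2 hv
  have h1 := hH.touch t2 hA
  have h2 := ed_touch_le (Γ := Γ) hA
  rw [Finset.sum_singleton] at h2
  rw [Finset.card_singleton, Nat.cast_one, mul_one] at h1
  linarith

end MinBasicsAux

open MinBasicsAux in
theorem minBasics (hT : TauFacts) : MinBasics := by
  refine ⟨?_, ?_⟩
  · intro V Γ D H hD hH
    obtain ⟨t1, t2, -, -⟩ := hT D (by linarith)
    refine ⟨part1 hT V Γ D H hD hH, ?_, fun A hA => hH.touch t2 hA, ?_⟩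
    · intro v hv
      have h1 := part2 hT V Γ D H hD hH v hv
      exact ⟨h1, (t1 H.card).1.trans h1⟩
    · intro A hA
      have h1 := hH.le hA
      refine ⟨h1, h1.trans ?_⟩
      exact mul_le_mul_of_nonneg_right (t1 A.card).2 (Nat.cast_nonneg _)
  · intro L₀
    refine ⟨(2 : ℝ) ^ L₀, one_le_pow₀ (by norm_num), ?_⟩
    intro V Γ D H hD hH
    have h0 : (1 : ℝ) ≤ (2 : ℝ) ^ L₀ := one_le_pow₀ (by norm_num)
    have h1 := part1 hT V Γ D H (h0.trans hD) hH
    have h2 : ((2 ^ L₀ : ℕ) : ℝ) ≤ H.card := by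
      push_cast
      linarith
    have h3 : 2 ^ L₀ ≤ H.card := by exact_mod_cast h2
    exact ⟨le_Lg h3, (Nat.lt_two_pow_self).le.trans h3⟩

end Pool.Agent.Lib.MP_b6048d_co.F
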