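import Pool.Agent.Lib.MP_b6048d_co.F.SpecA

set_option autoImplicit false

/-!
# A20: a connected set of prescribed polylogarithmic size outside a given set
-/

open scoped Classical

namespace Pool.Agent.Lib.MP_b6048d_co.F.NewSetAux

/-- Some vertex is outside `Bad`. -/
lemma exists_good {V : Type} {Γ : SimpleGraph V} {H S Bad : Finset V} {c₀ : ℝ} (hH : H.Nonempty)
    (hc : 2 ≤ c₀) (hB : ∑ v ∈ Bad, (dg Γ S v : ℝ) ≤ H.card) (hed : c₀ * H.card ≤ 3 * ed Γ S) :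
    ∃ v ∈ S, v ∉ Bad := by
  by_contra hcon
  push Not at hcon
  have h1 : ∑ v ∈ S, (dg Γ S v : ℝ) ≤ ∑ v ∈ Bad, (dg Γ S v : ℝ) :=
    Finset.sum_le_sum_of_subset_of_nonneg hcon fun _ _ _ => by positivity
  have h2 : 2 * ed Γ S = ∑ v ∈ S, (dg Γ S v : ℝ) := by
    unfold ed
    ring
  have h3 : (0 : ℝ) < H.card := by exact_mod_cast Finset.card_pos.2 hH
  nlinarith

end Pool.Agent.Lib.MP_b6048d_co.F.NewSetAux

namespace Pool.Agent.Lib.MP_b6048d_co.F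

open NewSetAux

theorem newSet (hM : MinBasics) (hG : GoodLemma) (hGG : GoodGrow) (hHP : HatPrefix) : NewSet := by
  intro a₁ a₂
  obtain ⟨A₀, L₀, hGG'⟩ := hGG 0 (max a₁ a₂ + 20)
  obtain ⟨D₁, hD₁, hG'⟩ := hG (max a₁ a₂ + 26) (max A₀ 2) (max a₁ a₂) (by omega)
  obtain ⟨D₂, hD₂, hM'⟩ := hM.2 L₀
  refine ⟨max D₁ ⌈D₂⌉₊, hD₁.trans (le_max_left _ _), ?_⟩
  intro V Γ D H hD hMin R hR hRc
  have hL4 : 4 ≤ Lg H := four_le_Lg H
  have hDD : D₂ ≤ (D : ℝ) := by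
    have h1 : ⌈D₂⌉₊ ≤ D := (le_max_right _ _).trans hD
    exact (Nat.le_ceil D₂).trans (by exact_mod_cast h1)
  have hL0 : L₀ ≤ Lg H := (hM' V Γ D H hDD hMin).1
  obtain ⟨R', Bad, c₀, hRR', hR'H, -, hA0, -, -, hBadsum, hed, hgood⟩ :=
    hG' V Γ D H ((le_max_left _ _).trans hD) hMin R hR
      (hRc.trans (Nat.pow_le_pow_right (by omega) (le_max_left _ _)))
  have hA1 : (A₀ : ℝ) ≤ c₀ := by
    have : ((A₀ : ℕ) : ℝ) ≤ ((max A₀ 2 : ℕ) : ℝ) := by exact_mod_cast le_max_left A₀ 2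
    exact this.trans hA0
  have hA2 : (2 : ℝ) ≤ c₀ := by
    have : ((2 : ℕ) : ℝ) ≤ ((max A₀ 2 : ℕ) : ℝ) := by exact_mod_cast le_max_right A₀ 2
    exact (by exact_mod_cast this : (2 : ℝ) ≤ _).trans hA0
  obtain ⟨v, hvS, hvB⟩ := exists_good hMin.ne hA2 hBadsum hed
  obtain ⟨hdg, hexp⟩ := hgood v hvS hvB
  have hball := hGG' V Γ (H \ R') ∅ v c₀ (Lg H) hL0 hA1 hvS (by simp) hdg
    (by
      intro B hB hvB' hCn hc hBc
      exact hexp B hB hvB' hCn hc hBc)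
    (by
      intro i
      simp)
  rw [Finset.sdiff_empty] at hball
  have hHat : Hat Γ {v} (Lg H) (bl Γ (H \ R') {v} (Lg H)) := hat_single.2 (conS_bl hvS)
  have h1 : ({v} : Finset V).card ≤ Lg H ^ a₂ := by
    rw [Finset.card_singleton]
    exact Nat.one_le_pow _ _ (by omega)
  have h2 : Lg H ^ a₂ ≤ (bl Γ (H \ R') {v} (Lg H)).card := by
    refine (Nat.pow_le_pow_right (by omega) ?_).trans hball
    have := le_max_right a₁ a₂
    omega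
  obtain ⟨B', hB', hcard, hHat'⟩ := hHP V Γ {v} _ (Lg H) (Lg H ^ a₂) hHat h1 h2
  refine ⟨v, B', ?_, hcard, hat_single.1 hHat'⟩
  exact hB'.trans (bl_subset.trans (Finset.sdiff_subset_sdiff (Finset.Subset.refl _) hRR'))

end Pool.Agent.Lib.MP_b6048d_co.F
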