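import Pool.Agent.Lib.MP_b6048d_co.F.SpecA

set_option autoImplicit false

open scoped Classical
open Filter

namespace Pool.Agent.Lib.MP_b6048d_co.F.NumBadAux

/-- A power of `L` is at most a power of two. -/
theorem pow_le_two_pow {L e : ℕ} (hL : 2 ≤ L) (h : (e : ℝ) * Real.log L ≤ L * Real.log 2) :
    L ^ e ≤ 2 ^ L := by
  have hL0 : (0 : ℝ) < L := by positivity
  have h1 : ((L ^ e : ℕ) : ℝ) ≤ ((2 ^ L : ℕ) : ℝ) := by
    push_cast
    rw [← Real.exp_log hL0, ← Real.exp_log (show (0 : ℝ) < 2 by norm_num), ← Real.exp_nat_mul,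
      ← Real.exp_nat_mul]
    exact Real.exp_le_exp.2 h
  exact_mod_cast h1

/-- The combinatorial part of the last estimate. -/
theorem big {L c D a r M : ℕ} (hL : 96 ≤ L) (hM1 : 1 ≤ M) (hML : M ≤ L) (hD : D ≤ M) (ha : a ≤ M)
    (hr : r ≤ L ^ (c + 1)) (h : L ^ ((c + 2) * (23 * M ^ 2)) ≤ 2 ^ L) :
    96 * (D ^ 3 * (r + 1) ^ (2 * D + 7) +
          (a + 1) * ((2 * a + 1) * (a ^ 2 * (r + 1) ^ (3 * D * a) * a * (2 * a + 1) ^ a)))
          ≤ 2 ^ L := by
  set B := L ^ (c + 2) with hB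
  have hL1 : 1 ≤ L := by omega
  have hLB : L * L ≤ B := by
    rw [hB, pow_add, pow_two]
    exact Nat.le_mul_of_pos_left _ (by positivity)
  have hB96 : 96 ≤ B := by nlinarith
  have hB1 : 1 ≤ B := by omega
  have hrB : r + 1 ≤ B := by
    have h1 : B = L ^ (c + 1) * L := by rw [hB, ← pow_succ]
    have h2 : 1 ≤ L ^ (c + 1) := Nat.one_le_pow _ _ hL1
    nlinarith
  have haL : a ≤ L := ha.trans hML
  have hDL : D ≤ L := hD.trans hML
  have h2a : 2 * a + 1 ≤ B := by nlinarith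
  have hDB : D ≤ B := by nlinarith
  have haB : a ≤ B := by nlinarith
  have e1 : D ^ 3 * (r + 1) ^ (2 * D + 7) ≤ B ^ (3 + (2 * D + 7)) := by
    rw [pow_add B]
    exact Nat.mul_le_mul (Nat.pow_le_pow_left hDB _) (Nat.pow_le_pow_left hrB _)
  have e2 : (a + 1) * ((2 * a + 1) * (a ^ 2 * (r + 1) ^ (3 * D * a) * a * (2 * a + 1) ^ a)) ≤
      B ^ 1 * (B ^ 1 * (B ^ 2 * B ^ (3 * D * a) * B ^ 1 * B ^ a)) := by
    have h1 : a + 1 ≤ B ^ 1 := by rw [pow_one]; omega
    have h2 : 2 * a + 1 ≤ B ^ 1 := by rw [pow_one]; omega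
    have h3 : a ≤ B ^ 1 := by rw [pow_one]; omega
    exact Nat.mul_le_mul h1 (Nat.mul_le_mul h2 (Nat.mul_le_mul (Nat.mul_le_mul (Nat.mul_le_mul
      (Nat.pow_le_pow_left haB _) (Nat.pow_le_pow_left hrB _)) h3) (Nat.pow_le_pow_left h2a _)))
  have e3 : B ^ 1 * (B ^ 1 * (B ^ 2 * B ^ (3 * D * a) * B ^ 1 * B ^ a)) =
      B ^ (3 * D * a + a + 5) := by
    rw [← pow_add, ← pow_add, ← pow_add, ← pow_add, ← pow_add]
    congr 1
    ring
  rw [e3] at e2
  have hDa : D * a ≤ M * M := Nat.mul_le_mul hD ha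
  have hMM : M ≤ M * M := Nat.le_mul_of_pos_left _ hM1
  have hMM1 : 1 ≤ M * M := Nat.mul_pos hM1 hM1
  have i1 : 3 + (2 * D + 7) ≤ 21 * M ^ 2 := by rw [pow_two]; nlinarith
  have i2 : 3 * D * a + a + 5 ≤ 21 * M ^ 2 := by rw [pow_two]; nlinarith
  have f1 := e1.trans (Nat.pow_le_pow_right hB1 i1)
  have f2 := e2.trans (Nat.pow_le_pow_right hB1 i2)
  calc _ ≤ B * (B * B ^ (21 * M ^ 2)) := by
        have : 2 * B ^ (21 * M ^ 2) ≤ B * B ^ (21 * M ^ 2) := Nat.mul_le_mul_right _ (by omega)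
        exact Nat.mul_le_mul hB96 (by omega)
    _ = B ^ (21 * M ^ 2 + 2) := by ring
    _ ≤ B ^ (23 * M ^ 2) := Nat.pow_le_pow_right hB1 (by rw [pow_two]; omega)
    _ = L ^ ((c + 2) * (23 * M ^ 2)) := by rw [hB, ← pow_mul]
    _ ≤ 2 ^ L := h

end Pool.Agent.Lib.MP_b6048d_co.F.NumBadAux

namespace Pool.Agent.Lib.MP_b6048d_co.F

open NumBadAux

theorem numBad : NumBad := by
  intro q c hq
  set K : ℝ := 8 * ((c : ℝ) + 22) with hK
  set A : ℝ := K ^ (q + 1) + 2 with hA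
  set C : ℝ := 23 * ((c : ℝ) + 2) * A ^ 2 / Real.log 2 + (2 * c + 50) / Real.log 2 + K + 6 * A
    with hC
  have hlog2 : 0 < Real.log 2 := Real.log_pos (by norm_num)
  have hlog2' : Real.log 2 < 1 := by
    have := Real.log_two_lt_d9
    linarith
  have hK0 : 0 < K := by positivity
  have hA0 : 0 < A := by positivity
  have hC0 : 0 < C := by positivity
  have hlit := (Real.isLittleO_pow_log_id_atTop (n := 2 * q + 3)).bound (inv_pos.2 hC0)
  obtain ⟨x₀, hx₀⟩ := eventually_atTop.1 hlit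
  refine ⟨max 96 ⌈x₀⌉₊, le_trans (by norm_num) (le_max_left _ _), fun L hL lam hlam => ?_⟩
  have hL96 : 96 ≤ L := (le_max_left _ _).trans hL
  have hLx : x₀ ≤ L := (Nat.le_ceil x₀).trans (by exact_mod_cast (le_max_right _ _).trans hL)
  have hL96' : (96 : ℝ) ≤ L := by exact_mod_cast hL96
  have hL0 : (0 : ℝ) < L := by linarith
  set l := Real.log L with hl
  have hl1 : 1 ≤ l := by
    rw [hl, Real.le_log_iff_exp_le hL0]
    have := Real.exp_one_lt_d9
    linarith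
  have hbd : C * l ^ (2 * q + 3) ≤ L := by
    have h1 := hx₀ L hLx
    rw [Real.norm_of_nonneg (by positivity), id, Real.norm_of_nonneg hL0.le] at h1
    rw [inv_mul_eq_div, le_div_iff₀ hC0] at h1
    linarith
  have hpow : ∀ j, j ≤ 2 * q + 3 → l ^ j ≤ l ^ (2 * q + 3) := fun j hj =>
    pow_le_pow_right₀ hl1 hj
  have hl1' : l ≤ l ^ (2 * q + 3) := by simpa using hpow 1 (by omega)
  have hone : 1 ≤ l ^ (2 * q + 3) := one_le_pow₀ hl1
  -- the parts of the bound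
  have hsplit : C * l ^ (2 * q + 3) = 23 * ((c : ℝ) + 2) * A ^ 2 / Real.log 2 * l ^ (2 * q + 3) +
      (2 * c + 50) / Real.log 2 * l ^ (2 * q + 3) + K * l ^ (2 * q + 3) +
      6 * A * l ^ (2 * q + 3) := by rw [hC]; ring
  have p1 : 0 ≤ 23 * ((c : ℝ) + 2) * A ^ 2 / Real.log 2 * l ^ (2 * q + 3) := by positivity
  have p2 : 0 ≤ (2 * (c : ℝ) + 50) / Real.log 2 * l ^ (2 * q + 3) := by positivity
  have p3 : 0 ≤ K * l ^ (2 * q + 3) := by positivity
  have p4 : 0 ≤ 6 * A * l ^ (2 * q + 3) := by positivity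
  have b1 : 23 * ((c : ℝ) + 2) * A ^ 2 / Real.log 2 * l ^ (2 * q + 3) ≤ L := by linarith
  have b2 : (2 * (c : ℝ) + 50) / Real.log 2 * l ^ (2 * q + 3) ≤ L := by linarith
  have b3 : K * l ^ (2 * q + 3) ≤ L := by linarith
  have b4 : 6 * A * l ^ (2 * q + 3) ≤ L := by linarith
  -- bounds for lam
  have hlamK : lam ≤ K * l := by
    rw [hlam, hK]
    have h1 : Real.log (4 * (L : ℝ) ^ (c + 20) + 3) ≤ ((c : ℝ) + 22) * l := by
      have h2 : 4 * (L : ℝ) ^ (c + 20) + 3 ≤ (L : ℝ) ^ (c + 22) := by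
        have h3 : (1 : ℝ) ≤ (L : ℝ) ^ (c + 20) := one_le_pow₀ (by linarith)
        have h4 : (L : ℝ) ^ (c + 22) = (L : ℝ) ^ (c + 20) * (L * L) := by ring
        have h6 : (L : ℝ) ^ (c + 20) * 7 ≤ (L : ℝ) ^ (c + 20) * (L * L) :=
          mul_le_mul_of_nonneg_left (by nlinarith) (by positivity)
        rw [h4]
        linarith
      have h5 := Real.log_le_log (by positivity) h2
      rw [Real.log_pow] at h5
      push_cast at h5
      exact h5
    linarith
  have hlam8 : 8 ≤ lam := by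
    rw [hlam]
    have h1 : 1 ≤ Real.log (4 * (L : ℝ) ^ (c + 20) + 3) := by
      rw [Real.le_log_iff_exp_le (by positivity)]
      have h2 := Real.exp_one_lt_d9
      have h3 : (1 : ℝ) ≤ (L : ℝ) ^ (c + 20) := one_le_pow₀ (by linarith)
      linarith
    linarith
  have hKl : K * l ≤ K * l ^ (2 * q + 3) := mul_le_mul_of_nonneg_left hl1' hK0.le
  have hlamL : lam ≤ L := by linarith
  have hlam0 : 0 ≤ lam := by linarith
  -- the large exponent
  have hbase : L ^ (2 * c + 50) ≤ 2 ^ L := by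
    apply pow_le_two_pow (by omega)
    push_cast
    rw [div_mul_eq_mul_div, div_le_iff₀ hlog2] at b2
    refine le_trans ?_ b2
    exact mul_le_mul_of_nonneg_left hl1' (by positivity)
  have hL1 : 1 ≤ L := by omega
  have hmono : ∀ j, j ≤ 2 * c + 50 → L ^ j ≤ L ^ (2 * c + 50) := fun j hj =>
    Nat.pow_le_pow_right hL1 hj
  have hsmall : ∀ k j, k ≤ L ^ 2 → j + 2 ≤ 2 * c + 50 → k * L ^ j ≤ 2 ^ L := by
    intro k j hk hj
    calc k * L ^ j ≤ L ^ 2 * L ^ j := Nat.mul_le_mul_right _ hk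
      _ = L ^ (j + 2) := by ring
      _ ≤ 2 ^ L := (hmono _ hj).trans hbase
  have hL2 : 9216 ≤ L ^ 2 := by rw [pow_two]; nlinarith
  refine ⟨hlam8, hlamL, ?_, ?_⟩
  · have h1 : 1 ≤ L ^ (c + 20) := Nat.one_le_pow _ _ hL1
    have h2 : (4 * L ^ (c + 20) + 3) ^ 2 ≤ 49 * L ^ (2 * c + 40) := by
      calc (4 * L ^ (c + 20) + 3) ^ 2 ≤ (7 * L ^ (c + 20)) ^ 2 :=
            Nat.pow_le_pow_left (by omega) _
        _ = 49 * L ^ (2 * c + 40) := by ring
    have h3 : L ^ (c + 1) ≤ L ^ (2 * c + 40) := Nat.pow_le_pow_right hL1 (by omega)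
    have h4 : L ^ 1 ≤ L ^ (2 * c + 40) := Nat.pow_le_pow_right hL1 (by omega)
    rw [pow_one] at h4
    calc ((4 * L ^ (c + 20) + 3) ^ 2 + 6 * L ^ (c + 1) + L) * 16 ≤ 896 * L ^ (2 * c + 40) := by
          omega
      _ ≤ 2 ^ L := hsmall _ _ (by omega) (by omega)
  · intro D hD2 hD
    -- the natural bound M
    have hlampow : lam ^ (q + 1) ≤ K ^ (q + 1) * l ^ (q + 1) := by
      rw [← mul_pow]
      exact pow_le_pow_left₀ hlam0 hlamK _
    obtain ⟨M, hM⟩ : ∃ M : ℕ, M = ⌈lam ^ (q + 1)⌉₊ + 1 := ⟨_, rfl⟩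
    have hlq0 : 0 ≤ lam ^ (q + 1) := by positivity
    have hMle : (M : ℝ) ≤ A * l ^ (q + 1) := by
      rw [hM, hA]
      push_cast
      have h1 := (Nat.ceil_lt_add_one hlq0).le
      have h2 : 1 ≤ l ^ (q + 1) := one_le_pow₀ hl1
      nlinarith
    have hM1 : 1 ≤ M := by omega
    have hDM : D ≤ M := by
      have h1 : (D : ℝ) ≤ (M : ℝ) := by
        rw [hM]
        push_cast
        have := Nat.le_ceil (lam ^ (q + 1))
        linarith
      exact_mod_cast h1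
    have h6M : 6 * (M : ℝ) ≤ L := by
      have h1 : A * l ^ (q + 1) ≤ A * l ^ (2 * q + 3) :=
        mul_le_mul_of_nonneg_left (hpow _ (by omega)) hA0.le
      linarith
    have hML : M ≤ L := by
      have h1 : (M : ℝ) ≤ L := by
        have : (0 : ℝ) ≤ M := by positivity
        linarith
      exact_mod_cast h1
    have hDL : D ≤ L := hDM.trans hML
    have hexp : L ^ ((c + 2) * (23 * M ^ 2)) ≤ 2 ^ L := by
      apply pow_le_two_pow (by omega)
      push_cast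
      rw [div_mul_eq_mul_div, div_le_iff₀ hlog2] at b1
      refine le_trans ?_ b1
      have h1 : (M : ℝ) ^ 2 ≤ (A * l ^ (q + 1)) ^ 2 := pow_le_pow_left₀ (by positivity) hMle 2
      have h2 : (A * l ^ (q + 1)) ^ 2 * l = A ^ 2 * l ^ (2 * q + 3) := by ring
      calc ((c : ℝ) + 2) * (23 * (M : ℝ) ^ 2) * l ≤
            ((c : ℝ) + 2) * (23 * (A * l ^ (q + 1)) ^ 2) * l := by gcongr
        _ = 23 * ((c : ℝ) + 2) * ((A * l ^ (q + 1)) ^ 2 * l) := by ring
        _ = 23 * ((c : ℝ) + 2) * A ^ 2 * l ^ (2 * q + 3) := by rw [h2]; ring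
    refine ⟨?_, ?_, ?_⟩
    · have hD0 : (0 : ℝ) < D := by positivity
      have h1 : Real.log D ≤ D := (Real.log_le_sub_one_of_pos hD0).trans (by linarith)
      have h2 : (D : ℝ) ≤ M := by exact_mod_cast hDM
      linarith
    · have h1 : (2 * D ^ 2 + 3) ^ 2 ≤ (5 * L ^ 2) ^ 2 := by
        apply Nat.pow_le_pow_left
        have : D ^ 2 ≤ L ^ 2 := Nat.pow_le_pow_left hDL 2
        omega
      calc (2 * D ^ 2 + 3) ^ 2 * 16 ≤ (5 * L ^ 2) ^ 2 * 16 := Nat.mul_le_mul_right _ h1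
        _ = 400 * L ^ 4 := by ring
        _ ≤ 2 ^ L := hsmall _ _ (by omega) (by omega)
    · intro a r ha hr
      have haM : a ≤ M := by
        have h1 : (a : ℝ) ≤ (M : ℝ) := by
          rw [hM]
          push_cast
          have h2 := Nat.le_ceil (lam ^ (q + 1))
          have h3 : lam ^ q ≤ lam ^ (q + 1) := pow_le_pow_right₀ (by linarith) (by omega)
          linarith
        exact_mod_cast h1
      refine ⟨?_, ?_⟩
      · calc a ^ 8 * 16 ≤ L ^ 8 * 16 := Nat.mul_le_mul_right _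
              (Nat.pow_le_pow_left (haM.trans hML) _)
          _ = 16 * L ^ 8 := by ring
          _ ≤ 2 ^ L := hsmall _ _ (by omega) (by omega)
      · exact big hL96 hM1 hML hDM haM hr hexp

end Pool.Agent.Lib.MP_b6048d_co.F
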