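import Pool.Agent.Lib.MP_b6048d_co.F.SpecA

set_option autoImplicit false

/-!
A08: the numerical growth lemma.
-/

open scoped Classical

namespace Pool.Agent.Lib.MP_b6048d_co.F

namespace NumGrowAux

/-- `(s + 1/(4q))^q ≤ s^q + s^(q-1)/2` for `s ≥ 1`. -/
lemma pow_step (q : ℕ) (hq : 1 ≤ q) (s : ℝ) (hs : 1 ≤ s) :
    (s + 1 / (4 * q)) ^ q ≤ s ^ q + s ^ (q - 1) / 2 := by
  have hq0 : (0 : ℝ) < q := by exact_mod_cast hq
  have hδ : (0 : ℝ) < 1 / (4 * q) := by positivity
  obtain ⟨u, hu⟩ : ∃ u : ℝ, u = s + 1 / (4 * q) := ⟨_, rfl⟩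
  have hu1 : 1 ≤ u := by rw [hu]; linarith
  have hu0 : 0 < u := by linarith
  have hs0 : 0 < s := by linarith
  have hsu : s ≤ u := by rw [hu]; linarith
  have h1 : 1 + (q : ℝ) * (-(1 / (4 * q)) / u) ≤ (1 + (-(1 / (4 * q)) / u)) ^ q := by
    apply one_add_mul_le_pow
    rw [neg_div, neg_le_neg_iff, div_le_iff₀ hu0, div_le_iff₀ (by positivity)]
    have : (1 : ℝ) ≤ q := by exact_mod_cast hq
    nlinarith
  have h2 : (1 + (-(1 / (4 * q)) / u)) = s / u := by
    rw [hu]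
    have : s + 1 / (4 * (q : ℝ)) ≠ 0 := by positivity
    field_simp
    ring
  have h3 : 1 + (q : ℝ) * (-(1 / (4 * q)) / u) = 1 - 1 / (4 * u) := by
    field_simp
    ring
  rw [h2, h3, div_pow, le_div_iff₀ (by positivity)] at h1
  -- h1 : (1 - 1/(4u)) * u^q ≤ s^q
  have h4 : 1 ≤ (1 - 1 / (4 * u)) * (1 + 1 / (2 * s)) := by
    have e1 : 1 / (4 * u) ≤ 1 / (4 * s) := by
      apply one_div_le_one_div_of_le (by positivity)
      linarith
    have e2 : (0 : ℝ) ≤ 1 + 1 / (2 * s) := by positivity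
    have e3 : (1 - 1 / (4 * s)) * (1 + 1 / (2 * s)) = 1 + (2 * s - 1) / (8 * s ^ 2) := by
      field_simp
      ring
    have e4 : 0 ≤ (2 * s - 1) / (8 * s ^ 2) := by
      apply div_nonneg <;> nlinarith
    calc (1 : ℝ) ≤ (1 - 1 / (4 * s)) * (1 + 1 / (2 * s)) := by rw [e3]; linarith
      _ ≤ (1 - 1 / (4 * u)) * (1 + 1 / (2 * s)) := by
          apply mul_le_mul_of_nonneg_right _ e2
          linarith
  have h5 : s ^ q * (1 + 1 / (2 * s)) = s ^ q + s ^ (q - 1) / 2 := by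
    obtain ⟨p, rfl⟩ : ∃ p, q = p + 1 := ⟨q - 1, by omega⟩
    rw [Nat.add_sub_cancel, pow_succ]
    field_simp
  rw [← hu, ← h5]
  have h6 : (0 : ℝ) ≤ u ^ q := by positivity
  have h7 : (0 : ℝ) ≤ 1 + 1 / (2 * s) := by positivity
  calc u ^ q = 1 * u ^ q := by ring
    _ ≤ ((1 - 1 / (4 * u)) * (1 + 1 / (2 * s))) * u ^ q := mul_le_mul_of_nonneg_right h4 h6
    _ = ((1 - 1 / (4 * u)) * u ^ q) * (1 + 1 / (2 * s)) := by ring
    _ ≤ s ^ q * (1 + 1 / (2 * s)) := mul_le_mul_of_nonneg_right h1 h7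

end NumGrowAux

theorem numGrow : NumGrow := by
  intro q κ hq
  refine ⟨(2 * κ * (4 * q) ^ 3 + 1) ^ q, ?_⟩
  intro f Y t hf1 hY hstep
  by_contra hcon
  have hlt : ∀ i, 1 ≤ i → i ≤ 4 * q * t + 1 → f i < Y := by
    intro i h1 h2
    by_contra h3
    exact hcon ⟨i, h1, h2, not_lt.1 h3⟩
  have hq0 : (0 : ℝ) < q := by
    have : 0 < q := by omega
    exact_mod_cast this
  obtain ⟨a, ha⟩ : ∃ a : ℝ, a = 2 * κ * (4 * q) ^ 3 + 1 := ⟨_, rfl⟩
  have ha1 : 1 ≤ a := by
    rw [ha]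
    have : (0 : ℝ) ≤ 2 * κ * (4 * q) ^ 3 := by positivity
    linarith
  have hmain : ∀ i : ℕ, 1 ≤ i → i ≤ 4 * q * t + 1 → (a + ((i : ℝ) - 1) / (4 * q)) ^ q ≤ f i := by
    intro i hi
    induction i, hi using Nat.le_induction with
    | base =>
      intro _
      have : ((2 * κ * (4 * q) ^ 3 + 1) ^ q : ℝ) ≤ f 1 := by exact_mod_cast hf1
      rw [ha]
      simpa using this
    | succ i hi ih =>
      intro hi2
      have hi3 : i ≤ 4 * q * t + 1 := by omega
      have ih' := ih hi3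
      obtain ⟨N, hN1, hN2⟩ := hstep i hi hi3 (hlt i hi hi3)
      have hiR : (1 : ℝ) ≤ i := by exact_mod_cast hi
      obtain ⟨y, hy⟩ : ∃ y : ℝ, y = a + ((i : ℝ) - 1) / (4 * q) := ⟨_, rfl⟩
      rw [← hy] at ih'
      have hya : a ≤ y := by
        rw [hy]
        have : 0 ≤ ((i : ℝ) - 1) / (4 * q) := div_nonneg (by linarith) (by positivity)
        linarith
      have hy2 : ((i : ℝ) + 1) / (4 * q) ≤ y := by
        rw [hy]
        have e1 : ((i : ℝ) + 1) / (4 * q) = ((i : ℝ) - 1) / (4 * q) + 2 / (4 * q) := by ring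
        have e2 : (2 : ℝ) / (4 * q) ≤ 1 := by
          rw [div_le_one (by positivity)]
          have : (1 : ℝ) ≤ q := by
            have : 1 ≤ q := by omega
            exact_mod_cast this
          linarith
        linarith
      -- the root
      obtain ⟨s, hs⟩ : ∃ s : ℝ, s = (f i : ℝ) ^ ((1 : ℝ) / q) := ⟨_, rfl⟩
      have hs0 : 0 ≤ s := by rw [hs]; positivity
      have hsq : s ^ q = f i := by
        rw [hs, ← Real.rpow_natCast, ← Real.rpow_mul (by positivity), one_div,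
          inv_mul_cancel₀ hq0.ne', Real.rpow_one]
      have hys : y ≤ s := by
        rw [← hsq] at ih'
        exact le_of_pow_le_pow_left₀ (by omega) hs0 ih'
      have hs1 : 1 ≤ s := by linarith
      have hsN : s ^ (q - 1) ≤ N := by
        have h1 : (s ^ (q - 1)) ^ q ≤ (N : ℝ) ^ q := by
          rw [← pow_mul, mul_comm, pow_mul, hsq]
          exact_mod_cast hN1
        exact le_of_pow_le_pow_left₀ (by omega) (by positivity) h1
      have hf' : (f i : ℝ) + N ≤ f (i + 1) + κ * ((i : ℝ) + 1) ^ 3 := by exact_mod_cast hN2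
      have hκ : (κ : ℝ) * ((i : ℝ) + 1) ^ 3 ≤ s ^ (q - 1) / 2 := by
        have h1 : s ^ 4 ≤ s ^ (q - 1) := pow_le_pow_right₀ hs1 (by omega)
        have h2 : (((i : ℝ) + 1) / (4 * q)) ^ 3 ≤ s ^ 3 :=
          pow_le_pow_left₀ (by positivity) (hy2.trans hys) 3
        have h3 : a * (((i : ℝ) + 1) / (4 * q)) ^ 3 ≤ s * s ^ 3 :=
          mul_le_mul (hya.trans hys) h2 (by positivity) hs0
        have h4 : 2 * (κ : ℝ) * ((i : ℝ) + 1) ^ 3 ≤ a * (((i : ℝ) + 1) / (4 * q)) ^ 3 := by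
          have h5 : 2 * (κ : ℝ) * ((i : ℝ) + 1) ^ 3 =
              (2 * κ * (4 * q) ^ 3) * (((i : ℝ) + 1) / (4 * q)) ^ 3 := by
            rw [div_pow]
            field_simp
          rw [h5]
          apply mul_le_mul_of_nonneg_right _ (by positivity)
          rw [ha]
          linarith
        have h6 : s * s ^ 3 = s ^ 4 := by ring
        linarith
      have hps := NumGrowAux.pow_step q (by omega) s hs1
      have hfin : (s + 1 / (4 * q)) ^ q ≤ (f (i + 1) : ℝ) := by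
        rw [hsq] at hps
        linarith
      refine le_trans ?_ hfin
      apply pow_le_pow_left₀
      · have : (0 : ℝ) ≤ (((i + 1 : ℕ) : ℝ) - 1) / (4 * q) := by
          apply div_nonneg _ (by positivity)
          push_cast
          linarith
        linarith
      · have e1 : a + (((i + 1 : ℕ) : ℝ) - 1) / (4 * q) = y + 1 / (4 * q) := by
          rw [hy]
          push_cast
          ring
        rw [e1]
        linarith
  have h1 := hmain (4 * q * t + 1) (by omega) le_rfl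
  have h2 := hlt (4 * q * t + 1) (by omega) le_rfl
  have h3 : (t : ℝ) ^ q ≤ (a + (((4 * q * t + 1 : ℕ) : ℝ) - 1) / (4 * q)) ^ q := by
    apply pow_le_pow_left₀ (by positivity)
    have e1 : (((4 * q * t + 1 : ℕ) : ℝ) - 1) / (4 * q) = t := by
      push_cast
      field_simp
      ring
    rw [e1]
    linarith
  have h4 : (Y : ℝ) ≤ (t : ℝ) ^ q := by exact_mod_cast hY
  have h5 : (f (4 * q * t + 1) : ℝ) < Y := by exact_mod_cast h2
  linarith

end Pool.Agent.Lib.MP_b6048d_co.F
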