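import Pool.Agent.Lib.MP_b6048d_co.F.SpecA

set_option autoImplicit false

/-!
# A13 Pockets

There are few pairwise disjoint sets of size `b` with few neighbours outside `R`.
-/

open scoped Classical

namespace Pool.Agent.Lib.MP_b6048d_co.F.PocketsAux

open Pool.Agent.Lib.MP_b6048d_co.F

/-- The number of subsets with at most `k` elements. -/
lemma card_small_subsets {V : Type} (R : Finset V) (k : ℕ) :
    (R.powerset.filter (fun J => J.card ≤ k)).card ≤ (R.card + 1) ^ k := by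
  have h1 : R.powerset.filter (fun J => J.card ≤ k) ⊆
      (Finset.range (k + 1)).biUnion (fun i => Finset.powersetCard i R) := by
    intro J hJ
    rw [Finset.mem_filter, Finset.mem_powerset] at hJ
    rw [Finset.mem_biUnion]
    exact ⟨J.card, Finset.mem_range.2 (by omega), Finset.mem_powersetCard.2 ⟨hJ.1, rfl⟩⟩
  have h2 : ∀ k : ℕ, ∑ i ∈ Finset.range (k + 1), (R.card).choose i ≤ (R.card + 1) ^ k := by
    intro k
    induction k with
    | zero => simp
    | succ k ih =>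
      rw [Finset.sum_range_succ]
      have h3 : (R.card).choose (k + 1) ≤ R.card ^ (k + 1) := Nat.choose_le_pow _ _
      have h4 : R.card ^ k ≤ (R.card + 1) ^ k := Nat.pow_le_pow_left (Nat.le_succ _) k
      calc ∑ i ∈ Finset.range (k + 1), (R.card).choose i + (R.card).choose (k + 1)
          ≤ (R.card + 1) ^ k + R.card ^ (k + 1) := Nat.add_le_add ih h3
        _ = (R.card + 1) ^ k + R.card ^ k * R.card := by rw [pow_succ R.card]
        _ ≤ (R.card + 1) ^ k + (R.card + 1) ^ k * R.card := by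
            exact Nat.add_le_add_left (Nat.mul_le_mul_right _ h4) _
        _ = (R.card + 1) ^ (k + 1) := by ring
  calc (R.powerset.filter (fun J => J.card ≤ k)).card
      ≤ ((Finset.range (k + 1)).biUnion (fun i => Finset.powersetCard i R)).card :=
        Finset.card_le_card h1
    _ ≤ ∑ i ∈ Finset.range (k + 1), (Finset.powersetCard i R).card := Finset.card_biUnion_le
    _ = ∑ i ∈ Finset.range (k + 1), (R.card).choose i := by
        refine Finset.sum_congr rfl fun i _ => ?_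
        rw [Finset.card_powersetCard]
    _ ≤ (R.card + 1) ^ k := h2 k

/-- The types of the vertices. -/
lemma exists_type {V : Type} (Γ : SimpleGraph V) (R : Finset V) (t : ℝ) (D : ℕ)
    (ht : t ≤ 2 * (D : ℝ)) :
    ∃ N : V → Finset V, ∀ v, N v ⊆ R.filter (fun w => Γ.Adj v w) ∧ (N v).card ≤ 2 * D ∧
      ((dg Γ R v : ℝ) ≤ t → N v = R.filter (fun w => Γ.Adj v w)) ∧
      (t < dg Γ R v → t ≤ (N v).card) := by
  have key : ∀ v, ∃ N : Finset V, N ⊆ R.filter (fun w => Γ.Adj v w) ∧ N.card ≤ 2 * D ∧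
      ((dg Γ R v : ℝ) ≤ t → N = R.filter (fun w => Γ.Adj v w)) ∧
      (t < dg Γ R v → t ≤ N.card) := by
    intro v
    by_cases h : (dg Γ R v : ℝ) ≤ t
    · refine ⟨R.filter (fun w => Γ.Adj v w), Finset.Subset.refl _, ?_, fun _ => rfl, ?_⟩
      · have h1 : (dg Γ R v : ℝ) ≤ 2 * (D : ℝ) := h.trans ht
        have h2 : dg Γ R v ≤ 2 * D := by exact_mod_cast h1
        exact h2
      · intro h1
        exact absurd h (not_le.2 h1)
    · have h1 : t < (dg Γ R v : ℝ) := not_le.1 h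
      have h2 : ⌈t⌉₊ ≤ (R.filter (fun w => Γ.Adj v w)).card := by
        rw [Nat.ceil_le]
        exact h1.le
      obtain ⟨N, hN, hNc⟩ := Finset.exists_subset_card_eq h2
      refine ⟨N, hN, ?_, fun h3 => absurd h3 h, fun _ => ?_⟩
      · rw [hNc, Nat.ceil_le]
        push_cast
        exact ht
      · rw [hNc]
        exact Nat.le_ceil t
  choose N hN using key
  exact ⟨N, hN⟩

/-- The number `b₀`. -/
lemma exists_b0 (q : ℕ) (hq : 2 ≤ q) : ∃ b₀ : ℕ, 4 ≤ b₀ ∧ ∀ b : ℕ, b₀ ≤ b → ∀ s : ℕ,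
    s ^ q < b ^ (q - 1) → 24 * (s : ℝ) * Real.log b < b := by
  have h1 := (Real.isLittleO_pow_log_id_atTop (n := q)).def
    (show (0 : ℝ) < 1 / 24 ^ q by positivity)
  obtain ⟨X, hX⟩ := Filter.eventually_atTop.1 h1
  obtain ⟨N, hN⟩ := exists_nat_ge X
  refine ⟨max N 4, le_max_right _ _, ?_⟩
  intro b hb s hs
  have hb4 : 4 ≤ b := (le_max_right _ _).trans hb
  have hbN : N ≤ b := (le_max_left _ _).trans hb
  have hbR : (4 : ℝ) ≤ b := by exact_mod_cast hb4
  have h2 := hX (b : ℝ) (hN.trans (by exact_mod_cast hbN))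
  have hlog : 0 ≤ Real.log b := Real.log_nonneg (by linarith)
  rw [Real.norm_of_nonneg (pow_nonneg hlog q), id, Real.norm_of_nonneg (by linarith : (0:ℝ) ≤ b)]
    at h2
  have h3 : (24 * Real.log b) ^ q ≤ b := by
    rw [mul_pow]
    calc (24 : ℝ) ^ q * Real.log b ^ q ≤ 24 ^ q * (1 / 24 ^ q * b) :=
          mul_le_mul_of_nonneg_left h2 (by positivity)
      _ = b := by
          field_simp
  have h4 : ((s : ℝ)) ^ q < (b : ℝ) ^ (q - 1) := by exact_mod_cast hs
  have h5 : (24 * (s : ℝ) * Real.log b) ^ q < (b : ℝ) ^ q := by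
    calc (24 * (s : ℝ) * Real.log b) ^ q = (s : ℝ) ^ q * (24 * Real.log b) ^ q := by
          rw [← mul_pow]; ring_nf
      _ ≤ (s : ℝ) ^ q * b := mul_le_mul_of_nonneg_left h3 (by positivity)
      _ < (b : ℝ) ^ (q - 1) * b := mul_lt_mul_of_pos_right h4 (by linarith)
      _ = (b : ℝ) ^ q := by
          rw [← pow_succ]
          congr 1
          omega
  exact lt_of_pow_lt_pow_left₀ q (by linarith) h5

/-- The final numerical step. -/
lemma numeric {D b s m t t' : ℝ} (hD : 1 ≤ D) (hb : 4 ≤ b) (hs : 0 ≤ s)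
    (hbD : 96 * D * Real.log b ≤ b ^ 2) (hsb : 24 * s * Real.log b < b)
    (hm : m ≤ b ^ 3 + 2 * D * b + b ^ 2 * s) (hm0 : 0 ≤ m)
    (hm3 : m + 3 ≤ b ^ 4) (ht' : 0 ≤ t') (ht'2 : t' ≤ 2 * D)
    (htt : D / (2 * Real.log (m + 3)) ≤ t - t') (hM : t * b ^ 3 ≤ t' * m) : False := by
  have hlogb : 1 ≤ Real.log b := by
    rw [Real.le_log_iff_exp_le (by linarith)]
    have := Real.exp_one_lt_d9
    linarith
  have hlogm : Real.log (m + 3) ≤ 4 * Real.log b := by
    have h1 : Real.log (m + 3) ≤ Real.log (b ^ 4) := Real.log_le_log (by linarith) hm3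
    rw [Real.log_pow] at h1
    push_cast at h1
    exact h1
  have hlogm0 : 0 < Real.log (m + 3) := Real.log_pos (by linarith)
  have h1 : D / (8 * Real.log b) ≤ t - t' := by
    refine le_trans ?_ htt
    apply div_le_div_of_nonneg_left (by linarith) (by positivity)
    linarith
  have h2 : (t - t') * b ^ 3 ≤ 2 * D * (2 * D * b + b ^ 2 * s) := by
    have h3 : t' * m ≤ t' * (b ^ 3 + 2 * D * b + b ^ 2 * s) := mul_le_mul_of_nonneg_left hm ht'
    have h4 : t' * (2 * D * b + b ^ 2 * s) ≤ 2 * D * (2 * D * b + b ^ 2 * s) :=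
      mul_le_mul_of_nonneg_right ht'2 (by positivity)
    nlinarith
  have h3 : D / (8 * Real.log b) * b ^ 3 ≤ 2 * D * (2 * D * b + b ^ 2 * s) :=
    (mul_le_mul_of_nonneg_right h1 (by positivity)).trans h2
  have h4 : D * b ^ 3 ≤ 2 * D * (2 * D * b + b ^ 2 * s) * (8 * Real.log b) := by
    have h5 : D / (8 * Real.log b) * b ^ 3 = D * b ^ 3 / (8 * Real.log b) := by ring
    rw [h5, div_le_iff₀ (by positivity)] at h3
    exact h3
  have h5 : b ^ 3 ≤ 2 * (2 * D * b + b ^ 2 * s) * (8 * Real.log b) := by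
    have h6 : D * b ^ 3 ≤ D * (2 * (2 * D * b + b ^ 2 * s) * (8 * Real.log b)) := by
      linarith
    exact le_of_mul_le_mul_left h6 (by linarith)
  have h6 : 32 * D * b * Real.log b ≤ b ^ 3 / 3 := by
    have h7 : 32 * D * b * Real.log b = (96 * D * Real.log b) * (b / 3) := by ring
    rw [h7]
    have h8 : (96 * D * Real.log b) * (b / 3) ≤ b ^ 2 * (b / 3) :=
      mul_le_mul_of_nonneg_right hbD (by positivity)
    calc (96 * D * Real.log b) * (b / 3) ≤ b ^ 2 * (b / 3) := h8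
      _ = b ^ 3 / 3 := by ring
  have h7 : 16 * b ^ 2 * s * Real.log b < (2 / 3) * b ^ 3 := by
    have h8 : 16 * b ^ 2 * s * Real.log b = (2 / 3 * b ^ 2) * (24 * s * Real.log b) := by ring
    have h9 : (2 / 3 * b ^ 2) * (24 * s * Real.log b) < (2 / 3 * b ^ 2) * b :=
      mul_lt_mul_of_pos_left hsb (by positivity)
    rw [h8]
    calc (2 / 3 * b ^ 2) * (24 * s * Real.log b) < (2 / 3 * b ^ 2) * b := h9
      _ = 2 / 3 * b ^ 3 := by ring
  have h8 : 2 * (2 * D * b + b ^ 2 * s) * (8 * Real.log b) =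
      32 * D * b * Real.log b + 16 * b ^ 2 * s * Real.log b := by ring
  rw [h8] at h5
  linarith

/-- The graph part of the argument, for `b ^ 2` sets of the same type. -/
lemma graph_part {V : Type} (Γ : SimpleGraph V) (H R : Finset V) (τ : ℕ → ℝ) (D b s : ℕ)
    (h3 : ∀ A : Finset V, A ⊆ H → τ H.card * A.card ≤ ed Γ H - ed Γ (H \ A))
    (N : V → Finset V)
    (hN : ∀ v, N v ⊆ R.filter (fun w => Γ.Adj v w) ∧ (N v).card ≤ 2 * D ∧
      ((dg Γ R v : ℝ) ≤ τ H.card → N v = R.filter (fun w => Γ.Adj v w)) ∧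
      (τ H.card < dg Γ R v → τ H.card ≤ (N v).card))
    (F : Finset (Finset V)) (hFc : F.card = b ^ 2)
    (hF : ∀ B ∈ F, B ⊆ H \ R ∧ B.card = b ∧ (nbr Γ (H \ R) B).card ≤ s)
    (hdis : ∀ B ∈ F, ∀ B' ∈ F, B ≠ B' → Disjoint B B')
    (J : Finset V) (hJ : ∀ B ∈ F, B.biUnion N = J) (hJR : J ⊆ R) (hJc : J.card ≤ 2 * D * b) :
    ∃ M : Finset V, M.card ≤ b ^ 3 + 2 * D * b + b ^ 2 * s ∧ τ H.card * (b : ℝ) ^ 3 ≤ ed Γ M := by
  obtain ⟨U, hU⟩ : ∃ U, U = F.biUnion (fun B => B) := ⟨_, rfl⟩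
  obtain ⟨M, hM⟩ : ∃ M, M = U ∪ J ∪ F.biUnion (fun B => nbr Γ (H \ R) B) := ⟨_, rfl⟩
  have hUc : U.card = b ^ 3 := by
    rw [hU, Finset.card_biUnion (fun B hB B' hB' hne => hdis B hB B' hB' hne),
      Finset.sum_congr rfl (fun B hB => (hF B hB).2.1), Finset.sum_const, hFc, smul_eq_mul]
    ring
  have hUS : U ⊆ H \ R := by
    rw [hU]
    exact Finset.biUnion_subset.2 fun B hB => (hF B hB).1
  have hUH : U ⊆ H := hUS.trans Finset.sdiff_subset
  have hMc : M.card ≤ b ^ 3 + 2 * D * b + b ^ 2 * s := by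
    rw [hM]
    refine (Finset.card_union_le _ _).trans (Nat.add_le_add ?_ ?_)
    · refine (Finset.card_union_le _ _).trans (Nat.add_le_add hUc.le hJc)
    · refine Finset.card_biUnion_le.trans ?_
      calc ∑ B ∈ F, (nbr Γ (H \ R) B).card ≤ ∑ B ∈ F, s :=
            Finset.sum_le_sum fun B hB => (hF B hB).2.2
        _ = b ^ 2 * s := by rw [Finset.sum_const, hFc, smul_eq_mul]
  refine ⟨M, hMc, ?_⟩
  obtain ⟨Un, hUn⟩ : ∃ Un, Un = U.filter (fun v => (dg Γ R v : ℝ) ≤ τ H.card) := ⟨_, rfl⟩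
  obtain ⟨Ue, hUe⟩ : ∃ Ue, Ue = U.filter (fun v => ¬ (dg Γ R v : ℝ) ≤ τ H.card) := ⟨_, rfl⟩
  have hUnU : Un ⊆ U := by rw [hUn]; exact Finset.filter_subset _ _
  have hUeU : Ue ⊆ U := by rw [hUe]; exact Finset.filter_subset _ _
  have hcard : Un.card + Ue.card = b ^ 3 := by
    rw [← hUc, hUn, hUe]
    exact Finset.card_filter_add_card_filter_not _
  have hUJ : Disjoint U J := by
    rw [Finset.disjoint_left]
    intro x hx hxJ
    exact (Finset.mem_sdiff.1 (hUS hx)).2 (hJR hxJ)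
  have hd1 : Disjoint Un (Ue ∪ J) := by
    rw [Finset.disjoint_union_right]
    refine ⟨?_, Finset.disjoint_of_subset_left hUnU hUJ⟩
    rw [hUn, hUe]
    exact Finset.disjoint_filter_filter_not _ _ _
  have hd2 : Disjoint Ue J := Finset.disjoint_of_subset_left hUeU hUJ
  have hNJ : ∀ v ∈ U, N v ⊆ J := by
    intro v hv
    rw [hU, Finset.mem_biUnion] at hv
    obtain ⟨B, hB, hvB⟩ := hv
    rw [← hJ B hB]
    exact Finset.subset_biUnion_of_mem N hvB
  -- the neighbours of `Un` are in `M`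
  have hsub : Un ∪ nbr Γ H Un ∪ (Ue ∪ J) ⊆ M := by
    intro w hw
    rw [hM]
    rcases Finset.mem_union.1 hw with hw | hw
    · rcases Finset.mem_union.1 hw with hw | hw
      · exact Finset.mem_union_left _ (Finset.mem_union_left _ (hUnU hw))
      · obtain ⟨hwH, -, v, hv, hvw⟩ := mem_nbr.1 hw
        have hvU : v ∈ U := hUnU hv
        by_cases hwR : w ∈ R
        · have h5 : (dg Γ R v : ℝ) ≤ τ H.card := by
            rw [hUn] at hv
            exact (Finset.mem_filter.1 hv).2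
          have h6 : w ∈ N v := by
            rw [(hN v).2.2.1 h5]
            exact Finset.mem_filter.2 ⟨hwR, hvw⟩
          exact Finset.mem_union_left _ (Finset.mem_union_right _ (hNJ v hvU h6))
        · have hvU' := hvU
          rw [hU, Finset.mem_biUnion] at hvU'
          obtain ⟨B, hB, hvB⟩ := hvU'
          by_cases hwB : w ∈ B
          · refine Finset.mem_union_left _ (Finset.mem_union_left _ ?_)
            rw [hU, Finset.mem_biUnion]
            exact ⟨B, hB, hwB⟩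
          · refine Finset.mem_union_right _ (Finset.mem_biUnion.2 ⟨B, hB, ?_⟩)
            exact mem_nbr.2 ⟨Finset.mem_sdiff.2 ⟨hwH, hwR⟩, hwB, v, hvB, hvw⟩
    · rcases Finset.mem_union.1 hw with hw | hw
      · exact Finset.mem_union_left _ (Finset.mem_union_left _ (hUeU hw))
      · exact Finset.mem_union_left _ (Finset.mem_union_right _ hw)
  have e1 := ed_touch (Γ := Γ) (hUnU.trans hUH) hd1
  have e2 := ed_mono (Γ := Γ) hsub
  have e3 := h3 Un (hUnU.trans hUH)
  have e4 := ed_split (Γ := Γ) (Finset.subset_union_left : Ue ⊆ Ue ∪ J)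
  have e5 : (Ue ∪ J) \ Ue = J := by
    rw [Finset.union_sdiff_left]
    exact Finset.sdiff_eq_self_of_disjoint hd2.symm
  rw [e5] at e4
  have e6 : τ H.card * Ue.card ≤ ∑ v ∈ Ue, (dg Γ J v : ℝ) := by
    have h7 : ∀ v ∈ Ue, τ H.card ≤ (dg Γ J v : ℝ) := by
      intro v hv
      have hvU : v ∈ U := hUeU hv
      rw [hUe] at hv
      have h8 : τ H.card < dg Γ R v := not_le.1 (Finset.mem_filter.1 hv).2
      have h9 := (hN v).2.2.2 h8
      have h10 : (N v).card ≤ dg Γ J v := by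
        unfold dg
        apply Finset.card_le_card
        intro w hw
        exact Finset.mem_filter.2 ⟨hNJ v hvU hw, (Finset.mem_filter.1 ((hN v).1 hw)).2⟩
      have h11 : ((N v).card : ℝ) ≤ dg Γ J v := by exact_mod_cast h10
      linarith
    have h8 := Finset.card_nsmul_le_sum Ue (fun v => (dg Γ J v : ℝ)) (τ H.card) h7
    rw [nsmul_eq_mul] at h8
    linarith
  have e7 := ed_nonneg (Γ := Γ) (A := J)
  have e8 := ed_nonneg (Γ := Γ) (A := Ue)
  have e9 : τ H.card * (b : ℝ) ^ 3 = τ H.card * Un.card + τ H.card * Ue.card := by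
    rw [← mul_add]
    congr 1
    have : ((Un.card + Ue.card : ℕ) : ℝ) = ((b ^ 3 : ℕ) : ℝ) := by rw [hcard]
    push_cast at this
    linarith
  rw [e9]
  linarith

end Pool.Agent.Lib.MP_b6048d_co.F.PocketsAux

namespace Pool.Agent.Lib.MP_b6048d_co.F

open PocketsAux

theorem pockets (hT : TauFacts) (hM : MinBasics) : Pockets := by
  intro q hq
  obtain ⟨b₀, hb₀, hb₀'⟩ := exists_b0 q hq
  refine ⟨b₀, hb₀, ?_⟩
  intro V Γ D H hD hmin R b _ hb hbD hbH F hF hdis
  have hDR : (1 : ℝ) ≤ (D : ℝ) := by exact_mod_cast hD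
  have hb4 : 4 ≤ b := hb₀.trans hb
  have hbR : (4 : ℝ) ≤ (b : ℝ) := by exact_mod_cast hb4
  obtain ⟨hT1, hT2, -, hT4⟩ := hT (D : ℝ) (by linarith)
  obtain ⟨-, -, hM3, hM4⟩ := hM.1 V Γ (D : ℝ) H hDR hmin
  obtain ⟨N, hN⟩ := exists_type Γ R (tau D H.card) D (hT1 H.card).2
  by_contra hcon
  push Not at hcon
  -- pigeonhole
  have hmaps : ∀ B ∈ F, B.biUnion N ∈ R.powerset.filter (fun J => J.card ≤ 2 * D * b) := by
    intro B hB
    rw [Finset.mem_filter, Finset.mem_powerset]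
    constructor
    · refine Finset.biUnion_subset.2 fun v _ => ?_
      exact ((hN v).1).trans (Finset.filter_subset _ _)
    · refine Finset.card_biUnion_le.trans ?_
      calc ∑ v ∈ B, (N v).card ≤ ∑ v ∈ B, 2 * D := Finset.sum_le_sum fun v _ => (hN v).2.1
        _ = 2 * D * b := by rw [Finset.sum_const, (hF B hB).2.1, smul_eq_mul]; ring
  have hcount : (R.powerset.filter (fun J => J.card ≤ 2 * D * b)).card * b ^ 2 < F.card := by
    refine lt_of_le_of_lt ?_ hcon
    rw [mul_comm]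
    refine Nat.mul_le_mul_left _ ((card_small_subsets R (2 * D * b)).trans ?_)
    refine Nat.pow_le_pow_right (Nat.succ_pos _) ?_
    exact Nat.mul_le_mul_right _ (Nat.mul_le_mul_right _ (by norm_num))
  obtain ⟨J, hJmem, hJcard⟩ := Finset.exists_lt_card_fiber_of_mul_lt_card_of_maps_to hmaps hcount
  obtain ⟨F', hF'sub, hF'card⟩ := Finset.exists_subset_card_eq hJcard.le
  have hF'F : ∀ B ∈ F', B ∈ F ∧ B.biUnion N = J := by
    intro B hB
    exact Finset.mem_filter.1 (hF'sub hB)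
  rw [Finset.mem_filter, Finset.mem_powerset] at hJmem
  have hF'ne : F'.Nonempty := by
    rw [← Finset.card_pos, hF'card]
    positivity
  obtain ⟨B₀, hB₀, hB₀max⟩ := Finset.exists_max_image F' (fun B => (nbr Γ (H \ R) B).card) hF'ne
  obtain ⟨s, hs⟩ : ∃ s, s = (nbr Γ (H \ R) B₀).card := ⟨_, rfl⟩
  have hsq : s ^ q < b ^ (q - 1) := by
    rw [hs]
    exact (hF B₀ (hF'F B₀ hB₀).1).2.2
  obtain ⟨M, hMc, hMe⟩ := graph_part Γ H R (tau D) D b s hM3 N hN F' hF'card
    (fun B hB => ⟨(hF B (hF'F B hB).1).1, (hF B (hF'F B hB).1).2.1, by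
      rw [hs]; exact hB₀max B hB⟩)
    (fun B hB B' hB' hne => hdis B (hF'F B hB).1 B' (hF'F B' hB').1 hne) J
    (fun B hB => (hF'F B hB).2) hJmem.1 hJmem.2
  -- sizes
  have hlogb : 1 ≤ Real.log b := by
    rw [Real.le_log_iff_exp_le (by linarith)]
    have := Real.exp_one_lt_d9
    linarith
  have hDb : 2 * (D : ℝ) ≤ (b : ℝ) ^ 2 := by
    have h1 : 96 * (D : ℝ) * 1 ≤ 96 * (D : ℝ) * Real.log b :=
      mul_le_mul_of_nonneg_left hlogb (by positivity)
    linarith
  have hDb' : 2 * D ≤ b ^ 2 := by exact_mod_cast hDb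
  have hsb : s ≤ b := by
    by_contra h
    push Not at h
    have h1 : b ^ q ≤ s ^ q := Nat.pow_le_pow_left h.le q
    have h2 : b ^ (q - 1) ≤ b ^ q := Nat.pow_le_pow_right (by omega) (by omega)
    omega
  have hm3 : M.card ≤ 3 * b ^ 3 := by
    have h1 : 2 * D * b ≤ b ^ 2 * b := Nat.mul_le_mul_right _ hDb'
    have h2 : b ^ 2 * s ≤ b ^ 2 * b := Nat.mul_le_mul_left _ hsb
    have h3 : b ^ 2 * b = b ^ 3 := by ring
    omega
  have hm4 : M.card + 3 ≤ b ^ 4 := by
    have h1 : 3 ≤ b ^ 3 := by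
      calc 3 ≤ 4 ^ 3 := by norm_num
        _ ≤ b ^ 3 := Nat.pow_le_pow_left hb4 3
    have h2 : 4 * b ^ 3 ≤ b * b ^ 3 := Nat.mul_le_mul_right _ hb4
    have h3 : b * b ^ 3 = b ^ 4 := by ring
    omega
  have hm8 : (M.card + 3) ^ 2 ≤ H.card := by
    calc (M.card + 3) ^ 2 ≤ (b ^ 4) ^ 2 := Nat.pow_le_pow_left hm4 2
      _ = b ^ 8 := by ring
      _ ≤ H.card := hbH
  have hmn : M.card < H.card := by
    have h1 : M.card + 3 ≤ (M.card + 3) ^ 2 := Nat.le_self_pow (by norm_num) _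
    omega
  have hMe2 := (hM4 M hmn).1
  have htt := hT4 M.card H.card (by omega)
  refine numeric (D := (D : ℝ)) (b := (b : ℝ)) (s := (s : ℝ)) (m := (M.card : ℝ))
    (t := tau D H.card) (t' := tau D M.card) hDR hbR (Nat.cast_nonneg _) hbD
    (hb₀' b hb s hsq) ?_ (Nat.cast_nonneg _) ?_ ?_ (hT1 M.card).2 htt (hMe.trans hMe2)
  · exact_mod_cast hMc
  · exact_mod_cast hm4
  · have := (hT1 M.card).1
    linarith

end Pool.Agent.Lib.MP_b6048d_co.F
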