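import Pool.Agent.Lib.MP_b6048d_co.F.SpecC

set_option autoImplicit false

/-!
C04: links from an ear to the cycle.
-/

open scoped Classical

namespace Pool.Agent.Lib.MP_b6048d_co.F

namespace QLinkAux

/-- Splitting a list at an index. -/
theorem split_at {V : Type*} {l : List V} {a : ℕ} {x : V} (h : l[a]? = some x) :
    ∃ A B : List V, l = A ++ x :: B ∧ A.length = a := by
  obtain ⟨h1, h2⟩ := List.getElem?_eq_some_iff.1 h
  refine ⟨l.take a, l.drop (a + 1), ?_, ?_⟩
  · rw [← h2, List.cons_getElem_drop_succ, List.take_append_drop]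
  · rw [List.length_take]
    omega

end QLinkAux

theorem qLink : QLink := by
  intro V G Q q₁ q₂ v l hME m a k x w hm ha ham hwQ hwq hLk
  obtain ⟨hear, hmin⟩ := hME
  rcases Nat.eq_zero_or_pos a with h0 | ha1
  · omega
  obtain ⟨r, hr, hrk, hrint⟩ := hLk
  obtain ⟨A, B, hl, hA⟩ := QLinkAux.split_at ha
  have hpth := hear.pth
  rw [hl] at hpth
  have hcut := hpth.cut
  have hnd := hpth.nodup
  rw [List.nodup_append'] at hnd
  -- `q₁` is in the first part
  have hq1A : q₁ ∈ A := by
    cases A with
    | nil =>
      rw [List.length_nil] at hA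
      omega
    | cons b A' =>
      have h1 := hpth.head
      rw [List.cons_append, List.head?_cons, Option.some.injEq] at h1
      rw [h1]
      exact List.mem_cons_self
  have hq1 : q₁ ∉ x :: B := fun h => hnd.2.2 hq1A h
  -- `v` is in the second part
  have hv : v ∈ x :: B := by
    rw [hl, List.getElem?_append_right (by omega)] at hm
    exact List.mem_of_getElem? hm
  have hxl : x ∈ l := by
    rw [hl]
    exact List.mem_append_right _ List.mem_cons_self
  have hxQ : x ∉ Q := by
    intro hx
    rcases hear.int x hxl hx with h1 | h1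
    · exact hq1 (h1 ▸ List.mem_cons_self)
    · have h2 := hcut.2
      rw [h1] at h2
      have h3 := h2.length_eq_one
      rw [h1, h3, List.mem_singleton] at hv
      exact hear.out (hv ▸ hear.q2)
  have hsub : ∀ z ∈ x :: B, z ∈ l := by
    intro z hz
    rw [hl]
    exact List.mem_append_right _ hz
  have hwB : w ∉ x :: B := by
    intro h
    rcases hear.int w (hsub w h) hwQ with h1 | h1
    · exact hq1 (h1 ▸ h)
    · exact hwq h1
  have hnew : Pth G Set.univ w q₂ (r.reverse ++ (x :: B).tail) := by
    refine hr.reverse.append hcut.2 ?_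
    intro z hz hz'
    rcases hrint z (List.mem_reverse.1 hz) (Or.inr (hsub z hz')) with h1 | h1
    · exact h1
    · exact absurd (h1 ▸ hz') hwB
  rw [List.tail_cons] at hnew
  have hEar : Ear G Q w q₂ v (r.reverse ++ B) := by
    refine ⟨hwQ, hear.q2, hwq, hnew, ?_, ?_, hear.out⟩
    · intro z hz hzQ
      rcases List.mem_append.1 hz with h1 | h1
      · rcases hrint z (List.mem_reverse.1 h1) (Or.inl hzQ) with h2 | h2
        · exact absurd (h2 ▸ hzQ) hxQ
        · exact Or.inl h2
      · rcases hear.int z (hsub z (List.mem_cons_of_mem _ h1)) hzQ with h2 | h2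
        · exact absurd (h2 ▸ List.mem_cons_of_mem _ h1) hq1
        · exact Or.inr h2
    · rcases List.mem_cons.1 hv with h1 | h1
      · rw [h1]
        exact List.mem_append_left _ (List.mem_reverse.2 hr.toWk.left_mem)
      · exact List.mem_append_right _ h1
  have hlen := hmin w q₂ _ hEar
  rw [hl] at hlen
  simp only [List.length_append, List.length_cons, List.length_reverse] at hlen
  omega

end Pool.Agent.Lib.MP_b6048d_co.F
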