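import Pool.Agent.Lib.MP_b6048d_co.F.SpecA

set_option autoImplicit false

/-!
A30: overlapping ranges of the same parity cover everything.
-/

open scoped Classical

namespace Pool.Agent.Lib.MP_b6048d_co.F

namespace RangesAux

theorem main (a : ℕ → ℕ) (k₀ K ℓ : ℕ) (hpar : ∀ k ≤ K, a k % 2 = ℓ % 2)
    (hstep : ∀ k < K, a (k + 1) ≤ a k + 2 * k₀) (h0 : a k₀ ≤ ℓ) :
    ∀ d : ℕ, k₀ + d ≤ K → ℓ ≤ a (k₀ + d) + 2 * (k₀ + d) →
      ∃ k ≤ K, ∃ j ≤ k, ℓ = a k + 2 * j := by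
  intro d
  induction d with
  | zero =>
    intro hK hl
    have h1 := hpar k₀ (by omega)
    refine ⟨k₀, by omega, (ℓ - a k₀) / 2, ?_, ?_⟩
    · simp only [Nat.add_zero] at hl
      omega
    · omega
  | succ d ih =>
    intro hK hl
    by_cases h : ℓ ≤ a (k₀ + d) + 2 * (k₀ + d)
    · exact ih (by omega) h
    · have h1 := hpar (k₀ + d) (by omega)
      have h2 := hpar (k₀ + d + 1) (by omega)
      have h3 := hstep (k₀ + d) (by omega)
      have e : k₀ + (d + 1) = k₀ + d + 1 := by omega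
      rw [e] at hl
      refine ⟨k₀ + d + 1, by omega, (ℓ - a (k₀ + d + 1)) / 2, ?_, ?_⟩ <;> omega

end RangesAux

theorem ranges : Ranges := by
  intro a k₀ K ℓ hk hpar hstep h0 hl
  obtain ⟨d, rfl⟩ := Nat.exists_eq_add_of_le hk
  exact RangesAux.main a k₀ (k₀ + d) ℓ hpar hstep h0 d le_rfl (by omega)

end Pool.Agent.Lib.MP_b6048d_co.F
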