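import Pool.Agent.Lib.MP_b6048d_co.F.SpecC

set_option autoImplicit false

/-!
C03 SameLeg of MP_b6048d_co.
-/

open scoped Classical

namespace Pool.Agent.Lib.MP_b6048d_co.F

variable {V : Type*}

namespace SameLegAux

lemma split_at {l : List V} {a : ℕ} {x : V} (h : l[a]? = some x) :
    ∃ p s, l = p ++ x :: s ∧ p.length = a := by
  obtain ⟨ha, hx⟩ := List.getElem?_eq_some_iff.1 h
  refine ⟨l.take a, l.drop (a + 1), ?_, ?_⟩
  · rw [← hx, List.cons_getElem_drop_succ, List.take_append_drop]
  · rw [List.length_take]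
    omega

end SameLegAux

open SameLegAux in
theorem sameLeg : SameLeg := by
  intro V G Q q₁ q₂ v l hmin m a b k x y hm ha hb hab hbm hLk
  obtain ⟨hE, hshort⟩ := hmin
  obtain ⟨r, hr, hrlen, hrW⟩ := hLk
  -- splitting at `b`, then at `a`
  obtain ⟨p, l₃, hl, hp⟩ := split_at hb
  have ha' : p[a]? = some x := by
    rw [hl, List.getElem?_append_left (by omega)] at ha
    exact ha
  obtain ⟨l₁, l₂, hp2, hl1⟩ := split_at ha'
  have hv : v ∈ y :: l₃ := by
    rw [hl, List.getElem?_append_right (by omega)] at hm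
    exact List.mem_of_getElem? hm
  have hpth := hE.pth
  have hsub1 : ∀ z ∈ l₁ ++ [x], z ∈ p := by
    intro z hz
    rw [hp2]
    simp only [List.mem_append, List.mem_cons, List.not_mem_nil, or_false] at hz ⊢
    tauto
  have hsubp : ∀ z ∈ p, z ∈ l := by
    intro z hz
    rw [hl]
    exact List.mem_append_left _ hz
  have hsub3 : ∀ z ∈ y :: l₃, z ∈ l := by
    intro z hz
    rw [hl]
    exact List.mem_append_right _ hz
  have hdis : ∀ z ∈ p, z ∈ y :: l₃ → False := by
    have hn := hpth.nodup
    rw [hl] at hn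
    intro z hz hz'
    exact (List.nodup_append'.1 hn).2.2 hz hz'
  have hA : Pth G Set.univ q₁ x (l₁ ++ [x]) := by
    have h1 := hpth
    rw [hl, hp2] at h1
    have e1 : l₁ ++ x :: l₂ ++ y :: l₃ = l₁ ++ x :: (l₂ ++ y :: l₃) := by simp
    rw [e1] at h1
    exact h1.cut.1
  have hC : Pth G Set.univ y q₂ (y :: l₃) := by
    have h1 := hpth
    rw [hl] at h1
    exact h1.cut.2
  have hxp : x ∈ p := hsub1 x (by simp)
  have hrl : ∀ z ∈ r, z ∈ l → z = x ∨ z = y := fun z hz hzl => hrW z hz (Or.inr hzl)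
  have hAr : ∀ z ∈ l₁ ++ [x], z ∈ r → z = x := by
    intro z hz hzr
    rcases hrl z hzr (hsubp z (hsub1 z hz)) with h1 | h1
    · exact h1
    · exact absurd (h1 ▸ hsub1 z hz) (fun h2 => hdis y h2 (by simp))
  have hAB := hA.append hr hAr
  have htail : ∀ z ∈ r.tail, z ∈ r := fun z hz => List.mem_of_mem_tail hz
  have hABC : ∀ z ∈ l₁ ++ [x] ++ r.tail, z ∈ y :: l₃ → z = y := by
    intro z hz hz3
    rcases List.mem_append.1 hz with h1 | h1
    · exact (hdis z (hsub1 z h1) hz3).elim
    · rcases hrl z (htail z h1) (hsub3 z hz3) with h2 | h2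
      · exact (hdis x hxp (h2 ▸ hz3)).elim
      · exact h2
  have hN := hAB.append hC hABC
  rw [List.tail_cons] at hN
  have hyN : y ∈ l₁ ++ [x] ++ r.tail := by
    obtain ⟨t, ht⟩ := hr.toWk.exists_cons
    have h1 := hr.toWk.right_mem
    rw [ht] at h1 ⊢
    simp only [List.tail_cons, List.mem_append, List.mem_cons, List.not_mem_nil, or_false] at h1 ⊢
    tauto
  have hEar : Ear G Q q₁ q₂ v (l₁ ++ [x] ++ r.tail ++ l₃) := by
    refine ⟨hE.q1, hE.q2, hE.ne, hN, ?_, ?_, hE.out⟩
    · intro z hz hzQ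
      rcases List.mem_append.1 hz with h1 | h1
      · rcases List.mem_append.1 h1 with h2 | h2
        · exact hE.int z (hsubp z (hsub1 z h2)) hzQ
        · refine hE.int z ?_ hzQ
          rcases hrW z (htail z h2) (Or.inl hzQ) with h3 | h3
          · rw [h3]; exact hsubp x hxp
          · rw [h3]; exact hsub3 y (by simp)
      · exact hE.int z (hsub3 z (List.mem_cons_of_mem _ h1)) hzQ
    · rcases List.mem_cons.1 hv with h1 | h1
      · rw [h1]; exact List.mem_append_left _ hyN
      · exact List.mem_append_right _ h1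
  have hle := hshort q₁ q₂ _ hEar
  have hrpos := hr.toWk.length_pos
  have hlen : l.length = b + 1 + l₃.length := by
    rw [hl, List.length_append, List.length_cons, hp]
    omega
  simp only [List.length_append, List.length_tail, List.length_cons, List.length_nil] at hle
  omega

end Pool.Agent.Lib.MP_b6048d_co.F
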