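import Pool.Agent.Lib.MP_b6048d_co.F.SpecC

set_option autoImplicit false

/-!
Proof of `ShortOddThin`: a shortest odd cycle with two vertices in `H` is thin.
-/

open scoped Classical

namespace Pool.Agent.Lib.MP_b6048d_co.F.ShortOddThinAux

variable {V : Type*} {G Γ : SimpleGraph V} {H : Finset V}

/-- The end of a short path with inner vertices outside the cycle is near its start. -/
lemma near {s w : V} {t r : List V} (hQ : IsCyc G (s :: t)) (hodd : Odd (s :: t).length)
    (hmin : ∀ Q' : List V, IsCyc G Q' → Odd Q'.length →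
      (∃ a ∈ Q', ∃ b ∈ Q', a ≠ b ∧ a ∈ H ∧ b ∈ H) → (s :: t).length ≤ Q'.length)
    (hw : w ∈ t) (hr : Pth G Set.univ s w r) (hin : ∀ z ∈ r, z ∈ s :: t → z = s ∨ z = w)
    (hs : s ∈ H) (hwH : w ∈ H) :
    w ∈ t.take (r.length - 1) ∨ w ∈ t.reverse.take (r.length - 1) := by
  have hnd := hQ.nodup
  have hsw : s ≠ w := by
    rintro rfl
    exact (List.nodup_cons.1 hnd).1 hw
  have hr2 := hr.two_le hsw
  obtain ⟨a, b, rfl⟩ := List.append_of_mem hw
  by_cases ha : a.length < r.length - 1
  · left
    rw [List.mem_take_iff_getElem]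
    refine ⟨a.length, ?_, by simp⟩
    simp only [List.length_append, List.length_cons]
    omega
  by_cases hb : b.length < r.length - 1
  · right
    rw [List.mem_take_iff_getElem]
    refine ⟨b.length, ?_, by simp [List.reverse_append]⟩
    simp only [List.length_reverse, List.length_append, List.length_cons]
    omega
  exfalso
  have hlast : Pth G Set.univ s ((s :: (a ++ w :: b)).getLast (by simp)) (s :: (a ++ w :: b)) :=
    ⟨⟨hQ.chain, rfl, List.getLast?_eq_getLast_of_ne_nil _, fun z _ => Set.mem_univ z⟩, hnd⟩
  have h1 : Pth G Set.univ s ((s :: (a ++ w :: b)).getLast (by simp)) ((s :: a) ++ w :: b) := hlast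
  have h2 := h1.cut
  have hcl : G.Adj ((s :: (a ++ w :: b)).getLast (by simp)) s :=
    hQ.closed s rfl _ (List.getLast?_eq_getLast_of_ne_nil _)
  rw [← List.cons_append] at hnd
  have hnd' := List.nodup_append'.1 hnd
  have hsb : s ∉ w :: b := fun hh => hnd'.2.2 (by simp) hh
  have h3 : Pth G Set.univ s w (s :: (w :: b).reverse) :=
    ⟨h2.2.toWk.reverse.cons (Set.mem_univ s) hcl.symm,
      List.nodup_cons.2 ⟨fun hh => hsb (List.mem_reverse.1 hh),
        List.nodup_reverse.2 h2.2.nodup⟩⟩
  have hlen : (s :: (a ++ w :: b)).length = a.length + b.length + 2 := by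
    simp only [List.length_append, List.length_cons]
    omega
  rw [hlen] at hodd
  have key : ∀ l' : List V, Pth G Set.univ s w l' → (∀ z ∈ l', z ∈ s :: (a ++ w :: b)) →
      3 ≤ l'.length → Odd (r.length + l'.length) →
      r.length + l'.length < a.length + b.length + 4 → False := by
    intro l' hl' hsub h3l ho hlt
    obtain ⟨D, hD, hDl, hDm⟩ := hr.theta hl' (fun z hz hz' => hin z hz (hsub z hz')) h3l hsw
    have h5 := hmin D hD (by
      have h6 : D.length + 2 = r.length + l'.length := hDl
      rw [← h6] at ho
      rw [Nat.odd_iff] at ho ⊢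
      omega) ⟨s, (hDm s).2 (Or.inl hr.toWk.left_mem), w, (hDm w).2 (Or.inl hr.toWk.right_mem), hsw,
        hs, hwH⟩
    omega
  have hl1 : ((s :: a) ++ [w]).length = a.length + 2 := by simp
  have hl2 : (s :: (w :: b).reverse).length = b.length + 2 := by simp
  by_cases hpar : Odd (r.length + (a.length + 2))
  · refine key ((s :: a) ++ [w]) h2.1 ?_ (by rw [hl1]; omega) (by rw [hl1]; exact hpar)
      (by rw [hl1]; omega)
    intro z hz
    simp only [List.cons_append, List.mem_cons, List.mem_append, List.not_mem_nil, or_false] at hz ⊢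
    tauto
  · refine key (s :: (w :: b).reverse) h3 ?_ (by rw [hl2]; omega) ?_ (by rw [hl2]; omega)
    · intro z hz
      simp only [List.mem_cons, List.mem_append, List.mem_reverse] at hz ⊢
      tauto
    · rw [hl2]
      rw [Nat.odd_iff] at hodd hpar ⊢
      omega

end Pool.Agent.Lib.MP_b6048d_co.F.ShortOddThinAux

namespace Pool.Agent.Lib.MP_b6048d_co.F

open ShortOddThinAux

theorem shortOddThin : ShortOddThin := by
  intro V G Γ H Q u v hΓ hQ hodd hu hv huv huH hvH hmin i
  obtain ⟨tu, htu, hmu, hlu⟩ := cyc_rot hQ hu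
  obtain ⟨tv, htv, hmv, hlv⟩ := cyc_rot hQ hv
  have hsub : (((Q.toFinset \ {u, v}) ∩ H).filter
      (fun w => ∃ x ∈ bl Γ (H \ (Q.toFinset \ {u, v})) {u} i, Γ.Adj x w)) ⊆
      (tu.take (i + 1) ++ tu.reverse.take (i + 1) ++
        (tv.take (i + 1) ++ tv.reverse.take (i + 1))).toFinset := by
    intro w hw
    rw [Finset.mem_filter, Finset.mem_inter, Finset.mem_sdiff, List.mem_toFinset] at hw
    obtain ⟨⟨⟨hwQ, hwuv⟩, hwH⟩, x, hx, hxw⟩ := hw
    have hwu : w ≠ u := by rintro rfl; exact hwuv (by simp)
    have hwv : w ≠ v := by rintro rfl; exact hwuv (by simp)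
    obtain ⟨l, hl, hlen⟩ := mem_bl_single.1 hx
    have h1 : Wk G Set.univ u w (l ++ [w]) :=
      ((hl.mono (Set.subset_univ _)).monoG hΓ).concat (Set.mem_univ w) (hΓ hxw)
    obtain ⟨p, hp, hpsub, hplen⟩ := h1.toPth
    rw [List.length_append, List.length_singleton] at hplen
    obtain ⟨a, s, b, rfl, hs, hb⟩ := exists_last (fun z => z = u ∨ z = v) p
      ⟨u, hp.toWk.left_mem, Or.inl rfl⟩
    have hR := hp.cut.2
    have hRlen : (s :: b).length - 1 ≤ i + 1 := by
      simp only [List.length_append, List.length_cons] at hplen ⊢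
      omega
    have hin : ∀ z ∈ s :: b, z ∈ Q → z = s ∨ z = w := by
      intro z hz hzQ
      rcases List.mem_cons.1 hz with h2 | h2
      · exact Or.inl h2
      · right
        have h3 := hb z h2
        have h4 := hpsub (List.mem_append_right a (List.mem_cons_of_mem s h2))
        rcases List.mem_append.1 h4 with h5 | h5
        · exfalso
          have h6 := hl.mem z h5
          rw [Finset.mem_coe, Finset.mem_sdiff, Finset.mem_sdiff, List.mem_toFinset] at h6
          apply h6.2
          refine ⟨hzQ, ?_⟩
          rw [Finset.mem_insert, Finset.mem_singleton]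
          exact h3
        · exact List.mem_singleton.1 h5
    simp only [List.toFinset_append, Finset.mem_union, List.mem_toFinset]
    rcases hs with rfl | rfl
    · have hwt : w ∈ tu := by
        rcases List.mem_cons.1 ((hmu w).1 hwQ) with h2 | h2
        · exact absurd h2 hwu
        · exact h2
      have h7 := near (H := H) htu (by rw [hlu]; exact hodd) (by rw [hlu]; exact hmin) hwt hR
        (fun z hz hz' => hin z hz ((hmu z).2 hz')) huH hwH
      rcases h7 with h7 | h7
      · left; left
        exact List.take_subset_take_left _ hRlen h7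
      · left; right
        exact List.take_subset_take_left _ hRlen h7
    · have hwt : w ∈ tv := by
        rcases List.mem_cons.1 ((hmv w).1 hwQ) with h2 | h2
        · exact absurd h2 hwv
        · exact h2
      have h7 := near (H := H) htv (by rw [hlv]; exact hodd) (by rw [hlv]; exact hmin) hwt hR
        (fun z hz hz' => hin z hz ((hmv z).2 hz')) hvH hwH
      rcases h7 with h7 | h7
      · right; left
        exact List.take_subset_take_left _ hRlen h7
      · right; right
        exact List.take_subset_take_left _ hRlen h7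
  have hcard := (Finset.card_le_card hsub).trans (List.toFinset_card_le _)
  have h8 : (tu.take (i + 1) ++ tu.reverse.take (i + 1) ++
        (tv.take (i + 1) ++ tv.reverse.take (i + 1))).length ≤ 4 * (i + 1) := by
    simp only [List.length_append, List.length_take, List.length_reverse]
    omega
  have h9 : 4 * (i + 1) ≤ 4 * (i + 1) ^ 3 := by
    have : i + 1 ≤ (i + 1) ^ 3 := Nat.le_self_pow (by norm_num) _
    omega
  exact (hcard.trans h8).trans h9

end Pool.Agent.Lib.MP_b6048d_co.F
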