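import Pool.Agent.Lib.MP_b6048d_co.F.SpecA

set_option autoImplicit false

/-!
# A07: after `36 L ^ 3` steps the ball misses only few vertices
-/

open scoped Classical

namespace Pool.Agent.Lib.MP_b6048d_co.F

namespace SpreadAux

variable {V : Type}

lemma step (hE : Exp) (Γ : SimpleGraph V) (D : ℝ) (H : Finset V) (hD : 1 ≤ D)
    (hm : MinD Γ (tau D) H) (W B : Finset V) (M : ℕ) (hB : B ⊆ H \ W) (hn : H.card < 2 * B.card)
    (hM : ((W ∩ H).filter (fun w => ∃ x ∈ B, Γ.Adj x w)).card ≤ M) :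
    (H \ B).card ≤ 11 * Lg H ^ 2 * ((nbr Γ (H \ W) B).card + M) := by
  have hBH : B ⊆ H := hB.trans Finset.sdiff_subset
  set N := nbr Γ H B with hN
  set C := (H \ B) \ N with hC
  have hNU : N ⊆ H \ B := by
    intro x hx
    have h := mem_nbr.1 hx
    exact Finset.mem_sdiff.2 ⟨h.1, h.2.1⟩
  have hCH : C ⊆ H := Finset.sdiff_subset.trans Finset.sdiff_subset
  have hcard : (H \ B).card = C.card + N.card := by
    rw [hC, Finset.card_sdiff_add_card_eq_card hNU]
  have hUB : (H \ B).card + B.card = H.card := Finset.card_sdiff_add_card_eq_card hBH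
  have hC2 : 2 * C.card ≤ H.card := by omega
  have hNC : nbr Γ H C ⊆ N := by
    intro w hw
    obtain ⟨hwH, hwC, c, hc, hcw⟩ := mem_nbr.1 hw
    by_contra hwN
    have hwB : w ∈ B := by
      by_contra hwB
      exact hwC (Finset.mem_sdiff.2 ⟨Finset.mem_sdiff.2 ⟨hwH, hwB⟩, hwN⟩)
    obtain ⟨hc1, hc2⟩ := Finset.mem_sdiff.1 hc
    obtain ⟨hc3, hc4⟩ := Finset.mem_sdiff.1 hc1
    exact hc2 (mem_nbr.2 ⟨hc3, hc4, w, hwB, hcw.symm⟩)
  have h1 := hE V Γ D H hD hm C hCH hC2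
  have h2 : (nbr Γ H C).card ≤ N.card := Finset.card_le_card hNC
  have h3 : N.card ≤ (nbr Γ (H \ W) B).card + M := by
    have h4 : N ⊆ nbr Γ (H \ W) B ∪ (W ∩ H).filter (fun w => ∃ x ∈ B, Γ.Adj x w) := by
      intro x hx
      obtain ⟨hx1, hx2, hx3⟩ := mem_nbr.1 hx
      by_cases hxW : x ∈ W
      · exact Finset.mem_union_right _
          (Finset.mem_filter.2 ⟨Finset.mem_inter.2 ⟨hxW, hx1⟩, hx3⟩)
      · exact Finset.mem_union_left _ (mem_nbr.2 ⟨Finset.mem_sdiff.2 ⟨hx1, hxW⟩, hx2, hx3⟩)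
    exact ((Finset.card_le_card h4).trans (Finset.card_union_le _ _)).trans (by omega)
  have hL : 1 ≤ Lg H ^ 2 := Nat.one_le_pow _ _ (by have := four_le_Lg H; omega)
  calc (H \ B).card = C.card + N.card := hcard
    _ ≤ 10 * Lg H ^ 2 * N.card + Lg H ^ 2 * N.card := by
        apply Nat.add_le_add
        · exact h1.trans (Nat.mul_le_mul_left _ h2)
        · exact Nat.le_mul_of_pos_left _ hL
    _ = 11 * Lg H ^ 2 * N.card := by ring
    _ ≤ _ := Nat.mul_le_mul_left _ h3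

lemma num (a : ℕ → ℕ) (n L M : ℕ) (hL : 4 ≤ L) (hn : n + 3 ≤ 2 ^ L) (ha0 : ∀ i, a i ≤ n)
    (hdec : ∀ i, a (i + 1) ≤ a i)
    (hstep : ∀ i, 14 * L ^ 3 ≤ i → i < 36 * L ^ 3 →
      a i + 11 * L ^ 2 * a (i + 1) ≤ 11 * L ^ 2 * (a i + M)) :
    a (36 * L ^ 3) ≤ 22 * L ^ 2 * M := by
  by_contra hcon
  push Not at hcon
  have hanti : Antitone a := antitone_nat_of_succ_le hdec
  set q : ℕ := 22 * L ^ 2 with hq
  have hq1 : 1 ≤ q := by
    have : 1 ≤ L ^ 2 := Nat.one_le_pow _ _ (by omega)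
    omega
  have hqr : (1 : ℝ) ≤ q := by exact_mod_cast hq1
  have key : ∀ k : ℕ, k ≤ 22 * L ^ 3 →
      (a (14 * L ^ 3 + k) : ℝ) ≤ n * (1 - 1 / (q : ℝ)) ^ k := by
    intro k
    induction k with
    | zero =>
      intro _
      simp only [add_zero, pow_zero, mul_one]
      exact_mod_cast ha0 _
    | succ k ih =>
      intro hk
      have h1 := ih (by omega)
      have h2 := hstep (14 * L ^ 3 + k) (by omega) (by omega)
      have h3 : 22 * L ^ 2 * M < a (14 * L ^ 3 + k) :=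
        lt_of_lt_of_le hcon (hanti (by omega))
      have h4 : (q : ℝ) * a (14 * L ^ 3 + k + 1) ≤ (q - 1) * a (14 * L ^ 3 + k) := by
        have h5 : (a (14 * L ^ 3 + k) : ℝ) + 11 * L ^ 2 * a (14 * L ^ 3 + k + 1) ≤
            11 * L ^ 2 * (a (14 * L ^ 3 + k) + M) := by exact_mod_cast h2
        have h6 : (22 * L ^ 2 * M : ℝ) < a (14 * L ^ 3 + k) := by exact_mod_cast h3
        have h7 : (q : ℝ) = 22 * L ^ 2 := by rw [hq]; push_cast; ring
        rw [h7]
        nlinarith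
      have h8 : (a (14 * L ^ 3 + (k + 1)) : ℝ) ≤ (1 - 1 / (q : ℝ)) * a (14 * L ^ 3 + k) := by
        have h9 : (1 - 1 / (q : ℝ)) = (q - 1) / q := by
          field_simp
        rw [h9, div_mul_eq_mul_div, le_div_iff₀ (by linarith)]
        have h10 : 14 * L ^ 3 + (k + 1) = 14 * L ^ 3 + k + 1 := by ring
        rw [h10]
        linarith
      have h11 : 0 ≤ 1 - 1 / (q : ℝ) := by
        have : 1 / (q : ℝ) ≤ 1 := by
          rw [div_le_one (by linarith)]
          exact hqr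
        linarith
      calc (a (14 * L ^ 3 + (k + 1)) : ℝ) ≤ (1 - 1 / (q : ℝ)) * a (14 * L ^ 3 + k) := h8
        _ ≤ (1 - 1 / (q : ℝ)) * (n * (1 - 1 / (q : ℝ)) ^ k) := mul_le_mul_of_nonneg_left h1 h11
        _ = _ := by ring
  have h1 := key (22 * L ^ 3) le_rfl
  have h2 : 14 * L ^ 3 + 22 * L ^ 3 = 36 * L ^ 3 := by ring
  rw [h2] at h1
  have h3 : (1 - 1 / (q : ℝ)) ^ (22 * L ^ 3) ≤ (1 / 2) ^ L := by
    have h4 : 22 * L ^ 3 = q * L := by rw [hq]; ring
    rw [h4, pow_mul]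
    have h11 : 0 ≤ 1 - 1 / (q : ℝ) := by
      have : 1 / (q : ℝ) ≤ 1 := by
        rw [div_le_one (by linarith)]
        exact hqr
      linarith
    apply pow_le_pow_left₀ (pow_nonneg h11 _)
    have h5 := Real.one_sub_div_pow_le_exp_neg (n := q) (t := 1) hqr
    refine h5.trans ?_
    rw [Real.exp_neg, one_div]
    apply inv_anti₀ (by norm_num)
    have := Real.add_one_le_exp (1 : ℝ)
    linarith
  have h6 : (1 : ℝ) ≤ a (36 * L ^ 3) := by
    have : 1 ≤ a (36 * L ^ 3) := by omega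
    exact_mod_cast this
  have h7 : (n : ℝ) * (1 / 2) ^ L < 1 := by
    have h8 : ((n : ℝ) + 3) ≤ 2 ^ L := by exact_mod_cast hn
    have h9 : (2 : ℝ) ^ L * (1 / 2) ^ L = 1 := by
      rw [← mul_pow]
      norm_num
    have h10 : (0 : ℝ) < (1 / 2) ^ L := by positivity
    nlinarith
  have h12 : (n : ℝ) * (1 - 1 / (q : ℝ)) ^ (22 * L ^ 3) ≤ n * (1 / 2) ^ L :=
    mul_le_mul_of_nonneg_left h3 (Nat.cast_nonneg n)
  linarith

end SpreadAux

theorem spread (hE : Exp) (hH : HalfBall) : Spread := by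
  intro V Γ D H hD hm W A M hA hAne hAM hW
  have hL4 := four_le_Lg H
  have hsub : ∀ i, bl Γ (H \ W) A i ⊆ H := fun i => bl_subset.trans Finset.sdiff_subset
  have hcard : ∀ i, (H \ bl Γ (H \ W) A i).card + (bl Γ (H \ W) A i).card = H.card :=
    fun i => Finset.card_sdiff_add_card_eq_card (hsub i)
  have hhalf : H.card < 2 * (bl Γ (H \ W) A (14 * Lg H ^ 3)).card :=
    hH V Γ D H hD hm W A M hA hAne hAM (fun i hi => hW i (by omega))
  refine SpreadAux.num (fun i => (H \ bl Γ (H \ W) A i).card) H.card (Lg H) M hL4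
    (card_le_pow_Lg H) (fun i => Finset.card_le_card Finset.sdiff_subset) ?_ ?_
  · intro i
    exact Finset.card_le_card (Finset.sdiff_subset_sdiff (Finset.Subset.refl _) bl_succ_subset)
  · intro i hi1 hi2
    have h1 : H.card < 2 * (bl Γ (H \ W) A i).card :=
      lt_of_lt_of_le hhalf (Nat.mul_le_mul_left 2 (Finset.card_le_card (bl_mono hi1)))
    have h2 := SpreadAux.step hE Γ D H hD hm W (bl Γ (H \ W) A i) M bl_subset h1 (hW i hi2)
    have h3 := card_bl_succ (Γ := Γ) (S := H \ W) (A := A) (i := i)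
    have h4 := hcard i
    have h5 := hcard (i + 1)
    have h6 : (H \ bl Γ (H \ W) A i).card =
        (H \ bl Γ (H \ W) A (i + 1)).card + (nbr Γ (H \ W) (bl Γ (H \ W) A i)).card := by omega
    calc (H \ bl Γ (H \ W) A i).card + 11 * Lg H ^ 2 * (H \ bl Γ (H \ W) A (i + 1)).card
        ≤ 11 * Lg H ^ 2 * ((nbr Γ (H \ W) (bl Γ (H \ W) A i)).card + M) +
          11 * Lg H ^ 2 * (H \ bl Γ (H \ W) A (i + 1)).card := Nat.add_le_add_right h2 _
      _ = 11 * Lg H ^ 2 * ((H \ bl Γ (H \ W) A (i + 1)).card +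
          (nbr Γ (H \ W) (bl Γ (H \ W) A i)).card + M) := by ring
      _ = 11 * Lg H ^ 2 * ((H \ bl Γ (H \ W) A i).card + M) := by rw [← h6]

end Pool.Agent.Lib.MP_b6048d_co.F
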