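import Pool.Agent.Lib.MP_b6048d_co.F.SpecA

set_option autoImplicit false

/-!
# A27: one more switch.
-/

open scoped Classical

namespace Pool.Agent.Lib.MP_b6048d_co.F

namespace StepGlueAux

variable {V : Type} {Γ : SimpleGraph V}

lemma mem_app {l l' : List V} {w : V} (h : w ∈ l ++ l'.tail) : w ∈ l ∨ w ∈ l' := by
  rcases List.mem_append.1 h with h | h
  · exact Or.inl h
  · exact Or.inr (List.mem_of_mem_tail h)

/-- Joining five paths. -/
lemma glue {T : Set V} {x z y₁ s s' y₂ : V} {lx m l₁ d l₂ : List V}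
    (hx : Pth Γ T x z lx) (hm : Pth Γ T z y₁ m) (h₁ : Pth Γ T s y₁ l₁) (hd : Pth Γ T s s' d)
    (h₂ : Pth Γ T s' y₂ l₂)
    (a1 : ∀ w ∈ lx, w ∈ m → w = z)
    (a2 : ∀ w ∈ lx, w ∈ l₁ → w = y₁) (a2' : ∀ w ∈ m, w ∈ l₁ → w = y₁)
    (a3 : ∀ w ∈ lx, w ∉ d) (a3' : ∀ w ∈ m, w ∉ d) (a3'' : ∀ w ∈ l₁, w ∈ d → w = s)
    (a4 : ∀ w ∈ lx, w ∉ l₂) (a4' : ∀ w ∈ m, w ∉ l₂) (a4'' : ∀ w ∈ l₁, w ∉ l₂)
    (a5 : ∀ w ∈ d, w ∈ l₂ → w = s') :
    ∃ l, Pth Γ T x y₂ l ∧
      l.length + 4 = lx.length + m.length + l₁.length + d.length + l₂.length := by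
  have p1 := hx.append hm a1
  have e1 := hx.toWk.append_length hm.toWk
  have p2 := p1.append h₁.reverse (by
    intro w hw hw'
    rw [List.mem_reverse] at hw'
    rcases mem_app hw with h | h
    · exact a2 w h hw'
    · exact a2' w h hw')
  have e2 := p1.toWk.append_length h₁.reverse.toWk
  have m2 : ∀ w ∈ lx ++ m.tail ++ l₁.reverse.tail, w ∈ lx ∨ w ∈ m ∨ w ∈ l₁ := by
    intro w hw
    rcases mem_app hw with h | h
    · rcases mem_app h with h | h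
      · exact Or.inl h
      · exact Or.inr (Or.inl h)
    · exact Or.inr (Or.inr (List.mem_reverse.1 h))
  have p3 := p2.append hd (by
    intro w hw hw'
    rcases m2 w hw with h | h | h
    · exact absurd hw' (a3 w h)
    · exact absurd hw' (a3' w h)
    · exact a3'' w h hw')
  have e3 := p2.toWk.append_length hd.toWk
  have p4 := p3.append h₂ (by
    intro w hw hw'
    rcases mem_app hw with h | h
    · rcases m2 w h with h | h | h
      · exact absurd hw' (a4 w h)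
      · exact absurd hw' (a4' w h)
      · exact absurd hw' (a4'' w h)
    · exact a5 w h hw')
  have e4 := p3.toWk.append_length h₂.toWk
  refine ⟨_, p4, ?_⟩
  rw [List.length_reverse] at e2
  omega

/-- Vertices of a walk are in a ball around its start. -/
lemma walk_loc {S : Finset V} {u v : V} {l : List V} (h : Wk Γ (S : Set V) u v l) {N : ℕ}
    (hl : l.length ≤ N) : ∀ y ∈ l, y ∈ bl Γ S {u} N := by
  intro y hy
  obtain ⟨k, hk, rfl⟩ := List.getElem_of_mem hy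
  exact bl_mono (by omega) (h.prefix_bl k hk)

lemma nums {L : ℕ} (hL : 10 ≤ L) :
    L ^ 4 + L + L ^ 9 + L ^ 6 + L ^ 9 + (2 * L + 1) ≤ L ^ 11 ∧
    (2 * L + 1) + L ^ 9 + L ^ 6 + L ^ 6 + L ^ 9 ≤ L ^ 10 := by
  have hL1 : 1 ≤ L := by omega
  have hmon : ∀ a b : ℕ, a ≤ b → L ^ a ≤ L ^ b := fun a b h => Nat.pow_le_pow_right hL1 h
  have h1 := hmon 4 9 (by norm_num)
  have h2 := hmon 6 9 (by norm_num)
  have h3 : L ≤ L ^ 9 := Nat.le_self_pow (by norm_num) _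
  have h4 : 1 ≤ L ^ 9 := Nat.one_le_pow _ _ hL1
  have h5 : 10 * L ^ 9 ≤ L ^ 10 := by
    calc 10 * L ^ 9 ≤ L * L ^ 9 := Nat.mul_le_mul_right _ hL
      _ = L ^ 10 := by ring
  have h6 := hmon 10 11 (by norm_num)
  refine ⟨by omega, by omega⟩

end StepGlueAux

open StepGlueAux

theorem stepGlue (hHP : HatPrefix) : StepGlue := by
  refine ⟨10, ?_⟩
  intro V Γ H c₁ hL W x x' k P P' A A' z z' c hSt B D' b p q j hBs hBc hB hDev hD'c hLink hb
  obtain ⟨L, hLdef⟩ : ∃ L, L = Lg H := ⟨_, rfl⟩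
  rw [← hLdef] at hL hBc hB hD'c hLink hb ⊢
  have hL1 : 1 ≤ L := by omega
  obtain ⟨n1, n2⟩ := nums hL
  obtain ⟨s, s', y₁, y₂, l₁, l₂, hss, hy₁, hy₂, hl₁, hl₂, hdis, hm₁, hm₂, hlen₁, hlen₂⟩ := hLink
  have hcA := hSt.conA
  rw [← hLdef] at hcA
  -- memberships
  have hBm : ∀ y ∈ B, y ∈ H \ W ∧ y ∉ P ∧ y ∉ P' ∧ y ∉ A' ∧ y ∉ A := by
    intro y hy
    have h := Finset.mem_sdiff.1 (hBs hy)
    simp only [Finset.mem_union, not_or] at h
    exact ⟨Finset.mem_sdiff.2 ⟨h.1, h.2.1.1.1.1⟩, h.2.1.1.1.2, h.2.1.1.2, h.2.1.2, h.2.2⟩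
  have hDm : ∀ y ∈ D', y ∈ H \ W ∧ y ∉ P ∧ y ∉ P' ∧ y ∉ A' ∧ y ∉ A ∧ y ∉ B := by
    intro y hy
    have h := Finset.mem_sdiff.1 (hDev.sub hy)
    simp only [Finset.mem_union, not_or] at h
    exact ⟨Finset.mem_sdiff.2 ⟨h.1, h.2.1.1.1.1.1⟩, h.2.1.1.1.1.2, h.2.1.1.1.2, h.2.1.1.2, h.2.1.2,
      h.2.2⟩
  have hSm : ∀ y ∈ H \ (W ∪ (P \ {z}) ∪ P' ∪ A' ∪ (D' \ {p, q})),
      y ∈ H \ W ∧ (y ∈ P → y = z) ∧ y ∉ P' ∧ y ∉ A' ∧ (y ∈ D' → y = p ∨ y = q) := by
    intro y hy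
    have h := Finset.mem_sdiff.1 hy
    simp only [Finset.mem_union, Finset.mem_sdiff, Finset.mem_singleton, Finset.mem_insert,
      not_or, not_and, not_not] at h
    exact ⟨Finset.mem_sdiff.2 ⟨h.1, h.2.1.1.1.1⟩, h.2.1.1.1.2, h.2.1.1.2, h.2.1.2,
      fun hyD => by
        by_contra hcon
        push Not at hcon
        exact hcon.2 (h.2.2 hyD hcon.1)⟩
  have hl₁m : ∀ y ∈ l₁, y ∈ H \ W ∧ (y ∈ P → y = z) ∧ y ∉ P' ∧ y ∉ A' ∧
      (y ∈ D' → y = p ∨ y = q) := fun y hy => hSm y (by exact_mod_cast hl₁.mem y hy)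
  have hl₂m : ∀ y ∈ l₂, y ∈ H \ W ∧ (y ∈ P → y = z) ∧ y ∉ P' ∧ y ∉ A' ∧
      (y ∈ D' → y = p ∨ y = q) := fun y hy => hSm y (by exact_mod_cast hl₂.mem y hy)
  -- the two paths of the switch, from `s` to `s'`
  have hdev : (∃ d, Pth Γ (D' : Set V) s s' d ∧ d.length = j + 1) ∧
      ∃ d, Pth Γ (D' : Set V) s s' d ∧ d.length = j + 3 := by
    rcases hss with ⟨rfl, rfl⟩ | ⟨rfl, rfl⟩
    · exact ⟨hDev.short, hDev.long⟩
    · obtain ⟨d, hd, hdl⟩ := hDev.short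
      obtain ⟨d', hd', hd'l⟩ := hDev.long
      exact ⟨⟨d.reverse, hd.reverse, by rw [List.length_reverse]; exact hdl⟩,
        ⟨d'.reverse, hd'.reverse, by rw [List.length_reverse]; exact hd'l⟩⟩
  obtain ⟨⟨dS, hdS, hdSl⟩, dL, hdL, hdLl⟩ := hdev
  have hpq : ∀ y, y = p ∨ y = q → y = s ∨ y = s' := by
    intro y hy
    rcases hss with ⟨rfl, rfl⟩ | ⟨rfl, rfl⟩
    · exact hy
    · exact hy.symm
  have hs₁ : s ∈ l₁ := hl₁.left_mem
  have hs₂ : s' ∈ l₂ := hl₂.left_mem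
  have hD₁ : ∀ y ∈ l₁, y ∈ D' → y = s := by
    intro y hy hyD
    rcases hpq y ((hl₁m y hy).2.2.2.2 hyD) with h | h
    · exact h
    · exact absurd hs₂ (h ▸ fun h' => hdis hy h')
  have hD₂ : ∀ y ∈ l₂, y ∈ D' → y = s' := by
    intro y hy hyD
    rcases hpq y ((hl₂m y hy).2.2.2.2 hyD) with h | h
    · exact absurd hs₁ (h ▸ fun h' => hdis h' hy)
    · exact h
  -- the path in `A`
  obtain ⟨m₀, hm₀, hm₀l⟩ := hcA.con y₁ hy₁
  obtain ⟨m, hm, -, hml⟩ := hm₀.toPth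
  have hmA : ∀ y ∈ m, y ∈ A := fun y hy => by exact_mod_cast hm.mem y hy
  have hml' : m.length ≤ 2 * L + 1 := hml.trans hm₀l
  -- disjointness
  have hPA := hSt.PA
  have hzP := hSt.zP
  have hzA := hSt.zA
  have hP₁ : ∀ y ∈ P, y ∈ l₁ → y = y₁ := by
    intro y hy hyl
    have h := (hl₁m y hyl).2.1 hy
    exact hm₁ y hyl (Or.inl (h ▸ hzA))
  have hA₂ : ∀ y ∈ A, y ∉ l₂ := by
    intro y hy hyl
    have h := hm₂ y hyl (Or.inl hy)
    exact (hBm y₂ hy₂).2.2.2.2 (h ▸ hy)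
  have hP₂ : ∀ y ∈ P, y ∉ l₂ := by
    intro y hy hyl
    have h := (hl₂m y hyl).2.1 hy
    exact hA₂ y (h ▸ hzA) hyl
  have hB₁ : ∀ y ∈ B, y ∉ l₁ := by
    intro y hy hyl
    have h := hm₁ y hyl (Or.inr hy)
    exact (hBm y hy).2.2.2.2 (h ▸ hy₁)
  -- the new path set
  obtain ⟨P₂, hP₂def⟩ : ∃ P₂ : Finset V, P₂ = P ∪ (m.toFinset ∪ (l₁.toFinset ∪
      (dS.toFinset ∪ (dL.toFinset ∪ l₂.toFinset)))) := ⟨_, rfl⟩
  have hP₂mem : ∀ y, y ∈ P₂ ↔ y ∈ P ∨ y ∈ m ∨ y ∈ l₁ ∨ y ∈ dS ∨ y ∈ dL ∨ y ∈ l₂ := by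
    intro y
    rw [hP₂def]
    simp only [Finset.mem_union, List.mem_toFinset]
  have hdSD : ∀ y ∈ dS, y ∈ D' := fun y hy => by exact_mod_cast hdS.mem y hy
  have hdLD : ∀ y ∈ dL, y ∈ D' := fun y hy => by exact_mod_cast hdL.mem y hy
  have hcases : ∀ y ∈ P₂, y ∈ P ∨ y ∈ A ∨ y ∈ l₁ ∨ y ∈ D' ∨ y ∈ l₂ := by
    intro y hy
    rcases (hP₂mem y).1 hy with h | h | h | h | h | h
    · exact Or.inl h
    · exact Or.inr (Or.inl (hmA y h))
    · exact Or.inr (Or.inr (Or.inl h))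
    · exact Or.inr (Or.inr (Or.inr (Or.inl (hdSD y h))))
    · exact Or.inr (Or.inr (Or.inr (Or.inl (hdLD y h))))
    · exact Or.inr (Or.inr (Or.inr (Or.inr h)))
  -- the new hub
  obtain ⟨A₂, hA₂s, hA₂c, hA₂'⟩ := hHP V Γ {y₂} B (2 * L) (L ^ (c₁ + 8))
    (hat_single.2 (hB.recenter hy₂)) (by simpa using Nat.one_le_pow _ _ hL1)
    (by rw [hBc]; exact Nat.pow_le_pow_right hL1 (by omega))
  rw [hat_single] at hA₂'
  -- the glued paths
  have hglue : ∀ (lx d : List V), Pth Γ (P : Set V) x z lx → Pth Γ (D' : Set V) s s' d →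
      (∀ y ∈ d, y ∈ P₂) → ∃ l, Pth Γ (P₂ : Set V) x y₂ l ∧
        l.length + 4 = lx.length + m.length + l₁.length + d.length + l₂.length := by
    intro lx d hlx hd hdP
    have hlxP : ∀ y ∈ lx, y ∈ P := fun y hy => by exact_mod_cast hlx.mem y hy
    have hdD : ∀ y ∈ d, y ∈ D' := fun y hy => by exact_mod_cast hd.mem y hy
    refine glue (T := (P₂ : Set V)) (s := s) (s' := s') (z := z) (y₁ := y₁)
      (hlx.restrict fun y hy => ?_) (hm.restrict fun y hy => ?_) (hl₁.restrict fun y hy => ?_)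
      (hd.restrict fun y hy => ?_) (hl₂.restrict fun y hy => ?_) ?_ ?_ ?_ ?_ ?_ ?_ ?_ ?_ ?_ ?_
    · exact Finset.mem_coe.2 ((hP₂mem y).2 (Or.inl (hlxP y hy)))
    · exact Finset.mem_coe.2 ((hP₂mem y).2 (Or.inr (Or.inl hy)))
    · exact Finset.mem_coe.2 ((hP₂mem y).2 (Or.inr (Or.inr (Or.inl hy))))
    · exact Finset.mem_coe.2 (hdP y hy)
    · exact Finset.mem_coe.2 ((hP₂mem y).2 (Or.inr (Or.inr (Or.inr (Or.inr (Or.inr hy))))))
    · exact fun w hw hw' => hPA w (hlxP w hw) (hmA w hw')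
    · exact fun w hw hw' => hP₁ w (hlxP w hw) hw'
    · exact fun w hw hw' => hm₁ w hw' (Or.inl (hmA w hw))
    · exact fun w hw hw' => (hDm w (hdD w hw')).2.1 (hlxP w hw)
    · exact fun w hw hw' => (hDm w (hdD w hw')).2.2.2.2.1 (hmA w hw)
    · exact fun w hw hw' => hD₁ w hw (hdD w hw')
    · exact fun w hw => hP₂ w (hlxP w hw)
    · exact fun w hw => hA₂ w (hmA w hw)
    · exact fun w hw hw' => hdis hw hw'
    · exact fun w hw hw' => hD₂ w hw' (hdD w hw)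
  have hmpos := hm.length_pos
  have hl₁pos := hl₁.length_pos
  have hl₂pos := hl₂.length_pos
  have hdSc : dS.length ≤ L ^ 6 := hdS.length_le.trans hD'c
  have hdLc : dL.length ≤ L ^ 6 := hdL.length_le.trans hD'c
  -- locations
  have hBW : B ⊆ H \ W := fun y hy => (hBm y hy).1
  have loc1 : y₂ ∈ bl Γ (H \ W) {x} (L ^ 4 + L) := by
    obtain ⟨l, hl, hlen⟩ := hB.con y₂ hy₂
    exact bl_trans hb (mem_bl_single.2 ⟨l, hl.mono (by exact_mod_cast hBW), hlen⟩)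
  have pl₂ : Pth Γ ((H \ W : Finset V) : Set V) s' y₂ l₂ :=
    hl₂.restrict fun y hy => Finset.mem_coe.2 (hl₂m y hy).1
  have pl₁ : Pth Γ ((H \ W : Finset V) : Set V) s y₁ l₁ :=
    hl₁.restrict fun y hy => Finset.mem_coe.2 (hl₁m y hy).1
  have pdS : Pth Γ ((H \ W : Finset V) : Set V) s s' dS :=
    hdS.restrict fun y hy => Finset.mem_coe.2 (hDm y (hdSD y hy)).1
  have pdL : Pth Γ ((H \ W : Finset V) : Set V) s s' dL :=
    hdL.restrict fun y hy => Finset.mem_coe.2 (hDm y (hdLD y hy)).1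
  have pm : Pth Γ ((H \ W : Finset V) : Set V) z y₁ m :=
    hm.restrict fun y hy => Finset.mem_coe.2 (hSt.subA (hmA y hy))
  have loc2 : ∀ y ∈ l₂, y ∈ bl Γ (H \ W) {x} (L ^ 4 + L + L ^ 9) := by
    intro y hy
    exact bl_trans loc1 (walk_loc pl₂.reverse.toWk (by rw [List.length_reverse]; exact hlen₂) y
      (List.mem_reverse.2 hy))
  have loc3 : ∀ y ∈ dS, y ∈ bl Γ (H \ W) {x} (L ^ 4 + L + L ^ 9 + L ^ 6) := by
    intro y hy
    exact bl_trans (loc2 s' hs₂) (walk_loc pdS.reverse.toWk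
      (by rw [List.length_reverse]; exact hdSc) y (List.mem_reverse.2 hy))
  have loc3' : ∀ y ∈ dL, y ∈ bl Γ (H \ W) {x} (L ^ 4 + L + L ^ 9 + L ^ 6) := by
    intro y hy
    exact bl_trans (loc2 s' hs₂) (walk_loc pdL.reverse.toWk
      (by rw [List.length_reverse]; exact hdLc) y (List.mem_reverse.2 hy))
  have loc4 : ∀ y ∈ l₁, y ∈ bl Γ (H \ W) {x} (L ^ 4 + L + L ^ 9 + L ^ 6 + L ^ 9) := by
    intro y hy
    exact bl_trans (loc3 s pdS.left_mem) (walk_loc pl₁.toWk hlen₁ y hy)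
  have loc5 : ∀ y ∈ m, y ∈ bl Γ (H \ W) {x}
      (L ^ 4 + L + L ^ 9 + L ^ 6 + L ^ 9 + (2 * L + 1)) := by
    intro y hy
    exact bl_trans (loc4 y₁ pl₁.right_mem) (walk_loc pm.reverse.toWk
      (by rw [List.length_reverse]; exact hml') y (List.mem_reverse.2 hy))
  refine ⟨P₂, A₂, y₂, c + (m.length - 1) + (l₁.length - 1) + j + (l₂.length - 1), ?_, ?_, ?_, ?_⟩
  · refine ⟨?_, hSt.subP', hA₂s.trans hBW, hSt.subA', ?_, hA₂'.mem, hSt.zP', hSt.zA', ?_, hSt.PA',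
      ?_, ?_, ?_, ?_, ?_, hSt.cardA', ?_, hSt.conA', ?_, hSt.path', ?_, hSt.locP'⟩
    · intro y hy
      rcases hcases y hy with h | h | h | h | h
      · exact hSt.subP h
      · exact hSt.subA h
      · exact (hl₁m y h).1
      · exact (hDm y h).1
      · exact (hl₂m y h).1
    · exact (hP₂mem y₂).2 (Or.inr (Or.inr (Or.inr (Or.inr (Or.inr hl₂.right_mem)))))
    · intro y hy hyA
      have hyB := hA₂s hyA
      rcases hcases y hy with h | h | h | h | h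
      · exact absurd h (hBm y hyB).2.1
      · exact absurd h (hBm y hyB).2.2.2.2
      · exact absurd h (hB₁ y hyB)
      · exact absurd hyB (hDm y h).2.2.2.2.2
      · exact hm₂ y h (Or.inr hyB)
    · rw [Finset.disjoint_left]
      intro y hy hy'
      rcases hcases y hy with h | h | h | h | h
      · exact Finset.disjoint_left.1 hSt.dPP h hy'
      · exact Finset.disjoint_left.1 hSt.dAP' h hy'
      · exact (hl₁m y h).2.2.1 hy'
      · exact (hDm y h).2.2.1 hy'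
      · exact (hl₂m y h).2.2.1 hy'
    · rw [Finset.disjoint_left]
      intro y hy hy'
      rcases hcases y hy with h | h | h | h | h
      · exact Finset.disjoint_left.1 hSt.dPA' h hy'
      · exact Finset.disjoint_left.1 hSt.dAA' h hy'
      · exact (hl₁m y h).2.2.2.1 hy'
      · exact (hDm y h).2.2.2.1 hy'
      · exact (hl₂m y h).2.2.2.1 hy'
    · rw [Finset.disjoint_left]
      intro y hy hy'
      exact (hBm y (hA₂s hy)).2.2.1 hy'
    · rw [Finset.disjoint_left]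
      intro y hy hy'
      exact (hBm y (hA₂s hy)).2.2.2.1 hy'
    · rw [← hLdef]; exact hA₂c
    · rw [← hLdef]; exact hA₂'
    · intro i hi
      rcases Nat.lt_or_ge k i with h | h
      · obtain rfl : i = k + 1 := by omega
        obtain ⟨lx, hlx, hlxl⟩ := hSt.paths k le_rfl
        obtain ⟨l, hl, hll⟩ := hglue lx dL hlx hdL fun y hy =>
          (hP₂mem y).2 (Or.inr (Or.inr (Or.inr (Or.inr (Or.inl hy)))))
        exact ⟨l, hl, by omega⟩
      · obtain ⟨lx, hlx, hlxl⟩ := hSt.paths i h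
        obtain ⟨l, hl, hll⟩ := hglue lx dS hlx hdS fun y hy =>
          (hP₂mem y).2 (Or.inr (Or.inr (Or.inr (Or.inl hy))))
        exact ⟨l, hl, by omega⟩
    · intro y hy
      rw [← hLdef]
      rcases (hP₂mem y).1 hy with h | h | h | h | h | h
      · rw [hLdef]; exact hSt.locP y h
      · exact bl_mono (by omega) (loc5 y h)
      · exact bl_mono (by omega) (loc4 y h)
      · exact bl_mono (by omega) (loc3 y h)
      · exact bl_mono (by omega) (loc3' y h)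
      · exact bl_mono (by omega) (loc2 y h)
  · rw [hP₂def]
    have h1 := Finset.card_union_le P (m.toFinset ∪ (l₁.toFinset ∪
      (dS.toFinset ∪ (dL.toFinset ∪ l₂.toFinset))))
    have h2 := Finset.card_union_le m.toFinset (l₁.toFinset ∪
      (dS.toFinset ∪ (dL.toFinset ∪ l₂.toFinset)))
    have h3 := Finset.card_union_le l₁.toFinset (dS.toFinset ∪ (dL.toFinset ∪ l₂.toFinset))
    have h4 := Finset.card_union_le dS.toFinset (dL.toFinset ∪ l₂.toFinset)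
    have h5 := Finset.card_union_le dL.toFinset l₂.toFinset
    have c1 := List.toFinset_card_le m
    have c2 := List.toFinset_card_le l₁
    have c3 := List.toFinset_card_le dS
    have c4 := List.toFinset_card_le dL
    have c5 := List.toFinset_card_le l₂
    omega
  · omega
  · omega

end Pool.Agent.Lib.MP_b6048d_co.F
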