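import Pool.Agent.Lib.MP_b6048d_co.F.SpecA

set_option autoImplicit false

/-!
# A26 StepSets: the objects used in one step of the chain
-/

open scoped Classical

namespace Pool.Agent.Lib.MP_b6048d_co.F

namespace StepSetsAux

lemma num1 (L c : ℕ) (hL : 20 ≤ L) :
    40 * L ^ 2 * (L ^ c + L ^ (c + 4)) ≤ L ^ (c + 8) := by
  have h1 : L ^ c ≤ L ^ (c + 4) := Nat.pow_le_pow_right (by omega) (by omega)
  have h2 : 80 ≤ L ^ 2 := by nlinarith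
  calc 40 * L ^ 2 * (L ^ c + L ^ (c + 4)) ≤ 40 * L ^ 2 * (2 * L ^ (c + 4)) := by
        apply Nat.mul_le_mul_left; omega
    _ = 80 * (L ^ 2 * L ^ (c + 4)) := by ring
    _ ≤ L ^ 2 * (L ^ 2 * L ^ (c + 4)) := Nat.mul_le_mul_right _ h2
    _ = L ^ (c + 8) := by ring

lemma num2 (L c : ℕ) (hL : 20 ≤ L) : L ^ c + L ^ (c + 4) + L ^ (c + 16) ≤ L ^ (c + 17) := by
  have h1 : L ^ c ≤ L ^ (c + 16) := Nat.pow_le_pow_right (by omega) (by omega)
  have h2 : L ^ (c + 4) ≤ L ^ (c + 16) := Nat.pow_le_pow_right (by omega) (by omega)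
  have h3 : L ^ (c + 17) = L * L ^ (c + 16) := by rw [pow_succ]; ring
  have h4 : 20 * L ^ (c + 16) ≤ L * L ^ (c + 16) := Nat.mul_le_mul_right _ hL
  omega

lemma num3 (L c : ℕ) (hL : 20 ≤ L) : L ^ (c + 17) + L ^ (c + 12) ≤ L ^ (c + 18) := by
  have h1 : L ^ (c + 12) ≤ L ^ (c + 17) := Nat.pow_le_pow_right (by omega) (by omega)
  have h3 : L ^ (c + 18) = L * L ^ (c + 17) := by rw [pow_succ]; ring
  have h4 : 20 * L ^ (c + 17) ≤ L * L ^ (c + 17) := Nat.mul_le_mul_right _ hL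
  omega

lemma num4 (L c X : ℕ) (hL : 20 ≤ L) (hc : 16 ≤ c)
    (hX : X ≤ L ^ c + L ^ (c + 4) + L ^ 6) :
    40 * L ^ 2 * (X + L ^ (c + 12) + 2) ≤ L ^ (c + 16) := by
  have h1 : L ^ c ≤ L ^ (c + 12) := Nat.pow_le_pow_right (by omega) (by omega)
  have h2 : L ^ (c + 4) ≤ L ^ (c + 12) := Nat.pow_le_pow_right (by omega) (by omega)
  have h3 : L ^ 6 ≤ L ^ (c + 12) := Nat.pow_le_pow_right (by omega) (by omega)
  have h4 : L ^ 1 ≤ L ^ (c + 12) := Nat.pow_le_pow_right (by omega) (by omega)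
  rw [pow_one] at h4
  have h5 : 200 ≤ L ^ 2 := by nlinarith
  calc 40 * L ^ 2 * (X + L ^ (c + 12) + 2) ≤ 40 * L ^ 2 * (5 * L ^ (c + 12)) := by
        apply Nat.mul_le_mul_left; omega
    _ = 200 * (L ^ 2 * L ^ (c + 12)) := by ring
    _ ≤ L ^ 2 * (L ^ 2 * L ^ (c + 12)) := Nat.mul_le_mul_right _ h5
    _ = L ^ (c + 16) := by ring

lemma num5 (L c X : ℕ) (hL : 20 ≤ L) (hc : 16 ≤ c)
    (hX : X ≤ L ^ c + L ^ (c + 4) + L ^ 6) :
    40 * L ^ 2 * (X + L ^ (c + 8) + 2) ≤ L ^ (c + 12) := by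
  have h1 : L ^ c ≤ L ^ (c + 8) := Nat.pow_le_pow_right (by omega) (by omega)
  have h2 : L ^ (c + 4) ≤ L ^ (c + 8) := Nat.pow_le_pow_right (by omega) (by omega)
  have h3 : L ^ 6 ≤ L ^ (c + 8) := Nat.pow_le_pow_right (by omega) (by omega)
  have h4 : L ^ 1 ≤ L ^ (c + 8) := Nat.pow_le_pow_right (by omega) (by omega)
  rw [pow_one] at h4
  have h5 : 200 ≤ L ^ 2 := by nlinarith
  calc 40 * L ^ 2 * (X + L ^ (c + 8) + 2) ≤ 40 * L ^ 2 * (5 * L ^ (c + 8)) := by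
        apply Nat.mul_le_mul_left; omega
    _ = 200 * (L ^ 2 * L ^ (c + 8)) := by ring
    _ ≤ L ^ 2 * (L ^ 2 * L ^ (c + 8)) := Nat.mul_le_mul_right _ h5
    _ = L ^ (c + 12) := by ring

lemma num6 (L c X : ℕ) (hL : 20 ≤ L) (hc : 16 ≤ c)
    (hX : X ≤ L ^ c + L ^ (c + 4) + L ^ 6) :
    40 * L ^ 2 * (X + L ^ (c + 8) + L ^ (c + 12) + 2) ≤ L ^ (c + 18 + 20) := by
  have h1 : L ^ c ≤ L ^ (c + 12) := Nat.pow_le_pow_right (by omega) (by omega)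
  have h2 : L ^ (c + 4) ≤ L ^ (c + 12) := Nat.pow_le_pow_right (by omega) (by omega)
  have h3 : L ^ 6 ≤ L ^ (c + 12) := Nat.pow_le_pow_right (by omega) (by omega)
  have h4 : L ^ 1 ≤ L ^ (c + 12) := Nat.pow_le_pow_right (by omega) (by omega)
  rw [pow_one] at h4
  have h6 : L ^ (c + 8) ≤ L ^ (c + 12) := Nat.pow_le_pow_right (by omega) (by omega)
  have h5 : 240 ≤ L ^ 2 := by nlinarith
  calc 40 * L ^ 2 * (X + L ^ (c + 8) + L ^ (c + 12) + 2) ≤ 40 * L ^ 2 * (6 * L ^ (c + 12)) := by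
        apply Nat.mul_le_mul_left; omega
    _ = 240 * (L ^ 2 * L ^ (c + 12)) := by ring
    _ ≤ L ^ 2 * (L ^ 2 * L ^ (c + 12)) := Nat.mul_le_mul_right _ h5
    _ = L ^ (c + 16) := by ring
    _ ≤ L ^ (c + 18 + 20) := Nat.pow_le_pow_right (by omega) (by omega)

lemma num7 (L : ℕ) (hL : 20 ≤ L) :
    (28 * L ^ 3 + 2 * (14 * L ^ 3) + 4) ^ 2 ≤ L ^ 9 := by
  have h1 : 8000 ≤ L ^ 3 := by
    calc 8000 = 20 ^ 3 := by norm_num
      _ ≤ L ^ 3 := Nat.pow_le_pow_left hL 3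
  calc (28 * L ^ 3 + 2 * (14 * L ^ 3) + 4) ^ 2 ≤ (60 * L ^ 3) ^ 2 := by
        apply Nat.pow_le_pow_left; omega
    _ = 3600 * L ^ 6 := by ring
    _ ≤ L ^ 3 * L ^ 6 := Nat.mul_le_mul_right _ (by omega)
    _ = L ^ 9 := by ring

lemma linkC_mono {V : Type} {Γ : SimpleGraph V} {S S' : Finset V} {p q : V} {A B : Finset V}
    {m m' : ℕ} (h : LinkC Γ S p q A B m) (hS : S = S') (hm : m ≤ m') : LinkC Γ S' p q A B m' := by
  subst hS
  obtain ⟨s, s', y₁, y₂, l₁, l₂, h1, h2, h3, h4, h5, h6, h7, h8, h9, h10⟩ := h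
  exact ⟨s, s', y₁, y₂, l₁, l₂, h1, h2, h3, h4, h5, h6, h7, h8, h9.trans hm, h10.trans hm⟩

lemma port_aux {V : Type} {Γ : SimpleGraph V} {S S' D' : Finset V} {p q s : V} {Y r r' : ℕ}
    (h : Port Γ S D' Y r s) (hr : r ≤ r') (hp : p ∈ D') (hq : q ∈ D') (hs : s = p ∨ s = q)
    (hS : ∀ y ∈ S, (y ∈ D' → y = s) → y ∈ S') : Port Γ S' {p, q} Y r' s := by
  intro c hc
  obtain ⟨B, h1, h2, h3, h4, h5⟩ := h c hc
  refine ⟨B, fun y hy => hS y (h1 hy) (h5 y hy), h2, h3.radius hr, h4, ?_⟩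
  intro y hy hy2
  rw [Finset.mem_insert, Finset.mem_singleton] at hy2
  rcases hy2 with rfl | rfl
  · exact h5 _ hy hp
  · exact h5 _ hy hq

end StepSetsAux

open StepSetsAux

theorem stepSets (hM : MinBasics) (hHB : HalfBall) (hHP : HatPrefix) (hNS : NewSet)
    (hDv : DeviceLemma) (hLH : LinkH) : StepSets := by
  intro c₁ hc₁
  obtain ⟨D₁, hD₁, hD₁'⟩ := hNS (c₁ + 17) (c₁ + 12)
  obtain ⟨D₂, hD₂, hD₂'⟩ := hDv (c₁ + 18)
  obtain ⟨L₁, hL₁⟩ := poly_Lg_le 2 (c₁ + 16)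
  obtain ⟨D₃, hD₃, hD₃'⟩ := hM.2 (max L₁ 20)
  refine ⟨max (max D₁ D₂) ⌈D₃⌉₊, le_max_of_le_left (le_max_of_le_left hD₁), ?_⟩
  intro V Γ col D H hD hMin hcol W x x' k P P' A A' z z' c hSt hcard
  have hDD₁ : D₁ ≤ D := (le_max_left _ _).trans ((le_max_left _ _).trans hD)
  have hDD₂ : D₂ ≤ D := (le_max_right _ _).trans ((le_max_left _ _).trans hD)
  have hDD₃ : D₃ ≤ D := by
    have h1 : ⌈D₃⌉₊ ≤ D := (le_max_right _ _).trans hD
    exact (Nat.le_ceil D₃).trans (by exact_mod_cast h1)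
  have hD1 : (1 : ℝ) ≤ D := by
    have : 1 ≤ D := hD₁.trans hDD₁
    exact_mod_cast this
  have hLbig := (hD₃' V Γ D H hDD₃ hMin).1
  have hL20 : 20 ≤ Lg H := (le_max_right _ _).trans hLbig
  have hLL₁ : L₁ ≤ Lg H := (le_max_left _ _).trans hLbig
  have hn : 2 * Lg H ^ (c₁ + 16) ≤ H.card := hL₁ H hMin.ne hLL₁
  set L := Lg H with hLdef
  -- the forbidden set
  set O' : Finset V := (W ∩ H) ∪ (P \ {z}) ∪ P' ∪ A' with hO'
  have hmemO' : ∀ y, y ∈ O' ↔ (y ∈ W ∧ y ∈ H) ∨ (y ∈ P ∧ y ≠ z) ∨ y ∈ P' ∨ y ∈ A' := by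
    intro y
    simp only [hO', Finset.mem_union, Finset.mem_inter, Finset.mem_sdiff, Finset.mem_singleton,
      or_assoc]
  have hPH : ∀ y ∈ P, y ∈ H := fun y hy => (Finset.mem_sdiff.1 (hSt.subP hy)).1
  have hP'H : ∀ y ∈ P', y ∈ H := fun y hy => (Finset.mem_sdiff.1 (hSt.subP' hy)).1
  have hA'H : ∀ y ∈ A', y ∈ H := fun y hy => (Finset.mem_sdiff.1 (hSt.subA' hy)).1
  have hAH : ∀ y ∈ A, y ∈ H := fun y hy => (Finset.mem_sdiff.1 (hSt.subA hy)).1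
  have hO'H : O' ⊆ H := by
    intro y hy
    rcases (hmemO' y).1 hy with h | h | h | h
    · exact h.2
    · exact hPH y h.1
    · exact hP'H y h
    · exact hA'H y h
  have hO'card : O'.card ≤ L ^ c₁ + L ^ (c₁ + 4) := by
    have h1 : O'.card ≤ (W ∩ H).card + (P \ {z}).card + P'.card + A'.card := by
      rw [hO']
      refine (Finset.card_union_le _ _).trans ?_
      refine Nat.add_le_add_right ((Finset.card_union_le _ _).trans ?_) _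
      exact Nat.add_le_add_right (Finset.card_union_le _ _) _
    have h2 : (P \ {z}).card ≤ P.card := Finset.card_le_card Finset.sdiff_subset
    have h3 := hSt.cardA'
    rw [← hLdef] at h3
    omega
  have hAO' : A ⊆ H \ O' := by
    intro y hy
    rw [Finset.mem_sdiff]
    refine ⟨hAH y hy, fun h => ?_⟩
    rcases (hmemO' y).1 h with h | h | h | h
    · exact (Finset.mem_sdiff.1 (hSt.subA hy)).2 h.1
    · exact h.2 (hSt.PA y h.1 hy)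
    · exact Finset.disjoint_left.1 hSt.dAP' hy h
    · exact Finset.disjoint_left.1 hSt.dAA' hy h
  have hAne : A.Nonempty := ⟨z, hSt.zA⟩
  -- the hat
  have hhb := hHB V Γ D H hD1 hMin O' A O'.card hAO' hAne (by
    rw [hSt.cardA, ← hLdef]
    exact (Nat.mul_le_mul_left _ hO'card).trans (num1 L c₁ hL20)) (by
    intro i _
    refine Finset.card_le_card fun y hy => ?_
    exact (Finset.mem_inter.1 (Finset.mem_filter.1 hy).1).1)
  rw [← hLdef] at hhb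
  have hAcard : A.card ≤ L ^ (c₁ + 16) := by
    rw [hSt.cardA]
    exact Nat.pow_le_pow_right (by omega) (by omega)
  obtain ⟨A₁, hA₁sub, hA₁card, hA₁hat⟩ := hHP V Γ A (bl Γ (H \ O') A (14 * L ^ 3)) (14 * L ^ 3)
    (L ^ (c₁ + 16)) (hat_bl hAO') hAcard (by omega)
  have hA₁O' : A₁ ⊆ H \ O' := hA₁sub.trans bl_subset
  -- the new hub
  have hR₁ : O' ∪ A₁ ⊆ H := Finset.union_subset hO'H (hA₁O'.trans Finset.sdiff_subset)
  have hR₁card : (O' ∪ A₁).card ≤ L ^ (c₁ + 17) := by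
    have h1 := Finset.card_union_le O' A₁
    have h2 := num2 L c₁ hL20
    omega
  obtain ⟨b, B, hBsub, hBcard, hBcon⟩ := hD₁' V Γ D H hDD₁ hMin (O' ∪ A₁) hR₁ hR₁card
  rw [← hLdef] at hBcard hBcon
  have hBH : ∀ y ∈ B, y ∈ H := fun y hy => (Finset.mem_sdiff.1 (hBsub hy)).1
  have hBO' : ∀ y ∈ B, y ∉ O' := fun y hy h =>
    (Finset.mem_sdiff.1 (hBsub hy)).2 (Finset.mem_union_left _ h)
  have hBA₁ : ∀ y ∈ B, y ∉ A₁ := fun y hy h =>
    (Finset.mem_sdiff.1 (hBsub hy)).2 (Finset.mem_union_right _ h)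
  have hAA₁ : A ⊆ A₁ := hA₁hat.sub
  -- the switch
  have hR₂ : O' ∪ A₁ ∪ B ⊆ H := Finset.union_subset hR₁ hBH
  have hR₂card : (O' ∪ A₁ ∪ B).card ≤ L ^ (c₁ + 18) := by
    have h1 := Finset.card_union_le (O' ∪ A₁) B
    have h2 := num3 L c₁ hL20
    omega
  obtain ⟨p, q, D', j, hdev, hD'card, hportp, hportq⟩ :=
    hD₂' V Γ col D H hDD₂ hMin hcol (O' ∪ A₁ ∪ B) hR₂ hR₂card
  rw [← hLdef] at hD'card hportp hportq
  have hD'R : ∀ y ∈ D', y ∈ H ∧ y ∉ O' ∧ y ∉ A₁ ∧ y ∉ B := by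
    intro y hy
    have h1 := hdev.sub hy
    simp only [Finset.mem_sdiff, Finset.mem_union, not_or] at h1
    exact ⟨h1.1, h1.2.1.1, h1.2.1.2, h1.2.2⟩
  -- the link
  set O : Finset V := O' ∪ (D' \ {p, q}) with hO
  have hmemO : ∀ y, y ∈ O ↔ y ∈ O' ∨ (y ∈ D' ∧ y ≠ p ∧ y ≠ q) := by
    intro y
    simp only [hO, Finset.mem_union, Finset.mem_sdiff, Finset.mem_insert, Finset.mem_singleton,
      not_or]
  have hOcard : O.card ≤ L ^ c₁ + L ^ (c₁ + 4) + L ^ 6 := by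
    have h1 := Finset.card_union_le O' (D' \ {p, q})
    have h2 : (D' \ {p, q}).card ≤ D'.card := Finset.card_le_card Finset.sdiff_subset
    rw [← hO] at h1
    omega
  have hpO : p ∈ H \ O := by
    have h1 := hD'R p hdev.memp
    rw [Finset.mem_sdiff, hmemO]
    refine ⟨h1.1, ?_⟩
    rintro (h | h)
    · exact h1.2.1 h
    · exact h.2.1 rfl
  have hqO : q ∈ H \ O := by
    have h1 := hD'R q hdev.memq
    rw [Finset.mem_sdiff, hmemO]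
    refine ⟨h1.1, ?_⟩
    rintro (h | h)
    · exact h1.2.1 h
    · exact h.2.2 rfl
  have hA₁O : A₁ ⊆ H \ O := by
    intro y hy
    have h1 := Finset.mem_sdiff.1 (hA₁O' hy)
    rw [Finset.mem_sdiff, hmemO]
    refine ⟨h1.1, ?_⟩
    rintro (h | h)
    · exact h1.2 h
    · exact (hD'R y h.1).2.2.1 hy
  have hBO : B ⊆ H \ O := by
    intro y hy
    rw [Finset.mem_sdiff, hmemO]
    refine ⟨hBH y hy, ?_⟩
    rintro (h | h)
    · exact hBO' y hy h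
    · exact (hD'R y h.1).2.2.2 hy
  have hport : ∀ s, (s = p ∨ s = q) → Port Γ (H \ (O' ∪ A₁ ∪ B)) D' (L ^ (c₁ + 18 + 20)) L s →
      Port Γ (H \ (O ∪ A₁ ∪ B)) {p, q} (L ^ (c₁ + 18 + 20)) (14 * L ^ 3) s := by
    intro s hs hps
    refine port_aux hps ?_ hdev.memp hdev.memq hs ?_
    · calc L = L ^ 1 := (pow_one L).symm
        _ ≤ L ^ 3 := Nat.pow_le_pow_right (by omega) (by norm_num)
        _ ≤ 14 * L ^ 3 := by omega
    · intro y hy hyD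
      simp only [Finset.mem_sdiff, Finset.mem_union, not_or] at hy ⊢
      refine ⟨hy.1, ⟨?_, hy.2.1.2⟩, hy.2.2⟩
      rw [hmemO]
      rintro (h | h)
      · exact hy.2.1.1 h
      · have := hyD h.1
        rcases hs with rfl | rfl
        · exact h.2.1 this
        · exact h.2.2 this
  have hlink := hLH V Γ D H hD1 hMin O A A₁ B p q (14 * L ^ 3) (L ^ (c₁ + 18 + 20)) hdev.ne hpO hqO
    hA₁O hBO (Finset.disjoint_left.2 fun y hy hy' => hBA₁ y hy' hy)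
    (hD'R p hdev.memp).2.2.1 (hD'R p hdev.memp).2.2.2
    (hD'R q hdev.memq).2.2.1 (hD'R q hdev.memq).2.2.2 hAne hA₁hat
    (by rw [hA₁card, hBcard]; exact num4 L c₁ O.card hL20 hc₁ hOcard)
    (by rw [hBcard, hSt.cardA]; exact num5 L c₁ O.card hL20 hc₁ hOcard)
    (by rw [hBcard, hSt.cardA]; exact num6 L c₁ O.card hL20 hc₁ hOcard)
    (hport p (Or.inl rfl) hportp) (hport q (Or.inr rfl) hportq)
  refine ⟨B, D', b, p, q, j, ?_, hBcard, hBcon, ?_, hD'card, ?_⟩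
  · intro y hy
    simp only [Finset.mem_sdiff, Finset.mem_union, not_or]
    have h1 := hBO' y hy
    rw [hmemO'] at h1
    simp only [not_or] at h1
    have hyA : y ∉ A := fun h => hBA₁ y hy (hAA₁ h)
    refine ⟨hBH y hy, ⟨⟨⟨⟨fun h => h1.1 ⟨h, hBH y hy⟩, fun h => ?_⟩, h1.2.2.1⟩, h1.2.2.2⟩, hyA⟩⟩
    by_cases hyz : y = z
    · exact hyA (hyz ▸ hSt.zA)
    · exact h1.2.1 ⟨h, hyz⟩
  · refine ⟨hdev.ne, ?_, hdev.memp, hdev.memq, hdev.short, hdev.long⟩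
    intro y hy
    have h0 := hD'R y hy
    simp only [Finset.mem_sdiff, Finset.mem_union, not_or]
    have h1 := h0.2.1
    rw [hmemO'] at h1
    simp only [not_or] at h1
    have hyA : y ∉ A := fun h => h0.2.2.1 (hAA₁ h)
    refine ⟨h0.1, ⟨⟨⟨⟨⟨fun h => h1.1 ⟨h, h0.1⟩, fun h => ?_⟩, h1.2.2.1⟩, h1.2.2.2⟩, hyA⟩,
      h0.2.2.2⟩⟩
    by_cases hyz : y = z
    · exact hyA (hyz ▸ hSt.zA)
    · exact h1.2.1 ⟨h, hyz⟩
  · refine linkC_mono hlink ?_ (num7 L hL20)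
    ext y
    rw [Finset.mem_sdiff, hmemO, hmemO', Finset.mem_sdiff]
    simp only [Finset.mem_sdiff, Finset.mem_union, Finset.mem_insert, Finset.mem_singleton, not_or]
    constructor
    · rintro ⟨hH, ⟨h1, h2, h3, h4⟩, h5⟩
      exact ⟨hH, ⟨⟨⟨fun h => h1 ⟨h, hH⟩, fun h => h2 h⟩, h3⟩, h4⟩, fun h => h5 ⟨h.1, h.2.1, h.2.2⟩⟩
    · rintro ⟨hH, ⟨⟨⟨h1, h2⟩, h3⟩, h4⟩, h5⟩
      exact ⟨hH, ⟨fun h => h1 h.1, fun h => h2 h, h3, h4⟩, fun h => h5 ⟨h.1, h.2.1, h.2.2⟩⟩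

end Pool.Agent.Lib.MP_b6048d_co.F
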