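import Pool.Agent.Lib.MP_b6048d_co.F.Base3
import Pool.Agent.Lib.MP_b6048d_co.Growth

set_option autoImplicit false

/-!
# Section C of the full solution of MP_b6048d_co: short odd cycles and the gap lemma

Every `Prop` is to be proved in its own file; the docstring is a complete proof. Statements proved
in other files may be used as HYPOTHESES.
-/

open scoped Classical

namespace Pool.Agent.Lib.MP_b6048d_co.F

variable {V : Type*}

/-- `w` is linked to `x` by a path with at most `k` edges whose inner vertices are outside `W`. -/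
def Lk (G : SimpleGraph V) (W : Set V) (x w : V) (k : ℕ) : Prop :=
  ∃ r : List V, Pth G Set.univ x w r ∧ r.length ≤ k + 1 ∧ ∀ z ∈ r, z ∈ W → z = x ∨ z = w

/-- `l` is an ear of `Q` through `v`: a path between two distinct elements of `Q` whose inner
vertices are outside `Q`, and which contains `v ∉ Q`. -/
structure Ear (G : SimpleGraph V) (Q : Set V) (q₁ q₂ v : V) (l : List V) : Prop where
  q1 : q₁ ∈ Q
  q2 : q₂ ∈ Q
  ne : q₁ ≠ q₂
  pth : Pth G Set.univ q₁ q₂ l
  int : ∀ x ∈ l, x ∈ Q → x = q₁ ∨ x = q₂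
  mem : v ∈ l
  out : v ∉ Q

/-- A shortest ear through `v`. -/
def MinEar (G : SimpleGraph V) (Q : Set V) (q₁ q₂ v : V) (l : List V) : Prop :=
  Ear G Q q₁ q₂ v l ∧ ∀ q₁' q₂' l', Ear G Q q₁' q₂' v l' → l.length ≤ l'.length

/-- The indices `c > m` such that the `c`-th vertex of `l` is linked to the `a`-th one. -/
noncomputable def TS (G : SimpleGraph V) (W : Set V) (l : List V) (m k a : ℕ) : Finset ℕ :=
  (Finset.Ioc m (l.length - 1)).filter
    (fun c => ∃ x t, l[a]? = some x ∧ l[c]? = some t ∧ Lk G W x t k)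

/-- **C00 CovMono.** Monotonicity in the parameters.
Proof. Immediate from the definitions: `lam ^ C' ≤ lam ^ C` for `lam ≥ 1` (if `lam = 0` and `C' = 0`:
`ℓ ≤ 1`, take care: if `C ≥ 1` then `0 ^ C = 0`; we assume `1 ≤ lam`), `Thin` is monotone
in `κ`. -/
def CovMono : Prop :=
  (∀ (V : Type) (Γ : SimpleGraph V) (col : V → Bool) (H : Finset V) (κ κ' C C' lam : ℕ), 1 ≤ lam →
    κ' ≤ κ → C' ≤ C → Blob κ C lam Γ col H → Blob κ' C' lam Γ col H) ∧
  (∀ (V : Type) (G : SimpleGraph V) (κ κ' C C' lam₀ lam₀' : ℕ), 1 ≤ lam₀ → κ' ≤ κ → C' ≤ C →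
    lam₀' ≤ lam₀ → Cov G κ C lam₀ → Cov G κ' C' lam₀')

/-- **C01 ShortOddThin.** A shortest odd cycle with two vertices in `H` is thin.
Proof. Let `W = Q \ {u, v}` and let `w ∈ W ∩ H` be `Γ`-adjacent to some `x ∈ bl Γ (H \ W) {u} i`.
There is a walk of `Γ` from `u` to `w` with at most `i + 1` edges, all vertices but `w` in `H \ W`;
take a path (`Wk.toPth`) and cut it at its last vertex `s` in `{u, v}` before `w`
(`exists_last`): a path `R` of `G` from `s ∈ {u,v}` to `w` with `ρ ≤ i + 1` edges, inner vertices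
outside `Q`. Let `a`, `b` be the numbers of edges of the two arcs of `Q` between `s` and `w`
(`cyc_arcs`), `a + b = |Q|` odd. If `a > ρ` and `b > ρ`, one of them, say `a`, has parity different
from `ρ`; `R` and this arc form a cycle of odd length `a + ρ < |Q|` (`Pth.theta`; `a ≥ 2`)
containing `s ≠ w` of `H`, contrary to the minimality of `Q`. So `w` is at distance at most
`ρ ≤ i+1` from `u` or `v` along `Q`: at most `4 (i+1) ≤ 4 (i+1)^3` possibilities. (Count: write `Q`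
rotated, `Q = s :: t`; then `w` is among the first `i+1` or the last `i+1` entries of `t`.) -/
def ShortOddThin : Prop := ∀ (V : Type) (G Γ : SimpleGraph V) (H : Finset V) (Q : List V)
  (u v : V), Γ ≤ G → IsCyc G Q → Odd Q.length → u ∈ Q → v ∈ Q → u ≠ v → u ∈ H → v ∈ H →
  (∀ Q' : List V, IsCyc G Q' → Odd Q'.length → (∃ a ∈ Q', ∃ b ∈ Q', a ≠ b ∧ a ∈ H ∧ b ∈ H) →
    Q.length ≤ Q'.length) →
  Thin Γ 4 H (Q.toFinset \ {u, v}) u

/-- **C02 LongOdd.** Odd cycles with two vertices in a blob are long.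
Proof. Suppose `|Q| ≤ lam^200` for some odd cycle with two vertices in `H`, and let `Q` be a shortest
odd cycle with two vertices `u ≠ v` in `H`. By `ShortOddThin` (used for `u` and for `v`; the
set `Q \ {u,v}` is symmetric in `u, v`) `W = Q \ {u,v}` is thin at `u` and at `v` with constant
`4 ≤ κ`. `Miss G A R` with `n = lam^201 ≥ R` gives a missing length `y` with
`2 lam^201 + 1 ≤ y ≤ lam^{201 A} ≤ lam^C`. Let `a₁, a₂` be the numbers of edges of the two arcs
of `Q` between `u` and `v`; they have different parities and are less than `|Q|`. Choose the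
arc such that `ℓ = y - a_i` has the parity required by `Blob` (`Even ℓ ↔ col u = col v`);
`lam ≤ 2 lam^201 + 1 - lam^200 ≤ ℓ ≤ lam^C`. The path with `ℓ` edges in `H \ W` from `u` to
`v` and the arc (inside `Q`, meeting the path only in `u`, `v`) form a cycle with `y` edges
(`Pth.theta`; `ℓ ≥ 2`), contradiction. -/
def LongOdd : Prop := ∀ (V : Type) (G Γ : SimpleGraph V) (col : V → Bool) (H : Finset V)
  (κ C lam A R : ℕ), 1 ≤ A → Miss G A R → Γ ≤ G → 4 ≤ κ → 202 * A ≤ C → 3 ≤ lam → R ≤ lam →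
  Blob κ C lam Γ col H →
  ∀ Q : List V, IsCyc G Q → Odd Q.length → (∃ a ∈ Q, ∃ b ∈ Q, a ≠ b ∧ a ∈ H ∧ b ∈ H) →
    lam ^ 200 < Q.length

/-- **C03 SameLeg.**
Proof. Let `r` be the path of `Lk` from `x = l[a]` to `y = l[b]`. The list
`l.take a ++ r ++ l.drop (b+1)` is again an ear of `Q` through `v` with the same ends: it is
a path since the inner vertices of `r` are not in `l`, its inner vertices are not in `Q`, and it
contains `v = l[m]`, `m ≥ b`. Its length is `l.length - (b - a + 1) + r.length`, at least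
`l.length`, so `b - a + 1 ≤ r.length ≤ k + 1`. -/
def SameLeg : Prop := ∀ (V : Type) (G : SimpleGraph V) (Q : Set V) (q₁ q₂ v : V) (l : List V),
  MinEar G Q q₁ q₂ v l → ∀ (m a b k : ℕ) (x y : V), l[m]? = some v → l[a]? = some x →
  l[b]? = some y → a < b → b ≤ m → Lk G (Q ∪ {z | z ∈ l}) x y k → b ≤ a + k

/-- **C04 QLink.**
Proof. Let `r` be the path of `Lk` from `x = l[a]` to `w ∈ Q`. The list `r.reverse ++ l.drop (a+1)`
is a path from `w` to `q₂ ≠ w`, an ear of `Q` through `v = l[m]`, `m ≥ a` (if `a = 0` there is nothing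
to prove; if `a ≥ 1` then `x ∉ Q`, since `x` is an inner vertex: `a ≤ m < |l| - 1` as
`v ∉ Q`). Its length `r.length + l.length - (a+1)` is at least `l.length`, so
`a + 1 ≤ r.length ≤ k + 1`. -/
def QLink : Prop := ∀ (V : Type) (G : SimpleGraph V) (Q : Set V) (q₁ q₂ v : V) (l : List V),
  MinEar G Q q₁ q₂ v l → ∀ (m a k : ℕ) (x w : V), l[m]? = some v → l[a]? = some x → a ≤ m →
  w ∈ Q → w ≠ q₂ → Lk G (Q ∪ {z | z ∈ l}) x w k → a ≤ k

/-- **C05 Cross.**
Proof. Suppose `b > a + 2k`. Let `r'` be the link from `x' = l[a]` to `t' = l[c]`, and `r` the link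
from `x = l[b]` to `t = l[d]`. If `r` and `r'` share a vertex `z`, then the walk along `r'` from `x'`
to `z` and along `r` back to `x` contains a path from `x'` to `x` with at most `2k` edges whose
inner vertices are outside `W` (if `z ∈ W` then `z ∈ {x', t'} ∩ {x, t}`, so `z = t' = t`
impossible as `c ≠ d`, or `z = t' = x` or `z = x' = ..`: as `x' = l[a]`, `x = l[b]`, `t' = l[c]`, `t = l[d]`
with `a < b ≤ m ≤ c < d`, the only possibility is `z = x = t'`, `b = m = c`; then `r'` itself is a link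
from `x'` to `x`); by `SameLeg` `b ≤ a + 2k`, a contradiction. So `r, r'` are disjoint and
`l[0..a] , r' , l[c], l[c-1], ..., l[b] , r , l[d..]` is an ear of `Q` through `v = l[m]`,
`b ≤ m ≤ c`, with the same ends as `l` (formally the list
`l.take a ++ r' ++ ((l.drop (b+1)).take (c-b-1)).reverse ++ r ++ l.drop (d+1)`, where the middle
part lists `l[c-1], ..., l[b+1]`; when `c = b + 1`.. `c > b` holds because `r`, `r'` are disjoint).
Its length is at most `l.length - (b-a) - (d-c) + 2k`, so minimality gives `b - a < 2k`, a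
contradiction. -/
def Cross : Prop := ∀ (V : Type) (G : SimpleGraph V) (Q : Set V) (q₁ q₂ v : V) (l : List V),
  MinEar G Q q₁ q₂ v l → ∀ (m a b c d k : ℕ) (x' x t' t : V), l[m]? = some v →
  l[a]? = some x' → l[b]? = some x → l[c]? = some t' → l[d]? = some t →
  a < b → b ≤ m → m ≤ c → c < d →
  Lk G (Q ∪ {z | z ∈ l}) x' t' k → Lk G (Q ∪ {z | z ∈ l}) x t k → b ≤ a + 2 * k

/-- **C06 CrossCount** (pure counting of integers).
Proof. Fix `k ≥ 1` and let `B_k` be the set of `a ≤ m` with `κ k³ < |T k a|`. For `a < b` in the same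
residue class modulo `2k+1`, `b > a + 2k`, so by hypothesis every element of `T k b` is at most every
element of `T k a`. Therefore, for `a_1 < a_2 < ... < a_s` in `B_k` in one class, the sets
`T k a_j` minus their smallest elements are pairwise disjoint subsets of `(m, p]`, so
`s κ k³ ≤ ∑ (|T k a_j| - 1) ≤ p - m`. Summing over the `2k+1 ≤ 3k` classes,
`κ k² |B_k| ≤ 3 (p - m)`. Only `k ≤ p - m` matter, and `∑_{k≥1} 1/k² ≤ 2`, so
`κ |⋃ B_k| ≤ 6 (p - m)`. -/
def CrossCount : Prop := ∀ (m p κ : ℕ) (T : ℕ → ℕ → Finset ℕ), 1 ≤ κ →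
  (∀ k a, T k a ⊆ Finset.Ioc m p) →
  (∀ k a b c d, a < b → b ≤ m → c ∈ T k a → d ∈ T k b → c < d → b ≤ a + 2 * k) →
  κ * ((Finset.range (m + 1)).filter (fun a => ∃ k, 1 ≤ k ∧ κ * k ^ 3 < (T k a).card)).card ≤
    6 * (p - m)

/-- **C07 ThinEdge.** At a good edge of the first leg of a shortest ear the rest of the ear and `Q`
are thin.
Proof. Let `W₀ = Q ∪ l` (as a finite set, at most `2p` elements, `p = l.length - 1`, as
`|Q| ≤ p`), `W = W₀ \ {x, y}`, `s ∈ {x, y}` the point at which thinness is to be proved, `i ≥ 0`,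
`k = i + 1`. If `k ≥ a` then `3000 k³ ≥ 3000 a³ ≥ 2p ≥ |W|` and there is nothing to prove. Let
`k < a`. Let `w ∈ W ∩ H` be `Γ`-adjacent to a vertex of `bl Γ (H \ W) {s} i`. As in `ShortOddThin`
there is `s' ∈ {x, y}` with `Lk G W₀ s' w k` (path of `Γ ≤ G` from `s` to `w`, cut at its last vertex in
`{x, y}`). If `w ∈ Q` then by `QLink` (`a > k`, also `a + 1 > k`) `w = q₂`. If `w = l[c]`, `c ≤ m`,
then by `SameLeg` (in both directions; `Lk` is symmetric) `|c - a| ≤ k` or `|c - (a+1)| ≤ k`: at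
most `4k + 2` values. If `w = l[c]`, `c > m`, then `c ∈ TS G W₀ l m k a` or
`c ∈ TS G W₀ l m k (a+1)`: at most `2 · 1200 k³` values. In all at most
`4k + 3 + 2400 k³ ≤ 3000 k³`. -/
def ThinEdge : Prop := ∀ (V : Type) (G Γ : SimpleGraph V) (H : Finset V) (Q : List V)
  (q₁ q₂ v : V) (l : List V), Γ ≤ G → MinEar G {z | z ∈ Q} q₁ q₂ v l → Q.length + 1 ≤ l.length →
  ∀ (m a : ℕ) (x y : V), l[m]? = some v → l[a]? = some x → l[a + 1]? = some y → a + 1 ≤ m →
  2 * l.length ≤ 3000 * a ^ 3 →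
  (∀ k, 1 ≤ k → (TS G ({z | z ∈ Q} ∪ {z | z ∈ l}) l m k a).card ≤ 1200 * k ^ 3) →
  (∀ k, 1 ≤ k → (TS G ({z | z ∈ Q} ∪ {z | z ∈ l}) l m k (a + 1)).card ≤ 1200 * k ^ 3) →
  x ∈ H → y ∈ H →
  Thin Γ 3000 H ((Q.toFinset ∪ l.toFinset) \ {x, y}) x ∧
  Thin Γ 3000 H ((Q.toFinset ∪ l.toFinset) \ {x, y}) y

/-- **C08 Greedy** (pure).
Proof. Induction on `|I|`. If `I = ∅` take `J = ∅`. Otherwise let `a ∈ I` have maximal `lam a`, let
`I' = {b ∈ I : |b - a| > 2 lam a + 2}` and apply induction to `I'`: `J'`; `J = insert a J'`. For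
`b ∈ J'`: `|b - a| > 2 lam a + 2 ≥ lam a + lam b + 2`. `|I \ I'| ≤ 4 lam a + 5 ≤ 6 lam a`, since
`lam a ≥ 3`. -/
def Greedy : Prop := ∀ (I : Finset ℕ) (lam : ℕ → ℕ), (∀ a ∈ I, 3 ≤ lam a) →
  ∃ J : Finset ℕ, J ⊆ I ∧ (∀ a ∈ J, ∀ b ∈ J, a < b → a + lam a + lam b + 2 < b) ∧
    I.card ≤ 6 * ∑ a ∈ J, lam a

/-- **C09 Sumset** (pure). Even numbers as sums of increments.
Proof. Let `U a` be the largest even number `≤ lam a ^ C - 1`, `U a ≥ lam a ^ C - 2`. We prove by
induction on `|J|` (removing an element with smallest `lam`), for `J ≠ ∅`: every even `t` with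
`λ₁ ≤ t ≤ ∑_{a∈J} U a` is a sum of admissible increments, where `λ₁ = max_J lam`. For `|J| = 1` clear:
`inc = t`. Let `b` be the removed element, `J' = J \ {b}`, `lam b ≤ λ₁ = max_{J'} lam`. If
`t ≤ ∑_{J'} U` use induction and `inc b = 0`. Otherwise, if `t ≥ U b + λ₁`, take `inc b = U b`
(`U b ≥ lam b`) and use induction for `t - U b ≤ ∑_{J'} U`. If `t < U b + λ₁` let `s` be the
smallest even number `≥ λ₁` (`s ≤ λ₁ + 1`), `inc b = t - s`: it is even, at most `U b`
(as `t - s < U b`), and at least `lam b`, because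
`t - s > U a₁ - λ₁ - 1 ≥ λ₁^C - λ₁ - 3 ≥ λ₁` (`a₁ ∈ J'` with `lam a₁ = λ₁ ≥ 3`, `C ≥ 3`); and `s` is
obtained from `J'` by induction (`s ≤ λ₁ + 1 ≤ U a₁`). -/
def Sumset : Prop := ∀ (J : Finset ℕ) (lam : ℕ → ℕ) (C Λ t : ℕ), 3 ≤ C →
  (∀ a ∈ J, 3 ≤ lam a) → (∀ a ∈ J, lam a ≤ Λ) → Even t → Λ + 1 ≤ t →
  t ≤ ∑ a ∈ J, (lam a ^ C - 2) →
  ∃ inc : ℕ → ℕ, (∀ a ∈ J, inc a = 0 ∨ (Even (inc a) ∧ lam a ≤ inc a ∧ inc a + 1 ≤ lam a ^ C)) ∧
    ∑ a ∈ J, inc a = t

/-- **C10 Detour** (pure). Replacing several edges of a path by disjoint paths.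
Proof. Induction on `|J|`, replacing the edge with the largest index `a` first: write
`l = l₁ ++ [x, y] ++ l₂` with `|l₁| = a`; then `l₁ ++ D a ++ l₂` is a path from `u` to `v` (the inner
vertices of `D a` are not in `l`). The first `a + 1` entries `l₁ ++ [x]` are unchanged, so the
other edges, with indices `b < a`, have the same positions (`b + 1 ≤ a`), and the paths `D b` are
disjoint from `D a`, so they meet the new path only in their ends. -/
def Detour : Prop := ∀ (V : Type) (G : SimpleGraph V) (u v : V) (l : List V) (J : Finset ℕ)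
  (D : ℕ → List V), Pth G Set.univ u v l →
  (∀ a ∈ J, ∃ x y, l[a]? = some x ∧ l[a + 1]? = some y ∧ Pth G Set.univ x y (D a) ∧
    ∀ z ∈ D a, z ∈ l → z = x ∨ z = y) →
  (∀ a ∈ J, ∀ b ∈ J, a ≠ b → List.Disjoint (D a) (D b)) →
  ∃ l' : List V, Pth G Set.univ u v l' ∧ l'.length + 2 * J.card = l.length + ∑ a ∈ J, (D a).length ∧
    ∀ z ∈ l', z ∈ l ∨ ∃ a ∈ J, z ∈ D a

/-- **C11 GapLemma.**
Proof. Let `C = 202 A + 3`, `lam₀ ≥ max (R, 3)` with `lam₀^{C-1} ≥ 24 Δ + 25`, `p₀` large. Let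
`p = l.length - 1`, `l[m] = v`, `0 < m < p`. Replacing `l` by its reverse we may assume
`2m ≥ p`. `W₀ = Q ∪ l`. For every `a < m` choose a blob `(Γ_a, col_a, H_a, lam_a)` containing the
edge `l[a] l[a+1]` (`Cov`), `lam_a ≥ lam₀`.
(1) `lam_a^200 < 2p + 1`: the path `l` and one of the two arcs of `Q` between `q₁`, `q₂` form an odd
cycle (`Pth.theta`: the arcs have different parities), with at most `p + |Q| ≤ 2p` edges, containing
`l[a], l[a+1] ∈ H_a`; apply `LongOdd` with `κ = 3000`.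
(2) Let `B` be the set of `a ≤ m` with `|TS G W₀ l m k a| > 1200 k³` for some `k ≥ 1`. By `Cross` the
hypotheses of `CrossCount` hold for `T k a = TS G W₀ l m k a`: `1200 |B| ≤ 6 (p - m) ≤ 6 m`.
(3) Let `I` be the set of `a` with `a₀ ≤ a`, `a + 1 ≤ m`, `a ∉ B`, `a + 1 ∉ B`, where `a₀` is
least with `3000 a₀³ ≥ 2(p+1)`. `|I| ≥ m - a₀ - 1 - m/100 ≥ p/4` for `p ≥ p₀`. For `a ∈ I` by
`ThinEdge` `W_a = W₀ \ {l[a], l[a+1]}` is thin at both ends of the edge, so `Blob` gives for every odd `ℓ`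
with `lam_a ≤ ℓ ≤ lam_a^C` a path with `ℓ` edges from `l[a]` to `l[a+1]` in `H_a \ W_a`, all of whose
vertices are in `bl Γ_a (H_a \ W_a) {l[a]} lam_a` (`ℓ` odd because the ends have different
colours).
(4) `Greedy` gives `J ⊆ I`, `∑_J lam_a ≥ |I|/6 ≥ p/24`, with `|a - b| > lam_a + lam_b + 2` for distinct
`a, b ∈ J`. Then the sets `bl Γ_a (H_a\W_a) {l[a]} lam_a` (`a ∈ J`) are pairwise disjoint: a
common vertex for `a, b` would give a walk of at most `lam_a + lam_b` steps from `l[a]` to `l[b]` all of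
whose vertices are outside `W₀` or among `l[a], l[a+1], l[b], l[b+1]`, hence (cutting suitably) a link
`Lk G W₀ l[a'] l[b'] (lam_a + lam_b)` with `a' ∈ {a,a+1}`, `b' ∈ {b,b+1}`, and `SameLeg` gives
`|a - b| ≤ lam_a + lam_b + 1`.
(5) Let `3p ≤ ℓ ≤ Δ p`. Choose the arc of `Q` from `q₂` to `q₁` with `e` edges such that
`t = ℓ - p - e` is even; `p ≤ t ≤ Δ p`. By (1) all `lam_a ≤ Λ` with `Λ + 1 ≤ p`, and
`∑_J (lam_a^C - 2) ≥ ∑_J lam_a (lam₀^{C-1} - 1) ≥ (p/24)(24Δ + 24) ≥ Δ p ≥ t`. `Sumset` gives even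
increments `inc a` with sum `t`; for `inc a ≠ 0` let `D a` be the path with `inc a + 1` edges from (3),
for `inc a = 0` let `D a = [l[a], l[a+1]]`. By `Detour` there is a path from `q₁` to `q₂` with
`p + t` edges whose vertices are in `l` or in the `D a`; it meets `Q` only in `q₁, q₂`. With the arc of
`Q` it forms a cycle with `p + t + e = ℓ` edges (`Pth.theta`). -/
def GapLemma : Prop := ∀ A R Δ : ℕ, 1 ≤ A → ∃ C lam₀ p₀ : ℕ, 3 ≤ lam₀ ∧
  ∀ (V : Type) (G : SimpleGraph V), Miss G A R → Cov G 3000 C lam₀ →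
  ∀ (Q : List V) (q₁ q₂ v : V) (l : List V), IsCyc G Q → Odd Q.length →
  MinEar G {z | z ∈ Q} q₁ q₂ v l → Q.length + 1 ≤ l.length → p₀ ≤ l.length →
  ∀ ℓ : ℕ, 3 * (l.length - 1) ≤ ℓ → ℓ ≤ Δ * (l.length - 1) → ∃ D, IsCyc G D ∧ D.length = ℓ

end Pool.Agent.Lib.MP_b6048d_co.F
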