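import Mathlib
import Pool.Agent.Lib.MP_b6048d_co.F.SpecC

set_option autoImplicit false

open scoped Classical

namespace Pool.Agent.Lib.MP_b6048d_co.F

namespace SumsetAux

/-- The largest even number below `L`. -/
def ev (L : ℕ) : ℕ := (L - 1) - (L - 1) % 2

theorem ev_even (L : ℕ) : Even (ev L) := by
  unfold ev
  rw [Nat.even_iff]
  omega

theorem main (lam L : ℕ → ℕ) (J : Finset ℕ) : (∀ a ∈ J, 3 ≤ lam a) → (∀ a ∈ J, 9 * lam a ≤ L a) →
    ∀ t : ℕ, Even t → (∀ a ∈ J, lam a ≤ t) → t ≤ ∑ a ∈ J, ev (L a) →
    ∃ inc : ℕ → ℕ, (∀ a ∈ J, inc a = 0 ∨ (Even (inc a) ∧ lam a ≤ inc a ∧ inc a + 1 ≤ L a)) ∧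
      ∑ a ∈ J, inc a = t := by
  induction J using Finset.induction_on_min_value lam with
  | empty =>
    intro _ _ t _ _ ht
    rw [Finset.sum_empty] at ht
    refine ⟨fun _ => 0, by simp, ?_⟩
    simp
    omega
  | insert b s hb hmin ih =>
    intro h3 hL t ht hlam hsum
    have hb3 := h3 b (Finset.mem_insert_self _ _)
    have hbL := hL b (Finset.mem_insert_self _ _)
    have hbt := hlam b (Finset.mem_insert_self _ _)
    rw [Finset.sum_insert hb] at hsum
    have ih' := ih (fun a ha => h3 a (Finset.mem_insert_of_mem ha))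
      (fun a ha => hL a (Finset.mem_insert_of_mem ha))
    have hevb : ev (L b) + 1 ≤ L b ∧ L b ≤ ev (L b) + 2 := by unfold ev; omega
    -- a general way to extend
    have hext : ∀ t' x : ℕ, t = x + t' → (x = 0 ∨ (Even x ∧ lam b ≤ x ∧ x + 1 ≤ L b)) →
        Even t' → (∀ a ∈ s, lam a ≤ t') → t' ≤ ∑ a ∈ s, ev (L a) →
        ∃ inc : ℕ → ℕ, (∀ a ∈ insert b s, inc a = 0 ∨
          (Even (inc a) ∧ lam a ≤ inc a ∧ inc a + 1 ≤ L a)) ∧ ∑ a ∈ insert b s, inc a = t := by
      intro t' x hx hxb ht' hl' hs'
      obtain ⟨inc, hinc, hsum'⟩ := ih' t' ht' hl' hs'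
      refine ⟨Function.update inc b x, ?_, ?_⟩
      · intro a ha
        by_cases hab : a = b
        · subst hab
          rw [Function.update_self]
          exact hxb
        · rw [Function.update_of_ne hab]
          exact hinc a ((Finset.mem_insert.1 ha).resolve_left hab)
      · rw [Finset.sum_insert hb, Function.update_self]
        have : ∑ a ∈ s, Function.update inc b x a = ∑ a ∈ s, inc a := by
          apply Finset.sum_congr rfl
          intro a ha
          rw [Function.update_of_ne]
          rintro rfl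
          exact hb ha
        rw [this, hsum', hx]
    rcases s.eq_empty_or_nonempty with hs | hs
    · subst hs
      refine hext 0 t (by omega) ?_ (by simp) (by simp) (by simp)
      rw [Finset.sum_empty] at hsum
      right
      exact ⟨ht, hbt, by omega⟩
    · obtain ⟨a₁, ha₁, hmax⟩ := Finset.exists_max_image s lam hs
      have h13 := h3 a₁ (Finset.mem_insert_of_mem ha₁)
      have h1L := hL a₁ (Finset.mem_insert_of_mem ha₁)
      have hev1 : ev (L a₁) + 1 ≤ L a₁ ∧ L a₁ ≤ ev (L a₁) + 2 := by unfold ev; omega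
      have hge : ev (L a₁) ≤ ∑ a ∈ s, ev (L a) :=
        Finset.single_le_sum (f := fun a => ev (L a)) (fun _ _ => Nat.zero_le _) ha₁
      have hb1 := hmin a₁ ha₁
      by_cases hc1 : t ≤ ∑ a ∈ s, ev (L a)
      · exact hext t 0 (by omega) (Or.inl rfl) ht
          (fun a ha => hlam a (Finset.mem_insert_of_mem ha)) hc1
      · push Not at hc1
        by_cases hc2 : ev (L b) + lam a₁ ≤ t
        · refine hext (t - ev (L b)) (ev (L b)) (by omega) ?_ ?_ ?_ (by omega)
          · right
            exact ⟨ev_even _, by omega, by omega⟩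
          · exact (Nat.even_sub (by omega)).2 (by simp [ht, ev_even])
          · intro a ha
            have := hmax a ha
            omega
        · push Not at hc2
          set s₀ := lam a₁ + lam a₁ % 2 with hs₀
          have hs₀e : Even s₀ := by rw [Nat.even_iff]; omega
          have hlt : s₀ ≤ lam a₁ + 1 := by omega
          refine hext s₀ (t - s₀) (by omega) ?_ hs₀e ?_ (by omega)
          · right
            refine ⟨(Nat.even_sub (by omega)).2 (by simp [ht, hs₀e]), by omega, by omega⟩
          · intro a ha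
            have := hmax a ha
            omega

end SumsetAux

open SumsetAux

theorem sumset : Sumset := by
  intro J lam C Λ t hC h3 hΛ ht hΛt hsum
  have h9 : ∀ a ∈ J, 9 * lam a ≤ lam a ^ C := by
    intro a ha
    have h := h3 a ha
    calc 9 * lam a = 3 * 3 * lam a := by ring
      _ ≤ lam a * lam a * lam a := by gcongr
      _ = lam a ^ 3 := by ring
      _ ≤ lam a ^ C := Nat.pow_le_pow_right (by omega) hC
  refine main lam (fun a => lam a ^ C) J h3 h9 t ht ?_ ?_
  · intro a ha
    have := hΛ a ha
    omega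
  · refine hsum.trans (Finset.sum_le_sum ?_)
    intro a _
    show _ ≤ ev (lam a ^ C)
    unfold ev
    omega

end Pool.Agent.Lib.MP_b6048d_co.F
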