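import Pool.Agent.Lib.MP_b6048d_co.F.SpecA

set_option autoImplicit false

/-!
A09 ThinBall: a ball of radius `Lg H` avoiding a thin set is larger than any given power of `Lg H`.
-/

open scoped Classical

namespace Pool.Agent.Lib.MP_b6048d_co.F.ThinBallAux

open Filter

variable {V : Type*} {Γ : SimpleGraph V} {H W A B : Finset V} {u : V}

lemma nbr_subset_union (B : Finset V) :
    nbr Γ H B ⊆ nbr Γ (H \ W) B ∪ (W ∩ H).filter (fun w => ∃ x ∈ B, Γ.Adj x w) := by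
  intro w hw
  obtain ⟨h1, h2, h3⟩ := mem_nbr.1 hw
  by_cases hW : w ∈ W
  · apply Finset.mem_union_right
    rw [Finset.mem_filter, Finset.mem_inter]
    exact ⟨⟨hW, h1⟩, h3⟩
  · apply Finset.mem_union_left
    exact mem_nbr.2 ⟨Finset.mem_sdiff.2 ⟨h1, hW⟩, h2, h3⟩

lemma card_nbr_le (B : Finset V) :
    (nbr Γ H B).card ≤ (nbr Γ (H \ W) B).card +
      ((W ∩ H).filter (fun w => ∃ x ∈ B, Γ.Adj x w)).card :=
  (Finset.card_le_card (nbr_subset_union B)).trans (Finset.card_union_le _ _)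

lemma dg_le_nbr : dg Γ H u ≤ (nbr Γ H {u}).card := by
  unfold dg
  apply Finset.card_le_card
  intro w hw
  rw [Finset.mem_filter] at hw
  refine mem_nbr.2 ⟨hw.1, ?_, u, Finset.mem_singleton_self u, hw.2⟩
  rw [Finset.mem_singleton]
  intro h
  subst h
  exact Γ.loopless.irrefl _ hw.2

/-- Powers of logarithms are small. -/
lemma exists_log_pow (q : ℕ) : ∃ A₁ : ℕ, ∀ x : ℕ, A₁ ≤ x →
    (8 * Real.log ((x : ℝ) + 3)) ^ q ≤ (x : ℝ) := by
  have h1 := Real.isLittleO_pow_log_id_atTop (n := q)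
  have hc : (0 : ℝ) < 1 / (2 * 8 ^ q) := by positivity
  have h2 := h1.def hc
  obtain ⟨B, hB⟩ := eventually_atTop.1 h2
  obtain ⟨A₁, hA₁⟩ := exists_nat_ge B
  refine ⟨max A₁ 3, fun x hx => ?_⟩
  have hx1 : (A₁ : ℝ) ≤ (x : ℝ) := by exact_mod_cast (le_max_left _ _).trans hx
  have hx3 : (3 : ℝ) ≤ (x : ℝ) := by exact_mod_cast (le_max_right _ _).trans hx
  have h3 := hB ((x : ℝ) + 3) (by linarith)
  have hlog : 0 ≤ Real.log ((x : ℝ) + 3) := Real.log_nonneg (by linarith)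
  rw [Real.norm_of_nonneg (by positivity), id, Real.norm_of_nonneg (by linarith)] at h3
  rw [mul_pow]
  have h8 : (0 : ℝ) < 8 ^ q := by positivity
  calc (8 : ℝ) ^ q * Real.log ((x : ℝ) + 3) ^ q
      ≤ 8 ^ q * (1 / (2 * 8 ^ q) * ((x : ℝ) + 3)) := mul_le_mul_of_nonneg_left h3 h8.le
    _ = ((x : ℝ) + 3) / 2 := by field_simp
    _ ≤ x := by linarith

end Pool.Agent.Lib.MP_b6048d_co.F.ThinBallAux

namespace Pool.Agent.Lib.MP_b6048d_co.F

open ThinBallAux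

theorem thinBall (hM : MinBasics) (hS : ExpSmall) (hN : NumGrow) : ThinBall := by
  intro κ c
  obtain ⟨q, hq⟩ : ∃ q : ℕ, q = c + 6 := ⟨_, rfl⟩
  obtain ⟨A₀, hA₀⟩ := hN q κ (by omega)
  obtain ⟨A₁, hA₁⟩ := exists_log_pow q
  obtain ⟨L₁, hL₁⟩ := poly_Lg_le 25 (2 * c)
  obtain ⟨D₁, hD₁, hlarge⟩ := hM.2 (8 * q + (8 * q) ^ q + L₁)
  refine ⟨max D₁ ((A₀ + A₁ + κ + 1 : ℕ) : ℝ), hD₁.trans (le_max_left _ _), ?_⟩
  intro V Γ D H hD hH W u huH huW hthin
  have hD1 : D₁ ≤ D := (le_max_left _ _).trans hD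
  have hD2 : ((A₀ + A₁ + κ + 1 : ℕ) : ℝ) ≤ D := (le_max_right _ _).trans hD
  have hDone : 1 ≤ D := hD₁.trans hD1
  obtain ⟨hLbig, -⟩ := hlarge V Γ D H hD1 hH
  obtain ⟨-, hdeg, -, -⟩ := hM.1 V Γ D H hDone hH
  obtain ⟨L, hL⟩ : ∃ L : ℕ, L = Lg H := ⟨_, rfl⟩
  rw [← hL] at hLbig ⊢
  have hpoly := hL₁ H hH.ne (by rw [← hL]; omega)
  rw [← hL] at hpoly
  -- the ball sizes
  obtain ⟨f, hf⟩ : ∃ f : ℕ → ℕ, ∀ i, f i = (bl Γ (H \ W) {u} i).card := ⟨_, fun _ => rfl⟩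
  have huS : u ∈ H \ W := Finset.mem_sdiff.2 ⟨huH, huW⟩
  have hbl0 : bl Γ (H \ W) {u} 0 = {u} := by
    rw [bl]
    exact Finset.inter_eq_left.2 (Finset.singleton_subset_iff.2 huS)
  have hfmono : ∀ i j, i ≤ j → f i ≤ f j := by
    intro i j hij
    rw [hf, hf]
    exact Finset.card_le_card (bl_mono hij)
  have hfstep : ∀ i, f i + (nbr Γ H (bl Γ (H \ W) {u} i)).card ≤ f (i + 1) + κ * (i + 1) ^ 3 := by
    intro i
    have h1 := card_nbr_le (Γ := Γ) (H := H) (W := W) (bl Γ (H \ W) {u} i)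
    have h2 := hthin i
    have h3 := card_bl_succ (Γ := Γ) (S := H \ W) (A := {u}) (i := i)
    rw [hf, hf, h3]
    omega
  have hf1 : A₀ + A₁ + 1 ≤ f 1 := by
    have h1 := hfstep 0
    rw [hbl0] at h1
    have h2 := dg_le_nbr (Γ := Γ) (H := H) (u := u)
    have h3 : A₀ + A₁ + κ + 1 ≤ dg Γ H u := by
      have := (hD2.trans (hdeg u huH).2)
      exact_mod_cast this
    have h4 : κ * (0 + 1) ^ 3 = κ := by ring
    rw [h4] at h1
    simp only [zero_add] at h1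
    omega
  -- the time
  obtain ⟨t, ht⟩ : ∃ t : ℕ, t = (L - 1) / (4 * q) := ⟨_, rfl⟩
  have hq0 : 0 < 4 * q := by omega
  have ht1 : 4 * q * t + 1 ≤ L := by
    have h1 : 4 * q * ((L - 1) / (4 * q)) ≤ L - 1 := Nat.mul_div_le _ _
    rw [← ht] at h1
    omega
  have ht2 : L ≤ 8 * q * t := by
    have h1 := Nat.div_add_mod (L - 1) (4 * q)
    have h2 := Nat.mod_lt (L - 1) hq0
    rw [← ht] at h1
    have h3 : 8 * q * t = 2 * (4 * q * t) := by ring
    rw [h3]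
    have h4 : 8 * q ≤ L := by
      have : 0 ≤ (8 * q) ^ q := Nat.zero_le _
      omega
    omega
  have hL1 : 1 ≤ L := by omega
  have hYt : L ^ c ≤ t ^ q := by
    have h1 : (8 * q) ^ q ≤ L := by
      have := hLbig
      omega
    have h2 : L ^ q ≤ (8 * q * t) ^ q := Nat.pow_le_pow_left ht2 q
    rw [mul_pow] at h2
    have h3 : L ^ q = L ^ c * L ^ 6 := by rw [hq, pow_add]
    have h4 : L ≤ L ^ 6 := Nat.le_self_pow (by norm_num) L
    have h5 : L ^ c * (8 * q) ^ q ≤ L ^ c * L ^ 6 := Nat.mul_le_mul_left _ (h1.trans h4)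
    have h6 : (8 * q) ^ q * L ^ c ≤ (8 * q) ^ q * t ^ q := by
      calc (8 * q) ^ q * L ^ c = L ^ c * (8 * q) ^ q := mul_comm _ _
        _ ≤ L ^ c * L ^ 6 := h5
        _ = L ^ q := h3.symm
        _ ≤ _ := h2
    exact Nat.le_of_mul_le_mul_left h6 (Nat.pow_pos (by omega))
  -- the growth lemma
  have hgrow := hA₀ f (L ^ c) t (by omega) hYt ?_
  · obtain ⟨i, -, hi2, hi3⟩ := hgrow
    have h1 := hfmono i L (by omega)
    rw [← hf]
    omega
  · intro i hi1 _ hiY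
    refine ⟨(nbr Γ H (bl Γ (H \ W) {u} i)).card, ?_, hfstep i⟩
    have hfi : A₀ + A₁ + 1 ≤ f i := hf1.trans (hfmono 1 i hi1)
    have hsub : bl Γ (H \ W) {u} i ⊆ H := bl_subset.trans Finset.sdiff_subset
    have hsz : (2 * (bl Γ (H \ W) {u} i).card + 3) ^ 2 ≤ H.card + 3 := by
      rw [← hf]
      have hLc : 1 ≤ L ^ c := Nat.one_le_pow _ _ hL1
      have h1 : 2 * f i + 3 ≤ 5 * L ^ c := by omega
      have h2 : (2 * f i + 3) ^ 2 ≤ (5 * L ^ c) ^ 2 := Nat.pow_le_pow_left h1 2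
      have h3 : (5 * L ^ c) ^ 2 = 25 * L ^ (2 * c) := by
        rw [mul_pow, ← pow_mul, mul_comm c 2]
        norm_num
      omega
    have h1 := hS V Γ D H hDone hH _ hsub hsz
    rw [← hf] at h1
    have h2 := hA₁ (f i) (by omega)
    set N := (nbr Γ H (bl Γ (H \ W) {u} i)).card with hNdef
    have hNn : (0 : ℝ) ≤ (N : ℝ) := Nat.cast_nonneg _
    have hfp : (0 : ℝ) < (f i : ℝ) := by
      have : 0 < f i := by omega
      exact_mod_cast this
    have hlog : 0 ≤ 8 * Real.log ((f i : ℝ) + 3) := by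
      have := Real.log_nonneg (show (1 : ℝ) ≤ (f i : ℝ) + 3 by linarith)
      linarith
    have h3 : (f i : ℝ) ^ q ≤ (8 * Real.log ((f i : ℝ) + 3) * N) ^ q :=
      pow_le_pow_left₀ hfp.le h1 q
    rw [mul_pow] at h3
    have h4 : (f i : ℝ) ^ q ≤ (f i : ℝ) * (N : ℝ) ^ q :=
      h3.trans (mul_le_mul_of_nonneg_right h2 (by positivity))
    have h5 : (f i : ℝ) ^ q = (f i : ℝ) * (f i : ℝ) ^ (q - 1) := by
      rw [← pow_succ']
      congr 1
      omega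
    rw [h5] at h4
    have h6 := le_of_mul_le_mul_left h4 hfp
    exact_mod_cast h6

end Pool.Agent.Lib.MP_b6048d_co.F
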