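import Pool.Agent.Lib.MP_b6048d_co.F.SpecC

set_option autoImplicit false

/-!
# MP_b6048d_co, C07: good edges of a shortest ear are thin
-/

open scoped Classical

namespace Pool.Agent.Lib.MP_b6048d_co.F.ThinEdgeAux

variable {V : Type}

lemma lk_symm {G : SimpleGraph V} {W : Set V} {x w : V} {k : ℕ} (h : Lk G W x w k) :
    Lk G W w x k := by
  obtain ⟨r, hr, hlen, hW⟩ := h
  refine ⟨r.reverse, hr.reverse, by rw [List.length_reverse]; exact hlen, ?_⟩
  intro z hz hzW
  exact (hW z (List.mem_reverse.1 hz) hzW).symm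

/-- From a ball around `s ∈ {x, y}` to a link from `x` or `y`. -/
lemma link_of_ball {G Γ : SimpleGraph V} {H : Finset V} {W₀ : Finset V} {x y s w : V} {i : ℕ}
    (hG : Γ ≤ G) (hs : s = x ∨ s = y)
    (h : ∃ z ∈ bl Γ (H \ (W₀ \ {x, y})) {s} i, Γ.Adj w z) :
    ∃ s', (s' = x ∨ s' = y) ∧ Lk G (W₀ : Set V) s' w (i + 1) := by
  obtain ⟨z, hz, hwz⟩ := h
  obtain ⟨l', hl', hlen⟩ := mem_bl_single.1 hz
  have h1 : Wk Γ Set.univ s w (l' ++ [w]) :=
    (hl'.mono (Set.subset_univ _)).concat (Set.mem_univ _) hwz.symm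
  obtain ⟨p, hp, hsub, hple⟩ := h1.toPth
  obtain ⟨a, s', b, rfl, hs', hb⟩ := exists_last (fun t => t = x ∨ t = y) p
    ⟨s, hp.toWk.left_mem, hs⟩
  refine ⟨s', hs', s' :: b, hp.cut.2.monoG hG, ?_, ?_⟩
  · simp only [List.length_append, List.length_cons, List.length_nil] at hple ⊢
    omega
  · intro t ht htW
    rcases List.mem_cons.1 ht with h2 | h2
    · exact Or.inl h2
    · right
      have h3 : t ∈ l' ++ [w] := hsub (List.mem_append_right _ ht)
      rcases List.mem_append.1 h3 with h4 | h4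
      · exfalso
        have h5 := hl'.mem t h4
        have h6 : t ∈ H \ (W₀ \ {x, y}) := by exact_mod_cast h5
        rw [Finset.mem_sdiff] at h6
        apply h6.2
        rw [Finset.mem_sdiff]
        refine ⟨by exact_mod_cast htW, ?_⟩
        intro h7
        rw [Finset.mem_insert, Finset.mem_singleton] at h7
        exact hb t h2 h7
      · exact List.mem_singleton.1 h4

lemma arith {k : ℕ} (hk : 1 ≤ k) : 1 + ((2 * k + 2) + (1200 * k ^ 3 + 1200 * k ^ 3)) ≤
    3000 * k ^ 3 := by
  have h1 : k ≤ k ^ 3 := Nat.le_self_pow (by norm_num) k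
  omega

/-- The main count. -/
lemma main (hS : SameLeg) (hQ : QLink) (G Γ : SimpleGraph V) (H : Finset V) (Q : List V)
    (q₁ q₂ v : V) (l : List V) (hG : Γ ≤ G) (hE : MinEar G {z | z ∈ Q} q₁ q₂ v l)
    (hlen : Q.length + 1 ≤ l.length)
    (m a : ℕ) (x y : V) (hm : l[m]? = some v) (hax : l[a]? = some x) (hay : l[a + 1]? = some y)
    (ham : a + 1 ≤ m) (hbig : 2 * l.length ≤ 3000 * a ^ 3)
    (hT : ∀ k, 1 ≤ k → (TS G ({z | z ∈ Q} ∪ {z | z ∈ l}) l m k a).card ≤ 1200 * k ^ 3)
    (hT' : ∀ k, 1 ≤ k → (TS G ({z | z ∈ Q} ∪ {z | z ∈ l}) l m k (a + 1)).card ≤ 1200 * k ^ 3)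
    (s : V) (hs : s = x ∨ s = y) :
    Thin Γ 3000 H ((Q.toFinset ∪ l.toFinset) \ {x, y}) s := by
  intro i
  obtain ⟨k, hk⟩ : ∃ k, k = i + 1 := ⟨_, rfl⟩
  have hk1 : 1 ≤ k := by omega
  set W₀ : Finset V := Q.toFinset ∪ l.toFinset with hW₀
  have hset : (W₀ : Set V) = ({z | z ∈ Q} ∪ {z | z ∈ l}) := by
    ext z
    simp [hW₀]
  rw [← hk]
  by_cases hka : a ≤ k
  · have h1 : (((W₀ \ {x, y}) ∩ H).filter (fun w => ∃ x_1 ∈ bl Γ (H \ (W₀ \ {x, y})) {s} i,
        Γ.Adj x_1 w)).card ≤ W₀.card := by
      apply Finset.card_le_card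
      intro z hz
      exact (Finset.mem_sdiff.1 (Finset.mem_inter.1 (Finset.mem_filter.1 hz).1).1).1
    have h2 : W₀.card ≤ Q.length + l.length :=
      (Finset.card_union_le _ _).trans
        (Nat.add_le_add (List.toFinset_card_le Q) (List.toFinset_card_le l))
    have h3 : a ^ 3 ≤ k ^ 3 := Nat.pow_le_pow_left hka 3
    omega
  · push Not at hka
    have hsub : ((W₀ \ {x, y}) ∩ H).filter (fun w => ∃ x_1 ∈ bl Γ (H \ (W₀ \ {x, y})) {s} i,
        Γ.Adj x_1 w) ⊆ {q₂} ∪ ((Finset.Icc (a - k) (a + 1 + k)).image (fun c => l.getD c q₂) ∪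
          ((TS G ({z | z ∈ Q} ∪ {z | z ∈ l}) l m k a).image (fun c => l.getD c q₂) ∪
          (TS G ({z | z ∈ Q} ∪ {z | z ∈ l}) l m k (a + 1)).image (fun c => l.getD c q₂))) := by
      intro w hw
      rw [Finset.mem_filter, Finset.mem_inter, Finset.mem_sdiff] at hw
      obtain ⟨⟨⟨hw0, hwxy⟩, hwH⟩, z, hz, hzw⟩ := hw
      obtain ⟨s', hs', hLk⟩ := link_of_ball hG hs ⟨z, hz, hzw.symm⟩
      rw [← hk, hset] at hLk
      have hwx : w ≠ x := by
        rintro rfl
        exact hwxy (by simp)
      have hwy : w ≠ y := by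
        rintro rfl
        exact hwxy (by simp)
      obtain ⟨a', ha', hs'a, haa⟩ : ∃ a', (a' = a ∨ a' = a + 1) ∧ l[a']? = some s' ∧
          (∀ c ∈ TS G ({z | z ∈ Q} ∪ {z | z ∈ l}) l m k a', l.getD c q₂ ∈
            {q₂} ∪ ((Finset.Icc (a - k) (a + 1 + k)).image (fun c => l.getD c q₂) ∪
          ((TS G ({z | z ∈ Q} ∪ {z | z ∈ l}) l m k a).image (fun c => l.getD c q₂) ∪
          (TS G ({z | z ∈ Q} ∪ {z | z ∈ l}) l m k (a + 1)).image (fun c => l.getD c q₂)))) := by
        rcases hs' with h | h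
        · refine ⟨a, Or.inl rfl, by rw [h]; exact hax, ?_⟩
          intro c hc
          apply Finset.mem_union_right
          apply Finset.mem_union_right
          apply Finset.mem_union_left
          exact Finset.mem_image_of_mem (fun c => l.getD c q₂) hc
        · refine ⟨a + 1, Or.inr rfl, by rw [h]; exact hay, ?_⟩
          intro c hc
          apply Finset.mem_union_right
          apply Finset.mem_union_right
          apply Finset.mem_union_right
          exact Finset.mem_image_of_mem (fun c => l.getD c q₂) hc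
      have hws' : w ≠ s' := by
        rcases hs' with h | h
        · rw [h]; exact hwx
        · rw [h]; exact hwy
      rw [hW₀, Finset.mem_union, List.mem_toFinset, List.mem_toFinset] at hw0
      by_cases hwQ : w ∈ Q
      · by_cases hwq : w = q₂
        · rw [hwq]
          apply Finset.mem_union_left
          exact Finset.mem_singleton_self _
        · exfalso
          have h1 := hQ V G {z | z ∈ Q} q₁ q₂ v l hE m a' k s' w hm hs'a (by omega) hwQ hwq hLk
          omega
      · have hwl : w ∈ l := by tauto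
        obtain ⟨c, hc, hcw⟩ := List.mem_iff_getElem.1 hwl
        have hcw' : l[c]? = some w := by
          rw [List.getElem?_eq_getElem hc, hcw]
        have hget : l.getD c q₂ = w := by
          rw [List.getD_eq_getElem?_getD, hcw']
          rfl
        have hca : c ≠ a' := by
          rintro rfl
          rw [hcw'] at hs'a
          exact hws' (Option.some.inj hs'a)
        by_cases hcm : c ≤ m
        · apply Finset.mem_union_right
          apply Finset.mem_union_left
          rw [Finset.mem_image]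
          refine ⟨c, ?_, hget⟩
          rw [Finset.mem_Icc]
          rcases Nat.lt_or_ge c a' with h1 | h1
          · have h2 := hS V G {z | z ∈ Q} q₁ q₂ v l hE m c a' k w s' hm hcw' hs'a h1 (by omega)
              (lk_symm hLk)
            omega
          · have h2 := hS V G {z | z ∈ Q} q₁ q₂ v l hE m a' c k s' w hm hs'a hcw' (by omega) hcm
              hLk
            omega
        · have h1 := haa c (by
            unfold TS
            rw [Finset.mem_filter, Finset.mem_Ioc]
            exact ⟨⟨by omega, by omega⟩, s', w, hs'a, hcw', hLk⟩)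
          rw [hget] at h1
          exact h1
    have hcard := Finset.card_le_card hsub
    have h1 : ∀ A B : Finset V, (A ∪ B).card ≤ A.card + B.card := fun A B =>
      Finset.card_union_le A B
    refine hcard.trans ((h1 _ _).trans ?_)
    refine le_trans (Nat.add_le_add (by rw [Finset.card_singleton])
      ((h1 _ _).trans (Nat.add_le_add ?_ ((h1 _ _).trans (Nat.add_le_add ?_ ?_))))) (arith hk1)
    · refine Finset.card_image_le.trans ?_
      rw [Nat.card_Icc]
      omega
    · exact Finset.card_image_le.trans (hT k hk1)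
    · exact Finset.card_image_le.trans (hT' k hk1)

end Pool.Agent.Lib.MP_b6048d_co.F.ThinEdgeAux

namespace Pool.Agent.Lib.MP_b6048d_co.F

open ThinEdgeAux in
theorem thinEdge (hS : SameLeg) (hQ : QLink) : ThinEdge := by
  intro V G Γ H Q q₁ q₂ v l hG hE hlen m a x y hm hax hay ham hbig hT hT' _ _
  exact ⟨main hS hQ G Γ H Q q₁ q₂ v l hG hE hlen m a x y hm hax hay ham hbig hT hT' x (Or.inl rfl),
    main hS hQ G Γ H Q q₁ q₂ v l hG hE hlen m a x y hm hax hay ham hbig hT hT' y (Or.inr rfl)⟩

end Pool.Agent.Lib.MP_b6048d_co.F
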