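import Pool.Agent.Lib.MP_b6048d_co.F.SpecA

set_option autoImplicit false

/-! A10 ThinSmall: a thin set is small. -/

open scoped Classical

namespace Pool.Agent.Lib.MP_b6048d_co.F.ThinSmallAux

variable {V : Type*} {Γ : SimpleGraph V} {S A : Finset V}

lemma bl_bl (j i : ℕ) : bl Γ S (bl Γ S A j) i = bl Γ S A (j + i) := by
  induction i with
  | zero => rw [bl]; exact Finset.inter_eq_left.2 bl_subset
  | succ i ih => rw [bl, ih, ← add_assoc]; rfl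

lemma num_bound (κ L K : ℕ) (hK : K = 40 * κ * 37 ^ 3) (hL : K + 1 ≤ L) :
    40 * L ^ 2 * (κ * (L + 36 * L ^ 3) ^ 3) ≤ L ^ 15 := by
  have hL1 : 1 ≤ L := (Nat.le_add_left 1 K).trans hL
  have h1 : L + 36 * L ^ 3 ≤ 37 * L ^ 3 := by
    have : L ≤ L ^ 3 := Nat.le_self_pow (by norm_num) L
    generalize L ^ 3 = c at *
    linarith
  have h2 : (L + 36 * L ^ 3) ^ 3 ≤ (37 * L ^ 3) ^ 3 := Nat.pow_le_pow_left h1 3
  calc 40 * L ^ 2 * (κ * (L + 36 * L ^ 3) ^ 3)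
      ≤ 40 * L ^ 2 * (κ * (37 * L ^ 3) ^ 3) :=
        Nat.mul_le_mul_left _ (Nat.mul_le_mul_left _ h2)
    _ = K * L ^ 11 := by rw [hK]; ring
    _ ≤ L * L ^ 11 := Nat.mul_le_mul_right _ ((Nat.le_succ K).trans hL)
    _ = L ^ 12 := by ring
    _ ≤ L ^ 15 := Nat.pow_le_pow_right hL1 (by norm_num)

end Pool.Agent.Lib.MP_b6048d_co.F.ThinSmallAux

namespace Pool.Agent.Lib.MP_b6048d_co.F

open ThinSmallAux

theorem thinSmall (hM : MinBasics) (hB : ThinBall) (hS : Spread) : ThinSmall := by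
  intro κ
  obtain ⟨D₁, hD₁, hB⟩ := hB κ 15
  obtain ⟨K, hK⟩ : ∃ K, K = 40 * κ * 37 ^ 3 := ⟨_, rfl⟩
  obtain ⟨D₂, hD₂, hM2⟩ := hM.2 (K + 1)
  refine ⟨max D₁ D₂, hD₁.trans (le_max_left _ _), ?_⟩
  intro V Γ D H hD hMin W u huH huW hT
  have hL := (hM2 V Γ D H ((le_max_right _ _).trans hD) hMin).1
  have hcard := hB V Γ D H ((le_max_left _ _).trans hD) hMin W u huH huW hT
  have hD1 : 1 ≤ D := hD₁.trans ((le_max_left _ _).trans hD)
  have hnum := num_bound κ (Lg H) K hK hL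
  have hne : (bl Γ (H \ W) {u} (Lg H)).Nonempty :=
    ⟨u, self_mem_bl (Finset.mem_sdiff.2 ⟨huH, huW⟩)⟩
  have h1 := hS V Γ D H hD1 hMin W (bl Γ (H \ W) {u} (Lg H))
    (κ * (Lg H + 36 * Lg H ^ 3) ^ 3) bl_subset hne (hnum.trans hcard) (by
      intro i hi
      rw [bl_bl]
      refine (hT (Lg H + i)).trans (Nat.mul_le_mul_left _ (Nat.pow_le_pow_left ?_ 3))
      omega)
  have h2 : W ∩ H ⊆ H \ bl Γ (H \ W) (bl Γ (H \ W) {u} (Lg H)) (36 * Lg H ^ 3) := by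
    have h4 : bl Γ (H \ W) (bl Γ (H \ W) {u} (Lg H)) (36 * Lg H ^ 3) ⊆ H \ W := bl_subset
    generalize bl Γ (H \ W) (bl Γ (H \ W) {u} (Lg H)) (36 * Lg H ^ 3) = Z at h4
    intro w hw
    rw [Finset.mem_inter] at hw
    exact Finset.mem_sdiff.2 ⟨hw.2, fun hh => (Finset.mem_sdiff.1 (h4 hh)).2 hw.1⟩
  have h3 : 22 * Lg H ^ 2 * (κ * (Lg H + 36 * Lg H ^ 3) ^ 3) ≤
      40 * Lg H ^ 2 * (κ * (Lg H + 36 * Lg H ^ 3) ^ 3) := by
    gcongr
    norm_num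
  exact (Finset.card_le_card h2).trans (h1.trans (h3.trans hnum))

end Pool.Agent.Lib.MP_b6048d_co.F
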