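import Pool.Agent.Lib.MP_b6048d_co.F.TauFacts
import Pool.Agent.Lib.MP_b6048d_co.F.MinBasics
import Pool.Agent.Lib.MP_b6048d_co.F.Exp
import Pool.Agent.Lib.MP_b6048d_co.F.ExpSmall
import Pool.Agent.Lib.MP_b6048d_co.F.HalfBall
import Pool.Agent.Lib.MP_b6048d_co.F.Conn
import Pool.Agent.Lib.MP_b6048d_co.F.Spread
import Pool.Agent.Lib.MP_b6048d_co.F.NumGrow
import Pool.Agent.Lib.MP_b6048d_co.F.ThinBall
import Pool.Agent.Lib.MP_b6048d_co.F.ThinSmall
import Pool.Agent.Lib.MP_b6048d_co.F.LocLemma
import Pool.Agent.Lib.MP_b6048d_co.F.Closure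
import Pool.Agent.Lib.MP_b6048d_co.F.Pockets
import Pool.Agent.Lib.MP_b6048d_co.F.Exceptional
import Pool.Agent.Lib.MP_b6048d_co.F.BadCount
import Pool.Agent.Lib.MP_b6048d_co.F.NumBad
import Pool.Agent.Lib.MP_b6048d_co.F.GoodLemma
import Pool.Agent.Lib.MP_b6048d_co.F.GoodGrow
import Pool.Agent.Lib.MP_b6048d_co.F.HatPrefix
import Pool.Agent.Lib.MP_b6048d_co.F.NewSet
import Pool.Agent.Lib.MP_b6048d_co.F.LevelCount
import Pool.Agent.Lib.MP_b6048d_co.F.GeoDevice
import Pool.Agent.Lib.MP_b6048d_co.F.DeviceLemma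
import Pool.Agent.Lib.MP_b6048d_co.F.Link2
import Pool.Agent.Lib.MP_b6048d_co.F.LinkH
import Pool.Agent.Lib.MP_b6048d_co.F.StepSets
import Pool.Agent.Lib.MP_b6048d_co.F.StepGlue
import Pool.Agent.Lib.MP_b6048d_co.F.InitState
import Pool.Agent.Lib.MP_b6048d_co.F.Closing
import Pool.Agent.Lib.MP_b6048d_co.F.Ranges
import Pool.Agent.Lib.MP_b6048d_co.F.BlobThm
import Pool.Agent.Lib.MP_b6048d_co.F.BlobRestrict
import Pool.Agent.Lib.MP_b6048d_co.F.DenseBip
import Pool.Agent.Lib.MP_b6048d_co.F.CovThm
import Pool.Agent.Lib.MP_b6048d_co.F.CovMono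
import Pool.Agent.Lib.MP_b6048d_co.F.ShortOddThin
import Pool.Agent.Lib.MP_b6048d_co.F.LongOdd
import Pool.Agent.Lib.MP_b6048d_co.F.SameLeg
import Pool.Agent.Lib.MP_b6048d_co.F.QLink
import Pool.Agent.Lib.MP_b6048d_co.F.Cross
import Pool.Agent.Lib.MP_b6048d_co.F.CrossCount
import Pool.Agent.Lib.MP_b6048d_co.F.ThinEdge
import Pool.Agent.Lib.MP_b6048d_co.F.Greedy
import Pool.Agent.Lib.MP_b6048d_co.F.Sumset
import Pool.Agent.Lib.MP_b6048d_co.F.Detour
import Pool.Agent.Lib.MP_b6048d_co.F.GapLemma
import Pool.Agent.Lib.MP_b6048d_co.F.TwoPaths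
import Pool.Agent.Lib.MP_b6048d_co.F.BlockEar
import Pool.Agent.Lib.MP_b6048d_co.F.BlockPar
import Pool.Agent.Lib.MP_b6048d_co.F.BlockOne
import Pool.Agent.Lib.MP_b6048d_co.F.BlocksExist
import Pool.Agent.Lib.MP_b6048d_co.F.BlobInside
import Pool.Agent.Lib.MP_b6048d_co.F.GapToGapP
import Pool.Agent.Lib.MP_b6048d_co.F.MainSub

set_option autoImplicit false

/-!
Assembly of sections A, C and D.
-/

open scoped Classical

namespace Pool.Agent.Lib.MP_b6048d_co.F

theorem halfBall' : HalfBall := halfBall (exp_ tauFacts (minBasics tauFacts))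
theorem conn' : Conn := conn halfBall'
theorem spread' : Spread := spread (exp_ tauFacts (minBasics tauFacts)) halfBall'
theorem thinBall' : ThinBall :=
  thinBall (minBasics tauFacts) (expSmall tauFacts (minBasics tauFacts)) numGrow
theorem thinSmall' : ThinSmall := thinSmall (minBasics tauFacts) thinBall' spread'
theorem locLemma' : LocLemma := locLemma (minBasics tauFacts) thinBall' thinSmall' conn'
theorem goodLemma' : GoodLemma :=
  goodLemma (minBasics tauFacts) (closure tauFacts (minBasics tauFacts))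
    (pockets tauFacts (minBasics tauFacts)) (exceptional tauFacts (minBasics tauFacts)) badCount
    numBad
theorem newSet' : NewSet := newSet (minBasics tauFacts) goodLemma' (goodGrow numGrow) hatPrefix
theorem deviceLemma' : DeviceLemma :=
  deviceLemma (minBasics tauFacts) goodLemma' (goodGrow numGrow) spread' levelCount geoDevice
theorem linkH' : LinkH := linkH conn' link2
theorem stepSets' : StepSets :=
  stepSets (minBasics tauFacts) halfBall' hatPrefix newSet' deviceLemma' linkH'
theorem initState' : InitState :=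
  initState (minBasics tauFacts) thinBall' thinSmall' locLemma' hatPrefix newSet' linkH'
theorem blobThm' : BlobThm :=
  blobThm (minBasics tauFacts) thinSmall' locLemma' stepSets' (stepGlue hatPrefix) initState'
    (closing (minBasics tauFacts) conn') ranges
theorem covThm' : CovThm := covThm tauFacts blobThm' blobRestrict denseBip
theorem longOdd' : LongOdd := longOdd shortOddThin
theorem gapLemma' : GapLemma :=
  gapLemma longOdd' sameLeg (cross sameLeg) crossCount (thinEdge sameLeg qLink) greedy sumset detour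
theorem blocksExist' : BlocksExist :=
  blocksExist (blockEar twoPaths) (blockPar twoPaths) (blockOne twoPaths (blockEar twoPaths))
theorem blobInside' : BlobInside := blobInside longOdd'

end Pool.Agent.Lib.MP_b6048d_co.F
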