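import Pool.Agent.Lib.MP_b6048d_co.F.SpecE

set_option autoImplicit false

open scoped Classical

namespace Pool.Agent.Lib.MP_b6048d_co.F

theorem blockBall : BlockBall := by
  intro V G XX a g hbl X hX u hu x hx
  by_cases h : u = x
  · subst h
    exact Wd.refl _ _
  · obtain ⟨⟨l, hl, -, hlen⟩, -⟩ := hbl.par X hX u hu x hx h
    exact wd_iff_wk.2 ⟨l, hl.toWk.mono (Set.subset_univ _), hlen⟩

end Pool.Agent.Lib.MP_b6048d_co.F
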