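import Pool.Agent.Lib.MP_b6048d_co.F.SpecE2

set_option autoImplicit false

/-!
E24: from the final stage to the failing structure.
-/

open scoped Classical

namespace Pool.Agent.Lib.MP_b6048d_co.F

namespace CellThmAux

variable {V : Type}

lemma mem_cell {N : Finset V} {par : V → V} {dep : V → ℕ} {z v : V} :
    v ∈ cell N par dep z ↔ v ∈ N ∧ Rt par dep v = z := by
  unfold cell
  rw [Finset.mem_filter]

lemma wd_two {Λ : SimpleGraph V} {z z' s : V} (h : Wd Λ 1 z s) (h' : Wd Λ 1 z' s) :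
    Wd Λ 4 z z' := by
  rw [wd_iff_wk] at h h' ⊢
  obtain ⟨l, hl, h1⟩ := h
  obtain ⟨l', hl', h2⟩ := h'
  refine ⟨_, hl.append hl'.reverse, ?_⟩
  have := hl.append_length hl'.reverse
  rw [List.length_reverse] at this
  omega

lemma wd_symm {Λ : SimpleGraph V} {n : ℕ} {z s : V} (h : Wd Λ n z s) : Wd Λ n s z := by
  rw [wd_iff_wk] at h ⊢
  obtain ⟨l, hl, h1⟩ := h
  exact ⟨_, hl.reverse, by rwa [List.length_reverse]⟩

end CellThmAux

open CellThmAux in
theorem cellThm (hL : LtFar) (hV : Voronoi) (hF : VorFacts) (hH : HvFin) : CellThm := by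
  intro V G XX a g W S hB hg hS hst
  set Λ := Lt G XX a W with hΛ
  have HI := hH V G XX a g W hB
  set I : Finset (Set V) := HI.toFinset with hI
  have memI : ∀ X, X ∈ I ↔ X ∈ XX ∧ Hv G a W X := fun X => by
    rw [hI, Set.Finite.mem_toFinset]
    rfl
  set P : Finset V := W.filter (fun p => ∃ X ∈ XX, Hv G a W X ∧ Linked G XX a W S X p) with hP
  have memP : ∀ p, p ∈ P ↔ p ∈ W ∧ ∃ X ∈ XX, Hv G a W X ∧ Linked G XX a W S X p := fun p => by
    rw [hP, Finset.mem_filter]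
  obtain ⟨Z, N, par, dep, hvor⟩ := hV V Λ P
  obtain ⟨f1, f2, f3, f4, f5, f6, f7⟩ := hF V Λ P Z N par dep hvor
  set C : V → Finset V := fun z => cell N par dep z with hC
  have memC : ∀ z v, v ∈ C z ↔ v ∈ N ∧ Rt par dep v = z := fun z v => mem_cell
  set Ce := cellG N par dep Λ with hCe
  have hCeΛ : Ce ≤ Λ := fun u v h => h.1
  have hΛG : Λ ≤ G := fun u v h => h.1
  have one : ∀ z, ∀ X ∈ I, ∀ u ∈ C z, ∀ v ∈ C z, u ∈ X → v ∈ X → u = v := by
    intro z X hX u hu v hv huX hvX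
    rw [memI] at hX
    obtain ⟨l, hl, hlen⟩ := f4 z u hu v hv
    refine hL V G XX a g 8 W hB (by omega) X hX.1 hX.2 u huX v hvX ?_
    rw [wd_iff_wk]
    exact ⟨l, (hl.toWk.monoG hCeΛ).mono (Set.subset_univ _), hlen⟩
  have hPC : ∀ p ∈ P, p ∈ C (Rt par dep p) ∧ Rt par dep p ∈ Z := fun p hp =>
    ⟨(f1 p (hvor.PN hp)).2, (f1 p (hvor.PN hp)).1⟩
  have hcells : Cells G I (Z.image C) Ce := by
    refine ⟨?_, ?_, ?_, ?_, ?_, ?_⟩
    · intro T hT T' hT' hne
      rw [Finset.mem_image] at hT hT'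
      obtain ⟨z, -, rfl⟩ := hT
      obtain ⟨z', -, rfl⟩ := hT'
      rw [Finset.disjoint_left]
      intro v hv hv'
      rw [memC] at hv hv'
      exact hne (by rw [← hv.2, ← hv'.2])
    · exact fun u v h => hΛG (hCeΛ h)
    · intro u v huv
      have hu : u ∈ N := huv.2.1
      have hv : v ∈ N := huv.2.2.1
      refine ⟨C (Rt par dep u), Finset.mem_image_of_mem _ (f1 u hu).1, (f1 u hu).2, ?_⟩
      rw [memC]
      exact ⟨hv, (f3 u v huv).symm⟩
    · exact f5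
    · intro T hT u hu v hv
      rw [Finset.mem_image] at hT
      obtain ⟨z, -, rfl⟩ := hT
      obtain ⟨l, hl, hlen⟩ := f4 z u hu v hv
      exact ⟨l, hl, by omega⟩
    · intro T hT X hX u hu v hv huX hvX
      rw [Finset.mem_image] at hT
      obtain ⟨z, -, rfl⟩ := hT
      exact one z X hX u hu v hv huX hvX
  refine ⟨I, Z.image C, Ce, ?_, ?_, hcells, ?_, ?_, ?_, ?_⟩
  · obtain ⟨X, hX, hX2⟩ := hst.ne
    exact ⟨X, (memI X).mpr ⟨hX, hX2⟩⟩
  · exact fun X hX => ((memI X).mp hX).1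
  · intro X hX
    obtain ⟨hX1, hX2⟩ := (memI X).mp hX
    obtain ⟨p₁, p₂, p₃, h12, h13, h23, l1, l2, l3⟩ := hst.three X hX1 hX2
    have q1 : p₁ ∈ P := (memP _).mpr ⟨l1.2.1, X, hX1, hX2, l1⟩
    have q2 : p₂ ∈ P := (memP _).mpr ⟨l2.2.1, X, hX1, hX2, l2⟩
    have q3 : p₃ ∈ P := (memP _).mpr ⟨l3.2.1, X, hX1, hX2, l3⟩
    have key : ∀ p ∈ P, ∀ p' ∈ P, p ∈ X → p' ∈ X → p ≠ p' →
        C (Rt par dep p) ≠ C (Rt par dep p') := by
      intro p hp p' hp' hpX hpX' hne he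
      apply hne
      refine one (Rt par dep p) X hX p (hPC p hp).1 p' ?_ hpX hpX'
      rw [he]
      exact (hPC p' hp').1
    have hsub : ({C (Rt par dep p₁), C (Rt par dep p₂), C (Rt par dep p₃)} : Finset (Finset V)) ⊆
        (Z.image C).filter (fun T => ∃ x ∈ T, x ∈ X) := by
      intro T hT
      rw [Finset.mem_insert, Finset.mem_insert, Finset.mem_singleton] at hT
      rw [Finset.mem_filter]
      rcases hT with rfl | rfl | rfl
      · exact ⟨Finset.mem_image_of_mem _ (hPC _ q1).2, p₁, (hPC _ q1).1, l1.1⟩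
      · exact ⟨Finset.mem_image_of_mem _ (hPC _ q2).2, p₂, (hPC _ q2).1, l2.1⟩
      · exact ⟨Finset.mem_image_of_mem _ (hPC _ q3).2, p₃, (hPC _ q3).1, l3.1⟩
    have h3 := Finset.card_le_card hsub
    have h4 : ({C (Rt par dep p₁), C (Rt par dep p₂), C (Rt par dep p₃)} :
        Finset (Finset V)).card = 3 := by
      rw [Finset.card_eq_three]
      exact ⟨_, _, _, key _ q1 _ q2 l1.1 l2.1 h12, key _ q1 _ q3 l1.1 l3.1 h13,
        key _ q2 _ q3 l2.1 l3.1 h23, rfl⟩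
    omega
  · intro T hT
    rw [Finset.mem_image] at hT
    obtain ⟨z, hz, rfl⟩ := hT
    obtain ⟨-, X, hX1, hX2, hl⟩ := (memP z).mp (hvor.ZP hz)
    exact ⟨X, (memI X).mpr ⟨hX1, hX2⟩, z, f2 z hz, hl.1⟩
  · refine le_trans ?_ hS
    apply Finset.card_le_card_of_forall_subsingleton (fun T s => ∃ z ∈ Z, T = C z ∧ Wd Λ 1 z s)
    · intro T hT
      rw [Finset.mem_filter, Finset.mem_image] at hT
      obtain ⟨⟨z, hz, rfl⟩, hlt⟩ := hT
      obtain ⟨-, X, hX1, hX2, hl⟩ := (memP z).mp (hvor.ZP hz)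
      obtain ⟨hzX, hzW, hl | ⟨s, hs, hws⟩⟩ := hl
      · exfalso
        obtain ⟨X', hX', hne, hX2', q, hqX, hqW, hw⟩ := hl
        have hqP : q ∈ P := (memP q).mpr ⟨hqW, X', hX', hX2', hqX, hqW,
          Or.inl ⟨X, hX1, hne.symm, hX2, z, hzX, hzW, wd_symm hw⟩⟩
        have hqC : q ∈ C z := f7 z hz q (hvor.PN hqP) hw
        have hsub : ({X, X'} : Finset (Set V)) ⊆
            I.filter (fun X => ∃ x ∈ C z, x ∈ X) := by
          intro Y hY
          rw [Finset.mem_insert, Finset.mem_singleton] at hY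
          rw [Finset.mem_filter]
          rcases hY with rfl | rfl
          · exact ⟨(memI _).mpr ⟨hX1, hX2⟩, z, f2 z hz, hzX⟩
          · exact ⟨(memI _).mpr ⟨hX', hX2'⟩, q, hqC, hqX⟩
        have h3 := Finset.card_le_card hsub
        rw [Finset.card_pair hne.symm] at h3
        omega
      · exact ⟨s, hs, z, hz, rfl, hws⟩
    · intro s _ T hT T' hT'
      obtain ⟨-, z, hz, rfl, hw⟩ := hT
      obtain ⟨-, z', hz', rfl, hw'⟩ := hT'
      rw [hvor.far z hz z' hz' (wd_two hw hw')]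
  · intro T hT
    rw [Finset.mem_image] at hT
    obtain ⟨z, hz, rfl⟩ := hT
    have h5 := f6 z
    have h6 : (P ∩ C z).card ≤ (I.filter (fun X => ∃ x ∈ C z, x ∈ X)).card := by
      apply Finset.card_le_card_of_forall_subsingleton (fun p X => p ∈ X)
      · intro p hp
        rw [Finset.mem_inter] at hp
        obtain ⟨-, X, hX1, hX2, hl⟩ := (memP p).mp hp.1
        exact ⟨X, Finset.mem_filter.mpr ⟨(memI X).mpr ⟨hX1, hX2⟩, p, hp.2, hl.1⟩, hl.1⟩
      · intro X hX p hp p' hp'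
        rw [Finset.mem_filter] at hX
        exact one z X hX.1 p (Finset.mem_inter.mp hp.1).2 p' (Finset.mem_inter.mp hp'.1).2 hp.2 hp'.2
    have h7 : (C z).card ≤ 5 * (P ∩ C z).card := h5
    omega

end Pool.Agent.Lib.MP_b6048d_co.F
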