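import Pool.Agent.Lib.MP_b6048d_co.F.SpecE

set_option autoImplicit false

open scoped Classical

namespace Pool.Agent.Lib.MP_b6048d_co.F.ColBaseAux

variable {V : Type}

lemma cyc_adj {F : SimpleGraph V} {Q : List V} (h : IsCyc F Q) {z : V} (hz : z ∈ Q) :
    ∃ w, F.Adj w z := by
  obtain ⟨Q', hQ', -, hh⟩ : ∃ Q' : List V, IsCyc F Q' ∧ True ∧ Q'.head? = some z := by
    obtain ⟨a, b, rfl⟩ := List.append_of_mem hz
    exact ⟨_, h.rotate, trivial, by simp⟩
  have hne : Q' ≠ [] := by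
    rintro rfl
    simp at hh
  exact ⟨_, hQ'.closed z hh _ (List.getLast_mem_getLast? hne)⟩

lemma cyc_mono {F G : SimpleGraph V} {Q : List V} (hFG : F ≤ G) (h : IsCyc F Q) : IsCyc G Q :=
  ⟨h.len, h.nodup, h.chain.imp fun _ _ hab => hFG hab, fun a ha b hb => hFG (h.closed a ha b hb)⟩

end Pool.Agent.Lib.MP_b6048d_co.F.ColBaseAux

namespace Pool.Agent.Lib.MP_b6048d_co.F

open ColBaseAux

theorem colBase : ColBase := by
  intro V G XX a g K K₁ W S c hbl hc hno
  have hle : Lt G XX a W ≤ G := fun x y h => h.1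
  refine ⟨Lt G XX a W, hle, le_rfl, fun x y h => ⟨h.2.1, h.2.2.1⟩, ?_, ?_⟩
  · intro Q hQ hodd
    by_contra hlt
    obtain ⟨X, hX, hQX⟩ := hbl.odd Q (cyc_mono hle hQ) hodd (not_lt.1 hlt)
    refine hno X hX ⟨Q, cyc_mono hle hQ, hodd, not_lt.1 hlt, fun z hz => ⟨?_, hQX z hz⟩⟩
    obtain ⟨w, hw⟩ := cyc_adj hQ hz
    exact hw.2.2.1
  · intro pal ψ hpal hψ
    have hadj : ∀ x ∈ W, ∀ y ∈ W, G.Adj x y → (Lt G XX a W).Adj x y := fun x hx y hy hxy =>
      ⟨hxy, hx, hy, fun ⟨X, hX, hh, _⟩ => hno X hX hh⟩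
    refine ⟨fun v => if v ∈ S then c v else pal (ψ v) true, fun s hs => if_pos hs, ?_, ?_⟩
    · intro x hx y hy hxy
      by_cases hxS : x ∈ S
      · by_cases hyS : y ∈ S
        · simp only [hxS, hyS, if_true]
          exact hc x hxS y hyS hxy
        · simp only [hxS, hyS, if_true, if_false]
          exact (hpal.out _ _ x hxS).symm
      · by_cases hyS : y ∈ S
        · simp only [hxS, hyS, if_true, if_false]
          exact hpal.out _ _ y hyS
        · simp only [hxS, hyS, if_false]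
          intro he
          exact hψ x y (hadj x hx y hy hxy) (hpal.inj _ _ _ _ he).1
    · intro v hv hvS _
      exact ⟨true, if_neg hvS⟩

end Pool.Agent.Lib.MP_b6048d_co.F
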