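import Pool.Agent.Lib.MP_b6048d_co.F.SpecE

set_option autoImplicit false

open scoped Classical

namespace Pool.Agent.Lib.MP_b6048d_co.F.ColStepAux

variable {V : Type}

lemma hv_mono {G : SimpleGraph V} {a : ℕ} {W W' : Finset V} {X : Set V} (h : W ⊆ W')
    (hv : Hv G a W X) : Hv G a W' X := by
  obtain ⟨Q, h1, h2, h3, h4⟩ := hv
  exact ⟨Q, h1, h2, h3, fun z hz => ⟨h (h4 z hz).1, (h4 z hz).2⟩⟩

end Pool.Agent.Lib.MP_b6048d_co.F.ColStepAux

namespace Pool.Agent.Lib.MP_b6048d_co.F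

open ColStepAux

theorem colStep : ColStep := by
  intro hN hB V G XX a g K K₁ W S X c c'' pal ψ hbl hg hext hX hheavy hSW hLk hpal hψ hinv
  have memW'' : ∀ v, v ∈ Del G XX a W S X ↔ v ∈ W ∧ (v ∉ X ∨ Linked G XX a W S X v) :=
    fun v => by unfold Del; rw [Finset.mem_filter]
  have memL : ∀ v, v ∈ LkS G XX a W S X ↔ v ∈ W ∧ Linked G XX a W S X v :=
    fun v => by unfold LkS; rw [Finset.mem_filter]
  generalize Del G XX a W S X = W'' at *
  generalize LkS G XX a W S X = L at *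
  have hW''W : W'' ⊆ W := fun v hv => ((memW'' v).1 hv).1
  have hLW'' : ∀ v ∈ L, v ∈ W'' := fun v hv =>
    (memW'' v).2 ⟨((memL v).1 hv).1, Or.inr ((memL v).1 hv).2⟩
  have hSL : ∀ s ∈ S, s ∈ X → s ∈ L := fun s hs hsX =>
    (memL s).2 ⟨hSW hs, hsX, hSW hs, Or.inr ⟨s, hs, Wd.refl 1 s⟩⟩
  have hLX : ∀ v ∈ L, v ∈ X := fun v hv => ((memL v).1 hv).2.1
  have hunl : ∀ v ∈ W, v ∉ L → ¬ Linked G XX a W S X v := fun v hv hvL h =>
    hvL ((memL v).2 ⟨hv, h⟩)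
  have houtW'' : ∀ v ∈ W, v ∉ X → v ∈ W'' := fun v hv hvX => (memW'' v).2 ⟨hv, Or.inl hvX⟩
  have hfree : ∀ v ∈ W, v ∉ S → (∀ X ∈ XX, Hv G a W X → v ∉ X) → ∃ b, c'' v = pal (ψ v) b :=
    fun v hv hvS h => hinv.free v (houtW'' v hv (h X hX hheavy)) hvS
      (fun X' hX' hh => h X' hX' (hv_mono hW''W hh))
  have hmJ : ∀ v, v ∈ W.filter (fun v => v ∈ X) ↔ v ∈ W ∧ v ∈ X := fun v => Finset.mem_filter
  generalize W.filter (fun v => v ∈ X) = J₀ at *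
  -- a vertex of `J₀`
  obtain ⟨v₀, hv₀⟩ : ∃ v₀, v₀ ∈ X := hbl.ne X hX
  obtain ⟨d, hdL, hdJ⟩ := hext v₀ J₀ (fun x hx => hB V G XX a g hbl X hX v₀ hv₀ x ((hmJ x).1 hx).2)
    L (fun v hv => (hmJ v).2 ⟨((memL v).1 hv).1, hLX v hv⟩) hLk c''
    (fun x hx y hy hxy => hinv.prop x (hLW'' x hx) y (hLW'' y hy) hxy)
  -- the facts about the neighbours of unlinked vertices
  have hfact : ∀ p q, p ∈ J₀ → p ∉ L → q ∈ W → q ∉ X → G.Adj p q →
      q ∉ S ∧ (∀ X' ∈ XX, Hv G a W X' → q ∉ X') ∧ (∀ p' ∈ X, G.Adj p' q → p' = p) ∧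
      ∀ y ∈ W, y ∉ X → G.Adj y q →
        (Lt G XX a W).Adj y q ∧ ∀ X' ∈ XX, Hv G a W X' → y ∉ X' := fun p q hp hpL hq hqX hpq =>
    hN V G XX a g W S X p q hbl hg hX ((hmJ p).1 hp).2 ((hmJ p).1 hp).1
      (hunl p ((hmJ p).1 hp).1 hpL) hq hqX hpq
  -- the new colouring
  obtain ⟨R, hR⟩ : ∃ R : V → Prop, ∀ v, R v ↔ ∃ p ∈ J₀, p ∉ L ∧ G.Adj p v ∧ d p = c'' v :=
    ⟨fun v => ∃ p ∈ J₀, p ∉ L ∧ G.Adj p v ∧ d p = c'' v, fun v => Iff.rfl⟩
  obtain ⟨c', hc'X, hc'R, hc'N⟩ : ∃ c' : V → Fin K, (∀ v, v ∈ X → c' v = d v) ∧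
      (∀ v, v ∉ X → R v → ∃ b, c' v = pal (ψ v) b ∧ ∀ b', c'' v = pal (ψ v) b' → b' ≠ b) ∧
      (∀ v, v ∉ X → ¬ R v → c' v = c'' v) := by
    refine ⟨fun v => if v ∈ X then d v else if R v then
      (if c'' v = pal (ψ v) true then pal (ψ v) false else pal (ψ v) true) else c'' v, ?_, ?_, ?_⟩
    · intro v hv
      simp [hv]
    · intro v hv hRv
      by_cases h1 : c'' v = pal (ψ v) true
      · refine ⟨false, by simp only [hv, hRv, h1, if_true, if_false], ?_⟩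
        intro b' hb' hb
        rw [hb, h1] at hb'
        have := (hpal.inj _ _ _ _ hb').2
        exact absurd this (by decide)
      · refine ⟨true, by simp only [hv, hRv, h1, if_true, if_false], ?_⟩
        intro b' hb' hb
        rw [hb] at hb'
        exact h1 hb'
    · intro v hv hRv
      simp only [hv, hRv, if_false]
  have hRS : ∀ s ∈ S, s ∉ X → ¬ R s := by
    intro s hs hsX hRs
    obtain ⟨p, hp, hpL, hps, -⟩ := (hR s).1 hRs
    exact (hfact p s hp hpL (hSW hs) hsX hps).1 hs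
  have hextc : ∀ s ∈ S, c' s = c s := by
    intro s hs
    by_cases hsX : s ∈ X
    · rw [hc'X s hsX, hdL s (hSL s hs hsX), hinv.ext s hs]
    · rw [hc'N s hsX (hRS s hs hsX), hinv.ext s hs]
  have hfreec : ∀ v ∈ W, v ∉ S → (∀ X ∈ XX, Hv G a W X → v ∉ X) → ∃ b, c' v = pal (ψ v) b := by
    intro v hv hvS h
    have hvX := h X hX hheavy
    by_cases hRv : R v
    · obtain ⟨b, hb, -⟩ := hc'R v hvX hRv
      exact ⟨b, hb⟩
    · rw [hc'N v hvX hRv]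
      exact hfree v hv hvS h
  -- the mixed case
  have hmix : ∀ x y, x ∈ W → y ∈ W → x ∈ X → y ∉ X → G.Adj x y → c' x ≠ c' y := by
    intro x y hxW hyW hxX hyX hxy
    rw [hc'X x hxX]
    by_cases hRy : R y
    · obtain ⟨p, hp, hpL, hpy, hpc⟩ := (hR y).1 hRy
      obtain ⟨h1, h2, h3, h4⟩ := hfact p y hp hpL hyW hyX hpy
      have hxp : x = p := h3 x hxX hxy
      rw [← hxp] at hpc
      obtain ⟨b, hb⟩ := hfree y hyW h1 h2
      obtain ⟨b', hb', hne⟩ := hc'R y hyX hRy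
      rw [hpc, hb, hb']
      intro he
      exact hne b hb ((hpal.inj _ _ _ _ he).2)
    · rw [hc'N y hyX hRy]
      by_cases hxL : x ∈ L
      · rw [hdL x hxL]
        exact hinv.prop x (hLW'' x hxL) y (houtW'' y hyW hyX) hxy
      · intro he
        exact hRy ((hR y).2 ⟨x, (hmJ x).2 ⟨hxW, hxX⟩, hxL, hxy, he⟩)
  -- both outside, one of them recoloured
  have hout : ∀ x y, x ∈ W → y ∈ W → x ∉ X → y ∉ X → G.Adj x y → R x → c' x ≠ c' y := by
    intro x y hxW hyW hxX hyX hxy hRx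
    obtain ⟨p, hp, hpL, hpx, hpc⟩ := (hR x).1 hRx
    obtain ⟨h1, h2, h3, h4⟩ := hfact p x hp hpL hxW hxX hpx
    obtain ⟨h5, h6⟩ := h4 y hyW hyX hxy.symm
    have hψxy := hψ y x h5
    obtain ⟨b, hb, -⟩ := hc'R x hxX hRx
    rw [hb]
    by_cases hyS : y ∈ S
    · rw [hextc y hyS]
      exact hpal.out _ _ y hyS
    · obtain ⟨b', hb'⟩ := hfreec y hyW hyS h6
      rw [hb']
      intro he
      exact hψxy ((hpal.inj _ _ _ _ he).1).symm
  refine ⟨c', hextc, ?_, hfreec⟩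
  intro x hx y hy hxy
  by_cases hxX : x ∈ X
  · by_cases hyX : y ∈ X
    · rw [hc'X x hxX, hc'X y hyX]
      exact hdJ x ((hmJ x).2 ⟨hx, hxX⟩) y ((hmJ y).2 ⟨hy, hyX⟩) hxy
    · exact hmix x y hx hy hxX hyX hxy
  · by_cases hyX : y ∈ X
    · exact (hmix y x hy hx hyX hxX hxy.symm).symm
    · by_cases hRx : R x
      · exact hout x y hx hy hxX hyX hxy hRx
      · by_cases hRy : R y
        · exact (hout y x hy hx hyX hxX hxy.symm hRy).symm
        · rw [hc'N x hxX hRx, hc'N y hyX hRy]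
          exact hinv.prop x (houtW'' x hx hxX) y (houtW'' y hy hyX) hxy

end Pool.Agent.Lib.MP_b6048d_co.F
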