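import Pool.Agent.Lib.MP_b6048d_co.F.SpecE

set_option autoImplicit false

open scoped Classical

namespace Pool.Agent.Lib.MP_b6048d_co.F.ColUpAux

variable {V : Type}

lemma cyc_adj {F : SimpleGraph V} {Q : List V} (h : IsCyc F Q) {z : V} (hz : z ∈ Q) :
    ∃ w, F.Adj w z := by
  obtain ⟨Q', hQ', -, hh⟩ : ∃ Q' : List V, IsCyc F Q' ∧ True ∧ Q'.head? = some z := by
    obtain ⟨a, b, rfl⟩ := List.append_of_mem hz
    exact ⟨_, h.rotate, trivial, by simp⟩
  have hne : Q' ≠ [] := by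
    rintro rfl
    simp at hh
  exact ⟨_, hQ'.closed z hh _ (List.getLast_mem_getLast? hne)⟩

lemma cyc_mono {F G : SimpleGraph V} {Q : List V} (hFG : F ≤ G) (h : IsCyc F Q) : IsCyc G Q :=
  ⟨h.len, h.nodup, h.chain.imp fun _ _ hab => hFG hab, fun a ha b hb => hFG (h.closed a ha b hb)⟩

lemma chain_in {F F' : SimpleGraph V} {X : Set V}
    (h : ∀ x y, F.Adj x y → x ∈ X → y ∈ X → F'.Adj x y) :
    ∀ {l : List V}, l.IsChain F.Adj → (∀ z ∈ l, z ∈ X) → l.IsChain F'.Adj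
  | [], _, _ => by simp
  | [x], _, _ => by simp
  | x :: y :: l, hl, hX => by
    rw [List.isChain_cons_cons] at hl ⊢
    exact ⟨h x y hl.1 (hX x (by simp)) (hX y (by simp)),
      chain_in h hl.2 (fun z hz => hX z (List.mem_cons_of_mem _ hz))⟩

end Pool.Agent.Lib.MP_b6048d_co.F.ColUpAux

namespace Pool.Agent.Lib.MP_b6048d_co.F

open ColUpAux

theorem colUp : ColUp := by
  intro hS V G XX a g K K₁ W S X c hbl hg hext hX hheavy hSW hLk hgood
  obtain ⟨F', hF'G, hF'L, hF'W, hF'odd, hF'c⟩ := hgood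
  have hDW : Del G XX a W S X ⊆ W := Finset.filter_subset _ _
  have hLG : Lt G XX a W ≤ G := fun x y h => h.1
  have hFG : F' ⊔ Lt G XX a W ≤ G := sup_le hF'G hLG
  have hFW : ∀ x y, (F' ⊔ Lt G XX a W).Adj x y → x ∈ W ∧ y ∈ W := by
    intro x y h
    rcases h with h | h
    · exact ⟨hDW (hF'W x y h).1, hDW (hF'W x y h).2⟩
    · exact ⟨h.2.1, h.2.2.1⟩
  refine ⟨F' ⊔ Lt G XX a W, hFG, le_sup_right, hFW, ?_, ?_⟩
  · intro Q hQ hodd
    by_contra hlt
    have hQG := cyc_mono hFG hQ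
    obtain ⟨X', hX', hQX⟩ := hbl.odd Q hQG hodd (not_lt.1 hlt)
    have hQW : ∀ z ∈ Q, z ∈ W := by
      intro z hz
      obtain ⟨w, hw⟩ := cyc_adj hQ hz
      exact (hFW w z hw).2
    have hh : Hv G a W X' := ⟨Q, hQG, hodd, not_lt.1 hlt, fun z hz => ⟨hQW z hz, hQX z hz⟩⟩
    have hin : ∀ x y, (F' ⊔ Lt G XX a W).Adj x y → x ∈ X' → y ∈ X' → F'.Adj x y := by
      intro x y h hx hy
      rcases h with h | h
      · exact h
      · exact absurd ⟨X', hX', hh, hx, hy⟩ h.2.2.2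
    refine hlt (hF'odd Q ⟨hQ.len, hQ.nodup, chain_in hin hQ.chain hQX, ?_⟩ hodd)
    intro x hx y hy
    exact hin y x (hQ.closed x hx y hy) (hQX y (List.mem_of_mem_getLast? hy))
      (hQX x (List.mem_of_mem_head? hx))
  · intro pal ψ hpal hψ
    obtain ⟨c'', hc''⟩ := hF'c pal ψ hpal (fun x y h => hψ x y (Or.inl h))
    exact hS V G XX a g K K₁ W S X c c'' pal ψ hbl hg hext hX hheavy hSW hLk hpal
      (fun x y h => hψ x y (Or.inr h)) hc''

end Pool.Agent.Lib.MP_b6048d_co.F
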