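import Pool.Agent.Lib.MP_b6048d_co.F.SpecE2
set_option autoImplicit false
open scoped Classical
namespace Pool.Agent.Lib.MP_b6048d_co.F
theorem hvFin : HvFin := by
  intro V G XX a g W hB
  apply Set.Finite.of_finite_image (f := fun X : Set V => W.filter (fun z => z ∈ X))
  · apply Set.Finite.subset (Finset.finite_toSet W.powerset)
    rintro _ ⟨X, -, rfl⟩
    exact Finset.mem_coe.2 (Finset.mem_powerset.2 (Finset.filter_subset _ _))
  · rintro X ⟨hX, Q, hQ, hodd, hlen, hmem⟩ X' ⟨hX', -⟩ h
    by_contra hne
    have h3 := hQ.len
    have hnd := hQ.nodup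
    match Q, h3, hnd, hmem with
    | x :: y :: t, _, hnd, hmem =>
      have hxy : x ≠ y := by
        intro h
        rw [h] at hnd
        simp at hnd
      have hx := hmem x (by simp)
      have hy := hmem y (by simp)
      have hx' : x ∈ X' := by
        have : x ∈ W.filter (fun z => z ∈ X) := Finset.mem_filter.2 hx
        rw [show W.filter (fun z => z ∈ X) = W.filter (fun z => z ∈ X') from h] at this
        exact (Finset.mem_filter.1 this).2
      have hy' : y ∈ X' := by
        have : y ∈ W.filter (fun z => z ∈ X) := Finset.mem_filter.2 hy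
        rw [show W.filter (fun z => z ∈ X) = W.filter (fun z => z ∈ X') from h] at this
        exact (Finset.mem_filter.1 this).2
      exact hxy (hB.one X hX X' hX' hne x hx.2 hx' y hy.2 hy')
end Pool.Agent.Lib.MP_b6048d_co.F
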