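import Pool.Agent.Lib.MP_b6048d_co.F.SpecE2

set_option autoImplicit false

/-!
E20 LtFar: two vertices of a heavy block at small light distance are equal.
-/

open scoped Classical

namespace Pool.Agent.Lib.MP_b6048d_co.F.LtFarAux

open Pool.Agent.Lib.MP_b6048d_co.F

variable {V : Type}

lemma lt_le (G : SimpleGraph V) (XX : Set (Set V)) (a : ℕ) (W : Finset V) :
    Lt G XX a W ≤ G := fun _ _ h => h.1

end Pool.Agent.Lib.MP_b6048d_co.F.LtFarAux

namespace Pool.Agent.Lib.MP_b6048d_co.F

open LtFarAux in
/-- **E20 LtFar.** -/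
theorem ltFar : LtFar := by
  intro V G XX a g n W hB hng X hX hHv u hu w hw hwd
  by_contra hne
  obtain ⟨l₀, hl₀, hlen₀⟩ := wd_iff_wk.1 hwd
  obtain ⟨l, hl, -, hle⟩ := hl₀.toPth
  obtain ⟨t, rfl⟩ := hl.toWk.exists_cons
  have hwt : w ∈ t := by
    rcases List.mem_cons.1 hl.toWk.right_mem with h | h
    · exact absurd h.symm hne
    · exact h
  obtain ⟨A, w', B, rfl, hw', hA⟩ := exists_first (fun z => z ∈ X) t ⟨w, hwt, hw⟩
  have e1 : u :: (A ++ w' :: B) = (u :: A) ++ w' :: B := rfl
  rw [e1] at hl hle
  have hcut := hl.cut.1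
  have hnd := hcut.nodup
  have huw' : u ≠ w' := by
    rintro rfl
    rw [List.cons_append, List.nodup_cons] at hnd
    exact hnd.1 (by simp)
  have hlen : (u :: A ++ [w']).length ≤ n + 1 := by
    refine le_trans ?_ (hle.trans hlen₀)
    simp only [List.length_append, List.length_cons, List.length_nil]
    omega
  cases A with
  | nil =>
    have hc := hcut.chain
    rw [List.cons_append, List.nil_append, List.isChain_cons_cons] at hc
    exact hc.1.2.2.2 ⟨X, hX, hHv, hu, hw'⟩
  | cons b A =>
    have h3 : 3 ≤ (u :: (b :: A) ++ [w']).length := by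
      simp only [List.length_append, List.length_cons, List.length_nil]
      omega
    have hear := hB.ear X hX u hu w' hw' huw' _ (hcut.monoG (lt_le G XX a W)) h3 (by
      intro z hz hzX
      rcases List.mem_append.1 hz with h | h
      · rcases List.mem_cons.1 h with h | h
        · exact Or.inl h
        · exact absurd hzX (hA z h)
      · exact Or.inr (List.mem_singleton.1 h))
    omega

end Pool.Agent.Lib.MP_b6048d_co.F
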