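import Pool.Agent.Lib.MP_b6048d_co.F.SpecE

set_option autoImplicit false

open scoped Classical

namespace Pool.Agent.Lib.MP_b6048d_co.F.NbrFactsAux

lemma wd_one {V : Type} {G : SimpleGraph V} {x y : V} (h : G.Adj x y) : Wd G 1 x y :=
  ⟨h.toWalk, by simp⟩

lemma wd_two {V : Type} {G : SimpleGraph V} {x y z : V} (h : G.Adj x y) (h' : G.Adj y z) :
    Wd G 2 x z := (wd_one h).trans (wd_one h')

lemma wd_mono {V : Type} {G : SimpleGraph V} {x y : V} {m n : ℕ} (h : Wd G m x y)
    (hmn : m ≤ n) : Wd G n x y := by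
  obtain ⟨p, hp⟩ := h
  exact ⟨p, by omega⟩

end Pool.Agent.Lib.MP_b6048d_co.F.NbrFactsAux

namespace Pool.Agent.Lib.MP_b6048d_co.F

theorem nbrFacts : NbrFacts := by
  intro V G XX a g W S X p q hB hg hX hpX hpW hnl hqW hqX hpq
  -- `p` is in no other heavy block
  have hp0 : ∀ X' ∈ XX, X' ≠ X → Hv G a W X' → p ∉ X' := by
    intro X' hX' hne hv hpX'
    exact hnl ⟨hpX, hpW, Or.inl ⟨X', hX', hne, hv, p, hpX', hpW, Wd.refl _ _⟩⟩
  have hlight : (Lt G XX a W).Adj p q := by
    refine ⟨hpq, hpW, hqW, ?_⟩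
    rintro ⟨X', hX', hv, hpX', hqX'⟩
    have hne : X' ≠ X := by
      rintro rfl
      exact hqX hqX'
    exact hp0 X' hX' hne hv hpX'
  have h2 : ∀ X' ∈ XX, Hv G a W X' → q ∉ X' := by
    intro X' hX' hv hqX'
    have hne : X' ≠ X := by
      rintro rfl
      exact hqX hqX'
    exact hnl ⟨hpX, hpW, Or.inl ⟨X', hX', hne, hv, q, hqX', hqW,
      NbrFactsAux.wd_mono (NbrFactsAux.wd_one hlight) (by norm_num)⟩⟩
  refine ⟨?_, h2, ?_, ?_⟩
  · intro hqS
    exact hnl ⟨hpX, hpW, Or.inr ⟨q, hqS, NbrFactsAux.wd_one hlight⟩⟩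
  · intro p' hp' hadj
    by_contra hne
    have hqp : q ≠ p := by
      rintro rfl
      exact hqX hpX
    have hqp' : q ≠ p' := by
      rintro rfl
      exact hqX hp'
    have hpth : Pth G Set.univ p p' [p, q, p'] := by
      refine ⟨⟨?_, by simp, by simp, by simp⟩, ?_⟩
      · simp [hpq, hadj.symm]
      · simp only [List.nodup_cons, List.mem_cons, List.not_mem_nil, or_false, not_or,
          not_false_eq_true, List.nodup_nil, and_true]
        exact ⟨⟨hqp.symm, Ne.symm hne⟩, hqp'⟩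
    have := hB.ear X hX p hpX p' hp' (Ne.symm hne) [p, q, p'] hpth (by simp) (by
      intro z hz hzX
      simp only [List.mem_cons, List.not_mem_nil, or_false] at hz
      rcases hz with rfl | rfl | rfl
      · exact Or.inl rfl
      · exact absurd hzX hqX
      · exact Or.inr rfl)
    simp at this
    omega
  · intro y hyW hyX hyq
    have hly : (Lt G XX a W).Adj y q := by
      refine ⟨hyq, hyW, hqW, ?_⟩
      rintro ⟨X', hX', hv, _, hqX'⟩
      exact h2 X' hX' hv hqX'
    refine ⟨hly, ?_⟩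
    intro X' hX' hv hyX'
    have hne : X' ≠ X := by
      rintro rfl
      exact hyX hyX'
    exact hnl ⟨hpX, hpW, Or.inl ⟨X', hX', hne, hv, y, hyX', hyW,
      NbrFactsAux.wd_two hlight hly.symm⟩⟩

end Pool.Agent.Lib.MP_b6048d_co.F
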