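import Pool.Agent.Lib.MP_b6048d_co.F.SpecE

set_option autoImplicit false

open scoped Classical

namespace Pool.Agent.Lib.MP_b6048d_co.F

theorem palExists : PalExists := by
  intro V K K₁ S c hS hK
  have h1 : (S.image c).card ≤ 2 := Finset.card_image_le.trans hS
  have h2 : Fintype.card (Fin K₁ × Bool) ≤ Fintype.card {x : Fin K // x ∉ S.image c} := by
    rw [Fintype.card_prod, Fintype.card_fin, Fintype.card_bool, Fintype.card_subtype_compl,
      Fintype.card_fin, Fintype.card_coe]
    omega
  obtain ⟨f⟩ := Function.Embedding.nonempty_of_card_le h2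
  refine ⟨fun i b => (f (i, b) : Fin K), ?_, ?_⟩
  · intro i i' b b' h
    have h3 := f.injective (Subtype.ext h)
    exact ⟨congrArg Prod.fst h3, congrArg Prod.snd h3⟩
  · intro i b s hs h
    exact (f (i, b)).2 (h ▸ Finset.mem_image_of_mem c hs)

end Pool.Agent.Lib.MP_b6048d_co.F
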