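import Pool.Agent.Lib.MP_b6048d_co.F.SpecE

set_option autoImplicit false

/-! E07: the deletion process. -/

open scoped Classical

namespace Pool.Agent.Lib.MP_b6048d_co.F

theorem process : Process := by
  intro hBase hUp V G XX a g K K₁ S c hB hg hE hc W
  induction hn : W.card using Nat.strong_induction_on generalizing W with
  | _ n ih =>
  intro hSW hno
  by_cases hheavy : ∃ X ∈ XX, Hv G a W X
  · have hns := hno W (Finset.Subset.refl _) hSW
    have hex : ∃ X ∈ XX, Hv G a W X ∧ (LkS G XX a W S X).card ≤ 2 := by
      by_contra hcon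
      push Not at hcon
      apply hns
      refine ⟨hheavy, ?_⟩
      intro X hX hHv
      have h2 := hcon X hX hHv
      rw [Finset.two_lt_card] at h2
      obtain ⟨p1, h1, p2, h2, p3, h3, h12, h13, h23⟩ := h2
      exact ⟨p1, p2, p3, h12, h13, h23, (Finset.mem_filter.1 h1).2, (Finset.mem_filter.1 h2).2,
        (Finset.mem_filter.1 h3).2⟩
    obtain ⟨X, hX, hHv, hcard⟩ := hex
    have hsub : Del G XX a W S X ⊆ W := Finset.filter_subset _ _
    have hSD : S ⊆ Del G XX a W S X := by
      intro s hs
      refine Finset.mem_filter.2 ⟨hSW hs, ?_⟩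
      by_cases hsX : s ∈ X
      · right
        exact ⟨hsX, hSW hs, Or.inr ⟨s, hs, Wd.refl 1 s⟩⟩
      · left; exact hsX
    have hlt : (Del G XX a W S X).card < n := by
      rw [← hn]
      apply Finset.card_lt_card
      refine ⟨hsub, ?_⟩
      intro hWD
      obtain ⟨Q, hQ, hodd, hlen, hmem⟩ := hHv
      have h3 : Q.toFinset ⊆ LkS G XX a W S X := by
        intro z hz
        have hzQ := List.mem_toFinset.1 hz
        obtain ⟨hzW, hzX⟩ := hmem z hzQ
        have h5 := hWD hzW
        rcases (Finset.mem_filter.1 h5).2 with h | h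
        · exact absurd hzX h
        · exact Finset.mem_filter.2 ⟨hzW, h⟩
      have h4 := Finset.card_le_card h3
      rw [List.toFinset_card_of_nodup hQ.nodup] at h4
      have h6 := hQ.len
      omega
    have hG := ih _ hlt _ rfl hSD (fun W' hW' hSW' => hno W' (hW'.trans hsub) hSW')
    exact hUp V G XX a g K K₁ W S X c hB hg hE hX hHv hSW hcard hG
  · push Not at hheavy
    exact hBase V G XX a g K K₁ W S c hB hc hheavy

end Pool.Agent.Lib.MP_b6048d_co.F
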