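import Pool.Agent.Lib.MP_b6048d_co.F.EDefs

set_option autoImplicit false

/-!
# Section E, part 2, of the full solution of MP_b6048d_co: cells

Every `Prop` is to be proved in its own file; the docstring is a complete proof. Statements proved
in other files may be used as HYPOTHESES.
-/

open scoped Classical

namespace Pool.Agent.Lib.MP_b6048d_co.F

variable {V : Type*}

/-- **E20 LtFar.** Two vertices of a heavy block at small light distance are equal.
Proof. Suppose `u ≠ w`. Let `l` be a path of `Lt G XX a W` from `u` to `w` with at most `n` edges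
(`wd_iff_wk`, `Wk.toPth`). Write `l = u :: t` and let `w'` be the first element of `t` which is in `X`
(`exists_first`; `w ∈ X` is in `t` as `u ≠ w`): the part `l'` of `l` from `u` to `w'` is a path with
`u ≠ w'`, inner vertices outside `X`, at most `n + 1` vertices. If `l'` has two vertices, `u w'` is a
light edge inside the heavy block `X`, against the definition of `Lt`. If it has at least three
vertices, `Blocks.ear` (a path of `Lt` is a path of `G`) gives `g + 1 < l'.length ≤ n + 1`, against
`n ≤ g`. -/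
def LtFar : Prop := ∀ (V : Type) (G : SimpleGraph V) (XX : Set (Set V)) (a g n : ℕ)
  (W : Finset V), Blocks G a g XX → n ≤ g → ∀ X ∈ XX, Hv G a W X → ∀ u ∈ X, ∀ w ∈ X,
  Wd (Lt G XX a W) n u w → u = w

/-- The data of a forest of trees of depth at most `4` in the graph `Λ`, with set of roots `Z`,
set of vertices `N`, spanned by `P`. -/
structure Vor (Λ : SimpleGraph V) (P Z N : Finset V) (par : V → V) (dep : V → ℕ) : Prop where
  ZP : Z ⊆ P
  far : ∀ z ∈ Z, ∀ z' ∈ Z, Wd Λ 4 z z' → z = z'
  PN : P ⊆ N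
  dep4 : ∀ v ∈ N, dep v ≤ 4
  zero : ∀ v ∈ N, dep v = 0 → v ∈ Z
  step : ∀ v ∈ N, dep v ≠ 0 → par v ∈ N ∧ Λ.Adj v (par v) ∧ dep (par v) + 1 = dep v
  near : ∀ v ∈ N, ∀ z ∈ Z, ∀ n, Wd Λ n z v → dep v ≤ n
  span : ∀ v ∈ N, ∃ p ∈ P, ∃ i ≤ dep p, v = par^[i] p

/-- The root of a vertex. -/
def Rt (par : V → V) (dep : V → ℕ) (v : V) : V := par^[dep v] v

/-- The cell of `z`. -/
noncomputable def cell (N : Finset V) (par : V → V) (dep : V → ℕ) (z : V) : Finset V :=
  N.filter (fun v => Rt par dep v = z)

/-- The graph of the tree edges. -/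
def cellG (N : Finset V) (par : V → V) (dep : V → ℕ) (Λ : SimpleGraph V) : SimpleGraph V where
  Adj u v := Λ.Adj u v ∧ u ∈ N ∧ v ∈ N ∧ ((dep u ≠ 0 ∧ v = par u) ∨ (dep v ≠ 0 ∧ u = par v))
  symm := ⟨fun _ _ h => ⟨h.1.symm, h.2.2.1, h.2.1, h.2.2.2.symm⟩⟩
  loopless := ⟨fun _ h => Λ.irrefl h.1⟩

/-- **E21 Voronoi** (pure).
Proof. Let `Z ⊆ P` be a maximal subset (largest cardinality) with `Wd Λ 4 z z' → z = z'` for all
`z, z' ∈ Z`. Then for every `p ∈ P` there is `z ∈ Z` with `Wd Λ 4 z p` (if `p ∈ Z` take `z = p`;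
otherwise `insert p Z` is not allowed, so `Wd Λ 4 z p` or `Wd Λ 4 p z` for some `z ∈ Z`). Let `A v n`
mean `∃ z ∈ Z, Wd Λ n z v`, `dep v` = the least `n` with `A v n` if there is one, otherwise `0`. If
`A v n` for some `n` and `dep v ≠ 0`, then the last edge of a shortest walk from `Z` to `v` gives
`u` with `Λ.Adj v u`, `A u (dep v - 1)`, and `dep u = dep v - 1` (minimality of `dep v`,
`Wd.step`): let `par v` be such a `u`, and `par v = v` in all other cases. If `A v n` for some `n` then the
same holds for `par v`. Let `N = {par^[i] p : p ∈ P, i ≤ dep p}` (a finite set,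
`P.biUnion fun p => (Finset.range (dep p + 1)).image fun i => par^[i] p`). By induction
`dep (par^[i] p) = dep p - i` for `i ≤ dep p`. `zero`: `dep v = 0` and `A v 0` means `v ∈ Z`.
`step`: if `v = par^[i] p`, `dep v = dep p - i ≠ 0` then `i + 1 ≤ dep p`, `par v = par^[i+1] p ∈ N`. -/
def Voronoi : Prop := ∀ (V : Type) (Λ : SimpleGraph V) (P : Finset V),
  ∃ (Z N : Finset V) (par : V → V) (dep : V → ℕ), Vor Λ P Z N par dep

/-- **E22 VorFacts** (pure). Elementary properties of the cells.
Proof. For `v ∈ N` and `i ≤ dep v`: `par^[i] v ∈ N` and `dep (par^[i] v) = dep v - i` (induction,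
`Vor.step`). (1) `Rt v ∈ N` has `dep = 0`, so it is in `Z`, and there is a walk of the tree graph
`v, par v, ..., Rt v` with `dep v ≤ 4` edges. (2) `Rt (par v) = Rt v` if `dep v ≠ 0`; so adjacent
vertices of `cellG` have the same root and all the vertices of the walk of (1) are in the cell of
`Rt v`. (3) two vertices `u, v` of the cell of `z`: walk from `u` to `z` and from `z` to `v` with
together at most `8` edges inside the cell; `Wk.toPth`. (4) a cycle `Q` of `cellG` has a vertex `v`
with largest `dep`; it has two different neighbours on the cycle (`cyc_rot`: `Q` rotated is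
`v :: t`, the neighbours are the first and the last element of `t`, different since
`|Q| ≥ 3` and no repetition). A neighbour `u` of `v` in `cellG` is `par v` or satisfies
`v = par u`, `dep u = dep v + 1`, impossible by the choice of `v`. So both neighbours are `par v`, a
contradiction. (5) `p ∈ N` is in the cell of `Rt p`; for `z ∈ Z`: `dep z = 0` (`near` with `n = 0`), so
`Rt z = z`. (6) `v` in the cell of `z`: `v = par^[i] p` with `p ∈ P`, `i ≤ dep p ≤ 4`, and `Rt p = Rt v = z` by
(2); so the cell is contained in the image of `(P ∩ cell z) × {0,...,4}`.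
(7) If `Wd Λ 2 z q`, `z ∈ Z`, `q ∈ N`, then `dep q ≤ 2` by `near`, `Wd Λ 2 (Rt q) q` by (1), so
`Wd Λ 4 z (Rt q)` and `Rt q = z` by `far`. -/
def VorFacts : Prop := ∀ (V : Type) (Λ : SimpleGraph V) (P Z N : Finset V) (par : V → V)
  (dep : V → ℕ), Vor Λ P Z N par dep →
  (∀ v ∈ N, Rt par dep v ∈ Z ∧ v ∈ cell N par dep (Rt par dep v)) ∧
  (∀ z ∈ Z, z ∈ cell N par dep z) ∧
  (∀ u v, (cellG N par dep Λ).Adj u v → Rt par dep u = Rt par dep v) ∧
  (∀ z, ∀ u ∈ cell N par dep z, ∀ v ∈ cell N par dep z,
    ∃ l, Pth (cellG N par dep Λ) (cell N par dep z : Set V) u v l ∧ l.length ≤ 9) ∧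
  (∀ Q, ¬ IsCyc (cellG N par dep Λ) Q) ∧
  (∀ z, (cell N par dep z).card ≤ 5 * (P ∩ cell N par dep z).card) ∧
  (∀ z ∈ Z, ∀ q ∈ N, Wd Λ 2 z q → q ∈ cell N par dep z)

/-- **E23 HvFin** (easy). There are finitely many heavy blocks.
Proof. The map `X ↦ W.filter (· ∈ X)` from the set of heavy blocks to the finite set `W.powerset`
is injective: a heavy block contains two different elements of `W` (an odd cycle has at least
three vertices), so two heavy blocks with the same trace on `W` are equal by `Blocks.one`. -/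
def HvFin : Prop := ∀ (V : Type) (G : SimpleGraph V) (XX : Set (Set V)) (a g : ℕ)
  (W : Finset V), Blocks G a g XX → {X | X ∈ XX ∧ Hv G a W X}.Finite

/-- **E24 CellThm.** From the final stage to the failing structure.
Proof. Let `Λ = Lt G XX a W`, `I` the finite set of heavy blocks (`HvFin`), `P` the finite set of all
`p ∈ W` which are linked ports of some `X ∈ I`; `Voronoi` gives `Z, N, par, dep`; `Tc` = the image of `Z`
under `z ↦ cell N par dep z`, `Ce = cellG N par dep Λ`.
`Cells`: `disj`: different cells have different `z`, and `z = Rt v` for `v` in the cell. `le`: clear.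
`inside`: `VorFacts` (first and third). `acyc`, `conn`: `VorFacts` (`9 ≤ 11`). `one`: `u, v` in a cell are
joined by a path of `Ce ≤ Λ` with at most `8` edges, so `Wd Λ 8 u v`, and `u = v` by `LtFar`.
`Fail`: `ne`, `sub`: clear (`Stage.ne`). `deg3`: `X ∈ I` has three different linked ports
`p₁, p₂, p₃ ∈ P ⊆ N`, which are in the cells of their roots; by `one` these cells are different.
`deg1`: the cell of `z ∈ Z ⊆ P` contains `z`, a linked port of some `X ∈ I`. `deg2`: let `T`, the cell
of `z`, meet at most one block of `I`; `z` is a linked port of `X ∈ I`. If there are `X' ≠ X` heavy and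
`q ∈ X' ∩ W` with `Wd Λ 2 z q`, then `q` is a linked port of `X'` (because of `z ∈ X`), so `q ∈ P ⊆ N` and
`q` is in the cell of `z` by the last part of `VorFacts`: the cell meets `X` and `X'`, a contradiction.
So there is `s ∈ S` with `Wd Λ 1 z s`. The map `T ↦ s` is injective: `Wd Λ 1 z s`, `Wd Λ 1 z' s` give
`Wd Λ 4 z z'`, `z = z'` by `Vor.far`. So there are at most `|S| ≤ 2` such cells. `size`: every
`p ∈ P ∩ T` is in some `X_p ∈ I`, and `p ↦ X_p` is injective on `P ∩ T` by `one`; so
`|T| ≤ 5 |P ∩ T| ≤ 5 · #{X ∈ I meeting T}`. -/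
def CellThm : Prop := ∀ (V : Type) (G : SimpleGraph V) (XX : Set (Set V)) (a g : ℕ)
  (W S : Finset V), Blocks G a g XX → 100 ≤ g → S.card ≤ 2 → Stage G XX a S W →
  ∃ (I : Finset (Set V)) (Tc : Finset (Finset V)) (Ce : SimpleGraph V), Fail G XX I Tc Ce

/-- **E19 StageThm** (main theorem of part 1, `SpecE.lean` of helper71). -/
def StageThm : Prop := ∀ (V : Type) (G : SimpleGraph V) (XX : Set (Set V)) (a g K K₁ r : ℕ),
  Blocks G a g XX → 100 ≤ a → 100 * a ≤ g → 3 * a + 3 ≤ r → 2 + 2 * K₁ ≤ K →
  (∀ r' < r, Ext G K r') →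
  (∀ (v₀ : V) (F : SimpleGraph V), F ≤ G → (∀ x y, F.Adj x y → Wd G r v₀ x) →
    (∀ Q, IsCyc F Q → Odd Q.length → a < Q.length) → F.Colorable K₁) →
  ¬ Ext G K r →
  ∃ S W : Finset V, S.card ≤ 2 ∧ Stage G XX a S W

end Pool.Agent.Lib.MP_b6048d_co.F
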