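import Pool.Agent.Lib.MP_b6048d_co.F.SpecE

set_option autoImplicit false

/-! E08: a final stage of the deletion process exists. -/

open scoped Classical

namespace Pool.Agent.Lib.MP_b6048d_co.F

theorem stageProc : StageProc := by
  intro hPal hPr V G XX a g K K₁ r hB hg har hK hE hcol hnE
  by_contra hcon
  apply hnE
  intro v₀ J hJ S hSJ hS2 c hc
  have hW : ∀ W' : Finset V, W' ⊆ J → S ⊆ W' → ¬ Stage G XX a S W' := by
    intro W' _ hSW' hSt
    exact hcon ⟨S, W', hS2, hSW', hSt⟩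
  obtain ⟨F, hFG, hLt, hFJ, hFo, hF⟩ :=
    hPr V G XX a g K K₁ S c hB hg (hE (3 * a) har) hc J hSJ hW
  have hFc := hcol v₀ F hFG (fun x y hxy => hJ x (hFJ x y hxy).1) hFo
  obtain ⟨ψ⟩ := hFc
  obtain ⟨pal, hpal⟩ := hPal V K K₁ S c hS2 hK
  obtain ⟨c', hinv⟩ := hF pal ψ hpal (fun x y hxy => ψ.valid hxy)
  exact ⟨c', hinv.ext, hinv.prop⟩

end Pool.Agent.Lib.MP_b6048d_co.F
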