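import Pool.Agent.Lib.MP_b6048d_co.F.Defs

set_option autoImplicit false

/-!
Basic facts on walks and paths given as lists.
-/

open scoped Classical

namespace Pool.Agent.Lib.MP_b6048d_co.F

variable {V : Type*} {G G' : SimpleGraph V} {S T : Set V} {u v w x y : V} {l l' : List V}

/-! ### walks -/

lemma Wk.ne_nil (h : Wk G S u v l) : l ≠ [] := by
  rintro rfl; exact absurd h.head (by simp)

lemma Wk.length_pos (h : Wk G S u v l) : 1 ≤ l.length :=
  List.length_pos_iff.2 h.ne_nil

lemma Wk.left_mem (h : Wk G S u v l) : u ∈ l := List.mem_of_mem_head? h.head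

lemma Wk.right_mem (h : Wk G S u v l) : v ∈ l := List.mem_of_mem_getLast? h.last

lemma Wk.left_in (h : Wk G S u v l) : u ∈ S := h.mem _ h.left_mem

lemma Wk.right_in (h : Wk G S u v l) : v ∈ S := h.mem _ h.right_mem

lemma Wk.single (hu : u ∈ S) : Wk G S u u [u] :=
  ⟨List.isChain_singleton _, rfl, rfl, by
    intro x hx
    rw [List.mem_singleton.1 hx]; exact hu⟩

lemma Wk.mono (h : Wk G S u v l) (hS : S ⊆ T) : Wk G T u v l :=
  ⟨h.chain, h.head, h.last, fun x hx => hS (h.mem x hx)⟩

lemma Wk.monoG (h : Wk G S u v l) (hG : G ≤ G') : Wk G' S u v l :=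
  ⟨h.chain.imp fun _ _ hab => hG hab, h.head, h.last, h.mem⟩

lemma Wk.restrict (h : Wk G S u v l) (hT : ∀ x ∈ l, x ∈ T) : Wk G T u v l :=
  ⟨h.chain, h.head, h.last, hT⟩

lemma Wk.exists_cons (h : Wk G S u v l) : ∃ t, l = u :: t := by
  cases l with
  | nil => exact absurd rfl h.ne_nil
  | cons a t =>
    have := h.head
    simp only [List.head?_cons, Option.some.injEq] at this
    exact ⟨t, by rw [this]⟩

lemma Wk.exists_concat (h : Wk G S u v l) : ∃ t, l = t ++ [v] := by
  rcases List.eq_nil_or_concat l with h1 | ⟨t, b, rfl⟩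
  · exact absurd h1 h.ne_nil
  · have := h.last
    simp only [List.concat_eq_append, List.getLast?_append, List.getLast?_singleton,
      Option.some_or, Option.some.injEq] at this
    exact ⟨t, by rw [List.concat_eq_append, this]⟩

/-- Joining two walks by an edge. -/
lemma Wk.app (h : Wk G S u v l) (h' : Wk G S x y l') (hvx : G.Adj v x) :
    Wk G S u y (l ++ l') := by
  refine ⟨?_, ?_, ?_, ?_⟩
  · rw [List.isChain_append]
    refine ⟨h.chain, h'.chain, ?_⟩
    intro a ha b hb
    rw [h.last] at ha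
    rw [h'.head] at hb
    simp only [Option.mem_def, Option.some.injEq] at ha hb
    rw [← ha, ← hb]; exact hvx
  · rw [List.head?_append, h.head]; rfl
  · rw [List.getLast?_append, h'.last]; rfl
  · intro z hz
    rcases List.mem_append.1 hz with h1 | h1
    · exact h.mem z h1
    · exact h'.mem z h1

/-- Joining two walks at a common vertex. -/
lemma Wk.append (h : Wk G S u v l) (h' : Wk G S v w l') : Wk G S u w (l ++ l'.tail) := by
  obtain ⟨t, rfl⟩ := h'.exists_cons
  rw [List.tail_cons]
  cases t with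
  | nil =>
    have h1 : v = w := by simpa using h'.last
    rw [List.append_nil, ← h1]; exact h
  | cons b t =>
    have hc := h'.chain
    rw [List.isChain_cons_cons] at hc
    refine Wk.app h (x := b) ⟨hc.2, rfl, ?_, fun z hz => h'.mem z (List.mem_cons_of_mem _ hz)⟩ hc.1
    have := h'.last
    rwa [List.getLast?_cons_cons] at this

lemma Wk.append_length (h : Wk G S u v l) (h' : Wk G S v w l') :
    (l ++ l'.tail).length + 1 = l.length + l'.length := by
  have := h'.length_pos
  rw [List.length_append, List.length_tail]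
  omega

lemma Wk.cons (h : Wk G S u v l) (hw : w ∈ S) (hwu : G.Adj w u) : Wk G S w v (w :: l) :=
  Wk.app (Wk.single hw) h hwu

lemma Wk.concat (h : Wk G S u v l) (hw : w ∈ S) (hvw : G.Adj v w) : Wk G S u w (l ++ [w]) :=
  Wk.app h (Wk.single hw) hvw

lemma Wk.reverse (h : Wk G S u v l) : Wk G S v u l.reverse := by
  refine ⟨?_, ?_, ?_, ?_⟩
  · rw [List.isChain_reverse]
    exact h.chain.imp fun a b hab => hab.symm
  · rw [List.head?_reverse]; exact h.last
  · rw [List.getLast?_reverse]; exact h.head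
  · intro x hx
    exact h.mem x (List.mem_reverse.1 hx)

/-- Cutting a walk at one of its vertices. -/
lemma Wk.cut {a b : List V} (h : Wk G S u v (a ++ x :: b)) :
    Wk G S u x (a ++ [x]) ∧ Wk G S x v (x :: b) := by
  have hc := h.chain
  rw [List.isChain_append] at hc
  obtain ⟨h1, h2, h3⟩ := hc
  constructor
  · refine ⟨?_, ?_, by simp, ?_⟩
    · rw [List.isChain_append]
      exact ⟨h1, by simp, fun p hp q hq => h3 p hp q (by simpa using hq)⟩
    · have := h.head
      rw [List.head?_append] at this ⊢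
      simpa using this
    · intro z hz
      apply h.mem
      rcases List.mem_append.1 hz with h4 | h4
      · exact List.mem_append_left _ h4
      · rw [List.mem_singleton.1 h4]; simp
  · refine ⟨h2, rfl, ?_, ?_⟩
    · have := h.last
      rw [List.getLast?_append] at this
      rw [List.getLast?_eq_getLast_of_ne_nil (List.cons_ne_nil _ _)] at this ⊢
      simpa using this
    · intro z hz
      exact h.mem z (List.mem_append_right _ hz)

lemma Wk.split (h : Wk G S u v l) (hx : x ∈ l) :
    ∃ a b, l = a ++ x :: b ∧ Wk G S u x (a ++ [x]) ∧ Wk G S x v (x :: b) := by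
  obtain ⟨a, b, rfl⟩ := List.append_of_mem hx
  exact ⟨a, b, rfl, h.cut⟩

/-- Every walk contains a path with the same ends. -/
lemma Wk.toPth (h : Wk G S u v l) :
    ∃ l', Pth G S u v l' ∧ l' ⊆ l ∧ l'.length ≤ l.length := by
  obtain ⟨n, hn⟩ : ∃ n, n = l.length := ⟨_, rfl⟩
  induction n using Nat.strong_induction_on generalizing l with
  | _ n ih =>
  by_cases hnd : l.Nodup
  · exact ⟨l, ⟨h, hnd⟩, List.Subset.refl _, le_rfl⟩
  · obtain ⟨a, x, b, c, rfl⟩ := exists_dup l hnd
    have h1 := h.cut
    have e1 : a ++ x :: (b ++ x :: c) = (a ++ x :: b) ++ x :: c := by simp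
    have h2 := (show Wk G S u v ((a ++ x :: b) ++ x :: c) by rw [← e1]; exact h).cut
    have h3 := h1.1.append h2.2
    simp only [List.tail_cons] at h3
    have hlen : (a ++ [x] ++ c).length < (a ++ x :: (b ++ x :: c)).length := by simp
    obtain ⟨l', hl', hsub, hle⟩ := ih _ (by rw [hn]; exact hlen) h3 rfl
    refine ⟨l', hl', ?_, hle.trans hlen.le⟩
    intro z hz
    have := hsub hz
    simp only [List.mem_append, List.mem_cons, List.mem_singleton, List.not_mem_nil, or_false] at this ⊢
    tauto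

/-- The first vertex of a walk with some property. -/
lemma exists_first (P : V → Prop) (l : List V) (h : ∃ x ∈ l, P x) :
    ∃ a x b, l = a ++ x :: b ∧ P x ∧ ∀ y ∈ a, ¬ P y := by
  induction l with
  | nil => obtain ⟨x, hx, -⟩ := h; simp at hx
  | cons c l ih =>
    by_cases hc : P c
    · exact ⟨[], c, l, rfl, hc, by simp⟩
    · have h' : ∃ x ∈ l, P x := by
        obtain ⟨x, hx, hPx⟩ := h
        rcases List.mem_cons.1 hx with rfl | h1
        · exact absurd hPx hc
        · exact ⟨x, h1, hPx⟩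
      obtain ⟨a, x, b, rfl, hx, ha⟩ := ih h'
      refine ⟨c :: a, x, b, rfl, hx, ?_⟩
      intro y hy
      rcases List.mem_cons.1 hy with rfl | h1
      · exact hc
      · exact ha y h1

/-- The last vertex of a walk with some property. -/
lemma exists_last (P : V → Prop) (l : List V) (h : ∃ x ∈ l, P x) :
    ∃ a x b, l = a ++ x :: b ∧ P x ∧ ∀ y ∈ b, ¬ P y := by
  obtain ⟨x, hx, hPx⟩ := h
  obtain ⟨a, y, b, hl, hy, ha⟩ := exists_first P l.reverse ⟨x, List.mem_reverse.2 hx, hPx⟩
  refine ⟨b.reverse, y, a.reverse, ?_, hy, fun z hz => ha z (List.mem_reverse.1 hz)⟩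
  rw [← List.reverse_reverse l, hl]
  simp

/-- A walk from `A` to the complement of `A` has an edge leaving `A`. -/
lemma Wk.crossing (h : Wk G S u v l) (A : Set V) (hu : u ∈ A) (hv : v ∉ A) :
    ∃ a x y b, l = a ++ x :: y :: b ∧ x ∈ A ∧ y ∉ A ∧ G.Adj x y ∧ (∀ z ∈ a, z ∈ A) := by
  obtain ⟨a, y, b, rfl, hy, ha⟩ := exists_first (fun z => z ∉ A) l ⟨v, h.right_mem, hv⟩
  have hane : a ≠ [] := by
    rintro rfl
    have : y = u := by simpa using h.head
    rw [this] at hy
    exact hy hu
  rcases List.eq_nil_or_concat a with h1 | ⟨a', x, rfl⟩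
  · exact absurd h1 hane
  · rw [List.concat_eq_append] at *
    refine ⟨a', x, y, b, by simp, by simpa using ha x (by simp), hy, ?_, ?_⟩
    · have hc := h.chain
      rw [List.append_assoc, List.isChain_append] at hc
      have := hc.2.1
      rw [List.singleton_append, List.isChain_cons_cons] at this
      exact this.1
    · intro z hz
      simpa using ha z (by simp [hz])

/-! ### paths -/

lemma Pth.single (hu : u ∈ S) : Pth G S u u [u] := ⟨Wk.single hu, by simp⟩

lemma Pth.mono (h : Pth G S u v l) (hS : S ⊆ T) : Pth G T u v l := ⟨h.toWk.mono hS, h.nodup⟩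

lemma Pth.monoG (h : Pth G S u v l) (hG : G ≤ G') : Pth G' S u v l := ⟨h.toWk.monoG hG, h.nodup⟩

lemma Pth.restrict (h : Pth G S u v l) (hT : ∀ x ∈ l, x ∈ T) : Pth G T u v l :=
  ⟨h.toWk.restrict hT, h.nodup⟩

lemma Pth.reverse (h : Pth G S u v l) : Pth G S v u l.reverse :=
  ⟨h.toWk.reverse, List.nodup_reverse.2 h.nodup⟩

lemma Pth.cut {a b : List V} (h : Pth G S u v (a ++ x :: b)) :
    Pth G S u x (a ++ [x]) ∧ Pth G S x v (x :: b) := by
  have hn := h.nodup
  have e1 : a ++ x :: b = (a ++ [x]) ++ b := by simp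
  refine ⟨⟨h.toWk.cut.1, ?_⟩, ⟨h.toWk.cut.2, ?_⟩⟩
  · rw [e1] at hn
    exact (List.nodup_append.1 hn).1
  · exact (List.nodup_append.1 hn).2.1

lemma Pth.split (h : Pth G S u v l) (hx : x ∈ l) :
    ∃ a b, l = a ++ x :: b ∧ Pth G S u x (a ++ [x]) ∧ Pth G S x v (x :: b) := by
  obtain ⟨a, b, rfl⟩ := List.append_of_mem hx
  exact ⟨a, b, rfl, h.cut⟩

/-- Joining two disjoint paths by an edge. -/
lemma Pth.app (h : Pth G S u v l) (h' : Pth G S x y l') (hvx : G.Adj v x)
    (hd : List.Disjoint l l') : Pth G S u y (l ++ l') :=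
  ⟨h.toWk.app h'.toWk hvx, List.nodup_append'.2 ⟨h.nodup, h'.nodup, hd⟩⟩

/-- Joining two paths which share only the joint vertex. -/
lemma Pth.append (h : Pth G S u v l) (h' : Pth G S v w l') (hd : ∀ z ∈ l, z ∈ l' → z = v) :
    Pth G S u w (l ++ l'.tail) := by
  refine ⟨h.toWk.append h'.toWk, ?_⟩
  obtain ⟨t, rfl⟩ := h'.toWk.exists_cons
  have hn := h'.nodup
  rw [List.nodup_cons] at hn
  rw [List.tail_cons]
  refine List.nodup_append'.2 ⟨h.nodup, hn.2, ?_⟩
  intro z hz hz'
  have := hd z hz (List.mem_cons_of_mem _ hz')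
  rw [this] at hz'
  exact hn.1 hz'

lemma Pth.cons (h : Pth G S u v l) (hw : w ∈ S) (hwu : G.Adj w u) (hwl : w ∉ l) :
    Pth G S w v (w :: l) :=
  ⟨h.toWk.cons hw hwu, List.nodup_cons.2 ⟨hwl, h.nodup⟩⟩

lemma Pth.concat (h : Pth G S u v l) (hw : w ∈ S) (hvw : G.Adj v w) (hwl : w ∉ l) :
    Pth G S u w (l ++ [w]) := by
  refine ⟨h.toWk.concat hw hvw, List.nodup_append'.2 ⟨h.nodup, by simp, ?_⟩⟩
  intro z hz hz'
  rw [List.mem_singleton.1 hz'] at hz
  exact hwl hz

lemma Pth.length_eq_one (h : Pth G S u u l) : l = [u] := by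
  obtain ⟨t, rfl⟩ := h.toWk.exists_cons
  cases t with
  | nil => rfl
  | cons b t =>
    have h1 := h.last
    rw [List.getLast?_cons_cons] at h1
    have h2 : u ∈ b :: t := List.mem_of_mem_getLast? h1
    exact absurd h2 (List.nodup_cons.1 h.nodup).1

lemma Pth.two_le (h : Pth G S u v l) (huv : u ≠ v) : 2 ≤ l.length := by
  obtain ⟨t, rfl⟩ := h.toWk.exists_cons
  cases t with
  | nil =>
    have : u = v := by simpa using h.last
    exact absurd this huv
  | cons b t => simp

/-! ### cycles -/

/-- A path of at least three vertices closed by an edge is a cycle. -/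
lemma Pth.close (h : Pth G S u v l) (hvu : G.Adj v u) (hl : 3 ≤ l.length) : IsCyc G l := by
  refine ⟨hl, h.nodup, h.chain, ?_⟩
  intro a ha b hb
  rw [h.head] at ha
  rw [h.last] at hb
  simp only [Option.mem_def, Option.some.injEq] at ha hb
  rw [← ha, ← hb]; exact hvu

/-- Two paths with the same ends and otherwise disjoint form a cycle. -/
lemma Pth.theta (h : Pth G S u v l) (h' : Pth G S u v l') (hd : ∀ z ∈ l, z ∈ l' → z = u ∨ z = v)
    (hl : 3 ≤ l'.length) (huv : u ≠ v) :
    ∃ D, IsCyc G D ∧ D.length + 2 = l.length + l'.length ∧ ∀ z, z ∈ D ↔ z ∈ l ∨ z ∈ l' := by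
  obtain ⟨t, rfl⟩ := h'.toWk.exists_cons
  have hv : v ∈ t := by
    rcases List.mem_cons.1 h'.toWk.right_mem with h1 | h1
    · exact absurd h1.symm huv
    · exact h1
  -- `t = m ++ [v]`
  obtain ⟨m, hm⟩ : ∃ m, t = m ++ [v] := by
    obtain ⟨s, hs⟩ := h'.toWk.exists_concat
    cases s with
    | nil =>
      simp only [List.nil_append, List.cons.injEq] at hs
      exact absurd hs.1 huv
    | cons a s =>
      simp only [List.cons_append, List.cons.injEq] at hs
      exact ⟨s, hs.2⟩
  subst hm
  have hmne : m ≠ [] := by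
    rintro rfl
    simp at hl
  have hn' := h'.nodup
  have hc' := h'.chain
  -- the middle part
  have hmid : ∃ p q, Wk G S p q m ∧ G.Adj u p ∧ G.Adj q v := by
    obtain ⟨p, m', rfl⟩ := List.exists_cons_of_ne_nil hmne
    have h1 : Wk G S p v (p :: m' ++ [v]) := by
      have h0 : Wk G S u v ([u] ++ p :: (m' ++ [v])) := by simpa using h'.toWk
      simpa using h0.cut.2
    have hup : G.Adj u p := by
      rw [List.cons_append, List.isChain_cons_cons] at hc'
      exact hc'.1
    rcases List.eq_nil_or_concat (p :: m') with h2 | ⟨s, q, h2⟩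
    · simp at h2
    · rw [List.concat_eq_append] at h2
      rw [h2] at h1 ⊢
      have e1 : s ++ [q] ++ [v] = s ++ q :: [v] := by simp
      rw [e1] at h1
      have h3 := h1.cut
      have h4 := h3.2.chain
      rw [List.isChain_cons_cons] at h4
      exact ⟨p, q, h3.1, hup, h4.1⟩
  obtain ⟨p, q, hw, hup, hqv⟩ := hmid
  have hw' := hw.reverse
  have hwk : Wk G S u p (l ++ m.reverse) := h.toWk.app hw' hqv.symm
  have hun : u ∉ m ++ [v] := (List.nodup_cons.1 hn').1
  have hmn : (m ++ [v]).Nodup := (List.nodup_cons.1 hn').2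
  have hvm : v ∉ m := by
    have := List.nodup_append'.1 hmn
    intro hvm
    exact this.2.2 hvm (by simp)
  have hdis : List.Disjoint l m.reverse := by
    intro z hz hz'
    have hz2 : z ∈ m := List.mem_reverse.1 hz'
    rcases hd z hz (by simp [hz2]) with rfl | rfl
    · exact hun (by simp [hz2])
    · exact hvm hz2
  have hnd : (l ++ m.reverse).Nodup :=
    List.nodup_append'.2 ⟨h.nodup, List.nodup_reverse.2 (List.nodup_append'.1 hmn).1, hdis⟩
  have hl2 := h.two_le huv
  have hlm : 1 ≤ m.length := List.length_pos_iff.2 hmne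
  refine ⟨l ++ m.reverse, (Pth.mk hwk hnd).close hup.symm ?_, ?_, ?_⟩
  · rw [List.length_append, List.length_reverse]; omega
  · simp only [List.length_append, List.length_reverse, List.length_cons, List.length_nil]
    omega
  · intro z
    simp only [List.mem_append, List.mem_reverse, List.mem_cons, List.not_mem_nil, or_false]
    constructor
    · rintro (h1 | h1)
      · exact Or.inl h1
      · exact Or.inr (Or.inr (Or.inl h1))
    · rintro (h1 | h1 | h1 | h1)
      · exact Or.inl h1
      · rw [h1]; exact Or.inl h.toWk.left_mem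
      · exact Or.inr h1
      · rw [h1]; exact Or.inl h.toWk.right_mem

/-- A cycle is a path closed by an edge, in every rotation. -/
lemma cyc_rot {Q : List V} (hQ : IsCyc G Q) (hx : x ∈ Q) :
    ∃ t, IsCyc G (x :: t) ∧ (∀ z, z ∈ Q ↔ z ∈ x :: t) ∧ (x :: t).length = Q.length := by
  obtain ⟨a, b, rfl⟩ := List.append_of_mem hx
  have h1 := hQ.rotate
  refine ⟨b ++ a, by simpa using h1, ?_, ?_⟩
  · intro z
    simp only [List.mem_append, List.mem_cons]
    tauto
  · simp only [List.length_append, List.length_cons]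
    omega

/-- The two arcs of a cycle between two of its vertices. -/
lemma cyc_arcs {Q : List V} (hQ : IsCyc G Q) (hx : x ∈ Q) (hy : y ∈ Q) (hxy : x ≠ y) :
    ∃ l l', Pth G {z | z ∈ Q} x y l ∧ Pth G {z | z ∈ Q} x y l' ∧
      l.length + l'.length = Q.length + 2 ∧ (∀ z ∈ l, z ∈ l' → z = x ∨ z = y) ∧
      (∀ z, z ∈ Q ↔ z ∈ l ∨ z ∈ l') := by
  obtain ⟨t, ht, hmem, hlen⟩ := cyc_rot hQ hx
  have hyt : y ∈ t := by
    have := (hmem y).1 hy
    rcases List.mem_cons.1 this with h1 | h1
    · exact absurd h1.symm hxy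
    · exact h1
  obtain ⟨a, b, rfl⟩ := List.append_of_mem hyt
  have hxQ : Pth G {z | z ∈ Q} x ((x :: (a ++ y :: b)).getLast (by simp)) (x :: (a ++ y :: b)) :=
    ⟨⟨ht.chain, rfl, List.getLast?_eq_getLast_of_ne_nil _, fun z hz => (hmem z).2 hz⟩, ht.nodup⟩
  have h1 : Pth G {z | z ∈ Q} x ((x :: (a ++ y :: b)).getLast (by simp)) ((x :: a) ++ y :: b) := hxQ
  have h2 := h1.cut
  have hcl : G.Adj ((x :: (a ++ y :: b)).getLast (by simp)) x :=
    ht.closed x rfl _ (List.getLast?_eq_getLast_of_ne_nil _)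
  have hnd := ht.nodup
  rw [← List.cons_append] at hnd
  have hnd' := List.nodup_append'.1 hnd
  have hxb : x ∉ y :: b := fun hh => hnd'.2.2 (by simp) hh
  refine ⟨_, x :: (y :: b).reverse, h2.1, ⟨h2.2.toWk.reverse.cons ((hmem x).2 (by simp)) hcl.symm,
    List.nodup_cons.2 ⟨fun hh => hxb (List.mem_reverse.1 hh), List.nodup_reverse.2 h2.2.nodup⟩⟩,
    ?_, ?_, ?_⟩
  · rw [← hlen]
    simp only [List.length_append, List.length_cons, List.length_reverse, List.length_nil]
    omega
  · intro z hz hz'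
    rcases List.mem_cons.1 hz' with h3 | h3
    · exact Or.inl h3
    · have h4 := List.mem_reverse.1 h3
      rcases List.mem_append.1 hz with h5 | h5
      · exact absurd h4 (fun hh => hnd'.2.2 h5 hh)
      · right; simpa using h5
  · intro z
    rw [hmem z]
    simp only [List.mem_append, List.mem_cons, List.mem_reverse, List.not_mem_nil, or_false]
    tauto

/-- Walks as lists and walks of Mathlib. -/
lemma Wk.toWalk (h : Wk G S u v l) : ∃ p : G.Walk u v, p.support = l := by
  obtain ⟨t, ht⟩ := h.exists_cons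
  have hne : l ≠ [] := h.ne_nil
  have h1 : l.head hne = u := by
    have := h.head
    rw [List.head?_eq_some_head hne] at this
    simpa using this
  have h2 : l.getLast hne = v := by
    have := h.last
    rw [List.getLast?_eq_getLast_of_ne_nil hne] at this
    simpa using this
  refine ⟨(SimpleGraph.Walk.ofSupport l hne h.chain).copy h1 h2, ?_⟩
  rw [SimpleGraph.Walk.support_copy, SimpleGraph.Walk.support_ofSupport]

lemma Wk.of_walk (p : G.Walk u v) (hS : ∀ x ∈ p.support, x ∈ S) : Wk G S u v p.support := by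
  refine ⟨p.isChain_adj_support, ?_, ?_, hS⟩
  · rw [List.head?_eq_some_head p.support_ne_nil, SimpleGraph.Walk.head_support]
  · rw [List.getLast?_eq_getLast_of_ne_nil p.support_ne_nil, SimpleGraph.Walk.getLast_support]

lemma wd_iff_wk {ρ : ℕ} : Wd G ρ u v ↔ ∃ l, Wk G Set.univ u v l ∧ l.length ≤ ρ + 1 := by
  constructor
  · rintro ⟨p, hp⟩
    exact ⟨p.support, Wk.of_walk p (fun _ _ => Set.mem_univ _), by
      rw [SimpleGraph.Walk.length_support]; omega⟩
  · rintro ⟨l, h, hl⟩
    obtain ⟨p, hp⟩ := h.toWalk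
    refine ⟨p, ?_⟩
    have : p.support.length = l.length := by rw [hp]
    rw [SimpleGraph.Walk.length_support] at this
    omega

end Pool.Agent.Lib.MP_b6048d_co.F
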