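import Pool.Agent.Lib.MP_b6048d_co.F.SpecE2
import Pool.Agent.Lib.MP_b6048d_co.F.Base

set_option autoImplicit false

/-!
**E22 VorFacts.** Elementary properties of the cells of a Voronoi type forest.
-/

open scoped Classical

namespace Pool.Agent.Lib.MP_b6048d_co.F

namespace VorFactsAux

variable {V : Type*} {Λ : SimpleGraph V} {P Z N : Finset V} {par : V → V} {dep : V → ℕ}

lemma iter_mem (h : Vor Λ P Z N par dep) {v : V} (hv : v ∈ N) (i : ℕ) (hi : i ≤ dep v) :
    par^[i] v ∈ N ∧ dep (par^[i] v) = dep v - i := by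
  induction i with
  | zero => exact ⟨hv, rfl⟩
  | succ i ih =>
    obtain ⟨h1, h2⟩ := ih (by omega)
    have h0 : dep (par^[i] v) ≠ 0 := by omega
    obtain ⟨h3, -, h4⟩ := h.step _ h1 h0
    rw [Function.iterate_succ_apply']
    exact ⟨h3, by omega⟩

lemma rt_mem (h : Vor Λ P Z N par dep) {v : V} (hv : v ∈ N) :
    Rt par dep v ∈ N ∧ dep (Rt par dep v) = 0 := by
  have := iter_mem h hv (dep v) le_rfl
  rwa [Nat.sub_self] at this

lemma rt_iter (h : Vor Λ P Z N par dep) {v : V} (hv : v ∈ N) (i : ℕ) (hi : i ≤ dep v) :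
    Rt par dep (par^[i] v) = Rt par dep v := by
  have h1 := iter_mem h hv i hi
  unfold Rt
  rw [h1.2, ← Function.iterate_add_apply]
  congr 1
  congr 1
  omega

lemma rt_par (h : Vor Λ P Z N par dep) {v : V} (hv : v ∈ N) (h0 : dep v ≠ 0) :
    Rt par dep (par v) = Rt par dep v := rt_iter h hv 1 (by omega)

lemma rt_zero {v : V} (h0 : dep v = 0) : Rt par dep v = v := by
  unfold Rt
  rw [h0]
  rfl

lemma dep_Z (h : Vor Λ P Z N par dep) {z : V} (hz : z ∈ Z) : dep z = 0 := by
  have := h.near z (h.PN (h.ZP hz)) z hz 0 (Wd.refl 0 z)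
  omega

lemma mem_cell {v z : V} : v ∈ cell N par dep z ↔ v ∈ N ∧ Rt par dep v = z := by
  unfold cell
  rw [Finset.mem_filter]

lemma adj_par (h : Vor Λ P Z N par dep) {v : V} (hv : v ∈ N) (h0 : dep v ≠ 0) :
    (cellG N par dep Λ).Adj v (par v) :=
  ⟨(h.step v hv h0).2.1, hv, (h.step v hv h0).1, Or.inl ⟨h0, rfl⟩⟩

lemma rt_adj (h : Vor Λ P Z N par dep) {u v : V} (huv : (cellG N par dep Λ).Adj u v) :
    Rt par dep u = Rt par dep v := by
  obtain ⟨-, hu, hv, h1 | h1⟩ := huv
  · rw [h1.2, rt_par h hu h1.1]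
  · rw [h1.2, rt_par h hv h1.1]

lemma walk_iter (h : Vor Λ P Z N par dep) {v : V} (hv : v ∈ N) (i : ℕ) (hi : i ≤ dep v) :
    ∃ l, Wk (cellG N par dep Λ) (cell N par dep (Rt par dep v) : Set V) v (par^[i] v) l ∧
      l.length = i + 1 := by
  induction i with
  | zero =>
    exact ⟨[v], Wk.single (Finset.mem_coe.2 (mem_cell.2 ⟨hv, rfl⟩)), rfl⟩
  | succ i ih =>
    obtain ⟨l, hl, hlen⟩ := ih (by omega)
    have h1 := iter_mem h hv i (by omega)
    have h2 := iter_mem h hv (i + 1) hi
    have h3 := rt_iter h hv (i + 1) hi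
    have h4 := adj_par h h1.1 (by omega)
    rw [← Function.iterate_succ_apply' par i v] at h4
    refine ⟨l ++ [par^[i + 1] v], hl.concat (Finset.mem_coe.2 (mem_cell.2 ⟨h2.1, h3⟩)) h4, ?_⟩
    rw [List.length_append, hlen]
    rfl

lemma wd_iter (h : Vor Λ P Z N par dep) {v : V} (hv : v ∈ N) (i : ℕ) (hi : i ≤ dep v) :
    Wd Λ i v (par^[i] v) := by
  induction i with
  | zero => exact Wd.refl 0 v
  | succ i ih =>
    have h1 := iter_mem h hv i (by omega)
    have h4 := (h.step _ h1.1 (by omega)).2.1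
    rw [← Function.iterate_succ_apply' par i v] at h4
    exact (ih (by omega)).step h4

lemma conn (h : Vor Λ P Z N par dep) {z u v : V} (hu : u ∈ cell N par dep z)
    (hv : v ∈ cell N par dep z) :
    ∃ l, Pth (cellG N par dep Λ) (cell N par dep z : Set V) u v l ∧ l.length ≤ 9 := by
  obtain ⟨huN, hur⟩ := mem_cell.1 hu
  obtain ⟨hvN, hvr⟩ := mem_cell.1 hv
  obtain ⟨l1, hl1, hlen1⟩ := walk_iter h huN (dep u) le_rfl
  obtain ⟨l2, hl2, hlen2⟩ := walk_iter h hvN (dep v) le_rfl
  have e1 : par^[dep u] u = z := hur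
  have e2 : par^[dep v] v = z := hvr
  rw [hur, e1] at hl1
  rw [hvr, e2] at hl2
  have h1 := hl1.append hl2.reverse
  have h2 := hl1.append_length hl2.reverse
  rw [List.length_reverse] at h2
  have d1 := h.dep4 u huN
  have d2 := h.dep4 v hvN
  obtain ⟨l', hl', -, hle⟩ := h1.toPth
  exact ⟨l', hl', by omega⟩

lemma nb_par (h : Vor Λ P Z N par dep) {u v : V} (huv : (cellG N par dep Λ).Adj v u)
    (hd : dep u ≤ dep v) : u = par v := by
  obtain ⟨-, hv, hu, h1 | h1⟩ := huv
  · exact h1.2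
  · have h2 := (h.step u hu h1.1).2.2
    rw [← h1.2] at h2
    omega

lemma acyc (h : Vor Λ P Z N par dep) (Q : List V) : ¬ IsCyc (cellG N par dep Λ) Q := by
  intro hQ
  have hne : Q.toFinset.Nonempty := by
    rw [List.toFinset_nonempty_iff]
    rintro rfl
    have := hQ.len
    simp at this
  obtain ⟨v, hv, hmax⟩ := Finset.exists_max_image Q.toFinset dep hne
  obtain ⟨t, ht, hmem, hlen⟩ := cyc_rot hQ (List.mem_toFinset.1 hv)
  have hl := ht.len
  rw [List.length_cons] at hl
  cases t with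
  | nil => simp at hl
  | cons a s =>
    rcases List.eq_nil_or_concat s with hs | ⟨s', b, hs⟩
    · rw [hs] at hl
      simp at hl
    · rw [List.concat_eq_append] at hs
      subst hs
      have hnd := ht.nodup
      have hab : a ≠ b := by
        rintro rfl
        rw [List.nodup_cons, List.nodup_cons] at hnd
        exact hnd.2.1 (by simp)
      have hva : (cellG N par dep Λ).Adj v a := by
        have := ht.chain
        rw [List.isChain_cons_cons] at this
        exact this.1
      have hbv : (cellG N par dep Λ).Adj b v := by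
        refine ht.closed v rfl b ?_
        have e : v :: a :: (s' ++ [b]) = (v :: a :: s') ++ [b] := by simp
        rw [e, List.getLast?_append]
        simp
      have ha : a ∈ Q := (hmem a).2 (by simp)
      have hb : b ∈ Q := (hmem b).2 (by simp)
      have e1 := nb_par h hva (hmax a (List.mem_toFinset.2 ha))
      have e2 := nb_par h hbv.symm (hmax b (List.mem_toFinset.2 hb))
      exact hab (e1.trans e2.symm)

lemma size (h : Vor Λ P Z N par dep) (z : V) :
    (cell N par dep z).card ≤ 5 * (P ∩ cell N par dep z).card := by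
  have hsub : cell N par dep z ⊆
      ((P ∩ cell N par dep z) ×ˢ Finset.range 5).image (fun x => par^[x.2] x.1) := by
    intro v hv
    obtain ⟨hvN, hvr⟩ := mem_cell.1 hv
    obtain ⟨p, hp, i, hi, hvp⟩ := h.span v hvN
    have hpN : p ∈ N := h.PN hp
    have h1 := rt_iter h hpN i hi
    rw [← hvp, hvr] at h1
    have h2 := h.dep4 p hpN
    rw [Finset.mem_image]
    refine ⟨(p, i), ?_, hvp.symm⟩
    rw [Finset.mem_product]
    refine ⟨Finset.mem_inter.2 ⟨hp, mem_cell.2 ⟨hpN, h1.symm⟩⟩, Finset.mem_range.2 ?_⟩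
    change i < 5
    omega
  calc (cell N par dep z).card ≤ _ := Finset.card_le_card hsub
    _ ≤ ((P ∩ cell N par dep z) ×ˢ Finset.range 5).card := Finset.card_image_le
    _ = 5 * (P ∩ cell N par dep z).card := by
      rw [Finset.card_product, Finset.card_range, Nat.mul_comm]

lemma nearZ (h : Vor Λ P Z N par dep) {z q : V} (hz : z ∈ Z) (hq : q ∈ N)
    (hw : Wd Λ 2 z q) : q ∈ cell N par dep z := by
  have h1 := h.near q hq z hz 2 hw
  have h2 : Wd Λ (dep q) q (Rt par dep q) := wd_iter h hq (dep q) le_rfl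
  have h3 : Wd Λ 4 z (Rt par dep q) := (hw.trans h2).mono (by omega)
  have h4 := rt_mem h hq
  have h5 := h.zero _ h4.1 h4.2
  have h6 := h.far z hz _ h5 h3
  exact mem_cell.2 ⟨hq, h6.symm⟩

end VorFactsAux

open VorFactsAux in
theorem vorFacts : VorFacts := by
  intro V Λ P Z N par dep h
  refine ⟨?_, ?_, ?_, ?_, ?_, ?_, ?_⟩
  · intro v hv
    have h4 := rt_mem h hv
    exact ⟨h.zero _ h4.1 h4.2, mem_cell.2 ⟨hv, rfl⟩⟩
  · intro z hz
    exact mem_cell.2 ⟨h.PN (h.ZP hz), rt_zero (dep_Z h hz)⟩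
  · intro u v huv
    exact rt_adj h huv
  · intro z u hu v hv
    exact conn h hu hv
  · intro Q
    exact acyc h Q
  · intro z
    exact size h z
  · intro z hz q hq hw
    exact nearZ h hz hq hw

end Pool.Agent.Lib.MP_b6048d_co.F
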