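import Pool.Agent.Lib.MP_b6048d_co.F.SpecE
import Pool.Agent.Lib.MP_b6048d_co.F.SpecE2
import Pool.Agent.Lib.MP_b6048d_co.F.PalExists
import Pool.Agent.Lib.MP_b6048d_co.F.BlockBall
import Pool.Agent.Lib.MP_b6048d_co.F.NbrFacts
import Pool.Agent.Lib.MP_b6048d_co.F.ColStep
import Pool.Agent.Lib.MP_b6048d_co.F.ColBase
import Pool.Agent.Lib.MP_b6048d_co.F.ColUp
import Pool.Agent.Lib.MP_b6048d_co.F.Process
import Pool.Agent.Lib.MP_b6048d_co.F.StageProc
import Pool.Agent.Lib.MP_b6048d_co.F.LtFar
import Pool.Agent.Lib.MP_b6048d_co.F.Voronoi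
import Pool.Agent.Lib.MP_b6048d_co.F.VorFacts
import Pool.Agent.Lib.MP_b6048d_co.F.HvFin
import Pool.Agent.Lib.MP_b6048d_co.F.CellThm

set_option autoImplicit false

/-!
Assembly of section E (colouring).
-/

open scoped Classical

namespace Pool.Agent.Lib.MP_b6048d_co.F

theorem colStepFull : ColStep' := colStep nbrFacts blockBall

theorem stageExists' : StageExists :=
  stageProc palExists (process colBase (colUp colStepFull))

theorem colorThm' : ColorThm := by
  intro V G XX a g K K₁ r hB ha hg hr hK hlt hF hne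
  obtain ⟨S, W, hS, -, hSt⟩ := stageExists' V G XX a g K K₁ r hB (by omega) (by omega) hK hlt hF hne
  exact cellThm ltFar voronoi vorFacts hvFin V G XX a g W S hB (by omega) hS hSt

end Pool.Agent.Lib.MP_b6048d_co.F
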