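import Pool.Agent.Lib.MP_b6048d_co.F.SpecF

set_option autoImplicit false

/-!
F19: a cycle of the web with few touches has many clean edges.
-/

open scoped Classical

namespace Pool.Agent.Lib.MP_b6048d_co.F.CleanExistsAux

open Pool.Agent.Lib.MP_b6048d_co

variable {V : Type} {G Ce Y T : SimpleGraph V}

lemma isAcyclic_of (h : ∀ Q, ¬ IsCyc G Q) : G.IsAcyclic := by
  intro v c hc
  apply h c.support.tail
  cases c with
  | nil => exact absurd hc SimpleGraph.Walk.not_isCycle_nil
  | cons hadj p =>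
    rw [SimpleGraph.Walk.support_cons, List.tail_cons]
    have h1 := (SimpleGraph.Walk.cons_isCycle_iff p hadj).1 hc
    have h3 := hc.three_le_length
    rw [SimpleGraph.Walk.length_cons] at h3
    refine ⟨?_, h1.1.support_nodup, p.isChain_adj_support, ?_⟩
    · rw [SimpleGraph.Walk.length_support]; exact h3
    · intro a ha b hb
      rw [List.head?_eq_some_head (by simp)] at ha
      rw [List.getLast?_eq_getLast_of_ne_nil (by simp)] at hb
      simp only [Option.mem_def, Option.some.injEq, SimpleGraph.Walk.head_support,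
        SimpleGraph.Walk.getLast_support] at ha hb
      rw [← ha, ← hb]
      exact hadj

lemma acyc_unique (h : ∀ Q, ¬ IsCyc G Q) {S S' : Set V} {u v : V} {l l' : List V}
    (h1 : Pth G S u v l) (h2 : Pth G S' u v l') : l = l' := by
  obtain ⟨p, hp⟩ := h1.toWk.toWalk
  obtain ⟨q, hq⟩ := h2.toWk.toWalk
  have hp' : p.IsPath := by
    rw [SimpleGraph.Walk.isPath_def, hp]; exact h1.nodup
  have hq' : q.IsPath := by
    rw [SimpleGraph.Walk.isPath_def, hq]; exact h2.nodup
  have := ((isAcyclic_of h).subsingleton_path u v).elim ⟨p, hp'⟩ ⟨q, hq'⟩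
  have h3 : p = q := congrArg Subtype.val this
  rw [← hp, ← hq, h3]

lemma arcL_length (z : ℕ → V) (i m : ℕ) : (arcL z i m).length = m + 1 := by
  simp [arcL]

lemma mem_arcL {z : ℕ → V} {i m : ℕ} {x : V} : x ∈ arcL z i m ↔ ∃ t, t ≤ m ∧ z (i + t) = x := by
  simp only [arcL, List.mem_map, List.mem_range]
  constructor
  · rintro ⟨t, h1, h2⟩; exact ⟨t, by omega, h2⟩
  · rintro ⟨t, h1, h2⟩; exact ⟨t, by omega, h2⟩

/-- Eleven consecutive edges of a cycle are not all cell edges. -/
lemma window {I : Finset (Set V)} {Tc : Finset (Finset V)} (hC : Cells G I Tc Ce) {z : ℕ → V}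
    {i : ℕ} (harc : Pth Y Set.univ (z i) (z (i + 11)) (arcL z i 11)) :
    ∃ t, t < 11 ∧ ¬ Ce.Adj (z (i + t)) (z (i + t + 1)) := by
  by_contra hcon
  push Not at hcon
  obtain ⟨S, hS, hS0, -⟩ := hC.inside _ _ (hcon 0 (by norm_num))
  have hin : ∀ t, t ≤ 11 → z (i + t) ∈ S := by
    intro t
    induction t with
    | zero => intro _; exact hS0
    | succ t ih =>
      intro ht
      have h1 := ih (by omega)
      obtain ⟨S', hS', h2, h3⟩ := hC.inside _ _ (hcon t (by omega))
      by_cases he : S = S'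
      · rw [he]; exact h3
      · exact absurd h2 (Finset.disjoint_left.1 (hC.disj S hS S' hS' he) h1)
  have hch : (arcL z i 11).IsChain Ce.Adj := by
    unfold arcL
    rw [List.isChain_map, List.isChain_range_succ]
    intro m hm
    exact hcon m hm
  have hp : Pth Ce (S : Set V) (z i) (z (i + 11)) (arcL z i 11) := by
    refine ⟨⟨hch, harc.head, harc.last, ?_⟩, harc.nodup⟩
    intro x hx
    obtain ⟨t, ht, rfl⟩ := mem_arcL.1 hx
    exact hin t ht
  obtain ⟨l, hl, hlen⟩ := hC.conn S hS (z i) (hin 0 (by norm_num)) (z (i + 11)) (hin 11 le_rfl)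
  have := acyc_unique hC.acyc hp hl
  rw [← this, arcL_length] at hlen
  omega

lemma count_windows (n : ℕ) (P : ℕ → Prop) [DecidablePred P] (h : ∀ i, ∃ t, t < 11 ∧ P (i + t)) :
    n / 11 ≤ ((Finset.range n).filter P).card := by
  choose f hf hP using h
  have h1 : (Finset.range (n / 11)).card ≤ ((Finset.range n).filter P).card := by
    apply Finset.card_le_card_of_injOn (fun j => 11 * j + f (11 * j))
    · intro j hj
      have hj' : j < n / 11 := by simpa using hj
      have h2 := hf (11 * j)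
      simp only [Finset.coe_filter, Finset.mem_range, Set.mem_ofPred_eq]
      exact ⟨by omega, hP _⟩
    · intro j _ j' _ hjj
      have h2 := hf (11 * j)
      have h3 := hf (11 * j')
      simp only at hjj
      omega
  simpa using h1

lemma unclean_bound (U : Finset (Set V)) (c e : Set V → ℕ) (D : ℕ) (B : Finset V)
    (cl : Set V → Prop) (S : ℝ) (he : ∀ X ∈ U, e X ≤ D * (c X + 1))
    (hk : ∀ w ∈ B, 1 ≤ (U.filter (fun X => w ∈ X)).card)
    (hcl : ∀ X ∈ U, ¬ cl X → 1 ≤ c X ∨ ∃ w ∈ B, w ∈ X ∧ 2 ≤ (U.filter (fun X => w ∈ X)).card)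
    (hS : ∑ X ∈ U, (c X : ℝ) + ∑ w ∈ B, (((U.filter (fun X => w ∈ X)).card : ℝ) - 1) ≤ S) :
    ∑ X ∈ U.filter (fun X => ¬ cl X), (e X : ℝ) ≤ 2 * D * S := by
  set k : V → ℕ := fun w => (U.filter (fun X => w ∈ X)).card with hkdef
  set B' := B.filter (fun w => 2 ≤ k w) with hB'
  have h1 : ∑ X ∈ U.filter (fun X => ¬ cl X), ((c X : ℝ) + 1) ≤
      ∑ X ∈ U, (2 * (c X : ℝ) + ∑ w ∈ B', (if w ∈ X then (1 : ℝ) else 0)) := by
    refine le_trans (Finset.sum_le_sum (g := fun X => (2 * (c X : ℝ) +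
      ∑ w ∈ B', (if w ∈ X then (1 : ℝ) else 0))) ?_) ?_
    · intro X hX
      rw [Finset.mem_filter] at hX
      have h2 : (0 : ℝ) ≤ ∑ w ∈ B', (if w ∈ X then (1 : ℝ) else 0) :=
        Finset.sum_nonneg fun w _ => by split_ifs <;> norm_num
      rcases hcl X hX.1 hX.2 with h3 | ⟨w, hwB, hwX, hw2⟩
      · have h4 : (1 : ℝ) ≤ c X := by exact_mod_cast h3
        linarith
      · have h5 : (1 : ℝ) ≤ ∑ w ∈ B', (if w ∈ X then (1 : ℝ) else 0) := by
          have hw' : w ∈ B' := Finset.mem_filter.2 ⟨hwB, hw2⟩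
          have h6 := Finset.single_le_sum (f := fun w => (if w ∈ X then (1 : ℝ) else 0))
            (fun w _ => by split_ifs <;> norm_num) hw'
          simp only [if_pos hwX] at h6
          exact h6
        have h7 : (0 : ℝ) ≤ c X := Nat.cast_nonneg _
        linarith
    · apply Finset.sum_le_sum_of_subset_of_nonneg (Finset.filter_subset _ _)
      intro X _ _
      have h2 : (0 : ℝ) ≤ ∑ w ∈ B', (if w ∈ X then (1 : ℝ) else 0) :=
        Finset.sum_nonneg fun w _ => by split_ifs <;> norm_num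
      have h7 : (0 : ℝ) ≤ c X := Nat.cast_nonneg _
      linarith
  have h2 : ∑ X ∈ U, (2 * (c X : ℝ) + ∑ w ∈ B', (if w ∈ X then (1 : ℝ) else 0)) =
      2 * ∑ X ∈ U, (c X : ℝ) + ∑ w ∈ B', (k w : ℝ) := by
    rw [Finset.sum_add_distrib, ← Finset.mul_sum, Finset.sum_comm]
    congr 1
    refine Finset.sum_congr rfl fun w _ => ?_
    rw [Finset.sum_ite, Finset.sum_const_zero, add_zero, Finset.sum_const, nsmul_eq_mul, mul_one]
  have h3 : ∑ w ∈ B', (k w : ℝ) ≤ 2 * ∑ w ∈ B, ((k w : ℝ) - 1) := by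
    rw [Finset.mul_sum]
    refine le_trans (Finset.sum_le_sum (g := fun w => 2 * ((k w : ℝ) - 1)) ?_) ?_
    · intro w hw
      have h4 : (2 : ℝ) ≤ k w := by exact_mod_cast (Finset.mem_filter.1 hw).2
      linarith
    · apply Finset.sum_le_sum_of_subset_of_nonneg (Finset.filter_subset _ _)
      intro w hw _
      have h4 : (1 : ℝ) ≤ k w := by exact_mod_cast hk w hw
      linarith
  have h4 : ∑ X ∈ U.filter (fun X => ¬ cl X), (e X : ℝ) ≤
      D * ∑ X ∈ U.filter (fun X => ¬ cl X), ((c X : ℝ) + 1) := by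
    rw [Finset.mul_sum]
    refine Finset.sum_le_sum fun X hX => ?_
    have := he X (Finset.mem_filter.1 hX).1
    exact_mod_cast this
  have h5 : ∑ X ∈ U.filter (fun X => ¬ cl X), ((c X : ℝ) + 1) ≤ 2 * S := by linarith
  have h6 : (0 : ℝ) ≤ D := Nat.cast_nonneg _
  calc ∑ X ∈ U.filter (fun X => ¬ cl X), (e X : ℝ) ≤
      D * ∑ X ∈ U.filter (fun X => ¬ cl X), ((c X : ℝ) + 1) := h4
    _ ≤ D * (2 * S) := mul_le_mul_of_nonneg_left h5 h6
    _ = 2 * D * S := by ring

/-- Half of a finite set of natural numbers has the same parity. -/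
lemma parity_half (K : Finset ℕ) : ∃ K' ⊆ K, K.card ≤ 2 * K'.card ∧
    ∀ k ∈ K', ∀ k' ∈ K', k < k' → k + 2 ≤ k' := by
  have h1 := Finset.card_filter_add_card_filter_not (s := K) (fun k => k % 2 = 0)
  by_cases h : (K.filter (fun k => ¬ k % 2 = 0)).card ≤ (K.filter (fun k => k % 2 = 0)).card
  · refine ⟨K.filter (fun k => k % 2 = 0), Finset.filter_subset _ _, by omega, ?_⟩
    intro k hk k' hk' hlt
    have h2 := (Finset.mem_filter.1 hk).2
    have h3 := (Finset.mem_filter.1 hk').2
    omega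
  · refine ⟨K.filter (fun k => ¬ k % 2 = 0), Finset.filter_subset _ _, by omega, ?_⟩
    intro k hk k' hk' hlt
    have h2 := (Finset.mem_filter.1 hk).2
    have h3 := (Finset.mem_filter.1 hk').2
    omega

end Pool.Agent.Lib.MP_b6048d_co.F.CleanExistsAux

namespace Pool.Agent.Lib.MP_b6048d_co.F

open CleanExistsAux

theorem cleanExists (hT : TreeFacts) (hC : CycConv) (hR : Runs) : CleanExists := by
  intro V G XX a g I Tc Ce rt lv par Y hW ha s n z A hs hn hz hzA hc2 hsum
  obtain ⟨-, hC2, hC3⟩ := hC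
  have hC2' := hC2 V Y n z hz
  have hC3' := hC3 V Y n z hz
  set U := Used I rt par n z with hU
  set Tr : Set V → SimpleGraph V := fun X => TGr X (rt X) (par X) with hTr
  have hUI : ∀ X ∈ U, X ∈ I := fun X hX => (Finset.mem_filter.1 hX).1
  have hUne : ∀ X ∈ U, (EX n z (Tr X)).Nonempty := fun X hX => (Finset.mem_filter.1 hX).2
  have hTF : ∀ X ∈ I, _ := fun X hX => hT V G X (3 * a) (rt X) (lv X) (par X) (hW.bt X hX)
  have hTX : ∀ X ∈ I, ∀ u v, (Tr X).Adj u v → u ∈ X ∧ v ∈ X := fun X hX u v huv =>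
    ⟨((hTF X hX).1.2 u v huv).1, ((hTF X hX).1.2 u v huv).2.1⟩
  have hYG : Y ≤ G := by
    intro u v huv
    rcases (hW.adj u v).1 huv with h1 | ⟨X, hX, h1⟩
    · exact hW.cells.le h1
    · exact (hTF X hX).1.1 h1
  have hRun : ∀ X ∈ U, _ := fun X hX => hR V Y (Tr X) X n (6 * a) z hz (hTX X (hUI X hX))
    (hTF X (hUI X hX)).2.1 (fun u w l hl => by
      have := ((hTF X (hUI X hX)).2.2.2 u w l hl).2
      omega) (hUne X hX)
  have hper : ∀ k, z (k + n) = z k := hz.per
  have hn0 : 0 < n := by omega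
  -- the numbers of touches
  set c : Set V → ℕ := fun X => (VX n z X).card - (EX n z (Tr X)).card - 1 with hc
  set k : V → ℕ := fun w => (U.filter (fun X => w ∈ X)).card with hk
  obtain ⟨cl, hcl⟩ : ∃ cl : Set V → Prop, ∀ X, cl X ↔
      ((VX n z X).card = (EX n z (Tr X)).card + 1 ∧ ∀ w ∈ X, (∀ q, z q ≠ w) → k w ≤ 1) :=
    ⟨_, fun X => Iff.rfl⟩
  set B := A.filter (fun w => (∀ q, z q ≠ w) ∧ ∃ X ∈ U, w ∈ X) with hB
  -- used blocks meet A
  have hUA : ∀ X ∈ U, ∃ x ∈ A, x ∈ X := by
    intro X hX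
    obtain ⟨j, hj⟩ := hUne X hX
    have h1 := (Finset.mem_filter.1 hj).2
    exact ⟨z j, hzA j, (hTX X (hUI X hX) _ _ h1).1⟩
  have hunclean : ∑ X ∈ U.filter (fun X => ¬ cl X), ((EX n z (Tr X)).card : ℝ) ≤
      2 * ((6 * a : ℕ) : ℝ) * (3 * n / s) := by
    apply unclean_bound U c (fun X => (EX n z (Tr X)).card) (6 * a) B cl
    · intro X hX
      obtain ⟨h1, h2, -⟩ := hRun X hX
      have h3 : c X + 1 = (VX n z X).card - (EX n z (Tr X)).card := by
        simp only [hc]; omega
      rw [h3]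
      exact h2
    · intro w hw
      obtain ⟨-, -, X, hX, hwX⟩ := Finset.mem_filter.1 hw
      exact Finset.card_pos.2 ⟨X, Finset.mem_filter.2 ⟨hX, hwX⟩⟩
    · intro X hX hncl
      obtain ⟨h1, h2, -⟩ := hRun X hX
      by_cases h3 : (VX n z X).card = (EX n z (Tr X)).card + 1
      · right
        rw [hcl] at hncl
        simp only [not_and, not_forall, not_le] at hncl
        obtain ⟨w, hwX, hwz, hkw⟩ := hncl h3
        refine ⟨w, ?_, hwX, hkw⟩
        rw [hB, Finset.mem_filter]
        refine ⟨?_, hwz, X, hX, hwX⟩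
        have hkw' : 1 < (U.filter (fun X => w ∈ X)).card := hkw
        obtain ⟨X', hX', hne⟩ := Finset.exists_mem_ne hkw' X
        obtain ⟨hX'U, hwX'⟩ := Finset.mem_filter.1 hX'
        exact hc2 X (hUI X hX) X' (hUI X' hX'U) (Ne.symm hne) (hUA X hX) (hUA X' hX'U) w hwX hwX'
      · left
        simp only [hc]; omega
    · have h1 : ∀ X ∈ U, ((c X : ℕ) : ℝ) =
          ((VX n z X).card : ℝ) - (EX n z (TGr X (rt X) (par X))).card - 1 := by
        intro X hX
        obtain ⟨h1, -, -⟩ := hRun X hX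
        have h2 : (VX n z X).card = (EX n z (Tr X)).card + 1 + c X := by
          simp only [hc]; omega
        have h3 : ((VX n z X).card : ℝ) = (EX n z (Tr X)).card + 1 + c X := by exact_mod_cast h2
        rw [h3]
        ring
      rw [Finset.sum_congr rfl h1]
      exact hsum
  -- block edges
  have hs0 : (0 : ℝ) < s := by
    have : 0 < s := by rw [hs]; positivity
    exact_mod_cast this
  have hsa : (s : ℝ) = 10 ^ 6 * a := by rw [hs]; push_cast; ring
  have ha0 : (0 : ℝ) < a := by exact_mod_cast ha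
  have hunclean2 : ∑ X ∈ U.filter (fun X => ¬ cl X), ((EX n z (Tr X)).card : ℝ) ≤
      36 * n / 10 ^ 6 := by
    refine hunclean.trans (le_of_eq ?_)
    rw [hsa]
    push_cast
    field_simp
    ring
  have hblock : n / 11 ≤ ((Finset.range n).filter
      (fun j => ∃ X ∈ U, (Tr X).Adj (z j) (z (j + 1)))).card := by
    apply count_windows
    intro i
    obtain ⟨t, ht, hnot⟩ := window hW.cells (hC2' i 11 (by omega))
    refine ⟨t, ht, ?_⟩
    rcases (hW.adj _ _).1 (hz.adj (i + t)) with h1 | ⟨X, hX, h1⟩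
    · exact absurd h1 hnot
    · refine ⟨X, ?_, h1⟩
      rw [hU]
      refine Finset.mem_filter.2 ⟨hX, (i + t) % n, Finset.mem_filter.2
        ⟨Finset.mem_range.2 (Nat.mod_lt _ hn0), ?_⟩⟩
      have e1 : z ((i + t) % n) = z (i + t) := ((hC3' 0).2.2 _ _).2 (Nat.mod_mod _ _)
      have e2 : z ((i + t) % n + 1) = z (i + t + 1) := by
        apply ((hC3' 0).2.2 _ _).2
        rw [Nat.add_mod, Nat.mod_mod, ← Nat.add_mod]
      rw [e1, e2]
      exact h1
  -- clean edges
  set CE := (Finset.range n).filter (fun j => ∃ X ∈ U, cl X ∧ (Tr X).Adj (z j) (z (j + 1))) with hCE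
  have hCEcard : (n : ℝ) / 12 + 1 ≤ CE.card := by
    have h1 : ((Finset.range n).filter (fun j => ∃ X ∈ U, (Tr X).Adj (z j) (z (j + 1)))) ⊆
        CE ∪ (U.filter (fun X => ¬ cl X)).biUnion (fun X => EX n z (Tr X)) := by
      intro j hj
      obtain ⟨h1, X, hX, h2⟩ := Finset.mem_filter.1 hj
      rw [Finset.mem_union]
      by_cases h3 : cl X
      · left; exact Finset.mem_filter.2 ⟨h1, X, hX, h3, h2⟩
      · right
        rw [Finset.mem_biUnion]
        exact ⟨X, Finset.mem_filter.2 ⟨hX, h3⟩, Finset.mem_filter.2 ⟨h1, h2⟩⟩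
    have h2 := (Finset.card_le_card h1).trans (Finset.card_union_le _ _)
    have h3 : ((U.filter (fun X => ¬ cl X)).biUnion (fun X => EX n z (Tr X))).card ≤
        ∑ X ∈ U.filter (fun X => ¬ cl X), (EX n z (Tr X)).card := Finset.card_biUnion_le
    have h4 : ((∑ X ∈ U.filter (fun X => ¬ cl X), (EX n z (Tr X)).card : ℕ) : ℝ) ≤
        36 * n / 10 ^ 6 := by
      push_cast; exact hunclean2
    have h5 : n / 11 ≤ CE.card + ∑ X ∈ U.filter (fun X => ¬ cl X), (EX n z (Tr X)).card := by
      omega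
    have h6 : ((n / 11 : ℕ) : ℝ) ≤ CE.card + 36 * n / 10 ^ 6 := by
      have : ((n / 11 : ℕ) : ℝ) ≤
          ((CE.card + ∑ X ∈ U.filter (fun X => ¬ cl X), (EX n z (Tr X)).card : ℕ) : ℝ) := by
        exact_mod_cast h5
      push_cast at this h4
      linarith
    have h7 : (n : ℝ) ≤ 11 * ((n / 11 : ℕ) : ℝ) + 10 := by
      have : n ≤ 11 * (n / 11) + 10 := by omega
      exact_mod_cast this
    have h8 : (1000 : ℝ) ≤ n := by
      have : 1000 ≤ n := by omega
      exact_mod_cast this
    linarith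
  -- the clean block X₀
  obtain ⟨X₀, hX₀U, hX₀cl⟩ : ∃ X₀ ∈ U, cl X₀ := by
    have h1 : 0 < CE.card := by
      have : (0 : ℝ) < CE.card := by
        have : (0 : ℝ) ≤ n := Nat.cast_nonneg _
        linarith
      exact_mod_cast this
    obtain ⟨j, hj⟩ := Finset.card_pos.1 h1
    obtain ⟨-, X, hX, h2, -⟩ := Finset.mem_filter.1 hj
    exact ⟨X, hX, h2⟩
  obtain ⟨i, hin, m, hm1, hmn, hma, hp0, hin0, hout0⟩ := (hRun X₀ hX₀U).2.2 ((hcl X₀).1 hX₀cl).1
  have hX₀I := hUI X₀ hX₀U
  -- equality of cycle vertices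
  have hzeq : ∀ j j' : ℕ, z j = z j' ↔ j % n = j' % n := (hC3' 0).2.2
  have hmemL : ∀ t, m ≤ t → t ≤ n → z (i + t) ∈ (arcL z (i + m) (n - m)).reverse := by
    intro t h1 h2
    rw [List.mem_reverse, mem_arcL]
    exact ⟨t - m, by omega, by congr 1; omega⟩
  have hmemP : ∀ t, t ≤ m → z (i + t) ∈ arcL z i m := fun t ht => mem_arcL.2 ⟨t, ht, rfl⟩
  have hZmem : ∀ q, z q ∈ (arcL z (i + m) (n - m)).reverse ∨ z q ∈ arcL z i m := by
    intro q
    obtain ⟨j, hj, hq⟩ := (hC3' i).2.1 q
    rw [hq]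
    by_cases h1 : j ≤ m
    · right; exact hmemP j h1
    · left; exact hmemL j (by omega) hj.le
  have hLlen : (arcL z (i + m) (n - m)).reverse.length = n - m + 1 := by
    rw [List.length_reverse, arcL_length]
  -- entries of L
  have hLget : ∀ q, q ≤ n - m →
      (arcL z (i + m) (n - m)).reverse[q]? = some (z (i + (n - q))) := by
    intro q hq
    have h1 : q < (arcL z (i + m) (n - m)).reverse.length := by rw [hLlen]; omega
    rw [List.getElem?_eq_getElem h1]
    congr 1
    rw [List.getElem_reverse]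
    simp only [arcL, List.getElem_map, List.getElem_range, List.length_map, List.length_range]
    congr 1
    omega
  -- the set of clean edges of L
  set CL : ℕ → Prop := fun j => ∃ X, X ∈ U ∧ cl X ∧ X ≠ X₀ ∧ (Tr X).Adj (z j) (z (j + 1)) with hCL
  set K1 := (Finset.range (n - m)).filter (fun q => CL (i + (n - 1 - q))) with hK1
  have hK1card : CE.card ≤ K1.card + (EX n z (Tr X₀)).card := by
    have h1 : CE ⊆ K1.image (fun q => (i + (n - 1 - q)) % n) ∪ EX n z (Tr X₀) := by
      intro j hj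
      obtain ⟨hjn, X, hX, h2, h3⟩ := Finset.mem_filter.1 hj
      have hjn' := Finset.mem_range.1 hjn
      rw [Finset.mem_union]
      by_cases hXX : X = X₀
      · right
        rw [← hXX]
        exact Finset.mem_filter.2 ⟨hjn, h3⟩
      · left
        -- position of j relative to i
        obtain ⟨t, ht, hjt⟩ : ∃ t, t < n ∧ (i + t) % n = j := by
          by_cases hij : i ≤ j
          · refine ⟨j - i, by omega, ?_⟩
            have : i + (j - i) = j := by omega
            rw [this, Nat.mod_eq_of_lt hjn']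
          · refine ⟨j + n - i, by omega, ?_⟩
            have : i + (j + n - i) = j + n := by omega
            rw [this, Nat.add_mod_right, Nat.mod_eq_of_lt hjn']
        have e1 : z j = z (i + t) := by
          rw [hzeq, hjt, Nat.mod_eq_of_lt hjn']
        have e2 : z (j + 1) = z (i + t + 1) := by
          rw [hzeq, Nat.add_mod (i + t), hjt, Nat.add_mod j, Nat.mod_eq_of_lt hjn']
        rw [e1, e2] at h3
        have htm : m ≤ t := by
          by_contra hlt
          have h4 := hTX X (hUI X hX) _ _ h3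
          have h5 := hin0 t (by omega)
          have h6 := hin0 (t + 1) (by omega)
          have h7 := hW.blocks.one X (hW.sub X (hUI X hX)) X₀ (hW.sub X₀ hX₀I) hXX
            (z (i + t)) h4.1 h5 (z (i + t + 1)) h4.2 (by rw [add_assoc]; exact h6)
          exact h3.ne h7
        rw [Finset.mem_image]
        refine ⟨n - 1 - t, ?_, ?_⟩
        · rw [hK1, Finset.mem_filter, Finset.mem_range]
          refine ⟨by omega, X, hX, h2, hXX, ?_⟩
          have e3 : n - 1 - (n - 1 - t) = t := by omega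
          rw [e3]
          exact h3
        · have e3 : n - 1 - (n - 1 - t) = t := by omega
          simp only [e3]
          exact hjt
    calc CE.card ≤ _ := Finset.card_le_card h1
      _ ≤ _ := Finset.card_union_le _ _
      _ ≤ _ := Nat.add_le_add_right Finset.card_image_le _
  have hEX0 : (EX n z (Tr X₀)).card ≤ 6 * a := by
    have h1 := (hRun X₀ hX₀U).2.1
    have h2 := ((hcl X₀).1 hX₀cl).1
    have h3 : (VX n z X₀).card - (EX n z (Tr X₀)).card = 1 := by omega
    rw [h3, mul_one] at h1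
    exact h1
  obtain ⟨Kc, hKsub, hKhalf, hKsep⟩ := parity_half K1
  have hXk : ∀ q, ∃ X : Set V, q ∈ K1 → X ∈ U ∧ cl X ∧ X ≠ X₀ ∧
      (Tr X).Adj (z (i + (n - 1 - q))) (z (i + (n - 1 - q) + 1)) := by
    intro q
    by_cases hq : q ∈ K1
    · obtain ⟨-, X, hX⟩ := Finset.mem_filter.1 hq
      exact ⟨X, fun _ => hX⟩
    · exact ⟨X₀, fun h => absurd h hq⟩
  choose Xk hXk using hXk
  have hXk' : ∀ q ∈ Kc, Xk q ∈ U ∧ cl (Xk q) ∧ Xk q ≠ X₀ ∧
      (Tr (Xk q)).Adj (z (i + (n - 1 - q))) (z (i + (n - 1 - q) + 1)) :=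
    fun q hq => hXk q (hKsub hq)
  have hshared : ∀ X ∈ U, ∀ X' ∈ U, cl X → X ≠ X' → ∀ w, w ∈ X → w ∈ X' →
      w ∈ (arcL z (i + m) (n - m)).reverse ∨ w ∈ arcL z i m := by
    intro X hX X' hX' hclX hne w hw hw'
    by_cases hq : ∃ q, z q = w
    · obtain ⟨q, rfl⟩ := hq
      exact hZmem q
    · exfalso
      push Not at hq
      have h1 := ((hcl X).1 hclX).2 w hw hq
      have h2 : 1 < k w := by
        simp only [hk]
        rw [Finset.one_lt_card]
        exact ⟨X, Finset.mem_filter.2 ⟨hX, hw⟩, X', Finset.mem_filter.2 ⟨hX', hw'⟩, hne⟩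
      omega
  have hne0 : z i ≠ z (i + m) := by
    intro h
    have h1 := (hzeq _ _).1 h
    have h2 : (i + m) % n = if i + m < n then i + m else i + m - n := by
      split_ifs with h3
      · exact Nat.mod_eq_of_lt h3
      · rw [Nat.mod_eq_sub_mod (by omega), Nat.mod_eq_of_lt (by omega)]
    rw [Nat.mod_eq_of_lt hin, h2] at h1
    split_ifs at h1 <;> omega
  refine ⟨arcL z i m, (arcL z (i + m) (n - m)).reverse, z i, z (i + m), X₀, Kc, Xk, ?_⟩
  have hperi : z (i + m + (n - m)) = z i := by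
    have : i + m + (n - m) = i + n := by omega
    rw [this, hper]
  exact {
    X0I := hX₀I
    ne := hne0
    pthP := (hp0.monoG (hTF X₀ hX₀I).1.1).restrict (fun x hx => by
      obtain ⟨t, ht, rfl⟩ := mem_arcL.1 hx
      exact hin0 t ht)
    pthL := by
      have h1 := (hC2' (i + m) (n - m) (by omega)).reverse
      rw [hperi] at h1
      exact h1.monoG hYG
    meet := by
      intro x hx hxX
      obtain ⟨t, ht, rfl⟩ := mem_arcL.1 (List.mem_reverse.1 hx)
      rcases Nat.eq_zero_or_pos t with h1 | h1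
      · right; rw [h1, add_zero]
      · rcases Nat.eq_or_lt_of_le ht with h2 | h2
        · left; rw [h2]; exact hperi
        · exfalso
          refine hout0 (m + t) (by omega) (by omega) ?_
          rw [← add_assoc]; exact hxX
    len := by
      rw [arcL_length, hLlen]; omega
    P0len := by
      rw [arcL_length]; omega
    idx := fun q hq => ⟨hUI _ (hXk' q hq).1, (hXk' q hq).2.2.1⟩
    edge := by
      intro q hq
      have hq1 := Finset.mem_range.1 (Finset.mem_filter.1 (hKsub hq)).1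
      obtain ⟨h1, -, -, h2⟩ := hXk' q hq
      have h3 := hTX _ (hUI _ h1) _ _ h2
      refine ⟨z (i + (n - q)), z (i + (n - (q + 1))), hLget q (by omega), hLget (q + 1) (by omega),
        ?_, ?_⟩
      · have e1 : i + (n - q) = i + (n - 1 - q) + 1 := by omega
        rw [e1]; exact h3.2
      · have e1 : i + (n - (q + 1)) = i + (n - 1 - q) := by omega
        rw [e1]; exact h3.1
    lev := by
      intro q hq j
      obtain ⟨h1, h2, -, -⟩ := hXk' q hq
      obtain ⟨i', hi', m', hm1', hmn', hma', hp', hin', hout'⟩ :=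
        (hRun _ h1).2.2 ((hcl _).1 h2).1
      refine le_trans (Finset.card_le_card ?_)
        (((hTF _ (hUI _ h1)).2.2.2 _ _ _ hp').1 j)
      intro x hx
      obtain ⟨hx1, hx2, hx3⟩ := Finset.mem_filter.1 hx
      rw [Finset.mem_filter]
      refine ⟨?_, hx3⟩
      rw [List.mem_toFinset]
      obtain ⟨q', rfl⟩ : ∃ q', z q' = x := by
        rcases Finset.mem_union.1 hx1 with h3 | h3
        · rw [List.mem_toFinset, List.mem_reverse] at h3
          obtain ⟨t, -, h4⟩ := mem_arcL.1 h3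
          exact ⟨_, h4⟩
        · rw [List.mem_toFinset] at h3
          obtain ⟨t, -, h4⟩ := mem_arcL.1 h3
          exact ⟨_, h4⟩
      obtain ⟨j', hj', hq'⟩ := (hC3' i').2.1 q'
      rw [hq'] at hx2 ⊢
      refine mem_arcL.2 ⟨j', ?_, rfl⟩
      by_contra hlt
      exact hout' j' (by omega) hj' hx2
    shared := by
      intro q hq q' hq' hne w hw hw'
      exact hshared _ (hXk' q hq).1 _ (hXk' q' hq').1 (hXk' q hq).2.1 hne w hw hw'
    shared0 := by
      intro q hq w hw hw'
      exact hshared _ (hXk' q hq).1 _ hX₀U (hXk' q hq).2.1 (hXk' q hq).2.2.1 w hw hw'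
    sep := hKsep
    many := by
      have h1 : CE.card ≤ 2 * Kc.card + 6 * a := by omega
      have h2 : (CE.card : ℝ) ≤ 2 * Kc.card + 6 * a := by exact_mod_cast h1
      have h3 : (1000 : ℝ) * a ≤ n := by exact_mod_cast hn
      have h4 : (n : ℝ) ≤ 30 * Kc.card := by linarith
      exact_mod_cast h4 }

end Pool.Agent.Lib.MP_b6048d_co.F
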