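import Pool.Agent.Lib.MP_b6048d_co.F.SpecF

set_option autoImplicit false

/-!
F00 CycConv of MP_b6048d_co.
-/

open scoped Classical

namespace Pool.Agent.Lib.MP_b6048d_co.F

variable {V : Type*}

namespace CycConvAux

lemma per_mul {Y : SimpleGraph V} {n : ℕ} {z : ℕ → V} (h : CycF Y n z) (k q : ℕ) :
    z (k + n * q) = z k := by
  induction q with
  | zero => simp
  | succ q ih =>
    have e1 : k + n * (q + 1) = (k + n * q) + n := by ring
    rw [e1, h.per, ih]

lemma mod_eq {Y : SimpleGraph V} {n : ℕ} {z : ℕ → V} (h : CycF Y n z) (k : ℕ) :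
    z k = z (k % n) := by
  have := per_mul h (k % n) (k / n)
  rw [Nat.mod_add_div] at this
  exact this

lemma eq_iff {Y : SimpleGraph V} {n : ℕ} {z : ℕ → V} (h : CycF Y n z) (j j' : ℕ) :
    z j = z j' ↔ j % n = j' % n := by
  have hn : 0 < n := by have := h.three; omega
  constructor
  · intro h1
    rw [mod_eq h j, mod_eq h j'] at h1
    exact h.inj _ (Nat.mod_lt _ hn) _ (Nat.mod_lt _ hn) h1
  · intro h1
    rw [mod_eq h j, mod_eq h j', h1]

lemma shift_inj {Y : SimpleGraph V} {n : ℕ} {z : ℕ → V} (h : CycF Y n z) (i j j' : ℕ)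
    (hj : j < n) (hj' : j' < n) (he : z (i + j) = z (i + j')) : j = j' := by
  have h1 := (eq_iff h _ _).1 he
  have h2 : j ≡ j' [MOD n] := Nat.ModEq.add_left_cancel' i h1
  have h3 : j % n = j' % n := h2
  rwa [Nat.mod_eq_of_lt hj, Nat.mod_eq_of_lt hj'] at h3

end CycConvAux

open CycConvAux in
theorem cycConv : CycConv := by
  refine ⟨?_, ?_, ?_⟩
  · intro V Y Q hQ
    have h3 := hQ.len
    have hn : 0 < Q.length := by omega
    have hlt : ∀ k, k % Q.length < Q.length := fun k => Nat.mod_lt _ hn
    refine ⟨fun k => Q[k % Q.length]'(hlt k), ⟨h3, ?_, ?_, ?_⟩, ?_⟩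
    · intro k
      simp only [Nat.add_mod_right]
    · intro i hi j hj he
      have h4 := (List.Nodup.getElem_inj_iff hQ.nodup).1 he
      rwa [Nat.mod_eq_of_lt hi, Nat.mod_eq_of_lt hj] at h4
    · intro k
      have hch := List.isChain_iff_getElem.1 hQ.chain
      by_cases hk : k % Q.length + 1 < Q.length
      · have e1 : (k + 1) % Q.length = k % Q.length + 1 := by
          rw [Nat.add_mod, Nat.mod_eq_of_lt (show 1 < Q.length by omega), Nat.mod_eq_of_lt hk]
        simp only [e1]
        exact hch _ hk
      · have e2 : k % Q.length = Q.length - 1 := by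
          have := hlt k
          omega
        have e3 : (k + 1) % Q.length = 0 := by
          rw [Nat.add_mod, Nat.mod_eq_of_lt (show 1 < Q.length by omega), e2,
            Nat.sub_add_cancel (by omega), Nat.mod_self]
        simp only [e2, e3]
        refine hQ.closed _ ?_ _ ?_
        · rw [Option.mem_def, List.head?_eq_getElem?, List.getElem?_eq_getElem hn]
        · rw [Option.mem_def, List.getLast?_eq_getElem?, List.getElem?_eq_getElem (by omega)]
    · intro x
      constructor
      · intro hx
        obtain ⟨k, hk, rfl⟩ := List.getElem_of_mem hx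
        refine ⟨k, hk, ?_⟩
        simp only [Nat.mod_eq_of_lt hk]
      · rintro ⟨k, hk, rfl⟩
        exact List.getElem_mem _
  · intro V Y n z h i m hm
    refine ⟨⟨?_, ?_, ?_, fun _ _ => Set.mem_univ _⟩, ?_⟩
    · rw [List.isChain_iff_getElem]
      intro k hk
      unfold arcL at hk ⊢
      rw [List.getElem_map, List.getElem_map, List.getElem_range, List.getElem_range]
      exact h.adj (i + k)
    · unfold arcL
      rw [List.range_succ_eq_map]
      rfl
    · unfold arcL
      rw [List.range_succ, List.map_append, List.getLast?_append]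
      rfl
    · unfold arcL
      refine List.Nodup.map_on ?_ List.nodup_range
      intro t ht t' ht' he
      rw [List.mem_range] at ht ht'
      exact shift_inj h i t t' (by omega) (by omega) he
  · intro V Y n z h i
    have hn : 0 < n := by have := h.three; omega
    refine ⟨⟨h.three, ?_, ?_, ?_⟩, ?_, eq_iff h⟩
    · intro k
      have e1 : i + (k + n) = i + k + n := by ring
      simp only [e1]
      exact h.per _
    · intro j hj j' hj' he
      exact shift_inj h i j j' hj hj' he
    · intro k
      exact h.adj (i + k)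
    · intro k
      refine ⟨(k + (n * i - i)) % n, Nat.mod_lt _ hn, ?_⟩
      rw [eq_iff h]
      have h1 : i ≤ n * i := Nat.le_mul_of_pos_left i hn
      have e1 : i + (k + (n * i - i)) = k + n * i := by omega
      rw [Nat.add_mod_mod, e1, Nat.add_mul_mod_self_left]

end Pool.Agent.Lib.MP_b6048d_co.F
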