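import Pool.Agent.Lib.MP_b6048d_co.F.SpecF

set_option autoImplicit false

/-!
F04: a finite set with as many edges as vertices contains a cycle.
-/

open scoped Classical

namespace Pool.Agent.Lib.MP_b6048d_co.F

namespace CycleInAux

variable {V : Type} {Y : SimpleGraph V} {A : Finset V}

/-- Minimum degree two: a path in `A` either closes to a cycle or can be prolonged. -/
theorem ext (h2 : ∀ v ∈ A, 2 ≤ dg Y A v) {u v : V} {l : List V} (h : Pth Y (A : Set V) u v l) :
    (∃ Q, IsCyc Y Q ∧ ∀ x ∈ Q, x ∈ A) ∨ ∃ w, Pth Y (A : Set V) w v (w :: l) := by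
  have hu : u ∈ A := h.toWk.left_in
  by_cases hw : ∃ w ∈ A, Y.Adj u w ∧ w ∉ l
  · obtain ⟨w, hwA, huw, hwl⟩ := hw
    exact Or.inr ⟨w, h.cons hwA huw.symm hwl⟩
  · left
    push Not at hw
    obtain ⟨t, rfl⟩ := h.toWk.exists_cons
    have hdg := h2 u hu
    unfold dg at hdg
    obtain ⟨a, ha, b, hb, hab⟩ := Finset.one_lt_card.1 hdg
    rw [Finset.mem_filter] at ha hb
    -- two different neighbours; one of them is not the second vertex of the path
    obtain ⟨w, hwA, huw, hwne⟩ : ∃ w ∈ A, Y.Adj u w ∧ t.head? ≠ some w := by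
      by_cases hta : t.head? = some a
      · exact ⟨b, hb.1, hb.2, by rw [hta]; simpa using hab⟩
      · exact ⟨a, ha.1, ha.2, hta⟩
    have hwl : w ∈ u :: t := hw w hwA huw
    have hwu : w ≠ u := fun e => Y.irrefl (e ▸ huw)
    have hwt : w ∈ t := by
      rcases List.mem_cons.1 hwl with e | e
      · exact absurd e hwu
      · exact e
    rcases t with _ | ⟨c, t⟩
    · simp at hwt
    · have hwc : w ≠ c := fun e => hwne (by rw [e]; rfl)
      have hwt' : w ∈ t := by
        rcases List.mem_cons.1 hwt with e | e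
        · exact absurd e hwc
        · exact e
      obtain ⟨p, q, rfl⟩ := List.append_of_mem hwt'
      have e1 : u :: c :: (p ++ w :: q) = (u :: c :: p) ++ w :: q := rfl
      rw [e1] at h
      have h3 := h.cut.1
      refine ⟨(u :: c :: p) ++ [w], h3.close huw.symm ?_, fun x hx => h3.mem x hx⟩
      simp only [List.length_append, List.length_cons, List.length_nil]
      omega

theorem exists_cyc (h2 : ∀ v ∈ A, 2 ≤ dg Y A v) (hA : A.Nonempty) :
    ∃ Q, IsCyc Y Q ∧ ∀ x ∈ Q, x ∈ A := by
  by_contra hno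
  have key : ∀ n : ℕ, ∃ (u v : V) (l : List V), Pth Y (A : Set V) u v l ∧ l.length = n + 1 := by
    intro n
    induction n with
    | zero =>
      obtain ⟨x, hx⟩ := hA
      exact ⟨x, x, [x], Pth.single hx, rfl⟩
    | succ n ih =>
      obtain ⟨u, v, l, hl, hn⟩ := ih
      rcases ext h2 hl with h | ⟨w, hw⟩
      · exact absurd h hno
      · exact ⟨w, v, w :: l, hw, by rw [List.length_cons, hn]⟩
  obtain ⟨u, v, l, hl, hn⟩ := key A.card
  have := hl.length_le
  omega

theorem main : ∀ (n : ℕ) (A : Finset V), A.card = n → A.Nonempty → (A.card : ℝ) ≤ ed Y A →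
    ∃ Q, IsCyc Y Q ∧ ∀ x ∈ Q, x ∈ A := by
  intro n
  induction n using Nat.strong_induction_on with
  | _ n ih =>
    intro A hn hA hd
    by_cases h2 : ∀ v ∈ A, 2 ≤ dg Y A v
    · exact exists_cyc h2 hA
    · push Not at h2
      obtain ⟨v, hv, hv2⟩ := h2
      have hsub : ({v} : Finset V) ⊆ A := by simpa using hv
      have h3 := ed_touch_le (Γ := Y) hsub
      rw [Finset.sum_singleton] at h3
      have h4 : (dg Y A v : ℝ) ≤ 1 := by
        have : dg Y A v ≤ 1 := by omega
        exact_mod_cast this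
      have hcard : (A \ {v}).card + 1 = A.card := by
        have := Finset.card_sdiff_add_card_eq_card hsub
        simpa using this
      have hcardR : ((A \ {v}).card : ℝ) + 1 = A.card := by exact_mod_cast hcard
      have h5 : ((A \ {v}).card : ℝ) ≤ ed Y (A \ {v}) := by linarith
      have hne : (A \ {v}).Nonempty := by
        by_contra hemp
        rw [Finset.not_nonempty_iff_eq_empty] at hemp
        have hA1 : A.card = 1 := by rw [← hcard, hemp]; rfl
        have h6 := ed_le_sq (Γ := Y) (A := A)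
        rw [hA1] at h6 hd
        norm_num at h6 hd
        linarith
      obtain ⟨Q, hQ, hQA⟩ := ih (A \ {v}).card (by omega) (A \ {v}) rfl hne h5
      exact ⟨Q, hQ, fun x hx => (Finset.mem_sdiff.1 (hQA x hx)).1⟩

end CycleInAux

theorem cycleIn : CycleIn := by
  intro V Y A hA hd
  obtain ⟨Q, hQ, hQA⟩ := CycleInAux.main A.card A rfl hA hd
  refine ⟨Q, hQ, hQA, ?_⟩
  rw [← List.toFinset_card_of_nodup hQ.nodup]
  exact Finset.card_le_card fun x hx => hQA x (List.mem_toFinset.1 hx)

end Pool.Agent.Lib.MP_b6048d_co.F
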