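import Pool.Agent.Lib.MP_b6048d_co.F.SpecF

set_option autoImplicit false

/-!
Section F, F15: cycles of all scales.
-/

open scoped Classical

namespace Pool.Agent.Lib.MP_b6048d_co.F

/-- Cycles of all scales, by shortening a long cycle. -/
theorem cycleScales (hS : StepDown) : CycleScales := by
  intro V Y H D hD Q₀ hQ₀ hQ₀H t ht hQt
  have key : ∀ n : ℕ, ∀ Q : List V, Q.length = n → IsCyc Y Q → (∀ x ∈ Q, x ∈ H) →
      t ≤ 2 * Q.length →
      ∃ Q', IsCyc Y Q' ∧ (∀ x ∈ Q', x ∈ H) ∧ Q'.length ≤ t ∧ t ≤ 2 * Q'.length := by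
    intro n
    induction n using Nat.strong_induction_on with
    | _ n ih =>
      intro Q hn hQ hQH hQ2
      by_cases hle : Q.length ≤ t
      · exact ⟨Q, hQ, hQH, hle, hQ2⟩
      · obtain ⟨Q', hQ', hQ'H, hlt, hle2⟩ := hS V Y H D hD Q hQ hQH (by omega)
        exact ih Q'.length (by omega) Q' rfl hQ' hQ'H (by omega)
  exact key Q₀.length Q₀ rfl hQ₀ hQ₀H (by omega)

end Pool.Agent.Lib.MP_b6048d_co.F
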