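import Pool.Agent.Lib.MP_b6048d_co.F.SpecF

set_option autoImplicit false

/-!
F08 ExpF: expansion of sets of at most half the size in a minimal dense set of the web.
-/

open scoped Classical

namespace Pool.Agent.Lib.MP_b6048d_co.F

theorem expF (hM : MuFacts) : ExpF := by
  intro V Y s H ell hG B hB hB2
  obtain ⟨hmin, hs10, hell, hbig, hnbig⟩ := hG
  obtain ⟨hb1, hb2, hb3⟩ := hM.1 s (by omega)
  have hs : (10 : ℝ) ≤ (s : ℝ) := by exact_mod_cast hs10
  have hs0 : (0 : ℝ) < (s : ℝ) := by linarith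
  have hell0 : (0 : ℝ) < ell := by linarith
  have hell2 : (1 : ℝ) ≤ ell ^ 2 := one_le_pow₀ (by linarith)
  have hell8 : (1 : ℝ) ≤ ell ^ 8 := one_le_pow₀ (by linarith)
  have hn : 10 ^ 6 * (s : ℝ) ≤ H.card := by
    refine le_trans ?_ hnbig
    nlinarith
  have hbn : (0 : ℝ) ≤ (B.card : ℝ) := Nat.cast_nonneg _
  have hNn : (0 : ℝ) ≤ ((nbr Y H B).card : ℝ) := Nat.cast_nonneg _
  -- the union of `B` and its neighbourhood
  have hcard : (B ∪ nbr Y H B).card = B.card + (nbr Y H B).card :=
    Finset.card_union_of_disjoint nbr_disjoint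
  by_cases hcase : 2 * H.card ≤ 3 * (B.card + (nbr Y H B).card)
  · have h1 : B.card ≤ 3 * (nbr Y H B).card := by omega
    have h2 : (B.card : ℝ) ≤ 3 * ((nbr Y H B).card : ℝ) := by exact_mod_cast h1
    have h3 : (3 : ℝ) ≤ 10 * s * ell ^ 2 := by nlinarith
    exact h2.trans (mul_le_mul_of_nonneg_right h3 hNn)
  · push Not at hcase
    have hmn : (B ∪ nbr Y H B).card < H.card := by omega
    -- edges touching `B`
    have h6 := hmin.touch hb2 hB
    have h7 := ed_touch (Γ := Y) (R := (∅ : Finset V)) hB (Finset.disjoint_empty_right B)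
    rw [Finset.union_empty, ed_empty] at h7
    have h8 := hmin.le hmn
    rw [hcard] at h8
    have h9 := hb3 (B.card + (nbr Y H B).card) H.card ell (by omega) hell.ge
    have h10 := (hb1 (B.card + (nbr Y H B).card)).2
    set t := mu s (B.card + (nbr Y H B).card) with ht
    set T := mu s H.card with hTT
    have h10' : t ≤ 2 := by
      have : 2 / (s : ℝ) ≤ 1 := by
        rw [div_le_one hs0]
        linarith
      linarith
    have hnn : (0 : ℝ) < (H.card : ℝ) + 3 * s := by positivity
    have h11 : (1 : ℝ) / 5 ≤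
        (((H.card : ℕ) : ℝ) - ((B.card + (nbr Y H B).card : ℕ) : ℝ)) /
          (((H.card : ℕ) : ℝ) + 3 * s) := by
      rw [le_div_iff₀ hnn]
      have h12 : ((3 * (B.card + (nbr Y H B).card) : ℕ) : ℝ) ≤ ((2 * H.card : ℕ) : ℝ) := by
        exact_mod_cast hcase.le
      push_cast at h12 ⊢
      linarith
    have h13 : 1 / (s : ℝ) * (1 / 5) / ell ^ 2 ≤ T - t := by
      refine le_trans ?_ h9
      apply div_le_div_of_nonneg_right _ (by positivity)
      exact mul_le_mul_of_nonneg_left h11 (by positivity)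
    have h14 : (T - t) * (B.card : ℝ) ≤ t * ((nbr Y H B).card : ℝ) := by
      push_cast at h8
      nlinarith
    have h15 : 1 / (s : ℝ) * (1 / 5) / ell ^ 2 * (B.card : ℝ) ≤ 2 * ((nbr Y H B).card : ℝ) :=
      (mul_le_mul_of_nonneg_right h13 hbn).trans
        (h14.trans (mul_le_mul_of_nonneg_right h10' hNn))
    have e1 : 1 / (s : ℝ) * (1 / 5) / ell ^ 2 * (B.card : ℝ) =
        (B.card : ℝ) / (5 * s * ell ^ 2) := by
      field_simp
    rw [e1, div_le_iff₀ (by positivity)] at h15
    linarith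

end Pool.Agent.Lib.MP_b6048d_co.F
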