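import Pool.Agent.Lib.MP_b6048d_co.F.SpecF

set_option autoImplicit false

/-!
F11: the giant component after the deletion of a path.
-/

open scoped Classical

namespace Pool.Agent.Lib.MP_b6048d_co.F.GiantAux

open Pool.Agent.Lib.MP_b6048d_co Pool.Agent.Lib.MP_b6048d_co.F

variable {V : Type} {Y : SimpleGraph V}

/-- The component of `x` in `Y[W]`. -/
noncomputable def comp (Y : SimpleGraph V) (W : Finset V) (x : V) : Finset V :=
  W.filter (fun y => ∃ l, Wk Y (W : Set V) x y l)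

lemma mem_comp {W : Finset V} {x y : V} :
    y ∈ comp Y W x ↔ y ∈ W ∧ ∃ l, Wk Y (W : Set V) x y l := by
  unfold comp; rw [Finset.mem_filter]

lemma comp_subset {W : Finset V} {x : V} : comp Y W x ⊆ W := Finset.filter_subset _ _

lemma self_mem_comp {W : Finset V} {x : V} (hx : x ∈ W) : x ∈ comp Y W x :=
  mem_comp.2 ⟨hx, [x], Wk.single (by exact_mod_cast hx)⟩

/-- Walks from `x` in `W` stay in the component of `x`. -/
lemma walk_in_comp {W : Finset V} {x y : V} {l : List V} (h : Wk Y (W : Set V) x y l) :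
    Wk Y (comp Y W x : Set V) x y l := by
  apply h.restrict
  intro z hz
  obtain ⟨a, b, rfl⟩ := List.append_of_mem hz
  rw [Finset.mem_coe, mem_comp]
  refine ⟨?_, _, (h.cut).1⟩
  exact_mod_cast h.mem z hz

lemma comp_cn {W : Finset V} {x : V} : Cn Y (comp Y W x) := by
  intro y hy z hz
  obtain ⟨_, ly, hly⟩ := mem_comp.1 hy
  obtain ⟨_, lz, hlz⟩ := mem_comp.1 hz
  exact ⟨_, ((walk_in_comp hly).reverse).append (walk_in_comp hlz)⟩

lemma comp_closed {W : Finset V} {x y z : V} (hy : y ∈ comp Y W x) (hz : z ∈ W)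
    (hyz : Y.Adj y z) : z ∈ comp Y W x := by
  obtain ⟨_, ly, hly⟩ := mem_comp.1 hy
  exact mem_comp.2 ⟨hz, _, hly.concat (by exact_mod_cast hz) hyz⟩

/-- A component is disjoint from every closed set not containing `x`. -/
lemma comp_disjoint {W U : Finset V} {x : V} (hx : x ∉ U)
    (hU : ∀ y ∈ U, ∀ z ∈ W, Y.Adj y z → z ∈ U) : Disjoint U (comp Y W x) := by
  rw [Finset.disjoint_left]
  intro y hyU hy
  obtain ⟨_, ly, hly⟩ := mem_comp.1 hy
  have hrev := hly.reverse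
  obtain ⟨a, p, q, b, hl, hp, hq, hpq, -⟩ :=
    hrev.crossing (U : Set V) (by exact_mod_cast hyU) (by exact_mod_cast hx)
  have hqW : q ∈ W := by
    have h1 : q ∈ ly.reverse := by rw [hl]; simp
    exact_mod_cast hrev.mem q h1
  exact hq (by exact_mod_cast hU p (by exact_mod_cast hp) q hqW hpq)

end Pool.Agent.Lib.MP_b6048d_co.F.GiantAux

namespace Pool.Agent.Lib.MP_b6048d_co.F

open GiantAux

theorem giant (hP : PathCut) : Giant := by
  intro V Y s H ell hGS u v l hl hlen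
  by_contra hcon
  push Not at hcon
  have hs := hGS.s_pos
  have hell := hGS.big
  have hnb := hGS.nbig
  have hsr : (10 : ℝ) ≤ s := by exact_mod_cast hs
  obtain ⟨n, hn⟩ : ∃ n : ℝ, n = (H.card : ℝ) := ⟨_, rfl⟩
  have hell2 : (10 ^ 6 : ℝ) ≤ ell ^ 2 := by nlinarith
  have hell6 : (1 : ℝ) ≤ ell ^ 6 := one_le_pow₀ (by linarith)
  have hn1 : 10 ^ 6 * ((s : ℝ) * ell ^ 2) ≤ n := by
    rw [hn]
    refine le_trans ?_ hnb
    have h1 : (s : ℝ) * ell ^ 2 * 1 ≤ (s : ℝ) * ell ^ 2 * ell ^ 6 :=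
      mul_le_mul_of_nonneg_left hell6 (by positivity)
    nlinarith
  have hse : (10 : ℝ) * ell ^ 2 ≤ s * ell ^ 2 := mul_le_mul_of_nonneg_right hsr (by positivity)
  have hlen' : 40 * ell ^ 2 * (l.length : ℝ) ≤ n + 40 * ell ^ 2 := by
    rw [hn]; linarith
  -- the path is short
  have h10 : 10 * l.length ≤ H.card := by
    have h1 : 10 * (l.length : ℝ) ≤ n := by
      have h2 : 10 ^ 6 * (40 * (l.length : ℝ)) ≤ ell ^ 2 * (40 * (l.length : ℝ)) :=
        mul_le_mul_of_nonneg_right hell2 (by positivity)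
      nlinarith
    rw [hn] at h1
    exact_mod_cast h1
  -- closed sets are small or large
  have hcut : ∀ U : Finset V, U ⊆ H → (∀ x ∈ U, x ∉ l) → (∀ x ∈ nbr Y H U, x ∈ l) →
      2 * U.card ≤ H.card → 4 * U.card < H.card := by
    intro U hUH hUl hUn hU2
    have h1 := hP V Y s H ell hGS u v l U hl h10 hUH hUl hUn hU2
    have h2 : (4 : ℝ) * U.card < n := by
      have h3 : 3 * ell ^ 2 * (s + 2 * (l.length : ℝ)) =
        3 * (s * ell ^ 2) + 6 * ell ^ 2 * l.length := by ring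
      rw [h3] at h1
      nlinarith
    rw [hn] at h2
    exact_mod_cast h2
  obtain ⟨W, hW⟩ : ∃ W : Finset V, W = H \ l.toFinset := ⟨_, rfl⟩
  have hWmem : ∀ x, x ∈ W ↔ x ∈ H ∧ x ∉ l := by
    intro x; rw [hW, Finset.mem_sdiff, List.mem_toFinset]
  have hWcard : H.card ≤ W.card + l.length := by
    have h1 := Finset.card_le_card_sdiff_add_card (s := H) (t := l.toFinset)
    have h2 := List.toFinset_card_le l
    rw [hW]
    omega
  -- a closed set of maximal size at most `n / 2`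
  obtain ⟨Cl, hCl⟩ : ∃ Cl : Finset V → Prop, ∀ U, Cl U ↔
    (∀ y ∈ U, ∀ z ∈ W, Y.Adj y z → z ∈ U) ∧ 2 * U.card ≤ H.card := ⟨_, fun _ => Iff.rfl⟩
  obtain ⟨F, hF⟩ : ∃ F : Finset (Finset V), F = W.powerset.filter Cl := ⟨_, rfl⟩
  have hF0 : (∅ : Finset V) ∈ F := by
    rw [hF, Finset.mem_filter, Finset.mem_powerset, hCl]
    exact ⟨Finset.empty_subset _, by simp, by simp⟩
  obtain ⟨U, hU, hmax⟩ := Finset.exists_max_image F Finset.card ⟨_, hF0⟩
  rw [hF, Finset.mem_filter, Finset.mem_powerset, hCl] at hU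
  obtain ⟨hUW, hUcl, hU2⟩ := hU
  have hclosed : ∀ B : Finset V, B ⊆ W → (∀ y ∈ B, ∀ z ∈ W, Y.Adj y z → z ∈ B) →
      (B ⊆ H ∧ (∀ x ∈ B, x ∉ l) ∧ ∀ x ∈ nbr Y H B, x ∈ l) := by
    intro B hB hBcl
    refine ⟨fun x hx => ((hWmem x).1 (hB hx)).1, fun x hx => ((hWmem x).1 (hB hx)).2, ?_⟩
    intro x hx
    obtain ⟨h1, h2, y, hy, hyx⟩ := mem_nbr.1 hx
    by_contra h3
    exact h2 (hBcl y hy x ((hWmem x).2 ⟨h1, h3⟩) hyx)
  obtain ⟨h1, h2, h3⟩ := hclosed U hUW hUcl
  have hU4 := hcut U h1 h2 h3 hU2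
  obtain ⟨x, hxW, hxU⟩ : ∃ x ∈ W, x ∉ U := by
    by_contra h4
    push Not at h4
    have h5 : W.card ≤ U.card := Finset.card_le_card h4
    omega
  have hdisj := comp_disjoint (Y := Y) hxU hUcl
  have hCcl : ∀ y ∈ comp Y W x, ∀ z ∈ W, Y.Adj y z → z ∈ comp Y W x :=
    fun y hy z hz hyz => comp_closed hy hz hyz
  obtain ⟨h4, h5, h6⟩ := hclosed (comp Y W x) comp_subset hCcl
  have hC2 := hcon (comp Y W x) h4 h5 comp_cn h6
  have hC4 := hcut (comp Y W x) h4 h5 h6 hC2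
  have hcu : (U ∪ comp Y W x).card = U.card + (comp Y W x).card :=
    Finset.card_union_of_disjoint hdisj
  have hCpos : 0 < (comp Y W x).card := Finset.card_pos.2 ⟨x, self_mem_comp hxW⟩
  have hmem : U ∪ comp Y W x ∈ F := by
    rw [hF, Finset.mem_filter, Finset.mem_powerset, hCl]
    refine ⟨Finset.union_subset hUW comp_subset, ?_, by omega⟩
    intro y hy z hz hyz
    rcases Finset.mem_union.1 hy with h7 | h7
    · exact Finset.mem_union_left _ (hUcl y h7 z hz hyz)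
    · exact Finset.mem_union_right _ (hCcl y h7 z hz hyz)
  have := hmax _ hmem
  omega

end Pool.Agent.Lib.MP_b6048d_co.F
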