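import Pool.Agent.Lib.MP_b6048d_co.F.SpecF

set_option autoImplicit false

open scoped Classical

namespace Pool.Agent.Lib.MP_b6048d_co.F

theorem growthNum : GrowthNum := by
  intro B
  have h := (Real.tendsto_exp_div_pow_atTop (2 * B + 4)).eventually_ge_atTop 4
  obtain ⟨E, hE⟩ := Filter.eventually_atTop.1 h
  refine ⟨max 1000 E, le_max_left _ _, fun ell hell => ?_⟩
  have h1 : (1000 : ℝ) ≤ ell := le_trans (le_max_left _ _) hell
  have h2 : E ≤ ell := le_trans (le_max_right _ _) hell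
  have hpos : (0 : ℝ) < ell := by linarith
  have hp : (1 : ℝ) ≤ ell ^ (2 * B + 4) := one_le_pow₀ (by linarith)
  constructor
  · have h3 := hE ell h2
    rw [le_div_iff₀ (by positivity)] at h3
    linarith
  · have h4 : ell ^ 2 / 2 ≤ ((⌊ell ^ 2⌋₊ : ℕ) : ℝ) := by
      have h5 : ell ^ 2 - 1 < ((⌊ell ^ 2⌋₊ : ℕ) : ℝ) := Nat.sub_one_lt_floor _
      nlinarith
    have h6 : (ell ^ 2 / 2) ^ 4 ≤ ((⌊ell ^ 2⌋₊ : ℕ) : ℝ) ^ 4 :=
      pow_le_pow_left₀ (by positivity) h4 4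
    refine le_trans ?_ h6
    have h7 : (1000 : ℝ) ^ 5 ≤ ell ^ 5 := pow_le_pow_left₀ (by norm_num) h1 5
    have h8 : (1000 : ℝ) ^ 3 ≤ ell ^ 3 := pow_le_pow_left₀ (by norm_num) h1 3
    have h9 : (ell ^ 2 / 2) ^ 4 = ell ^ 3 * (ell ^ 5) / 16 := by ring
    rw [h9]
    have h10 : ell ^ 3 * (1000 : ℝ) ^ 5 ≤ ell ^ 3 * ell ^ 5 :=
      mul_le_mul_of_nonneg_left h7 (by positivity)
    nlinarith

end Pool.Agent.Lib.MP_b6048d_co.F
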