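import Pool.Agent.Lib.MP_b6048d_co.F.SpecF

set_option autoImplicit false

/-!
F23: the growth theorem (assembly of section F).
-/

open scoped Classical

namespace Pool.Agent.Lib.MP_b6048d_co.F.GrowthThmAux

open Pool.Agent.Lib.MP_b6048d_co Pool.Agent.Lib.MP_b6048d_co.F

/-- A cycle has at least as many edges as vertices. -/
lemma cyc_ed {V : Type} (hCC : CycConv) {Y : SimpleGraph V} {n : ℕ} {z : ℕ → V}
    (hz : CycF Y n z) (A : Finset V) (hA : ∀ x, x ∈ A ↔ ∃ k < n, z k = x) :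
    (A.card : ℝ) ≤ ed Y A := by
  have hmod := (hCC.2.2 V Y n z hz 0).2.2
  have hn := hz.three
  have hall : ∀ k, z k ∈ A := by
    intro k
    rw [hA]
    refine ⟨k % n, Nat.mod_lt _ (by omega), ?_⟩
    rw [hmod]
    exact Nat.mod_mod _ _
  have hdg : ∀ v ∈ A, (2 : ℝ) ≤ (dg Y A v : ℝ) := by
    intro v hv
    obtain ⟨k, hk, rfl⟩ := (hA v).1 hv
    have h1 : Y.Adj (z k) (z (k + 1)) := hz.adj k
    have h2 : Y.Adj (z k) (z (k + n - 1)) := by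
      have h3 := hz.adj (k + n - 1)
      rw [show k + n - 1 + 1 = k + n by omega, hz.per] at h3
      exact h3.symm
    have hne : z (k + 1) ≠ z (k + n - 1) := by
      intro h
      rw [hmod] at h
      have h4 : (k + 1) ≡ (k + n - 1) [MOD n] := h
      have h5 : (n - 2) ≡ 0 [MOD n] := by
        have h6 : (k + 1) + 0 ≡ (k + 1) + (n - 2) [MOD n] := by
          rw [show (k + 1) + (n - 2) = k + n - 1 by omega]
          exact h4
        exact (Nat.ModEq.add_left_cancel' _ h6).symm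
      have h7 := (Nat.modEq_zero_iff_dvd.1 h5)
      have h8 := Nat.le_of_dvd (by omega) h7
      omega
    have h5 : ({z (k + 1), z (k + n - 1)} : Finset V) ⊆ A.filter (fun w => Y.Adj (z k) w) := by
      intro x hx
      rw [Finset.mem_insert, Finset.mem_singleton] at hx
      rw [Finset.mem_filter]
      rcases hx with rfl | rfl
      · exact ⟨hall _, h1⟩
      · exact ⟨hall _, h2⟩
    have h6 := Finset.card_le_card h5
    rw [Finset.card_pair hne] at h6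
    exact_mod_cast h6
  have h7 : ∑ v ∈ A, (2 : ℝ) ≤ ∑ v ∈ A, (dg Y A v : ℝ) := Finset.sum_le_sum hdg
  rw [Finset.sum_const, nsmul_eq_mul] at h7
  unfold ed
  linarith

end Pool.Agent.Lib.MP_b6048d_co.F.GrowthThmAux

namespace Pool.Agent.Lib.MP_b6048d_co.F

open GrowthThmAux

theorem growthThm (hCC : CycConv) (hWE : WebExists) (hWG : WebGirth) (hID : IncToDense)
    (hM : MuFacts) (hSL : SizeLower) (hDi : DiamF) (hLC : LongCycle) (hCS : CycleScales)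
    (hTC : TouchClosure) (hTN : TouchCount) (hCE : CleanExists) (hWL : WebLengths)
    (hN : GrowthNum) : GrowthThm := by
  intro A R B hA1
  obtain ⟨E₀, hE₀, hnum⟩ := hN B
  refine ⟨⌈(24 * 10 ^ 6 : ℝ) * E₀⌉₊ + 10 ^ 15, ?_⟩
  intro Δ hΔ
  refine ⟨202 * A + 3, max 100 R, 100, by omega, ?_⟩
  intro V G XX a g I Tc Ce hMiss hCov ha hΔg hBl hFail
  have hΔE : (24 * 10 ^ 6 : ℝ) * E₀ ≤ Δ := by
    have h1 : (24 * 10 ^ 6 : ℝ) * E₀ ≤ ⌈(24 * 10 ^ 6 : ℝ) * E₀⌉₊ := Nat.le_ceil _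
    have h2 : ((⌈(24 * 10 ^ 6 : ℝ) * E₀⌉₊ : ℕ) : ℝ) ≤ Δ := by
      exact_mod_cast (by omega : ⌈(24 * 10 ^ 6 : ℝ) * E₀⌉₊ ≤ Δ)
    linarith
  have hΔ15 : 10 ^ 15 ≤ Δ := by omega
  have hg14 : 10 ^ 14 * a ≤ g := by
    have h1 : 10 ^ 15 * a ≤ Δ * a := Nat.mul_le_mul_right a hΔ15
    omega
  obtain ⟨rt, lv, par, Y, hW⟩ := hWE V G XX a g I Tc Ce hBl hFail
  obtain ⟨hYG, hgirth⟩ := hWG V G XX a g I Tc Ce rt lv par Y hW
  obtain ⟨A', hA'ne, hA'd⟩ := hID V G XX a g I Tc Ce rt lv par Y hW hFail ha (by omega)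
  obtain ⟨s, hs⟩ : ∃ s : ℕ, s = 10 ^ 6 * a := ⟨_, rfl⟩
  have hs1 : 1 ≤ s := by omega
  have hs10 : 10 ≤ s := by omega
  have hapos : (0 : ℝ) < a := by exact_mod_cast (by omega : 0 < a)
  have hspos : (0 : ℝ) < s := by exact_mod_cast (by omega : 0 < s)
  have hsr : (s : ℝ) = 10 ^ 6 * a := by rw [hs]; push_cast; ring
  obtain ⟨hMs, hM4⟩ := hM
  obtain ⟨hmu1, hmu2, hmu3⟩ := hMs s hs1
  have hdens : mu s A'.card * A'.card ≤ ed Y A' := by
    have h1 := (hmu1 A'.card).2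
    have h2 : 2 / (s : ℝ) ≤ 1 / (22 * (a : ℝ)) := by
      rw [hsr, div_le_div_iff₀ (by positivity) (by positivity)]
      nlinarith
    have h3 : mu s A'.card ≤ 1 + 1 / (22 * (a : ℝ)) := by linarith
    exact le_trans (mul_le_mul_of_nonneg_right h3 (by positivity)) hA'd
  obtain ⟨H, hH⟩ := exists_minD hA'ne hdens
  obtain ⟨ell, hell⟩ : ∃ ell : ℝ, ell = Real.log ((H.card : ℝ) / s + 3) := ⟨_, rfl⟩
  have hgl : (g : ℝ) / (3 * s) ≤ ell := by
    rw [hell]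
    exact hSL V Y s g H hs10 (by omega) hH hgirth
  have hellΔ : (Δ : ℝ) / (24 * 10 ^ 6) ≤ ell := by
    refine le_trans ?_ hgl
    rw [hsr, div_le_div_iff₀ (by positivity) (by positivity)]
    have h1 : ((Δ * a : ℕ) : ℝ) ≤ ((8 * g : ℕ) : ℝ) := by exact_mod_cast hΔg
    push_cast at h1
    nlinarith
  have hellE : E₀ ≤ ell := by
    refine le_trans ?_ hellΔ
    rw [le_div_iff₀ (by positivity)]
    linarith
  have hell1000 : 1000 ≤ ell := le_trans hE₀ hellE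
  have hellpos : 0 < ell := by linarith
  have hnbig : 10 ^ 6 * (s : ℝ) * ell ^ 8 ≤ H.card := hM4 s H.card ell hs1 hell hell1000
  have hGS : GS Y s H ell := ⟨hH, hs10, hell, hell1000, hnbig⟩
  obtain ⟨hnum1, hnum2⟩ := hnum ell hellE
  -- `n = s (exp ell - 3)`
  have hnexp : (s : ℝ) * ell ^ (2 * B + 4) ≤ H.card := by
    have h1 : Real.exp ell = (H.card : ℝ) / s + 3 := by
      rw [hell, Real.exp_log (by positivity)]
    rw [h1] at hnum1
    have h2 : ell ^ (2 * B + 4) ≤ (H.card : ℝ) / s := by linarith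
    rw [le_div_iff₀ hspos] at h2
    linarith
  -- the number `w`
  have hΔr : (10 : ℝ) ^ 15 ≤ Δ := by exact_mod_cast hΔ15
  have hwΔ : Δ ≤ ⌊ell ^ 2⌋₊ := by
    apply Nat.le_floor
    have h1 : (Δ : ℝ) ≤ ((Δ : ℝ) / (24 * 10 ^ 6)) ^ 2 := by
      rw [div_pow, le_div_iff₀ (by positivity)]
      nlinarith
    have h2 : ((Δ : ℝ) / (24 * 10 ^ 6)) ^ 2 ≤ ell ^ 2 :=
      pow_le_pow_left₀ (by positivity) hellΔ 2
    linarith
  refine ⟨⌊ell ^ 2⌋₊, hwΔ, ?_⟩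
  intro ℓ hℓ1 hℓ2
  have hℓ1r : (a : ℝ) * (10 ^ 10 * ell ^ 3 + 10) ≤ ℓ := by
    have h1 : ((a * ⌊ell ^ 2⌋₊ ^ 4 : ℕ) : ℝ) ≤ ℓ := by exact_mod_cast hℓ1
    push_cast at h1
    exact le_trans (mul_le_mul_of_nonneg_left hnum2 hapos.le) h1
  have hℓ2r : (ℓ : ℝ) ≤ a * ell ^ (2 * B) := by
    have h1 : (ℓ : ℝ) ≤ ((a * ⌊ell ^ 2⌋₊ ^ B : ℕ) : ℝ) := by exact_mod_cast hℓ2
    push_cast at h1
    have h2 : ((⌊ell ^ 2⌋₊ : ℕ) : ℝ) ≤ ell ^ 2 := Nat.floor_le (by positivity)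
    have h3 : ((⌊ell ^ 2⌋₊ : ℕ) : ℝ) ^ B ≤ (ell ^ 2) ^ B := pow_le_pow_left₀ (by positivity) h2 B
    rw [← pow_mul] at h3
    exact le_trans h1 (mul_le_mul_of_nonneg_left h3 hapos.le)
  -- `ℓ < n`
  have hell4 : (1 : ℝ) ≤ ell ^ 4 := one_le_pow₀ (by linarith)
  have hellB : (0 : ℝ) < ell ^ (2 * B) := by positivity
  have hℓn : ℓ < H.card := by
    have h1 : (ℓ : ℝ) < H.card := by
      have h2 : (a : ℝ) * ell ^ (2 * B) < (s : ℝ) * ell ^ (2 * B + 4) := by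
        rw [pow_add, hsr]
        have h3 : (0 : ℝ) < a * ell ^ (2 * B) := by positivity
        nlinarith
      linarith
    exact_mod_cast h1
  obtain ⟨Q₀, hQ₀, hQ₀H, hQ₀len⟩ := hLC V Y s H ell hGS
  have hQ₀t : ℓ / 2 ≤ Q₀.length := by
    have h1 : (ℓ : ℝ) ≤ Q₀.length := by
      have h2 : (s : ℝ) * ell ^ (2 * B + 4) ≤ 1000 * ell ^ 4 * Q₀.length := le_trans hnexp hQ₀len
      rw [pow_add, hsr] at h2
      have h3 : ell ^ 4 * (10 ^ 6 * a * ell ^ (2 * B)) ≤ ell ^ 4 * (1000 * Q₀.length) := by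
        nlinarith
      have h4 := le_of_mul_le_mul_left h3 (by positivity)
      have h5 : (0 : ℝ) < a * ell ^ (2 * B) := by positivity
      nlinarith
    have h2 : ℓ ≤ Q₀.length := by exact_mod_cast h1
    omega
  have hell3 : (0 : ℝ) < ell ^ 3 := by positivity
  obtain ⟨D₀, hD₀⟩ : ∃ D₀ : ℕ, D₀ = ⌈50 * (s : ℝ) * ell ^ 3⌉₊ := ⟨_, rfl⟩
  have hD₀1 : 50 * (s : ℝ) * ell ^ 3 ≤ D₀ := by rw [hD₀]; exact Nat.le_ceil _
  have hD₀2 : (D₀ : ℝ) ≤ 50 * (s : ℝ) * ell ^ 3 + 1 := by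
    rw [hD₀]; exact (Nat.ceil_lt_add_one (by positivity)).le
  have hD₀t : 2 * D₀ + 1 ≤ ℓ / 2 := by
    have h1 : ((4 * D₀ + 4 : ℕ) : ℝ) ≤ ℓ := by
      push_cast
      rw [hsr] at hD₀2
      have h3 : (0 : ℝ) < a * ell ^ 3 := by positivity
      have h4 : (100 : ℝ) ≤ a := by exact_mod_cast ha
      nlinarith
    have h2 : 4 * D₀ + 4 ≤ ℓ := by exact_mod_cast h1
    omega
  have hdiam : ∀ u ∈ H, ∀ v ∈ H, v ∈ bl Y H {u} D₀ := hDi V Y s H ell hGS D₀ hD₀1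
  obtain ⟨Q, hQ, hQH, hQ1, hQ2⟩ := hCS V Y H D₀ hdiam Q₀ hQ₀ hQ₀H (ℓ / 2) hD₀t hQ₀t
  have hQg : g < Q.length := hgirth Q hQ
  obtain ⟨z, hz, hzQ⟩ := hCC.1 V Y Q hQ
  have hcardQ : Q.toFinset.card = Q.length := List.toFinset_card_of_nodup hQ.nodup
  have hQt : ∀ x, x ∈ Q.toFinset ↔ ∃ k < Q.length, z k = x := by
    intro x; rw [List.mem_toFinset]; exact hzQ x
  have hed : (Q.toFinset.card : ℝ) ≤ ed Y Q.toFinset := cyc_ed hCC hz Q.toFinset hQt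
  have hsparse : ∀ B' : Finset V, B'.card ≤ 2 * Q.length →
      ed Y B' ≤ (1 + 2 / (s : ℝ)) * B'.card := by
    intro B' hB'
    have h1 : B'.card < H.card := by omega
    have h2 := hH.le h1
    have h3 := (hmu1 B'.card).2
    exact le_trans h2 (mul_le_mul_of_nonneg_right h3 (by positivity))
  obtain ⟨A₁, hA₁sub, hA₁card, hA₁c1, hA₁c2⟩ := hTC V G XX a g I Tc Ce rt lv par Y hW (by omega)
    s Q.toFinset hs (by rw [hcardQ]; exact hsparse) hed (by rw [hcardQ]; omega)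
  have hzA : ∀ k, z k ∈ A₁ := by
    intro k
    apply hA₁sub
    rw [hQt]
    have hmod := (hCC.2.2 V Y Q.length z hz 0).2.2
    have hn := hz.three
    refine ⟨k % Q.length, Nat.mod_lt _ (by omega), ?_⟩
    rw [hmod]
    exact Nat.mod_mod _ _
  have hcount := hTN V G XX a g I Tc Ce rt lv par Y hW (by omega) s Q.length z A₁ hs1 hz hzA
    (by rw [← hcardQ]; exact hA₁card) hsparse hA₁c1
  obtain ⟨P₀, L, u₀, w₀, X₀, Kc, Xk, hclean⟩ := hCE V G XX a g I Tc Ce rt lv par Y hW (by omega)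
    s Q.length z A₁ hs (by omega) hz hzA hA₁c2 hcount
  exact hWL V G XX a g I Tc Ce rt lv par Y A R (202 * A + 3) (max 100 R) hW (by omega) (by omega)
    hA1 hMiss le_rfl (le_max_left _ _) (le_max_right _ _) hCov Q.length P₀ L u₀ w₀ X₀ Kc Xk
    (by omega) hclean ℓ (by omega) (by omega)

end Pool.Agent.Lib.MP_b6048d_co.F
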