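import Pool.Agent.Lib.MP_b6048d_co.F.SpecF

set_option autoImplicit false

/-!
F05: the failing structure contains a dense finite part.
-/

open scoped Classical

namespace Pool.Agent.Lib.MP_b6048d_co.F

namespace IncToDenseAux

variable {V : Type}

/-- ordered pairs of adjacent vertices -/
noncomputable def pr (Γ : SimpleGraph V) (B : Finset V) : Finset (V × V) :=
  (B ×ˢ B).filter (fun p => Γ.Adj p.1 p.2)

lemma mem_pr {Γ : SimpleGraph V} {B : Finset V} {u v : V} :
    (u, v) ∈ pr Γ B ↔ u ∈ B ∧ v ∈ B ∧ Γ.Adj u v := by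
  unfold pr
  rw [Finset.mem_filter, Finset.mem_product]
  tauto

lemma card_pr (Γ : SimpleGraph V) (B : Finset V) : ((pr Γ B).card : ℝ) = 2 * ed Γ B := by
  unfold pr ed dg
  rw [Finset.card_filter, Finset.sum_product]
  simp only [Finset.card_filter]
  push_cast
  ring

lemma sum_ed_le {ι : Type} (J : Finset ι) (Γ : ι → SimpleGraph V) (B : ι → Finset V)
    (Y : SimpleGraph V) (A : Finset V) (h1 : ∀ j ∈ J, Γ j ≤ Y) (h2 : ∀ j ∈ J, B j ⊆ A)
    (h3 : ∀ j ∈ J, ∀ j' ∈ J, j ≠ j' → ∀ u v, u ∈ B j → v ∈ B j → (Γ j).Adj u v →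
      u ∈ B j' → v ∈ B j' → (Γ j').Adj u v → False) :
    ∑ j ∈ J, ed (Γ j) (B j) ≤ ed Y A := by
  have h4 : (J.biUnion (fun j => pr (Γ j) (B j))).card = ∑ j ∈ J, (pr (Γ j) (B j)).card := by
    apply Finset.card_biUnion
    intro j hj j' hj' hne
    change Disjoint (pr (Γ j) (B j)) (pr (Γ j') (B j'))
    rw [Finset.disjoint_left]
    rintro ⟨u, v⟩ h5 h6
    rw [mem_pr] at h5 h6
    exact h3 j hj j' hj' hne u v h5.1 h5.2.1 h5.2.2 h6.1 h6.2.1 h6.2.2
  have h5 : J.biUnion (fun j => pr (Γ j) (B j)) ⊆ pr Y A := by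
    rintro ⟨u, v⟩ h6
    rw [Finset.mem_biUnion] at h6
    obtain ⟨j, hj, h6⟩ := h6
    rw [mem_pr] at h6 ⊢
    exact ⟨h2 j hj h6.1, h2 j hj h6.2.1, h1 j hj h6.2.2⟩
  have h6 := Finset.card_le_card h5
  rw [h4] at h6
  have h7 : (∑ j ∈ J, ((pr (Γ j) (B j)).card : ℝ)) ≤ ((pr Y A).card : ℝ) := by exact_mod_cast h6
  simp only [card_pr] at h7
  rw [← Finset.mul_sum] at h7
  linarith

lemma tree_ed {Γ : SimpleGraph V} {B : Finset V} {rt : V} {lv : V → ℕ} {par : V → V}
    (hrt : rt ∈ B)
    (h : ∀ v ∈ B, v ≠ rt → par v ∈ B ∧ Γ.Adj (par v) v ∧ lv (par v) < lv v) :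
    (B.card : ℝ) - 1 ≤ ed Γ B := by
  have h1 : ((B.erase rt).image (fun v => (v, par v))).card = (B.erase rt).card :=
    Finset.card_image_of_injective _ (fun a b hab => (Prod.ext_iff.mp hab).1)
  have h2 : ((B.erase rt).image (fun v => (par v, v))).card = (B.erase rt).card :=
    Finset.card_image_of_injective _ (fun a b hab => (Prod.ext_iff.mp hab).2)
  have h3 : Disjoint ((B.erase rt).image (fun v => (v, par v)))
      ((B.erase rt).image (fun v => (par v, v))) := by
    rw [Finset.disjoint_left]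
    rintro ⟨u, w⟩ h4 h5
    rw [Finset.mem_image] at h4 h5
    obtain ⟨x, hx, hx2⟩ := h4
    obtain ⟨y, hy, hy2⟩ := h5
    rw [Finset.mem_erase] at hx hy
    have e1 := (Prod.ext_iff.mp hx2).1
    have e2 := (Prod.ext_iff.mp hx2).2
    have e3 := (Prod.ext_iff.mp hy2).1
    have e4 := (Prod.ext_iff.mp hy2).2
    simp only at e1 e2 e3 e4
    have h6 := (h x hx.2 hx.1).2.2
    have h7 := (h y hy.2 hy.1).2.2
    rw [e2, e1] at h6
    rw [e3, e4] at h7
    omega
  have h4 : ((B.erase rt).image (fun v => (v, par v))) ∪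
      ((B.erase rt).image (fun v => (par v, v))) ⊆ pr Γ B := by
    apply Finset.union_subset
    · intro p hp
      rw [Finset.mem_image] at hp
      obtain ⟨x, hx, rfl⟩ := hp
      rw [Finset.mem_erase] at hx
      obtain ⟨a1, a2, a3⟩ := h x hx.2 hx.1
      exact mem_pr.mpr ⟨hx.2, a1, a2.symm⟩
    · intro p hp
      rw [Finset.mem_image] at hp
      obtain ⟨x, hx, rfl⟩ := hp
      rw [Finset.mem_erase] at hx
      obtain ⟨a1, a2, a3⟩ := h x hx.2 hx.1
      exact mem_pr.mpr ⟨a1, hx.2, a2⟩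
  have h5 := Finset.card_le_card h4
  rw [Finset.card_union_of_disjoint h3, h1, h2, Finset.card_erase_of_mem hrt] at h5
  have h6 : 1 ≤ B.card := Finset.card_pos.mpr ⟨rt, hrt⟩
  have h7 := card_pr Γ B
  have h8 : (2 * B.card : ℝ) ≤ (pr Γ B).card + 2 := by
    have : 2 * B.card ≤ (pr Γ B).card + 2 := by omega
    exact_mod_cast this
  linarith

lemma conn_ed {Γ : SimpleGraph V} {T : Finset V} (hne : T.Nonempty)
    (hc : ∀ u ∈ T, ∀ v ∈ T, ∃ l, Wk Γ (T : Set V) u v l) : (T.card : ℝ) - 1 ≤ ed Γ T := by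
  have key : ∀ k : ℕ, k + 1 ≤ T.card → ∃ B : Finset V, B ⊆ T ∧ B.card = k + 1 ∧ (k : ℝ) ≤ ed Γ B := by
    intro k
    induction k with
    | zero =>
      intro _
      obtain ⟨t, ht⟩ := hne
      exact ⟨{t}, by simpa using ht, by simp, by simpa using ed_nonneg⟩
    | succ k ih =>
      intro hk
      obtain ⟨B, hB, hBc, hBe⟩ := ih (by omega)
      have h1 : ∃ v ∈ T, v ∉ B := by
        by_contra hcon
        push Not at hcon
        have := Finset.card_le_card hcon
        omega
      obtain ⟨v, hv, hvB⟩ := h1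
      obtain ⟨u, hu⟩ : B.Nonempty := Finset.card_pos.mp (by omega)
      obtain ⟨l, hl⟩ := hc u (hB hu) v hv
      obtain ⟨p, x, y, q, hlq, hx, hy, hxy, -⟩ := hl.crossing (B : Set V) (by exact_mod_cast hu)
        (by exact_mod_cast hvB)
      have hyT : y ∈ T := by
        have := hl.mem y (by rw [hlq]; simp)
        exact_mod_cast this
      have hx' : x ∈ B := by exact_mod_cast hx
      have hy' : y ∉ B := by exact_mod_cast hy
      refine ⟨insert y B, Finset.insert_subset hyT hB, by rw [Finset.card_insert_of_notMem hy', hBc],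
        ?_⟩
      rw [ed_insert hy']
      have h2 : 1 ≤ dg Γ B y := by
        unfold dg
        exact Finset.card_pos.mpr ⟨x, Finset.mem_filter.mpr ⟨hx', hxy.symm⟩⟩
      have h3 : (1 : ℝ) ≤ dg Γ B y := by exact_mod_cast h2
      push_cast
      linarith
  have h1 : 1 ≤ T.card := Finset.card_pos.mpr hne
  obtain ⟨B, hB, hBc, hBe⟩ := key (T.card - 1) (by omega)
  have h2 : B = T := Finset.eq_of_subset_of_card_le hB (by omega)
  rw [h2] at hBe
  have h3 : ((T.card - 1 : ℕ) : ℝ) = (T.card : ℝ) - 1 := by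
    rw [Nat.cast_sub h1]
    simp
  rw [← h3]
  exact hBe

/-- the root, the ports and all their ancestors -/
noncomputable def AX (rt : V) (lv : V → ℕ) (par : V → V) (PX : Finset V) : Finset V :=
  insert rt (PX.biUnion (fun p => (Finset.range (lv p)).image (fun k => par^[k] p)))

section tree

variable {G : SimpleGraph V} {X : Set V} {d : ℕ} {rt : V} {lv : V → ℕ} {par : V → V}

lemma eq_rt (h : BT G X d rt lv par) {v : V} (hv : v ∈ X) (h0 : lv v = 0) : v = rt := by
  by_contra hne
  have := (h.par v hv hne).2.2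
  omega

lemma iter (h : BT G X d rt lv par) {p : V} (hp : p ∈ X) (k : ℕ) (hk : k ≤ lv p) :
    par^[k] p ∈ X ∧ lv (par^[k] p) + k = lv p := by
  induction k with
  | zero => exact ⟨hp, rfl⟩
  | succ k ih =>
    obtain ⟨h1, h2⟩ := ih (by omega)
    have hne : par^[k] p ≠ rt := by
      intro he
      have := h.rt_lv
      rw [he] at h2
      omega
    obtain ⟨h3, h4, h5⟩ := h.par _ h1 hne
    rw [Function.iterate_succ_apply']
    exact ⟨h3, by omega⟩

lemma mem_AX {PX : Finset V} {v : V} :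
    v ∈ AX rt lv par PX ↔ v = rt ∨ ∃ p ∈ PX, ∃ k < lv p, par^[k] p = v := by
  unfold AX
  simp only [Finset.mem_insert, Finset.mem_biUnion, Finset.mem_image, Finset.mem_range]

lemma AX_sub (h : BT G X d rt lv par) {PX : Finset V} (hP : ∀ p ∈ PX, p ∈ X) {v : V}
    (hv : v ∈ AX rt lv par PX) : v ∈ X := by
  rcases mem_AX.mp hv with h1 | ⟨p, hp, k, hk, rfl⟩
  · rw [h1]; exact h.rt_mem
  · exact (iter h (hP p hp) k hk.le).1

lemma AX_closed (h : BT G X d rt lv par) {PX : Finset V} (hP : ∀ p ∈ PX, p ∈ X) {v : V}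
    (hv : v ∈ AX rt lv par PX) (hne : v ≠ rt) : par v ∈ AX rt lv par PX := by
  rcases mem_AX.mp hv with h1 | ⟨p, hp, k, hk, rfl⟩
  · exact absurd h1 hne
  · rw [mem_AX]
    have h2 := iter h (hP p hp) (k + 1) hk
    rw [Function.iterate_succ_apply'] at h2
    by_cases h3 : k + 1 < lv p
    · exact Or.inr ⟨p, hp, k + 1, h3, Function.iterate_succ_apply' _ _ _⟩
    · exact Or.inl (eq_rt h h2.1 (by omega))

lemma sub_AX (h : BT G X d rt lv par) {PX : Finset V} (hP : ∀ p ∈ PX, p ∈ X) :
    PX ⊆ AX rt lv par PX := by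
  intro p hp
  rw [mem_AX]
  rcases Nat.eq_zero_or_pos (lv p) with h1 | h1
  · exact Or.inl (eq_rt h (hP p hp) h1)
  · exact Or.inr ⟨p, hp, 0, h1, rfl⟩

lemma card_AX (h : BT G X d rt lv par) {PX : Finset V} (hP : ∀ p ∈ PX, p ∈ X) :
    (AX rt lv par PX).card ≤ 1 + d * PX.card := by
  unfold AX
  have h1 := Finset.card_insert_le rt
    (PX.biUnion (fun p => (Finset.range (lv p)).image (fun k => par^[k] p)))
  have h2 : (PX.biUnion (fun p => (Finset.range (lv p)).image (fun k => par^[k] p))).card ≤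
      PX.card * d := by
    apply Finset.card_biUnion_le_card_mul
    intro p hp
    refine Finset.card_image_le.trans ?_
    rw [Finset.card_range]
    exact h.dep p (hP p hp)
  rw [mul_comm] at h2
  omega

lemma AX_ed (h : BT G X d rt lv par) {PX : Finset V} (hP : ∀ p ∈ PX, p ∈ X) :
    ((AX rt lv par PX).card : ℝ) - 1 ≤ ed (TGr X rt par) (AX rt lv par PX) := by
  apply tree_ed (rt := rt) (lv := lv) (par := par) (mem_AX.mpr (Or.inl rfl))
  intro v hv hne
  have hvX := AX_sub h hP hv
  obtain ⟨h1, h2, h3⟩ := h.par v hvX hne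
  refine ⟨AX_closed h hP hv hne, ?_, by omega⟩
  unfold TGr
  rw [SimpleGraph.fromRel_adj]
  exact ⟨h2.ne, Or.inr ⟨hvX, hne, rfl⟩⟩

end tree

end IncToDenseAux

open IncToDenseAux in
theorem incToDense (hT : TreeFacts) (hG : WebGirth) (hC : CycleIn) : IncToDense := by
  intro V G XX a g I Tc Ce rt lv par Y hW hF ha hg
  have hcell := hW.cells
  -- cells and ports
  set P : Finset V := Tc.biUnion id with hP
  let PX : Set V → Finset V := fun X => P.filter (fun x => x ∈ X)
  let deg : Set V → ℕ := fun X => (Tc.filter (fun T => ∃ x ∈ T, x ∈ X)).card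
  let degT : Finset V → ℕ := fun T => (I.filter (fun X => ∃ x ∈ T, x ∈ X)).card
  let B : Set V → Finset V := fun X => AX (rt X) (lv X) (par X) (PX X)
  have hPXX : ∀ X, ∀ p ∈ PX X, p ∈ X := fun X p hp => (Finset.mem_filter.mp hp).2
  have hPXdeg : ∀ X ∈ I, (PX X).card = deg X := by
    intro X hX
    have e : PX X = (Tc.filter (fun T => ∃ x ∈ T, x ∈ X)).biUnion
        (fun T => T.filter (fun x => x ∈ X)) := by
      ext x
      simp only [PX, hP, Finset.mem_filter, Finset.mem_biUnion, id]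
      constructor
      · rintro ⟨⟨T, hT1, hT2⟩, hx⟩
        exact ⟨T, ⟨hT1, x, hT2, hx⟩, hT2, hx⟩
      · rintro ⟨T, ⟨hT1, -⟩, hT2, hx⟩
        exact ⟨⟨T, hT1, hT2⟩, hx⟩
    rw [e, Finset.card_biUnion]
    · have h1 : ∀ T ∈ Tc.filter (fun T => ∃ x ∈ T, x ∈ X), (T.filter (fun x => x ∈ X)).card = 1 := by
        intro T hT1
        rw [Finset.mem_filter] at hT1
        obtain ⟨hT1, x, hx, hxX⟩ := hT1
        rw [Finset.card_eq_one]
        refine ⟨x, ?_⟩
        ext y
        rw [Finset.mem_filter, Finset.mem_singleton]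
        constructor
        · rintro ⟨hy, hyX⟩
          exact hcell.one T hT1 X hX y hy x hx hyX hxX
        · rintro rfl
          exact ⟨hx, hxX⟩
      rw [Finset.sum_congr rfl h1]
      simp [deg]
    · intro T hT1 T' hT2 hne
      rw [Finset.mem_coe, Finset.mem_filter] at hT1 hT2
      exact (hcell.disj T hT1.1 T' hT2.1 hne).mono (Finset.filter_subset _ _)
        (Finset.filter_subset _ _)
  -- the set
  set A : Finset V := I.biUnion B ∪ P with hA
  have hAne : A.Nonempty := by
    obtain ⟨X, hX⟩ := hF.ne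
    exact ⟨rt X, Finset.mem_union_left _ (Finset.mem_biUnion.mpr ⟨X, hX, mem_AX.mpr (Or.inl rfl)⟩)⟩
  -- edges
  have hTne : ∀ T ∈ Tc, T.Nonempty := fun T hT1 => by
    obtain ⟨X, hX, x, hx, -⟩ := hF.deg1 T hT1
    exact ⟨x, hx⟩
  have hedge : ∑ X ∈ I, ((B X).card - 1 : ℝ) + ∑ T ∈ Tc, ((T.card : ℝ) - 1) ≤ ed Y A := by
    have h1 := sum_ed_le (I.disjSum Tc)
      (Sum.elim (fun X => TGr X (rt X) (par X)) (fun _ => Ce)) (Sum.elim B id) Y A ?_ ?_ ?_
    · rw [Finset.sum_disjSum] at h1
      simp only [Sum.elim_inl, Sum.elim_inr, id] at h1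
      refine le_trans (add_le_add (Finset.sum_le_sum ?_) (Finset.sum_le_sum ?_)) h1
      · intro X hX
        exact AX_ed (hW.bt X hX) (hPXX X)
      · intro T hT1
        apply conn_ed (hTne T hT1)
        intro u hu v hv
        obtain ⟨l, hl, -⟩ := hcell.conn T hT1 u hu v hv
        exact ⟨l, hl.toWk⟩
    · intro j hj u v huv
      rcases j with X | T
      · exact (hW.adj u v).mpr (Or.inr ⟨X, by simpa using hj, huv⟩)
      · exact (hW.adj u v).mpr (Or.inl huv)
    · intro j hj
      rcases j with X | T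
      · have hX : X ∈ I := by simpa using hj
        exact (Finset.subset_biUnion_of_mem B hX).trans Finset.subset_union_left
      · have hT1 : T ∈ Tc := by simpa using hj
        exact (Finset.subset_biUnion_of_mem id hT1).trans Finset.subset_union_right
    · intro j hj j' hj' hne u v hu hv huv hu' hv' huv'
      rcases j with X | T <;> rcases j' with X' | T'
      · have hX : X ∈ I := by simpa using hj
        have hX' : X' ∈ I := by simpa using hj'
        have e1 := ((hT V G X (3 * a) (rt X) (lv X) (par X) (hW.bt X hX)).1.2 u v huv)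
        have e2 := ((hT V G X' (3 * a) (rt X') (lv X') (par X') (hW.bt X' hX')).1.2 u v huv')
        exact huv.ne (hW.blocks.one X (hW.sub X hX) X' (hW.sub X' hX')
          (fun h => hne (by rw [h])) u e1.1 e2.1 v e1.2.1 e2.2.1)
      · have hX : X ∈ I := by simpa using hj
        have hT1 : T' ∈ Tc := by simpa using hj'
        have e1 := ((hT V G X (3 * a) (rt X) (lv X) (par X) (hW.bt X hX)).1.2 u v huv)
        exact huv.ne (hcell.one T' hT1 X hX u hu' v hv' e1.1 e1.2.1)
      · have hX : X' ∈ I := by simpa using hj'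
        have hT1 : T ∈ Tc := by simpa using hj
        have e1 := ((hT V G X' (3 * a) (rt X') (lv X') (par X') (hW.bt X' hX)).1.2 u v huv')
        exact huv.ne (hcell.one T hT1 X' hX u hu v hv e1.1 e1.2.1)
      · have hT1 : T ∈ Tc := by simpa using hj
        have hT2 : T' ∈ Tc := by simpa using hj'
        exact Finset.disjoint_left.mp (hcell.disj T hT1 T' hT2 (fun h => hne (by rw [h]))) hu hu'
  -- vertices
  have hvert : A.card + ∑ X ∈ I, deg X ≤ ∑ X ∈ I, (B X).card + ∑ T ∈ Tc, T.card := by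
    have h1 : A = I.biUnion (fun X => B X \ P) ∪ P := by
      rw [hA]
      ext x
      simp only [Finset.mem_union, Finset.mem_biUnion, Finset.mem_sdiff]
      constructor
      · rintro (⟨X, hX, hx⟩ | hx)
        · by_cases hxP : x ∈ P
          · exact Or.inr hxP
          · exact Or.inl ⟨X, hX, hx, hxP⟩
        · exact Or.inr hx
      · rintro (⟨X, hX, hx, -⟩ | hx)
        · exact Or.inl ⟨X, hX, hx⟩
        · exact Or.inr hx
    have h2 : A.card ≤ ∑ X ∈ I, (B X \ P).card + ∑ T ∈ Tc, T.card := by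
      rw [h1]
      refine (Finset.card_union_le _ _).trans (add_le_add Finset.card_biUnion_le ?_)
      exact Finset.card_biUnion_le
    have h3 : ∀ X ∈ I, (B X \ P).card + deg X ≤ (B X).card := by
      intro X hX
      have h4 : PX X ⊆ B X ∩ P := by
        intro x hx
        rw [Finset.mem_inter]
        exact ⟨sub_AX (hW.bt X hX) (hPXX X) hx, (Finset.mem_filter.mp hx).1⟩
      have h5 := Finset.card_le_card h4
      rw [hPXdeg X hX] at h5
      have h6 := Finset.card_sdiff_add_card_inter (B X) P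
      omega
    have h4 := Finset.sum_le_sum h3
    rw [Finset.sum_add_distrib] at h4
    omega
  -- the numbers
  set inc := ∑ X ∈ I, deg X with hinc
  have hinc2 : inc = ∑ T ∈ Tc, degT T := by
    rw [hinc]
    simp only [deg, degT, Finset.card_filter]
    exact Finset.sum_comm
  have hI3 : 3 * I.card ≤ inc := by
    rw [hinc, mul_comm, ← smul_eq_mul]
    apply Finset.card_nsmul_le_sum
    intro X hX
    exact hF.deg3 X hX
  have hT2 : 2 * Tc.card ≤ inc + 2 := by
    have h1 : ∀ T ∈ Tc, 2 ≤ degT T + (if degT T < 2 then 1 else 0) := by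
      intro T hT1
      have h2 : 1 ≤ degT T := by
        obtain ⟨X, hX, hx⟩ := hF.deg1 T hT1
        exact Finset.card_pos.mpr ⟨X, Finset.mem_filter.mpr ⟨hX, hx⟩⟩
      split_ifs with h3
      · omega
      · omega
    have h2 := Finset.card_nsmul_le_sum Tc (fun T => degT T + (if degT T < 2 then 1 else 0)) 2 h1
    rw [Finset.sum_add_distrib, ← Finset.card_filter, ← hinc2, smul_eq_mul] at h2
    have h3 := hF.deg2
    change (Tc.filter (fun T => degT T < 2)).card ≤ 2 at h3
    omega
  have hI1 : 1 ≤ I.card := Finset.card_pos.mpr hF.ne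
  have hAcard : A.card ≤ (3 * a + 11) * inc := by
    have h1 : ∑ X ∈ I, (B X).card ≤ I.card + 3 * a * inc := by
      have h2 : ∀ X ∈ I, (B X).card ≤ 1 + 3 * a * deg X := by
        intro X hX
        have := card_AX (hW.bt X hX) (hPXX X)
        rwa [hPXdeg X hX] at this
      refine (Finset.sum_le_sum h2).trans ?_
      rw [Finset.sum_add_distrib, ← Finset.mul_sum]
      simp [hinc]
    have h2 : ∑ T ∈ Tc, T.card ≤ 10 * inc := by
      rw [hinc2, Finset.mul_sum]
      exact Finset.sum_le_sum hF.size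
    have h3 : (3 * a + 11) * inc = 3 * a * inc + 11 * inc := by ring
    omega
  have hmain : (A.card : ℝ) + inc - I.card - Tc.card ≤ ed Y A := by
    rw [Finset.sum_sub_distrib, Finset.sum_sub_distrib] at hedge
    simp only [Finset.sum_const, nsmul_eq_mul, mul_one] at hedge
    have h1 : (A.card : ℝ) + inc ≤ ∑ X ∈ I, ((B X).card : ℝ) + ∑ T ∈ Tc, (T.card : ℝ) := by
      exact_mod_cast hvert
    linarith
  refine ⟨A, hAne, ?_⟩
  by_cases hsmall : inc < 84
  · exfalso
    have h1 : I.card + Tc.card ≤ inc := by omega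
    have h2 : (I.card : ℝ) + Tc.card ≤ inc := by exact_mod_cast h1
    obtain ⟨Q, hQ1, -, hQ3⟩ := hC V Y A hAne (by linarith)
    have h3 := (hG V G XX a g I Tc Ce rt lv par Y hW).2 Q hQ1
    have h4 : (3 * a + 11) * inc ≤ (3 * a + 11) * 84 := Nat.mul_le_mul_left _ hsmall.le
    omega
  · rw [not_lt] at hsmall
    have a1 : (100 : ℝ) ≤ a := by exact_mod_cast ha
    have a2 : (A.card : ℝ) ≤ (3 * a + 11) * inc := by exact_mod_cast hAcard
    have a3 : 3 * (I.card : ℝ) ≤ inc := by exact_mod_cast hI3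
    have a4 : 2 * (Tc.card : ℝ) ≤ inc + 2 := by exact_mod_cast hT2
    have a5 : (84 : ℝ) ≤ inc := by exact_mod_cast hsmall
    have a6 : (1 / (22 * (a : ℝ))) * A.card ≤ inc - I.card - Tc.card := by
      rw [one_div, inv_mul_le_iff₀ (by positivity)]
      have a7 : (13 / 84 : ℝ) * inc ≤ inc - I.card - Tc.card := by linarith
      have a8 : 22 * (a : ℝ) * ((13 / 84 : ℝ) * inc) ≤ 22 * (a : ℝ) * (inc - I.card - Tc.card) :=
        mul_le_mul_of_nonneg_left a7 (by positivity)
      refine a2.trans (le_trans ?_ a8)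
      nlinarith
    linarith

end Pool.Agent.Lib.MP_b6048d_co.F
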