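import Pool.Agent.Lib.MP_b6048d_co.F.SpecF

set_option autoImplicit false

/-!
F13: long cycles in a minimal dense set.
-/

open scoped Classical

namespace Pool.Agent.Lib.MP_b6048d_co.F

namespace LongCycleAux

variable {V : Type*} {G : SimpleGraph V} {S : Set V} {u v x y : V}

lemma chunk {l₁ l₂ l₃ : List V} (h : Pth G S u v (l₁ ++ (l₂ ++ l₃))) (hne : l₂ ≠ []) :
    ∃ p q, Pth G S p q l₂ := by
  obtain ⟨p, t, rfl⟩ := List.exists_cons_of_ne_nil hne
  have h1 := (show Pth G S u v (l₁ ++ p :: (t ++ l₃)) by simpa using h).cut.2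
  rcases List.eq_nil_or_concat (p :: t) with h2 | ⟨t', q, h2⟩
  · exact absurd h2 hne
  · rw [List.concat_eq_append] at h2
    have h3 : p :: (t ++ l₃) = t' ++ q :: l₃ := by
      have : p :: (t ++ l₃) = (p :: t) ++ l₃ := rfl
      rw [this, h2]
      simp
    rw [h3] at h1
    rw [h2]
    exact ⟨p, q, h1.cut.1⟩

/-- The union of the components of `H \ L` which meet `A`. -/
lemma comp_exists (Y : SimpleGraph V) (H : Finset V) (L A : List V) (hA : ∀ x ∈ A, x ∈ H)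
    (hAL : ∀ x ∈ A, x ∉ L) :
    ∃ U : Finset V, U ⊆ H ∧ (∀ x ∈ U, x ∉ L) ∧ (∀ x ∈ nbr Y H U, x ∈ L) ∧ (∀ x ∈ A, x ∈ U) ∧
      ∀ x ∈ U, ∃ a ∈ A, ∃ l, Wk Y ((H \ L.toFinset : Finset V) : Set V) a x l := by
  refine ⟨(H \ L.toFinset).filter (fun x => ∃ a ∈ A, ∃ l,
    Wk Y ((H \ L.toFinset : Finset V) : Set V) a x l), ?_, ?_, ?_, ?_, ?_⟩
  · exact (Finset.filter_subset _ _).trans Finset.sdiff_subset
  · intro x hx hxL
    exact (Finset.mem_sdiff.1 (Finset.mem_filter.1 hx).1).2 (List.mem_toFinset.2 hxL)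
  · intro x hx
    obtain ⟨hxH, hxU, a, ha, hax⟩ := mem_nbr.1 hx
    by_contra hxL
    refine hxU (Finset.mem_filter.2 ⟨?_, ?_⟩)
    · exact Finset.mem_sdiff.2 ⟨hxH, fun h => hxL (List.mem_toFinset.1 h)⟩
    · obtain ⟨_, b, hb, l, hl⟩ := Finset.mem_filter.1 ha
      refine ⟨b, hb, _, hl.concat ?_ hax⟩
      exact Finset.mem_coe.2 (Finset.mem_sdiff.2 ⟨hxH, fun h => hxL (List.mem_toFinset.1 h)⟩)
  · intro x hx
    have hm : x ∈ H \ L.toFinset :=
      Finset.mem_sdiff.2 ⟨hA x hx, fun h => hAL x hx (List.mem_toFinset.1 h)⟩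
    exact Finset.mem_filter.2 ⟨hm, x, hx, [x], Wk.single (by exact_mod_cast hm)⟩
  · intro x hx
    exact (Finset.mem_filter.1 hx).2

end LongCycleAux

open LongCycleAux

theorem longCycle (hL : LongPath) (hP : PathCut) : LongCycle := by
  intro V Y s H ell hGS
  have hell := hGS.big
  have hs : (10 : ℝ) ≤ s := by exact_mod_cast hGS.s_pos
  have hn := hGS.nbig
  set n : ℝ := (H.card : ℝ) with hndef
  have hell0 : 0 < ell := by linarith
  have he2 : (10 : ℝ) ^ 6 ≤ ell ^ 2 := by nlinarith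
  have he2pos : 0 < ell ^ 2 := by positivity
  set X : ℝ := n / ell ^ 2 with hX
  have hXn : X * ell ^ 2 = n := by
    rw [hX]
    field_simp
  -- lower bound for X
  have hXlow : 10 ^ 6 * (s : ℝ) * (ell ^ 2) ^ 3 ≤ X := by
    have h1 : 10 ^ 6 * (s : ℝ) * (ell ^ 2) ^ 3 * ell ^ 2 ≤ X * ell ^ 2 := by
      rw [hXn]
      calc 10 ^ 6 * (s : ℝ) * (ell ^ 2) ^ 3 * ell ^ 2 = 10 ^ 6 * (s : ℝ) * ell ^ 8 := by ring
        _ ≤ n := hn
    exact le_of_mul_le_mul_right h1 he2pos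
  have he23 : ell ^ 2 * (10 : ℝ) ^ 12 ≤ (ell ^ 2) ^ 3 := by
    have h1 : (10 : ℝ) ^ 12 ≤ (ell ^ 2) ^ 2 := by nlinarith
    calc ell ^ 2 * (10 : ℝ) ^ 12 ≤ ell ^ 2 * (ell ^ 2) ^ 2 :=
          mul_le_mul_of_nonneg_left h1 he2pos.le
      _ = (ell ^ 2) ^ 3 := by ring
  have hXbig : 10 ^ 18 * ((s : ℝ) * ell ^ 2) ≤ X := by
    calc 10 ^ 18 * ((s : ℝ) * ell ^ 2) = 10 ^ 6 * (s : ℝ) * (ell ^ 2 * (10 : ℝ) ^ 12) := by ring
      _ ≤ 10 ^ 6 * (s : ℝ) * (ell ^ 2) ^ 3 := mul_le_mul_of_nonneg_left he23 (by positivity)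
      _ ≤ X := hXlow
  have hse : 10 * ell ^ 2 ≤ (s : ℝ) * ell ^ 2 := mul_le_mul_of_nonneg_right hs he2pos.le
  have hX0 : (10 : ℝ) ^ 20 ≤ X := by nlinarith
  set k : ℕ := ⌊n / (40 * ell ^ 2)⌋₊ with hk
  set p : ℕ := ⌈n / (1000 * ell ^ 4)⌉₊ with hp
  have hnk : n / (40 * ell ^ 2) = X / 40 := by
    rw [hX]
    field_simp
  have hnp : n / (1000 * ell ^ 4) = X / (1000 * ell ^ 2) := by
    rw [hX]
    field_simp
  have hk1 : (k : ℝ) ≤ X / 40 := by
    rw [← hnk]
    exact Nat.floor_le (by rw [hnk]; linarith)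
  have hk2 : X / 40 < k + 1 := by
    rw [← hnk]
    exact Nat.lt_floor_add_one _
  have hp1 : X / (1000 * ell ^ 2) ≤ p := by
    rw [← hnp]
    exact Nat.le_ceil _
  have hp2 : (p : ℝ) < X / (1000 * ell ^ 2) + 1 := by
    rw [← hnp]
    exact Nat.ceil_lt_add_one (by rw [hnp]; positivity)
  have hp3 : X / (1000 * ell ^ 2) ≤ X / 10 ^ 9 := by
    apply div_le_div_of_nonneg_left (by linarith) (by norm_num)
    linarith
  have hppos : 1 ≤ p := by
    have : (0 : ℝ) < p := lt_of_lt_of_le (by positivity) hp1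
    exact_mod_cast this
  have hpk : p ≤ k := by
    have : (p : ℝ) ≤ k := by linarith
    exact_mod_cast this
  set q : ℕ := (k - p) / 2 with hq
  have hq1 : k ≤ p + 2 * q + 1 := by omega
  have hq2 : p + 2 * q ≤ k := by omega
  have hqX : X / 100 ≤ q := by
    have h1 : (k : ℝ) ≤ p + 2 * q + 1 := by exact_mod_cast hq1
    linarith
  -- the path
  obtain ⟨u, v, l, hl, hlk⟩ := hL V Y s H ell hGS k (hppos.trans hpk) (by
    have h1 : 40 * ell ^ 2 * (k : ℝ) ≤ 40 * ell ^ 2 * (X / 40) :=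
      mul_le_mul_of_nonneg_left hk1 (by positivity)
    have h2 : 40 * ell ^ 2 * (X / 40) = X * ell ^ 2 := by ring
    rw [h2, hXn] at h1
    exact h1)
  obtain ⟨l₁, l₂, l₃, hll, h1len, h2len, h3len⟩ : ∃ l₁ l₂ l₃ : List V, l = l₁ ++ (l₂ ++ l₃) ∧
      l₁.length = q ∧ l₂.length = p ∧ q ≤ l₃.length := by
    refine ⟨l.take q, (l.drop q).take p, (l.drop q).drop p, ?_, ?_, ?_, ?_⟩
    · rw [List.take_append_drop, List.take_append_drop]
    · rw [List.length_take]; omega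
    · rw [List.length_take, List.length_drop]; omega
    · rw [List.length_drop, List.length_drop]; omega
  have hnd := hl.nodup
  rw [hll] at hl hnd
  have hnd1 := List.nodup_append'.1 hnd
  have hnd2 := List.nodup_append'.1 hnd1.2.1
  have h12 : ∀ x ∈ l₁, x ∉ l₂ := fun x hx hx' =>
    hnd1.2.2 hx (List.mem_append_left _ hx')
  have h13 : ∀ x ∈ l₁, x ∉ l₃ := fun x hx hx' =>
    hnd1.2.2 hx (List.mem_append_right _ hx')
  have h23 : ∀ x ∈ l₃, x ∉ l₂ := fun x hx hx' => hnd2.2.2 hx' hx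
  have hH1 : ∀ x ∈ l₁, x ∈ H := fun x hx => by
    exact_mod_cast hl.mem x (List.mem_append_left _ hx)
  have hH3 : ∀ x ∈ l₃, x ∈ H := fun x hx => by
    exact_mod_cast hl.mem x (List.mem_append_right _ (List.mem_append_right _ hx))
  have hl2ne : l₂ ≠ [] := by
    rintro rfl
    simp at h2len
    omega
  obtain ⟨p₂, q₂, hpth2⟩ := chunk hl hl2ne
  obtain ⟨U₁, hU1H, hU1L, hU1n, hU1A, hU1w⟩ := comp_exists Y H l₂ l₁ hH1 h12
  obtain ⟨U₃, hU3H, hU3L, hU3n, hU3A, hU3w⟩ := comp_exists Y H l₂ l₃ hH3 h23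
  -- a union of components with at most half of the vertices is small
  have hsmall : ∀ (U : Finset V) (A : List V), U ⊆ H → (∀ x ∈ U, x ∉ l₂) →
      (∀ x ∈ nbr Y H U, x ∈ l₂) → (∀ x ∈ A, x ∈ U) → A.Nodup → q ≤ A.length →
      ¬ 2 * U.card ≤ H.card := by
    intro U A hUH hUL hUn hUA hAnd hqA hcard
    have h10 : 10 * l₂.length ≤ H.card := by
      have : (10 : ℝ) * p ≤ n := by
        have : X ≤ n := by
          rw [← hXn]
          have : (1 : ℝ) ≤ ell ^ 2 := by linarith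
          nlinarith
        linarith
      rw [h2len]
      have this2 : (10 : ℝ) * p ≤ (H.card : ℝ) := this
      exact_mod_cast this2
    have hcut := hP V Y s H ell hGS p₂ q₂ l₂ U hpth2 h10 hUH hUL hUn hcard
    have hqU : (q : ℝ) ≤ U.card := by
      have h1 : A.toFinset ⊆ U := fun x hx => hUA x (List.mem_toFinset.1 hx)
      have h2 := Finset.card_le_card h1
      rw [List.toFinset_card_of_nodup hAnd] at h2
      exact_mod_cast hqA.trans h2
    rw [h2len] at hcut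
    have h3 : 3 * ell ^ 2 * ((s : ℝ) + 2 * p) ≤
        3 * ((s : ℝ) * ell ^ 2) + 6 * ell ^ 2 + 6 * (X / 1000) := by
      have h4 : ell ^ 2 * (p : ℝ) ≤ ell ^ 2 * (X / (1000 * ell ^ 2) + 1) :=
        mul_le_mul_of_nonneg_left hp2.le he2pos.le
      have h5 : ell ^ 2 * (X / (1000 * ell ^ 2) + 1) = X / 1000 + ell ^ 2 := by
        field_simp
      rw [h5] at h4
      nlinarith
    linarith
  -- the walk between the two ends
  have hmeet : ∃ a ∈ l₁, ∃ b ∈ l₃, ∃ w, Wk Y ((H \ l₂.toFinset : Finset V) : Set V) a b w := by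
    by_contra hcon
    have hdisj : Disjoint U₁ U₃ := by
      rw [Finset.disjoint_left]
      intro x hx hx'
      obtain ⟨a, ha, w, hw⟩ := hU1w x hx
      obtain ⟨b, hb, w', hw'⟩ := hU3w x hx'
      exact hcon ⟨a, ha, b, hb, _, hw.append hw'.reverse⟩
    have hc : U₁.card + U₃.card ≤ H.card := by
      rw [← Finset.card_union_of_disjoint hdisj]
      exact Finset.card_le_card (Finset.union_subset hU1H hU3H)
    have e1 := hsmall U₁ l₁ hU1H hU1L hU1n hU1A hnd1.1 h1len.ge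
    have e3 := hsmall U₃ l₃ hU3H hU3L hU3n hU3A hnd2.2.1 h3len
    omega
  obtain ⟨a, ha, b, hb, w, hw⟩ := hmeet
  obtain ⟨w', hw', _, _⟩ := hw.toPth
  -- last vertex in l₁
  obtain ⟨A, x, B, hwe, hx, hB⟩ := exists_last (fun z => z ∈ l₁) w' ⟨a, hw'.left_mem, ha⟩
  rw [hwe] at hw'
  have hw2 := hw'.cut.2
  obtain ⟨A', y, B', hwe2, hy, hA'⟩ := exists_first (fun z => z ∈ l₃) (x :: B)
    ⟨b, hw2.right_mem, hb⟩
  have hA'ne : A' ≠ [] := by
    rintro rfl
    simp only [List.nil_append, List.cons.injEq] at hwe2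
    exact h13 x hx (hwe2.1 ▸ hy)
  rw [hwe2] at hw2
  have hR := hw2.cut.1
  -- R meets l only in its ends
  have hxy : x ≠ y := fun h => h13 x hx (h ▸ hy)
  have hRmem : ∀ z ∈ A' ++ [y], z ∈ x :: B := by
    intro z hz
    rw [hwe2]
    simp only [List.mem_append, List.mem_cons, List.mem_singleton, List.not_mem_nil,
      or_false] at hz ⊢
    tauto
  obtain ⟨a₁, b₁, hl1⟩ := List.append_of_mem hx
  obtain ⟨a₃, b₃, hl3⟩ := List.append_of_mem hy
  have hM : Pth Y (H : Set V) x y (x :: (b₁ ++ (l₂ ++ (a₃ ++ [y])))) := by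
    have h1 : Pth Y (H : Set V) u v (a₁ ++ x :: (b₁ ++ (l₂ ++ (a₃ ++ y :: b₃)))) := by
      rw [hl1, hl3] at hl
      simpa using hl
    have h2 := h1.cut.2
    have h3 : x :: (b₁ ++ (l₂ ++ (a₃ ++ y :: b₃))) = (x :: (b₁ ++ (l₂ ++ a₃))) ++ y :: b₃ := by
      simp
    rw [h3] at h2
    have h4 := h2.cut.1
    have h5 : (x :: (b₁ ++ (l₂ ++ a₃))) ++ [y] = x :: (b₁ ++ (l₂ ++ (a₃ ++ [y]))) := by simp
    rwa [h5] at h4
  have hR' : Pth Y (H : Set V) x y (A' ++ [y]) := by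
    refine hR.mono ?_
    intro z hz
    exact_mod_cast (Finset.mem_sdiff.1 (Finset.mem_coe.1 hz)).1
  have hMl : ∀ z ∈ x :: (b₁ ++ (l₂ ++ (a₃ ++ [y]))), z ∈ l₁ ∨ z ∈ l₂ ∨ z ∈ l₃ := by
    intro z hz
    rw [hl1, hl3]
    simp only [List.mem_append, List.mem_cons, List.mem_singleton, List.not_mem_nil,
      or_false] at hz ⊢
    tauto
  obtain ⟨Q, hQ, hQlen, hQmem⟩ := hR'.theta hM (by
    intro z hz hz'
    rcases hMl z hz' with h | h | h
    · have := hRmem z hz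
      rcases List.mem_cons.1 this with h1 | h1
      · exact Or.inl h1
      · exact absurd h (hB z h1)
    · have := hR.mem z hz
      exact absurd (List.mem_toFinset.2 h) (Finset.mem_sdiff.1 (Finset.mem_coe.1 this)).2
    · rcases List.mem_append.1 hz with h1 | h1
      · exact absurd h (hA' z h1)
      · exact Or.inr (List.mem_singleton.1 h1)) (by
    simp only [List.length_append, List.length_cons, List.length_nil]
    omega) hxy
  refine ⟨Q, hQ, ?_, ?_⟩
  · intro z hz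
    rcases (hQmem z).1 hz with h | h
    · exact_mod_cast hR'.mem z h
    · exact_mod_cast hM.mem z h
  · have hA'len : 1 ≤ A'.length := List.length_pos_iff.2 hA'ne
    have hlen : p ≤ Q.length := by
      simp only [List.length_append, List.length_cons, List.length_nil] at hQlen
      omega
    have h1 : X / (1000 * ell ^ 2) ≤ Q.length := hp1.trans (by exact_mod_cast hlen)
    have h2 : 1000 * ell ^ 4 * (X / (1000 * ell ^ 2)) = n := by
      rw [← hXn]
      field_simp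
    rw [← h2]
    exact mul_le_mul_of_nonneg_left h1 (by positivity)

end Pool.Agent.Lib.MP_b6048d_co.F
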