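import Pool.Agent.Lib.MP_b6048d_co.F.SpecF

set_option autoImplicit false

/-!
# F12: long paths in minimal dense sets
-/

open scoped Classical

namespace Pool.Agent.Lib.MP_b6048d_co.F

namespace LongPathAux

variable {V : Type*}

/-- Leaving a set `K` whose outer neighbours are in `l`. -/
lemma exit {Y : SimpleGraph V} {H K : Finset V} {S : Set V} {l : List V} {a b : V} {p : List V}
    (hS : ∀ x ∈ S, x ∈ H) (hK : ∀ x ∈ nbr Y H K, x ∈ l) (hp : Wk Y S a b p) (ha : a ∈ K)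
    (hb : b ∉ K) : ∃ x ∈ K, ∃ y ∈ S, y ∈ l ∧ Y.Adj x y := by
  obtain ⟨a', x, y, b', rfl, hx, hy, hxy, -⟩ := hp.crossing (K : Set V) (by exact_mod_cast ha)
    (by exact_mod_cast hb)
  have hyS : y ∈ S := hp.mem y (by simp)
  have hx' : x ∈ K := by exact_mod_cast hx
  have hy' : y ∉ K := by exact_mod_cast hy
  exact ⟨x, hx', y, hyS, hK y (mem_nbr.2 ⟨hS y hyS, hy', x, hx', hxy⟩), hxy⟩

lemma ind (hG : Giant) (hD : DiamF) {V : Type} {Y : SimpleGraph V} {s : ℕ} {H : Finset V}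
    {ell : ℝ} (hGS : GS Y s H ell) (k : ℕ) (hk : 40 * ell ^ 2 * (k : ℝ) ≤ H.card) :
    ∃ (u v : V) (l : List V) (K : Finset V), Pth Y (H : Set V) u v l ∧ l.length = k + 1 ∧
      K ⊆ H ∧ (∀ x ∈ K, x ∉ l) ∧ Cn Y K ∧ (∀ x ∈ nbr Y H K, x ∈ l) ∧ H.card < 2 * K.card ∧
      ∃ y ∈ K, Y.Adj v y := by
  induction k with
  | zero =>
    obtain ⟨u, hu⟩ := hGS.minD.ne
    have hP : Pth Y (H : Set V) u u [u] := Pth.single (by exact_mod_cast hu)
    obtain ⟨K, hKH, hKl, hKc, hKn, hKb⟩ := hG V Y s H ell hGS u u [u] hP (by simp)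
    have hKne : K.Nonempty := by
      rw [← Finset.card_pos]
      omega
    obtain ⟨y, hy⟩ := hKne
    have huK : u ∉ K := fun h => hKl u h (by simp)
    have h1 := hD V Y s H ell hGS ⌈50 * (s : ℝ) * ell ^ 3⌉₊ (Nat.le_ceil _) y (hKH hy) u hu
    obtain ⟨p, hp, -⟩ := mem_bl_single.1 h1
    obtain ⟨x, hx, z, -, hz, hxz⟩ := exit (fun x hx => by exact_mod_cast hx) hKn hp hy huK
    have hzu : z = u := by simpa using hz
    exact ⟨u, u, [u], K, hP, rfl, hKH, hKl, hKc, hKn, hKb, x, hx, by rw [← hzu]; exact hxz.symm⟩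
  | succ k ih =>
    have hk' : 40 * ell ^ 2 * (k : ℝ) ≤ H.card := by
      refine le_trans ?_ hk
      push_cast
      have : (0 : ℝ) ≤ 40 * ell ^ 2 := by positivity
      nlinarith
    obtain ⟨u, v, l, K, hP, hlen, hKH, hKl, hKc, hKn, hKb, v', hv', hvv'⟩ := ih hk'
    have hP' : Pth Y (H : Set V) u v' (l ++ [v']) :=
      hP.concat (by exact_mod_cast hKH hv') hvv' (hKl v' hv')
    have hlen' : (l ++ [v']).length = k + 1 + 1 := by
      rw [List.length_append, hlen, List.length_singleton]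
    obtain ⟨K', hKH', hKl', hKc', hKn', hKb'⟩ := hG V Y s H ell hGS u v' (l ++ [v']) hP' (by
      rw [hlen']
      push_cast at hk ⊢
      calc 40 * ell ^ 2 * ((k : ℝ) + 1 + 1 - 1) = 40 * ell ^ 2 * ((k : ℝ) + 1) := by ring
        _ ≤ _ := hk)
    have hmeet : ∃ w, w ∈ K ∧ w ∈ K' := by
      by_contra hcon
      push Not at hcon
      have hdis : Disjoint K K' := Finset.disjoint_left.2 hcon
      have h1 := Finset.card_union_of_disjoint hdis
      have h2 := Finset.card_le_card (Finset.union_subset hKH hKH')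
      omega
    obtain ⟨w, hwK, hwK'⟩ := hmeet
    obtain ⟨p, hp⟩ := hKc w hwK v' hv'
    have hv'K' : v' ∉ K' := fun h => hKl' v' h (by simp)
    obtain ⟨x, hx, z, hzK, hz, hxz⟩ := exit (fun x hx => hKH (by exact_mod_cast hx)) hKn' hp hwK' hv'K'
    have hzv : z = v' := by
      rcases List.mem_append.1 hz with h | h
      · exact absurd h (hKl z (by exact_mod_cast hzK))
      · simpa using h
    exact ⟨u, v', l ++ [v'], K', hP', hlen', hKH', hKl', hKc', hKn', hKb', x, hx,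
      by rw [← hzv]; exact hxz.symm⟩

end LongPathAux

open LongPathAux

theorem longPath (hG : Giant) (hD : DiamF) : LongPath := by
  intro V Y s H ell hGS k hk1 hk
  obtain ⟨j, rfl⟩ : ∃ j, k = j + 1 := ⟨k - 1, by omega⟩
  have hj : 40 * ell ^ 2 * (j : ℝ) ≤ H.card := by
    refine le_trans ?_ hk
    push_cast
    have : (0 : ℝ) ≤ 40 * ell ^ 2 := by positivity
    nlinarith
  obtain ⟨u, v, l, K, hP, hlen, -⟩ := ind hG hD hGS j hj
  exact ⟨u, v, l, hP, hlen⟩

end Pool.Agent.Lib.MP_b6048d_co.F
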