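import Pool.Agent.Lib.MP_b6048d_co.F.SpecF

set_option autoImplicit false

open scoped Classical

namespace Pool.Agent.Lib.MP_b6048d_co.F.MuFactsAux

lemma log_ge_one (s x : ℕ) : 1 ≤ Real.log ((x : ℝ) / s + 3) := by
  have h0 : (0 : ℝ) ≤ (x : ℝ) / s := by positivity
  rw [Real.le_log_iff_exp_le (by linarith)]
  have := Real.exp_one_lt_d9
  linarith

lemma log_mono (s a b : ℕ) (h : a ≤ b) :
    Real.log ((a : ℝ) / s + 3) ≤ Real.log ((b : ℝ) / s + 3) := by
  have h0 : (0 : ℝ) ≤ (a : ℝ) / s := by positivity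
  have hab : (a : ℝ) ≤ b := by exact_mod_cast h
  have h1 : (a : ℝ) / s ≤ (b : ℝ) / s := by gcongr
  exact Real.log_le_log (by linarith) (by linarith)

lemma part4 (s n : ℕ) (ell : ℝ) (hs : 1 ≤ s) (he : ell = Real.log ((n : ℝ) / s + 3))
    (hb : 1000 ≤ ell) : 10 ^ 6 * (s : ℝ) * ell ^ 8 ≤ n := by
  have hs0 : (0 : ℝ) < s := by exact_mod_cast hs
  have h0 : (0 : ℝ) ≤ (n : ℝ) / s := by positivity
  have hexp : Real.exp ell = (n : ℝ) / s + 3 := by
    rw [he, Real.exp_log (by linarith)]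
  have h1 := Real.pow_div_factorial_le_exp ell (by linarith) 16
  have hf : ((Nat.factorial 16 : ℕ) : ℝ) = 20922789888000 := by norm_num [Nat.factorial]
  rw [hf, div_le_iff₀ (by norm_num)] at h1
  have h8 : (1000 : ℝ) ^ 8 ≤ ell ^ 8 := by gcongr
  have h8' : (0 : ℝ) ≤ ell ^ 8 := by positivity
  have h2 : ell ^ 16 = ell ^ 8 * ell ^ 8 := by ring
  have h3 : (1000 : ℝ) ^ 8 * ell ^ 8 ≤ ell ^ 8 * ell ^ 8 := by
    exact mul_le_mul_of_nonneg_right h8 h8'
  have h4 : 10 ^ 6 * ell ^ 8 + 3 ≤ Real.exp ell := by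
    norm_num at h3 h8 ⊢
    nlinarith [h3, h8, h1, h2]
  have h5 : 10 ^ 6 * ell ^ 8 ≤ (n : ℝ) / s := by linarith
  rw [le_div_iff₀ hs0] at h5
  linarith

lemma part3 (s : ℕ) (hs : 1 ≤ s) (m n : ℕ) (ell : ℝ) (hmn : m ≤ n)
    (hl : Real.log ((n : ℝ) / s + 3) ≤ ell) :
    (1 / (s : ℝ)) * (((n : ℝ) - m) / (n + 3 * s)) / ell ^ 2 ≤ mu s n - mu s m := by
  have hs0 : (0 : ℝ) < s := by exact_mod_cast hs
  have hmn' : (m : ℝ) ≤ n := by exact_mod_cast hmn
  have hm0 : (0 : ℝ) ≤ (m : ℝ) / s := by positivity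
  have hn0 : (0 : ℝ) ≤ (n : ℝ) / s := by positivity
  have hLm := log_ge_one s m
  have hLn := log_ge_one s n
  have hLmn := log_mono s m n hmn
  set a : ℝ := Real.log ((m : ℝ) / s + 3) with ha
  set b : ℝ := Real.log ((n : ℝ) / s + 3) with hb
  have hdiff : mu s n - mu s m = (1 / (s : ℝ)) * ((b - a) / (a * b)) := by
    unfold mu
    rw [← ha, ← hb]
    have ha0 : a ≠ 0 := by linarith
    have hb0 : b ≠ 0 := by linarith
    field_simp
    ring
  rw [hdiff, mul_div_assoc]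
  apply mul_le_mul_of_nonneg_left _ (by positivity)
  -- log difference
  have hlog : ((n : ℝ) - m) / (n + 3 * s) ≤ b - a := by
    have hx : 0 < ((m : ℝ) / s + 3) / ((n : ℝ) / s + 3) := by positivity
    have h1 := Real.log_le_sub_one_of_pos hx
    rw [Real.log_div (by positivity) (by positivity)] at h1
    have h2 : ((n : ℝ) - m) / (n + 3 * s) = 1 - ((m : ℝ) / s + 3) / ((n : ℝ) / s + 3) := by
      have : (n : ℝ) + 3 * s ≠ 0 := by positivity
      have h3 : (n : ℝ) / s + 3 ≠ 0 := by positivity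
      field_simp
      ring
    rw [h2]
    linarith
  have hnum : 0 ≤ ((n : ℝ) - m) / (n + 3 * s) := by
    apply div_nonneg (by linarith) (by positivity)
  have hab : a * b ≤ ell ^ 2 := by
    nlinarith
  have hab0 : 0 < a * b := by positivity
  calc ((n : ℝ) - m) / (n + 3 * s) / ell ^ 2 ≤ ((n : ℝ) - m) / (n + 3 * s) / (a * b) := by
        gcongr
    _ ≤ (b - a) / (a * b) := by gcongr

end Pool.Agent.Lib.MP_b6048d_co.F.MuFactsAux

namespace Pool.Agent.Lib.MP_b6048d_co.F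

theorem muFacts : MuFacts := by
  refine ⟨fun s hs => ⟨fun x => ?_, fun a b hab => ?_, fun m n ell hmn hl =>
    MuFactsAux.part3 s hs m n ell hmn hl⟩, MuFactsAux.part4⟩
  · have hs0 : (0 : ℝ) < s := by exact_mod_cast hs
    have h := MuFactsAux.log_ge_one s x
    have h1 : 1 / Real.log ((x : ℝ) / s + 3) ≤ 1 := by
      rw [div_le_one (by linarith)]; exact h
    have h2 : 0 ≤ 1 / Real.log ((x : ℝ) / s + 3) := by
      apply div_nonneg <;> linarith
    have h3 : (0 : ℝ) < 1 / s := by positivity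
    unfold mu
    constructor
    · nlinarith
    · have : (2 : ℝ) / s = 1 / s * 2 := by ring
      rw [this]
      nlinarith
  · have hs0 : (0 : ℝ) < s := by exact_mod_cast hs
    have ha := MuFactsAux.log_ge_one s a
    have hab' := MuFactsAux.log_mono s a b hab
    have h3 : (0 : ℝ) < 1 / s := by positivity
    have h4 : 1 / Real.log ((b : ℝ) / s + 3) ≤ 1 / Real.log ((a : ℝ) / s + 3) := by
      apply one_div_le_one_div_of_le <;> linarith
    unfold mu
    have : (1 : ℝ) / s * (2 - 1 / Real.log ((a : ℝ) / s + 3)) ≤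
        1 / s * (2 - 1 / Real.log ((b : ℝ) / s + 3)) :=
      mul_le_mul_of_nonneg_left (by linarith) h3.le
    linarith

end Pool.Agent.Lib.MP_b6048d_co.F
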