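import Pool.Agent.Lib.MP_b6048d_co.F.SpecF

set_option autoImplicit false

/-!
F10: a path cuts off only few vertices.
-/

open scoped Classical

namespace Pool.Agent.Lib.MP_b6048d_co.F.PathCutAux

variable {V : Type}

/-- A path with `k` vertices has at least `k - 1` edges. -/
lemma ed_path {Y : SimpleGraph V} (l : List V) (hc : l.IsChain Y.Adj) (hn : l.Nodup) :
    (l.length : ℝ) - 1 ≤ ed Y l.toFinset := by
  induction l with
  | nil =>
    have := ed_nonneg (Γ := Y) (A := (([] : List V).toFinset))
    simp only [List.length_nil, Nat.cast_zero]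
    linarith
  | cons x t ih =>
    rw [List.nodup_cons] at hn
    cases t with
    | nil =>
      have := ed_nonneg (Γ := Y) (A := (([x] : List V).toFinset))
      simp only [List.length_cons, List.length_nil, zero_add, Nat.cast_one]
      linarith
    | cons y t =>
      rw [List.isChain_cons_cons] at hc
      have h1 := ih hc.2 hn.2
      have hx : x ∉ (y :: t).toFinset := by
        rw [List.mem_toFinset]
        exact hn.1
      rw [List.toFinset_cons, ed_insert hx]
      have h2 : 1 ≤ dg Y (y :: t).toFinset x := by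
        unfold dg
        apply Finset.card_pos.2
        refine ⟨y, Finset.mem_filter.2 ⟨?_, hc.1⟩⟩
        rw [List.mem_toFinset]
        exact List.mem_cons_self
      have h3 : (1 : ℝ) ≤ dg Y (y :: t).toFinset x := by exact_mod_cast h2
      rw [List.length_cons]
      push_cast
      linarith

end Pool.Agent.Lib.MP_b6048d_co.F.PathCutAux

namespace Pool.Agent.Lib.MP_b6048d_co.F

open PathCutAux

theorem pathCut (hM : MuFacts) : PathCut := by
  intro V Y s H ell hG u v l U hl hlen hUH hUl hnbr hU2
  obtain ⟨hM1, -⟩ := hM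
  obtain ⟨hb, hmono, hdiff⟩ := hM1 s (by have := hG.s_pos; omega)
  set P := l.toFinset with hP
  have hPcard : P.card = l.length := List.toFinset_card_of_nodup hl.nodup
  have hdis : Disjoint U P := by
    rw [Finset.disjoint_left]
    intro x hx hx'
    exact hUl x hx (List.mem_toFinset.1 hx')
  have hcard : (U ∪ P).card = U.card + P.card := Finset.card_union_of_disjoint hdis
  have hpos : 1 ≤ l.length := hl.toWk.length_pos
  have hlt : (U ∪ P).card < H.card := by
    rw [hcard, hPcard]
    omega
  have hun : U ∪ nbr Y H U ∪ P = U ∪ P := by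
    ext x
    simp only [Finset.mem_union]
    constructor
    · rintro ((h | h) | h)
      · exact Or.inl h
      · exact Or.inr (List.mem_toFinset.2 (hnbr x h))
      · exact Or.inr h
    · rintro (h | h)
      · exact Or.inl (Or.inl h)
      · exact Or.inr h
  have h1 := ed_touch (Γ := Y) hUH hdis
  rw [hun] at h1
  have h2 := hG.minD.le hlt
  have h3 := ed_path l hl.chain hl.nodup
  have h4 := hG.minD.touch hmono hUH
  have h5 := (hb (U ∪ P).card).2
  rw [← hP, ← hPcard] at h3
  have hs : (10 : ℝ) ≤ s := by exact_mod_cast hG.s_pos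
  have hspos : (0 : ℝ) < s := by linarith
  have hell : (1000 : ℝ) ≤ ell := hG.big
  have hellpos : (0 : ℝ) < ell := by linarith
  set m : ℝ := ((U ∪ P).card : ℝ) with hm
  have hm' : m = U.card + P.card := by
    rw [hm, hcard]
    push_cast
    rfl
  have hU2' : 2 * (U.card : ℝ) ≤ H.card := by exact_mod_cast hU2
  have hP10 : 10 * (P.card : ℝ) ≤ H.card := by
    rw [hPcard]
    exact_mod_cast hlen
  have hn15 : 15 * (s : ℝ) ≤ H.card := by
    refine le_trans ?_ hG.nbig
    have h6 : (1 : ℝ) ≤ ell ^ 8 := one_le_pow₀ (by linarith)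
    nlinarith [mul_le_mul_of_nonneg_left h6 hspos.le]
  have h6 := hdiff (U ∪ P).card H.card ell hlt.le hG.ell_def.symm.le
  rw [← hm] at h6
  -- the quotient
  have h7 : (1 : ℝ) / 3 ≤ ((H.card : ℝ) - m) / (H.card + 3 * s) := by
    rw [div_le_div_iff₀ (by norm_num) (by linarith)]
    linarith
  have h8 : 1 / (s : ℝ) * (1 / 3) / ell ^ 2 ≤ mu s H.card - mu s (U ∪ P).card := by
    refine le_trans ?_ h6
    apply div_le_div_of_nonneg_right _ (by positivity)
    exact mul_le_mul_of_nonneg_left h7 (by positivity)
  -- main inequality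
  have hP0 : (0 : ℝ) ≤ P.card := Nat.cast_nonneg _
  have hU0 : (0 : ℝ) ≤ U.card := Nat.cast_nonneg _
  have h9 : (mu s H.card - mu s (U ∪ P).card) * U.card ≤ 2 / s * P.card + 1 := by
    have h10 : (mu s (U ∪ P).card - 1) * P.card ≤ 2 / s * P.card :=
      mul_le_mul_of_nonneg_right (by linarith) hP0
    rw [hm'] at h2
    nlinarith
  have h11 : 1 / (s : ℝ) * (1 / 3) / ell ^ 2 * U.card ≤ 2 / s * P.card + 1 :=
    (mul_le_mul_of_nonneg_right h8 hU0).trans h9
  have h12 : (U.card : ℝ) = (3 * s * ell ^ 2) * (1 / (s : ℝ) * (1 / 3) / ell ^ 2 * U.card) := by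
    field_simp
  rw [h12, ← hPcard]
  calc (3 * s * ell ^ 2) * (1 / (s : ℝ) * (1 / 3) / ell ^ 2 * U.card) ≤
        (3 * s * ell ^ 2) * (2 / s * P.card + 1) :=
        mul_le_mul_of_nonneg_left h11 (by positivity)
    _ = 3 * ell ^ 2 * (s + 2 * P.card) := by
        field_simp
        ring

end Pool.Agent.Lib.MP_b6048d_co.F
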