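import Pool.Agent.Lib.MP_b6048d_co.F.SpecF

set_option autoImplicit false

/-!
F18 `Runs`: the vertices and edges of a cycle in one block.
-/

open scoped Classical

namespace Pool.Agent.Lib.MP_b6048d_co.F

namespace RunsAux

/-- the start of the run containing the vertex `k` -/
noncomputable def st (Ep : ℕ → Prop) : ℕ → ℕ
  | 0 => 0
  | k + 1 => if Ep k then st Ep k else k + 1

lemma st_le (Ep : ℕ → Prop) (k : ℕ) : st Ep k ≤ k := by
  induction k with
  | zero => exact le_rfl
  | succ k ih =>
    unfold st
    split_ifs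
    · omega
    · exact le_rfl

lemma st_run (Ep : ℕ → Prop) (k : ℕ) : ∀ t, st Ep k ≤ t → t < k → Ep t := by
  induction k with
  | zero => intro t _ h; omega
  | succ k ih =>
    intro t h1 h2
    unfold st at h1
    split_ifs at h1 with h3
    · rcases Nat.lt_or_ge t k with h4 | h4
      · exact ih t h1 h4
      · have : t = k := by omega
        rw [this]; exact h3
    · omega

lemma st_start (Ep : ℕ → Prop) (k j : ℕ) (h : st Ep k = j + 1) : ¬ Ep j := by
  induction k with
  | zero => unfold st at h; omega
  | succ k ih =>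
    unfold st at h
    split_ifs at h with h3
    · exact ih h
    · have : j = k := by omega
      rw [this]; exact h3

/-- the linear statement -/
lemma lin (n d : ℕ) (Vp Ep : ℕ → Prop)
    (hE : ∀ k, k < n → Ep k → Vp k ∧ k + 1 < n ∧ Vp (k + 1))
    (hrun : ∀ i j, i ≤ j → (∀ t, i ≤ t → t < j → Ep t) → j < n → j - i ≤ d)
    (hne : ((Finset.range n).filter Ep).Nonempty) :
    ((Finset.range n).filter Ep).card + 1 ≤ ((Finset.range n).filter Vp).card ∧
    ((Finset.range n).filter Ep).card ≤
      d * (((Finset.range n).filter Vp).card - ((Finset.range n).filter Ep).card) ∧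
    (((Finset.range n).filter Vp).card = ((Finset.range n).filter Ep).card + 1 →
      ∃ i m, 1 ≤ m ∧ i + m < n ∧ m ≤ d ∧ (∀ t, t < m → Ep (i + t)) ∧
        (∀ t, t ≤ m → Vp (i + t)) ∧ ∀ k, k < n → (k < i ∨ i + m < k) → ¬ Vp k) := by
  set ES := (Finset.range n).filter Ep with hES
  set VS := (Finset.range n).filter Vp with hVS
  have mE : ∀ k, k ∈ ES ↔ k < n ∧ Ep k := fun k => by
    rw [hES, Finset.mem_filter, Finset.mem_range]
  have mV : ∀ k, k ∈ VS ↔ k < n ∧ Vp k := fun k => by
    rw [hVS, Finset.mem_filter, Finset.mem_range]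
  set S := VS \ ES.image Nat.succ with hS
  have hsub : ES.image Nat.succ ⊆ VS := by
    intro k hk
    rw [Finset.mem_image] at hk
    obtain ⟨j, hj, rfl⟩ := hk
    obtain ⟨hj1, hj2⟩ := (mE j).1 hj
    obtain ⟨-, h2, h3⟩ := hE j hj1 hj2
    exact (mV _).2 ⟨h2, h3⟩
  have hcS : S.card + ES.card = VS.card := by
    rw [hS, ← Finset.card_image_of_injective ES Nat.succ_injective]
    exact Finset.card_sdiff_add_card_eq_card hsub
  have hst : ∀ k ∈ ES, st Ep k ∈ S := by
    intro k hk
    obtain ⟨hk1, hk2⟩ := (mE k).1 hk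
    have h1 := st_le Ep k
    rw [hS, Finset.mem_sdiff]
    constructor
    · rw [mV]
      refine ⟨by omega, ?_⟩
      rcases Nat.lt_or_ge (st Ep k) k with h2 | h2
      · exact (hE _ (by omega) (st_run Ep k _ le_rfl h2)).1
      · have h3 : st Ep k = k := by omega
        rw [h3]
        exact (hE k hk1 hk2).1
    · intro h2
      rw [Finset.mem_image] at h2
      obtain ⟨j, hj, hj'⟩ := h2
      exact st_start Ep k j hj'.symm ((mE j).1 hj).2
  have hrunk : ∀ k ∈ ES, k + 1 - st Ep k ≤ d := by
    intro k hk
    obtain ⟨hk1, hk2⟩ := (mE k).1 hk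
    have h1 := st_le Ep k
    refine hrun (st Ep k) (k + 1) (by omega) ?_ (hE k hk1 hk2).2.1
    intro t ht1 ht2
    rcases Nat.lt_or_ge t k with h2 | h2
    · exact st_run Ep k t ht1 h2
    · have h3 : t = k := by omega
      rw [h3]; exact hk2
  have hS1 : 1 ≤ S.card := by
    obtain ⟨k, hk⟩ := hne
    exact Finset.card_pos.2 ⟨_, hst k hk⟩
  refine ⟨by omega, ?_, ?_⟩
  · have h1 : VS.card - ES.card = S.card := by omega
    rw [h1]
    refine Finset.card_le_mul_card_image_of_maps_to hst d ?_
    intro a _
    calc (ES.filter (fun k => st Ep k = a)).card ≤ (Finset.Ico a (a + d)).card := by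
          refine Finset.card_le_card ?_
          intro k hk
          rw [Finset.mem_filter] at hk
          have h2 := hrunk k hk.1
          have h3 := st_le Ep k
          rw [hk.2] at h2 h3
          rw [Finset.mem_Ico]
          omega
      _ = d := by rw [Nat.card_Ico]; omega
  · intro h1
    have h2 : S.card = 1 := by omega
    obtain ⟨i, hi⟩ := Finset.card_eq_one.1 h2
    have hsti : ∀ k ∈ ES, st Ep k = i := by
      intro k hk
      have := hst k hk
      rw [hi, Finset.mem_singleton] at this
      exact this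
    set K := ES.max' hne with hK
    have hKE : K ∈ ES := Finset.max'_mem _ _
    obtain ⟨hK1, hK2⟩ := (mE K).1 hKE
    have hKi := hsti K hKE
    have h3 := st_le Ep K
    rw [hKi] at h3
    have h4 := hE K hK1 hK2
    have h5 := hrunk K hKE
    rw [hKi] at h5
    have hEp : ∀ t, i ≤ t → t ≤ K → Ep t := by
      intro t ht1 ht2
      rcases Nat.lt_or_ge t K with h6 | h6
      · exact st_run Ep K t (by rw [hKi]; exact ht1) h6
      · have h7 : t = K := by omega
        rw [h7]; exact hK2
    refine ⟨i, K + 1 - i, by omega, by omega, h5, ?_, ?_, ?_⟩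
    · intro t ht
      exact hEp _ (by omega) (by omega)
    · intro t ht
      rcases Nat.lt_or_ge (i + t) (K + 1) with h6 | h6
      · exact (hE _ (by omega) (hEp _ (by omega) (by omega))).1
      · have h7 : i + t = K + 1 := by omega
        rw [h7]; exact h4.2.2
    · intro k hk hki hVk
      have h6 : k ∈ VS := (mV k).2 ⟨hk, hVk⟩
      by_cases h7 : k ∈ ES.image Nat.succ
      · rw [Finset.mem_image] at h7
        obtain ⟨j, hj, rfl⟩ := h7
        have h8 := st_le Ep j
        rw [hsti j hj] at h8
        have h9 : j ≤ K := Finset.le_max' _ _ hj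
        simp only [Nat.succ_eq_add_one] at hki
        omega
      · have h8 : k ∈ S := by rw [hS, Finset.mem_sdiff]; exact ⟨h6, h7⟩
        rw [hi, Finset.mem_singleton] at h8
        omega

/-- shifting a periodic predicate does not change the number of its elements in a period -/
lemma card_shift (n s : ℕ) (p : ℕ → Prop) (hp : ∀ k, p (k + n) ↔ p k) :
    ((Finset.range n).filter (fun k => p (s + k))).card = ((Finset.range n).filter p).card := by
  have h1 : Function.Periodic p n := fun k => propext (hp k)
  have h2 := Nat.filter_Ico_card_eq_of_periodic s n p h1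
  rw [Nat.count_eq_card_filter_range] at h2
  rw [← h2]
  refine Finset.card_nbij' (fun k => s + k) (fun k => k - s) ?_ ?_ ?_ ?_
  · intro k hk
    simp only [Finset.coe_filter, Finset.mem_range, Finset.mem_Ico, Set.mem_ofPred_eq] at hk ⊢
    exact ⟨⟨by omega, by omega⟩, hk.2⟩
  · intro k hk
    simp only [Finset.coe_filter, Finset.mem_range, Finset.mem_Ico, Set.mem_ofPred_eq] at hk ⊢
    refine ⟨by omega, ?_⟩
    rw [show s + (k - s) = k by omega]
    exact hk.2
  · intro k hk
    simp
  · intro k hk
    simp only [Finset.coe_filter, Finset.mem_range, Finset.mem_Ico, Set.mem_ofPred_eq] at hk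
    simp only
    omega

variable {V : Type}

lemma arc_pth (hC : CycConv) {Y T : SimpleGraph V} {n : ℕ} {z : ℕ → V} (hz : CycF Y n z)
    (i m : ℕ) (hm : m < n) (hT : ∀ t, t < m → T.Adj (z (i + t)) (z (i + t + 1))) :
    Pth T Set.univ (z i) (z (i + m)) (arcL z i m) := by
  have h := hC.2.1 V Y n z hz i m hm
  refine ⟨⟨?_, h.head, h.last, fun x _ => Set.mem_univ x⟩, h.nodup⟩
  unfold arcL
  rw [List.isChain_map]
  exact (List.isChain_range_succ _ m).2 fun t ht => hT t ht

lemma not_all (hC : CycConv) {Y T : SimpleGraph V} {n : ℕ} {z : ℕ → V} (hz : CycF Y n z)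
    (hT : ∀ Q, ¬ IsCyc T Q) : ∃ k, k < n ∧ ¬ T.Adj (z k) (z (k + 1)) := by
  by_contra hcon
  have hcon' : ∀ k, k < n → T.Adj (z k) (z (k + 1)) := by
    intro k hk
    by_contra h
    exact hcon ⟨k, hk, h⟩
  have h3 := hz.three
  have h1 := arc_pth hC hz (T := T) 0 (n - 1) (by omega) (fun t ht => by
    rw [zero_add]
    exact hcon' t (by omega))
  have h2 : T.Adj (z (0 + (n - 1))) (z 0) := by
    have h4 := hcon' (n - 1) (by omega)
    rw [zero_add]
    rw [show n - 1 + 1 = 0 + n by omega, hz.per] at h4
    exact h4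
  refine hT _ (h1.close h2 ?_)
  unfold arcL
  rw [List.length_map, List.length_range]
  omega

end RunsAux

open RunsAux in
theorem runs (hC : CycConv) : Runs := by
  intro V Y T X n d z hz hTX hTcyc hTlen hne
  obtain ⟨k0, hk0, hk0T⟩ := not_all hC hz hTcyc
  have hn3 := hz.three
  set s := k0 + 1 with hs
  set z' : ℕ → V := fun k => z (s + k) with hz'
  have hcyc' : CycF Y n z' := (hC.2.2 V Y n z hz s).1
  have hper : ∀ k, z' (k + n) = z' k := hcyc'.per
  have hlast : ¬ T.Adj (z' (n - 1)) (z' (n - 1 + 1)) := by
    rw [hz']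
    simp only
    have e1 : s + (n - 1) = k0 + n := by omega
    have e2 : s + (n - 1 + 1) = k0 + 1 + n := by omega
    rw [e1, e2, hz.per, hz.per]
    exact hk0T
  have hcE : ((Finset.range n).filter (fun k => T.Adj (z' k) (z' (k + 1)))).card =
      (EX n z T).card := by
    have := card_shift n s (fun k => T.Adj (z k) (z (k + 1))) (fun k => by
      have e1 : k + n + 1 = k + 1 + n := by omega
      rw [e1, hz.per, hz.per])
    exact this
  have hcV : ((Finset.range n).filter (fun k => z' k ∈ X)).card = (VX n z X).card := by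
    have := card_shift n s (fun k => z k ∈ X) (fun k => by rw [hz.per])
    exact this
  have hlen : ∀ i m, m < n → (∀ t, t < m → T.Adj (z' (i + t)) (z' (i + t + 1))) → m ≤ d := by
    intro i m hm h
    have h1 := arc_pth hC hcyc' i m hm h
    have h2 := hTlen _ _ _ h1
    unfold arcL at h2
    rw [List.length_map, List.length_range] at h2
    omega
  have hlin := lin n d (fun k => z' k ∈ X) (fun k => T.Adj (z' k) (z' (k + 1)))
    (by
      intro k hk hEk
      have h1 := hTX _ _ hEk
      refine ⟨h1.1, ?_, h1.2⟩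
      by_contra hge
      have h2 : k = n - 1 := by omega
      rw [h2] at hEk
      exact hlast hEk)
    (by
      intro i j hij h hj
      refine hlen i (j - i) (by omega) ?_
      intro t ht
      exact h (i + t) (by omega) (by omega))
    (by
      rw [← Finset.card_pos, hcE, Finset.card_pos]
      exact hne)
  rw [hcE, hcV] at hlin
  obtain ⟨h1, h2, h3⟩ := hlin
  refine ⟨h1, h2, fun h4 => ?_⟩
  obtain ⟨i, m, hm1, him, hmd, hE, hV, hout⟩ := h3 h4
  have hzi : ∀ t, z ((s + i) % n + t) = z' (i + t) := by
    intro t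
    rw [hz']
    simp only
    rw [((hC.2.2 V Y n z hz 0).2.2 ((s + i) % n + t) (s + (i + t)))]
    rw [Nat.mod_add_mod, add_assoc]
  have harc : arcL z ((s + i) % n) m = arcL z' i m := by
    unfold arcL
    refine List.map_congr_left ?_
    intro t _
    exact hzi t
  refine ⟨(s + i) % n, Nat.mod_lt _ (by omega), m, hm1, by omega, hmd, ?_, ?_, ?_⟩
  · have h5 := arc_pth hC hcyc' i m (by omega) hE
    rw [harc, hzi m]
    have h6 := hzi 0
    rw [add_zero, add_zero] at h6
    rw [h6]
    exact h5
  · intro t ht
    rw [hzi t]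
    exact hV t ht
  · intro t ht1 ht2
    rw [hzi t]
    rcases Nat.lt_or_ge (i + t) n with h5 | h5
    · exact hout (i + t) h5 (Or.inr (by omega))
    · have h6 : z' (i + t) = z' (i + t - n) := by
        rw [← hper (i + t - n)]
        congr 1
        omega
      rw [h6]
      exact hout (i + t - n) (by omega) (Or.inl (by omega))

end Pool.Agent.Lib.MP_b6048d_co.F
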