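import Pool.Agent.Lib.MP_b6048d_co.F.SpecF

/-!
# F07: a minimal dense set of a graph of large girth is large
-/

set_option autoImplicit false

open scoped Classical

namespace Pool.Agent.Lib.MP_b6048d_co.F

namespace SizeLowerAux

variable {V : Type}

/-- A ball of small radius in a graph of large girth spans a tree. -/
lemma ball_edges {Y : SimpleGraph V} {H : Finset V} {v : V} (hv : v ∈ H) {i g : ℕ}
    (hg : 2 * i + 1 ≤ g) (hgirth : ∀ Q, IsCyc Y Q → g < Q.length) :
    ed Y (bl Y H {v} i) ≤ (bl Y H {v} i).card - 1 := by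
  set B := bl Y H {v} i with hB
  have hvB : v ∈ B := self_mem_bl hv
  have hpar : ∀ x, x ∈ B → x ≠ v → ∃ a, ∃ j, j < i ∧ a ∈ bl Y H {v} j ∧ Y.Adj a x ∧
      x ∉ bl Y H {v} j := by
    intro x hx hxv
    have hex : ∃ j, x ∈ bl Y H {v} j := ⟨i, hx⟩
    have h1 := Nat.find_spec hex
    have h2 : Nat.find hex ≤ i := Nat.find_min' hex hx
    rcases Nat.eq_zero_or_pos (Nat.find hex) with h0 | h0
    · rw [h0] at h1
      have h3 := (mem_bl_zero.1 h1).1
      exact absurd (Finset.mem_singleton.1 h3) hxv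
    · obtain ⟨j, hj⟩ := Nat.exists_eq_succ_of_ne_zero h0.ne'
      have h4 : x ∉ bl Y H {v} j := Nat.find_min hex (by omega)
      rw [hj] at h1
      rcases Finset.mem_union.1 h1 with h5 | h5
      · exact absurd h5 h4
      · obtain ⟨-, -, a, ha, hax⟩ := mem_nbr.1 h5
        exact ⟨a, j, by omega, ha, hax, h4⟩
  choose! p lv hlt hpm hpa hpn using hpar
  let T : SimpleGraph V := SimpleGraph.fromRel (fun a b => a ∈ B ∧ a ≠ v ∧ p a = b)
  have hTY : T ≤ Y := by
    intro a b hab
    rw [SimpleGraph.fromRel_adj] at hab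
    rcases hab.2 with ⟨h1, h2, h3⟩ | ⟨h1, h2, h3⟩
    · rw [← h3]
      exact (hpa a h1 h2).symm
    · rw [← h3]
      exact hpa b h1 h2
  have hwalk : ∀ j ≤ i, ∀ x ∈ bl Y H {v} j, ∃ l, Wk T (B : Set V) v x l ∧ l.length ≤ j + 1 := by
    intro j
    induction j with
    | zero =>
      intro _ x hx
      have h1 := Finset.mem_singleton.1 (mem_bl_zero.1 hx).1
      subst h1
      exact ⟨[x], Wk.single (by exact_mod_cast hvB), by simp⟩
    | succ j ih =>
      intro hj x hx
      by_cases hxv : x = v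
      · subst hxv
        exact ⟨[x], Wk.single (by exact_mod_cast hvB), by simp⟩
      · have hxB : x ∈ B := bl_mono hj hx
        have h1 : lv x ≤ j := by
          by_contra hcon
          exact hpn x hxB hxv (bl_mono (by omega) hx)
        obtain ⟨l, hl, hlen⟩ := ih (by omega) (p x) (bl_mono h1 (hpm x hxB hxv))
        refine ⟨l ++ [x], hl.concat (by exact_mod_cast hxB) ?_, by
          rw [List.length_append, List.length_singleton]; omega⟩
        rw [SimpleGraph.fromRel_adj]
        exact ⟨(hpa x hxB hxv).ne, Or.inr ⟨hxB, hxv, rfl⟩⟩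
  have hedge : ∀ x ∈ B, ∀ y ∈ B, Y.Adj x y → (x ≠ v ∧ p x = y) ∨ (y ≠ v ∧ p y = x) := by
    intro x hx y hy hxy
    by_contra hcon
    push Not at hcon
    obtain ⟨l, hl, hlen⟩ := hwalk i le_rfl x hx
    obtain ⟨l', hl', hlen'⟩ := hwalk i le_rfl y hy
    obtain ⟨q, hq, -, hqlen⟩ := (hl.reverse.append hl').toPth
    have h1 := hl.reverse.append_length hl'
    rw [List.length_reverse] at h1
    have h2 : 2 ≤ q.length := hq.two_le hxy.ne
    have h3 : 3 ≤ q.length := by
      by_contra h3
      have h4 : q.length = 2 := by omega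
      obtain ⟨t, rfl⟩ := hq.toWk.exists_cons
      rcases t with _ | ⟨b, _ | ⟨c, t⟩⟩
      · simp at h4
      · have h5 : b = y := by simpa using hq.last
        subst h5
        have h6 : T.Adj x b := by simpa using hq.chain
        rw [SimpleGraph.fromRel_adj] at h6
        rcases h6.2 with ⟨-, h7, h8⟩ | ⟨-, h7, h8⟩
        · exact hcon.1 h7 h8
        · exact hcon.2 h7 h8
      · simp at h4
    have h5 := hgirth q ((hq.monoG hTY).close hxy.symm h3)
    omega
  have hdg : ∀ x ∈ B, dg Y B x ≤ (if x ≠ v then 1 else 0)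
      + ((B.erase v).filter (fun y => p y = x)).card := by
    intro x hx
    unfold dg
    have hsub : B.filter (fun w => Y.Adj x w)
        ⊆ (if x ≠ v then {p x} else ∅) ∪ (B.erase v).filter (fun y => p y = x) := by
      intro y hy
      obtain ⟨hyB, hxy⟩ := Finset.mem_filter.1 hy
      rcases hedge x hx y hyB hxy with ⟨h1, h2⟩ | ⟨h1, h2⟩
      · apply Finset.mem_union_left
        rw [if_pos h1, Finset.mem_singleton]
        exact h2.symm
      · apply Finset.mem_union_right
        exact Finset.mem_filter.2 ⟨Finset.mem_erase.2 ⟨h1, hyB⟩, h2⟩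
    refine (Finset.card_le_card hsub).trans ((Finset.card_union_le _ _).trans ?_)
    apply Nat.add_le_add_right
    by_cases h1 : x ≠ v
    · simp [h1]
    · simp [h1]
  have hcard : (B.erase v).card + 1 = B.card := Finset.card_erase_add_one hvB
  have hsum : ∑ x ∈ B, dg Y B x ≤ 2 * (B.erase v).card := by
    calc ∑ x ∈ B, dg Y B x ≤ ∑ x ∈ B, ((if x ≠ v then 1 else 0)
          + ((B.erase v).filter (fun y => p y = x)).card) := Finset.sum_le_sum hdg
      _ = (B.filter (fun x => x ≠ v)).card
          + ∑ x ∈ B, ((B.erase v).filter (fun y => p y = x)).card := by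
          rw [Finset.sum_add_distrib, Finset.card_filter]
      _ ≤ (B.erase v).card + (B.erase v).card := by
          apply Nat.add_le_add
          · apply Finset.card_le_card
            intro x hx
            obtain ⟨h1, h2⟩ := Finset.mem_filter.1 hx
            exact Finset.mem_erase.2 ⟨h2, h1⟩
          · have key := Finset.sum_card_fiberwise_eq_card_filter (B.erase v) B p
            have key2 := Finset.card_filter_le (B.erase v) (fun y => p y ∈ B)
            have key3 : ∑ x ∈ B, ((B.erase v).filter (fun y => p y = x)).card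
                = ((B.erase v).filter (fun y => p y ∈ B)).card := by
              convert key
            rw [key3]
            exact key2
      _ = 2 * (B.erase v).card := by ring
  have hsumR : ∑ x ∈ B, (dg Y B x : ℝ) ≤ 2 * ((B.erase v).card : ℝ) := by exact_mod_cast hsum
  have hcardR : ((B.erase v).card : ℝ) + 1 = B.card := by exact_mod_cast hcard
  unfold ed
  linarith

end SizeLowerAux

open SizeLowerAux in
theorem sizeLower (hM : MuFacts) : SizeLower := by
  intro V Y s g H hs hg hH hgirth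
  obtain ⟨hmu1, hmono, -⟩ := hM.1 s (by omega)
  obtain ⟨v, hv⟩ := hH.ne
  have hsR : (10 : ℝ) ≤ s := by exact_mod_cast hs
  have hgR : (100 : ℝ) ≤ g := by exact_mod_cast hg
  have hspos : (0 : ℝ) < s := by linarith
  have hgrow : ∀ i : ℕ, 2 * i + 1 ≤ g →
      (1 + 1 / (s : ℝ)) ^ i * (1 + s) ≤ (bl Y H {v} i).card + s := by
    intro i
    induction i with
    | zero =>
      intro _
      have h1 : 1 ≤ (bl Y H {v} 0).card :=
        Finset.card_pos.2 ⟨v, self_mem_bl hv⟩
      have h2 : (1 : ℝ) ≤ ((bl Y H {v} 0).card : ℝ) := by exact_mod_cast h1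
      rw [pow_zero, one_mul]
      linarith
    | succ i ih =>
      intro hi
      have h1 := ih (by omega)
      have h2 := hH.touch hmono (bl_subset (Γ := Y) (S := H) (A := {v}) (i := i))
      have h3 := ed_touch (Γ := Y) (H := H) (A := bl Y H {v} i) (R := ∅) bl_subset
        (Finset.disjoint_empty_right _)
      rw [ed_empty, add_zero, Finset.union_empty] at h3
      have h4 : bl Y H {v} i ∪ nbr Y H (bl Y H {v} i) = bl Y H {v} (i + 1) := rfl
      rw [h4] at h3
      have h5 := ball_edges hv (i := i + 1) hi hgirth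
      have h6 : (1 + 1 / (s : ℝ)) * ((bl Y H {v} i).card : ℝ)
          ≤ mu s H.card * ((bl Y H {v} i).card : ℝ) :=
        mul_le_mul_of_nonneg_right (hmu1 _).1 (Nat.cast_nonneg _)
      have h7 : (1 + 1 / (s : ℝ)) * ((bl Y H {v} i).card : ℝ)
          ≤ ((bl Y H {v} (i + 1)).card : ℝ) - 1 := by linarith
      have h8 : (1 + 1 / (s : ℝ)) ^ (i + 1) * (1 + s)
          = (1 + 1 / (s : ℝ)) * ((1 + 1 / (s : ℝ)) ^ i * (1 + s)) := by ring
      rw [h8]
      have h9 : (1 + 1 / (s : ℝ)) * ((1 + 1 / (s : ℝ)) ^ i * (1 + s))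
          ≤ (1 + 1 / (s : ℝ)) * ((bl Y H {v} i).card + s) :=
        mul_le_mul_of_nonneg_left h1 (by positivity)
      have h10 : (1 + 1 / (s : ℝ)) * (((bl Y H {v} i).card : ℝ) + s)
          = (1 + 1 / (s : ℝ)) * ((bl Y H {v} i).card : ℝ) + s + 1 := by
        field_simp
        ring
      linarith
  set R := (g - 1) / 2 with hR
  have hR1 : 2 * R + 1 ≤ g := by omega
  have hR2 : g ≤ 2 * R + 2 := by omega
  have hR2' : (g : ℝ) ≤ 2 * R + 2 := by exact_mod_cast hR2
  have h1 := hgrow R hR1
  have h2 : ((bl Y H {v} R).card : ℝ) ≤ H.card := by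
    exact_mod_cast Finset.card_le_card bl_subset
  have h3 : (1 + 1 / (s : ℝ)) ^ R ≤ (H.card : ℝ) / s + 3 := by
    have h4 : (1 + 1 / (s : ℝ)) ^ R * s ≤ (1 + 1 / (s : ℝ)) ^ R * (1 + s) :=
      mul_le_mul_of_nonneg_left (by linarith) (by positivity)
    have h5 : (1 + 1 / (s : ℝ)) ^ R * s ≤ ((H.card : ℝ) / s + 3) * s := by
      have h6 : ((H.card : ℝ) / s + 3) * s = H.card + 3 * s := by
        field_simp
      rw [h6]
      linarith
    exact le_of_mul_le_mul_right h5 hspos
  have h4 : (R : ℝ) * Real.log (1 + 1 / (s : ℝ)) ≤ Real.log ((H.card : ℝ) / s + 3) := by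
    rw [← Real.log_pow]
    exact Real.log_le_log (by positivity) h3
  have h5 : 1 / ((s : ℝ) + 1) ≤ Real.log (1 + 1 / (s : ℝ)) := by
    have h6 := Real.one_sub_inv_le_log_of_pos (x := 1 + 1 / (s : ℝ)) (by positivity)
    have h7 : 1 - (1 + 1 / (s : ℝ))⁻¹ = 1 / ((s : ℝ) + 1) := by
      field_simp
      ring
    rw [h7] at h6
    exact h6
  have h6 : (R : ℝ) * (1 / ((s : ℝ) + 1)) ≤ Real.log ((H.card : ℝ) / s + 3) :=
    (mul_le_mul_of_nonneg_left h5 (Nat.cast_nonneg _)).trans h4
  refine le_trans ?_ h6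
  rw [div_le_iff₀ (by positivity)]
  have h7 : (R : ℝ) * (1 / ((s : ℝ) + 1)) * (3 * s) = R * (3 * s) / (s + 1) := by
    field_simp
  rw [h7, le_div_iff₀ (by positivity)]
  nlinarith

end Pool.Agent.Lib.MP_b6048d_co.F
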