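import Pool.Agent.Lib.MP_b6048d_co.F.SpecF

set_option autoImplicit false

/-!
A cycle longer than twice the diameter can be shortened, but not too much.
-/

open scoped Classical

namespace Pool.Agent.Lib.MP_b6048d_co.F

namespace StepDownAux

variable {V : Type*} {Y : SimpleGraph V} {H : Finset V} {Q : List V} {x y v : V} {l l' : List V}

/-- The two arcs of a cycle. -/
structure Arcs (Y : SimpleGraph V) (Q : List V) (x y : V) (l l' : List V) : Prop where
  p : Pth Y {z | z ∈ Q} x y l
  p' : Pth Y {z | z ∈ Q} x y l'
  len : l.length + l'.length = Q.length + 2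
  dis : ∀ z ∈ l, z ∈ l' → z = x ∨ z = y
  cov : ∀ z, z ∈ Q → z ∈ l ∨ z ∈ l'

lemma Arcs.swap (h : Arcs Y Q x y l l') : Arcs Y Q x y l' l :=
  ⟨h.p', h.p, by rw [add_comm]; exact h.len, fun z hz hz' => h.dis z hz' hz,
    fun z hz => (h.cov z hz).symm⟩

lemma Arcs.rev (h : Arcs Y Q x y l l') : Arcs Y Q y x l.reverse l'.reverse :=
  ⟨h.p.reverse, h.p'.reverse, by rw [List.length_reverse, List.length_reverse]; exact h.len,
    fun z hz hz' => (h.dis z (List.mem_reverse.1 hz) (List.mem_reverse.1 hz')).symm,
    fun z hz => by rw [List.mem_reverse, List.mem_reverse]; exact h.cov z hz⟩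

/-- The arcs between `x` and an inner vertex of an arc. -/
lemma Arcs.sub {a b : List V} (h : Arcs Y Q x y (a ++ v :: b) l') (hx : v ≠ x) (hy : v ≠ y) :
    ∃ m, Arcs Y Q x v (a ++ [v]) m ∧ l'.length ≤ m.length := by
  have hc := h.p.cut
  have hnd := List.nodup_append'.1 h.p.nodup
  have hxa : x ∈ a := by
    have h1 := hc.1.toWk.left_mem
    rcases List.mem_append.1 h1 with h2 | h2
    · exact h2
    · exact absurd (List.mem_singleton.1 h2).symm hx
  have hyb : y ∈ b := by
    have h1 := hc.2.toWk.right_mem
    rcases List.mem_cons.1 h1 with h2 | h2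
    · exact absurd h2.symm hy
    · exact h2
  have hxb : x ∉ v :: b := fun hh => hnd.2.2 hxa hh
  have hya : y ∉ a := fun hh => hnd.2.2 hh (List.mem_cons_of_mem _ hyb)
  have hr := hc.2.reverse
  have happ := h.p'.append hr (by
    intro z hz hz'
    have hz2 := List.mem_reverse.1 hz'
    rcases h.dis z (List.mem_append_right _ hz2) hz with h1 | h1
    · rw [h1] at hz2; exact absurd hz2 hxb
    · exact h1)
  have hlen := h.p'.toWk.append_length hr.toWk
  obtain ⟨t, ht⟩ := hr.toWk.exists_cons
  have hsub : ∀ z, z ∈ (v :: b).reverse.tail → z ∈ v :: b := fun z hz =>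
    List.mem_reverse.1 (List.mem_of_mem_tail hz)
  refine ⟨_, ⟨hc.1, happ, ?_, ?_, ?_⟩, ?_⟩
  · have h1 := h.len
    simp only [List.length_append, List.length_cons, List.length_reverse, List.length_nil,
      List.length_tail] at h1 hlen ⊢
    omega
  · intro z hz hz'
    rcases List.mem_append.1 hz' with h1 | h1
    · rcases List.mem_append.1 hz with h2 | h2
      · rcases h.dis z (List.mem_append_left _ h2) h1 with h3 | h3
        · exact Or.inl h3
        · rw [h3] at h2; exact absurd h2 hya
      · exact Or.inr (List.mem_singleton.1 h2)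
    · have h3 := hsub z h1
      rcases List.mem_append.1 hz with h2 | h2
      · exact absurd h3 (fun hh => hnd.2.2 h2 hh)
      · exact Or.inr (List.mem_singleton.1 h2)
  · intro z hz
    rcases h.cov z hz with h1 | h1
    · rcases List.mem_append.1 h1 with h2 | h2
      · exact Or.inl (List.mem_append_left _ h2)
      · right
        have h3 : z ∈ (v :: b).reverse := List.mem_reverse.2 h2
        rw [ht] at h3
        rcases List.mem_cons.1 h3 with h4 | h4
        · rw [h4]
          exact List.mem_append_left _ h.p'.toWk.right_mem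
        · refine List.mem_append_right _ ?_
          rw [ht]; exact h4
    · exact Or.inr (List.mem_append_left _ h1)
  · have : 1 ≤ (v :: b).reverse.length := by simp
    omega

/-- A path shorter than both arcs between its ends. -/
structure Conf (Y : SimpleGraph V) (H : Finset V) (Q : List V) (x y : V) (R l l' : List V) :
    Prop where
  ne : x ≠ y
  arcs : Arcs Y Q x y l l'
  r : Pth Y (H : Set V) x y R
  lt : R.length < l.length
  lt' : R.length < l'.length

lemma Conf.swap {R : List V} (h : Conf Y H Q x y R l l') : Conf Y H Q x y R l' l :=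
  ⟨h.ne, h.arcs.swap, h.r, h.lt', h.lt⟩

lemma Conf.rev {R : List V} (h : Conf Y H Q x y R l l') :
    Conf Y H Q y x R.reverse l.reverse l'.reverse :=
  ⟨h.ne.symm, h.arcs.rev, h.r.reverse, by
    rw [List.length_reverse, List.length_reverse]; exact h.lt, by
    rw [List.length_reverse, List.length_reverse]; exact h.lt'⟩

/-- One half of the step. -/
lemma Conf.half {a b c d : List V} (h : Conf Y H Q x y (a ++ v :: b) (c ++ v :: d) l')
    (hx : v ≠ x) (hy : v ≠ y) (hlt : a.length < c.length) :
    ∃ m, Conf Y H Q x v (a ++ [v]) (c ++ [v]) m := by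
  obtain ⟨m, hm, hlen⟩ := h.arcs.sub hx hy
  refine ⟨m, hx.symm, hm, h.r.cut.1, ?_, ?_⟩
  · simp only [List.length_append, List.length_cons, List.length_nil]; omega
  · have := h.lt'
    simp only [List.length_append, List.length_cons, List.length_nil] at this ⊢
    omega

/-- In a minimal configuration no inner vertex of the path is on the first arc. -/
lemma Conf.inner {R : List V} (h : Conf Y H Q x y R l l')
    (hmin : ∀ (x' y' : V) (R' m m' : List V), Conf Y H Q x' y' R' m m' → R.length ≤ R'.length)
    (hvR : v ∈ R) (hvl : v ∈ l) : v = x ∨ v = y := by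
  by_contra hne
  push Not at hne
  obtain ⟨hx, hy⟩ := hne
  obtain ⟨a, b, rfl⟩ := List.append_of_mem hvR
  obtain ⟨c, d, rfl⟩ := List.append_of_mem hvl
  have hb : 1 ≤ b.length := by
    rw [Nat.one_le_iff_ne_zero]
    intro hb0
    rw [List.length_eq_zero_iff] at hb0
    subst hb0
    have h1 := h.r.cut.2.toWk.right_mem
    simp only [List.mem_singleton] at h1
    exact hy h1.symm
  have ha : 1 ≤ a.length := by
    rw [Nat.one_le_iff_ne_zero]
    intro ha0
    rw [List.length_eq_zero_iff] at ha0
    subst ha0
    have h1 := h.r.cut.1.toWk.left_mem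
    simp only [List.nil_append, List.mem_singleton] at h1
    exact hx h1.symm
  have hac : c.length ≤ a.length := by
    by_contra hlt
    obtain ⟨m, hm⟩ := h.half hx hy (not_le.mp hlt)
    have h1 := hmin _ _ _ _ _ hm
    simp only [List.length_append, List.length_cons, List.length_nil] at h1
    omega
  have hbd : d.length ≤ b.length := by
    by_contra hlt
    have hr := h.rev
    have e1 : (a ++ v :: b).reverse = b.reverse ++ v :: a.reverse := by simp
    have e2 : (c ++ v :: d).reverse = d.reverse ++ v :: c.reverse := by simp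
    rw [e1, e2] at hr
    obtain ⟨m, hm⟩ := hr.half hy hx (by
      rw [List.length_reverse, List.length_reverse]; exact not_le.mp hlt)
    have h1 := hmin _ _ _ _ _ hm
    simp only [List.length_append, List.length_cons, List.length_nil, List.length_reverse] at h1
    omega
  have h2 := h.lt
  simp only [List.length_append, List.length_cons] at h2
  omega

/-- From a minimal configuration with `|l| ≤ |l'|`. -/
lemma Conf.final {R : List V} (h : Conf Y H Q x y R l l') (hQ : ∀ z ∈ Q, z ∈ H)
    (hin : ∀ v, v ∈ R → v ∈ l' → v = x ∨ v = y) (hle : l.length ≤ l'.length) :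
    ∃ Q', IsCyc Y Q' ∧ (∀ z ∈ Q', z ∈ H) ∧ Q'.length < Q.length ∧ Q.length ≤ 2 * Q'.length := by
  have h2 := h.r.two_le h.ne
  have h3 := h.lt'
  have h4 := h.lt
  have h5 := h.arcs.len
  have hl' : Pth Y (H : Set V) x y l' := h.arcs.p'.mono (fun z hz => by exact_mod_cast hQ z hz)
  obtain ⟨D, hD, hlen, hmem⟩ := h.r.theta hl' hin (by omega) h.ne
  refine ⟨D, hD, ?_, by omega, by omega⟩
  intro z hz
  rcases (hmem z).1 hz with h6 | h6
  · exact_mod_cast h.r.mem z h6
  · exact_mod_cast hl'.mem z h6

/-- Arcs of a cycle given as a list. -/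
lemma arcs_of {a b : List V} (ht : IsCyc Y (x :: (a ++ y :: b))) :
    Arcs Y (x :: (a ++ y :: b)) x y ((x :: a) ++ [y]) (x :: (y :: b).reverse) := by
  have hxQ : Pth Y {z | z ∈ x :: (a ++ y :: b)} x ((x :: (a ++ y :: b)).getLast (by simp))
      (x :: (a ++ y :: b)) :=
    ⟨⟨ht.chain, rfl, List.getLast?_eq_getLast_of_ne_nil _, fun z hz => hz⟩, ht.nodup⟩
  have h1 : Pth Y {z | z ∈ x :: (a ++ y :: b)} x ((x :: (a ++ y :: b)).getLast (by simp))
      ((x :: a) ++ y :: b) := hxQ
  have h2 := h1.cut
  have hcl : Y.Adj ((x :: (a ++ y :: b)).getLast (by simp)) x :=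
    ht.closed x rfl _ (List.getLast?_eq_getLast_of_ne_nil _)
  have hnd := ht.nodup
  rw [← List.cons_append] at hnd
  have hnd' := List.nodup_append'.1 hnd
  have hxb : x ∉ y :: b := fun hh => hnd'.2.2 (by simp) hh
  refine ⟨h2.1, ⟨h2.2.toWk.reverse.cons (by simp) hcl.symm,
    List.nodup_cons.2 ⟨fun hh => hxb (List.mem_reverse.1 hh), List.nodup_reverse.2 h2.2.nodup⟩⟩,
    ?_, ?_, ?_⟩
  · simp only [List.length_append, List.length_cons, List.length_reverse, List.length_nil]
    omega
  · intro z hz hz'
    rcases List.mem_cons.1 hz' with h3 | h3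
    · exact Or.inl h3
    · have h4 := List.mem_reverse.1 h3
      rcases List.mem_append.1 hz with h5 | h5
      · exact absurd h4 (fun hh => hnd'.2.2 h5 hh)
      · right; simpa using h5
  · intro z hz
    simp only [List.mem_append, List.mem_cons, List.mem_reverse, List.not_mem_nil, or_false] at hz ⊢
    tauto

end StepDownAux

open StepDownAux in
theorem stepDown : StepDown := by
  intro V Y H D hD Q hQ hQH hlen
  -- a first configuration
  have hex : ∃ n, ∃ (x y : V) (R l l' : List V), Conf Y H Q x y R l l' ∧ R.length = n := by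
    obtain ⟨x, t, rfl⟩ : ∃ x t, Q = x :: t := by
      cases Q with
      | nil => simp at hlen
      | cons x t => exact ⟨x, t, rfl⟩
    rw [List.length_cons] at hlen
    have hk : D < t.length := by omega
    have e1 : t = t.take D ++ t[D] :: t.drop (D + 1) := by
      rw [List.cons_getElem_drop_succ, List.take_append_drop]
    obtain ⟨a, y, b, ha, hb, rfl⟩ : ∃ a y b, a.length = D ∧ a.length + b.length + 1 = t.length ∧
        t = a ++ y :: b := by
      refine ⟨t.take D, t[D], t.drop (D + 1), ?_, ?_, e1⟩
      · rw [List.length_take]; omega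
      · rw [List.length_take, List.length_drop]; omega
    have harcs := arcs_of hQ
    have hxy : x ≠ y := by
      intro e
      have := (List.nodup_cons.1 hQ.nodup).1
      exact this (by rw [e]; simp)
    obtain ⟨w, hw, hwl⟩ := mem_bl_single.1 (hD x (hQH x (by simp)) y (hQH y (by simp)))
    obtain ⟨R, hR, -, hRl⟩ := hw.toPth
    refine ⟨R.length, x, y, R, _, _, ⟨hxy, harcs, hR, ?_, ?_⟩, rfl⟩
    · simp only [List.length_append, List.length_cons, List.length_nil]; omega
    · simp only [List.length_append, List.length_cons, List.length_reverse] at hlen hb ⊢; omega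
  obtain ⟨x, y, R, l, l', hc, hn⟩ := Nat.find_spec hex
  have hmin : ∀ (x' y' : V) (R' m m' : List V), Conf Y H Q x' y' R' m m' →
      R.length ≤ R'.length := by
    intro x' y' R' m m' h
    rw [hn]
    exact Nat.find_min' hex ⟨x', y', R', m, m', h, rfl⟩
  rcases le_total l.length l'.length with hle | hle
  · exact hc.final hQH (fun v hv hv' => hc.swap.inner hmin hv hv') hle
  · exact hc.swap.final hQH (fun v hv hv' => hc.inner hmin hv hv') hle

end Pool.Agent.Lib.MP_b6048d_co.F
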