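import Pool.Agent.Lib.MP_b6048d_co.F.SpecF

set_option autoImplicit false

open scoped Classical

namespace Pool.Agent.Lib.MP_b6048d_co.F.TouchClosureAux

open Pool.Agent.Lib.MP_b6048d_co.F

variable {V : Type*} {Y : SimpleGraph V}

/-- Adding the inner vertices of a path between two different vertices of `A`. -/
lemma add_path (m : List V) : ∀ (A : Finset V) (x y : V), x ∈ A → y ∈ A → x ≠ y →
    (x :: (m ++ [y])).IsChain Y.Adj → m.Nodup → (∀ z ∈ m, z ∉ A) → m ≠ [] →
    ed Y A + m.length + 1 ≤ ed Y (A ∪ m.toFinset) := by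
  induction m with
  | nil => intro A x y _ _ _ _ _ _ h; exact absurd rfl h
  | cons z m ih =>
    intro A x y hx hy hxy hc hn hd _
    have hz : z ∉ A := hd z (by simp)
    have hc1 : Y.Adj x z := by
      rw [List.cons_append, List.isChain_cons_cons] at hc
      exact hc.1
    have hc2 : (z :: (m ++ [y])).IsChain Y.Adj := by
      rw [List.cons_append, List.isChain_cons_cons] at hc
      exact hc.2
    have hins := ed_insert (Γ := Y) hz
    rcases m with _ | ⟨z', m'⟩
    · -- one vertex
      have hc3 : Y.Adj z y := by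
        simpa using hc2
      have h2 : 2 ≤ dg Y A z := by
        unfold dg
        have hsub : ({x, y} : Finset V) ⊆ A.filter (fun w => Y.Adj z w) := by
          intro w hw
          rw [Finset.mem_insert, Finset.mem_singleton] at hw
          rw [Finset.mem_filter]
          rcases hw with rfl | rfl
          · exact ⟨hx, hc1.symm⟩
          · exact ⟨hy, hc3⟩
        have := Finset.card_le_card hsub
        rwa [Finset.card_pair hxy] at this
      have e1 : A ∪ ([z] : List V).toFinset = insert z A := by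
        ext w; simp
      rw [e1, hins]
      have : (2 : ℝ) ≤ (dg Y A z : ℝ) := by exact_mod_cast h2
      simp only [List.length_cons, List.length_nil]
      push_cast
      linarith
    · have h1 : 1 ≤ dg Y A z := by
        unfold dg
        apply Finset.card_pos.2
        exact ⟨x, Finset.mem_filter.2 ⟨hx, hc1.symm⟩⟩
      have hzy : z ≠ y := fun h => hz (h ▸ hy)
      have hd' : ∀ w ∈ z' :: m', w ∉ insert z A := by
        intro w hw hw2
        rcases Finset.mem_insert.1 hw2 with h3 | h3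
        · rw [List.nodup_cons] at hn
          exact hn.1 (h3 ▸ hw)
        · exact hd w (List.mem_cons_of_mem _ hw) h3
      have h3 := ih (insert z A) z y (Finset.mem_insert_self _ _) (Finset.mem_insert_of_mem hy) hzy
        hc2 (List.nodup_cons.1 hn).2 hd' (by simp)
      have e1 : A ∪ (z :: z' :: m').toFinset = insert z A ∪ (z' :: m').toFinset := by
        ext w; simp only [List.toFinset_cons, Finset.mem_union, Finset.mem_insert]
        tauto
      rw [e1]
      rw [hins] at h3
      have : (1 : ℝ) ≤ (dg Y A z : ℝ) := by exact_mod_cast h1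
      simp only [List.length_cons] at h3 ⊢
      push_cast at h3 ⊢
      linarith

/-- A path between vertices of `A` which leaves `A`. -/
lemma leave {S : Set V} {A : Finset V} {u v z : V} {l : List V} (h : Pth Y S u v l) (hu : u ∈ A)
    (hv : v ∈ A) (hz : z ∈ l) (hzA : z ∉ A) :
    ∃ B : Finset V, A ⊆ B ∧ B.card + 2 ≤ A.card + l.length ∧
      ed Y A - A.card + 1 ≤ ed Y B - B.card := by
  obtain ⟨a, p, b, rfl, hp, ha⟩ := exists_first (fun w => w ∉ A) l ⟨z, hz, hzA⟩
  have hane : a ≠ [] := by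
    rintro rfl
    have h1 : p = u := by simpa using h.head
    rw [h1] at hp
    exact hp hu
  have hvb : v ∈ b := by
    have h1 : v ∈ p :: b := h.cut.2.toWk.right_mem
    rcases List.mem_cons.1 h1 with h2 | h2
    · rw [← h2] at hp; exact absurd hv hp
    · exact h2
  obtain ⟨c, q, d, rfl, hq, hc⟩ := exists_first (fun w => w ∈ A) b ⟨v, hvb, hv⟩
  rcases List.eq_nil_or_concat a with h1 | ⟨a', x, rfl⟩
  · exact absurd h1 hane
  rw [List.concat_eq_append] at *
  have hxA : x ∈ A := by
    have := ha x (by simp)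
    simpa using this
  have hch := h.chain
  have hnd := h.nodup
  have e1 : a' ++ [x] ++ p :: (c ++ q :: d) = a' ++ (x :: ((p :: c) ++ [q])) ++ d := by simp
  rw [e1] at hch hnd
  have hch2 : (x :: ((p :: c) ++ [q])).IsChain Y.Adj := by
    rw [List.isChain_append, List.isChain_append] at hch
    exact hch.1.2.1
  have hnd2 : (x :: ((p :: c) ++ [q])).Nodup :=
    (List.nodup_append.1 (List.nodup_append.1 hnd).1).2.1
  have hxq : x ≠ q := by
    intro hxq
    rw [List.nodup_cons] at hnd2
    exact hnd2.1 (by rw [hxq]; simp)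
  have hnd3 : (p :: c).Nodup := (List.nodup_append.1 (List.nodup_cons.1 hnd2).2).1
  have hdis : ∀ w ∈ p :: c, w ∉ A := by
    intro w hw
    rcases List.mem_cons.1 hw with rfl | hw
    · exact hp
    · exact hc w hw
  have h3 := add_path (p :: c) A x q hxA hq hxq hch2 hnd3 hdis (by simp)
  have hcard : (A ∪ (p :: c).toFinset).card = A.card + (p :: c).length := by
    rw [Finset.card_union_of_disjoint, List.toFinset_card_of_nodup hnd3]
    rw [Finset.disjoint_left]
    intro w hw hw2
    exact hdis w (List.mem_toFinset.1 hw2) hw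
  refine ⟨A ∪ (p :: c).toFinset, Finset.subset_union_left, ?_, ?_⟩
  · rw [hcard]
    simp only [List.length_append, List.length_cons, List.length_nil]
    omega
  · rw [hcard]
    push_cast
    linarith

end Pool.Agent.Lib.MP_b6048d_co.F.TouchClosureAux

namespace Pool.Agent.Lib.MP_b6048d_co.F

open TouchClosureAux in
theorem touchClosure (hT : TreeFacts) : TouchClosure := by
  intro V G XX a g I Tc Ce rt lv par Y hW ha s A₀ hs hden hA₀ hbig
  have hs0 : (s : ℝ) = 10 ^ 6 * a := by rw [hs]; push_cast; ring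
  have ha1 : (1 : ℝ) ≤ a := by exact_mod_cast ha
  have hspos : (0 : ℝ) < s := by rw [hs0]; positivity
  have hbig' : 24 * (a : ℝ) ≤ A₀.card := by exact_mod_cast hbig
  -- admissible sets
  obtain ⟨Ad, hAd⟩ : ∃ Ad : Finset V → Prop, ∀ A, Ad A ↔ (A₀ ⊆ A ∧ 0 ≤ ed Y A - A.card ∧
    (A.card : ℝ) ≤ A₀.card + 12 * a * (ed Y A - A.card) ∧ A.card ≤ 2 * A₀.card) :=
    ⟨_, fun _ => Iff.rfl⟩
  have hf : ∀ A, Ad A → ed Y A - A.card ≤ 3 * A₀.card / s ∧ 1000 * (A.card : ℝ) ≤ 1001 * A₀.card := by
    intro A hA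
    obtain ⟨h1, h2, h3, h4⟩ := (hAd A).1 hA
    have h5 := hden A h4
    obtain ⟨f, hfe⟩ : ∃ f, f = ed Y A - A.card := ⟨_, rfl⟩
    rw [← hfe] at h2 h3 ⊢
    have h6 : f * s ≤ 2 * A.card := by
      have : f ≤ 2 / s * A.card := by rw [hfe]; linarith
      calc f * s ≤ (2 / s * A.card) * s := mul_le_mul_of_nonneg_right this hspos.le
        _ = 2 * A.card := by field_simp
    have h7 : f * s ≤ 2 * A₀.card + 24 * a * f := by linarith
    have h8 : f * s ≤ 3 * A₀.card := by
      rw [hs0] at h7 ⊢
      nlinarith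
    refine ⟨?_, ?_⟩
    · rw [le_div_iff₀ hspos]; exact h8
    · rw [hs0] at h8
      have h9 : 12 * a * f ≤ 36 * A₀.card / 10 ^ 6 := by
        rw [le_div_iff₀ (by norm_num)]
        linarith
      have h10 : (0 : ℝ) ≤ A₀.card := by positivity
      have h11 : 36 * (A₀.card : ℝ) / 10 ^ 6 ≤ A₀.card / 1000 := by
        rw [div_le_div_iff₀ (by norm_num) (by norm_num)]
        linarith
      linarith
  have hAd0 : Ad A₀ := by
    rw [hAd]
    refine ⟨Finset.Subset.refl _, by linarith, ?_, by omega⟩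
    have : 0 ≤ 12 * (a : ℝ) * (ed Y A₀ - A₀.card) := by
      apply mul_nonneg (by positivity)
      linarith
    linarith
  have hstep : ∀ A, Ad A → ∀ B : Finset V, A ⊆ B → B.card ≤ A.card + 12 * a →
      ed Y A - A.card + 1 ≤ ed Y B - B.card → Ad B := by
    intro A hA B hAB hB hfB
    have hA' := hf A hA
    obtain ⟨h1, h2, h3, h4⟩ := (hAd A).1 hA
    rw [hAd]
    have hB' : (B.card : ℝ) ≤ A.card + 12 * a := by exact_mod_cast hB
    refine ⟨h1.trans hAB, by linarith, ?_, ?_⟩
    · have : 12 * (a : ℝ) * (ed Y A - A.card + 1) ≤ 12 * a * (ed Y B - B.card) :=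
        mul_le_mul_of_nonneg_left hfB (by positivity)
      linarith
    · have : (B.card : ℝ) ≤ 2 * A₀.card := by
        have := hA'.2
        have h10 : (0 : ℝ) ≤ A₀.card := by positivity
        linarith
      exact_mod_cast this
  have hmax : ∃ A, Ad A ∧ ∀ B : Finset V, A ⊆ B → B.card ≤ A.card + 12 * a →
      ¬ (ed Y A - A.card + 1 ≤ ed Y B - B.card) := by
    by_contra hcon
    push Not at hcon
    have hall : ∀ n : ℕ, ∃ A, Ad A ∧ (n : ℝ) ≤ ed Y A - A.card := by
      intro n
      induction n with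
      | zero => exact ⟨A₀, hAd0, by push_cast; linarith⟩
      | succ n ih =>
        obtain ⟨A, hA, hn⟩ := ih
        obtain ⟨B, hAB, hB, hfB⟩ := hcon A hA
        exact ⟨B, hstep A hA B hAB hB hfB, by push_cast; linarith⟩
    obtain ⟨n, hn⟩ := exists_nat_gt (3 * (A₀.card : ℝ) / s)
    obtain ⟨A, hA, hnA⟩ := hall n
    have := (hf A hA).1
    linarith
  obtain ⟨A, hA, hmaxA⟩ := hmax
  have hTX : ∀ X ∈ I, TGr X (rt X) (par X) ≤ Y := by
    intro X hX u v huv
    exact (hW.adj u v).2 (Or.inr ⟨X, hX, huv⟩)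
  refine ⟨A, ((hAd A).1 hA).1, ?_, ?_, ?_⟩
  · exact_mod_cast (hf A hA).2
  · intro X hX u hu w hw huX hwX
    have hTF := hT V G X (3 * a) (rt X) (lv X) (par X) (hW.bt X hX)
    obtain ⟨l, hl, hlen⟩ := hTF.2.2.1 u huX w hwX
    by_cases hall : ∀ z ∈ l, z ∈ A
    · exact ⟨l, hl.restrict (by exact_mod_cast hall)⟩
    · exfalso
      push Not at hall
      obtain ⟨z, hz, hzA⟩ := hall
      obtain ⟨B, hAB, hB, hfB⟩ := leave (hl.monoG (hTX X hX)) hu hw hz hzA
      exact hmaxA B hAB (by omega) hfB
  · rintro X hX X' hX' hne ⟨x, hxA, hxX⟩ ⟨x', hxA', hxX'⟩ w hwX hwX'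
    by_contra hwA
    have hTF := hT V G X (3 * a) (rt X) (lv X) (par X) (hW.bt X hX)
    have hTF' := hT V G X' (3 * a) (rt X') (lv X') (par X') (hW.bt X' hX')
    obtain ⟨l, hl, hlen⟩ := hTF.2.2.1 x hxX w hwX
    obtain ⟨l', hl', hlen'⟩ := hTF'.2.2.1 w hwX' x' hxX'
    have h1 : Pth Y Set.univ x w l := (hl.monoG (hTX X hX)).mono (Set.subset_univ _)
    have h2 : Pth Y Set.univ w x' l' := (hl'.monoG (hTX X' hX')).mono (Set.subset_univ _)
    have h3 := h1.append h2 (fun z hz hz' => hW.blocks.one X (hW.sub X hX) X' (hW.sub X' hX') hne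
      z (hl.mem z hz) (hl'.mem z hz') w hwX hwX')
    have h4 := h1.toWk.append_length h2.toWk
    obtain ⟨B, hAB, hB, hfB⟩ := leave h3 hxA hxA'
      (List.mem_append_left _ h1.toWk.right_mem) hwA
    exact hmaxA B hAB (by omega) hfB

end Pool.Agent.Lib.MP_b6048d_co.F
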