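import Pool.Agent.Lib.MP_b6048d_co.F.SpecF

set_option autoImplicit false

/-!
# F17 TouchCount: counting the touches of a cycle
-/

open scoped Classical

namespace Pool.Agent.Lib.MP_b6048d_co.F.TouchCountAux

open Pool.Agent.Lib.MP_b6048d_co.F

variable {V : Type}

/-- ordered pairs of adjacent elements of `B` -/
noncomputable def pr (Γ : SimpleGraph V) (B : Finset V) : Finset (V × V) :=
  (B ×ˢ B).filter (fun p => Γ.Adj p.1 p.2)

lemma mem_pr {Γ : SimpleGraph V} {B : Finset V} {p : V × V} :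
    p ∈ pr Γ B ↔ (p.1 ∈ B ∧ p.2 ∈ B) ∧ Γ.Adj p.1 p.2 := by
  unfold pr
  rw [Finset.mem_filter, Finset.mem_product]

lemma card_pr (Γ : SimpleGraph V) (B : Finset V) : ((pr Γ B).card : ℝ) = 2 * ed Γ B := by
  have h1 : (pr Γ B).card = ∑ v ∈ B, dg Γ B v := by
    unfold pr dg
    rw [Finset.card_filter, Finset.sum_product]
    refine Finset.sum_congr rfl fun v _ => ?_
    rw [Finset.card_filter]
  rw [h1]
  unfold ed
  push_cast
  ring

lemma walk_reach {Γ : SimpleGraph V} {B : Finset V} :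
    ∀ (l : List V) (u w : V) (hu : u ∈ B) (hw : w ∈ B), Wk Γ (B : Set V) u w l →
      (Γ.comap (fun v : B => v.1)).Reachable ⟨u, hu⟩ ⟨w, hw⟩ := by
  intro l
  induction l with
  | nil => intro u w hu hw h; exact absurd rfl h.ne_nil
  | cons a t ih =>
    intro u w hu hw h
    have hau : a = u := by simpa using h.head
    subst hau
    cases t with
    | nil =>
      have haw : a = w := by simpa using h.last
      subst haw
      exact SimpleGraph.Reachable.refl _
    | cons b t =>
      have hc := h.chain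
      rw [List.isChain_cons_cons] at hc
      have hb : b ∈ B := by exact_mod_cast h.mem b (by simp)
      have h2 : Wk Γ (B : Set V) b w (b :: t) := by
        refine ⟨hc.2, rfl, ?_, fun x hx => h.mem x (List.mem_cons_of_mem _ hx)⟩
        have := h.last
        rwa [List.getLast?_cons_cons] at this
      have h3 := ih b w hb hw h2
      have h4 : (Γ.comap (fun v : B => v.1)).Adj ⟨a, hu⟩ ⟨b, hb⟩ := hc.1
      exact h4.reachable.trans h3

lemma conn_card {Γ : SimpleGraph V} {B : Finset V} (hne : B.Nonempty)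
    (h : ∀ u ∈ B, ∀ w ∈ B, ∃ l, Wk Γ (B : Set V) u w l) :
    2 * B.card ≤ (pr Γ B).card + 2 := by
  obtain ⟨G', hG'⟩ : ∃ G' : SimpleGraph B, G' = Γ.comap (fun v : B => v.1) := ⟨_, rfl⟩
  obtain ⟨b0, hb0⟩ := hne
  have hconn : G'.Connected := by
    rw [SimpleGraph.connected_iff]
    refine ⟨fun u w => ?_, ⟨⟨b0, hb0⟩⟩⟩
    obtain ⟨l, hl⟩ := h u.1 u.2 w.1 w.2
    rw [hG']
    exact walk_reach l u.1 w.1 u.2 w.2 hl
  have h1 := hconn.card_vert_le_card_edgeSet_add_one
  rw [Nat.card_eq_fintype_card, Fintype.card_coe, Nat.card_eq_fintype_card,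
    ← SimpleGraph.edgeFinset_card] at h1
  have h2 := G'.two_mul_card_edgeFinset
  have h3 : (Finset.univ.filter fun (p : B × B) => G'.Adj p.1 p.2).card ≤ (pr Γ B).card := by
    refine Finset.card_le_card_of_injOn (fun p => (p.1.1, p.2.1)) ?_ ?_
    · intro p hp
      have hp' := (Finset.mem_filter.1 (Finset.mem_coe.1 hp)).2
      rw [hG'] at hp'
      exact Finset.mem_coe.2 (mem_pr.2 ⟨⟨p.1.2, p.2.2⟩, hp'⟩)
    · intro p _ q _ hpq
      have h4 := congrArg Prod.fst hpq
      have h5 := congrArg Prod.snd hpq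
      exact Prod.ext (Subtype.ext h4) (Subtype.ext h5)
  have h4 : (Finset.univ.filter fun (x, y) => G'.Adj x y).card =
      (Finset.univ.filter fun (p : B × B) => G'.Adj p.1 p.2).card := rfl
  rw [h4] at h2
  omega

lemma chain_mem {R : V → V → Prop} {X : Set V} (hR : ∀ a b, R a b → b ∈ X) :
    ∀ l : List V, l.IsChain R → (∀ a, l.head? = some a → a ∈ X) → ∀ x ∈ l, x ∈ X := by
  intro l
  induction l with
  | nil => intro _ _ x hx; simp at hx
  | cons a t ih =>
    intro hc hh x hx
    rcases List.mem_cons.1 hx with rfl | hx'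
    · exact hh _ rfl
    · cases t with
      | nil => simp at hx'
      | cons b t =>
        rw [List.isChain_cons_cons] at hc
        refine ih hc.2 ?_ x hx'
        intro c hc'
        have : b = c := by simpa using hc'
        rw [← this]
        exact hR a b hc.1

lemma per_mod {n : ℕ} {z : ℕ → V} (hn : 0 < n) (hz : ∀ k, z (k + n) = z k) (k : ℕ) :
    z k = z (k % n) := by
  have h1 : ∀ q r : ℕ, z (r + q * n) = z r := by
    intro q
    induction q with
    | zero => intro r; simp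
    | succ q ih =>
      intro r
      have e : r + (q + 1) * n = (r + q * n) + n := by ring
      rw [e, hz, ih]
  conv_lhs => rw [← Nat.mod_add_div k n, mul_comm]
  exact h1 _ _

/-- ordered pairs of consecutive elements of the cycle -/
noncomputable def cy (n : ℕ) (z : ℕ → V) : Finset (V × V) :=
  (Finset.range n).image (fun k => (z k, z (k + 1))) ∪
    (Finset.range n).image (fun k => (z (k + 1), z k))

lemma card_cy {Y : SimpleGraph V} {n : ℕ} {z : ℕ → V} (h : CycF Y n z) :
    2 * n ≤ (cy n z).card := by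
  have hn := h.three
  have hinj := h.inj
  unfold cy
  rw [Finset.card_union_of_disjoint]
  · rw [Finset.card_image_of_injOn, Finset.card_image_of_injOn, Finset.card_range]
    · omega
    · intro i hi j hj hij
      have h1 := congrArg Prod.snd hij
      exact hinj i (Finset.mem_range.1 hi) j (Finset.mem_range.1 hj) h1
    · intro i hi j hj hij
      have h1 := congrArg Prod.fst hij
      exact hinj i (Finset.mem_range.1 hi) j (Finset.mem_range.1 hj) h1
  · rw [Finset.disjoint_left]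
    intro p hp hp'
    obtain ⟨k, hk, hkp⟩ := Finset.mem_image.1 hp
    obtain ⟨j, hj, hjp⟩ := Finset.mem_image.1 hp'
    rw [Finset.mem_range] at hk hj
    rw [← hjp] at hkp
    have h1 : z k = z (j + 1) := congrArg Prod.fst hkp
    have h2 : z (k + 1) = z j := congrArg Prod.snd hkp
    have hz0 : z n = z 0 := by have := h.per 0; rwa [Nat.zero_add] at this
    by_cases hj1 : j + 1 < n
    · have hk1 := hinj k hk (j + 1) hj1 h1
      by_cases hk2 : k + 1 < n
      · have := hinj (k + 1) hk2 j hj h2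
        omega
      · have hk3 : k + 1 = n := by omega
        rw [hk3, hz0] at h2
        have := hinj 0 (by omega) j hj h2
        omega
    · have hj2 : j + 1 = n := by omega
      rw [hj2, hz0] at h1
      have hk1 := hinj k hk 0 (by omega) h1
      rw [hk1] at h2
      have := hinj 1 (by omega) j hj h2
      omega

/-- the part of the pairs in `T` which are on the cycle -/
lemma cyc_part {T : SimpleGraph V} {B : Finset V} {n : ℕ} {z : ℕ → V} :
    (pr T B ∩ cy n z).card ≤ 2 * (EX n z T).card := by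
  have hsub : pr T B ∩ cy n z ⊆ (EX n z T).image (fun k => (z k, z (k + 1))) ∪
      (EX n z T).image (fun k => (z (k + 1), z k)) := by
    intro p hp
    obtain ⟨hp1, hp2⟩ := Finset.mem_inter.1 hp
    have hadj := (mem_pr.1 hp1).2
    rcases Finset.mem_union.1 hp2 with h | h
    · obtain ⟨k, hk, hkp⟩ := Finset.mem_image.1 h
      refine Finset.mem_union_left _ (Finset.mem_image.2 ⟨k, ?_, hkp⟩)
      rw [← hkp] at hadj
      exact Finset.mem_filter.2 ⟨hk, hadj⟩
    · obtain ⟨k, hk, hkp⟩ := Finset.mem_image.1 h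
      refine Finset.mem_union_right _ (Finset.mem_image.2 ⟨k, ?_, hkp⟩)
      rw [← hkp] at hadj
      exact Finset.mem_filter.2 ⟨hk, hadj.symm⟩
  refine (Finset.card_le_card hsub).trans ((Finset.card_union_le _ _).trans ?_)
  have h1 : ((EX n z T).image (fun k => (z k, z (k + 1)))).card ≤ (EX n z T).card :=
    Finset.card_image_le
  have h2 : ((EX n z T).image (fun k => (z (k + 1), z k))).card ≤ (EX n z T).card :=
    Finset.card_image_le
  omega

end Pool.Agent.Lib.MP_b6048d_co.F.TouchCountAux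

namespace Pool.Agent.Lib.MP_b6048d_co.F

open TouchCountAux

theorem touchCount (hT : TreeFacts) : TouchCount := by
  intro V G XX a g I Tc Ce rt lv par Y hW _ s n z A hs hcyc hzA hAn hsparse hconn
  have hn := hcyc.three
  obtain ⟨T, hTdef⟩ : ∃ T : Set V → SimpleGraph V, T = fun X => TGr X (rt X) (par X) := ⟨_, rfl⟩
  have hTX : ∀ X, TGr X (rt X) (par X) = T X := fun X => by rw [hTdef]
  simp only [hTX] at hconn ⊢
  have hTmem : ∀ X ∈ I, ∀ u v, (T X).Adj u v → u ∈ X ∧ v ∈ X := by
    intro X hX u v huv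
    rw [← hTX] at huv
    have := (hT V G X (3 * a) (rt X) (lv X) (par X) (hW.bt X hX)).1.2 u v huv
    exact ⟨this.1, this.2.1⟩
  have hTY : ∀ X ∈ I, ∀ u v, (T X).Adj u v → Y.Adj u v := by
    intro X hX u v huv
    rw [← hTX] at huv
    exact (hW.adj u v).2 (Or.inr ⟨X, hX, huv⟩)
  obtain ⟨U, hU⟩ : ∃ U, U = Used I rt par n z := ⟨_, rfl⟩
  rw [← hU]
  have hUI : ∀ X ∈ U, X ∈ I ∧ (EX n z (T X)).Nonempty := by
    intro X hX
    rw [hU] at hX
    have := Finset.mem_filter.1 hX
    rw [hTX] at this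
    exact this
  -- the vertices of the cycle
  obtain ⟨Z, hZ⟩ : ∃ Z : Finset V, Z = (Finset.range n).image z := ⟨_, rfl⟩
  have hZcard : Z.card = n := by
    rw [hZ, Finset.card_image_of_injOn, Finset.card_range]
    intro i hi j hj hij
    exact hcyc.inj i (Finset.mem_range.1 hi) j (Finset.mem_range.1 hj) hij
  have hzZ : ∀ k, z k ∈ Z := by
    intro k
    rw [per_mod (by omega) hcyc.per k, hZ]
    exact Finset.mem_image.2 ⟨k % n, Finset.mem_range.2 (Nat.mod_lt _ (by omega)), rfl⟩
  have hZA : Z ⊆ A := by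
    intro w hw
    rw [hZ] at hw
    obtain ⟨k, -, rfl⟩ := Finset.mem_image.1 hw
    exact hzA k
  have hnotZ : ∀ w, w ∉ Z ↔ ∀ k, z k ≠ w := by
    intro w
    constructor
    · intro h k hk; exact h (hk ▸ hzZ k)
    · intro h hw
      rw [hZ] at hw
      obtain ⟨k, -, hk⟩ := Finset.mem_image.1 hw
      exact h k hk
  -- traces of the blocks
  obtain ⟨AX, hAX⟩ : ∃ AX : Set V → Finset V, AX = fun X => A.filter (fun w => w ∈ X) := ⟨_, rfl⟩
  have hmemAX : ∀ X w, w ∈ AX X ↔ w ∈ A ∧ w ∈ X := by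
    intro X w; rw [hAX]; exact Finset.mem_filter
  obtain ⟨D, hD⟩ : ∃ D : Finset V,
    D = A.filter (fun w => (∀ k, z k ≠ w) ∧ ∃ X ∈ U, w ∈ X) := ⟨_, rfl⟩
  rw [← hD]
  have hmemD : ∀ w, w ∈ D ↔ w ∈ A ∧ w ∉ Z ∧ ∃ X ∈ U, w ∈ X := by
    intro w
    rw [hD, Finset.mem_filter, hnotZ]
  have hZD : Disjoint Z D := by
    rw [Finset.disjoint_left]
    intro w hw hw'
    exact ((hmemD w).1 hw').2.1 hw
  have hA'card : ((Z ∪ D).card : ℝ) = n + D.card := by
    rw [Finset.card_union_of_disjoint hZD, hZcard]; push_cast; ring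
  have hA'A : (Z ∪ D).card ≤ A.card := by
    apply Finset.card_le_card
    apply Finset.union_subset hZA
    intro w hw; exact ((hmemD w).1 hw).1
  have hAXsub : ∀ X ∈ U, AX X ⊆ Z ∪ D := by
    intro X hX w hw
    obtain ⟨hwA, hwX⟩ := (hmemAX X w).1 hw
    by_cases hwZ : w ∈ Z
    · exact Finset.mem_union_left _ hwZ
    · exact Finset.mem_union_right _ ((hmemD w).2 ⟨hwA, hwZ, X, hX, hwX⟩)
  -- size of the trace of a block
  have hAXcard : ∀ X, ((AX X).card : ℝ) = (VX n z X).card + ((AX X) \ Z).card := by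
    intro X
    have h1 := Finset.card_inter_add_card_sdiff (AX X) Z
    have h2 : (AX X ∩ Z) = (VX n z X).image z := by
      ext w
      rw [Finset.mem_inter, hmemAX, Finset.mem_image]
      constructor
      · rintro ⟨⟨-, hwX⟩, hwZ⟩
        rw [hZ] at hwZ
        obtain ⟨k, hk, rfl⟩ := Finset.mem_image.1 hwZ
        exact ⟨k, Finset.mem_filter.2 ⟨hk, hwX⟩, rfl⟩
      · rintro ⟨k, hk, rfl⟩
        exact ⟨⟨hzA k, (Finset.mem_filter.1 hk).2⟩, hzZ k⟩
    have h3 : ((VX n z X).image z).card = (VX n z X).card := by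
      apply Finset.card_image_of_injOn
      intro i hi j hj hij
      have hi' := Finset.mem_range.1 (Finset.mem_filter.1 hi).1
      have hj' := Finset.mem_range.1 (Finset.mem_filter.1 hj).1
      exact hcyc.inj i hi' j hj' hij
    rw [h2, h3] at h1
    rw [← h1]; push_cast; ring
  -- double counting
  have hdouble : ∑ w ∈ D, ((U.filter (fun X => w ∈ X)).card : ℝ) =
      ∑ X ∈ U, (((AX X) \ Z).card : ℝ) := by
    have h1 : ∀ w ∈ D, ((U.filter (fun X => w ∈ X)).card : ℝ) =
        ∑ X ∈ U, if w ∈ X then (1 : ℝ) else 0 := by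
      intro w _
      rw [Finset.card_filter]; push_cast; rfl
    rw [Finset.sum_congr rfl h1, Finset.sum_comm]
    refine Finset.sum_congr rfl fun X hX => ?_
    have h2 : (AX X) \ Z = D.filter (fun w => w ∈ X) := by
      ext w
      rw [Finset.mem_sdiff, hmemAX, Finset.mem_filter, hmemD]
      constructor
      · rintro ⟨⟨h3, h4⟩, h5⟩; exact ⟨⟨h3, h5, X, hX, h4⟩, h4⟩
      · rintro ⟨⟨h3, h5, -⟩, h4⟩; exact ⟨⟨h3, h4⟩, h5⟩
    rw [h2, Finset.card_filter]; push_cast; rfl
  -- the pairs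
  have hconnAX : ∀ X ∈ U, 2 * (AX X).card ≤ (pr (T X) (AX X)).card + 2 := by
    intro X hX
    obtain ⟨hXI, k, hk⟩ := hUI X hX
    have hk2 := (Finset.mem_filter.1 hk).2
    refine conn_card ⟨z k, (hmemAX X _).2 ⟨hzA k, (hTmem X hXI _ _ hk2).1⟩⟩ ?_
    intro u hu w hw
    obtain ⟨huA, huX⟩ := (hmemAX X u).1 hu
    obtain ⟨hwA, hwX⟩ := (hmemAX X w).1 hw
    obtain ⟨l, hl⟩ := hconn X hXI u huA w hwA huX hwX
    refine ⟨l, hl.toWk.restrict ?_⟩
    intro x hx
    have hxX : x ∈ X := by
      refine chain_mem (R := (T X).Adj) (fun a b hab => (hTmem X hXI a b hab).2) l hl.chain ?_ x hx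
      intro b hb
      have := hl.head
      rw [this] at hb
      rw [← Option.some.inj hb]; exact huX
    have hxA : x ∈ A := by exact_mod_cast hl.mem x hx
    exact_mod_cast (hmemAX X x).2 ⟨hxA, hxX⟩
  have hcount : 2 * (n : ℝ) + ∑ X ∈ U, (2 * ((AX X).card : ℝ) - 2 - 2 * (EX n z (T X)).card) ≤
      ((pr Y (Z ∪ D)).card : ℝ) := by
    have hdisj : Disjoint (cy n z) (U.biUnion fun X => pr (T X) (AX X) \ cy n z) := by
      rw [Finset.disjoint_left]
      intro p hp hp'
      obtain ⟨X, -, hpX⟩ := Finset.mem_biUnion.1 hp'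
      exact (Finset.mem_sdiff.1 hpX).2 hp
    have hsub : cy n z ∪ (U.biUnion fun X => pr (T X) (AX X) \ cy n z) ⊆ pr Y (Z ∪ D) := by
      apply Finset.union_subset
      · intro p hp
        rcases Finset.mem_union.1 hp with h | h
        · obtain ⟨k, -, rfl⟩ := Finset.mem_image.1 h
          exact mem_pr.2 ⟨⟨Finset.mem_union_left _ (hzZ _), Finset.mem_union_left _ (hzZ _)⟩,
            hcyc.adj k⟩
        · obtain ⟨k, -, rfl⟩ := Finset.mem_image.1 h
          exact mem_pr.2 ⟨⟨Finset.mem_union_left _ (hzZ _), Finset.mem_union_left _ (hzZ _)⟩,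
            (hcyc.adj k).symm⟩
      · intro p hp
        obtain ⟨X, hX, hpX⟩ := Finset.mem_biUnion.1 hp
        obtain ⟨⟨h1, h2⟩, h3⟩ := mem_pr.1 (Finset.mem_sdiff.1 hpX).1
        exact mem_pr.2 ⟨⟨hAXsub X hX h1, hAXsub X hX h2⟩, hTY X (hUI X hX).1 _ _ h3⟩
    have hcard := Finset.card_le_card hsub
    rw [Finset.card_union_of_disjoint hdisj, Finset.card_biUnion] at hcard
    · have h1 : ∀ X ∈ U, (2 * ((AX X).card : ℝ) - 2 - 2 * (EX n z (T X)).card) ≤
          ((pr (T X) (AX X) \ cy n z).card : ℝ) := by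
        intro X hX
        have h2 := hconnAX X hX
        have h3 := cyc_part (T := T X) (B := AX X) (n := n) (z := z)
        have h4 := Finset.card_inter_add_card_sdiff (pr (T X) (AX X)) (cy n z)
        have h5 : 2 * (AX X).card ≤
            (pr (T X) (AX X) \ cy n z).card + 2 + 2 * (EX n z (T X)).card := by omega
        have h6 : (2 * ((AX X).card : ℝ)) ≤
            (pr (T X) (AX X) \ cy n z).card + 2 + 2 * (EX n z (T X)).card := by exact_mod_cast h5
        linarith
      have h7 := card_cy hcyc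
      have h8 : ((cy n z).card : ℝ) + ∑ X ∈ U, ((pr (T X) (AX X) \ cy n z).card : ℝ) ≤
          ((pr Y (Z ∪ D)).card : ℝ) := by exact_mod_cast hcard
      have h9 := Finset.sum_le_sum h1
      have h10 : 2 * (n : ℝ) ≤ ((cy n z).card : ℝ) := by exact_mod_cast h7
      linarith
    · intro X hX X' hX' hne
      rw [Function.onFun, Finset.disjoint_left]
      intro p hp hp'
      obtain ⟨⟨h1, h2⟩, h3⟩ := mem_pr.1 (Finset.mem_sdiff.1 hp).1
      obtain ⟨⟨h1', h2'⟩, -⟩ := mem_pr.1 (Finset.mem_sdiff.1 hp').1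
      have h4 := hW.blocks.one X (hW.sub X (hUI X hX).1) X' (hW.sub X' (hUI X' hX').1) hne
        p.1 ((hmemAX X _).1 h1).2 ((hmemAX X' _).1 h1').2 p.2 ((hmemAX X _).1 h2).2
        ((hmemAX X' _).1 h2').2
      exact h3.ne h4
  rw [card_pr] at hcount
  have hA'2n : (Z ∪ D).card ≤ 2 * n := by omega
  have hsp := hsparse (Z ∪ D) hA'2n
  have hspos : (0 : ℝ) < s := by exact_mod_cast hs
  -- the left-hand side
  have hL : ∑ X ∈ U, (((VX n z X).card : ℝ) - (EX n z (T X)).card - 1) +
      ∑ w ∈ D, (((U.filter (fun X => w ∈ X)).card : ℝ) - 1) =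
      ∑ X ∈ U, (((AX X).card : ℝ) - (EX n z (T X)).card - 1) - D.card := by
    rw [Finset.sum_sub_distrib (s := D), hdouble, Finset.sum_const, nsmul_eq_mul, mul_one]
    have h1 : ∑ X ∈ U, (((AX X).card : ℝ) - (EX n z (T X)).card - 1) =
        ∑ X ∈ U, (((VX n z X).card : ℝ) - (EX n z (T X)).card - 1) +
          ∑ X ∈ U, (((AX X) \ Z).card : ℝ) := by
      rw [← Finset.sum_add_distrib]
      refine Finset.sum_congr rfl fun X _ => ?_
      rw [hAXcard X]; ring
    rw [h1]; ring
  have hsum2 : ∑ X ∈ U, (2 * ((AX X).card : ℝ) - 2 - 2 * (EX n z (T X)).card) =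
      2 * ∑ X ∈ U, (((AX X).card : ℝ) - (EX n z (T X)).card - 1) := by
    rw [Finset.mul_sum]
    refine Finset.sum_congr rfl fun X _ => ?_
    ring
  rw [hsum2] at hcount
  have hAr : (1000 : ℝ) * (Z ∪ D).card ≤ 1001 * n := by
    have : 1000 * (Z ∪ D).card ≤ 1001 * n := le_trans (by omega) hAn
    exact_mod_cast this
  have hfin : (2 / (s : ℝ)) * ((Z ∪ D).card : ℝ) ≤ 3 * n / s := by
    rw [div_mul_eq_mul_div]
    apply div_le_div_of_nonneg_right _ hspos.le
    have hn0 : (0 : ℝ) ≤ n := Nat.cast_nonneg n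
    linarith
  have hexp : (1 + 2 / (s : ℝ)) * ((Z ∪ D).card : ℝ) =
      (Z ∪ D).card + (2 / (s : ℝ)) * ((Z ∪ D).card : ℝ) := by ring
  rw [hexp] at hsp
  calc _ = ∑ X ∈ U, (((AX X).card : ℝ) - (EX n z (T X)).card - 1) - D.card := hL
    _ ≤ ed Y (Z ∪ D) - (Z ∪ D).card := by rw [hA'card]; linarith
    _ ≤ (2 / (s : ℝ)) * ((Z ∪ D).card : ℝ) := by linarith
    _ ≤ 3 * n / s := hfin

end Pool.Agent.Lib.MP_b6048d_co.F
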