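import Pool.Agent.Lib.MP_b6048d_co.F.SpecF
import Pool.Agent.Lib.MP_b6048d_co.F.Base

set_option autoImplicit false

/-!
# F01: paths in a rooted tree
-/

open scoped Classical

namespace Pool.Agent.Lib.MP_b6048d_co.F

namespace TreeFactsAux

variable {V : Type} {G : SimpleGraph V} {X : Set V} {d : ℕ} {rt : V} {lv : V → ℕ} {par : V → V}

lemma adj_cases (h : BT G X d rt lv par) {u v : V} (ha : (TGr X rt par).Adj u v) :
    (u ∈ X ∧ v ∈ X ∧ G.Adj u v) ∧
      ((par u = v ∧ lv u = lv v + 1) ∨ (par v = u ∧ lv v = lv u + 1)) := by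
  unfold TGr at ha
  rw [SimpleGraph.fromRel_adj] at ha
  rcases ha.2 with ⟨h1, h2, h3⟩ | ⟨h1, h2, h3⟩
  · obtain ⟨p1, p2, p3⟩ := h.par u h1 h2
    rw [h3] at p1 p2 p3
    exact ⟨⟨h1, p1, p2.symm⟩, Or.inl ⟨h3, p3⟩⟩
  · obtain ⟨p1, p2, p3⟩ := h.par v h1 h2
    rw [h3] at p1 p2 p3
    exact ⟨⟨p1, h1, p2⟩, Or.inr ⟨h3, p3⟩⟩

lemma down (h : BT G X d rt lv par) {u v : V} (ha : (TGr X rt par).Adj u v) (hl : lv v ≤ lv u) :
    v = par u := by
  rcases (adj_cases h ha).2 with ⟨h1, _⟩ | ⟨_, h2⟩
  · exact h1.symm
  · omega

lemma no_cyc (h : BT G X d rt lv par) (Q : List V) : ¬ IsCyc (TGr X rt par) Q := by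
  intro hQ
  have hne : Q.toFinset.Nonempty := by
    have h1 := hQ.len
    rcases Q with _ | ⟨a, t⟩
    · simp at h1
    · exact ⟨a, by simp⟩
  obtain ⟨x, hx, hmax⟩ := Q.toFinset.exists_max_image lv hne
  rw [List.mem_toFinset] at hx
  obtain ⟨t, ht, hmem, hlen⟩ := cyc_rot hQ hx
  have h3 := ht.len
  rcases t with _ | ⟨y, s⟩
  · simp at h3
  rcases s with _ | ⟨z, s⟩
  · simp at h3
  have hxy : (TGr X rt par).Adj x y := by
    have := ht.chain
    rw [List.isChain_cons_cons] at this
    exact this.1
  set w := (z :: s).getLast (by simp) with hw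
  have hwm : w ∈ z :: s := List.getLast_mem _
  have hwx : (TGr X rt par).Adj w x := by
    refine ht.closed x rfl w ?_
    rw [List.getLast?_eq_getLast_of_ne_nil (by simp)]
    simp [hw]
  have hyw : y ≠ w := by
    intro hh
    have := ht.nodup
    simp only [List.nodup_cons] at this
    exact this.2.1 (hh ▸ hwm)
  have hle : ∀ v, v ∈ x :: y :: z :: s → lv v ≤ lv x := by
    intro v hv
    exact hmax v (List.mem_toFinset.2 ((hmem v).2 hv))
  have e1 : y = par x := down h hxy (hle y (by simp))
  have e2 : w = par x := down h hwx.symm (hle w (by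
    rw [List.mem_cons, List.mem_cons]
    exact Or.inr (Or.inr hwm)))
  exact hyw (e1.trans e2.symm)

lemma to_root (h : BT G X d rt lv par) (n : ℕ) : ∀ u ∈ X, lv u = n →
    ∃ l, Wk (TGr X rt par) X u rt l ∧ l.length = n + 1 := by
  induction n with
  | zero =>
    intro u hu hn
    by_cases hur : u = rt
    · subst hur
      exact ⟨[u], Wk.single hu, rfl⟩
    · have := (h.par u hu hur).2.2
      omega
  | succ n ih =>
    intro u hu hn
    by_cases hur : u = rt
    · subst hur
      have := h.rt_lv
      omega
    · obtain ⟨p1, p2, p3⟩ := h.par u hu hur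
      obtain ⟨l, hl, hlen⟩ := ih (par u) p1 (by omega)
      have hadj : (TGr X rt par).Adj u (par u) := by
        unfold TGr
        rw [SimpleGraph.fromRel_adj]
        exact ⟨p2.ne.symm, Or.inl ⟨hu, hur, rfl⟩⟩
      exact ⟨u :: l, hl.cons hu hadj, by simp [hlen]⟩

/-- once a path goes up it continues to go up -/
lemma up (h : BT G X d rt lv par) : ∀ (t : List V) (x y : V),
    (x :: y :: t).IsChain (TGr X rt par).Adj → (x :: y :: t).Nodup → lv x < lv y →
    (x :: y :: t).IsChain (fun p q => lv p < lv q) := by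
  intro t
  induction t with
  | nil =>
    intro x y _ _ hlt
    simp [List.isChain_cons_cons, hlt]
  | cons z t ih =>
    intro x y hc hn hlt
    rw [List.isChain_cons_cons] at hc
    have hc2 := hc.2
    rw [List.isChain_cons_cons] at hc2
    rw [List.nodup_cons] at hn
    have hxz : x ≠ z := fun hh => hn.1 (by simp [hh])
    have hyz : lv y < lv z := by
      by_contra hcon
      have e1 : z = par y := down h hc2.1 (by omega)
      have e2 : x = par y := down h hc.1.symm hlt.le
      exact hxz (e2.trans e1.symm)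
    rw [List.isChain_cons_cons]
    exact ⟨hlt, ih y z hc.2 hn.2 hyz⟩

lemma decomp (h : BT G X d rt lv par) : ∀ (t : List V) (x : V),
    (x :: t).IsChain (TGr X rt par).Adj → (x :: t).Nodup →
    ∃ a m b, x :: t = a ++ m :: b ∧ (a ++ [m]).IsChain (fun p q => lv q < lv p) ∧
      (m :: b).IsChain (fun p q => lv p < lv q) := by
  intro t
  induction t with
  | nil =>
    intro x _ _
    exact ⟨[], x, [], rfl, by simp, by simp⟩
  | cons y t ih =>
    intro x hc hn
    by_cases hlt : lv x < lv y
    · exact ⟨[], x, y :: t, rfl, by simp, up h t x y hc hn hlt⟩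
    · rw [List.isChain_cons_cons] at hc
      have hgt : lv y < lv x := by
        rcases (adj_cases h hc.1).2 with ⟨_, h1⟩ | ⟨_, h1⟩ <;> omega
      rw [List.nodup_cons] at hn
      obtain ⟨a, m, b, h1, h2, h3⟩ := ih y hc.2 hn.2
      refine ⟨x :: a, m, b, by rw [h1]; rfl, ?_, h3⟩
      rcases a with _ | ⟨y', a⟩
      · simp only [List.nil_append, List.cons.injEq] at h1
        simp only [List.cons_append, List.nil_append]
        rw [List.isChain_cons_cons]
        exact ⟨h1.1 ▸ hgt, by simp⟩
      · simp only [List.cons_append, List.cons.injEq] at h1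
        simp only [List.cons_append] at h2 ⊢
        rw [List.isChain_cons_cons]
        exact ⟨h1.1 ▸ hgt, h2⟩

lemma inX (h : BT G X d rt lv par) : ∀ (t : List V) (x y : V),
    (x :: y :: t).IsChain (TGr X rt par).Adj → ∀ z ∈ x :: y :: t, z ∈ X := by
  intro t
  induction t with
  | nil =>
    intro x y hc z hz
    rw [List.isChain_cons_cons] at hc
    have h1 := (adj_cases h hc.1).1
    simp only [List.mem_cons, List.not_mem_nil, or_false] at hz
    rcases hz with rfl | rfl
    · exact h1.1
    · exact h1.2.1
  | cons w t ih =>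
    intro x y hc z hz
    rw [List.isChain_cons_cons] at hc
    have h1 := (adj_cases h hc.1).1
    rcases List.mem_cons.1 hz with rfl | hz
    · exact h1.1
    · exact ih y w hc.2 z hz

lemma card_one {s : List V} (hs : (s.map lv).Nodup) (j : ℕ) :
    (s.toFinset.filter (fun x => lv x = j)).card ≤ 1 := by
  rw [Finset.card_le_one]
  intro p hp q hq
  simp only [Finset.mem_filter, List.mem_toFinset] at hp hq
  exact List.inj_on_of_nodup_map hs hp.1 hq.1 (hp.2.trans hq.2.symm)

lemma len_le {s : List V} (hs : (s.map lv).Nodup) (hd : ∀ x ∈ s, lv x ≤ d) :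
    s.length ≤ d + 1 := by
  have h1 : (s.map lv).toFinset ⊆ Finset.range (d + 1) := by
    intro j hj
    rw [List.mem_toFinset, List.mem_map] at hj
    obtain ⟨x, hx, rfl⟩ := hj
    have := hd x hx
    simp only [Finset.mem_range]
    omega
  have h2 := Finset.card_le_card h1
  rw [List.toFinset_card_of_nodup hs, Finset.card_range, List.length_map] at h2
  exact h2

lemma nodup_inc {s : List V} (hs : s.IsChain (fun p q => lv p < lv q)) : (s.map lv).Nodup := by
  have h1 : (s.map lv).IsChain (fun a b : ℕ => a < b) := by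
    rw [List.isChain_map]; exact hs
  have h2 : (s.map lv).Pairwise (fun a b : ℕ => a < b) := h1.pairwise
  exact h2.imp (fun hab => hab.ne)

lemma nodup_dec {s : List V} (hs : s.IsChain (fun p q => lv q < lv p)) : (s.map lv).Nodup := by
  have h1 : (s.map lv).IsChain (fun a b : ℕ => a > b) := by
    rw [List.isChain_map]; exact hs
  have h2 : (s.map lv).Pairwise (fun a b : ℕ => a > b) := h1.pairwise
  exact h2.imp (fun hab => hab.ne')

end TreeFactsAux

open TreeFactsAux in
theorem treeFacts : TreeFacts := by
  intro V G X d rt lv par h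
  refine ⟨⟨?_, ?_⟩, no_cyc h, ?_, ?_⟩
  · intro u v ha
    exact (adj_cases h ha).1.2.2
  · intro u v ha
    obtain ⟨⟨h1, h2, _⟩, h3⟩ := adj_cases h ha
    refine ⟨h1, h2, ?_⟩
    rcases h3 with ⟨_, h3⟩ | ⟨_, h3⟩
    · exact Or.inl h3
    · exact Or.inr h3
  · intro u hu w hw
    obtain ⟨l, hl, hlen⟩ := to_root h (lv u) u hu rfl
    obtain ⟨l', hl', hlen'⟩ := to_root h (lv w) w hw rfl
    have h1 := hl.append hl'.reverse
    have h2 := hl.append_length hl'.reverse
    obtain ⟨p, hp, _, hple⟩ := h1.toPth
    refine ⟨p, hp, ?_⟩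
    have h3 := h.dep u hu
    have h4 := h.dep w hw
    rw [List.length_reverse] at h2
    omega
  · intro u w l hl
    obtain ⟨t, rfl⟩ := hl.toWk.exists_cons
    obtain ⟨a, m, b, h1, h2, h3⟩ := decomp h t u hl.chain hl.nodup
    have hda := nodup_dec h2
    have hib := nodup_inc h3
    constructor
    · intro j
      have hsub : ((u :: t).toFinset.filter (fun x => lv x = j)) ⊆
          ((a ++ [m]).toFinset.filter (fun x => lv x = j)) ∪
            ((m :: b).toFinset.filter (fun x => lv x = j)) := by
        intro x hx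
        rw [Finset.mem_filter, List.mem_toFinset, h1] at hx
        rw [Finset.mem_union, Finset.mem_filter, Finset.mem_filter, List.mem_toFinset,
          List.mem_toFinset]
        rcases List.mem_append.1 hx.1 with h4 | h4
        · exact Or.inl ⟨List.mem_append_left _ h4, hx.2⟩
        · exact Or.inr ⟨h4, hx.2⟩
      calc _ ≤ _ := Finset.card_le_card hsub
        _ ≤ _ := Finset.card_union_le _ _
        _ ≤ 1 + 1 := Nat.add_le_add (card_one hda j) (card_one hib j)
    · rcases t with _ | ⟨y, t⟩
      · simp
      · have hin := inX h t u y hl.chain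
        rw [h1] at hin
        have e1 := len_le (d := d) hda (fun x hx => h.dep x (hin x (by
          rcases List.mem_append.1 hx with h4 | h4
          · exact List.mem_append_left _ h4
          · rw [List.mem_singleton] at h4
            subst h4
            exact List.mem_append_right _ (by simp))))
        have e2 := len_le (d := d) hib (fun x hx => h.dep x (hin x (List.mem_append_right _ hx)))
        rw [h1, List.length_append]
        rw [List.length_append, List.length_singleton] at e1
        rw [List.length_cons] at e2 ⊢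
        omega

end Pool.Agent.Lib.MP_b6048d_co.F
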