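import Pool.Agent.Lib.MP_b6048d_co.F.SpecF

set_option autoImplicit false

/-!
F02 WebExists: breadth first search trees of the blocks, and the web.
-/

open scoped Classical

namespace Pool.Agent.Lib.MP_b6048d_co.F.WebExistsAux

open Pool.Agent.Lib.MP_b6048d_co.F

variable {V : Type*}

theorem bt_exists (G : SimpleGraph V) (X : Set V) (d : ℕ) (rt : V) (hrt : rt ∈ X)
    (h : ∀ v ∈ X, ∃ l, Wk G X rt v l ∧ l.length ≤ d + 1) :
    ∃ (lv : V → ℕ) (par : V → V), BT G X d rt lv par := by
  -- levels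
  have hlv : ∀ v : V, ∃ n : ℕ, (v ∈ X → ∃ l, Wk G X rt v l ∧ l.length = n + 1) ∧
      (∀ l, Wk G X rt v l → n + 1 ≤ l.length) := by
    intro v
    by_cases hv : v ∈ X
    · obtain ⟨l₀, hl₀, -⟩ := h v hv
      have hex : ∃ n : ℕ, ∃ l, Wk G X rt v l ∧ l.length = n + 1 :=
        ⟨l₀.length - 1, l₀, hl₀, by have := hl₀.length_pos; omega⟩
      refine ⟨Nat.find hex, fun _ => Nat.find_spec hex, fun l hl => ?_⟩
      have hpos := hl.length_pos
      have h1 : Nat.find hex ≤ l.length - 1 := Nat.find_min' hex ⟨l, hl, by omega⟩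
      omega
    · refine ⟨0, fun hh => absurd hh hv, fun l hl => ?_⟩
      exact absurd hl.right_in hv
  choose lv hlv1 hlv2 using hlv
  -- parents
  have hpar : ∀ v : V, ∃ p : V, v ∈ X → v ≠ rt → p ∈ X ∧ G.Adj p v ∧ lv v = lv p + 1 := by
    intro v
    by_cases hv : v ∈ X ∧ v ≠ rt
    · obtain ⟨hvX, hvr⟩ := hv
      obtain ⟨l, hl, hlen⟩ := hlv1 v hvX
      obtain ⟨t, rfl⟩ := hl.exists_concat
      rcases List.eq_nil_or_concat t with h1 | ⟨t', p, rfl⟩
      · subst h1
        have := hl.head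
        simp only [List.nil_append, List.head?_cons, Option.some.injEq] at this
        exact absurd this hvr
      · rw [List.concat_eq_append] at hl hlen
        have e1 : t' ++ [p] ++ [v] = t' ++ p :: [v] := by simp
        rw [e1] at hl
        have hc := hl.cut
        have hadj : G.Adj p v := by
          have h3 := hc.2.chain
          rw [List.isChain_cons_cons] at h3
          exact h3.1
        refine ⟨p, fun _ _ => ⟨hc.1.right_in, hadj, ?_⟩⟩
        have h4 := hlv2 p _ hc.1
        obtain ⟨l', hl', hlen'⟩ := hlv1 p hc.1.right_in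
        have h5 := hlv2 v _ (hl'.concat hvX hadj)
        simp only [List.length_append, List.length_cons, List.length_nil] at h4 h5 hlen
        omega
    · refine ⟨v, fun h1 h2 => absurd ⟨h1, h2⟩ hv⟩
  choose par hpar using hpar
  refine ⟨lv, par, hrt, ?_, hpar, ?_, ?_⟩
  · have := hlv2 rt _ (Wk.single hrt)
    simp only [List.length_cons, List.length_nil] at this
    omega
  · intro u hu v hv huv
    obtain ⟨l, hl, hlen⟩ := hlv1 v hv
    have h5 := hlv2 u _ (hl.concat hu huv.symm)
    simp only [List.length_append, List.length_cons, List.length_nil] at h5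
    omega
  · intro v hv
    obtain ⟨l, hl, hlen⟩ := h v hv
    have := hlv2 v l hl
    omega

end Pool.Agent.Lib.MP_b6048d_co.F.WebExistsAux

namespace Pool.Agent.Lib.MP_b6048d_co.F

theorem webExists : WebExists := by
  intro V G XX a g I Tc Ce hB hF
  have key : ∀ X : Set V, ∃ (rt : V) (lv : V → ℕ) (par : V → V), X ∈ I →
      BT G X (3 * a) rt lv par := by
    intro X
    by_cases hX : X ∈ I
    · have hXX := hF.sub X hX
      obtain ⟨rt, hrt⟩ := hB.ne X hXX
      obtain ⟨lv, par, hbt⟩ := WebExistsAux.bt_exists G X (3 * a) rt hrt (by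
        intro v hv
        by_cases hvr : rt = v
        · subst hvr
          exact ⟨[rt], Wk.single hrt, by simp⟩
        · obtain ⟨l, hl, -, hlen⟩ := (hB.par X hXX rt hrt v hv hvr).1
          exact ⟨l, hl.toWk, hlen⟩)
      exact ⟨rt, lv, par, fun _ => hbt⟩
    · obtain ⟨X₀, hX₀⟩ := hF.ne
      obtain ⟨v₀, -⟩ := hB.ne X₀ (hF.sub X₀ hX₀)
      exact ⟨v₀, fun _ => 0, fun _ => v₀, fun h => absurd h hX⟩
  choose rt lv par hbt using key
  refine ⟨rt, lv, par, ⟨fun u v => Ce.Adj u v ∨ ∃ X ∈ I, (TGr X (rt X) (par X)).Adj u v, ?_, ?_⟩,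
    ⟨hB, hF.sub, hF.cells, hbt, fun u v => Iff.rfl⟩⟩
  · refine ⟨fun u v huv => ?_⟩
    rcases huv with h | ⟨X, hX, h⟩
    · exact Or.inl h.symm
    · exact Or.inr ⟨X, hX, h.symm⟩
  · refine ⟨fun u huu => ?_⟩
    rcases huu with h | ⟨X, hX, h⟩
    · exact Ce.irrefl h
    · exact (TGr X (rt X) (par X)).irrefl h

end Pool.Agent.Lib.MP_b6048d_co.F
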