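import Pool.Agent.Lib.MP_b6048d_co.F.Base

set_option autoImplicit false

/-!
Basic facts on balls, neighbourhoods and edge counts.
-/

open scoped Classical

namespace Pool.Agent.Lib.MP_b6048d_co.F

variable {V : Type*} {Γ Γ' : SimpleGraph V} {S T H A B R W : Finset V} {u v w x y : V} {i j : ℕ}

/-! ### neighbourhoods and balls -/

lemma mem_nbr : w ∈ nbr Γ H A ↔ w ∈ H ∧ w ∉ A ∧ ∃ a ∈ A, Γ.Adj a w := by
  unfold nbr
  rw [Finset.mem_filter, Finset.mem_sdiff]
  tauto

lemma nbr_subset : nbr Γ H A ⊆ H := fun _ hw => (mem_nbr.1 hw).1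

lemma nbr_disjoint : Disjoint A (nbr Γ H A) :=
  Finset.disjoint_left.2 fun _ hx hx' => (mem_nbr.1 hx').2.1 hx

lemma nbr_mono_left (h : S ⊆ T) : nbr Γ S A ⊆ nbr Γ T A := fun _ hw =>
  mem_nbr.2 ⟨h (mem_nbr.1 hw).1, (mem_nbr.1 hw).2⟩

lemma card_bl_succ : (bl Γ S A (i + 1)).card = (bl Γ S A i).card + (nbr Γ S (bl Γ S A i)).card := by
  rw [bl, Finset.card_union_of_disjoint nbr_disjoint]

lemma bl_subset : bl Γ S A i ⊆ S := by
  induction i with
  | zero => exact Finset.inter_subset_right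
  | succ i ih => exact Finset.union_subset ih nbr_subset

lemma bl_succ_subset : bl Γ S A i ⊆ bl Γ S A (i + 1) := Finset.subset_union_left

lemma bl_mono (h : i ≤ j) : bl Γ S A i ⊆ bl Γ S A j := by
  induction j, h using Nat.le_induction with
  | base => exact Finset.Subset.refl _
  | succ j _ ih => exact ih.trans bl_succ_subset

lemma mem_bl_zero : x ∈ bl Γ S A 0 ↔ x ∈ A ∧ x ∈ S := by
  rw [bl, Finset.mem_inter]

lemma bl_step (hx : x ∈ bl Γ S A i) (hy : y ∈ S) (hxy : Γ.Adj x y) : y ∈ bl Γ S A (i + 1) := by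
  by_cases h : y ∈ bl Γ S A i
  · exact bl_succ_subset h
  · exact Finset.mem_union_right _ (mem_nbr.2 ⟨hy, h, x, hx, hxy⟩)

/-- Every point of a ball can be reached from the centre inside the ball. -/
lemma bl_walk (hx : x ∈ bl Γ S A i) :
    ∃ a ∈ A, a ∈ S ∧ ∃ l, Wk Γ ((bl Γ S A i : Finset V) : Set V) a x l ∧ l.length ≤ i + 1 := by
  induction i generalizing x with
  | zero =>
    have h1 := mem_bl_zero.1 hx
    exact ⟨x, h1.1, h1.2, [x], Wk.single (by exact_mod_cast hx), by simp⟩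
  | succ i ih =>
    rcases Finset.mem_union.1 hx with h1 | h1
    · obtain ⟨a, ha, haS, l, hl, hlen⟩ := ih h1
      exact ⟨a, ha, haS, l, hl.mono (by exact_mod_cast bl_succ_subset), by omega⟩
    · obtain ⟨hxS, hxn, b, hb, hbx⟩ := mem_nbr.1 h1
      obtain ⟨a, ha, haS, l, hl, hlen⟩ := ih hb
      refine ⟨a, ha, haS, l ++ [x], (hl.mono (by exact_mod_cast bl_succ_subset)).concat
        (by exact_mod_cast hx) hbx, ?_⟩
      rw [List.length_append, List.length_singleton]; omega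

lemma bl_of_walk {l : List V} (h : Wk Γ (S : Set V) u x l) (hu : u ∈ A) (hl : l.length ≤ i + 1) :
    x ∈ bl Γ S A i := by
  obtain ⟨n, hn⟩ : ∃ n, n = l.length := ⟨_, rfl⟩
  induction n generalizing l x i with
  | zero => exact absurd (List.length_eq_zero_iff.1 hn.symm) h.ne_nil
  | succ n ih =>
    obtain ⟨t, rfl⟩ := h.exists_concat
    rcases List.eq_nil_or_concat t with h1 | ⟨t', b, h1⟩
    · subst h1
      have : x = u := by simpa using h.head
      rw [this]
      exact bl_mono (Nat.zero_le i) (mem_bl_zero.2 ⟨hu, by exact_mod_cast h.left_in⟩)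
    · rw [List.concat_eq_append] at h1
      subst h1
      have e1 : t' ++ [b] ++ [x] = t' ++ b :: [x] := by simp
      rw [e1] at h
      have h2 := h.cut
      have h3 := h2.2.chain
      rw [List.isChain_cons_cons] at h3
      simp only [List.length_append, List.length_cons, List.length_nil] at hl hn
      obtain ⟨k, rfl⟩ : ∃ k, i = k + 1 := ⟨i - 1, by omega⟩
      refine bl_step (ih (i := k) h2.1 ?_ ?_) (by exact_mod_cast h.right_in) h3.1
      · simp only [List.length_append, List.length_cons, List.length_nil]; omega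
      · simp only [List.length_append, List.length_cons, List.length_nil]; omega

lemma mem_bl : x ∈ bl Γ S A i ↔ ∃ a ∈ A, ∃ l, Wk Γ (S : Set V) a x l ∧ l.length ≤ i + 1 := by
  constructor
  · intro hx
    obtain ⟨a, ha, -, l, hl, hlen⟩ := bl_walk hx
    exact ⟨a, ha, l, hl.mono (by exact_mod_cast bl_subset), hlen⟩
  · rintro ⟨a, ha, l, hl, hlen⟩
    exact bl_of_walk hl ha hlen

lemma mem_bl_single : x ∈ bl Γ S {u} i ↔ ∃ l, Wk Γ (S : Set V) u x l ∧ l.length ≤ i + 1 := by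
  rw [mem_bl]
  simp

lemma bl_mono_set (hS : S ⊆ T) (hA : A ⊆ B) : bl Γ S A i ⊆ bl Γ T B i := by
  intro x hx
  obtain ⟨a, ha, l, hl, hlen⟩ := mem_bl.1 hx
  exact mem_bl.2 ⟨a, hA ha, l, hl.mono (by exact_mod_cast hS), hlen⟩

lemma bl_trans (hx : x ∈ bl Γ S {u} i) (hy : y ∈ bl Γ S {x} j) : y ∈ bl Γ S {u} (i + j) := by
  obtain ⟨l, hl, h1⟩ := mem_bl_single.1 hx
  obtain ⟨l', hl', h2⟩ := mem_bl_single.1 hy
  refine mem_bl_single.2 ⟨_, hl.append hl', ?_⟩
  have := hl.append_length hl'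
  omega

lemma bl_symm (hx : x ∈ bl Γ S {u} i) : u ∈ bl Γ S {x} i := by
  obtain ⟨l, hl, h1⟩ := mem_bl_single.1 hx
  exact mem_bl_single.2 ⟨_, hl.reverse, by rw [List.length_reverse]; exact h1⟩

lemma self_mem_bl (hu : u ∈ S) : u ∈ bl Γ S {u} i :=
  bl_mono (Nat.zero_le i) (mem_bl_zero.2 ⟨by simp, hu⟩)

/-- A ball around one point is a connected set. -/
lemma conS_bl (hu : u ∈ S) : ConS Γ u i (bl Γ S {u} i) := by
  refine ⟨self_mem_bl hu, ?_⟩
  intro y hy
  obtain ⟨a, ha, -, l, hl, hlen⟩ := bl_walk hy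
  rw [Finset.mem_singleton] at ha
  subst ha
  exact ⟨l, hl, hlen⟩

/-- A walk meets the ball of radius `i` around its first vertex in its first `i + 1` entries. -/
lemma Wk.prefix_bl {l : List V} (h : Wk Γ (S : Set V) u v l) (k : ℕ) (hk : k < l.length) :
    l[k] ∈ bl Γ S {u} k := by
  have e1 : l = l.take k ++ l[k] :: l.drop (k + 1) := by
    rw [List.cons_getElem_drop_succ, List.take_append_drop]
  have h1 := h
  rw [e1] at h1
  refine mem_bl_single.2 ⟨_, h1.cut.1, ?_⟩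
  simp only [List.length_append, List.length_take, List.length_cons, List.length_nil]
  omega

/-! ### edge counts -/

lemma dg_mono (h : A ⊆ B) : dg Γ A v ≤ dg Γ B v :=
  Finset.card_le_card (Finset.filter_subset_filter _ h)

lemma dg_union_disjoint (h : Disjoint A B) : dg Γ (A ∪ B) v = dg Γ A v + dg Γ B v := by
  unfold dg
  rw [Finset.filter_union, Finset.card_union_of_disjoint]
  exact Finset.disjoint_filter_filter h

lemma dg_sdiff (h : A ⊆ H) : dg Γ H v = dg Γ (H \ A) v + dg Γ A v := by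
  have e1 : H = (H \ A) ∪ A := by rw [Finset.sdiff_union_of_subset h]
  conv_lhs => rw [e1]
  exact dg_union_disjoint Finset.sdiff_disjoint

/-- Double counting: the ordered edge sums between two sets agree. -/
lemma sum_dg_comm (A B : Finset V) : ∑ v ∈ A, (dg Γ B v : ℝ) = ∑ v ∈ B, (dg Γ A v : ℝ) := by
  have h1 : ∀ (A B : Finset V), ∑ v ∈ A, (dg Γ B v : ℝ) =
      ∑ v ∈ A, ∑ w ∈ B, (if Γ.Adj v w then (1 : ℝ) else 0) := by
    intro A B
    refine Finset.sum_congr rfl fun v _ => ?_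
    unfold dg
    rw [Finset.card_filter]
    push_cast
    rfl
  rw [h1, h1, Finset.sum_comm]
  refine Finset.sum_congr rfl fun v _ => Finset.sum_congr rfl fun w _ => ?_
  by_cases h : Γ.Adj w v
  · rw [if_pos h, if_pos h.symm]
  · rw [if_neg h, if_neg (fun hh => h hh.symm)]

lemma ed_nonneg : 0 ≤ ed Γ A := by
  unfold ed
  positivity

lemma ed_mono (h : A ⊆ B) : ed Γ A ≤ ed Γ B := by
  unfold ed
  have h1 : ∑ v ∈ A, (dg Γ A v : ℝ) ≤ ∑ v ∈ A, (dg Γ B v : ℝ) :=
    Finset.sum_le_sum fun v _ => by exact_mod_cast dg_mono h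
  have h2 : ∑ v ∈ A, (dg Γ B v : ℝ) ≤ ∑ v ∈ B, (dg Γ B v : ℝ) :=
    Finset.sum_le_sum_of_subset_of_nonneg h fun _ _ _ => by positivity
  linarith

/-- The edges of `H` split into those inside `H \ A`, those between `A` and `H \ A`, and those
inside `A`. -/
lemma ed_split (h : A ⊆ H) :
    ed Γ H = ed Γ (H \ A) + ∑ v ∈ A, (dg Γ (H \ A) v : ℝ) + ed Γ A := by
  have h1 : ∑ v ∈ H, (dg Γ H v : ℝ) = ∑ v ∈ H \ A, (dg Γ H v : ℝ) + ∑ v ∈ A, (dg Γ H v : ℝ) :=
    (Finset.sum_sdiff h).symm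
  have h2 : ∀ B : Finset V, ∑ v ∈ B, (dg Γ H v : ℝ) =
      ∑ v ∈ B, (dg Γ (H \ A) v : ℝ) + ∑ v ∈ B, (dg Γ A v : ℝ) := by
    intro B
    rw [← Finset.sum_add_distrib]
    refine Finset.sum_congr rfl fun v _ => ?_
    rw [dg_sdiff h]; push_cast; ring
  have h3 := sum_dg_comm (Γ := Γ) (H \ A) A
  unfold ed
  rw [h1, h2, h2, h3]
  ring

lemma ed_touch_le (h : A ⊆ H) : ed Γ H ≤ ed Γ (H \ A) + ∑ v ∈ A, (dg Γ H v : ℝ) := by
  have h1 := ed_split (Γ := Γ) h
  have h2 : ∑ v ∈ A, (dg Γ H v : ℝ) =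
      ∑ v ∈ A, (dg Γ (H \ A) v : ℝ) + ∑ v ∈ A, (dg Γ A v : ℝ) := by
    rw [← Finset.sum_add_distrib]
    refine Finset.sum_congr rfl fun v _ => ?_
    rw [dg_sdiff h]; push_cast; ring
  have h3 : ed Γ A ≤ ∑ v ∈ A, (dg Γ A v : ℝ) := by
    unfold ed
    have : (0 : ℝ) ≤ ∑ v ∈ A, (dg Γ A v : ℝ) := by positivity
    linarith
  linarith

/-- The edges touching `A` and the edges inside a set `R` disjoint from `A` are different edges
inside `A ∪ nbr Γ H A ∪ R`. -/
lemma ed_touch (h : A ⊆ H) (hR : Disjoint A R) :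
    ed Γ H + ed Γ R ≤ ed Γ (H \ A) + ed Γ (A ∪ nbr Γ H A ∪ R) := by
  have h1 := ed_split (Γ := Γ) h
  have h2 : A ⊆ A ∪ nbr Γ H A ∪ R := by
    intro x hx
    simp [hx]
  have h3 := ed_split (Γ := Γ) h2
  have h4 : ed Γ R ≤ ed Γ ((A ∪ nbr Γ H A ∪ R) \ A) := by
    apply ed_mono
    intro x hx
    rw [Finset.mem_sdiff]
    exact ⟨Finset.mem_union_right _ hx, fun hxA => Finset.disjoint_left.1 hR hxA hx⟩
  have h5 : ∑ v ∈ A, (dg Γ (H \ A) v : ℝ) ≤ ∑ v ∈ A, (dg Γ ((A ∪ nbr Γ H A ∪ R) \ A) v : ℝ) := by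
    refine Finset.sum_le_sum fun v hv => ?_
    have : dg Γ (H \ A) v ≤ dg Γ ((A ∪ nbr Γ H A ∪ R) \ A) v := by
      unfold dg
      apply Finset.card_le_card
      intro w hw
      rw [Finset.mem_filter, Finset.mem_sdiff] at hw
      rw [Finset.mem_filter, Finset.mem_sdiff]
      refine ⟨⟨?_, hw.1.2⟩, hw.2⟩
      simp only [Finset.mem_union]
      exact Or.inl (Or.inr (mem_nbr.2 ⟨hw.1.1, hw.1.2, v, hv, hw.2⟩))
    exact_mod_cast this
  linarith

lemma dg_lt_card (hv : v ∈ A) : dg Γ A v + 1 ≤ A.card := by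
  unfold dg
  have : (A.filter (fun w => Γ.Adj v w)).card < A.card := by
    apply Finset.card_lt_card
    rw [Finset.ssubset_iff_of_subset (Finset.filter_subset _ _)]
    exact ⟨v, hv, by simp⟩
  omega

lemma ed_le_sq : 2 * ed Γ A ≤ A.card * (A.card - 1 : ℝ) := by
  unfold ed
  have h1 : ∀ v ∈ A, (dg Γ A v : ℝ) ≤ A.card - 1 := by
    intro v hv
    have := dg_lt_card (Γ := Γ) hv
    have h2 : ((dg Γ A v + 1 : ℕ) : ℝ) ≤ A.card := by exact_mod_cast this
    push_cast at h2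
    linarith
  have h2 := Finset.sum_le_card_nsmul A (fun v => (dg Γ A v : ℝ)) _ h1
  rw [nsmul_eq_mul] at h2
  linarith

lemma ed_insert (hv : v ∉ A) : ed Γ (insert v A) = ed Γ A + dg Γ A v := by
  have h1 : ({v} : Finset V) ⊆ insert v A := by simp
  have h2 := ed_split (Γ := Γ) h1
  have h3 : insert v A \ {v} = A := by
    ext x
    simp only [Finset.mem_sdiff, Finset.mem_insert, Finset.mem_singleton]
    constructor
    · rintro ⟨h | h, h'⟩
      · exact absurd h h'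
      · exact h
    · intro h
      exact ⟨Or.inr h, fun hh => hv (hh ▸ h)⟩
  have h4 : ed Γ ({v} : Finset V) = 0 := by
    unfold ed dg
    simp
  rw [h2, h3, h4, Finset.sum_singleton]
  ring

lemma ed_empty : ed Γ (∅ : Finset V) = 0 := by
  unfold ed; simp

lemma ed_le_of_le (h : Γ ≤ Γ') : ed Γ A ≤ ed Γ' A := by
  unfold ed
  have : ∑ v ∈ A, (dg Γ A v : ℝ) ≤ ∑ v ∈ A, (dg Γ' A v : ℝ) := by
    refine Finset.sum_le_sum fun v _ => ?_
    have : dg Γ A v ≤ dg Γ' A v := by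
      unfold dg
      apply Finset.card_le_card
      intro w hw
      rw [Finset.mem_filter] at hw ⊢
      exact ⟨hw.1, h hw.2⟩
    exact_mod_cast this
  linarith

/-- In a minimal set every part touches many edges. -/
lemma MinD.touch {τ : ℕ → ℝ} (hmono : ∀ a b, a ≤ b → τ a ≤ τ b) (h : MinD Γ τ H) (hA : A ⊆ H) :
    τ H.card * A.card ≤ ed Γ H - ed Γ (H \ A) := by
  by_cases hA0 : A = ∅
  · subst hA0
    simp
  by_cases hAH : H \ A = ∅
  · have : A = H := Finset.Subset.antisymm hA (Finset.sdiff_eq_empty_iff_subset.1 hAH)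
    subst this
    have h1 := h.dens
    have h2 : ed Γ (A \ A) = 0 := by rw [Finset.sdiff_self]; exact ed_empty
    linarith
  · have hne : (H \ A).Nonempty := Finset.nonempty_iff_ne_empty.2 hAH
    have hcard : (H \ A).card + A.card = H.card := Finset.card_sdiff_add_card_eq_card hA
    have hApos : 0 < A.card := Finset.card_pos.2 (Finset.nonempty_iff_ne_empty.2 hA0)
    have h1 := h.min (H \ A) hne (by omega)
    have h2 := hmono (H \ A).card H.card (by omega)
    have h3 := h.dens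
    have h4 : ((H \ A).card : ℝ) + A.card = H.card := by exact_mod_cast hcard
    have h5 : (0 : ℝ) ≤ (H \ A).card := by positivity
    have h6 : τ (H \ A).card * (H \ A).card ≤ τ H.card * (H \ A).card :=
      mul_le_mul_of_nonneg_right h2 h5
    have h7 : τ H.card * H.card = τ H.card * (H \ A).card + τ H.card * A.card := by
      rw [← h4]; ring
    linarith

lemma MinD.le {τ : ℕ → ℝ} (h : MinD Γ τ H) (hA : A.card < H.card) :
    ed Γ A ≤ τ A.card * A.card := by
  by_cases hA0 : A = ∅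
  · subst hA0; rw [ed_empty]; simp
  · exact (h.min A (Finset.nonempty_iff_ne_empty.2 hA0) hA).le

/-- Existence of minimal dense sets. -/
lemma exists_minD {τ : ℕ → ℝ} (hA : A.Nonempty) (hd : τ A.card * A.card ≤ ed Γ A) :
    ∃ H : Finset V, MinD Γ τ H := by
  have hex : ∃ n, ∃ B : Finset V, B.Nonempty ∧ τ B.card * B.card ≤ ed Γ B ∧ B.card = n :=
    ⟨_, A, hA, hd, rfl⟩
  obtain ⟨B, hB1, hB2, hB3⟩ := Nat.find_spec hex
  refine ⟨B, hB1, hB2, ?_⟩
  intro C hC hlt
  by_contra hcon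
  push Not at hcon
  rw [hB3] at hlt
  exact absurd ⟨C, hC, hcon, rfl⟩ (Nat.find_min hex hlt)

end Pool.Agent.Lib.MP_b6048d_co.F
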