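import Pool.Agent.Lib.MP_b6048d_co.F.Base2

set_option autoImplicit false

/-!
Connected sets, and elementary numerical facts about `Lg`.
-/

open scoped Classical

namespace Pool.Agent.Lib.MP_b6048d_co.F

open Filter

variable {V : Type*} {Γ Γ' : SimpleGraph V} {S T H A B R W : Finset V} {u v w x y : V} {i j : ℕ}

lemma ConS.left (h : ConS Γ x i B) : x ∈ B := h.mem

lemma ConS.radius (h : ConS Γ x i B) (hij : i ≤ j) : ConS Γ x j B :=
  ⟨h.mem, fun y hy => by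
    obtain ⟨l, hl, hlen⟩ := h.con y hy
    exact ⟨l, hl, by omega⟩⟩

lemma ConS.recenter (h : ConS Γ x i B) (hy : y ∈ B) : ConS Γ y (2 * i) B := by
  refine ⟨hy, ?_⟩
  intro z hz
  obtain ⟨l, hl, hlen⟩ := h.con y hy
  obtain ⟨l', hl', hlen'⟩ := h.con z hz
  refine ⟨_, hl.reverse.append hl', ?_⟩
  have := hl.reverse.append_length hl'
  rw [List.length_reverse] at this
  omega

lemma ConS.cn (h : ConS Γ x i B) : Cn Γ B := by
  intro y hy z hz
  obtain ⟨l, hl, -⟩ := (h.recenter hy).con z hz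
  exact ⟨l, hl⟩

lemma Pth.length_le {l : List V} (h : Pth Γ (B : Set V) x y l) : l.length ≤ B.card := by
  have h1 : l.toFinset ⊆ B := by
    intro z hz
    exact_mod_cast h.mem z (List.mem_toFinset.1 hz)
  rw [← List.toFinset_card_of_nodup h.nodup]
  exact Finset.card_le_card h1

lemma Cn.conS (h : Cn Γ B) (hx : x ∈ B) : ConS Γ x B.card B := by
  refine ⟨hx, ?_⟩
  intro y hy
  obtain ⟨l, hl⟩ := h x hx y hy
  obtain ⟨l', hl', -, -⟩ := hl.toPth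
  exact ⟨l', hl'.toWk, by have := hl'.length_le; omega⟩

lemma Cn.path (h : Cn Γ B) (hx : x ∈ B) (hy : y ∈ B) : ∃ l, Pth Γ (B : Set V) x y l := by
  obtain ⟨l, hl⟩ := h x hx y hy
  obtain ⟨l', hl', -, -⟩ := hl.toPth
  exact ⟨l', hl'⟩

lemma hat_single : Hat Γ {x} i B ↔ ConS Γ x i B := by
  constructor
  · rintro ⟨h1, h2⟩
    refine ⟨h1 (by simp), ?_⟩
    intro y hy
    obtain ⟨a, ha, l, hl, hlen⟩ := h2 y hy
    rw [Finset.mem_singleton] at ha
    subst ha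
    exact ⟨l, hl, hlen⟩
  · rintro ⟨h1, h2⟩
    refine ⟨by simpa using h1, ?_⟩
    intro y hy
    obtain ⟨l, hl, hlen⟩ := h2 y hy
    exact ⟨x, by simp, l, hl, hlen⟩

lemma hat_bl (hA : A ⊆ S) : Hat Γ A i (bl Γ S A i) := by
  refine ⟨?_, ?_⟩
  · intro x hx
    exact bl_mono (Nat.zero_le i) (mem_bl_zero.2 ⟨hx, hA hx⟩)
  · intro y hy
    obtain ⟨a, ha, -, l, hl, hlen⟩ := bl_walk hy
    exact ⟨a, ha, l, hl, hlen⟩

/-! ### numbers -/

lemma card_le_pow_Lg (H : Finset V) : H.card + 3 ≤ 2 ^ Lg H := by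
  unfold Lg
  have h1 : H.card < 2 ^ (Nat.log 2 H.card + 1) := Nat.lt_pow_succ_log_self (by norm_num) _
  have h2 : 2 ^ (Nat.log 2 H.card + 4) = 2 ^ (Nat.log 2 H.card + 1) * 8 := by ring
  have h3 : 1 ≤ 2 ^ (Nat.log 2 H.card + 1) := Nat.one_le_pow _ _ (by norm_num)
  omega

lemma pow_Lg_le (hH : H.Nonempty) : 2 ^ Lg H ≤ 16 * H.card := by
  unfold Lg
  have h1 : 2 ^ (Nat.log 2 H.card) ≤ H.card := Nat.pow_log_le_self 2 (Finset.card_pos.2 hH).ne'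
  have h2 : 2 ^ (Nat.log 2 H.card + 4) = 2 ^ (Nat.log 2 H.card) * 16 := by ring
  omega

lemma four_le_Lg (H : Finset V) : 4 ≤ Lg H := by unfold Lg; omega

lemma log_le_Lg (H : Finset V) : Real.log ((H.card : ℝ) + 3) ≤ Lg H := by
  have h1 : ((H.card : ℝ) + 3) ≤ 2 ^ Lg H := by exact_mod_cast card_le_pow_Lg H
  have h2 : Real.log ((H.card : ℝ) + 3) ≤ Real.log ((2 : ℝ) ^ Lg H) :=
    Real.log_le_log (by positivity) h1
  rw [Real.log_pow] at h2
  have h3 : Real.log 2 ≤ 1 := by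
    have := Real.log_two_lt_d9
    linarith
  have h4 : (Lg H : ℝ) * Real.log 2 ≤ Lg H * 1 :=
    mul_le_mul_of_nonneg_left h3 (by positivity)
  linarith

lemma le_Lg {L₀ : ℕ} (h : 2 ^ L₀ ≤ H.card) : L₀ ≤ Lg H := by
  unfold Lg
  have : L₀ ≤ Nat.log 2 H.card := Nat.le_log_of_pow_le (by norm_num) h
  omega

/-- Exponentials beat powers. -/
lemma poly_le_pow (c k : ℕ) : ∃ L₀ : ℕ, ∀ L : ℕ, L₀ ≤ L → c * L ^ k ≤ 2 ^ L := by
  have h := tendsto_pow_const_div_const_pow_of_one_lt k (r := (2 : ℝ)) (by norm_num)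
  have h1 : ∀ᶠ n : ℕ in atTop, (n : ℝ) ^ k / 2 ^ n < 1 / (c + 1) :=
    h.eventually (gt_mem_nhds (by positivity))
  obtain ⟨L₀, hL₀⟩ := eventually_atTop.1 h1
  refine ⟨L₀, fun L hL => ?_⟩
  have h2 := hL₀ L hL
  rw [div_lt_div_iff₀ (by positivity) (by positivity)] at h2
  have h3 : (c : ℝ) * (L : ℝ) ^ k ≤ 2 ^ L := by
    have : (0 : ℝ) ≤ (L : ℝ) ^ k := by positivity
    nlinarith
  exact_mod_cast h3

/-- The size of a set is larger than any given polynomial in `Lg`. -/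
lemma poly_Lg_le (c k : ℕ) : ∃ L₀ : ℕ, ∀ {V : Type} (H : Finset V), H.Nonempty → L₀ ≤ Lg H →
    c * Lg H ^ k ≤ H.card := by
  obtain ⟨L₀, hL₀⟩ := poly_le_pow (16 * c) k
  refine ⟨L₀, fun H hH hL => ?_⟩
  have h1 := hL₀ _ hL
  have h2 := pow_Lg_le hH
  have h3 : 16 * (c * Lg H ^ k) ≤ 16 * H.card := by
    calc 16 * (c * Lg H ^ k) = 16 * c * Lg H ^ k := by ring
      _ ≤ _ := h1.trans h2
  omega

/-- Logarithms of polynomials are small. -/
lemma log_poly_le (c k : ℕ) : ∃ L₀ : ℕ, ∀ L : ℕ, L₀ ≤ L →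
    c * Real.log ((c : ℝ) * (L : ℝ) ^ k + c) ≤ L := by
  obtain ⟨L₁, hL₁⟩ := poly_le_pow ((2 * c) ^ c) (k * c)
  refine ⟨max L₁ 1, fun L hL => ?_⟩
  have hL1 : 1 ≤ L := (le_max_right _ _).trans hL
  by_cases hc : c = 0
  · subst hc; simp
  have hcpos : 0 < c := Nat.pos_of_ne_zero hc
  have h1 := hL₁ L ((le_max_left _ _).trans hL)
  have h2 : (c * L ^ k + c) ^ c ≤ 2 ^ L := by
    have h3 : c * L ^ k + c ≤ 2 * c * L ^ k := by
      have : 1 ≤ L ^ k := Nat.one_le_pow _ _ hL1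
      nlinarith
    calc (c * L ^ k + c) ^ c ≤ (2 * c * L ^ k) ^ c := Nat.pow_le_pow_left h3 _
      _ = (2 * c) ^ c * L ^ (k * c) := by rw [mul_pow, ← pow_mul]
      _ ≤ 2 ^ L := h1
  have h4 : ((c : ℝ) * (L : ℝ) ^ k + c) ^ c ≤ 2 ^ L := by exact_mod_cast h2
  have hpos : 0 < ((c : ℝ) * (L : ℝ) ^ k + c) := by
    have : (0 : ℝ) < c := by exact_mod_cast hcpos
    positivity
  have h5 : Real.log (((c : ℝ) * (L : ℝ) ^ k + c) ^ c) ≤ Real.log ((2 : ℝ) ^ L) :=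
    Real.log_le_log (by positivity) h4
  rw [Real.log_pow, Real.log_pow] at h5
  have h6 : Real.log 2 ≤ 1 := by
    have := Real.log_two_lt_d9
    linarith
  have h7 : (L : ℝ) * Real.log 2 ≤ L * 1 := mul_le_mul_of_nonneg_left h6 (by positivity)
  linarith

end Pool.Agent.Lib.MP_b6048d_co.F
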