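import Pool.Agent.Lib.MP_b6048d_co.F.SpecF
import Pool.Agent.Lib.MP_b6048d_co.F.Base
import Pool.Agent.Lib.MP_b6048d_co.F.Base2
import Pool.Agent.Lib.MP_b6048d_co.F.Base3

set_option autoImplicit false

/-!
# F03 : the cycles of the web are longer than `g`
-/

open scoped Classical

namespace Pool.Agent.Lib.MP_b6048d_co.F

namespace WebGirthAux

variable {V : Type*}

lemma isCyc_of_adj {G G' : SimpleGraph V} {Q : List V} (h : IsCyc G Q)
    (hG : ∀ x ∈ Q, ∀ y ∈ Q, G.Adj x y → G'.Adj x y) : IsCyc G' Q := by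
  refine ⟨h.len, h.nodup, h.chain.imp_of_mem_imp fun x y hx hy hxy => hG x hx y hy hxy, ?_⟩
  intro a ha b hb
  exact hG b (List.mem_of_mem_getLast? hb) a (List.mem_of_mem_head? ha) (h.closed a ha b hb)

/-- an arc through a vertex outside `X`, with both ends in `X`, contains an ear of `X` -/
lemma ear_of_arc {G : SimpleGraph V} {X : Set V} {x y v : V} {p : List V}
    (hp : Pth G Set.univ x y p) (hx : x ∈ X) (hy : y ∈ X) (hv : v ∈ p) (hvX : v ∉ X) :
    ∃ s ∈ X, ∃ t ∈ X, s ≠ t ∧ ∃ l, Pth G Set.univ s t l ∧ 3 ≤ l.length ∧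
      (∀ z ∈ l, z ∈ X → z = s ∨ z = t) ∧ l.length ≤ p.length := by
  obtain ⟨a, b, rfl, h1, h2⟩ := hp.split hv
  have hnd := List.nodup_append'.1 hp.nodup
  have hcommon : ∀ z, z ∈ a ++ [v] → z ∈ v :: b → z = v := by
    intro z hz hz'
    rcases List.mem_append.1 hz with h3 | h3
    · exact absurd hz' (fun hh => hnd.2.2 h3 hh)
    · exact List.mem_singleton.1 h3
  obtain ⟨a1, s, a2, ha, hs, ha2⟩ :=
    exists_last (fun z => z ∈ X) (a ++ [v]) ⟨x, h1.toWk.left_mem, hx⟩
  obtain ⟨b1, t, b2, hb, ht, hb1⟩ :=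
    exists_first (fun z => z ∈ X) (v :: b) ⟨y, h2.toWk.right_mem, hy⟩
  rw [ha] at h1
  rw [hb] at h2
  have k1 := h1.cut.2
  have k2 := h2.cut.1
  have hsub1 : ∀ z, z ∈ s :: a2 → z ∈ a ++ [v] := by
    intro z hz
    rw [ha]
    exact List.mem_append_right _ hz
  have hsub2 : ∀ z, z ∈ b1 ++ [t] → z ∈ v :: b := by
    intro z hz
    rw [hb]
    rcases List.mem_append.1 hz with h3 | h3
    · exact List.mem_append_left _ h3
    · rw [List.mem_singleton.1 h3]
      simp
  have hsv : s ≠ v := fun h => hvX (h ▸ hs)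
  have hvt : v ≠ t := fun h => hvX (h ▸ ht)
  have hst : s ≠ t := by
    intro h
    have := hcommon s (hsub1 s (by simp)) (hsub2 s (by rw [h]; simp))
    exact hsv this
  have e := k1.toWk.append_length k2.toWk
  have l1 := k1.two_le hsv
  have l2 := k2.two_le hvt
  refine ⟨s, hs, t, ht, hst, _, k1.append k2 fun z hz hz' => hcommon z (hsub1 z hz) (hsub2 z hz'),
    by omega, ?_, ?_⟩
  · intro z hz hzX
    rcases List.mem_append.1 hz with h3 | h3
    · rcases List.mem_cons.1 h3 with h4 | h4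
      · exact Or.inl h4
      · exact absurd hzX (ha2 z h4)
    · rcases List.mem_append.1 (List.mem_of_mem_tail h3) with h4 | h4
      · exact absurd hzX (hb1 z h4)
      · exact Or.inr (List.mem_singleton.1 h4)
  · have e1 : (a ++ [v]).length = (a1 ++ s :: a2).length := by rw [ha]
    have e2 : (v :: b).length = (b1 ++ t :: b2).length := by rw [hb]
    simp only [List.length_append, List.length_cons, List.length_nil] at e1 e2 e l1 l2 ⊢
    omega

end WebGirthAux

open WebGirthAux in
theorem webGirth (hT : TreeFacts) : WebGirth := by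
  intro V G XX a g I Tc Ce rt lv par Y hW
  have hle : Y ≤ G := by
    intro u v huv
    rcases (hW.adj u v).1 huv with h | ⟨X, hX, h⟩
    · exact hW.cells.le h
    · exact (hT V G X (3 * a) (rt X) (lv X) (par X) (hW.bt X hX)).1.1 h
  refine ⟨hle, fun Q hQ => ?_⟩
  by_cases hall : ∀ x ∈ Q, ∀ y ∈ Q, Y.Adj x y → Ce.Adj x y
  · exact absurd (isCyc_of_adj hQ hall) (hW.cells.acyc Q)
  · push Not at hall
    obtain ⟨x, hxQ, y, hyQ, hxy, hnC⟩ := hall
    rcases (hW.adj x y).1 hxy with h | ⟨X, hX, h⟩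
    · exact absurd h hnC
    have hTX := hT V G X (3 * a) (rt X) (lv X) (par X) (hW.bt X hX)
    obtain ⟨hxX, hyX, -⟩ := hTX.1.2 x y h
    have hne : x ≠ y := hxy.ne
    by_cases hin : ∀ v ∈ Q, v ∈ X
    · refine absurd (isCyc_of_adj hQ fun u hu v hv huv => ?_) (hTX.2.1 Q)
      have huX := hin u hu
      have hvX := hin v hv
      rcases (hW.adj u v).1 huv with h1 | ⟨X', hX', h1⟩
      · obtain ⟨T, hTT, huT, hvT⟩ := hW.cells.inside u v h1
        exact absurd (hW.cells.one T hTT X hX u huT v hvT huX hvX) huv.ne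
      · by_cases hXX : X' = X
        · rw [← hXX]
          exact h1
        · obtain ⟨hu', hv', -⟩ :=
            (hT V G X' (3 * a) (rt X') (lv X') (par X') (hW.bt X' hX')).1.2 u v h1
          exact absurd (hW.blocks.one X' (hW.sub X' hX') X (hW.sub X hX) hXX u hu' huX v hv' hvX)
            huv.ne
    · push Not at hin
      obtain ⟨v, hvQ, hvX⟩ := hin
      obtain ⟨l, l', hl, hl', hlen, -, hmem⟩ := cyc_arcs hQ hxQ hyQ hne
      have h1 := hl.two_le hne
      have h2 := hl'.two_le hne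
      have key : ∀ p : List V, Pth Y {z | z ∈ Q} x y p → v ∈ p → p.length ≤ Q.length →
          g < Q.length := by
        intro p hp hvp hpl
        have hp' : Pth G Set.univ x y p := (hp.monoG hle).mono (Set.subset_univ _)
        obtain ⟨s, hs, t, ht, hst, m, hm, hm3, hmX, hml⟩ := ear_of_arc hp' hxX hyX hvp hvX
        have := hW.blocks.ear X (hW.sub X hX) s hs t ht hst m hm hm3 hmX
        omega
      rcases (hmem v).1 hvQ with h3 | h3
      · exact key l hl h3 (by omega)
      · exact key l' hl' h3 (by omega)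

end Pool.Agent.Lib.MP_b6048d_co.F
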