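import Pool.Agent.Lib.MP_b6048d_co.F.SpecF

set_option autoImplicit false

/-!
# F21 WebLengths: all lengths from a clean cycle
-/

open scoped Classical

namespace Pool.Agent.Lib.MP_b6048d_co.F.WebLengthsAux

open Pool.Agent.Lib.MP_b6048d_co.F

/-- Levels along a walk. -/
lemma level_walk {V : Type} {G : SimpleGraph V} {X : Set V} {lv : V → ℕ}
    (lip : ∀ u ∈ X, ∀ v ∈ X, G.Adj u v → lv u ≤ lv v + 1) :
    ∀ (l : List V) (u v : V), Wk G X u v l → lv u + 1 ≤ lv v + l.length := by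
  intro l
  induction l with
  | nil =>
    intro u v h
    exact absurd rfl h.ne_nil
  | cons b t ih =>
    intro u v h
    have hb : b = u := by simpa using h.head
    subst hb
    cases t with
    | nil =>
      have hv : b = v := by simpa using h.last
      subst hv
      simp
    | cons c t =>
      have hch := h.chain
      rw [List.isChain_cons_cons] at hch
      have h1 : Wk G X c v (c :: t) := by
        refine ⟨hch.2, rfl, ?_, fun x hx => h.mem x (List.mem_cons_of_mem _ hx)⟩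
        have := h.last
        rwa [List.getLast?_cons_cons] at this
      have h2 := ih c v h1
      have h3 := lip b (h.mem b (by simp)) c (h.mem c (by simp)) hch.1
      rw [List.length_cons]
      omega

lemma level_walk' {V : Type} {G : SimpleGraph V} {X : Set V} {lv : V → ℕ}
    (lip : ∀ u ∈ X, ∀ v ∈ X, G.Adj u v → lv u ≤ lv v + 1) {l : List V} {u v : V}
    (h : Wk G X u v l) : lv v + 1 ≤ lv u + l.length := by
  have := level_walk lip l.reverse v u h.reverse
  rwa [List.length_reverse] at this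

/-- Few vertices at near levels. -/
lemma card_levels {V : Type} {W₀ : Finset V} {X : Set V} {lv : V → ℕ}
    (lev : ∀ j : ℕ, (W₀.filter (fun x => x ∈ X ∧ lv x = j)).card ≤ 2) (F : Finset V) (c r : ℕ)
    (hF : ∀ z ∈ F, z ∈ W₀ ∧ z ∈ X ∧ lv z ≤ c + r ∧ c ≤ lv z + r) : F.card ≤ 2 * (2 * r + 1) := by
  have h1 : F.card ≤ 2 * (Finset.Icc (c - r) (c + r)).card := by
    refine Finset.card_le_mul_card_image_of_maps_to (f := lv) ?_ 2 ?_
    · intro z hz
      obtain ⟨-, -, h2, h3⟩ := hF z hz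
      rw [Finset.mem_Icc]
      omega
    · intro j _
      refine le_trans (Finset.card_le_card ?_) (lev j)
      intro z hz
      rw [Finset.mem_filter] at hz ⊢
      obtain ⟨h2, h3, -, -⟩ := hF z hz.1
      exact ⟨h2, h3, hz.2⟩
  rw [Nat.card_Icc] at h1
  omega

/-- Thinness at an end of an edge. -/
lemma thin {V : Type} {G Γ : SimpleGraph V} {H W₀ W : Finset V} {X : Set V} {lv : V → ℕ}
    (hΓ : Γ ≤ G) (hX : ∀ z ∈ H, z ∈ X)
    (lip : ∀ u ∈ X, ∀ v ∈ X, G.Adj u v → lv u ≤ lv v + 1)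
    (lev : ∀ j : ℕ, (W₀.filter (fun x => x ∈ X ∧ lv x = j)).card ≤ 2) (hW : W ⊆ W₀) (x : V) :
    Thin Γ 3000 H W x := by
  intro i
  have h1 := card_levels lev ((W ∩ H).filter (fun w => ∃ v ∈ bl Γ (H \ W) {x} i, Γ.Adj v w))
    (lv x) (i + 1) (by
      intro z hz
      rw [Finset.mem_filter, Finset.mem_inter] at hz
      obtain ⟨⟨hzW, hzH⟩, v, hv, hvz⟩ := hz
      obtain ⟨l, hl, hlen⟩ := mem_bl_single.1 hv
      have hl2 : Wk G X x v l := (hl.monoG hΓ).mono (by
        intro w hw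
        rw [Finset.mem_coe, Finset.mem_sdiff] at hw
        exact hX w hw.1)
      have h2 := level_walk lip l x v hl2
      have h3 := level_walk' lip hl2
      have h4 := lip v hl2.right_in z (hX z hzH) (hΓ hvz)
      have h5 := lip z (hX z hzH) v hl2.right_in (hΓ hvz).symm
      refine ⟨hW hzW, hX z hzH, ?_, ?_⟩ <;> omega)
  refine h1.trans ?_
  have h2 : i + 1 ≤ (i + 1) ^ 3 := Nat.le_self_pow (by norm_num) _
  omega

/-- The detours at a thin edge. -/
lemma detour_path {V : Type} {G Γ : SimpleGraph V} {col : V → Bool} {H : Finset V}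
    {lam C : ℕ} {W₀ : Finset V} {X : Set V} {lv : V → ℕ} {x y : V} (hΓ : Γ ≤ G) (h3 : 3 ≤ lam)
    (hB : Blob 3000 C lam Γ col H) (hx : x ∈ H) (hy : y ∈ H) (hxy : Γ.Adj x y)
    (hX : ∀ z ∈ H, z ∈ X) (lip : ∀ u ∈ X, ∀ v ∈ X, G.Adj u v → lv u ≤ lv v + 1)
    (htx : Thin Γ 3000 H (W₀ \ {x, y}) x) (hty : Thin Γ 3000 H (W₀ \ {x, y}) y) (inc : ℕ)
    (hinc : inc = 0 ∨ (Even inc ∧ lam ≤ inc ∧ inc + 1 ≤ lam ^ C)) :
    ∃ D : List V, D.length = inc + 2 ∧ Pth G Set.univ x y D ∧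
      ∀ z ∈ D, z ∈ X ∧ lv z ≤ lv x + lam ∧ lv x ≤ lv z + lam ∧ (z ∈ W₀ → z = x ∨ z = y) := by
  have hne : x ≠ y := hxy.ne
  rcases hinc with rfl | ⟨hev, hle, hle2⟩
  · refine ⟨[x, y], rfl, (Pth.single (Set.mem_univ y)).cons (Set.mem_univ x) (hΓ hxy)
      (by simpa using hne), ?_⟩
    intro z hz
    simp only [List.mem_cons, List.not_mem_nil, or_false] at hz
    rcases hz with rfl | rfl
    · exact ⟨hX z hx, by omega, by omega, fun _ => Or.inl rfl⟩
    · have h4 := lip x (hX x hx) z (hX z hy) (hΓ hxy)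
      have h5 := lip z (hX z hy) x (hX x hx) (hΓ hxy).symm
      exact ⟨hX z hy, by omega, by omega, fun _ => Or.inr rfl⟩
  · obtain ⟨D, hD, hlen, hmem⟩ := hB.paths (W₀ \ {x, y}) x hx y hy (by simp) (by simp) hne htx hty
      (inc + 1) (by omega) hle2 (by
        constructor
        · intro h
          exact absurd h (by rw [Nat.even_add_one]; exact fun h' => h' hev)
        · intro h
          exact absurd h (hB.bip x hx y hy hxy))
    refine ⟨D, hlen, (hD.monoG hΓ).mono (Set.subset_univ _), ?_⟩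
    intro z hz
    obtain ⟨w, hw, hwlen⟩ := mem_bl_single.1 (hmem z hz)
    have hzin := hw.right_in
    rw [Finset.mem_coe, Finset.mem_sdiff, Finset.mem_sdiff] at hzin
    have hw2 : Wk G X x z w := (hw.monoG hΓ).mono (by
      intro w' hw'
      rw [Finset.mem_coe, Finset.mem_sdiff] at hw'
      exact hX w' hw'.1)
    have h4 := level_walk lip w x z hw2
    have h5 := level_walk' lip hw2
    refine ⟨hX z hzin.1, by omega, by omega, ?_⟩
    intro huW
    by_contra hcon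
    apply hzin.2
    refine ⟨huW, ?_⟩
    simpa using hcon

/-- Entries of a list without repetition at different places are different. -/
lemma ne_of_idx {V : Type} {l : List V} (hl : l.Nodup) {a b : ℕ} {x y : V} (hx : l[a]? = some x)
    (hy : l[b]? = some y) (hab : a ≠ b) : x ≠ y := by
  rintro rfl
  obtain ⟨h1, h2⟩ := List.getElem?_eq_some_iff.1 hx
  obtain ⟨h3, h4⟩ := List.getElem?_eq_some_iff.1 hy
  exact hab ((List.Nodup.getElem_inj_iff hl).1 (h2.trans h4.symm))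

/-- Consecutive entries of a path are adjacent. -/
lemma adj_of_idx {V : Type} {G : SimpleGraph V} {S : Set V} {u v : V} {l : List V}
    (hl : Pth G S u v l) {a : ℕ} {x y : V} (hx : l[a]? = some x) (hy : l[a + 1]? = some y) :
    G.Adj x y := by
  obtain ⟨h1, h2⟩ := List.getElem?_eq_some_iff.1 hx
  obtain ⟨h3, h4⟩ := List.getElem?_eq_some_iff.1 hy
  have hch := hl.chain
  rw [List.isChain_iff_getElem] at hch
  have := hch a h3
  rwa [h2, h4] at this

/-- The data at an edge of `Kc`. -/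
lemma edge_data (hBI : BlobInside) {V : Type} {G : SimpleGraph V} {XX : Set (Set V)} {a g : ℕ}
    {I : Finset (Set V)} {lv : Set V → V → ℕ} {rt : Set V → V} {par : Set V → V → V}
    {A R C lam₀ : ℕ} (hblocks : Blocks G a g XX) (hsub : ∀ X ∈ I, X ∈ XX)
    (hbt : ∀ X ∈ I, BT G X (3 * a) (rt X) (lv X) (par X)) (hag : 3 * a + 1 ≤ g) (hA : 1 ≤ A)
    (hM : Miss G A R) (hC : 202 * A + 3 ≤ C) (h100 : 100 ≤ lam₀) (hR : R ≤ lam₀)
    (hCov : Cov G 3000 C lam₀) {n : ℕ} {P₀ L : List V} {u₀ w₀ : V} {X₀ : Set V} {Kc : Finset ℕ}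
    {Xk : ℕ → Set V} (hcl : Clean G a I lv n P₀ L u₀ w₀ X₀ Kc Xk) {k : ℕ} (hk : k ∈ Kc) :
    ∃ lam : ℕ, lam₀ ≤ lam ∧ lam ≤ 3 * a ∧ ∃ x y, L[k]? = some x ∧ L[k + 1]? = some y ∧
      x ∈ Xk k ∧ y ∈ Xk k ∧
      ∀ inc : ℕ, (inc = 0 ∨ (Even inc ∧ lam ≤ inc ∧ inc + 1 ≤ lam ^ C)) →
      ∃ D : List V, D.length = inc + 2 ∧ Pth G Set.univ x y D ∧
      ∀ z ∈ D, z ∈ Xk k ∧ lv (Xk k) z ≤ lv (Xk k) x + lam ∧ lv (Xk k) x ≤ lv (Xk k) z + lam ∧
        (z ∈ L ∨ z ∈ P₀ → z = x ∨ z = y) := by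
  obtain ⟨x, y, hx, hy, hxX, hyX⟩ := hcl.edge k hk
  have hxy : G.Adj x y := adj_of_idx hcl.pthL hx hy
  obtain ⟨Γ, col, H, lam, hΓ, hxH, hyH, hΓxy, hlam, hB⟩ := hCov _ _ hxy
  obtain ⟨hXI, -⟩ := hcl.idx k hk
  obtain ⟨h1, h2⟩ := hBI V G Γ XX a g col H 3000 C lam A R hblocks hag hA hM hΓ (by norm_num)
    (by omega) (by omega) (by omega) hB (Xk k) (hsub _ hXI) x hxX y hyX hxy hxH hyH
  have hlama : lam ≤ 3 * a := by
    have h3 : lam ≤ lam ^ 200 := Nat.le_self_pow (by norm_num) _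
    omega
  have lip := (hbt _ hXI).lip
  have lev := hcl.lev k hk
  refine ⟨lam, hlam, hlama, x, y, hx, hy, hxX, hyX, ?_⟩
  intro inc hinc
  obtain ⟨D, h3, h4, h5⟩ := detour_path (W₀ := L.toFinset ∪ P₀.toFinset) (lv := lv (Xk k)) hΓ
    (by omega) hB hxH hyH hΓxy h2 lip (thin hΓ h2 lip lev Finset.sdiff_subset x)
    (thin hΓ h2 lip lev Finset.sdiff_subset y) inc hinc
  refine ⟨D, h3, h4, ?_⟩
  intro z hz
  obtain ⟨h6, h7, h8, h9⟩ := h5 z hz
  refine ⟨h6, h7, h8, ?_⟩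
  intro h10
  apply h9
  rw [Finset.mem_union, List.mem_toFinset, List.mem_toFinset]
  exact h10

/-- The numerical estimate. -/
lemma num_sum {C n : ℕ} (hC : 3 ≤ C) (K J : Finset ℕ) (lam : ℕ → ℕ) (hlam : ∀ a ∈ J, 100 ≤ lam a)
    (hK : n ≤ 30 * K.card) (hKJ : K.card ≤ 12 * ∑ a ∈ J, lam a) :
    5 * n ≤ ∑ a ∈ J, (lam a ^ C - 2) := by
  have h1 : ∀ a ∈ J, 1800 * lam a ≤ lam a ^ C - 2 := by
    intro a ha
    have h2 := hlam a ha
    have h3 : lam a ^ 3 ≤ lam a ^ C := Nat.pow_le_pow_right (by omega) hC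
    have h4 : lam a * (100 * 100) ≤ lam a ^ 3 := by
      rw [show lam a ^ 3 = lam a * (lam a * lam a) by ring]
      exact Nat.mul_le_mul_left _ (Nat.mul_le_mul h2 h2)
    omega
  have h2 : ∑ a ∈ J, 1800 * lam a ≤ ∑ a ∈ J, (lam a ^ C - 2) := Finset.sum_le_sum h1
  rw [← Finset.mul_sum] at h2
  omega

end Pool.Agent.Lib.MP_b6048d_co.F.WebLengthsAux

namespace Pool.Agent.Lib.MP_b6048d_co.F

open WebLengthsAux

/-- **F21 WebLengths.** -/
theorem webLengths (hBI : BlobInside) (hG : Greedy2) (hSu : Sumset) (hD : Detour) :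
    WebLengths := by
  intro V G XX a g I Tc Ce rt lv par Y A R C lam₀ hweb ha hag hA hM hC h100 hR hCov n P₀ L u₀ w₀ X₀
    Kc Xk hn hcl m hm hm'
  have hdata := fun k (hk : k ∈ Kc) => edge_data hBI hweb.blocks hweb.sub hweb.bt hag hA hM hC h100
    hR hCov hcl hk
  have : Nonempty V := ⟨u₀⟩
  choose! lam hlam1 hlam2 X Y' hX hY hXX hYX hinc using hdata
  have hnd := hcl.pthL.nodup
  -- the conflict relation
  obtain ⟨conf, hconf⟩ : ∃ conf : ℕ → ℕ → Prop, conf = fun k k' => Xk k = Xk k' ∧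
      lv (Xk k) (X k) ≤ lv (Xk k') (X k') + (lam k + lam k') ∧
      lv (Xk k') (X k') ≤ lv (Xk k) (X k) + (lam k + lam k') := ⟨_, rfl⟩
  have hsymm : ∀ k k', conf k k' → conf k' k := by
    intro k k'
    rw [hconf]
    rintro ⟨h1, h2, h3⟩
    exact ⟨h1.symm, by omega, by omega⟩
  have hcount : ∀ k ∈ Kc, (Kc.filter (fun k' => lam k' ≤ lam k ∧ (conf k k' ∨ k' = k))).card ≤
      12 * lam k := by
    intro k hk
    have h1 := card_levels (hcl.lev k hk)
      ((Kc.filter (fun k' => lam k' ≤ lam k ∧ (conf k k' ∨ k' = k))).image X)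
      (lv (Xk k) (X k)) (2 * lam k) (by
        intro z hz
        rw [Finset.mem_image] at hz
        obtain ⟨k', hk', rfl⟩ := hz
        rw [Finset.mem_filter] at hk'
        obtain ⟨hk'K, hle, hor⟩ := hk'
        have h2 : Xk k = Xk k' ∧ lv (Xk k) (X k) ≤ lv (Xk k') (X k') + (lam k + lam k') ∧
            lv (Xk k') (X k') ≤ lv (Xk k) (X k) + (lam k + lam k') := by
          rcases hor with h | rfl
          · rw [hconf] at h
            exact h
          · exact ⟨rfl, by omega, by omega⟩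
        obtain ⟨h3, h4, h5⟩ := h2
        rw [← h3] at h4 h5
        refine ⟨?_, ?_, by omega, by omega⟩
        · rw [Finset.mem_union, List.mem_toFinset]
          exact Or.inl (List.mem_of_getElem? (hX k' hk'K))
        · rw [h3]
          exact hXX k' hk'K)
    rw [Finset.card_image_of_injOn] at h1
    · have := hlam1 k hk
      omega
    · intro i hi j hj hij
      rw [Finset.mem_coe, Finset.mem_filter] at hi hj
      by_contra hne
      exact ne_of_idx hnd (hX i hi.1) (hX j hj.1) hne hij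
  obtain ⟨J, hJK, hJsep, hJsum⟩ := hG Kc lam conf hsymm hcount
  -- the path in `X₀`
  have hXI0 := hweb.sub _ hcl.X0I
  have hu0 : u₀ ∈ X₀ := hcl.pthP.toWk.left_in
  have hw0 : w₀ ∈ X₀ := hcl.pthP.toWk.right_in
  obtain ⟨⟨Pe, hPe, hPe1, hPe2⟩, Po, hPo, hPo1, hPo2⟩ := hweb.blocks.par X₀ hXI0 u₀ hu0 w₀ hw0 hcl.ne
  obtain ⟨P, hP, hPev, hPlen⟩ : ∃ P, Pth G X₀ u₀ w₀ P ∧ Even (P.length + L.length + m) ∧
      P.length ≤ 3 * a + 1 := by
    rcases Nat.even_or_odd (L.length + m) with h | h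
    · refine ⟨Pe, hPe, ?_, hPe2⟩
      rw [add_assoc]
      exact hPe1.add h
    · refine ⟨Po, hPo, ?_, hPo2⟩
      rw [add_assoc]
      exact hPo1.add_odd h
  have hP2 := hP.two_le hcl.ne
  have hP02 := hcl.pthP.two_le hcl.ne
  have hL2 := hcl.pthL.two_le hcl.ne
  have hlen := hcl.len
  obtain ⟨t, ht⟩ : ∃ t, t + P.length + L.length = m + 2 := ⟨m + 2 - P.length - L.length, by omega⟩
  have htev : Even t := by
    obtain ⟨i, hi⟩ := hPev
    exact ⟨i - P.length - L.length + 1, by omega⟩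
  have htle : t ≤ ∑ k ∈ J, (lam k ^ C - 2) := by
    have h1 := num_sum (C := C) (n := n) (by omega) Kc J lam (fun k hk => h100.trans (hlam1 k (hJK hk)))
      hcl.many hJsum
    omega
  obtain ⟨inc, hinc1, hinc2⟩ := hSu J lam C (3 * a) t (by omega)
    (fun k hk => by have := hlam1 k (hJK hk); omega) (fun k hk => hlam2 k (hJK hk)) htev (by omega)
    htle
  have hDex : ∀ k ∈ J, ∃ D : List V, D.length = inc k + 2 ∧ Pth G Set.univ (X k) (Y' k) D ∧
      ∀ z ∈ D, z ∈ Xk k ∧ lv (Xk k) z ≤ lv (Xk k) (X k) + lam k ∧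
        lv (Xk k) (X k) ≤ lv (Xk k) z + lam k ∧ (z ∈ L ∨ z ∈ P₀ → z = X k ∨ z = Y' k) :=
    fun k hk => hinc k (hJK hk) (inc k) (hinc1 k hk)
  choose! D hDlen hDp hDw using hDex
  have hsep : ∀ k ∈ J, ∀ k' ∈ J, k < k' → List.Disjoint (D k) (D k') := by
    intro k hk k' hk' hkk z hz hz'
    obtain ⟨h1, h2, h3, h4⟩ := hDw k hk z hz
    obtain ⟨h1', h2', h3', h4'⟩ := hDw k' hk' z hz'
    by_cases hXeq : Xk k = Xk k'
    · apply hJsep k hk k' hk' (Nat.ne_of_lt hkk)
      rw [hconf]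
      rw [← hXeq] at h2' h3'
      refine ⟨hXeq, ?_, ?_⟩
      · rw [← hXeq]
        omega
      · rw [← hXeq]
        omega
    · have h5 := hcl.shared k (hJK hk) k' (hJK hk') hXeq z h1 h1'
      have h6 := hcl.sep k (hJK hk) k' (hJK hk') hkk
      rcases h4 h5 with h7 | h7 <;> rcases h4' h5 with h8 | h8
      · exact ne_of_idx hnd (hX k (hJK hk)) (hX k' (hJK hk')) (by omega) (h7.symm.trans h8)
      · exact ne_of_idx hnd (hX k (hJK hk)) (hY k' (hJK hk')) (by omega) (h7.symm.trans h8)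
      · exact ne_of_idx hnd (hY k (hJK hk)) (hX k' (hJK hk')) (by omega) (h7.symm.trans h8)
      · exact ne_of_idx hnd (hY k (hJK hk)) (hY k' (hJK hk')) (by omega) (h7.symm.trans h8)
  obtain ⟨L', hL', hL'len, hL'mem⟩ := hD V G u₀ w₀ L J D hcl.pthL
    (fun k hk => ⟨X k, Y' k, hX k (hJK hk), hY k (hJK hk), hDp k hk,
      fun z hz hzl => (hDw k hk z hz).2.2.2 (Or.inl hzl)⟩) (by
      intro k hk k' hk' hkk
      rcases Nat.lt_or_gt_of_ne hkk with h | h
      · exact hsep k hk k' hk' h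
      · exact (hsep k' hk' k hk h).symm)
  have hsum : ∑ k ∈ J, (D k).length = t + 2 * J.card := by
    rw [Finset.sum_congr rfl hDlen, Finset.sum_add_distrib, hinc2, Finset.sum_const, smul_eq_mul]
    ring
  have hL'len2 : L'.length = L.length + t := by omega
  obtain ⟨E, hE, hElen, -⟩ := (hP.mono (Set.subset_univ _)).theta hL' (by
    intro z hzP hzL'
    have hzX := hP.mem z hzP
    rcases hL'mem z hzL' with h | ⟨k, hk, h⟩
    · exact hcl.meet z h hzX
    · obtain ⟨h1, -, -, h4⟩ := hDw k hk z h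
      have h5 := hcl.shared0 k (hJK hk) z h1 hzX
      have h6 : z ∈ L := by
        rcases h4 h5 with h7 | h7
        · rw [h7]
          exact List.mem_of_getElem? (hX k (hJK hk))
        · rw [h7]
          exact List.mem_of_getElem? (hY k (hJK hk))
      exact hcl.meet z h6 hzX) (by omega) hcl.ne
  exact ⟨E, hE, by omega⟩

end Pool.Agent.Lib.MP_b6048d_co.F
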