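import Pool.Agent.Lib.MP_b6048d_co.F.AsmA
import Pool.Agent.Lib.MP_b6048d_co.F.CycConv
import Pool.Agent.Lib.MP_b6048d_co.F.TreeFacts
import Pool.Agent.Lib.MP_b6048d_co.F.WebExists
import Pool.Agent.Lib.MP_b6048d_co.F.WebGirth
import Pool.Agent.Lib.MP_b6048d_co.F.CycleIn
import Pool.Agent.Lib.MP_b6048d_co.F.IncToDense
import Pool.Agent.Lib.MP_b6048d_co.F.MuFacts
import Pool.Agent.Lib.MP_b6048d_co.F.SizeLower
import Pool.Agent.Lib.MP_b6048d_co.F.ExpF
import Pool.Agent.Lib.MP_b6048d_co.F.DiamF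
import Pool.Agent.Lib.MP_b6048d_co.F.PathCut
import Pool.Agent.Lib.MP_b6048d_co.F.Giant
import Pool.Agent.Lib.MP_b6048d_co.F.LongPath
import Pool.Agent.Lib.MP_b6048d_co.F.LongCycle
import Pool.Agent.Lib.MP_b6048d_co.F.StepDown
import Pool.Agent.Lib.MP_b6048d_co.F.CycleScales
import Pool.Agent.Lib.MP_b6048d_co.F.TouchClosure
import Pool.Agent.Lib.MP_b6048d_co.F.TouchCount
import Pool.Agent.Lib.MP_b6048d_co.F.Runs
import Pool.Agent.Lib.MP_b6048d_co.F.CleanExists
import Pool.Agent.Lib.MP_b6048d_co.F.Greedy2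
import Pool.Agent.Lib.MP_b6048d_co.F.WebLengths
import Pool.Agent.Lib.MP_b6048d_co.F.GrowthNum
import Pool.Agent.Lib.MP_b6048d_co.F.GrowthThm

set_option autoImplicit false

/-!
Assembly of section F (growth).
-/

open scoped Classical

namespace Pool.Agent.Lib.MP_b6048d_co.F

theorem growthThm' : GrowthThm :=
  growthThm cycConv webExists (webGirth treeFacts)
    (incToDense treeFacts (webGirth treeFacts) cycleIn) muFacts (sizeLower muFacts)
    (diamF (expF muFacts))
    (longCycle (longPath (giant (pathCut muFacts)) (diamF (expF muFacts))) (pathCut muFacts))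
    (cycleScales stepDown) (touchClosure treeFacts) (touchCount treeFacts)
    (cleanExists treeFacts cycConv (runs cycConv))
    (webLengths blobInside' greedy2 sumset detour) growthNum

end Pool.Agent.Lib.MP_b6048d_co.F
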