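import Pool.Agent.Lib.MP_b6048d_co.F.SpecG

set_option autoImplicit false

/-!
# G02 Cover
-/

open scoped Classical

namespace Pool.Agent.Lib.MP_b6048d_co.F.CoverAux

/-- `1 / (n + 1) ≤ log (n + 1) - log n`. -/
lemma inv_le_log {n : ℕ} (hn : 1 ≤ n) :
    (1 : ℝ) / ((n + 1 : ℕ) : ℝ) ≤ Real.log ((n + 1 : ℕ) : ℝ) - Real.log n := by
  have h0 : (0 : ℝ) < n := by exact_mod_cast hn
  have h1 : (0 : ℝ) < ((n + 1 : ℕ) : ℝ) := by positivity
  have h2 := Real.one_sub_inv_le_log_of_pos (x := ((n + 1 : ℕ) : ℝ) / n) (by positivity)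
  rw [Real.log_div h1.ne' h0.ne'] at h2
  refine le_trans (le_of_eq ?_) h2
  push_cast
  field_simp
  ring

/-- The sum of `1 / m` over an interval. -/
lemma sum_le {a : ℕ} (ha : 1 ≤ a) (b : ℕ) (hab : a ≤ b) :
    ∑ m ∈ Finset.Ico a b, (1 : ℝ) / (m : ℝ) ≤ 1 / a + Real.log b - Real.log a := by
  have ha0 : (0 : ℝ) < a := by exact_mod_cast ha
  have key : ∀ k : ℕ, ∑ m ∈ Finset.Ico a (a + 1 + k), (1 : ℝ) / (m : ℝ) ≤
      1 / a + Real.log ((a + k : ℕ) : ℝ) - Real.log a := by
    intro k
    induction k with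
    | zero =>
      rw [add_zero, add_zero, Nat.Ico_succ_singleton, Finset.sum_singleton]
      linarith
    | succ k ih =>
      have h1 : Finset.Ico a (a + 1 + (k + 1)) = Finset.Ico a ((a + 1 + k) + 1) := by
        congr 1
      rw [h1, Finset.sum_Ico_succ_top (by omega)]
      have h2 := inv_le_log (n := a + k) (by omega)
      have h3 : a + 1 + k = a + k + 1 := by ring
      have h4 : a + (k + 1) = a + k + 1 := by ring
      rw [h3] at ih ⊢
      rw [h4]
      linarith
  rcases Nat.eq_or_lt_of_le hab with h | h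
  · subst h
    rw [Finset.Ico_self, Finset.sum_empty]
    have : (0 : ℝ) ≤ 1 / a := by positivity
    linarith
  · obtain ⟨k, rfl⟩ : ∃ k, b = a + 1 + k := ⟨b - (a + 1), by omega⟩
    have h1 := key k
    have h2 : Real.log ((a + k : ℕ) : ℝ) ≤ Real.log ((a + 1 + k : ℕ) : ℝ) :=
      Real.log_le_log (by positivity) (by push_cast; linarith)
    linarith

lemma one_le_log {w : ℕ} (hw : 3 ≤ w) : 1 ≤ Real.log w := by
  have h1 : (3 : ℝ) ≤ w := by exact_mod_cast hw
  have h2 : Real.exp 1 ≤ w := by
    have := Real.exp_one_lt_d9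
    linarith
  rw [Real.le_log_iff_exp_le (by linarith)]
  exact h2

end Pool.Agent.Lib.MP_b6048d_co.F.CoverAux

namespace Pool.Agent.Lib.MP_b6048d_co.F

open CoverAux

/-- **G02 Cover.** -/
theorem cover : Cover := by
  intro M B Y₁ Y₂ hB hY₁ hY hM
  have hB0 : (0 : ℝ) < B := by exact_mod_cast hB
  have claim : ∀ n z : ℕ, Y₁ ≤ z → Y₂ + 1 - z ≤ n → ∃ N : ℕ, max z Y₂ ≤ N ∧
      ∑ m ∈ (Finset.Ico z N).filter M, (1 : ℝ) / (m : ℝ) ≤
        6 / B * (Real.log N - Real.log z) := by
    intro n
    induction n with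
    | zero =>
      intro z hz hn
      have hzY : Y₂ < z := by omega
      refine ⟨z, by omega, ?_⟩
      simp
    | succ n ih =>
      intro z hz hn
      have hz0 : (0 : ℝ) < z := by exact_mod_cast (show 0 < z by omega)
      by_cases hex : ∃ y, M y ∧ z ≤ y ∧ y ≤ Y₂
      · obtain ⟨⟨hy1, hy2, hy3⟩, hymin⟩ :
            (M (Nat.find hex) ∧ z ≤ Nat.find hex ∧ Nat.find hex ≤ Y₂) ∧
              ∀ m < Nat.find hex, ¬ (M m ∧ z ≤ m ∧ m ≤ Y₂) :=
          ⟨Nat.find_spec hex, fun m hm => Nat.find_min hex hm⟩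
        set y := Nat.find hex with hy
        obtain ⟨w, hw, hwM⟩ := hM y hy1 (hz.trans hy2) hy3
        have hy0 : (0 : ℝ) < y := by exact_mod_cast (show 0 < y by omega)
        have hw0 : (0 : ℝ) < w := by exact_mod_cast (show 0 < w by omega)
        have hwB : 1 ≤ w ^ B := Nat.one_le_pow _ _ (by omega)
        have hw5 : 1 ≤ w ^ 5 := Nat.one_le_pow _ _ (by omega)
        have hyB : y ≤ y * w ^ B := Nat.le_mul_of_pos_right _ hwB
        have hy5 : y ≤ y * w ^ 5 := Nat.le_mul_of_pos_right _ hw5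
        obtain ⟨N, hN1, hN2⟩ := ih (y * w ^ B + 1) (by omega) (by omega)
        refine ⟨N, by omega, ?_⟩
        -- split the sum
        have hsub : (Finset.Ico z N).filter M ⊆
            (Finset.Ico y (y * w ^ 5)) ∪ (Finset.Ico (y * w ^ B + 1) N).filter M := by
          intro m hm
          rw [Finset.mem_filter, Finset.mem_Ico] at hm
          rw [Finset.mem_union, Finset.mem_filter, Finset.mem_Ico, Finset.mem_Ico]
          by_cases h1 : y * w ^ B + 1 ≤ m
          · exact Or.inr ⟨⟨h1, hm.1.2⟩, hm.2⟩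
          · left
            constructor
            · by_contra hcon
              exact hymin m (by omega) ⟨hm.2, hm.1.1, by omega⟩
            · by_contra hcon
              exact hwM m (by omega) (by omega) hm.2
        have h1 : ∑ m ∈ (Finset.Ico z N).filter M, (1 : ℝ) / (m : ℝ) ≤
            ∑ m ∈ Finset.Ico y (y * w ^ 5), (1 : ℝ) / (m : ℝ) +
              ∑ m ∈ (Finset.Ico (y * w ^ B + 1) N).filter M, (1 : ℝ) / (m : ℝ) := by
          refine (Finset.sum_le_sum_of_subset_of_nonneg hsub
            (fun _ _ _ => by positivity)).trans ?_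
          have h2 := Finset.sum_union_inter (s₁ := Finset.Ico y (y * w ^ 5))
            (s₂ := (Finset.Ico (y * w ^ B + 1) N).filter M) (f := fun m : ℕ => (1 : ℝ) / (m : ℝ))
          have h3 : 0 ≤ ∑ m ∈ Finset.Ico y (y * w ^ 5) ∩
              (Finset.Ico (y * w ^ B + 1) N).filter M, (1 : ℝ) / (m : ℝ) :=
            Finset.sum_nonneg fun _ _ => by positivity
          linarith
        have h2 := sum_le (a := y) (by omega) (y * w ^ 5) hy5
        have h3 := one_le_log hw
        have h4 : Real.log ((y * w ^ 5 : ℕ) : ℝ) = Real.log y + 5 * Real.log w := by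
          push_cast
          rw [Real.log_mul hy0.ne' (by positivity), Real.log_pow]
          push_cast
          ring
        have h5 : (1 : ℝ) / y ≤ 1 := by
          rw [div_le_one hy0]
          exact_mod_cast (show 1 ≤ y by omega)
        have h6 : Real.log z + B * Real.log w ≤ Real.log ((y * w ^ B + 1 : ℕ) : ℝ) := by
          rw [← Real.log_pow, ← Real.log_mul hz0.ne' (by positivity)]
          apply Real.log_le_log (by positivity)
          have h7 : z * w ^ B ≤ y * w ^ B + 1 := (Nat.mul_le_mul_right _ hy2).trans (Nat.le_succ _)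
          exact_mod_cast h7
        have h7 : 6 * Real.log w ≤
            6 / B * (Real.log ((y * w ^ B + 1 : ℕ) : ℝ) - Real.log z) := by
          have h8 : 6 * Real.log w = 6 / B * (B * Real.log w) := by
            field_simp
          rw [h8]
          apply mul_le_mul_of_nonneg_left _ (by positivity)
          linarith
        have h8 : 6 / (B : ℝ) * (Real.log N - Real.log z) =
            6 / B * (Real.log N - Real.log ((y * w ^ B + 1 : ℕ) : ℝ)) +
            6 / B * (Real.log ((y * w ^ B + 1 : ℕ) : ℝ) - Real.log z) := by ring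
        rw [h8]
        linarith
      · refine ⟨max z Y₂, le_rfl, ?_⟩
        have h1 : (Finset.Ico z (max z Y₂)).filter M = ∅ := by
          rw [Finset.filter_eq_empty_iff]
          intro m hm hMm
          rw [Finset.mem_Ico] at hm
          rcases le_total z Y₂ with h | h
          · rw [max_eq_right h] at hm
            exact hex ⟨m, hMm, hm.1, hm.2.le⟩
          · rw [max_eq_left h] at hm
            omega
        rw [h1, Finset.sum_empty]
        apply mul_nonneg (by positivity)
        have h2 : Real.log z ≤ Real.log ((max z Y₂ : ℕ) : ℝ) :=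
          Real.log_le_log hz0 (by exact_mod_cast le_max_left _ _)
        linarith
  obtain ⟨N, hN1, hN2⟩ := claim (Y₂ + 1 - Y₁) Y₁ le_rfl le_rfl
  refine ⟨N, by omega, ?_⟩
  have hsub : (Finset.range N).filter M ⊆
      Finset.range Y₁ ∪ (Finset.Ico Y₁ N).filter M := by
    intro m hm
    rw [Finset.mem_filter, Finset.mem_range] at hm
    rw [Finset.mem_union, Finset.mem_filter, Finset.mem_Ico, Finset.mem_range]
    by_cases h1 : m < Y₁
    · exact Or.inl h1
    · exact Or.inr ⟨⟨by omega, hm.1⟩, hm.2⟩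
  have h1 : ∑ m ∈ (Finset.range N).filter M, (1 : ℝ) / (m : ℝ) ≤
      ∑ m ∈ Finset.range Y₁, (1 : ℝ) / (m : ℝ) +
        ∑ m ∈ (Finset.Ico Y₁ N).filter M, (1 : ℝ) / (m : ℝ) := by
    refine (Finset.sum_le_sum_of_subset_of_nonneg hsub (fun _ _ _ => by positivity)).trans ?_
    have h2 := Finset.sum_union_inter (s₁ := Finset.range Y₁)
      (s₂ := (Finset.Ico Y₁ N).filter M) (f := fun m : ℕ => (1 : ℝ) / (m : ℝ))
    have h3 : 0 ≤ ∑ m ∈ Finset.range Y₁ ∩ (Finset.Ico Y₁ N).filter M, (1 : ℝ) / (m : ℝ) :=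
      Finset.sum_nonneg fun _ _ => by positivity
    linarith
  have h2 : ∑ m ∈ Finset.range Y₁, (1 : ℝ) / (m : ℝ) ≤ 1 + Real.log Y₁ := by
    have h3 := sum_le (a := 1) le_rfl Y₁ hY₁
    rw [Finset.range_eq_Ico, Finset.sum_eq_sum_Ico_succ_bot (by omega)]
    simp only [Nat.cast_zero, div_zero, zero_add, Nat.cast_one, div_one, Real.log_one,
      sub_zero] at h3 ⊢
    exact h3
  have h3 : 0 ≤ Real.log Y₁ := Real.log_natCast_nonneg _
  have h4 : 0 ≤ 6 / (B : ℝ) * Real.log Y₁ := by positivity
  have h5 : 6 / (B : ℝ) * (Real.log N - Real.log Y₁) =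
      6 / B * Real.log N - 6 / B * Real.log Y₁ := by ring
  rw [h5] at hN2
  linarith

end Pool.Agent.Lib.MP_b6048d_co.F
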