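import Pool.Agent.Lib.MP_b6048d_co.F.SpecG

set_option autoImplicit false

/-!
# G04 ExtAll: the extension property at all radii gives a colouring
-/

open scoped Classical

namespace Pool.Agent.Lib.MP_b6048d_co.F.ExtAllAux

open Pool.Agent.Lib.MP_b6048d_co.F

variable {V : Type}

lemma comp_col {G : SimpleGraph V} {K : ℕ} (hK : 1 ≤ K) (h : ∀ r, Ext G K r) (J : Finset V)
    (κ : G.ConnectedComponent) :
    ∃ c : V → Fin K, PropOn G (J.filter fun x => G.connectedComponentMk x = κ) c := by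
  by_cases hne : (J.filter fun x => G.connectedComponentMk x = κ).Nonempty
  · obtain ⟨v₀, hv₀⟩ := hne
    have hv₀' := (Finset.mem_filter.1 hv₀).2
    have hex : ∀ x : V, ∃ n : ℕ, G.connectedComponentMk x = κ → Wd G n v₀ x := by
      intro x
      by_cases hx : G.connectedComponentMk x = κ
      · have hr : G.Reachable v₀ x := by
          rw [← SimpleGraph.ConnectedComponent.eq, hv₀', hx]
        obtain ⟨p⟩ := hr
        exact ⟨p.length, fun _ => ⟨p, le_rfl⟩⟩
      · exact ⟨0, fun hx' => absurd hx' hx⟩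
    choose n hn using hex
    obtain ⟨c', -, hc'⟩ := h (J.sup n) v₀ (J.filter fun x => G.connectedComponentMk x = κ)
      (by
        intro x hx
        obtain ⟨p, hp⟩ := hn x (Finset.mem_filter.1 hx).2
        exact ⟨p, hp.trans (Finset.le_sup (Finset.mem_filter.1 hx).1)⟩)
      ∅ (Finset.empty_subset _) (by simp) (fun _ => ⟨0, hK⟩) (by simp)
    exact ⟨c', hc'⟩
  · refine ⟨fun _ => ⟨0, hK⟩, fun x hx => absurd ⟨x, hx⟩ hne⟩

lemma fin_col {G : SimpleGraph V} {K : ℕ} (hK : 1 ≤ K) (h : ∀ r, Ext G K r) (J : Finset V) :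
    ∃ θ : V → Fin K, PropOn G J θ := by
  choose c hc using comp_col hK h J
  refine ⟨fun x => c (G.connectedComponentMk x) x, ?_⟩
  intro x hx y hy hxy
  have e : G.connectedComponentMk y = G.connectedComponentMk x :=
    SimpleGraph.ConnectedComponent.eq.2 hxy.symm.reachable
  show c (G.connectedComponentMk x) x ≠ c (G.connectedComponentMk y) y
  rw [e]
  exact hc (G.connectedComponentMk x) x (Finset.mem_filter.2 ⟨hx, rfl⟩) y
    (Finset.mem_filter.2 ⟨hy, e⟩) hxy

end Pool.Agent.Lib.MP_b6048d_co.F.ExtAllAux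

namespace Pool.Agent.Lib.MP_b6048d_co.F

open ExtAllAux

theorem extAll : ExtAll := by
  intro V G K hK h
  have h1 : ∀ G' : G.Subgraph, G'.verts.Finite → Nonempty (G'.coe →g (⊤ : SimpleGraph (Fin K))) := by
    intro G' hG'
    obtain ⟨θ, hθ⟩ := fin_col hK h hG'.toFinset
    refine ⟨⟨fun v => θ v.1, ?_⟩⟩
    intro u v huv
    rw [SimpleGraph.top_adj]
    exact hθ u.1 (by simp) v.1 (by simp) (G'.adj_sub huv)
  obtain ⟨f⟩ := SimpleGraph.nonempty_hom_of_forall_finite_subgraph_hom
    (fun G' hG' => (h1 G' hG').some)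
  exact ⟨f⟩

end Pool.Agent.Lib.MP_b6048d_co.F
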