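import Pool.Agent.Lib.MP_b6048d_co.F.SpecG

set_option autoImplicit false

open scoped Classical

namespace Pool.Agent.Lib.MP_b6048d_co.F.ExtSmallAux

/-- An injection of `Fin k` into `Fin K` avoiding a set with at most two elements. -/
theorem exists_inj {k K : ℕ} (h : k + 2 ≤ K) (A : Finset (Fin K)) (hA : A.card ≤ 2) :
    ∃ φ : Fin k → Fin K, Function.Injective φ ∧ ∀ i, φ i ∉ A := by
  have hc : k ≤ (Finset.univ \ A).card := by
    rw [Finset.card_univ_sdiff, Fintype.card_fin]; omega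
  obtain ⟨B, hB, hBc⟩ := Finset.exists_subset_card_eq hc
  refine ⟨fun i => (B.equivFin.symm (Fin.cast hBc.symm i) : Fin K), ?_, ?_⟩
  · intro i j hij
    have h1 := B.equivFin.symm.injective (Subtype.ext hij)
    exact Fin.cast_injective _ h1
  · intro i hi
    have h2 := hB (B.equivFin.symm (Fin.cast hBc.symm i)).2
    exact (Finset.mem_sdiff.mp h2).2 hi

end Pool.Agent.Lib.MP_b6048d_co.F.ExtSmallAux

namespace Pool.Agent.Lib.MP_b6048d_co.F

open ExtSmallAux

theorem extSmall : ExtSmall := by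
  intro V G ρ k K hLoc hK r hr v₀ J hJ S hSJ hS c hc
  obtain ⟨θ, hθ⟩ := hLoc v₀
  obtain ⟨φ, hφ, hφA⟩ := exists_inj hK (S.image c) (Finset.card_image_le.trans hS)
  refine ⟨fun x => if x ∈ S then c x else φ (θ x), fun x hx => if_pos hx, ?_⟩
  intro x hx y hy hxy
  have hm : ∀ z ∈ S, c z ∈ S.image c := fun z hz => Finset.mem_image_of_mem c hz
  by_cases hxS : x ∈ S
  · by_cases hyS : y ∈ S
    · simp only [if_pos hxS, if_pos hyS]; exact hc x hxS y hyS hxy
    · simp only [if_pos hxS, if_neg hyS]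
      intro he; exact hφA _ (he ▸ hm x hxS)
  · by_cases hyS : y ∈ S
    · simp only [if_neg hxS, if_pos hyS]
      intro he; exact hφA _ (he ▸ hm y hyS)
    · simp only [if_neg hxS, if_neg hyS]
      intro he
      exact hθ x y hxy ((hJ x hx).mono hr) ((hJ y hy).mono hr) (hφ he)

end Pool.Agent.Lib.MP_b6048d_co.F
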