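import Pool.Agent.Lib.MP_b6048d_co.F.GrowthDef
import Pool.Agent.Lib.MP_b6048d_co.Growth

set_option autoImplicit false

/-!
# Section G of the full solution of MP_b6048d_co: covering argument and assembly

Every `Prop` is to be proved in its own file; the docstring is a complete proof. Statements proved
in other files may be used as HYPOTHESES.
-/

open scoped Classical

namespace Pool.Agent.Lib.MP_b6048d_co.F

variable {V : Type*}

/-- The logarithmic measure of the missing lengths below `N`. -/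
noncomputable def missSum (G : SimpleGraph V) (N : ℕ) : ℝ :=
  ∑ m ∈ (Finset.range N).filter (fun m => Missing G m), (1 : ℝ) / (m : ℝ)

/-- The sequence of the frozen statement. -/
noncomputable def uSeq (G : SimpleGraph V) (N : ℕ) : ℝ :=
  (1 / Real.log (N : ℝ)) *
    ∑ m ∈ Finset.range N,
      ({n : ℕ | ∃ (v : V) (p : G.Walk v v), p.IsCycle ∧ p.length = n}).indicator
        (fun k : ℕ => (1 : ℝ) / (k : ℝ)) m

/-- **G01 LogMiss.** If the upper logarithmic density is not `1`, then the missing lengths have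
positive lower logarithmic density.
Proof. Let `S` be the set of cycle lengths. `m ∉ S → Missing G m` by `IsCyc.toWalk` (see the proof in
`Pool/Agent/Results/MP_b6048d_co/LocalToGlobal.lean`, where also the first conclusion `Miss G A R` is
derived from `log_density`: copy it). Second conclusion: by the proof of `log_density`
(`Delta.lean`) `uSeq G N ≤ 1 / log N + 1` eventually and `0 ≤ uSeq G N`, so `limsup ≤ 1`, hence
`limsup < 1`; take `limsup < c < 1`: `uSeq G N < c` eventually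
(`Filter.eventually_lt_of_limsup_lt`, bounded above as shown). For `N ≥ 2`:
`∑_{m < N} 1/m = harmonic (N-1) ≥ log N` (`sum_range_inv`, `log_add_one_le_harmonic`), and
`1/m ≤ 1_S(m)/m + 1_{Missing}(m)/m`, so
`missSum G N ≥ log N - log N * uSeq G N ≥ (1 - c) log N`. Take `η = 1 - c`. -/
def LogMiss : Prop := ∀ (V : Type) (G : SimpleGraph V),
  Filter.limsup (uSeq G) Filter.atTop ≠ 1 →
  (∃ A R : ℕ, 2 ≤ A ∧ Miss G A R) ∧
  ∃ η : ℝ, 0 < η ∧ ∃ N₀ : ℕ, ∀ N : ℕ, N₀ ≤ N → η * Real.log N ≤ missSum G N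

/-- **G02 Cover** (pure). The covering argument.
Proof. Claim: for every `z ≥ Y₁` there is `N ≥ max z Y₂` with
`∑_{z ≤ m < N, M m} 1/m ≤ (6/B) (log N - log z)`. Induction on `Y₂ + 1 - z`. If there is no `y` with
`M y`, `z ≤ y ≤ Y₂`, take `N = max z Y₂`: the sum is empty. Otherwise let `y` be the least such `y`,
`w ≥ 3` as in the hypothesis, `z' = y w^B + 1 > z`. By induction (if `z' > Y₂` use the claim for
`z'`, which is in the first case) there is `N ≥ max z' Y₂` with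
`∑_{z' ≤ m < N, M m} 1/m ≤ (6/B) (log N - log z')`. Every `m` with `M m`, `z ≤ m < z'` satisfies
`y ≤ m < y w^5`, and `∑_{y ≤ m < y w^5} 1/m ≤ 1/y + log (y w^5 / y) ≤ 1 + 5 log w ≤ 6 log w`
(`w ≥ 3`, `log 3 ≥ 1`), `6 log w = (6/B) log (w^B) ≤ (6/B) (log z' - log z)` because
`z' ≥ z w^B`. Add up. (The sum bound: `1/m ≤ log m - log (m-1)` for `m ≥ 2`, telescoping.)
Now the theorem: use the claim with `z = Y₁`; the terms with `m < Y₁` contribute at most
`∑_{1 ≤ m < Y₁} 1/m ≤ 1 + log Y₁` (`harmonic_le_one_add_log`), and `log Y₁ ≥ 0`. -/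
def Cover : Prop := ∀ (M : ℕ → Prop) (B Y₁ Y₂ : ℕ), 1 ≤ B → 1 ≤ Y₁ → Y₁ ≤ Y₂ →
  (∀ y, M y → Y₁ ≤ y → y ≤ Y₂ → ∃ w : ℕ, 3 ≤ w ∧ ∀ ℓ, y * w ^ 5 ≤ ℓ → ℓ ≤ y * w ^ B → ¬ M ℓ) →
  ∃ N : ℕ, Y₂ ≤ N ∧ ∑ m ∈ (Finset.range N).filter M, (1 : ℝ) / (m : ℝ) ≤
    1 + Real.log Y₁ + 6 / B * Real.log N

/-- **G03 ExtSmall.** Local colourability gives the extension property at small radii.
Proof. Let `θ : V → Fin k` be proper on the ball of radius `ρ` around `v₀` (`Loc`), which contains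
`J` (`Wd.mono`). The set `c '' S` has at most `2` elements, so its complement in `Fin K` has at
least `k` elements: an injection `φ : Fin k → Fin K` with values outside `c '' S`. Let `c' x = c x`
for `x ∈ S` and `c' x = φ (θ x)` otherwise. -/
def ExtSmall : Prop := ∀ (V : Type) (G : SimpleGraph V) (ρ k K : ℕ), Loc G ρ k → k + 2 ≤ K →
  ∀ r ≤ ρ, Ext G K r

/-- **G04 ExtAll.** The extension property at all radii gives a colouring.
Proof. By de Bruijn-Erdős (`SimpleGraph.nonempty_hom_of_forall_finite_subgraph_hom`; see its use in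
`Lib/MP_b6048d_co/Numbers.lean` or `Nested.lean`) it suffices to colour `G` on every finite set `J`.
For a connected component `κ` of `G` the set `J_κ = {x ∈ J : x ∈ κ}`, if nonempty, is inside a
ball of radius `r` around one of its elements `v₀` (`r` = the largest distance), so `Ext G K r` with
`S = ∅` and any `c` (`K ≥ 1`) gives `c_κ` proper on `J_κ`. The function `x ↦ c_{κ(x)} x` is proper
on `J`, since adjacent vertices are in the same component. -/
def ExtAll : Prop := ∀ (V : Type) (G : SimpleGraph V) (K : ℕ), 1 ≤ K → (∀ r, Ext G K r) →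
  G.Colorable K

/-- **G05 SubCol.** Subgraphs of balls without short odd cycles have bounded chromatic number.
Proof. Let `M = 2 * T * A`, `P = 1000 * (16000 + (5 * M + 3)) ^ 4`, `a₁ = 32 * Δ + 4 * P + 8`,
`r₀ = (2 * Δ * a₁) ^ T + R + 1`. Let `r ≥ r₀`, `r ≤ (2 Δ a)^T`; then `a > a₁` (otherwise
`r ≤ (2Δa₁)^T < r₀`). Let `ρ = (a - 1) / 2`, so `2ρ + 1 ≤ a`, `ρ ≥ a/4`, `ρ ≥ P`. `loc_two`
(`Balls.lean`) gives `Loc F ρ 2`. Suppose `F` is not `8 (25M²+30M+2)`-colourable,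
`8 (25M²+30M+2) = 4 ((25M²+30M+2) 2)`. By `MainSub` all lengths `ℓ` with `2r+1 ≤ ℓ ≤ ρ^M` are cycle
lengths of `G`. `Miss G A R` with `s = r ≥ R` gives a missing `ℓ` with `2r+1 ≤ ℓ ≤ r^A`. But
`2Δa ≤ ρ²` (`ρ ≥ a/4`, `a ≥ 32Δ`: `ρ² ≥ a²/16 ≥ 2Δa`), so `r ≤ (2Δa)^T ≤ ρ^(2T)` and
`r^A ≤ ρ^(2TA) = ρ^M`. Contradiction. -/
def SubCol : Prop := ∀ (A R T Δ : ℕ), 1 ≤ A → 1 ≤ T → 1 ≤ Δ → ∃ r₀ : ℕ,
  ∀ (V : Type) (G : SimpleGraph V) (r a : ℕ), Miss G A R → r₀ ≤ r → r ≤ (2 * Δ * a) ^ T →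
  ∀ (v₀ : V) (F : SimpleGraph V), F ≤ G → (∀ x y, F.Adj x y → Wd G r v₀ x) →
    (∀ Q, IsCyc F Q → Odd Q.length → a < Q.length) →
    F.Colorable (8 * (25 * (2 * T * A) ^ 2 + 30 * (2 * T * A) + 2))

/-- **G06 Final.** The assembly (helper83 proves it).
Proof. Suppose `limsup ≠ 1`. `LogMiss`: `A, R, η, N₀`. Let `T ≥ 8/η`, `B ≥ 48/η`, `B ≥ 1`,
`Δ ≥ 1000`, `Δ ≥ Δ₀` of `GrowthThm A R (B+1)`; `C, lam₀, a₀` from `GrowthThm`, `C', lam₀', p₀` from
`GapLemma A R Δ`; `C'' , lam₀''` the maxima; `K₂`, `G'` from `CovThm 3000 C'' lam₀''`;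
`K₁ = 8 (25(2TA)² + 30(2TA) + 2)`; `Miss G' A R`. `r₀` large; `Loc G' r₀ k₀` by `base_step`;
`K = max (2 + 2K₁) (k₀ + 2)`. By `ExtAll` there is a least `r` with `¬ Ext G' K r`, and `r > r₀` by
`ExtSmall`. Let `s` be the largest number with `s^T ≤ r`. For a missing `y` with `s ≤ y ≤ r/2` let
`a = y/Δ + 1`, `b = y/3`, `g = b - 2a`: `GapLemma` + `GapToGapP` + `BlocksExist` give blocks,
`ColorThm` + `SubCol` (`(2Δa)^T ≥ (s+1)^T > r`) a failing structure, `GrowthThm` a `w ≥ Δ` such that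
all lengths in `[a w^4, a w^(B+1)] ⊇ [y w^5, y w^B]` occur (`a ≤ 2y ≤ y w`, `y ≤ Δ a ≤ w a`). `Cover`
with `Y₁ = s`, `Y₂ = r/2` gives `N ≥ r/2` with
`η log N ≤ missSum G N ≤ 1 + log s + (6/B) log N ≤ 1 + (log N + 2)/T + (6/B) log N
≤ 3 + (η/4) log N`, impossible for `log N > 4/η`. -/
def Final : Prop := ∀ (V : Type) (G : SimpleGraph V), G.chromaticNumber = ⊤ →
  Filter.limsup (uSeq G) Filter.atTop = 1

end Pool.Agent.Lib.MP_b6048d_co.F
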