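import Pool.Agent.Lib.MP_b6048d_co.F.SpecA
import Pool.Agent.Lib.MP_b6048d_co.F.SpecG

set_option autoImplicit false

/-!
Section G of the full solution of MP_b6048d_co: the assembly.
-/

open scoped Classical

namespace Pool.Agent.Lib.MP_b6048d_co.F

namespace FinalAux

lemma isCyc_mono {V : Type*} {G G' : SimpleGraph V} (h : G' ≤ G) {D : List V}
    (hD : IsCyc G' D) : IsCyc G D := by
  have := IsCyc.map (f := id) Function.injective_id (fun x y hxy => h hxy) hD
  simpa using this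

lemma missing_mono {V : Type*} {G G' : SimpleGraph V} (h : G' ≤ G) {ℓ : ℕ}
    (hm : Missing G ℓ) : Missing G' ℓ := fun D hD => hm D (isCyc_mono h hD)

lemma miss_mono {V : Type*} {G G' : SimpleGraph V} (h : G' ≤ G) {A R : ℕ}
    (hm : Miss G A R) : Miss G' A R := by
  intro s hs
  obtain ⟨ℓ, h1, h2, h3⟩ := hm s hs
  exact ⟨ℓ, h1, h2, missing_mono h h3⟩

lemma exists_root (T r : ℕ) (hT : 1 ≤ T) : ∃ s : ℕ, s ^ T ≤ r ∧ r < (s + 1) ^ T := by
  refine ⟨Nat.findGreatest (fun s => s ^ T ≤ r) r, ?_, ?_⟩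
  · apply Nat.findGreatest_spec (P := fun s => s ^ T ≤ r) (m := 0) (Nat.zero_le _)
    show 0 ^ T ≤ r
    rw [Nat.zero_pow (by omega)]
    exact Nat.zero_le _
  · by_contra hcon
    push Not at hcon
    set s := Nat.findGreatest (fun s => s ^ T ≤ r) r with hs
    have h1 : s + 1 ≤ (s + 1) ^ T := Nat.le_self_pow (by omega) _
    exact Nat.findGreatest_is_greatest (P := fun s => s ^ T ≤ r) (n := r) (k := s + 1)
      (by rw [← hs]; omega) (by omega) hcon

end FinalAux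

open FinalAux

theorem final (hCov : CovThm) (hMono : CovMono) (hGap : GapLemma) (hGP : GapToGapP)
    (hBl : BlocksExist) (hCol : ColorThm) (hGr : GrowthThm) (hLM : LogMiss) (hCv : Cover)
    (hES : ExtSmall) (hEA : ExtAll) (hSC : SubCol) : Final := by
  intro V G hchi
  by_contra hlim
  obtain ⟨⟨A, R, hA2, hmiss⟩, η, hη, N₀, hN₀⟩ := hLM V G hlim
  have hA1 : 1 ≤ A := by omega
  -- parameters
  obtain ⟨T, hT⟩ := exists_nat_ge (8 / η + 2)
  obtain ⟨B, hB⟩ := exists_nat_ge (48 / η + 1)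
  have h8 : 0 < 8 / η := by positivity
  have h48 : 0 < 48 / η := by positivity
  have hT2 : 2 ≤ T := by
    have : (2 : ℝ) ≤ T := by linarith
    exact_mod_cast this
  have hB1 : 1 ≤ B := by
    have : (1 : ℝ) ≤ B := by linarith
    exact_mod_cast this
  obtain ⟨Δ₀, hΔ₀⟩ := hGr A R (B + 1) hA1
  obtain ⟨Δ, hΔdef⟩ : ∃ Δ, Δ = Δ₀ + 1000 := ⟨_, rfl⟩
  have hΔ1000 : 1000 ≤ Δ := by omega
  obtain ⟨C, lam₀, a₀, hlam3, hgrow⟩ := hΔ₀ Δ (by omega)
  obtain ⟨C', lam₀', p₀, hlam3', hgap⟩ := hGap A R Δ hA1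
  obtain ⟨K₂, hK₂, hcov⟩ := hCov 3000 (max C C') (max lam₀ lam₀')
  obtain ⟨G', hG'G, hcovG', hcolG'⟩ := hcov V G
  have hcov1 : Cov G' 3000 C lam₀ :=
    hMono.2 V G' 3000 3000 _ C _ lam₀ (by omega) le_rfl (le_max_left _ _) (le_max_left _ _) hcovG'
  have hcov2 : Cov G' 3000 C' lam₀' :=
    hMono.2 V G' 3000 3000 _ C' _ lam₀' (by omega) le_rfl (le_max_right _ _) (le_max_right _ _)
      hcovG'
  have hmiss' : Miss G' A R := miss_mono hG'G hmiss
  obtain ⟨r₁, hr₁⟩ := hSC A R T Δ hA1 (by omega) (by omega)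
  set K₁ : ℕ := 8 * (25 * (2 * T * A) ^ 2 + 30 * (2 * T * A) + 2) with hK₁
  obtain ⟨E, hE⟩ := exists_nat_gt (Real.exp (4 / η))
  obtain ⟨s₀, hs₀⟩ : ∃ s₀, s₀ = Δ * (p₀ + a₀ + 1000) + 5000 := ⟨_, rfl⟩
  obtain ⟨r₀, hr₀⟩ : ∃ r₀, r₀ = (s₀ + 1) ^ T + r₁ + 2 * (N₀ + E + 2) + 10 := ⟨_, rfl⟩
  -- small radii
  obtain ⟨ℓ₀, hℓ₀1, -, hℓ₀3⟩ := hmiss' (max r₀ R) (le_max_right _ _)
  have hloc : Loc G' r₀ (4 * ℓ₀) := base_step (by
    have : r₀ ≤ max r₀ R := le_max_left _ _
    omega) (by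
    have : r₀ ≤ max r₀ R := le_max_left _ _
    omega) hℓ₀3
  obtain ⟨K, hK⟩ : ∃ K, K = 2 + 2 * K₁ + (4 * ℓ₀ + 2) := ⟨_, rfl⟩
  have hext : ∀ r ≤ r₀, Ext G' K r := hES V G' r₀ (4 * ℓ₀) K hloc (by omega)
  have hnall : ∃ r, ¬ Ext G' K r := by
    by_contra hcon
    push Not at hcon
    have h1 := hcolG' K (hEA V G' K (by omega) hcon)
    have h2 : G.chromaticNumber ≠ ⊤ :=
      SimpleGraph.chromaticNumber_ne_top_iff_exists.2 ⟨_, h1⟩
    exact h2 hchi
  obtain ⟨r, hr, hrmin⟩ : ∃ r, ¬ Ext G' K r ∧ ∀ r' < r, Ext G' K r' :=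
    ⟨Nat.find hnall, Nat.find_spec hnall, fun r' hr' => by
      have := Nat.find_min hnall hr'
      push Not at this
      exact this⟩
  have hrr₀ : r₀ < r := by
    by_contra hcon
    exact hr (hext r (by omega))
  obtain ⟨s, hs1, hs2⟩ := exists_root T r (by omega)
  have hss₀ : s₀ < s + 1 := by
    by_contra hcon
    push Not at hcon
    have h1 : (s + 1) ^ T ≤ (s₀ + 1) ^ T := Nat.pow_le_pow_left (by omega) _
    omega
  have hsr : s ≤ r / 2 := by
    have h1 : s ^ 2 ≤ s ^ T := Nat.pow_le_pow_right (by omega) hT2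
    have h2 : s * s ≤ r := by
      rw [← pow_two]; exact h1.trans hs1
    have h3 : 2 * s ≤ s * s := Nat.mul_le_mul_right _ (by omega)
    omega
  -- the covering property
  have key : ∀ y, Missing G y → s ≤ y → y ≤ r / 2 →
      ∃ w : ℕ, 3 ≤ w ∧ ∀ ℓ, y * w ^ 5 ≤ ℓ → ℓ ≤ y * w ^ B → ¬ Missing G ℓ := by
    intro y hy hsy hyr
    have hy' : Missing G' y := missing_mono hG'G hy
    obtain ⟨q, hq⟩ : ∃ q, q = y / Δ := ⟨_, rfl⟩
    have hq1 : q ≤ y / 1000 := by rw [hq]; exact Nat.div_le_div_left hΔ1000 (by norm_num)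
    have hq2 : Δ * q ≤ y := by rw [hq]; exact Nat.mul_div_le _ _
    have hq3 : y < Δ * (q + 1) := by rw [hq]; exact Nat.lt_mul_div_succ _ (by omega)
    have hys₀ : Δ * (p₀ + a₀ + 1000) + 5000 ≤ y := by omega
    have hqbig : p₀ + a₀ + 1000 ≤ q := by
      rw [hq, Nat.le_div_iff_mul_le (by omega)]
      have : (p₀ + a₀ + 1000) * Δ = Δ * (p₀ + a₀ + 1000) := Nat.mul_comm _ _
      omega
    have hΔy : Δ + 22 ≤ y := by
      have : Δ * 1 ≤ Δ * (p₀ + a₀ + 1000) := Nat.mul_le_mul_left _ (by omega)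
      omega
    have hΔq : Δ * (q + 1) = Δ * q + Δ := by ring
    have hP : GapP G' (y / Δ + 1) (y / 3) :=
      hGP V G' Δ p₀ y (by omega) hy' (by rw [← hq]; omega)
        (fun Q q₁ q₂ v l h1 h2 h3 h4 h5 => hgap V G' hmiss' hcov2 Q q₁ q₂ v l h1 h2 h3 h4 h5)
    rw [← hq] at hP
    obtain ⟨XX, hXX⟩ := hBl V G' (q + 1) (y / 3) hP (by omega)
    obtain ⟨I, Tc, Ce, hfail⟩ := hCol V G' XX (q + 1) (y / 3 - 2 * (q + 1)) K K₁ r hXX (by omega)
      (by omega) (by omega) (by omega) hrmin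
      (fun v₀ F h1 h2 h3 => hr₁ V G' r (q + 1) hmiss' (by omega) (by
        have h4 : (s + 1) ^ T ≤ (2 * Δ * (q + 1)) ^ T := by
          apply Nat.pow_le_pow_left
          have : 2 * Δ * (q + 1) = 2 * (Δ * (q + 1)) := by ring
          omega
        omega) v₀ F h1 h2 h3) hr
    obtain ⟨w, hw1, hw2⟩ := hgrow V G' XX (q + 1) (y / 3 - 2 * (q + 1)) I Tc Ce hmiss' hcov1
      (by omega) (by omega) hXX hfail
    refine ⟨w, by omega, ?_⟩
    intro ℓ hℓ1 hℓ2 hℓ
    have hw0 : 1 ≤ w := by omega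
    obtain ⟨D, hD1, hD2⟩ := hw2 ℓ (by
      refine le_trans ?_ hℓ1
      have h5 : q + 1 ≤ y * w := by
        have : y * 1 ≤ y * w := Nat.mul_le_mul_left _ hw0
        omega
      calc (q + 1) * w ^ 4 ≤ (y * w) * w ^ 4 := Nat.mul_le_mul_right _ h5
        _ = y * w ^ 5 := by ring) (by
      refine hℓ2.trans ?_
      have h5 : y ≤ (q + 1) * w := by
        have : (q + 1) * Δ ≤ (q + 1) * w := Nat.mul_le_mul_left _ hw1
        have h6 : (q + 1) * Δ = Δ * (q + 1) := Nat.mul_comm _ _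
        omega
      calc y * w ^ B ≤ ((q + 1) * w) * w ^ B := Nat.mul_le_mul_right _ h5
        _ = (q + 1) * w ^ (B + 1) := by ring)
    exact hℓ D (isCyc_mono hG'G hD1) hD2
  obtain ⟨N, hN1, hN2⟩ := hCv (fun ℓ => Missing G ℓ) B s (r / 2) hB1 (by omega) hsr key
  have hNbig : N₀ + E + 2 ≤ N := by omega
  have h1 : η * Real.log N ≤ missSum G N := hN₀ N (by omega)
  have h2 : η * Real.log N ≤ 1 + Real.log s + 6 / B * Real.log N := h1.trans hN2
  have hNpos : (0 : ℝ) < N := by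
    have : 0 < N := by omega
    exact_mod_cast this
  have hspos : (0 : ℝ) < s := by
    have : 0 < s := by omega
    exact_mod_cast this
  have hTpos : (0 : ℝ) < T := by
    have : 0 < T := by omega
    exact_mod_cast this
  have hBpos : (0 : ℝ) < B := by
    have : 0 < B := by omega
    exact_mod_cast this
  set L := Real.log N with hL
  have hL4 : 4 / η < L := by
    rw [hL, Real.lt_log_iff_exp_lt hNpos]
    have : (E : ℝ) ≤ N := by
      have : E ≤ N := by omega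
      exact_mod_cast this
    linarith
  have hLpos : 0 < L := lt_trans (by positivity) hL4
  have h3 : (T : ℝ) * Real.log s ≤ 2 + L := by
    have e1 : (T : ℝ) * Real.log s = Real.log ((s : ℝ) ^ T) := by rw [Real.log_pow]
    rw [e1]
    have e2 : ((s : ℝ) ^ T) ≤ 3 * N := by
      have : s ^ T ≤ 3 * N := by omega
      exact_mod_cast this
    calc Real.log ((s : ℝ) ^ T) ≤ Real.log (3 * N) := Real.log_le_log (by positivity) e2
      _ = Real.log 3 + L := by rw [Real.log_mul (by norm_num) hNpos.ne']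
      _ ≤ 2 + L := by
        have : Real.log 3 ≤ 3 - 1 := Real.log_le_sub_one_of_pos (by norm_num)
        linarith
  have h4 : Real.log s ≤ 2 + η / 8 * L := by
    have e1 : Real.log s ≤ (2 + L) / T := by
      rw [le_div_iff₀ hTpos]; linarith
    have e2 : (2 + L) / T = 2 / T + L / T := by ring
    have e3 : 2 / (T : ℝ) ≤ 2 := by
      rw [div_le_iff₀ hTpos]
      have : (1 : ℝ) ≤ T := by
        have : 1 ≤ T := by omega
        exact_mod_cast this
      linarith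
    have e4 : L / T ≤ η / 8 * L := by
      rw [div_le_iff₀ hTpos]
      have e5 : 8 / η ≤ T := by linarith
      have e6 : 1 ≤ η / 8 * T := by
        have := mul_le_mul_of_nonneg_left e5 (show (0 : ℝ) ≤ η / 8 by positivity)
        have e7 : η / 8 * (8 / η) = 1 := by field_simp
        linarith
      nlinarith
    linarith
  have h5 : 6 / (B : ℝ) * L ≤ η / 8 * L := by
    apply mul_le_mul_of_nonneg_right _ hLpos.le
    rw [div_le_iff₀ hBpos]
    have e5 : 48 / η ≤ B := by linarith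
    have := mul_le_mul_of_nonneg_left e5 (show (0 : ℝ) ≤ η / 8 by positivity)
    have e7 : η / 8 * (48 / η) = 6 := by field_simp; norm_num
    linarith
  have h6 : 4 < η * L := by
    have := (div_lt_iff₀ hη).1 hL4
    linarith
  nlinarith

end Pool.Agent.Lib.MP_b6048d_co.F
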