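import Pool.Agent.Lib.MP_b6048d_co.F.SpecG
import Pool.Agent.Lib.MP_b6048d_co.Delta

set_option autoImplicit false

/-!
G01: if the upper logarithmic density of the cycle lengths is not one, then the missing lengths
have positive lower logarithmic density.
-/

open scoped Classical

namespace Pool.Agent.Lib.MP_b6048d_co.F.LogMissAux

open Filter

variable {V : Type}

/-- The set of cycle lengths. -/
def cyc (G : SimpleGraph V) : Set ℕ := {n : ℕ | ∃ (v : V) (p : G.Walk v v), p.IsCycle ∧ p.length = n}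

lemma missing_of_notMem (G : SimpleGraph V) {ℓ : ℕ} (h : ℓ ∉ cyc G) : Missing G ℓ := by
  intro D hD hDl
  obtain ⟨v, p, hp1, hp2⟩ := hD.toWalk
  exact h ⟨v, p, hp1, hp2.trans hDl⟩

lemma uSeq_eq (G : SimpleGraph V) (N : ℕ) : uSeq G N = (1 / Real.log (N : ℝ)) *
    ∑ m ∈ Finset.range N, (cyc G).indicator (fun k : ℕ => (1 : ℝ) / (k : ℝ)) m := rfl

lemma ind_le (S : Set ℕ) (m : ℕ) : S.indicator (fun k : ℕ => (1 : ℝ) / (k : ℝ)) m ≤ 1 / (m : ℝ) := by
  apply Set.indicator_le_self'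
  intro _ _
  positivity

lemma ind_nonneg (S : Set ℕ) (m : ℕ) : 0 ≤ S.indicator (fun k : ℕ => (1 : ℝ) / (k : ℝ)) m := by
  apply Set.indicator_nonneg
  intro _ _
  positivity

lemma log_pos' {N : ℕ} (hN : 3 ≤ N) : 0 < Real.log (N : ℝ) := Real.log_pos (by
  have : (3 : ℝ) ≤ N := by exact_mod_cast hN
  linarith)

lemma upper (G : SimpleGraph V) : ∀ᶠ N : ℕ in atTop, uSeq G N ≤ 1 / Real.log (N : ℝ) + 1 := by
  filter_upwards [Filter.eventually_ge_atTop 3] with N hN
  have hlog := log_pos' hN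
  obtain ⟨n, rfl⟩ : ∃ n, N = n + 1 := ⟨N - 1, by omega⟩
  have h1 : ∑ m ∈ Finset.range (n + 1), (cyc G).indicator (fun k : ℕ => (1 : ℝ) / (k : ℝ)) m ≤
      1 + Real.log ((n + 1 : ℕ) : ℝ) := by
    calc ∑ m ∈ Finset.range (n + 1), (cyc G).indicator (fun k : ℕ => (1 : ℝ) / (k : ℝ)) m
        ≤ ∑ m ∈ Finset.range (n + 1), (1 : ℝ) / (m : ℝ) :=
          Finset.sum_le_sum fun m _ => ind_le _ m
      _ = ((harmonic n : ℚ) : ℝ) := sum_range_inv n
      _ ≤ 1 + Real.log (n : ℝ) := harmonic_le_one_add_log n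
      _ ≤ 1 + Real.log ((n + 1 : ℕ) : ℝ) := by
          have : Real.log (n : ℝ) ≤ Real.log ((n + 1 : ℕ) : ℝ) :=
            Real.log_le_log (by
              have : 0 < n := by omega
              exact_mod_cast this) (by push_cast; linarith)
          linarith
  calc uSeq G (n + 1) ≤ (1 / Real.log ((n + 1 : ℕ) : ℝ)) * (1 + Real.log ((n + 1 : ℕ) : ℝ)) := by
        rw [uSeq_eq]
        exact mul_le_mul_of_nonneg_left h1 (by positivity)
    _ = 1 / Real.log ((n + 1 : ℕ) : ℝ) + 1 := by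
        field_simp

lemma tend : Tendsto (fun N : ℕ => 1 / Real.log (N : ℝ) + 1) atTop (nhds 1) := by
  have h1 : Tendsto (fun N : ℕ => Real.log (N : ℝ)) atTop atTop :=
    Real.tendsto_log_atTop.comp tendsto_natCast_atTop_atTop
  have h2 := h1.inv_tendsto_atTop
  have h3 := h2.add_const 1
  rw [zero_add] at h3
  refine h3.congr ?_
  intro N
  simp

lemma bdd (G : SimpleGraph V) : IsBoundedUnder (· ≤ ·) atTop (uSeq G) :=
  tend.isBoundedUnder_le.mono_le (upper G)

lemma cobdd (G : SimpleGraph V) : IsCoboundedUnder (· ≤ ·) atTop (uSeq G) := by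
  have hnonneg : ∀ᶠ N : ℕ in atTop, 0 ≤ uSeq G N := by
    filter_upwards [Filter.eventually_ge_atTop 3] with N hN
    have hlog := log_pos' hN
    rw [uSeq_eq]
    exact mul_nonneg (by positivity) (Finset.sum_nonneg fun m _ => ind_nonneg _ m)
  exact (Filter.isBoundedUnder_of_eventually_ge hnonneg).isCoboundedUnder_le

lemma limsup_le (G : SimpleGraph V) : limsup (uSeq G) atTop ≤ 1 := by
  calc limsup (uSeq G) atTop ≤ limsup (fun N : ℕ => 1 / Real.log (N : ℝ) + 1) atTop :=
        limsup_le_limsup (upper G) (cobdd G) tend.isBoundedUnder_le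
    _ = 1 := tend.limsup_eq

/-- The two sums together are at least `log N`. -/
lemma lower (G : SimpleGraph V) {N : ℕ} (hN : 3 ≤ N) :
    Real.log (N : ℝ) ≤ ∑ m ∈ Finset.range N, (cyc G).indicator (fun k : ℕ => (1 : ℝ) / (k : ℝ)) m +
      missSum G N := by
  obtain ⟨n, rfl⟩ : ∃ n, N = n + 1 := ⟨N - 1, by omega⟩
  have h1 : Real.log ((n + 1 : ℕ) : ℝ) ≤ ∑ m ∈ Finset.range (n + 1), (1 : ℝ) / (m : ℝ) := by
    rw [sum_range_inv]
    have := log_add_one_le_harmonic n
    push_cast at this ⊢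
    exact this
  refine h1.trans ?_
  unfold missSum
  rw [Finset.sum_filter, ← Finset.sum_add_distrib]
  refine Finset.sum_le_sum fun m _ => ?_
  have hpos : (0 : ℝ) ≤ 1 / (m : ℝ) := by positivity
  by_cases hm : m ∈ cyc G
  · rw [Set.indicator_of_mem hm]
    split_ifs <;> linarith
  · rw [if_pos (missing_of_notMem G hm)]
    linarith [ind_nonneg (cyc G) m]

end Pool.Agent.Lib.MP_b6048d_co.F.LogMissAux

namespace Pool.Agent.Lib.MP_b6048d_co.F

open LogMissAux Filter

theorem logMiss : LogMiss := by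
  intro V G hG
  constructor
  · by_contra hcon
    push Not at hcon
    apply hG
    have h0 : uSeq G = fun N : ℕ => (1 / Real.log (N : ℝ)) *
        ∑ m ∈ Finset.range N, (cyc G).indicator (fun k : ℕ => (1 : ℝ) / (k : ℝ)) m := rfl
    rw [h0]
    apply log_density
    intro A hA R
    have h1 := hcon A R hA
    unfold Miss at h1
    push Not at h1
    obtain ⟨r, hr, h2⟩ := h1
    refine ⟨r, hr, ?_⟩
    intro ℓ hℓ1 hℓ2
    by_contra hℓS
    exact h2 ℓ hℓ1 hℓ2 (missing_of_notMem G hℓS)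
  · have hlt : limsup (uSeq G) atTop < 1 := lt_of_le_of_ne (limsup_le G) hG
    obtain ⟨c, hc1, hc2⟩ := exists_between hlt
    have hev := Filter.eventually_lt_of_limsup_lt hc1 (bdd G)
    obtain ⟨N₁, hN₁⟩ := Filter.eventually_atTop.1 hev
    refine ⟨1 - c, by linarith, max N₁ 3, ?_⟩
    intro N hN
    have h1 := hN₁ N ((le_max_left _ _).trans hN)
    have h3 : 3 ≤ N := (le_max_right _ _).trans hN
    have hlog := log_pos' h3
    have h4 := lower G h3
    rw [uSeq_eq, one_div, inv_mul_eq_div, div_lt_iff₀ hlog] at h1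
    linarith

end Pool.Agent.Lib.MP_b6048d_co.F
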