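import Pool.Agent.Lib.MP_b6048d_co.F.SpecG

set_option autoImplicit false

/-!
Section G of the full solution of MP_b6048d_co: G05, subgraphs of balls without short odd cycles.
-/

open scoped Classical

namespace Pool.Agent.Lib.MP_b6048d_co.F.SubColAux

/-- The numerical part. -/
lemma numbers {A T Δ r a ρ : ℕ} (h2 : a ≤ 4 * ρ) (h3 : 32 * Δ ≤ a)
    (hr : r ≤ (2 * Δ * a) ^ T) : r ^ A ≤ ρ ^ (2 * T * A) := by
  have h4 : 8 * Δ ≤ ρ := by omega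
  have h5 : 2 * Δ * a ≤ ρ ^ 2 := by
    calc 2 * Δ * a ≤ 2 * Δ * (4 * ρ) := Nat.mul_le_mul_left _ h2
      _ = 8 * Δ * ρ := by ring
      _ ≤ ρ * ρ := Nat.mul_le_mul_right _ h4
      _ = ρ ^ 2 := (sq ρ).symm
  calc r ^ A ≤ ((2 * Δ * a) ^ T) ^ A := Nat.pow_le_pow_left hr A
    _ ≤ ((ρ ^ 2) ^ T) ^ A := Nat.pow_le_pow_left (Nat.pow_le_pow_left h5 T) A
    _ = ρ ^ (2 * T * A) := by rw [← pow_mul, ← pow_mul, mul_assoc]

end Pool.Agent.Lib.MP_b6048d_co.F.SubColAux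

namespace Pool.Agent.Lib.MP_b6048d_co.F

open Pool.Agent.Lib.MP_b6048d_co

theorem subCol (h : MainSub) : SubCol := by
  intro A R T Δ hA hT hΔ
  obtain ⟨P, hP⟩ : ∃ P : ℕ, P = 1000 * (16000 + (5 * (2 * T * A) + 3)) ^ 4 := ⟨_, rfl⟩
  obtain ⟨a₁, ha₁⟩ : ∃ a₁ : ℕ, a₁ = 32 * Δ + 4 * P + 8 := ⟨_, rfl⟩
  refine ⟨(2 * Δ * a₁) ^ T + R + 1, ?_⟩
  intro V G r a hmiss hr₀ hr v₀ F hFG hball hodd
  have haa : a₁ < a := by
    by_contra hcon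
    push Not at hcon
    have h1 : (2 * Δ * a) ^ T ≤ (2 * Δ * a₁) ^ T :=
      Nat.pow_le_pow_left (Nat.mul_le_mul_left _ hcon) T
    omega
  obtain ⟨ρ, hρ⟩ : ∃ ρ : ℕ, ρ = (a - 1) / 2 := ⟨_, rfl⟩
  have h1 : 2 * ρ + 1 ≤ a := by omega
  have h2 : a ≤ 4 * ρ := by omega
  have h3 : P ≤ ρ := by omega
  have hloc : Loc F ρ 2 := loc_two fun D hD hDodd => lt_of_le_of_lt h1 (hodd D hD hDodd)
  by_contra hcol
  have hcol' : ¬ F.Colorable (4 * ((25 * (2 * T * A) ^ 2 + 30 * (2 * T * A) + 2) * 2)) := by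
    have e : 4 * ((25 * (2 * T * A) ^ 2 + 30 * (2 * T * A) + 2) * 2) =
        8 * (25 * (2 * T * A) ^ 2 + 30 * (2 * T * A) + 2) := by ring
    rw [e]
    exact hcol
  obtain ⟨ℓ, hℓ1, hℓ2, hℓ3⟩ := hmiss r (by omega)
  obtain ⟨D, hD, hDl⟩ := h V G F v₀ r ρ 2 (2 * T * A) hFG (by rw [← hP]; exact h3) (by norm_num)
    hball hloc hcol' ℓ hℓ1 (hℓ2.trans (SubColAux.numbers h2 (by omega) hr))
  exact hℓ3 D hD hDl

end Pool.Agent.Lib.MP_b6048d_co.F
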