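import Pool.Agent.Lib.MP_b6048d_co.F.AsmF
import Pool.Agent.Lib.MP_b6048d_co.F.LogMiss
import Pool.Agent.Lib.MP_b6048d_co.F.SubCol
import Pool.Agent.Lib.MP_b6048d_co.F.Cover
import Pool.Agent.Lib.MP_b6048d_co.F.ExtSmall
import Pool.Agent.Lib.MP_b6048d_co.F.ExtAll
import Pool.Agent.Lib.MP_b6048d_co.F.Final

set_option autoImplicit false

/-!
Assembly of section G, given the colouring theorem of section E.
-/

open scoped Classical

namespace Pool.Agent.Lib.MP_b6048d_co.F

theorem final_of_color (hCol : ColorThm) : Final :=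
  final covThm' covMono gapLemma' gapToGapP blocksExist' hCol growthThm' logMiss cover extSmall
    extAll (subCol mainSub)

end Pool.Agent.Lib.MP_b6048d_co.F
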