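import Pool.Agent.Lib.MP_b6048d_co.F.SpecA

set_option autoImplicit false

/-!
A12: the closure of a small set.
-/

open scoped Classical

namespace Pool.Agent.Lib.MP_b6048d_co.F

namespace ClosureAux

lemma log_gt_one {X : ℕ} (hX : 4 ≤ X) : 1 < Real.log ((X : ℝ) + 3) := by
  have h1 : Real.exp 1 < (X : ℝ) + 3 := by
    have h2 := Real.exp_one_lt_d9
    have h3 : (4 : ℝ) ≤ X := by exact_mod_cast hX
    linarith
  rw [Real.lt_log_iff_exp_lt (by positivity)]
  exact h1

lemma nbr_sub {V : Type} {Γ : SimpleGraph V} {H R B : Finset V} :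
    B ∪ nbr Γ H B ∪ R ⊆ R ∪ B ∪ nbr Γ (H \ R) B := by
  intro x hx
  rw [Finset.mem_union, Finset.mem_union] at hx
  rw [Finset.mem_union, Finset.mem_union]
  rcases hx with (hx | hx) | hx
  · exact Or.inl (Or.inr hx)
  · by_cases hxR : x ∈ R
    · exact Or.inl (Or.inl hxR)
    · right
      rw [mem_nbr] at hx ⊢
      exact ⟨Finset.mem_sdiff.2 ⟨hx.1, hxR⟩, hx.2⟩
  · exact Or.inl (Or.inl hx)

end ClosureAux

theorem closure (hT : TauFacts) (hM : MinBasics) : Closure := by
  intro V Γ D H hD hH R X hRH hX hXn hRX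
  have hD0 : 0 < D := by linarith
  obtain ⟨t1, t2, -, t4⟩ := hT D hD0
  obtain ⟨m1, m2, m3, m4⟩ := hM.1 V Γ D H hD hH
  set Λ := Real.log ((X : ℝ) + 3) with hΛ
  have hΛ1 : 1 < Λ := ClosureAux.log_gt_one hX
  have hΛ0 : 0 < Λ := by linarith
  have hXH : X < H.card := by
    have h1 : (X + 3) * 7 ≤ (X + 3) * (X + 3) := Nat.mul_le_mul_left _ (by omega)
    have h2 : (X + 3) ^ 2 = (X + 3) * (X + 3) := by ring
    omega
  set T := (tau D X + tau D H.card) / 2 with hTdef
  have hgap := t4 X H.card hXn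
  have e0 : D / (2 * Λ) = 2 * (D / (4 * Λ)) := by
    field_simp
    ring
  rw [← hΛ, e0] at hgap
  have g1 : D / (4 * Λ) ≤ T - tau D X := by rw [hTdef]; linarith
  have g2 : D / (4 * Λ) ≤ tau D H.card - T := by rw [hTdef]; linarith
  have T2 : T ≤ 2 * D := by
    rw [hTdef]
    have := (t1 X).2
    have := (t1 H.card).2
    linarith
  have T0 : 0 ≤ T := by
    rw [hTdef]
    have := (t1 X).1
    have := (t1 H.card).1
    linarith
  -- from `D / (4 Λ) * a ≤ 2 D b` to `a ≤ 8 Λ b`
  have conv : ∀ a b : ℝ, D / (4 * Λ) * a ≤ 2 * D * b → a ≤ 8 * Λ * b := by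
    intro a b hab
    have h1 : D / (4 * Λ) * a = D * a / (4 * Λ) := by ring
    rw [h1, div_le_iff₀ (by positivity)] at hab
    have h2 : D * a ≤ D * (8 * Λ * b) := by
      calc D * a ≤ 2 * D * b * (4 * Λ) := hab
        _ = D * (8 * Λ * b) := by ring
    exact le_of_mul_le_mul_left h2 hD0
  have hRcard : R.card ≤ X := by
    have h1 : (R.card : ℝ) ≤ X := by
      have h2 : (0 : ℝ) ≤ R.card := by positivity
      nlinarith
    exact_mod_cast h1
  obtain ⟨R', hR', hmax⟩ := Finset.exists_max_image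
    (H.powerset.filter (fun A => R ⊆ A ∧ A.card ≤ X)) (fun A => ed Γ A - T * A.card)
    ⟨R, by rw [Finset.mem_filter, Finset.mem_powerset]; exact ⟨hRH, Finset.Subset.refl _, hRcard⟩⟩
  rw [Finset.mem_filter, Finset.mem_powerset] at hR'
  obtain ⟨hR'H, hRR', hR'X⟩ := hR'
  have hmax' : ∀ A : Finset V, A ⊆ H → R ⊆ A → A.card ≤ X →
      ed Γ A - T * A.card ≤ ed Γ R' - T * R'.card := by
    intro A h1 h2 h3
    exact hmax A (by rw [Finset.mem_filter, Finset.mem_powerset]; exact ⟨h1, h2, h3⟩)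
  -- the size of `R'`
  have hsize : (R'.card : ℝ) ≤ 8 * Λ * R.card := by
    apply conv
    have h1 := hmax' R hRH (Finset.Subset.refl _) hRcard
    have h2 : 0 ≤ ed Γ R := ed_nonneg
    have h3 := (m4 R' (lt_of_le_of_lt hR'X hXH)).1
    have h4 := t2 R'.card X hR'X
    have h5 : (0 : ℝ) ≤ R'.card := by positivity
    have h6 : tau D R'.card * R'.card ≤ tau D X * R'.card := mul_le_mul_of_nonneg_right h4 h5
    have h7 : D / (4 * Λ) * R'.card ≤ (T - tau D X) * R'.card := mul_le_mul_of_nonneg_right g1 h5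
    have h8 : T * (R.card : ℝ) ≤ 2 * D * R.card :=
      mul_le_mul_of_nonneg_right T2 (by positivity)
    have h9 : (T - tau D X) * (R'.card : ℝ) = T * R'.card - tau D X * R'.card := by ring
    linarith
  have hquarter : 4 * (R'.card : ℝ) ≤ X := by linarith
  refine ⟨R', hRR', hR'H, hsize, ?_, ?_⟩
  · -- expansion
    intro B hB hBne hBX
    by_contra hcon
    push Not at hcon
    have hBX' : 4 * (B.card : ℝ) ≤ X := by exact_mod_cast hBX
    have hN0 : (0 : ℝ) ≤ (nbr Γ (H \ R') B).card := by positivity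
    have hN : 8 * ((nbr Γ (H \ R') B).card : ℝ) ≤ B.card := by nlinarith
    have hBH : B ⊆ H := hB.trans Finset.sdiff_subset
    have hdisj : Disjoint B R' := by
      rw [Finset.disjoint_left]
      intro x hx hx'
      exact (Finset.mem_sdiff.1 (hB hx)).2 hx'
    have hMcard : ((R' ∪ B ∪ nbr Γ (H \ R') B).card : ℝ) ≤
        R'.card + B.card + (nbr Γ (H \ R') B).card := by
      have h1 := Finset.card_union_le (R' ∪ B) (nbr Γ (H \ R') B)
      have h2 := Finset.card_union_le R' B
      exact_mod_cast h1.trans (Nat.add_le_add_right h2 _)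
    have hMX : (R' ∪ B ∪ nbr Γ (H \ R') B).card ≤ X := by
      have h1 : ((R' ∪ B ∪ nbr Γ (H \ R') B).card : ℝ) ≤ X := by
        have h2 : (0 : ℝ) ≤ B.card := by positivity
        linarith
      exact_mod_cast h1
    have hMH : R' ∪ B ∪ nbr Γ (H \ R') B ⊆ H := by
      apply Finset.union_subset (Finset.union_subset hR'H hBH)
      exact nbr_subset.trans Finset.sdiff_subset
    have h1 := hmax' _ hMH (hRR'.trans (Finset.subset_union_left.trans Finset.subset_union_left))
      hMX
    have h2 := ed_touch (Γ := Γ) hBH hdisj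
    have h3 := ed_mono (Γ := Γ) (ClosureAux.nbr_sub (Γ := Γ) (H := H) (R := R') (B := B))
    have h4 := m3 B hBH
    have h5 : T * ((R' ∪ B ∪ nbr Γ (H \ R') B).card : ℝ) ≤
        T * (R'.card + B.card + (nbr Γ (H \ R') B).card) := mul_le_mul_of_nonneg_left hMcard T0
    have h6 : (tau D H.card - T) * (B.card : ℝ) ≤ T * (nbr Γ (H \ R') B).card := by
      have h7 : T * ((R'.card : ℝ) + B.card + (nbr Γ (H \ R') B).card) =
        T * R'.card + T * B.card + T * (nbr Γ (H \ R') B).card := by ring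
      have h8 : (tau D H.card - T) * (B.card : ℝ) = tau D H.card * B.card - T * B.card := by ring
      linarith
    have h9 : D / (4 * Λ) * (B.card : ℝ) ≤ (tau D H.card - T) * B.card :=
      mul_le_mul_of_nonneg_right g2 (by positivity)
    have h10 : T * ((nbr Γ (H \ R') B).card : ℝ) ≤ 2 * D * (nbr Γ (H \ R') B).card :=
      mul_le_mul_of_nonneg_right T2 hN0
    have h11 := conv _ _ (h9.trans (h6.trans h10))
    linarith
  · -- degrees
    intro v hv
    rw [Finset.mem_sdiff] at hv
    have hc : (insert v R').card ≤ X := by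
      rw [Finset.card_insert_of_notMem hv.2]
      have h1 : 4 * R'.card ≤ X := by exact_mod_cast hquarter
      omega
    have h1 := hmax' (insert v R') (Finset.insert_subset hv.1 hR'H)
      (hRR'.trans (Finset.subset_insert _ _)) hc
    rw [ed_insert hv.2, Finset.card_insert_of_notMem hv.2] at h1
    have h2 : dg Γ H v = dg Γ (H \ R') v + dg Γ R' v := dg_sdiff hR'H
    have h3 := (m2 v hv.1).1
    have h4 : (dg Γ H v : ℝ) = dg Γ (H \ R') v + dg Γ R' v := by exact_mod_cast h2
    push_cast at h1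
    linarith

end Pool.Agent.Lib.MP_b6048d_co.F
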