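import Pool.Agent.Lib.MP_b6048d_co.F.SpecE2

set_option autoImplicit false

/-!
Section E of the full solution of MP_b6048d_co: assembly of the colouring theorem.
-/

open scoped Classical

namespace Pool.Agent.Lib.MP_b6048d_co.F

theorem colorThm (hS : StageThm) (hC : CellThm) : ColorThm := by
  intro V G XX a g K K₁ r hB ha hg hr hK hext hcol hnext
  obtain ⟨S, W, hS2, hst⟩ := hS V G XX a g K K₁ r hB ha hg hr hK hext hcol hnext
  exact hC V G XX a g W S hB (by omega) hS2 hst

end Pool.Agent.Lib.MP_b6048d_co.F
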