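import Pool.Agent.Lib.MP_b6048d_co.F.SpecC

set_option autoImplicit false

open scoped Classical

namespace Pool.Agent.Lib.MP_b6048d_co.F.CovMonoAux

open Pool.Agent.Lib.MP_b6048d_co.F

variable {V : Type*}

lemma thin_mono {Γ : SimpleGraph V} {κ κ' : ℕ} {H W : Finset V} {u : V} (hκ : κ' ≤ κ)
    (h : Thin Γ κ' H W u) : Thin Γ κ H W u := fun i =>
  (h i).trans (Nat.mul_le_mul_right _ hκ)

lemma blob_mono {Γ : SimpleGraph V} {col : V → Bool} {H : Finset V} {κ κ' C C' lam : ℕ}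
    (hlam : 1 ≤ lam) (hκ : κ' ≤ κ) (hC : C' ≤ C) (h : Blob κ C lam Γ col H) :
    Blob κ' C' lam Γ col H :=
  ⟨h.bip, fun W u hu v hv huW hvW huv htu htv ℓ hℓ hℓ' hpar =>
    h.paths W u hu v hv huW hvW huv (thin_mono hκ htu) (thin_mono hκ htv) ℓ hℓ
      (hℓ'.trans (Nat.pow_le_pow_right hlam hC)) hpar⟩

end Pool.Agent.Lib.MP_b6048d_co.F.CovMonoAux

namespace Pool.Agent.Lib.MP_b6048d_co.F

open CovMonoAux

/-- C00 -/
theorem covMono : CovMono := by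
  refine ⟨fun V Γ col H κ κ' C C' lam hlam hκ hC h => blob_mono hlam hκ hC h, ?_⟩
  intro V G κ κ' C C' lam₀ lam₀' hlam hκ hC hl hcov u v huv
  obtain ⟨Γ, col, H, lam, h1, h2, h3, h4, h5, h6⟩ := hcov u v huv
  exact ⟨Γ, col, H, lam, h1, h2, h3, h4, hl.trans h5, blob_mono (hlam.trans h5) hκ hC h6⟩

end Pool.Agent.Lib.MP_b6048d_co.F
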