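import Mathlib
import Pool.Agent.Lib.MP_b6048d_co.Sep
import Pool.Agent.Lib.MP_b6048d_co.Balls
import Pool.Agent.Lib.MP_b6048d_co.Exch

set_option autoImplicit false

/-!
Definitions for the full solution of MP_b6048d_co (upper logarithmic density of cycle lengths).
Everything is classical: `open scoped Classical`, and no `DecidableEq V` variables.
Walks and paths are lists of vertices; a list with `ℓ + 1` entries has `ℓ` edges.
-/

open scoped Classical

namespace Pool.Agent.Lib.MP_b6048d_co.F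

variable {V : Type*}

/-- The list `l` is a walk of `G` from `u` to `v` with all vertices in `S`. -/
structure Wk (G : SimpleGraph V) (S : Set V) (u v : V) (l : List V) : Prop where
  chain : l.IsChain G.Adj
  head : l.head? = some u
  last : l.getLast? = some v
  mem : ∀ x ∈ l, x ∈ S

/-- The list `l` is a path of `G` from `u` to `v` with all vertices in `S`. -/
structure Pth (G : SimpleGraph V) (S : Set V) (u v : V) (l : List V) : Prop
    extends Wk G S u v l where
  nodup : l.Nodup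

/-- Outer neighbours of `A` inside `H`. -/
noncomputable def nbr (Γ : SimpleGraph V) (H A : Finset V) : Finset V :=
  (H \ A).filter (fun w => ∃ a ∈ A, Γ.Adj a w)

/-- The set of vertices reachable from `A` by at most `i` steps inside `S`. -/
noncomputable def bl (Γ : SimpleGraph V) (S A : Finset V) : ℕ → Finset V
  | 0 => A ∩ S
  | i + 1 => bl Γ S A i ∪ nbr Γ S (bl Γ S A i)

/-- The number of neighbours of `v` in `A`. -/
noncomputable def dg (Γ : SimpleGraph V) (A : Finset V) (v : V) : ℕ :=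
  (A.filter (fun w => Γ.Adj v w)).card

/-- The number of edges inside `A`, as a real number. -/
noncomputable def ed (Γ : SimpleGraph V) (A : Finset V) : ℝ :=
  (∑ v ∈ A, (dg Γ A v : ℝ)) / 2

/-- `H` is a smallest set of vertices with at least `τ |H| * |H|` edges. -/
structure MinD (Γ : SimpleGraph V) (τ : ℕ → ℝ) (H : Finset V) : Prop where
  ne : H.Nonempty
  dens : τ H.card * H.card ≤ ed Γ H
  min : ∀ A : Finset V, A.Nonempty → A.card < H.card → ed Γ A < τ A.card * A.card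

/-- Every element of the finite set `B` can be joined to `x` inside `B` by at most `i` steps. -/
structure ConS (Γ : SimpleGraph V) (x : V) (i : ℕ) (B : Finset V) : Prop where
  mem : x ∈ B
  con : ∀ y ∈ B, ∃ l, Wk Γ (B : Set V) x y l ∧ l.length ≤ i + 1

/-- `W` is thin at `u`: few vertices of `W` are adjacent to balls around `u` avoiding `W`. -/
def Thin (Γ : SimpleGraph V) (κ : ℕ) (H W : Finset V) (u : V) : Prop :=
  ∀ i : ℕ, ((W ∩ H).filter (fun w => ∃ x ∈ bl Γ (H \ W) {u} i, Γ.Adj x w)).card ≤ κ * (i + 1) ^ 3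

/-- A blob: a finite vertex set `H` of a graph `Γ`, properly 2-coloured by `col` on `H`, in which
any two vertices are joined by paths of all lengths of the right parity between `lam` and
`lam ^ C`, even after removing any set `W` which is thin at both of them; moreover all the
vertices of these paths are within distance `lam` of the first vertex. -/
structure Blob (κ C lam : ℕ) (Γ : SimpleGraph V) (col : V → Bool) (H : Finset V) : Prop where
  bip : ∀ u ∈ H, ∀ v ∈ H, Γ.Adj u v → col u ≠ col v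
  paths : ∀ W : Finset V, ∀ u ∈ H, ∀ v ∈ H, u ∉ W → v ∉ W → u ≠ v → Thin Γ κ H W u →
    Thin Γ κ H W v → ∀ ℓ : ℕ, lam ≤ ℓ → ℓ ≤ lam ^ C → (Even ℓ ↔ col u = col v) →
    ∃ l, Pth Γ ((H \ W : Finset V) : Set V) u v l ∧ l.length = ℓ + 1 ∧
      ∀ x ∈ l, x ∈ bl Γ (H \ W) {u} lam

/-- Every edge of `G` lies in a blob of a subgraph of `G`, with parameter at least `lam0`. -/
def Cov (G : SimpleGraph V) (κ C lam0 : ℕ) : Prop :=
  ∀ u v, G.Adj u v → ∃ (Γ : SimpleGraph V) (col : V → Bool) (H : Finset V) (lam : ℕ),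
    Γ ≤ G ∧ u ∈ H ∧ v ∈ H ∧ Γ.Adj u v ∧ lam0 ≤ lam ∧ Blob κ C lam Γ col H

/-- The density function of the blob theorem. -/
noncomputable def tau (D : ℝ) (x : ℕ) : ℝ := D * (2 - 1 / Real.log ((x : ℝ) + 3))

/-- A logarithmic size parameter: `log (|H| + 3) ≤ Lg H`. -/
def Lg (H : Finset V) : ℕ := Nat.log 2 H.card + 4

/-- A connected finite set of vertices. -/
def Cn (Γ : SimpleGraph V) (B : Finset V) : Prop :=
  ∀ x ∈ B, ∀ y ∈ B, ∃ l, Wk Γ (B : Set V) x y l

/-- `B` contains `A`, and every element of `B` is joined to `A` inside `B` by at most `i` steps. -/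
structure Hat (Γ : SimpleGraph V) (A : Finset V) (i : ℕ) (B : Finset V) : Prop where
  sub : A ⊆ B
  con : ∀ y ∈ B, ∃ a ∈ A, ∃ l, Wk Γ (B : Set V) a y l ∧ l.length ≤ i + 1

/-- From `s` one can grow, inside `S` and avoiding `D \ {s}` and any given vertex `c ≠ s`, a set of
size at least `Y` and radius at most `r`. -/
def Port (Γ : SimpleGraph V) (S D : Finset V) (Y r : ℕ) (s : V) : Prop :=
  ∀ c, c ≠ s → ∃ B : Finset V, B ⊆ S ∧ Y ≤ B.card ∧ ConS Γ s r B ∧ c ∉ B ∧ ∀ y ∈ B, y ∈ D → y = s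

/-- A switch: two paths between `p` and `q` inside `D` whose lengths are `j` and `j + 2`. -/
structure Device (Γ : SimpleGraph V) (S : Finset V) (p q : V) (D : Finset V) (j : ℕ) : Prop where
  ne : p ≠ q
  sub : D ⊆ S
  memp : p ∈ D
  memq : q ∈ D
  short : ∃ l, Pth Γ (D : Set V) p q l ∧ l.length = j + 1
  long : ∃ l, Pth Γ (D : Set V) p q l ∧ l.length = j + 3

/-- Two disjoint short paths joining `p` and `q`, in one of the two possible ways, to the disjoint
sets `A₁` and `A₂`. -/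
def LinkC (Γ : SimpleGraph V) (S : Finset V) (p q : V) (A₁ A₂ : Finset V) (m : ℕ) : Prop :=
  ∃ s s' y₁ y₂ : V, ∃ l₁ l₂ : List V, ((s = p ∧ s' = q) ∨ (s = q ∧ s' = p)) ∧
    y₁ ∈ A₁ ∧ y₂ ∈ A₂ ∧ Pth Γ (S : Set V) s y₁ l₁ ∧ Pth Γ (S : Set V) s' y₂ l₂ ∧
    List.Disjoint l₁ l₂ ∧ (∀ z ∈ l₁, z ∈ A₁ ∨ z ∈ A₂ → z = y₁) ∧
    (∀ z ∈ l₂, z ∈ A₁ ∨ z ∈ A₂ → z = y₂) ∧ l₁.length ≤ m ∧ l₂.length ≤ m

/-- A state of the chain construction in `H \ W`: `k` switches have been used in `P`, the moving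
hub is `A` (meeting `P` in `z`), the fixed hub is `A'` (meeting `P'` in `z'`). -/
structure St (Γ : SimpleGraph V) (H W : Finset V) (x x' : V) (c₁ k : ℕ)
    (P P' A A' : Finset V) (z z' : V) (c : ℕ) : Prop where
  subP : P ⊆ H \ W
  subP' : P' ⊆ H \ W
  subA : A ⊆ H \ W
  subA' : A' ⊆ H \ W
  zP : z ∈ P
  zA : z ∈ A
  zP' : z' ∈ P'
  zA' : z' ∈ A'
  PA : ∀ y ∈ P, y ∈ A → y = z
  PA' : ∀ y ∈ P', y ∈ A' → y = z'
  dPP : Disjoint P P'
  dPA' : Disjoint P A'
  dAP' : Disjoint A P'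
  dAA' : Disjoint A A'
  cardA : A.card = Lg H ^ (c₁ + 8)
  cardA' : A'.card = Lg H ^ (c₁ + 4)
  conA : ConS Γ z (2 * Lg H) A
  conA' : ConS Γ z' (2 * Lg H) A'
  paths : ∀ j ≤ k, ∃ l, Pth Γ (P : Set V) x z l ∧ l.length = c + 2 * j + 1
  path' : ∃ l, Pth Γ (P' : Set V) x' z' l
  locP : ∀ y ∈ P, y ∈ bl Γ (H \ W) {x} (Lg H ^ 11)
  locP' : ∀ y ∈ P', y ∈ bl Γ (H \ W) {x} (Lg H ^ 11)

end Pool.Agent.Lib.MP_b6048d_co.F
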