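import Pool.Agent.Lib.MP_b6048d_co.F.SpecA

set_option autoImplicit false

/-!
# A23: a switch with growing ports outside a given set.
-/

open scoped Classical

namespace Pool.Agent.Lib.MP_b6048d_co.F

namespace DeviceLemmaAux

variable {V : Type} {Γ : SimpleGraph V}

/-- A ball around a ball is contained in a ball. -/
lemma bl_bl {S : Finset V} {z : V} {a k : ℕ} :
    bl Γ S (bl Γ S {z} a) k ⊆ bl Γ S {z} (a + k) := by
  intro x hx
  obtain ⟨y, hy, l, hl, hlen⟩ := mem_bl.1 hx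
  exact bl_trans hy (mem_bl_single.2 ⟨l, hl, hlen⟩)

/-- A port from a thin switch and a good vertex. -/
lemma port_of {κ c L : ℕ} {S D' : Finset V} {s : V}
    (hgrow : ∀ (T : Finset V), s ∉ T →
      (∀ i : ℕ, ((T ∩ S).filter (fun w => ∃ x ∈ bl Γ (S \ T) {s} i, Γ.Adj x w)).card ≤
        κ * (i + 1) ^ 3) → L ^ c ≤ (bl Γ (S \ T) {s} L).card)
    (hs : s ∈ S)
    (hthin : ∀ T : Finset V, (∃ c, T ⊆ insert c (D' \ {s})) → s ∉ T →
      D' \ {s} ⊆ T → ∀ k : ℕ,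
      ((T ∩ S).filter (fun y => ∃ x ∈ bl Γ (S \ T) {s} k, Γ.Adj x y)).card ≤ κ * (k + 1) ^ 3) :
    Port Γ S D' (L ^ c) L s := by
  intro d hd
  have hsT : s ∉ insert d (D' \ {s}) := by
    rw [Finset.mem_insert, Finset.mem_sdiff, Finset.mem_singleton]
    rintro (h | h)
    · exact hd h.symm
    · exact h.2 rfl
  have h1 := hgrow (insert d (D' \ {s})) hsT
    (hthin _ ⟨d, Finset.Subset.refl _⟩ hsT (Finset.subset_insert _ _))
  have hsub : bl Γ (S \ insert d (D' \ {s})) {s} L ⊆ S \ insert d (D' \ {s}) := bl_subset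
  refine ⟨bl Γ (S \ insert d (D' \ {s})) {s} L, hsub.trans Finset.sdiff_subset, h1,
    conS_bl (Finset.mem_sdiff.2 ⟨hs, hsT⟩), ?_, ?_⟩
  · intro hdB
    exact (Finset.mem_sdiff.1 (hsub hdB)).2 (Finset.mem_insert_self _ _)
  · intro y hy hyD
    by_contra hne
    exact (Finset.mem_sdiff.1 (hsub hy)).2 (Finset.mem_insert_of_mem
      (Finset.mem_sdiff.2 ⟨hyD, by simpa using hne⟩))

lemma Port.monoS {S S' D' : Finset V} {Y r : ℕ} {s : V} (h : Port Γ S D' Y r s) (hS : S ⊆ S') :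
    Port Γ S' D' Y r s := by
  intro c hc
  obtain ⟨B, h1, h2⟩ := h c hc
  exact ⟨B, h1.trans hS, h2⟩

end DeviceLemmaAux

open DeviceLemmaAux

theorem deviceLemma (hM : MinBasics) (hG : GoodLemma) (hGG : GoodGrow) (hS : Spread)
    (hLC : LevelCount) (hGD : GeoDevice) : DeviceLemma := by
  intro c₁
  obtain ⟨A₀, L₀, hgrow⟩ := hGG 6 (c₁ + 20)
  obtain ⟨D₁, hD₁, hgood⟩ := hG (c₁ + 26) (max A₀ 100) c₁ (by omega)
  obtain ⟨L₁, hL₁⟩ := poly_Lg_le 528 (c₁ + 4)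
  obtain ⟨D₂, hD₂, hlarge⟩ := hM.2 (max (max L₀ L₁) 5)
  refine ⟨max D₁ (⌈D₂⌉₊ + 1), by omega, ?_⟩
  intro V Γ col D H hD hMin hbip R hRH hRc
  have hDD₁ : D₁ ≤ D := (le_max_left _ _).trans hD
  have hDD₂ : D₂ ≤ (D : ℝ) := by
    have h1 : ⌈D₂⌉₊ + 1 ≤ D := (le_max_right _ _).trans hD
    have h2 : ((⌈D₂⌉₊ : ℕ) : ℝ) + 1 ≤ D := by exact_mod_cast h1
    have h3 := Nat.le_ceil D₂
    linarith
  have hD1 : (1 : ℝ) ≤ D := hD₂.trans hDD₂
  obtain ⟨hLL, -⟩ := hlarge V Γ D H hDD₂ hMin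
  have hLL₀ : L₀ ≤ Lg H := by omega
  have hLL₁ : L₁ ≤ Lg H := by omega
  have hL5 : 5 ≤ Lg H := by omega
  have hpoly := hL₁ H hMin.ne hLL₁
  obtain ⟨hm1, hm2, hm3, hm4⟩ := hM.1 V Γ D H hD1 hMin
  obtain ⟨R', Bad, c₀, hRR', hR'H, hR'c, hc₀, hDc₀, hBadS, hBadsum, hedS, hgd⟩ :=
    hgood V Γ D H hDD₁ hMin R hRH hRc
  set S := H \ R' with hSdef
  set L := Lg H with hLdef
  have hSH : S ⊆ H := Finset.sdiff_subset
  have hc100 : (100 : ℝ) ≤ c₀ := by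
    have : (100 : ℝ) ≤ ((max A₀ 100 : ℕ) : ℝ) := by exact_mod_cast le_max_right _ _
    linarith
  have hcA₀ : (A₀ : ℝ) ≤ c₀ := by
    have : (A₀ : ℝ) ≤ ((max A₀ 100 : ℕ) : ℝ) := by exact_mod_cast le_max_left _ _
    linarith
  have hn : (0 : ℝ) < H.card := by exact_mod_cast Finset.card_pos.2 hMin.ne
  -- growth of good vertices
  have hgr : ∀ s ∈ S, s ∉ Bad → ∀ (T : Finset V), s ∉ T →
      (∀ i : ℕ, ((T ∩ S).filter (fun w => ∃ x ∈ bl Γ (S \ T) {s} i, Γ.Adj x w)).card ≤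
        6 * (i + 1) ^ 3) → L ^ (c₁ + 20) ≤ (bl Γ (S \ T) {s} L).card := by
    intro s hs hsB T hsT hthin
    obtain ⟨h1, h2⟩ := hgd s hs hsB
    exact hgrow V Γ S T s c₀ L hLL₀ hcA₀ hs hsT h1 h2 hthin
  -- a good vertex
  obtain ⟨z₀, hz₀S, hz₀B⟩ : ∃ z ∈ S, z ∉ Bad := by
    by_contra hcon
    push Not at hcon
    have h1 : ∑ v ∈ S, (dg Γ S v : ℝ) ≤ ∑ v ∈ Bad, (dg Γ S v : ℝ) :=
      Finset.sum_le_sum_of_subset_of_nonneg (fun v hv => hcon v hv) fun _ _ _ => by positivity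
    have h2 : 2 * ed Γ S = ∑ v ∈ S, (dg Γ S v : ℝ) := by unfold ed; ring
    have h3 : 100 * (H.card : ℝ) ≤ c₀ * H.card := mul_le_mul_of_nonneg_right hc100 hn.le
    linarith
  -- its ball is large
  have hball := hgr z₀ hz₀S hz₀B ∅ (by simp) (by
    intro i
    have : ((∅ : Finset V) ∩ S) = ∅ := by simp
    rw [this]; simp)
  rw [Finset.sdiff_empty] at hball
  have hL1 : 1 ≤ L := by omega
  have hpow1 : 40 * L ^ 2 * R'.card ≤ (bl Γ S {z₀} L).card := by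
    refine le_trans ?_ hball
    calc 40 * L ^ 2 * R'.card ≤ 40 * L ^ 2 * L ^ (c₁ + 1) := Nat.mul_le_mul_left _ hR'c
      _ ≤ L ^ 17 * L ^ 2 * L ^ (c₁ + 1) := by
          have : 40 ≤ L ^ 17 := by
            have h0 := Nat.pow_le_pow_left hL5 17
            norm_num at h0
            omega
          exact Nat.mul_le_mul_right _ (Nat.mul_le_mul_right _ this)
      _ = L ^ (c₁ + 20) := by ring
  have hAsub : bl Γ S {z₀} L ⊆ H \ R' := bl_subset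
  have hspread := hS V Γ D H hD1 hMin R' (bl Γ S {z₀} L) R'.card hAsub
    ⟨z₀, self_mem_bl hz₀S⟩ hpow1 (by
      intro i _
      exact (Finset.card_le_card (Finset.filter_subset _ _)).trans
        (Finset.card_le_card Finset.inter_subset_left))
  rw [← hSdef, ← hLdef] at hspread
  -- the radius
  set r₀ := L + 36 * L ^ 3 with hr₀
  have hUsub : H \ bl Γ S {z₀} r₀ ⊆ H \ bl Γ S (bl Γ S {z₀} L) (36 * L ^ 3) :=
    Finset.sdiff_subset_sdiff (Finset.Subset.refl _) bl_bl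
  have hU : (H \ bl Γ S {z₀} r₀).card ≤ 22 * L ^ (c₁ + 3) := by
    calc (H \ bl Γ S {z₀} r₀).card ≤ _ := Finset.card_le_card hUsub
      _ ≤ 22 * L ^ 2 * R'.card := hspread
      _ ≤ 22 * L ^ 2 * L ^ (c₁ + 1) := Nat.mul_le_mul_left _ hR'c
      _ = 22 * L ^ (c₁ + 3) := by ring
  have hUlt : (H \ bl Γ S {z₀} r₀).card < H.card := by
    have h1 : 22 * L ^ (c₁ + 3) < 528 * L ^ (c₁ + 4) := by
      have h2 : 1 ≤ L ^ (c₁ + 3) := Nat.one_le_pow _ _ hL1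
      have h3 : L ^ (c₁ + 3) ≤ L ^ (c₁ + 4) := Nat.pow_le_pow_right hL1 (by omega)
      omega
    omega
  have hedU : ed Γ (S \ bl Γ S {z₀} r₀) ≤ c₀ * H.card / 12 := by
    have h1 : ed Γ (S \ bl Γ S {z₀} r₀) ≤ ed Γ (H \ bl Γ S {z₀} r₀) :=
      ed_mono (Finset.sdiff_subset_sdiff hSH (Finset.Subset.refl _))
    have h2 := (hm4 _ hUlt).2
    have h3 : ((H \ bl Γ S {z₀} r₀).card : ℝ) ≤ 22 * (L : ℝ) ^ (c₁ + 3) := by exact_mod_cast hU
    have h4 : 528 * (L : ℝ) ^ (c₁ + 4) ≤ H.card := by exact_mod_cast hpoly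
    have h5 : (0 : ℝ) ≤ D := by linarith
    have hLpos : (0 : ℝ) < L := by exact_mod_cast hL1
    calc ed Γ (S \ bl Γ S {z₀} r₀) ≤ 2 * D * (H \ bl Γ S {z₀} r₀).card := h1.trans h2
      _ ≤ 2 * (c₀ * L) * (22 * (L : ℝ) ^ (c₁ + 3)) := by
          apply mul_le_mul (by linarith) h3 (Nat.cast_nonneg _)
          have : (0 : ℝ) < c₀ := by linarith
          positivity
      _ = c₀ * (44 * (L : ℝ) ^ (c₁ + 4)) := by ring
      _ ≤ c₀ * (H.card / 12) := by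
          apply mul_le_mul_of_nonneg_left _ (by linarith)
          linarith
      _ = c₀ * H.card / 12 := by ring
  have hcount : (S.card : ℝ) + ∑ v ∈ Bad, (dg Γ S v : ℝ) < ed Γ S - ed Γ (S \ bl Γ S {z₀} r₀) := by
    have h1 : (S.card : ℝ) ≤ H.card := by exact_mod_cast Finset.card_le_card hSH
    have h3 : 100 * (H.card : ℝ) ≤ c₀ * H.card := mul_le_mul_of_nonneg_right hc100 hn.le
    have h4 : c₀ * H.card ≤ 3 * ed Γ S := hedS
    linarith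
  obtain ⟨i, w, u₀, u₁, hi1, hir, hne, hu₀B, hu₁B, ha1, ha2, hb1, hb2, hwS, hwn, hadj0, hadj1⟩ :=
    hLC V Γ col S Bad z₀ r₀ hz₀S (fun u hu v hv => hbip u (hSH hu) v (hSH hv)) hcount
  obtain ⟨D', hdev, hcard, hthin⟩ := hGD V Γ S z₀ w u₀ u₁ i hz₀S hi1 hne ha1 ha2 hb1 hb2 hwS hwn
    hadj0 hadj1
  have hSR : S ⊆ H \ R := Finset.sdiff_subset_sdiff (Finset.Subset.refl _) hRR'
  have hu₀S : u₀ ∈ S := bl_subset ha1
  refine ⟨z₀, u₀, D', i, ⟨hdev.ne, hdev.sub.trans hSR, hdev.memp, hdev.memq, hdev.short,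
    hdev.long⟩, ?_, ?_, ?_⟩
  · have h1 : L ^ 6 = L ^ 3 * L ^ 3 := by ring
    have h2 : 125 ≤ L ^ 3 := by
      calc 125 = 5 ^ 3 := by norm_num
        _ ≤ L ^ 3 := Nat.pow_le_pow_left hL5 _
    have h3 : L ≤ L ^ 3 := Nat.le_self_pow (by norm_num) _
    have h4 : 125 * L ^ 3 ≤ L ^ 3 * L ^ 3 := Nat.mul_le_mul_right _ h2
    rw [h1]
    omega
  · exact Port.monoS (port_of (hgr z₀ hz₀S hz₀B) hz₀S (hthin z₀ (Or.inl rfl))) hSR
  · exact Port.monoS (port_of (hgr u₀ hu₀S hu₀B) hu₀S (hthin u₀ (Or.inr rfl))) hSR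

end Pool.Agent.Lib.MP_b6048d_co.F
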