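import Pool.Agent.Lib.MP_b6048d_co.F.SpecF

set_option autoImplicit false

/-!
F09: the diameter of a minimal dense set.
-/

open scoped Classical

namespace Pool.Agent.Lib.MP_b6048d_co.F

namespace DiamFAux

variable {V : Type}

/-- Numbers: growth by one and by the factor `1 + 1/K` at every step is impossible for long. -/
lemma numbers (b : ℕ → ℕ) (s n T : ℕ) (ell K : ℝ) (hs : 10 ≤ s) (hell : 1000 ≤ ell)
    (helldef : ell = Real.log ((n : ℝ) / s + 3)) (hK : K = 10 * s * ell ^ 2)
    (hT : 25 * (s : ℝ) * ell ^ 3 - 1 ≤ T) (hb0 : 1 ≤ b 0)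
    (hstep : ∀ i ≤ T, b i < b (i + 1) ∧ (b i : ℝ) ≤ K * ((b (i + 1) : ℝ) - b i))
    (hbn : b T ≤ n) : False := by
  have hsr : (10 : ℝ) ≤ s := by exact_mod_cast hs
  have hspos : (0 : ℝ) < s := by linarith
  have hellpos : (0 : ℝ) < ell := by linarith
  have hKpos : 0 < K := by rw [hK]; positivity
  have h2 : (1000 : ℝ) ^ 2 ≤ ell ^ 2 := by gcongr
  have h3 : ell ^ 3 = ell * ell ^ 2 := by ring
  have h3' : (1000 : ℝ) * 1000 ^ 2 ≤ ell ^ 3 := by
    rw [h3]; gcongr
  have hse : (s : ℝ) * (1000 * 1000 ^ 2) ≤ s * ell ^ 3 := by gcongr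
  have hse2 : 10 * ell ^ 3 ≤ s * ell ^ 3 := by gcongr
  have hle : ell ≤ ell ^ 3 := by nlinarith
  have hsT : s ≤ T := by
    have : (s : ℝ) ≤ T := by nlinarith
    exact_mod_cast this
  -- growth by one
  have ha : ∀ i ≤ T, i + 1 ≤ b i := by
    intro i
    induction i with
    | zero => intro _; simpa using hb0
    | succ i ih =>
      intro hi
      have h4 := ih (by omega)
      have h5 := (hstep i (by omega)).1
      omega
  -- growth by a factor
  have hg : ∀ j, s + j ≤ T → (s : ℝ) * (1 + 1 / K) ^ j ≤ b (s + j) := by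
    intro j
    induction j with
    | zero =>
      intro hj
      have h4 := ha s hsT
      have h5 : (s : ℝ) ≤ b s := by exact_mod_cast (by omega : s ≤ b s)
      simpa using h5
    | succ j ih =>
      intro hj
      have h4 := ih (by omega)
      have h5 := (hstep (s + j) (by omega)).2
      have h6 : (b (s + j) : ℝ) * (1 + 1 / K) ≤ b (s + j + 1) := by
        have h7 : (b (s + j) : ℝ) / K ≤ (b (s + j + 1) : ℝ) - b (s + j) := by
          rw [div_le_iff₀ hKpos]; linarith
        have h8 : (b (s + j) : ℝ) * (1 + 1 / K) = b (s + j) + b (s + j) / K := by ring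
        rw [h8]; linarith
      have h9 : (s : ℝ) * (1 + 1 / K) ^ (j + 1) = (s * (1 + 1 / K) ^ j) * (1 + 1 / K) := by ring
      rw [h9]
      calc (s * (1 + 1 / K) ^ j) * (1 + 1 / K) ≤ (b (s + j) : ℝ) * (1 + 1 / K) := by
            apply mul_le_mul_of_nonneg_right h4
            positivity
        _ ≤ _ := h6
  obtain ⟨j, hj⟩ : ∃ j, s + j = T := ⟨T - s, by omega⟩
  have h4 := hg j hj.le
  rw [hj] at h4
  -- the factor is at least exp ell
  have h5 : Real.exp (1 / (K + 1)) ≤ 1 + 1 / K := by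
    have h6 : (0 : ℝ) < 1 + 1 / K := by positivity
    rw [← Real.le_log_iff_exp_le h6]
    have h7 := Real.one_sub_inv_le_log_of_pos h6
    have h8 : 1 - (1 + 1 / K)⁻¹ = 1 / (K + 1) := by
      field_simp
      ring
    rw [h8] at h7
    exact h7
  have h6 : ell ≤ (j : ℝ) * (1 / (K + 1)) := by
    rw [mul_one_div, le_div_iff₀ (by linarith)]
    have h7 : (j : ℝ) = T - s := by
      rw [← hj]; push_cast; ring
    have h8 : ell * (K + 1) = 10 * (s * ell ^ 3) + ell := by rw [hK]; ring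
    rw [h7, h8]
    nlinarith
  have h7 : Real.exp ell ≤ (1 + 1 / K) ^ j := by
    calc Real.exp ell ≤ Real.exp ((j : ℝ) * (1 / (K + 1))) := Real.exp_le_exp.2 h6
      _ = (Real.exp (1 / (K + 1))) ^ j := Real.exp_nat_mul _ _
      _ ≤ (1 + 1 / K) ^ j := pow_le_pow_left₀ (Real.exp_pos _).le h5 j
  have h8 : Real.exp ell = (n : ℝ) / s + 3 := by
    rw [helldef, Real.exp_log]
    positivity
  rw [h8] at h7
  have h9 : (s : ℝ) * ((n : ℝ) / s + 3) ≤ s * (1 + 1 / K) ^ j := by gcongr
  have h10 : (s : ℝ) * ((n : ℝ) / s + 3) = n + 3 * s := by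
    field_simp
  have h11 : (b T : ℝ) ≤ n := by exact_mod_cast hbn
  linarith

/-- Balls of radius `T` contain more than half of the vertices. -/
lemma half (hE : ExpF) {Y : SimpleGraph V} {s : ℕ} {H : Finset V} {ell : ℝ}
    (h : GS Y s H ell) (T : ℕ) (hT : 25 * (s : ℝ) * ell ^ 3 - 1 ≤ T) {u : V} (hu : u ∈ H) :
    H.card < 2 * (bl Y H {u} T).card := by
  by_contra hcon
  push Not at hcon
  have hn : 1 ≤ H.card := Finset.card_pos.2 ⟨u, hu⟩
  refine numbers (fun i => (bl Y H {u} i).card) s H.card T ell (10 * s * ell ^ 2) h.s_pos h.big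
    h.ell_def rfl hT ?_ ?_ ?_
  · exact Finset.card_pos.2 ⟨u, self_mem_bl hu⟩
  · intro i hi
    have h1 : (bl Y H {u} i).card ≤ (bl Y H {u} T).card := Finset.card_le_card (bl_mono hi)
    have h2 := hE V Y s H ell h (bl Y H {u} i) bl_subset (by omega)
    have h3 : 1 ≤ (bl Y H {u} i).card := Finset.card_pos.2 ⟨u, self_mem_bl hu⟩
    have h4 := card_bl_succ (Γ := Y) (S := H) (A := {u}) (i := i)
    have h5 : 0 < (nbr Y H (bl Y H {u} i)).card := by
      rw [Nat.pos_iff_ne_zero]
      intro h0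
      rw [h0] at h2
      have : (1 : ℝ) ≤ (bl Y H {u} i).card := by exact_mod_cast h3
      simp only [Nat.cast_zero, mul_zero] at h2
      linarith
    refine ⟨by omega, ?_⟩
    rw [h4]
    push_cast
    rw [add_sub_cancel_left]
    exact h2
  · omega

end DiamFAux

open DiamFAux in
theorem diamF (hE : ExpF) : DiamF := by
  intro V Y s H ell h R hR u hu v hv
  obtain ⟨T, hTdef⟩ : ∃ T, T = R / 2 := ⟨_, rfl⟩
  have hT : 25 * (s : ℝ) * ell ^ 3 - 1 ≤ T := by
    have h1 : R ≤ 2 * T + 1 := by omega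
    have h2 : (R : ℝ) ≤ 2 * T + 1 := by exact_mod_cast h1
    linarith
  have h1 := half hE h T hT hu
  have h2 := half hE h T hT hv
  obtain ⟨x, hx⟩ : ((bl Y H {u} T) ∩ (bl Y H {v} T)).Nonempty := by
    by_contra h0
    rw [Finset.not_nonempty_iff_eq_empty, ← Finset.disjoint_iff_inter_eq_empty] at h0
    have h3 := Finset.card_union_of_disjoint h0
    have h4 : ((bl Y H {u} T) ∪ (bl Y H {v} T)).card ≤ H.card :=
      Finset.card_le_card (Finset.union_subset bl_subset bl_subset)
    omega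
  have hx1 := (Finset.mem_inter.1 hx).1
  have hx2 := (Finset.mem_inter.1 hx).2
  exact bl_mono (by omega) (bl_trans hx1 (bl_symm hx2))

end Pool.Agent.Lib.MP_b6048d_co.F
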