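import Pool.Agent.Lib.MP_b6048d_co.F.SpecD

set_option autoImplicit false

/-!
Definitions for section E (colouring) of the full solution of MP_b6048d_co.
-/

open scoped Classical

namespace Pool.Agent.Lib.MP_b6048d_co.F

variable {V : Type*}

/-- The set `X` is heavy with respect to `W`: `W ∩ X` contains an odd cycle of length `≤ a`. -/
def Hv (G : SimpleGraph V) (a : ℕ) (W : Finset V) (X : Set V) : Prop :=
  ∃ Q : List V, IsCyc G Q ∧ Odd Q.length ∧ Q.length ≤ a ∧ ∀ z ∈ Q, z ∈ W ∧ z ∈ X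

/-- The light edges with respect to `W`: the edges of `G` inside `W` which are not inside a heavy
block. -/
def Lt (G : SimpleGraph V) (XX : Set (Set V)) (a : ℕ) (W : Finset V) : SimpleGraph V where
  Adj u v := G.Adj u v ∧ u ∈ W ∧ v ∈ W ∧ ¬ ∃ X ∈ XX, Hv G a W X ∧ u ∈ X ∧ v ∈ X
  symm := ⟨fun _ _ h => ⟨h.1.symm, h.2.2.1, h.2.1, fun ⟨X, h1, h2, h3, h4⟩ =>
    h.2.2.2 ⟨X, h1, h2, h4, h3⟩⟩⟩
  loopless := ⟨fun _ h => G.irrefl h.1⟩

/-- `p` is a linked port of the block `X`: a vertex of `W ∩ X` at light distance at most `2` from a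
vertex of another heavy block, or at light distance at most `1` from an element of `S`. -/
def Linked (G : SimpleGraph V) (XX : Set (Set V)) (a : ℕ) (W S : Finset V) (X : Set V)
    (p : V) : Prop :=
  p ∈ X ∧ p ∈ W ∧
    ((∃ X' ∈ XX, X' ≠ X ∧ Hv G a W X' ∧ ∃ q ∈ X', q ∈ W ∧ Wd (Lt G XX a W) 2 p q) ∨
      ∃ s ∈ S, Wd (Lt G XX a W) 1 p s)

/-- The final stage of the deletion process: there is a heavy block, and every heavy block has at
least three linked ports. -/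
structure Stage (G : SimpleGraph V) (XX : Set (Set V)) (a : ℕ) (S W : Finset V) : Prop where
  ne : ∃ X ∈ XX, Hv G a W X
  three : ∀ X ∈ XX, Hv G a W X → ∃ p₁ p₂ p₃ : V, p₁ ≠ p₂ ∧ p₁ ≠ p₃ ∧ p₂ ≠ p₃ ∧
    Linked G XX a W S X p₁ ∧ Linked G XX a W S X p₂ ∧ Linked G XX a W S X p₃

end Pool.Agent.Lib.MP_b6048d_co.F
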