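import Pool.Agent.Lib.MP_b6048d_co.F.SpecF

set_option autoImplicit false

/-!
# MP_b6048d_co, F20: greedy selection
-/

open scoped Classical

namespace Pool.Agent.Lib.MP_b6048d_co.F

namespace Greedy2Aux

theorem main (lam : ℕ → ℕ) (conf : ℕ → ℕ → Prop) (hsym : ∀ a b, conf a b → conf b a) (n : ℕ) :
    ∀ I : Finset ℕ, I.card ≤ n →
      (∀ a ∈ I, (I.filter (fun b => lam b ≤ lam a ∧ (conf a b ∨ b = a))).card ≤ 12 * lam a) →
      ∃ J : Finset ℕ, J ⊆ I ∧ (∀ a ∈ J, ∀ b ∈ J, a ≠ b → ¬ conf a b) ∧
        I.card ≤ 12 * ∑ a ∈ J, lam a := by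
  induction n with
  | zero =>
    intro I hI _
    refine ⟨∅, Finset.empty_subset _, ?_, by omega⟩
    intro a ha
    exact absurd ha (Finset.notMem_empty a)
  | succ n ih =>
    intro I hI hyp
    rcases I.eq_empty_or_nonempty with hE | hne
    · subst hE
      refine ⟨∅, Finset.empty_subset _, ?_, by simp⟩
      intro a ha
      exact absurd ha (Finset.notMem_empty a)
    · obtain ⟨a, ha, hmax⟩ := Finset.exists_max_image I lam hne
      have hsplit := Finset.card_filter_add_card_filter_not (s := I) (fun b => conf a b ∨ b = a)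
      have hle : (I.filter fun b => conf a b ∨ b = a).card ≤ 12 * lam a := by
        refine le_trans (Finset.card_le_card ?_) (hyp a ha)
        intro b hb
        rw [Finset.mem_filter] at hb ⊢
        exact ⟨hb.1, hmax b hb.1, hb.2⟩
      have hpos : 1 ≤ (I.filter fun b => conf a b ∨ b = a).card :=
        Finset.card_pos.2 ⟨a, Finset.mem_filter.2 ⟨ha, Or.inr rfl⟩⟩
      obtain ⟨J, hJ, hJc, hJs⟩ := ih (I.filter fun b => ¬ (conf a b ∨ b = a)) (by omega)
        (by
          intro c hc
          refine le_trans (Finset.card_le_card ?_) (hyp c (Finset.mem_filter.1 hc).1)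
          intro b hb
          rw [Finset.mem_filter] at hb ⊢
          exact ⟨(Finset.mem_filter.1 hb.1).1, hb.2⟩)
      have haJ : a ∉ J := by
        intro h
        exact (Finset.mem_filter.1 (hJ h)).2 (Or.inr rfl)
      refine ⟨insert a J, ?_, ?_, ?_⟩
      · intro b hb
        rcases Finset.mem_insert.1 hb with rfl | hb
        · exact ha
        · exact (Finset.mem_filter.1 (hJ hb)).1
      · intro x hx y hy hxy
        rcases Finset.mem_insert.1 hx with hx' | hx'
        · rcases Finset.mem_insert.1 hy with hy' | hy'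
          · exact absurd (hx'.trans hy'.symm) hxy
          · intro hc
            rw [hx'] at hc
            exact (Finset.mem_filter.1 (hJ hy')).2 (Or.inl hc)
        · rcases Finset.mem_insert.1 hy with hy' | hy'
          · intro hc
            rw [hy'] at hc
            exact (Finset.mem_filter.1 (hJ hx')).2 (Or.inl (hsym _ _ hc))
          · exact hJc x hx' y hy' hxy
      · rw [Finset.sum_insert haJ]
        omega

end Greedy2Aux

theorem greedy2 : Greedy2 := fun I lam conf hsym hyp =>
  Greedy2Aux.main lam conf hsym I.card I le_rfl hyp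

end Pool.Agent.Lib.MP_b6048d_co.F
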