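import Pool.Agent.Lib.MP_b6048d_co.F.SpecD

set_option autoImplicit false

/-!
Interface of section F (growth) of the full solution of MP_b6048d_co.
-/

open scoped Classical

namespace Pool.Agent.Lib.MP_b6048d_co.F

/-- The growth theorem: a failing structure of blocks whose ears are much longer than `a` produces
all cycle lengths in `[a w^4, a w^B]` for some `w ≥ Δ`. -/
def GrowthThm : Prop := ∀ (A R B : ℕ), 1 ≤ A → ∃ Δ₀ : ℕ, ∀ Δ : ℕ, Δ₀ ≤ Δ →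
  ∃ C lam₀ a₀ : ℕ, 3 ≤ lam₀ ∧
  ∀ (V : Type) (G : SimpleGraph V) (XX : Set (Set V)) (a g : ℕ) (I : Finset (Set V))
    (Tc : Finset (Finset V)) (Ce : SimpleGraph V),
  Miss G A R → Cov G 3000 C lam₀ → a₀ ≤ a → Δ * a ≤ 8 * g → Blocks G a g XX →
  Fail G XX I Tc Ce →
  ∃ w : ℕ, Δ ≤ w ∧ ∀ ℓ : ℕ, a * w ^ 4 ≤ ℓ → ℓ ≤ a * w ^ B → ∃ D, IsCyc G D ∧ D.length = ℓ

end Pool.Agent.Lib.MP_b6048d_co.F
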