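import Pool.Agent.Lib.MP_b6048d_co.F.SpecD

set_option autoImplicit false

/-! D01 TwoPaths: two vertices of a block are joined to its cycle by two disjoint short paths. -/

open scoped Classical

namespace Pool.Agent.Lib.MP_b6048d_co.F

namespace TwoPathsAux

variable {V : Type} {G : SimpleGraph V} {X : Set V} {Q : List V} {a : ℕ}

/-- The conclusion of the theorem. -/
def Goal (G : SimpleGraph V) (X : Set V) (Q : List V) (a : ℕ) (u w : V) : Prop :=
  ∃ (q q' : V) (l l' : List V), q ∈ Q ∧ q' ∈ Q ∧ Pth G X u q l ∧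
    Pth G X w q' l' ∧ List.Disjoint l l' ∧ (∀ z ∈ l, z ∈ Q → z = q) ∧
    (∀ z ∈ l', z ∈ Q → z = q') ∧ l.length + l'.length ≤ 2 * a

theorem Goal.symm {u w : V} (h : Goal G X Q a u w) : Goal G X Q a w u := by
  obtain ⟨q, q', l, l', h1, h2, h3, h4, h5, h6, h7, h8⟩ := h
  exact ⟨q', q, l', l, h2, h1, h4, h3, h5.symm, h7, h6, by omega⟩

/-- Two legs from `u` to the cycle. -/
structure Legs (G : SimpleGraph V) (X : Set V) (Q : List V) (a : ℕ) (u q₁ q₂ : V)
    (L₁ L₂ : List V) : Prop where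
  m1 : q₁ ∈ Q
  m2 : q₂ ∈ Q
  ne : q₁ ≠ q₂
  p1 : Pth G X u q₁ L₁
  p2 : Pth G X u q₂ L₂
  dis : ∀ z ∈ L₁, z ∈ L₂ → z = u
  i1 : ∀ z ∈ L₁, z ∈ Q → z = q₁
  i2 : ∀ z ∈ L₂, z ∈ Q → z = q₂
  len : L₁.length + L₂.length ≤ a + 1

theorem Legs.symm {u q₁ q₂ : V} {L₁ L₂ : List V} (h : Legs G X Q a u q₁ q₂ L₁ L₂) :
    Legs G X Q a u q₂ q₁ L₂ L₁ :=
  ⟨h.m2, h.m1, h.ne.symm, h.p2, h.p1, fun z h1 h2 => h.dis z h2 h1, h.i2, h.i1, by
    have := h.len
    omega⟩

theorem Legs.le1 {u q₁ q₂ : V} {L₁ L₂ : List V} (h : Legs G X Q a u q₁ q₂ L₁ L₂) :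
    L₁.length ≤ a := by
  have h1 := h.len
  have h2 := h.p2.toWk.length_pos
  omega

/-- Existence of legs. -/
theorem exists_legs {u : V} (hu : u ∈ XQ G a Q) (huQ : u ∉ Q) :
    ∃ q₁ q₂ L₁ L₂, Legs G (XQ G a Q) Q a u q₁ q₂ L₁ L₂ := by
  rcases hu with h | ⟨q₁, q₂, l, hear, hlen⟩
  · exact absurd h huQ
  have hX : ∀ z ∈ l, z ∈ XQ G a Q := by
    intro z hz
    by_cases hzQ : z ∈ Q
    · exact Or.inl hzQ
    · exact Or.inr ⟨q₁, q₂, l, ⟨hear.q1, hear.q2, hear.ne, hear.pth, hear.int, hz, hzQ⟩, hlen⟩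
  have hP : Pth G (XQ G a Q) q₁ q₂ l := hear.pth.restrict hX
  obtain ⟨A, B, hl, h1, h2⟩ := hP.split hear.mem
  have hnd : (A ++ u :: B).Nodup := by
    rw [← hl]
    exact hP.nodup
  have hnd' := List.nodup_append'.1 hnd
  refine ⟨q₁, q₂, (A ++ [u]).reverse, u :: B, hear.q1, hear.q2, hear.ne, h1.reverse, h2, ?_, ?_,
    ?_, ?_⟩
  · intro z hz hz'
    rw [List.mem_reverse, List.mem_append, List.mem_singleton] at hz
    rcases hz with hz | hz
    · exact absurd hz' (fun hh => hnd'.2.2 hz hh)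
    · exact hz
  · intro z hz hzQ
    rw [List.mem_reverse] at hz
    have hzl : z ∈ l := by
      rw [hl]
      rcases List.mem_append.1 hz with h3 | h3
      · exact List.mem_append_left _ h3
      · rw [List.mem_singleton.1 h3]
        simp
    rcases hear.int z hzl hzQ with h3 | h3
    · exact h3
    · -- `z = q₂` is the last vertex of `u :: B`
      have hz2 : z ∈ u :: B := by
        rw [h3]
        exact h2.toWk.right_mem
      rcases List.mem_append.1 hz with h4 | h4
      · exact absurd hz2 (fun hh => hnd'.2.2 h4 hh)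
      · rw [List.mem_singleton.1 h4] at hzQ
        exact absurd hzQ huQ
  · intro z hz hzQ
    have hzl : z ∈ l := by
      rw [hl]
      exact List.mem_append_right _ hz
    rcases hear.int z hzl hzQ with h3 | h3
    · have hz1 : z ∈ A ++ [u] := by
        rw [h3]
        exact h1.toWk.left_mem
      rcases List.mem_append.1 hz1 with h4 | h4
      · exact absurd hz (fun hh => hnd'.2.2 h4 hh)
      · rw [List.mem_singleton.1 h4] at hzQ
        exact absurd hzQ huQ
    · exact h3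
  · have h3 : l.length = A.length + (B.length + 1) := by
      rw [hl, List.length_append, List.length_cons]
    simp only [List.length_reverse, List.length_append, List.length_cons, List.length_nil]
    omega

/-- The path from `w` reaches the cycle before meeting the legs of `u`. -/
theorem caseQ {u w z q₁ q₂ : V} {L₁ L₂ N : List V} (hL : Legs G X Q a u q₁ q₂ L₁ L₂)
    (hN : Pth G X w z N) (hz : z ∈ Q)
    (hT : ∀ y ∈ N, (y ∈ L₁ ∨ y ∈ L₂ ∨ y ∈ Q) → y = z) (hlen : N.length ≤ a) :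
    Goal G X Q a u w := by
  by_cases h : q₁ = z
  · -- use the second leg
    refine ⟨q₂, z, L₂, N, hL.m2, hz, hL.p2, hN, ?_, hL.i2, fun y hy hyQ => hT y hy
      (Or.inr (Or.inr hyQ)), ?_⟩
    · intro y hy hyN
      have h1 := hT y hyN (Or.inr (Or.inl hy))
      rw [h1] at hy
      have h2 := hL.i2 z hy hz
      exact hL.ne (h.trans h2)
    · have := hL.symm.le1
      omega
  · refine ⟨q₁, z, L₁, N, hL.m1, hz, hL.p1, hN, ?_, hL.i1, fun y hy hyQ => hT y hy
      (Or.inr (Or.inr hyQ)), ?_⟩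
    · intro y hy hyN
      have h1 := hT y hyN (Or.inl hy)
      rw [h1] at hy
      exact h (hL.i1 z hy hz).symm
    · have := hL.le1
      omega

/-- The path from `w` meets the first leg of `u` first. -/
theorem caseI {u w z q₁ q₂ : V} {L₁ L₂ N : List V} (hL : Legs G X Q a u q₁ q₂ L₁ L₂)
    (hN : Pth G X w z N) (hz : z ∉ Q) (hzL : z ∈ L₁) (hzu : z ≠ u)
    (hT : ∀ y ∈ N, (y ∈ L₁ ∨ y ∈ L₂ ∨ y ∈ Q) → y = z) (hlen : N.length ≤ a) :
    Goal G X Q a u w := by
  obtain ⟨A, B, hAB, -, h2⟩ := hL.p1.split hzL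
  have hnd : (A ++ z :: B).Nodup := by
    rw [← hAB]
    exact hL.p1.nodup
  have hnd' := List.nodup_append'.1 hnd
  have hAne : A ≠ [] := by
    rintro rfl
    have := hL.p1.head
    rw [hAB] at this
    simp only [List.nil_append, List.head?_cons, Option.some.injEq] at this
    exact hzu this
  have huA : u ∈ A := by
    have := hL.p1.head
    rw [hAB] at this
    obtain ⟨c, A', rfl⟩ := List.exists_cons_of_ne_nil hAne
    simp only [List.cons_append, List.head?_cons, Option.some.injEq] at this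
    rw [this]
    simp
  have huB : u ∉ z :: B := fun hh => hnd'.2.2 huA hh
  have hsub : ∀ y ∈ z :: B, y ∈ L₁ := by
    intro y hy
    rw [hAB]
    exact List.mem_append_right _ hy
  have hPN : Pth G X w q₁ (N ++ (z :: B).tail) :=
    hN.append h2 fun y hy hy' => hT y hy (Or.inl (hsub y hy'))
  refine ⟨q₂, q₁, L₂, N ++ (z :: B).tail, hL.m2, hL.m1, hL.p2, hPN, ?_, hL.i2, ?_, ?_⟩
  · intro y hy hyN
    rcases List.mem_append.1 hyN with h3 | h3
    · have h4 := hT y h3 (Or.inr (Or.inl hy))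
      rw [h4] at hy
      exact hzu (hL.dis z hzL hy)
    · have h4 : y ∈ z :: B := by
        rw [List.tail_cons] at h3
        exact List.mem_cons_of_mem _ h3
      have h5 := hL.dis y (hsub y h4) hy
      rw [h5] at h4
      exact huB h4
  · intro y hy hyQ
    rcases List.mem_append.1 hy with h3 | h3
    · have h4 := hT y h3 (Or.inr (Or.inr hyQ))
      rw [h4] at hyQ
      exact absurd hyQ hz
    · have h4 : y ∈ z :: B := by
        rw [List.tail_cons] at h3
        exact List.mem_cons_of_mem _ h3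
      exact hL.i1 y (hsub y h4) hyQ
  · have h3 := hL.len
    have h4 : L₁.length = A.length + (B.length + 1) := by
      rw [hAB, List.length_append, List.length_cons]
    have h5 : 1 ≤ A.length := List.length_pos_iff.2 hAne
    rw [List.length_append, List.tail_cons]
    omega

/-- The initial segment of a leg up to the first vertex with a property. -/
theorem first_seg {w r : V} {M : List V} (T : V → Prop) (hM : Pth G X w r M) (hr : T r) :
    ∃ z N, Pth G X w z N ∧ T z ∧ z ∈ M ∧ (∀ y ∈ N, T y → y = z) ∧ N.length ≤ M.length := by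
  obtain ⟨A, z, B, hAB, hz, hA⟩ := exists_first T M ⟨r, hM.toWk.right_mem, hr⟩
  have h1 : Pth G X w r (A ++ z :: B) := by
    rw [← hAB]
    exact hM
  refine ⟨z, A ++ [z], h1.cut.1, hz, ?_, ?_, ?_⟩
  · rw [hAB]
    simp
  · intro y hy hyT
    rcases List.mem_append.1 hy with h2 | h2
    · exact absurd hyT (hA y h2)
    · exact List.mem_singleton.1 h2
  · rw [hAB]
    simp only [List.length_append, List.length_cons, List.length_nil]
    omega

theorem goal_of_not_mem {u w : V} (ha : 1 ≤ a) (hu : u ∈ XQ G a Q) (hw : w ∈ XQ G a Q)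
    (huw : u ≠ w) (huQ : u ∉ Q) : Goal G (XQ G a Q) Q a u w := by
  obtain ⟨q₁, q₂, L₁, L₂, hL⟩ := exists_legs hu huQ
  have hsingle : ∀ y ∈ [w], (y ∈ L₁ ∨ y ∈ L₂ ∨ y ∈ Q) → y = w := fun y hy _ =>
    List.mem_singleton.1 hy
  by_cases hwQ : w ∈ Q
  · exact caseQ hL (Pth.single hw) hwQ hsingle (by simpa using ha)
  by_cases hw1 : w ∈ L₁
  · exact caseI hL (Pth.single hw) hwQ hw1 (Ne.symm huw) hsingle (by simpa using ha)
  by_cases hw2 : w ∈ L₂
  · refine caseI hL.symm (Pth.single hw) hwQ hw2 (Ne.symm huw) ?_ (by simpa using ha)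
    intro y hy _
    exact List.mem_singleton.1 hy
  obtain ⟨r₁, r₂, M₁, M₂, hM⟩ := exists_legs hw hwQ
  set T : V → Prop := fun y => y ∈ L₁ ∨ y ∈ L₂ ∨ y ∈ Q with hTdef
  obtain ⟨z₁, N₁, hN₁, hz₁, hz₁M, hT₁, hl₁⟩ := first_seg T hM.p1 (Or.inr (Or.inr hM.m1))
  obtain ⟨z₂, N₂, hN₂, hz₂, hz₂M, hT₂, hl₂⟩ := first_seg T hM.p2 (Or.inr (Or.inr hM.m2))
  have hlen₁ : N₁.length ≤ a := hl₁.trans hM.le1
  have hlen₂ : N₂.length ≤ a := hl₂.trans hM.symm.le1
  by_cases hzQ₁ : z₁ ∈ Q
  · exact caseQ hL hN₁ hzQ₁ hT₁ hlen₁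
  by_cases hzQ₂ : z₂ ∈ Q
  · exact caseQ hL hN₂ hzQ₂ hT₂ hlen₂
  have hne : z₁ ≠ z₂ := by
    intro h
    have h1 : z₁ = w := hM.dis z₁ hz₁M (by rw [h]; exact hz₂M)
    rcases hz₁ with h2 | h2 | h2
    · rw [h1] at h2
      exact hw1 h2
    · rw [h1] at h2
      exact hw2 h2
    · exact hzQ₁ h2
  have key : ∀ (z : V) (N : List V), Pth G (XQ G a Q) w z N → T z → z ∉ Q → z ≠ u →
      (∀ y ∈ N, T y → y = z) → N.length ≤ a → Goal G (XQ G a Q) Q a u w := by
    intro z N hN hz hzQ hzu hT hlen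
    rcases hz with h1 | h1 | h1
    · exact caseI hL hN hzQ h1 hzu hT hlen
    · refine caseI hL.symm hN hzQ h1 hzu ?_ hlen
      intro y hy hy'
      refine hT y hy ?_
      rcases hy' with h2 | h2 | h2
      · exact Or.inr (Or.inl h2)
      · exact Or.inl h2
      · exact Or.inr (Or.inr h2)
    · exact absurd h1 hzQ
  by_cases hzu : z₁ = u
  · exact key z₂ N₂ hN₂ hz₂ hzQ₂ (fun h => hne (hzu.trans h.symm)) hT₂ hlen₂
  · exact key z₁ N₁ hN₁ hz₁ hzQ₁ hzu hT₁ hlen₁

end TwoPathsAux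

open TwoPathsAux in
theorem twoPaths : TwoPaths := by
  intro V G a Q hQ hQa u hu w hw huw
  have h3 : 3 ≤ Q.length := hQ.len
  have ha : 1 ≤ a := by omega
  have hgoal : Goal G (XQ G a Q) Q a u w := by
    by_cases huQ : u ∈ Q
    · by_cases hwQ : w ∈ Q
      · refine ⟨u, w, [u], [w], huQ, hwQ, Pth.single hu, Pth.single hw, ?_, ?_, ?_, ?_⟩
        · intro y hy hy'
          rw [List.mem_singleton] at hy hy'
          exact huw (hy.symm.trans hy')
        · intro z hz _
          exact List.mem_singleton.1 hz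
        · intro z hz _
          exact List.mem_singleton.1 hz
        · simp only [List.length_cons, List.length_nil]
          omega
      · exact (goal_of_not_mem ha hw hu (Ne.symm huw) hwQ).symm
    · exact goal_of_not_mem ha hu hw huw huQ
  exact hgoal

end Pool.Agent.Lib.MP_b6048d_co.F
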