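import Pool.Agent.Lib.MP_b6048d_co.F.CovMono
import Pool.Agent.Lib.MP_b6048d_co.F.ShortOddThin
import Pool.Agent.Lib.MP_b6048d_co.F.LongOdd
import Pool.Agent.Lib.MP_b6048d_co.F.SameLeg
import Pool.Agent.Lib.MP_b6048d_co.F.QLink
import Pool.Agent.Lib.MP_b6048d_co.F.Cross
import Pool.Agent.Lib.MP_b6048d_co.F.CrossCount
import Pool.Agent.Lib.MP_b6048d_co.F.ThinEdge
import Pool.Agent.Lib.MP_b6048d_co.F.Greedy
import Pool.Agent.Lib.MP_b6048d_co.F.Sumset
import Pool.Agent.Lib.MP_b6048d_co.F.Detour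
import Pool.Agent.Lib.MP_b6048d_co.F.GapLemma
import Pool.Agent.Lib.MP_b6048d_co.F.TwoPaths
import Pool.Agent.Lib.MP_b6048d_co.F.BlockEar
import Pool.Agent.Lib.MP_b6048d_co.F.BlockPar
import Pool.Agent.Lib.MP_b6048d_co.F.BlockOne
import Pool.Agent.Lib.MP_b6048d_co.F.BlocksExist
import Pool.Agent.Lib.MP_b6048d_co.F.BlobInside
import Pool.Agent.Lib.MP_b6048d_co.F.GapToGapP
import Pool.Agent.Lib.MP_b6048d_co.F.MainSub

set_option autoImplicit false

/-!
Sections C and D of the full solution of MP_b6048d_co: assembly.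
-/

namespace Pool.Agent.Lib.MP_b6048d_co.F

theorem longOddFull : LongOdd := longOdd shortOddThin

theorem gapLemmaFull : GapLemma :=
  gapLemma longOddFull sameLeg (cross sameLeg) crossCount (thinEdge sameLeg qLink) greedy sumset
    detour

theorem blocksExistFull : BlocksExist :=
  blocksExist (blockEar twoPaths) (blockPar twoPaths) (blockOne twoPaths (blockEar twoPaths))

theorem blobInsideFull : BlobInside := blobInside longOddFull

end Pool.Agent.Lib.MP_b6048d_co.F
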