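import Pool.Agent.Lib.MP_b6048d_co.F.MainC
import Pool.Agent.Lib.MP_b6048d_co.F.CycConv
import Pool.Agent.Lib.MP_b6048d_co.F.TreeFacts
import Pool.Agent.Lib.MP_b6048d_co.F.WebExists
import Pool.Agent.Lib.MP_b6048d_co.F.WebGirth
import Pool.Agent.Lib.MP_b6048d_co.F.CycleIn
import Pool.Agent.Lib.MP_b6048d_co.F.IncToDense
import Pool.Agent.Lib.MP_b6048d_co.F.MuFacts
import Pool.Agent.Lib.MP_b6048d_co.F.SizeLower
import Pool.Agent.Lib.MP_b6048d_co.F.ExpF
import Pool.Agent.Lib.MP_b6048d_co.F.DiamF
import Pool.Agent.Lib.MP_b6048d_co.F.PathCut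
import Pool.Agent.Lib.MP_b6048d_co.F.Giant
import Pool.Agent.Lib.MP_b6048d_co.F.LongPath
import Pool.Agent.Lib.MP_b6048d_co.F.LongCycle
import Pool.Agent.Lib.MP_b6048d_co.F.StepDown
import Pool.Agent.Lib.MP_b6048d_co.F.CycleScales
import Pool.Agent.Lib.MP_b6048d_co.F.TouchClosure
import Pool.Agent.Lib.MP_b6048d_co.F.TouchCount
import Pool.Agent.Lib.MP_b6048d_co.F.Runs
import Pool.Agent.Lib.MP_b6048d_co.F.CleanExists
import Pool.Agent.Lib.MP_b6048d_co.F.Greedy2
import Pool.Agent.Lib.MP_b6048d_co.F.WebLengths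
import Pool.Agent.Lib.MP_b6048d_co.F.GrowthNum
import Pool.Agent.Lib.MP_b6048d_co.F.GrowthThm

set_option autoImplicit false

/-!
Section F of the full solution of MP_b6048d_co: assembly of the growth theorem.
-/

namespace Pool.Agent.Lib.MP_b6048d_co.F

theorem growthThmFull : GrowthThm :=
  have hCC := cycConv
  have hT := treeFacts
  have hWG := webGirth hT
  have hID := incToDense hT hWG cycleIn
  have hM := muFacts
  have hE := expF hM
  have hDi := diamF hE
  have hPC := pathCut hM
  have hGi := giant hPC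
  have hLP := longPath hGi hDi
  have hLC := longCycle hLP hPC
  have hCS := cycleScales stepDown
  have hCE := cleanExists hT hCC (runs hCC)
  have hWL := webLengths blobInsideFull greedy2 sumset detour
  growthThm hCC webExists hWG hID hM (sizeLower hM) hDi hLC hCS (touchClosure hT) (touchCount hT)
    hCE hWL growthNum

end Pool.Agent.Lib.MP_b6048d_co.F
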