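import Pool.Agent.Lib.MP_b6048d_co.F.SpecE2

set_option autoImplicit false

/-!
A forest of trees of depth at most `4` whose roots are far apart, spanned by `P`.
-/

open scoped Classical

namespace Pool.Agent.Lib.MP_b6048d_co.F

namespace VoronoiAux

variable {V : Type}

/-- `v` is at distance at most `n` from `Z`. -/
def Ar (Λ : SimpleGraph V) (Z : Finset V) (v : V) (n : ℕ) : Prop := ∃ z ∈ Z, Wd Λ n z v

/-- the distance to `Z` -/
noncomputable def dp (Λ : SimpleGraph V) (Z : Finset V) (v : V) : ℕ :=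
  if h : ∃ n, Ar Λ Z v n then Nat.find h else 0

lemma dp_le {Λ : SimpleGraph V} {Z : Finset V} {v : V} {n : ℕ} (h : Ar Λ Z v n) :
    dp Λ Z v ≤ n := by
  have hex : ∃ n, Ar Λ Z v n := ⟨n, h⟩
  unfold dp
  rw [dif_pos hex]
  exact Nat.find_min' hex h

lemma dp_spec {Λ : SimpleGraph V} {Z : Finset V} {v : V} (h : ∃ n, Ar Λ Z v n) :
    Ar Λ Z v (dp Λ Z v) := by
  unfold dp
  rw [dif_pos h]
  exact Nat.find_spec h

lemma exists_par {Λ : SimpleGraph V} {Z : Finset V} {v : V} (h : ∃ n, Ar Λ Z v n)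
    (h0 : dp Λ Z v ≠ 0) : ∃ u, Λ.Adj v u ∧ (∃ n, Ar Λ Z u n) ∧ dp Λ Z u + 1 = dp Λ Z v := by
  obtain ⟨m, hm⟩ := Nat.exists_eq_succ_of_ne_zero h0
  obtain ⟨z, hz, hw⟩ := dp_spec h
  obtain ⟨q, hq⟩ := hw.symm
  cases q with
  | nil =>
    exfalso
    have : dp Λ Z v ≤ 0 := dp_le ⟨v, hz, Wd.refl 0 v⟩
    omega
  | @cons _ u _ hadj q' =>
    rw [SimpleGraph.Walk.length_cons] at hq
    have hu : Ar Λ Z u m := ⟨z, hz, Wd.symm ⟨q', by omega⟩⟩
    refine ⟨u, hadj, ⟨m, hu⟩, ?_⟩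
    have h1 := dp_le hu
    obtain ⟨z', hz', hw'⟩ := dp_spec ⟨m, hu⟩
    obtain ⟨r, hr⟩ := hw'.symm
    have h2 : Ar Λ Z v (dp Λ Z u + 1) := by
      refine ⟨z', hz', Wd.symm ⟨SimpleGraph.Walk.cons hadj r, ?_⟩⟩
      rw [SimpleGraph.Walk.length_cons]; omega
    have h3 := dp_le h2
    omega

/-- the next vertex on the way to `Z` -/
noncomputable def pr (Λ : SimpleGraph V) (Z : Finset V) (v : V) : V :=
  if h : ∃ u, Λ.Adj v u ∧ (∃ n, Ar Λ Z u n) ∧ dp Λ Z u + 1 = dp Λ Z v then h.choose else v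

lemma pr_spec {Λ : SimpleGraph V} {Z : Finset V} {v : V} (h : ∃ n, Ar Λ Z v n)
    (h0 : dp Λ Z v ≠ 0) : Λ.Adj v (pr Λ Z v) ∧ (∃ n, Ar Λ Z (pr Λ Z v) n) ∧
      dp Λ Z (pr Λ Z v) + 1 = dp Λ Z v := by
  have hex := exists_par h h0
  unfold pr
  rw [dif_pos hex]
  exact hex.choose_spec

lemma iter_spec {Λ : SimpleGraph V} {Z : Finset V} {p : V} (h : ∃ n, Ar Λ Z p n) :
    ∀ i, i ≤ dp Λ Z p → (∃ n, Ar Λ Z ((pr Λ Z)^[i] p) n) ∧
      dp Λ Z ((pr Λ Z)^[i] p) + i = dp Λ Z p := by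
  intro i
  induction i with
  | zero => intro _; exact ⟨h, rfl⟩
  | succ i ih =>
    intro hi
    obtain ⟨h1, h2⟩ := ih (by omega)
    rw [Function.iterate_succ_apply']
    obtain ⟨-, h4, h5⟩ := pr_spec h1 (by omega)
    exact ⟨h4, by omega⟩

/-- The elements of `Z` are far apart. -/
def FarS (Λ : SimpleGraph V) (Z : Finset V) : Prop := ∀ z ∈ Z, ∀ z' ∈ Z, Wd Λ 4 z z' → z = z'

/-- A maximal set of centres. -/
lemma exists_Z (Λ : SimpleGraph V) (P : Finset V) : ∃ Z : Finset V, Z ⊆ P ∧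
    (∀ z ∈ Z, ∀ z' ∈ Z, Wd Λ 4 z z' → z = z') ∧ ∀ p ∈ P, Ar Λ Z p 4 := by
  obtain ⟨Z, hZ, hmax⟩ := Finset.exists_max_image
    (P.powerset.filter (fun Z => FarS Λ Z)) Finset.card
    ⟨∅, by rw [Finset.mem_filter]; exact ⟨Finset.empty_mem_powerset _, fun z hz => by simp at hz⟩⟩
  rw [Finset.mem_filter, Finset.mem_powerset] at hZ
  refine ⟨Z, hZ.1, hZ.2, ?_⟩
  intro p hp
  by_contra hcon
  have hpZ : p ∉ Z := fun h => hcon ⟨p, h, Wd.refl 4 p⟩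
  have h1 := hmax (insert p Z) (by
    rw [Finset.mem_filter, Finset.mem_powerset]
    refine ⟨Finset.insert_subset hp hZ.1, ?_⟩
    intro z hz z' hz' hw
    rcases Finset.mem_insert.1 hz with rfl | h2
    · rcases Finset.mem_insert.1 hz' with h3 | h3
      · exact h3.symm
      · exact absurd ⟨z', h3, hw.symm⟩ hcon
    · rcases Finset.mem_insert.1 hz' with rfl | h3
      · exact absurd ⟨z, h2, hw⟩ hcon
      · exact hZ.2 z h2 z' h3 hw)
  rw [Finset.card_insert_of_notMem hpZ] at h1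
  omega

end VoronoiAux

open VoronoiAux in
theorem voronoi : Voronoi := by
  intro V Λ P
  obtain ⟨Z, hZP, hfar, hcov⟩ := exists_Z Λ P
  refine ⟨Z, P.biUnion fun p => (Finset.range (dp Λ Z p + 1)).image fun i => (pr Λ Z)^[i] p,
    pr Λ Z, dp Λ Z, ?_⟩
  have hN : ∀ v, v ∈ (P.biUnion fun p => (Finset.range (dp Λ Z p + 1)).image
      fun i => (pr Λ Z)^[i] p) ↔ ∃ p ∈ P, ∃ i, i ≤ dp Λ Z p ∧ (pr Λ Z)^[i] p = v := by
    intro v
    rw [Finset.mem_biUnion]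
    constructor
    · rintro ⟨p, hp, h⟩
      obtain ⟨i, hi, rfl⟩ := Finset.mem_image.1 h
      rw [Finset.mem_range] at hi
      exact ⟨p, hp, i, by omega, rfl⟩
    · rintro ⟨p, hp, i, hi, rfl⟩
      exact ⟨p, hp, Finset.mem_image.2 ⟨i, Finset.mem_range.2 (by omega), rfl⟩⟩
  have hA : ∀ p ∈ P, ∃ n, Ar Λ Z p n := fun p hp => ⟨4, hcov p hp⟩
  refine ⟨hZP, hfar, ?_, ?_, ?_, ?_, ?_, ?_⟩
  · intro p hp
    rw [hN]
    exact ⟨p, hp, 0, Nat.zero_le _, rfl⟩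
  · intro v hv
    rw [hN] at hv
    obtain ⟨p, hp, i, hi, rfl⟩ := hv
    have h1 := (iter_spec (hA p hp) i hi).2
    have h2 := dp_le (hcov p hp)
    omega
  · intro v hv h0
    rw [hN] at hv
    obtain ⟨p, hp, i, hi, rfl⟩ := hv
    have h1 := dp_spec (iter_spec (hA p hp) i hi).1
    rw [h0] at h1
    obtain ⟨z, hz, q, hq⟩ := h1
    have : z = (pr Λ Z)^[i] p := SimpleGraph.Walk.eq_of_length_eq_zero (p := q) (by omega)
    rw [← this]; exact hz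
  · intro v hv h0
    rw [hN] at hv
    obtain ⟨p, hp, i, hi, rfl⟩ := hv
    have h1 := iter_spec (hA p hp) i hi
    have h2 := pr_spec h1.1 h0
    refine ⟨?_, h2.1, h2.2.2⟩
    rw [hN]
    refine ⟨p, hp, i + 1, by omega, ?_⟩
    rw [Function.iterate_succ_apply']
  · intro v _ z hz n hw
    exact dp_le ⟨z, hz, hw⟩
  · intro v hv
    rw [hN] at hv
    obtain ⟨p, hp, i, hi, rfl⟩ := hv
    exact ⟨p, hp, i, hi, rfl⟩

end Pool.Agent.Lib.MP_b6048d_co.F
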