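import Pool.Agent.Lib.MP_b6048d_co.F.MainA
import Pool.Agent.Lib.MP_b6048d_co.F.MainC
import Pool.Agent.Lib.MP_b6048d_co.F.MainF
import Pool.Agent.Lib.MP_b6048d_co.F.PalExists
import Pool.Agent.Lib.MP_b6048d_co.F.BlockBall
import Pool.Agent.Lib.MP_b6048d_co.F.NbrFacts
import Pool.Agent.Lib.MP_b6048d_co.F.ColStep
import Pool.Agent.Lib.MP_b6048d_co.F.ColBase
import Pool.Agent.Lib.MP_b6048d_co.F.ColUp
import Pool.Agent.Lib.MP_b6048d_co.F.Process
import Pool.Agent.Lib.MP_b6048d_co.F.StageProc
import Pool.Agent.Lib.MP_b6048d_co.F.LtFar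
import Pool.Agent.Lib.MP_b6048d_co.F.Voronoi
import Pool.Agent.Lib.MP_b6048d_co.F.VorFacts
import Pool.Agent.Lib.MP_b6048d_co.F.HvFin
import Pool.Agent.Lib.MP_b6048d_co.F.CellThm
import Pool.Agent.Lib.MP_b6048d_co.F.Color
import Pool.Agent.Lib.MP_b6048d_co.F.LogMiss
import Pool.Agent.Lib.MP_b6048d_co.F.Cover
import Pool.Agent.Lib.MP_b6048d_co.F.ExtSmall
import Pool.Agent.Lib.MP_b6048d_co.F.ExtAll
import Pool.Agent.Lib.MP_b6048d_co.F.SubCol
import Pool.Agent.Lib.MP_b6048d_co.F.Final

set_option autoImplicit false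

/-!
The full solution of MP_b6048d_co: for every graph of infinite chromatic number the upper
logarithmic density of the set of cycle lengths is one.
-/

namespace Pool.Agent.Lib.MP_b6048d_co.F

theorem colStepFull : ColStep' := colStep nbrFacts blockBall

theorem processFull : Process' := process colBase (colUp colStepFull)

theorem stageThmFull : StageThm := by
  intro V G XX a g K K₁ r hB ha hg hr hK hext hcol hnext
  obtain ⟨S, W, h1, -, h2⟩ := stageProc palExists processFull V G XX a g K K₁ r hB (by omega)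
    (by omega) hK hext hcol hnext
  exact ⟨S, W, h1, h2⟩

theorem colorThmFull : ColorThm := colorThm stageThmFull (cellThm ltFar voronoi vorFacts hvFin)

theorem main : Final :=
  final covThmFull covMono gapLemmaFull gapToGapP blocksExistFull colorThmFull growthThmFull
    logMiss cover extSmall extAll (subCol mainSub)

end Pool.Agent.Lib.MP_b6048d_co.F
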