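import Pool.Agent.Lib.MP_b6048d_co.F.SpecA

set_option autoImplicit false

/-!
A01 TauFacts: elementary facts on the density function `tau`.
-/

open scoped Classical

namespace Pool.Agent.Lib.MP_b6048d_co.F.TauFactsAux

lemma one_lt_log (x : ℕ) : 1 < Real.log ((x : ℝ) + 3) := by
  have h : Real.exp 1 < (x : ℝ) + 3 := by
    have h1 := Real.exp_one_lt_d9
    have h2 : (0 : ℝ) ≤ (x : ℝ) := Nat.cast_nonneg x
    linarith
  have h3 := Real.log_lt_log (Real.exp_pos 1) h
  rwa [Real.log_exp] at h3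

lemma log_mono {a b : ℕ} (h : a ≤ b) :
    Real.log ((a : ℝ) + 3) ≤ Real.log ((b : ℝ) + 3) := by
  have h1 : (a : ℝ) ≤ (b : ℝ) := by exact_mod_cast h
  have h2 : (0 : ℝ) ≤ (a : ℝ) := Nat.cast_nonneg a
  exact Real.log_le_log (by linarith) (by linarith)

lemma tau_sub (D : ℝ) (a b : ℕ) :
    tau D b - tau D a = D * (1 / Real.log ((a : ℝ) + 3) - 1 / Real.log ((b : ℝ) + 3)) := by
  unfold tau
  ring

end Pool.Agent.Lib.MP_b6048d_co.F.TauFactsAux

namespace Pool.Agent.Lib.MP_b6048d_co.F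

open TauFactsAux

theorem tauFacts : TauFacts := by
  intro D hD
  refine ⟨?_, ?_, ?_, ?_⟩
  · intro x
    have h1 := one_lt_log x
    have h0 : 0 < Real.log ((x : ℝ) + 3) := by linarith
    have h2 : 0 < 1 / Real.log ((x : ℝ) + 3) := by positivity
    have h3 : 1 / Real.log ((x : ℝ) + 3) < 1 := by
      rw [div_lt_one h0]; exact h1
    unfold tau
    constructor
    · nlinarith
    · nlinarith
  · intro a b hab
    have h1 := one_lt_log a
    have h0 : 0 < Real.log ((a : ℝ) + 3) := by linarith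
    have h2 := log_mono hab
    have h3 : 1 / Real.log ((b : ℝ) + 3) ≤ 1 / Real.log ((a : ℝ) + 3) :=
      one_div_le_one_div_of_le h0 h2
    have h4 := tau_sub D a b
    have h5 : 0 ≤ D * (1 / Real.log ((a : ℝ) + 3) - 1 / Real.log ((b : ℝ) + 3)) :=
      mul_nonneg hD.le (by linarith)
    linarith
  · intro a b hab L hL
    have ha := one_lt_log a
    have hb := one_lt_log b
    have ha0 : 0 < Real.log ((a : ℝ) + 3) := by linarith
    have hb0 : 0 < Real.log ((b : ℝ) + 3) := by linarith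
    have hm := log_mono hab
    have hL0 : 0 < L := by linarith
    have hca : (0 : ℝ) ≤ (a : ℝ) := Nat.cast_nonneg a
    have hcb : (0 : ℝ) ≤ (b : ℝ) := Nat.cast_nonneg b
    have hab' : (a : ℝ) ≤ (b : ℝ) := by exact_mod_cast hab
    have hA : (0 : ℝ) < (a : ℝ) + 3 := by linarith
    have hB : (0 : ℝ) < (b : ℝ) + 3 := by linarith
    -- difference of logarithms
    have hdiff : ((b : ℝ) - a) / (b + 3) ≤
        Real.log ((b : ℝ) + 3) - Real.log ((a : ℝ) + 3) := by
      have h1 := Real.log_le_sub_one_of_pos (div_pos hA hB)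
      rw [Real.log_div hA.ne' hB.ne'] at h1
      have h2 : ((b : ℝ) - a) / (b + 3) = 1 - ((a : ℝ) + 3) / (b + 3) := by
        field_simp
        ring
      linarith
    have hq : 0 ≤ ((b : ℝ) - a) / (b + 3) := div_nonneg (by linarith) hB.le
    rw [tau_sub]
    have h3 : 1 / Real.log ((a : ℝ) + 3) - 1 / Real.log ((b : ℝ) + 3) =
        (Real.log ((b : ℝ) + 3) - Real.log ((a : ℝ) + 3)) /
          (Real.log ((a : ℝ) + 3) * Real.log ((b : ℝ) + 3)) := by
      field_simp
    rw [h3, mul_div_assoc]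
    apply mul_le_mul_of_nonneg_left _ hD.le
    have hprod : Real.log ((a : ℝ) + 3) * Real.log ((b : ℝ) + 3) ≤ L ^ 2 := by
      have : Real.log ((a : ℝ) + 3) ≤ L := hm.trans hL
      nlinarith
    have hp0 : 0 < Real.log ((a : ℝ) + 3) * Real.log ((b : ℝ) + 3) := mul_pos ha0 hb0
    exact div_le_div₀ (hq.trans hdiff) hdiff hp0 hprod
  · intro a b hab
    have ha := one_lt_log a
    have hb := one_lt_log b
    have ha0 : 0 < Real.log ((a : ℝ) + 3) := by linarith
    have hb0 : 0 < Real.log ((b : ℝ) + 3) := by linarith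
    have hca : (0 : ℝ) ≤ (a : ℝ) := Nat.cast_nonneg a
    have hA : (0 : ℝ) < (a : ℝ) + 3 := by linarith
    have hab' : ((a : ℝ) + 3) ^ 2 ≤ (b : ℝ) + 3 := by exact_mod_cast hab
    have h2 : 2 * Real.log ((a : ℝ) + 3) ≤ Real.log ((b : ℝ) + 3) := by
      have h3 := Real.log_le_log (by positivity) hab'
      rw [Real.log_pow] at h3
      simpa using h3
    have h4 : 1 / Real.log ((b : ℝ) + 3) ≤ 1 / (2 * Real.log ((a : ℝ) + 3)) :=
      one_div_le_one_div_of_le (by linarith) h2
    have h5 : 1 / Real.log ((a : ℝ) + 3) - 1 / (2 * Real.log ((a : ℝ) + 3)) =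
        1 / (2 * Real.log ((a : ℝ) + 3)) := by
      field_simp
      norm_num
    rw [tau_sub]
    have h6 : D / (2 * Real.log ((a : ℝ) + 3)) = D * (1 / (2 * Real.log ((a : ℝ) + 3))) := by
      rw [mul_one_div]
    rw [h6]
    apply mul_le_mul_of_nonneg_left _ hD.le
    linarith

end Pool.Agent.Lib.MP_b6048d_co.F
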