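import Pool.Agent.Lib.MP_b6048d_co.F.CovThm
import Pool.Agent.Lib.MP_b6048d_co.F.CovMono
import Pool.Agent.Lib.MP_b6048d_co.F.TauFacts
import Pool.Agent.Lib.MP_b6048d_co.F.MinBasics
import Pool.Agent.Lib.MP_b6048d_co.F.Exp
import Pool.Agent.Lib.MP_b6048d_co.F.ExpSmall
import Pool.Agent.Lib.MP_b6048d_co.F.HalfBall
import Pool.Agent.Lib.MP_b6048d_co.F.Conn
import Pool.Agent.Lib.MP_b6048d_co.F.Spread
import Pool.Agent.Lib.MP_b6048d_co.F.NumGrow
import Pool.Agent.Lib.MP_b6048d_co.F.ThinBall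
import Pool.Agent.Lib.MP_b6048d_co.F.ThinSmall
import Pool.Agent.Lib.MP_b6048d_co.F.LocLemma
import Pool.Agent.Lib.MP_b6048d_co.F.Closure
import Pool.Agent.Lib.MP_b6048d_co.F.Pockets
import Pool.Agent.Lib.MP_b6048d_co.F.Exceptional
import Pool.Agent.Lib.MP_b6048d_co.F.BadCount
import Pool.Agent.Lib.MP_b6048d_co.F.NumBad
import Pool.Agent.Lib.MP_b6048d_co.F.GoodLemma
import Pool.Agent.Lib.MP_b6048d_co.F.GoodGrow
import Pool.Agent.Lib.MP_b6048d_co.F.HatPrefix
import Pool.Agent.Lib.MP_b6048d_co.F.NewSet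
import Pool.Agent.Lib.MP_b6048d_co.F.LevelCount
import Pool.Agent.Lib.MP_b6048d_co.F.GeoDevice
import Pool.Agent.Lib.MP_b6048d_co.F.DeviceLemma
import Pool.Agent.Lib.MP_b6048d_co.F.Link2
import Pool.Agent.Lib.MP_b6048d_co.F.LinkH
import Pool.Agent.Lib.MP_b6048d_co.F.StepSets
import Pool.Agent.Lib.MP_b6048d_co.F.StepGlue
import Pool.Agent.Lib.MP_b6048d_co.F.InitState
import Pool.Agent.Lib.MP_b6048d_co.F.Closing
import Pool.Agent.Lib.MP_b6048d_co.F.Ranges
import Pool.Agent.Lib.MP_b6048d_co.F.BlobThm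
import Pool.Agent.Lib.MP_b6048d_co.F.BlobRestrict
import Pool.Agent.Lib.MP_b6048d_co.F.DenseBip

set_option autoImplicit false

/-!
Section A of the full solution of MP_b6048d_co: assembly of the blob theorem.
-/

namespace Pool.Agent.Lib.MP_b6048d_co.F

theorem covThmFull : CovThm :=
  have hT := tauFacts
  have hM := minBasics hT
  have hE := exp_ hT hM
  have hES := expSmall hT hM
  have hHB := halfBall hE
  have hC := conn hHB
  have hS := spread hE hHB
  have hNG := numGrow
  have hTB := thinBall hM hES hNG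
  have hTS := thinSmall hM hTB hS
  have hLoc := locLemma hM hTB hTS hC
  have hCl := closure hT hM
  have hP := pockets hT hM
  have hEx := exceptional hT hM
  have hG := goodLemma hM hCl hP hEx badCount numBad
  have hGG := goodGrow hNG
  have hHP := hatPrefix
  have hNS := newSet hM hG hGG hHP
  have hDv := deviceLemma hM hG hGG hS levelCount geoDevice
  have hLH := linkH hC link2
  have hSS := stepSets hM hHB hHP hNS hDv hLH
  have hSG := stepGlue hHP
  have hIS := initState hM hTB hTS hLoc hHP hNS hLH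
  have hCg := closing hM hC
  have hBT := blobThm hM hTS hLoc hSS hSG hIS hCg ranges
  covThm hT hBT blobRestrict denseBip

end Pool.Agent.Lib.MP_b6048d_co.F
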