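import Pool.Agent.Lib.MP_b6048d_co.F.SpecC
import Pool.Agent.Lib.MP_b6048d_co.Nested

set_option autoImplicit false

/-!
# Section D of the full solution of MP_b6048d_co: blocks; interface of section E (colouring)

Every `Prop` is to be proved in its own file; the docstring is a complete proof. Statements proved
in other files may be used as HYPOTHESES.
-/

open scoped Classical

namespace Pool.Agent.Lib.MP_b6048d_co.F

variable {V : Type*}

/-- No shortest ear of an odd cycle of length at most `a` has a number of edges in `[a, b]`. -/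
def GapP (G : SimpleGraph V) (a b : ℕ) : Prop :=
  ∀ (Q : List V) (q₁ q₂ v : V) (l : List V), IsCyc G Q → Odd Q.length → Q.length ≤ a →
    MinEar G {z | z ∈ Q} q₁ q₂ v l → l.length ≤ a ∨ b + 2 ≤ l.length

/-- The block of `Q`: the vertices of `Q` and of its ears with less than `a` edges. -/
def XQ (G : SimpleGraph V) (a : ℕ) (Q : List V) : Set V :=
  {v | v ∈ Q ∨ ∃ q₁ q₂ l, Ear G {z | z ∈ Q} q₁ q₂ v l ∧ l.length ≤ a}

/-- A system of blocks: `odd`: short odd cycles are in blocks; `par`: two vertices of a block are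
joined inside it by paths of both parities with at most `3 a` edges; `one`: different blocks share
at most one vertex; `ear`: every path with distinct ends in a block, inner vertices outside the
block, and at least one inner vertex, has more than `g` edges. -/
structure Blocks (G : SimpleGraph V) (a g : ℕ) (XX : Set (Set V)) : Prop where
  odd : ∀ Q : List V, IsCyc G Q → Odd Q.length → Q.length ≤ a → ∃ X ∈ XX, ∀ z ∈ Q, z ∈ X
  par : ∀ X ∈ XX, ∀ u ∈ X, ∀ w ∈ X, u ≠ w →
    (∃ l, Pth G X u w l ∧ Even l.length ∧ l.length ≤ 3 * a + 1) ∧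
    (∃ l, Pth G X u w l ∧ Odd l.length ∧ l.length ≤ 3 * a + 1)
  one : ∀ X ∈ XX, ∀ X' ∈ XX, X ≠ X' → ∀ x, x ∈ X → x ∈ X' → ∀ y, y ∈ X → y ∈ X' → x = y
  ear : ∀ X ∈ XX, ∀ u ∈ X, ∀ w ∈ X, u ≠ w → ∀ l : List V, Pth G Set.univ u w l → 3 ≤ l.length →
    (∀ z ∈ l, z ∈ X → z = u ∨ z = w) → g + 1 < l.length
  ne : ∀ X ∈ XX, X.Nonempty

/-- **D01 TwoPaths** (pure). Two vertices of a block are joined to its cycle by two disjoint
short paths inside the block.
Proof. If `u` or `w` is in `Q`, or not: let `S_u` be `[u]` if `u ∈ Q` and otherwise an ear of `Q` through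
`u` with `|S_u| ≤ a` (as a list), with ends `q₁ ≠ q₂`; all vertices of `S_u` are in `XQ G a Q`; same
for `w`. Both in `Q`: trivial (`[u]`, `[w]`). `u ∈ Q`, `w ∉ Q`: one of the two ends of `S_w` is not
`u`; take `[u]` and the part of `S_w` from `w` to that end. (Symmetric if `w ∈ Q`.) Now let
`u, w ∉ Q`. If `w ∈ S_u`: `u` and `w` cut `S_u` into three parts; take the two outer ones. If
`w ∉ S_u`: follow `S_w` from `w` in both directions up to the first vertices `z₁ ≠ z₂` in
`S_u ∪ Q` (they exist since the ends of `S_w` are in `Q`; they are different because `S_w` is a path).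
If some `z_i ∈ Q`: take the part `w → z_i` of `S_w` and the part of `S_u` from `u` to an end of `S_u`
different from `z_i`; they are disjoint. Otherwise `z₁, z₂` are inner vertices of `S_u`; one of them,
say `z₁`, is not `u`; it lies on the side of `u` towards, say, `q₂`; take `w → z₁ → q₂` (first along
`S_w`, then along `S_u`) and `u → q₁` along `S_u`. All paths are inside `XQ G a Q`, meet `Q` only in
their last vertex, and have together at most `|S_u| + |S_w| ≤ 2a` vertices. -/
def TwoPaths : Prop := ∀ (V : Type) (G : SimpleGraph V) (a : ℕ) (Q : List V), IsCyc G Q →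
  Q.length ≤ a → ∀ u ∈ XQ G a Q, ∀ w ∈ XQ G a Q, u ≠ w →
  ∃ (q q' : V) (l l' : List V), q ∈ Q ∧ q' ∈ Q ∧ Pth G (XQ G a Q) u q l ∧
    Pth G (XQ G a Q) w q' l' ∧ List.Disjoint l l' ∧ (∀ z ∈ l, z ∈ Q → z = q) ∧
    (∀ z ∈ l', z ∈ Q → z = q') ∧ l.length + l'.length ≤ 2 * a

/-- **D02 BlockEar.** Ears of blocks are long.
Proof. Let `l` be a path from `u` to `w` as in the statement with `l.length ≤ b - 2a + 1`, i.e. at most
`b - 2a` edges, and let `v` be an inner vertex of `l`; `v ∉ XQ G a Q ⊇ Q`. With the two disjoint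
paths of `TwoPaths`: the first reversed (from `q` to `u`), then `l`, then the second (from `w` to
`q'`) concatenate to a path (they are inside the block, `l` is outside except for its ends): an ear
of `Q` through `v` with at most `2a + (b - 2a + 1) - 2 ≤ b` vertices, hence a shortest ear through
`v` has at most `b` vertices (take an ear with the least number of vertices), so by `GapP` at most
`a` vertices: `v ∈ XQ G a Q`, a contradiction. -/
def BlockEar : Prop := ∀ (V : Type) (G : SimpleGraph V) (a b : ℕ), GapP G a b → 2 * a ≤ b →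
  ∀ Q : List V, IsCyc G Q → Odd Q.length → Q.length ≤ a →
  ∀ u ∈ XQ G a Q, ∀ w ∈ XQ G a Q, u ≠ w → ∀ l : List V, Pth G Set.univ u w l → 3 ≤ l.length →
    (∀ z ∈ l, z ∈ XQ G a Q → z = u ∨ z = w) → b - 2 * a + 1 < l.length

/-- **D03 BlockPar.**
Proof. Take the disjoint paths `l : u → q`, `l' : w → q'` of `TwoPaths`, `q ≠ q'` (disjoint), and
the two arcs of `Q` from `q` to `q'` (`cyc_arcs`), whose numbers of edges have different parities
(`Q` is odd). `l`, arc, `l'` reversed: paths from `u` to `w` inside the block of both parities, with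
at most `2a + |Q| ≤ 3a` vertices. -/
def BlockPar : Prop := ∀ (V : Type) (G : SimpleGraph V) (a : ℕ) (Q : List V), IsCyc G Q →
  Odd Q.length → Q.length ≤ a → ∀ u ∈ XQ G a Q, ∀ w ∈ XQ G a Q, u ≠ w →
    (∃ l, Pth G (XQ G a Q) u w l ∧ Even l.length ∧ l.length ≤ 3 * a) ∧
    (∃ l, Pth G (XQ G a Q) u w l ∧ Odd l.length ∧ l.length ≤ 3 * a)

/-- **D04 BlockOne.** Two different blocks share at most one vertex.
Proof. Suppose `x ≠ y` are in both blocks. We show `XQ G a Q' ⊆ XQ G a Q`; by symmetry the blocks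
are equal. Let `X = XQ G a Q`.
Step 1: `Q' ⊆ X`. Take disjoint paths inside `XQ G a Q'` from `x` and `y` to `q ≠ q'` of `Q'`
(`TwoPaths`). Suppose `z ∈ Q'`, `z ∉ X`. If `z` is an inner vertex of one of the arcs of `Q'` between
`q`, `q'`, or `z ∈ {q, q'}`, there is an arc of `Q'` from `q` to `q'` through `z`. So there is a path
from `x` to `y` through `z`, with at most `2a + |Q'| ≤ 3a` vertices. Its maximal subpath around `z`
with inner vertices outside `X` (from the last vertex in `X` before `z` to the first one after `z`;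
`x, y ∈ X`) is a path as in `BlockEar` with at most `3a ≤ b - 2a + 1` vertices, a contradiction.
Step 2: let `v ∈ XQ G a Q' \ Q'`, on an ear of `Q'` with at most `a` vertices and ends in `Q' ⊆ X`. If
`v ∉ X` then the maximal subpath around `v` contradicts `BlockEar`. -/
def BlockOne : Prop := ∀ (V : Type) (G : SimpleGraph V) (a b : ℕ), GapP G a b → 5 * a ≤ b →
  ∀ Q Q' : List V, IsCyc G Q → Odd Q.length → Q.length ≤ a → IsCyc G Q' → Odd Q'.length →
  Q'.length ≤ a → XQ G a Q ≠ XQ G a Q' →
  ∀ x, x ∈ XQ G a Q → x ∈ XQ G a Q' → ∀ y, y ∈ XQ G a Q → y ∈ XQ G a Q' → x = y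

/-- **D05 BlocksExist.**
Proof. `XX` = the set of all `XQ G a Q`, `Q` an odd cycle with `|Q| ≤ a`; use `BlockEar`,
`BlockPar`, `BlockOne`. -/
def BlocksExist : Prop := ∀ (V : Type) (G : SimpleGraph V) (a b : ℕ), GapP G a b → 5 * a ≤ b →
  ∃ XX : Set (Set V), Blocks G a (b - 2 * a) XX

/-- **D06 BlobInside.** The blob of an edge of a block is inside the block, and small.
Proof. By `Blocks.par` there is a path in `X` from `u` to `w` with an odd number of vertices (an even
number of edges, at least 2), at most `3a + 1` vertices; closed by the edge `wu` it is an odd cycle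
with at most `3a + 1` vertices containing `u, w ∈ H`: `LongOdd` gives `lam^200 < 3a + 1`.
Suppose `z ∈ H \ X`. All sets with at most one element are thin (`κ ≥ 1`). The blob property with
`W = ∅` gives a path in `H` from `z` to `u` with at most `lam + 1` edges (a length in
`{lam, lam+1}` of the right parity; `lam + 1 ≤ lam^C`); cut at its first vertex `u'` in `X`: a path
from `z` to `u' ∈ X ∩ H` with inner vertices outside `X`. Let `t ∈ {u, w}`, `t ≠ u'`. The blob
property with `W = {u'}` gives a path from `z` to `t` in `H \ {u'}` with at most `lam + 1` edges; cut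
at its first vertex `u'' ∈ X`, `u'' ≠ u'`. The two paths together contain a path from `u'` to
`u''` with inner vertices outside `X`, at least one inner vertex (the first edge from `u'` goes to a
vertex outside `X`, since the union of the two walks has only `u'`, `u''` in `X` and `u'` occurs only
at the end of the first), and at most `2 lam + 2` edges, i.e. at most `2 lam + 3` vertices:
contradiction to `Blocks.ear`, as `2 lam + 3 ≤ g + 1`: from `lam^200 < 3a+1` and `lam ≥ 3` we get
`2 lam + 2 ≤ 3a + 1 ≤ g`. -/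
def BlobInside : Prop := ∀ (V : Type) (G Γ : SimpleGraph V) (XX : Set (Set V)) (a g : ℕ)
  (col : V → Bool) (H : Finset V) (κ C lam A R : ℕ), Blocks G a g XX → 3 * a + 1 ≤ g →
  1 ≤ A → Miss G A R → Γ ≤ G → 4 ≤ κ → 202 * A ≤ C → 3 ≤ lam → R ≤ lam → Blob κ C lam Γ col H →
  ∀ X ∈ XX, ∀ u ∈ X, ∀ w ∈ X, G.Adj u w → u ∈ H → w ∈ H →
  lam ^ 200 < 3 * a + 1 ∧ ∀ z ∈ H, z ∈ X

/-- **D07 GapToGapP.** From a missing length to the gap property.
Proof. Let `a = y / Δ + 1`, `b = y / 3` (natural division). Suppose a shortest ear `l` of an odd cycle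
`Q`, `|Q| ≤ a`, has `a < l.length ≤ b + 1`, so `p = l.length - 1` satisfies `a ≤ p ≤ b`; then
`|Q| + 1 ≤ l.length`, `p₀ ≤ l.length` by hypothesis (`p₀ ≤ a`), `3p ≤ y ≤ Δ p`, so the gap property
(conclusion of `GapLemma`, given here as hypothesis `hgap`) gives a cycle of length `y`. -/
def GapToGapP : Prop := ∀ (V : Type) (G : SimpleGraph V) (Δ p₀ y : ℕ), 3 ≤ Δ → Missing G y →
  p₀ ≤ y / Δ + 1 →
  (∀ (Q : List V) (q₁ q₂ v : V) (l : List V), IsCyc G Q → Odd Q.length →
    MinEar G {z | z ∈ Q} q₁ q₂ v l → Q.length + 1 ≤ l.length → p₀ ≤ l.length →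
    ∀ ℓ : ℕ, 3 * (l.length - 1) ≤ ℓ → ℓ ≤ Δ * (l.length - 1) → ∃ D, IsCyc G D ∧ D.length = ℓ) →
  GapP G (y / Δ + 1) (y / 3)

/-- **D08 MainSub.** The nested layers theorem (`main_list` of `Lib/MP_b6048d_co/Nested.lean`) for a
subgraph `F` of a ball of `G`.
Proof. Same as `main_list`, with `L.layer i` replaced by `F ⊓ L.layer i`: let `L` be a levelling of
`G` whose root function is `v₀` on the component of `v₀` and `Quot.out` on the others (see
`loc_two` in `Balls.lean`), so `L.lev x = dist v₀ x ≤ r` for all non-isolated vertices `x` of `F`.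
If all `F ⊓ L.layer i` were `2K`-colourable (`K = (25M²+30M+2)c`) then `F` would be
`4K`-colourable (levels modulo 2; prove a version of `Levelling.colorable` for subgraphs: edges of
`F` join levels differing by at most 1). So `F' = F ⊓ L.layer i` is not `2K`-colourable for some
`i`, and it has an edge, so `i ≤ r`. Take a levelling `L'` of `F'` (`exists_levelling'`) and `j` with
`L'.layer j` not `K`-colourable; `Loc (L'.layer j) ρ c` is inherited, so `circ_thm` gives a circle
`C` of `L'.layer j` longer than `ρ^M`. The theorem `all_lengths` holds with the same proof for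
`L' : Levelling F'`, `F' ≤ L.layer i` (it only uses that edges of `L'.layer j` are edges of
`L.layer i`). -/
def MainSub : Prop := ∀ (V : Type) (G F : SimpleGraph V) (v₀ : V) (r ρ c M : ℕ), F ≤ G →
  1000 * (16000 + (5 * M + 3)) ^ 4 ≤ ρ → 0 < c → (∀ x y, F.Adj x y → Wd G r v₀ x) →
  Loc F ρ c → ¬ F.Colorable (4 * ((25 * M ^ 2 + 30 * M + 2) * c)) →
  ∀ ℓ : ℕ, 2 * r + 1 ≤ ℓ → ℓ ≤ ρ ^ M → ∃ D, IsCyc G D ∧ D.length = ℓ

/-! ## Interface of section E -/

/-- Every precolouring of at most two vertices of a finite set inside a ball of radius `r` extends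
to a proper `K`-colouring of this set. -/
def Ext (G : SimpleGraph V) (K r : ℕ) : Prop :=
  ∀ (v₀ : V) (J : Finset V), (∀ x ∈ J, Wd G r v₀ x) → ∀ S : Finset V, S ⊆ J → S.card ≤ 2 →
    ∀ c : V → Fin K, (∀ x ∈ S, ∀ y ∈ S, G.Adj x y → c x ≠ c y) →
    ∃ c' : V → Fin K, (∀ x ∈ S, c' x = c x) ∧ PropOn G J c'

/-- Cells: pairwise disjoint finite vertex sets `Tc`, and a graph `Ce` (the cell edges) which is a
tree of diameter at most `10` on every cell; every cell meets every block of `I` in at most one
vertex. -/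
structure Cells (G : SimpleGraph V) (I : Finset (Set V)) (Tc : Finset (Finset V))
    (Ce : SimpleGraph V) : Prop where
  disj : ∀ T ∈ Tc, ∀ T' ∈ Tc, T ≠ T' → Disjoint T T'
  le : Ce ≤ G
  inside : ∀ u v, Ce.Adj u v → ∃ T ∈ Tc, u ∈ T ∧ v ∈ T
  acyc : ∀ Q, ¬ IsCyc Ce Q
  conn : ∀ T ∈ Tc, ∀ u ∈ T, ∀ v ∈ T, ∃ l, Pth Ce (T : Set V) u v l ∧ l.length ≤ 11
  one : ∀ T ∈ Tc, ∀ X ∈ I, ∀ u ∈ T, ∀ v ∈ T, u ∈ X → v ∈ X → u = v

/-- The failing structure produced by section E: a finite nonempty set `I` of blocks and cells such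
that every block of `I` meets at least three cells, every cell meets at least two blocks of `I`,
except for at most two cells, which meet at least one. -/
structure Fail (G : SimpleGraph V) (XX : Set (Set V)) (I : Finset (Set V))
    (Tc : Finset (Finset V)) (Ce : SimpleGraph V) : Prop where
  ne : I.Nonempty
  sub : ∀ X ∈ I, X ∈ XX
  cells : Cells G I Tc Ce
  deg3 : ∀ X ∈ I, 3 ≤ (Tc.filter (fun T => ∃ x ∈ T, x ∈ X)).card
  deg1 : ∀ T ∈ Tc, ∃ X ∈ I, ∃ x ∈ T, x ∈ X
  deg2 : (Tc.filter (fun T => (I.filter (fun X => ∃ x ∈ T, x ∈ X)).card < 2)).card ≤ 2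
  size : ∀ T ∈ Tc, T.card ≤ 10 * (I.filter (fun X => ∃ x ∈ T, x ∈ X)).card

/-- **E ColorThm** (main theorem of section E, written by helper71 in `SpecE.lean`). -/
def ColorThm : Prop := ∀ (V : Type) (G : SimpleGraph V) (XX : Set (Set V)) (a g K K₁ r : ℕ),
  Blocks G a g XX → 100 ≤ a → 100 * a ≤ g → 3 * a + 3 ≤ r → 2 + 2 * K₁ ≤ K →
  (∀ r' < r, Ext G K r') →
  (∀ (v₀ : V) (F : SimpleGraph V), F ≤ G → (∀ x y, F.Adj x y → Wd G r v₀ x) →
    (∀ Q, IsCyc F Q → Odd Q.length → a < Q.length) → F.Colorable K₁) →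
  ¬ Ext G K r →
  ∃ (I : Finset (Set V)) (Tc : Finset (Finset V)) (Ce : SimpleGraph V), Fail G XX I Tc Ce

end Pool.Agent.Lib.MP_b6048d_co.F
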