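import Pool.Agent.Lib.MP_b6048d_co.F.EDefs

set_option autoImplicit false

/-!
# Section E (part 1) of the full solution of MP_b6048d_co: the deletion process and the extension
of colourings

Every `Prop` is to be proved in its own file; the docstring is a complete proof. Statements proved
in other files may be used as HYPOTHESES. `Hv`, `Lt`, `Linked`, `Stage` are in `EDefs.lean`;
`Blocks`, `Ext`, `ColorThm` in `SpecD.lean`; `PropOn` in `Local.lean`; `Wd` in `Painter.lean`;
`IsCyc` in `Cyc.lean`; see also `wd_iff_wk` in `Base.lean`.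
Heavy means heavy with respect to the current set `W`; light edges are the edges of `Lt`.
-/

open scoped Classical

namespace Pool.Agent.Lib.MP_b6048d_co.F

variable {V : Type*}

/-- The set of linked vertices of the block `X`. -/
noncomputable def LkS (G : SimpleGraph V) (XX : Set (Set V)) (a : ℕ) (W S : Finset V)
    (X : Set V) : Finset V :=
  W.filter (fun p => Linked G XX a W S X p)

/-- Delete from `W` the vertices of the block `X` which are not linked. -/
noncomputable def Del (G : SimpleGraph V) (XX : Set (Set V)) (a : ℕ) (W S : Finset V)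
    (X : Set V) : Finset V :=
  W.filter (fun p => p ∉ X ∨ Linked G XX a W S X p)

/-- A palette: an injective family of colours not used by `c` on `S`. -/
structure Pal {K K₁ : ℕ} (S : Finset V) (c : V → Fin K) (pal : Fin K₁ → Bool → Fin K) :
    Prop where
  inj : ∀ i i' b b', pal i b = pal i' b' → i = i' ∧ b = b'
  out : ∀ i b, ∀ s ∈ S, pal i b ≠ c s

/-- The invariant: `c'` extends the precolouring, is proper on `W`, and every vertex outside `S`
which is in no heavy block has one of the two colours of its class. -/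
structure Inv {K K₁ : ℕ} (G : SimpleGraph V) (XX : Set (Set V)) (a : ℕ) (S : Finset V)
    (c : V → Fin K) (pal : Fin K₁ → Bool → Fin K) (ψ : V → Fin K₁) (W : Finset V)
    (c' : V → Fin K) : Prop where
  ext : ∀ s ∈ S, c' s = c s
  prop : PropOn G W c'
  free : ∀ v ∈ W, v ∉ S → (∀ X ∈ XX, Hv G a W X → v ∉ X) → ∃ b, c' v = pal (ψ v) b

/-- There is a graph `F` containing the light edges of `W`, without short odd cycles, such that
every proper colouring `ψ` of `F` gives a colouring `c'` of `W` as in `Inv`. -/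
def GoodW (G : SimpleGraph V) (XX : Set (Set V)) (a K K₁ : ℕ) (S : Finset V) (c : V → Fin K)
    (W : Finset V) : Prop :=
  ∃ F : SimpleGraph V, F ≤ G ∧ Lt G XX a W ≤ F ∧ (∀ x y, F.Adj x y → x ∈ W ∧ y ∈ W) ∧
    (∀ Q, IsCyc F Q → Odd Q.length → a < Q.length) ∧
    ∀ (pal : Fin K₁ → Bool → Fin K) (ψ : V → Fin K₁), Pal S c pal →
      (∀ x y, F.Adj x y → ψ x ≠ ψ y) → ∃ c', Inv G XX a S c pal ψ W c'

/-- **E01 PalExists** (pure). A palette exists.
Proof. The set `univ \ S.image c` has at least `K - 2 ≥ 2 K₁ = card (Fin K₁ × Bool)` elements, so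
there is an injection of `Fin K₁ × Bool` into it. -/
def PalExists : Prop := ∀ (V : Type) (K K₁ : ℕ) (S : Finset V) (c : V → Fin K), S.card ≤ 2 →
  2 + 2 * K₁ ≤ K → ∃ pal : Fin K₁ → Bool → Fin K, Pal S c pal

/-- **E02 BlockBall.** A block is inside the ball of radius `3 a` around any of its vertices.
Proof. If `u = x` take the trivial walk. Otherwise `Blocks.par` gives a path from `u` to `x` in `X`
with at most `3 a + 1` vertices; use `wd_iff_wk` (and `Wk.mono` to `Set.univ`). -/
def BlockBall : Prop := ∀ (V : Type) (G : SimpleGraph V) (XX : Set (Set V)) (a g : ℕ),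
  Blocks G a g XX → ∀ X ∈ XX, ∀ u ∈ X, ∀ x ∈ X, Wd G (3 * a) u x

/-- **E03 NbrFacts.** The neighbours outside `X` of an unlinked vertex `p` of a block `X`.
Proof. The edge `pq` is light: a heavy block `X'` containing `p` and `q` is different from `X` since
`q ∉ X`, and then `p` would be linked (`p ∈ X'`, `p ∈ W`, `Wd _ 2 p p` by the trivial walk). So
`(Lt G XX a W).Adj p q`. (1) If `q ∈ S` then `p` is linked by `Wd _ 1 p q`. (2) If `q ∈ X'` with `X'`
heavy then `X' ≠ X` and `p` is linked by `Wd _ 2 p q`. (3) If `p' ≠ p` is another neighbour of `q` in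
`X` then `[p, q, p']` is a path with distinct ends in `X`, with 3 vertices, and its only inner
vertex `q` is not in `X`: `Blocks.ear` gives `g + 1 < 3`, a contradiction. (4) Let `y ∈ W`, `y ∉ X` be
adjacent to `q`. The edge `yq` is light because `q` is in no heavy block, by (2). If `y ∈ X'` with `X'`
heavy then `X' ≠ X` since `y ∉ X`, and `p - q - y` is a walk of length 2 in `Lt`, so `p` is linked, a
contradiction. -/
def NbrFacts : Prop := ∀ (V : Type) (G : SimpleGraph V) (XX : Set (Set V)) (a g : ℕ)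
  (W S : Finset V) (X : Set V) (p q : V), Blocks G a g XX → 2 ≤ g → X ∈ XX → p ∈ X → p ∈ W →
  ¬ Linked G XX a W S X p → q ∈ W → q ∉ X → G.Adj p q →
  q ∉ S ∧ (∀ X' ∈ XX, Hv G a W X' → q ∉ X') ∧ (∀ p' ∈ X, G.Adj p' q → p' = p) ∧
  ∀ y ∈ W, y ∉ X → G.Adj y q →
    (Lt G XX a W).Adj y q ∧ ∀ X' ∈ XX, Hv G a W X' → y ∉ X'

/-- **E04 ColStep.** From `Del W` back to `W`.
Hypotheses `hNbr : NbrFacts`, `hBall : BlockBall`.
Proof. Write `W'' = Del G XX a W S X ⊆ W` and `L = LkS G XX a W S X`; then `L ⊆ W''`, and an element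
of `W''` in `X` is in `L`. Elements of `S ∩ X` are in `L` (`Wd _ 1 s s`). Heavy with respect to `W''`
implies heavy with respect to `W`, so: if `v` is in no heavy block with respect to `W`, it is in no
heavy block with respect to `W''` (*). Let `J₀ = W.filter (· ∈ X)`. It contains a vertex `v₀` (`X` is
heavy and a cycle has a vertex), so by `hBall` it is in the ball of radius `3 a` around `v₀`.
`Ext G K (3 * a)` with `v₀`, `J₀`, `L ⊆ J₀`, `|L| ≤ 2` and the colouring `c''` (proper on `L ⊆ W''`)
gives `d` with `d = c''` on `L` and `PropOn G J₀ d`. Let `R v` be the statement: there is `p ∈ J₀`,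
`p ∉ L`, with `G.Adj p v` and `d p = c'' v`. Define `c' v = d v` if `v ∈ X`; if `v ∉ X` and `R v`:
`c' v = pal (ψ v) false` if `c'' v = pal (ψ v) true` and `c' v = pal (ψ v) true` otherwise; if
`v ∉ X` and not `R v`: `c' v = c'' v`.
`ext`: let `s ∈ S`. If `s ∈ X` then `s ∈ L` and `c' s = d s = c'' s = c s`. If `s ∉ X` then `R s` is
false, since by `NbrFacts` a neighbour in `W`, outside `X`, of an unlinked `p` is not in `S`; so
`c' s = c'' s = c s`.
`free`: let `v ∈ W`, `v ∉ S` be in no heavy block with respect to `W`. Then `v ∉ X`, so `v ∈ W''`,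
and `c' v` is one of `pal (ψ v) true`, `pal (ψ v) false`, `c'' v`; the last one is `pal (ψ v) b` for
some `b` by `Inv.free` of `c''` and (*).
`prop`: let `x, y ∈ W` be adjacent. (a) Both in `X`: `PropOn G J₀ d`. (b) `x ∈ X`, `y ∉ X` (and the
symmetric case): suppose first that `R y`, by `p`. Then by `NbrFacts` (for `p`, `y`) `x = p`, so
`d x = c'' y`; also `y ∉ S` and `y` is in no heavy block with respect to `W`, so by `Inv.free` and (*)
`c'' y = pal (ψ y) b`, and `c' y = pal (ψ y) (!b) ≠ pal (ψ y) b = d x` (`Pal.inj`). Suppose now that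
`R y` is false, so `c' y = c'' y`. If `x ∈ L` then `c' x = d x = c'' x ≠ c'' y` since `x, y ∈ W''`.
If `x ∉ L` then `d x ≠ c'' y` since `R y` is false. (c) `x, y ∉ X`: both are in `W''` and
`c'' x ≠ c'' y`. If neither `R x` nor `R y`: done. Otherwise, by symmetry, let `R x`, by `p`.
`NbrFacts` for `p`, `x` gives (applied to `y`) that `xy` is a light edge, hence `ψ x ≠ ψ y`, and
that `y` is in no heavy block with respect to `W`. `c' x = pal (ψ x) b` for some `b`. If `y ∈ S` then
`c' y = c y` by `ext`, and this is not `pal (ψ x) b` by `Pal.out`. If `y ∉ S` then by `free`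
`c' y = pal (ψ y) b'` for some `b'`, which is not `pal (ψ x) b` by `Pal.inj` and `ψ x ≠ ψ y`. -/
def ColStep : Prop := NbrFacts → BlockBall →
  ∀ (V : Type) (G : SimpleGraph V) (XX : Set (Set V)) (a g K K₁ : ℕ)
  (W S : Finset V) (X : Set V) (c c'' : V → Fin K) (pal : Fin K₁ → Bool → Fin K)
  (ψ : V → Fin K₁), Blocks G a g XX → 2 ≤ g → Ext G K (3 * a) → X ∈ XX → Hv G a W X → S ⊆ W →
  (LkS G XX a W S X).card ≤ 2 → Pal S c pal → (∀ x y, (Lt G XX a W).Adj x y → ψ x ≠ ψ y) →
  Inv G XX a S c pal ψ (Del G XX a W S X) c'' → ∃ c', Inv G XX a S c pal ψ W c'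

/-- The statement of `ColStep` without its hypotheses. -/
def ColStep' : Prop := ∀ (V : Type) (G : SimpleGraph V) (XX : Set (Set V)) (a g K K₁ : ℕ)
  (W S : Finset V) (X : Set V) (c c'' : V → Fin K) (pal : Fin K₁ → Bool → Fin K)
  (ψ : V → Fin K₁), Blocks G a g XX → 2 ≤ g → Ext G K (3 * a) → X ∈ XX → Hv G a W X → S ⊆ W →
  (LkS G XX a W S X).card ≤ 2 → Pal S c pal → (∀ x y, (Lt G XX a W).Adj x y → ψ x ≠ ψ y) →
  Inv G XX a S c pal ψ (Del G XX a W S X) c'' → ∃ c', Inv G XX a S c pal ψ W c'

/-- **E05 ColBase.** The case without heavy blocks.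
Proof. Take `F = Lt G XX a W`; as there is no heavy block, its edges are exactly the edges of `G`
inside `W`. An odd cycle `Q` of `F` with `|Q| ≤ a` is a cycle of `G`, so by `Blocks.odd` it is
contained in some `X ∈ XX`; every vertex of `Q` is an end of an edge of `F` (the next or the previous
vertex on the cycle), so it is in `W`; so `X` is heavy, a contradiction. Given `pal`, `ψ` take
`c' v = c v` for `v ∈ S` and `c' v = pal (ψ v) true` otherwise. `prop`: for adjacent `x, y ∈ W`, both
in `S`: hypothesis on `c`; exactly one in `S`: `Pal.out`; none in `S`: `F.Adj x y`, so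
`ψ x ≠ ψ y`, and `Pal.inj`. -/
def ColBase : Prop := ∀ (V : Type) (G : SimpleGraph V) (XX : Set (Set V)) (a g K K₁ : ℕ)
  (W S : Finset V) (c : V → Fin K), Blocks G a g XX →
  (∀ x ∈ S, ∀ y ∈ S, G.Adj x y → c x ≠ c y) → (∀ X ∈ XX, ¬ Hv G a W X) →
  GoodW G XX a K K₁ S c W

/-- **E06 ColUp.** The induction step.
Hypothesis `hS : ColStep'`.
Proof. Let `F'` be the graph of `GoodW` for `Del W` and `F = F' ⊔ Lt G XX a W`. Its edges are inside
`W` (`Del W ⊆ W`). Let `Q` be an odd cycle of `F` with `|Q| ≤ a`. It is a cycle of `G`, so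
`Q ⊆ X' ∈ XX` by `Blocks.odd`; its vertices are in `W` (ends of edges of `F`), so `X'` is heavy, so
no edge with both ends in `X'` is in `Lt G XX a W`; so all edges of `Q` are in `F'` (for the chain:
a chain of `F` all of whose elements are in `X'` is a chain of `F'`), and `Q` is a cycle of `F'`,
contradiction. Given `pal`, `ψ` with `ψ` proper on `F`: it is proper on `F'`, so there is `c''` with
`Inv … (Del W) c''`, and proper on `Lt G XX a W`, so `ColStep'` applies. -/
def ColUp : Prop := ColStep' →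
  ∀ (V : Type) (G : SimpleGraph V) (XX : Set (Set V)) (a g K K₁ : ℕ)
  (W S : Finset V) (X : Set V) (c : V → Fin K), Blocks G a g XX → 2 ≤ g → Ext G K (3 * a) →
  X ∈ XX → Hv G a W X → S ⊆ W → (LkS G XX a W S X).card ≤ 2 →
  GoodW G XX a K K₁ S c (Del G XX a W S X) → GoodW G XX a K K₁ S c W

/-- The statement of `ColUp` without its hypotheses. -/
def ColUp' : Prop := ∀ (V : Type) (G : SimpleGraph V) (XX : Set (Set V)) (a g K K₁ : ℕ)
  (W S : Finset V) (X : Set V) (c : V → Fin K), Blocks G a g XX → 2 ≤ g → Ext G K (3 * a) →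
  X ∈ XX → Hv G a W X → S ⊆ W → (LkS G XX a W S X).card ≤ 2 →
  GoodW G XX a K K₁ S c (Del G XX a W S X) → GoodW G XX a K K₁ S c W

/-- **E07 Process.** The deletion process.
Hypotheses `hBase : ColBase`, `hUp : ColUp'`.
Proof. Strong induction on `W.card`. If there is no heavy block: `ColBase` (the hypothesis on `c`).
Otherwise, since `¬ Stage G XX a S W`, there is a heavy block `X ∈ XX` without three distinct linked
vertices, so `(LkS G XX a W S X).card ≤ 2` (otherwise `Finset.two_lt_card` gives three distinct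
ones). `W'' = Del G XX a W S X` satisfies: `W'' ⊆ W`; `S ⊆ W''` (an `s ∈ S ∩ X` is linked by
`Wd _ 1 s s`); `W'' ≠ W`, because the odd cycle `Q` of `Hv` has at least three different vertices,
all in `W ∩ X` (`IsCyc.len`, `IsCyc.nodup`, `List.toFinset_card_of_nodup`), so one of them is not in
`LkS`, hence not in `W''`. So `W''.card < W.card`, and every `W' ⊆ W''` with `S ⊆ W'` is not a
`Stage`; by induction `GoodW` holds for `W''`, and by `ColUp'` for `W`. -/
def Process : Prop := ColBase → ColUp' →
  ∀ (V : Type) (G : SimpleGraph V) (XX : Set (Set V)) (a g K K₁ : ℕ)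
  (S : Finset V) (c : V → Fin K), Blocks G a g XX → 2 ≤ g → Ext G K (3 * a) →
  (∀ x ∈ S, ∀ y ∈ S, G.Adj x y → c x ≠ c y) → ∀ W : Finset V, S ⊆ W →
  (∀ W' : Finset V, W' ⊆ W → S ⊆ W' → ¬ Stage G XX a S W') → GoodW G XX a K K₁ S c W

/-- The statement of `Process` without its hypotheses. -/
def Process' : Prop := ∀ (V : Type) (G : SimpleGraph V) (XX : Set (Set V)) (a g K K₁ : ℕ)
  (S : Finset V) (c : V → Fin K), Blocks G a g XX → 2 ≤ g → Ext G K (3 * a) →
  (∀ x ∈ S, ∀ y ∈ S, G.Adj x y → c x ≠ c y) → ∀ W : Finset V, S ⊆ W →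
  (∀ W' : Finset V, W' ⊆ W → S ⊆ W' → ¬ Stage G XX a S W') → GoodW G XX a K K₁ S c W

/-- The conclusion of part 1: a final stage exists. -/
def StageExists : Prop := ∀ (V : Type) (G : SimpleGraph V) (XX : Set (Set V)) (a g K K₁ r : ℕ),
  Blocks G a g XX → 2 ≤ g → 3 * a < r → 2 + 2 * K₁ ≤ K → (∀ r' < r, Ext G K r') →
  (∀ (v₀ : V) (F : SimpleGraph V), F ≤ G → (∀ x y, F.Adj x y → Wd G r v₀ x) →
    (∀ Q, IsCyc F Q → Odd Q.length → a < Q.length) → F.Colorable K₁) →
  ¬ Ext G K r →
  ∃ S W : Finset V, S.card ≤ 2 ∧ S ⊆ W ∧ Stage G XX a S W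

/-- **E08 StageProc.** Part 1 of section E.
Proof. `¬ Ext G K r` gives `v₀`, `J` in the ball of radius `r` around `v₀`, `S ⊆ J`, `|S| ≤ 2`, and
`c`, proper on `S`, such that no `c'` agrees with `c` on `S` and is proper on `J`. Suppose that there
is no `W` with `S ⊆ W` and `Stage G XX a S W`. By `Process'` (`Ext G K (3 * a)` since `3 a < r`)
`GoodW G XX a K K₁ S c J`: let `F` be its graph. If `F.Adj x y` then `x ∈ J`, so `Wd G r v₀ x`; by the
colouring hypothesis `F` is `K₁`-colourable: `ψ : V → Fin K₁` proper on `F`. Take `pal` from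
`PalExists`. The resulting `c'` with `Inv … J c'` agrees with `c` on `S` (`Inv.ext`) and is proper on
`J` (`Inv.prop`), a contradiction. -/
def StageProc : Prop := PalExists → Process' → StageExists

end Pool.Agent.Lib.MP_b6048d_co.F
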