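import Pool.Agent.Lib.MP_b6048d_co.F.GrowthDef

set_option autoImplicit false

/-!
# Section F of the full solution of MP_b6048d_co: growth

Every `Prop` is to be proved in its own file; the docstring is a complete proof. Statements proved
in other files may be used as HYPOTHESES.

Overview. The blocks of the failing structure are replaced by their breadth first search trees, which
together with the cells form a graph `Y` (`Web`) of girth larger than `g`. Take a minimal dense set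
`H` of `Y` for the density `mu s`, `s = 10^6 a`, `n = |H|`, `ell = log (n/s + 3)`. It contains cycles of
all scales between `100 s ell^3` and `n/(1000 ell^4)`; every such cycle `Z` is touched by few blocks
more than once, and detours inside the blobs of its edges give all cycle lengths in `[2|Z|, 5|Z|]`.
-/

open scoped Classical

namespace Pool.Agent.Lib.MP_b6048d_co.F

variable {V : Type*}

/-! ## Definitions -/

/-- The tree graph given by a parent function. -/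
def TGr (X : Set V) (rt : V) (par : V → V) : SimpleGraph V :=
  SimpleGraph.fromRel (fun u v => u ∈ X ∧ u ≠ rt ∧ par u = v)

/-- `lv`, `par` are level and parent functions of a breadth first search tree of `G[X]` with root
`rt` and depth at most `d`. -/
structure BT (G : SimpleGraph V) (X : Set V) (d : ℕ) (rt : V) (lv : V → ℕ) (par : V → V) :
    Prop where
  rt_mem : rt ∈ X
  rt_lv : lv rt = 0
  par : ∀ v ∈ X, v ≠ rt → par v ∈ X ∧ G.Adj (par v) v ∧ lv v = lv (par v) + 1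
  lip : ∀ u ∈ X, ∀ v ∈ X, G.Adj u v → lv u ≤ lv v + 1
  dep : ∀ v ∈ X, lv v ≤ d

/-- The web `Y`: the union of the cell edges and of the trees of the blocks of `I`. -/
structure Web (G : SimpleGraph V) (a g : ℕ) (XX : Set (Set V)) (I : Finset (Set V))
    (Tc : Finset (Finset V)) (Ce : SimpleGraph V) (rt : Set V → V) (lv : Set V → V → ℕ)
    (par : Set V → V → V) (Y : SimpleGraph V) : Prop where
  blocks : Blocks G a g XX
  sub : ∀ X ∈ I, X ∈ XX
  cells : Cells G I Tc Ce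
  bt : ∀ X ∈ I, BT G X (3 * a) (rt X) (lv X) (par X)
  adj : ∀ u v, Y.Adj u v ↔ Ce.Adj u v ∨ ∃ X ∈ I, (TGr X (rt X) (par X)).Adj u v

/-- A cycle with `n` vertices as a periodic sequence. -/
structure CycF (Y : SimpleGraph V) (n : ℕ) (z : ℕ → V) : Prop where
  three : 3 ≤ n
  per : ∀ k, z (k + n) = z k
  inj : ∀ i < n, ∀ j < n, z i = z j → i = j
  adj : ∀ k, Y.Adj (z k) (z (k + 1))

/-- The arc `z i, z (i+1), ..., z (i+m)`. -/
def arcL (z : ℕ → V) (i m : ℕ) : List V := (List.range (m + 1)).map (fun t => z (i + t))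

/-- Indices of the vertices of the cycle in `X`. -/
noncomputable def VX (n : ℕ) (z : ℕ → V) (X : Set V) : Finset ℕ :=
  (Finset.range n).filter (fun k => z k ∈ X)

/-- Indices of the edges of the cycle in the tree of `X`. -/
noncomputable def EX (n : ℕ) (z : ℕ → V) (T : SimpleGraph V) : Finset ℕ :=
  (Finset.range n).filter (fun k => T.Adj (z k) (z (k + 1)))

/-- The blocks with at least one edge on the cycle. -/
noncomputable def Used (I : Finset (Set V)) (rt : Set V → V) (par : Set V → V → V) (n : ℕ)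
    (z : ℕ → V) : Finset (Set V) :=
  I.filter (fun X => (EX n z (TGr X (rt X) (par X))).Nonempty)

/-- The density function of the growth section. -/
noncomputable def mu (s : ℝ) (x : ℕ) : ℝ := 1 + (1 / s) * (2 - 1 / Real.log ((x : ℝ) / s + 3))

/-- The setting of the growth lemmas. -/
structure GS (Y : SimpleGraph V) (s : ℕ) (H : Finset V) (ell : ℝ) : Prop where
  minD : MinD Y (mu s) H
  s_pos : 10 ≤ s
  ell_def : ell = Real.log ((H.card : ℝ) / s + 3)
  big : 1000 ≤ ell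
  nbig : 10 ^ 6 * (s : ℝ) * ell ^ 8 ≤ H.card

/-- A cycle `P₀ ∪ L` with many clean edges. `P₀` is its arc in the block `X₀`, `L` the rest (a path
between the same ends). `Kc` is a set of edge indices of `L`; the edge of index `k` is in the block
`Xk k`, whose levels contain at most two vertices of the cycle, and two of these blocks (also `X₀`)
share no vertex outside the cycle. -/
structure Clean (G : SimpleGraph V) (a : ℕ) (I : Finset (Set V)) (lv : Set V → V → ℕ) (n : ℕ)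
    (P₀ L : List V) (u₀ w₀ : V) (X₀ : Set V) (Kc : Finset ℕ) (Xk : ℕ → Set V) : Prop where
  X0I : X₀ ∈ I
  ne : u₀ ≠ w₀
  pthP : Pth G X₀ u₀ w₀ P₀
  pthL : Pth G Set.univ u₀ w₀ L
  meet : ∀ x ∈ L, x ∈ X₀ → x = u₀ ∨ x = w₀
  len : P₀.length + L.length = n + 2
  P0len : P₀.length ≤ 6 * a + 1
  idx : ∀ k ∈ Kc, Xk k ∈ I ∧ Xk k ≠ X₀
  edge : ∀ k ∈ Kc, ∃ x y, L[k]? = some x ∧ L[k + 1]? = some y ∧ x ∈ Xk k ∧ y ∈ Xk k
  lev : ∀ k ∈ Kc, ∀ j : ℕ, ((L.toFinset ∪ P₀.toFinset).filter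
    (fun x => x ∈ Xk k ∧ lv (Xk k) x = j)).card ≤ 2
  shared : ∀ k ∈ Kc, ∀ k' ∈ Kc, Xk k ≠ Xk k' → ∀ w, w ∈ Xk k → w ∈ Xk k' → w ∈ L ∨ w ∈ P₀
  shared0 : ∀ k ∈ Kc, ∀ w, w ∈ Xk k → w ∈ X₀ → w ∈ L ∨ w ∈ P₀
  sep : ∀ k ∈ Kc, ∀ k' ∈ Kc, k < k' → k + 2 ≤ k'
  many : n ≤ 30 * Kc.card

/-! ## The web -/

/-- **F00 CycConv** (pure). Cycles as lists and as periodic sequences.
Proof. (1) `z k = Q[k % Q.length]`; see `cyc_fun` in `Nested.lean` for a similar construction over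
`ℤ`. (2) The entries `z i, ..., z (i+m)`, `m < n`, are distinct: `z (i+t) = z (i+t')` with
`t < t' ≤ m < n` would give `i+t ≡ i+t' mod n`. (3) Rotation of the starting point. -/
def CycConv : Prop :=
  (∀ (V : Type) (Y : SimpleGraph V) (Q : List V), IsCyc Y Q →
    ∃ z : ℕ → V, CycF Y Q.length z ∧ ∀ x, x ∈ Q ↔ ∃ k < Q.length, z k = x) ∧
  (∀ (V : Type) (Y : SimpleGraph V) (n : ℕ) (z : ℕ → V), CycF Y n z → ∀ i m : ℕ, m < n →
    Pth Y Set.univ (z i) (z (i + m)) (arcL z i m)) ∧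
  (∀ (V : Type) (Y : SimpleGraph V) (n : ℕ) (z : ℕ → V), CycF Y n z → ∀ i : ℕ,
    CycF Y n (fun k => z (i + k)) ∧ (∀ k, ∃ j < n, z k = z (i + j)) ∧
    (∀ j j' : ℕ, z j = z j' ↔ j % n = j' % n))

/-- **F01 TreeFacts** (pure). Paths in a rooted tree.
Proof. (1) is clear from the definition (`lv` of the two ends of an edge of `TGr` differ by exactly
one). Note: the only neighbour of `v` in `TGr` with smaller level is `par v` (`v ≠ rt`).
(2) A vertex of largest level of a cycle would have two different neighbours of smaller level.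
(3) Induction on the level: `v` is joined to `rt` by the chain of its parents.
(4) Consecutive levels on the path differ by exactly one, and no inner vertex has both neighbours on
the path of smaller level (both would be its parent, but the path has no repetition). So the
sequence of levels first decreases and then increases; every value occurs at most twice, and all
values are at most `d`. (For `u = w` the path is `[u]`.) -/
def TreeFacts : Prop := ∀ (V : Type) (G : SimpleGraph V) (X : Set V) (d : ℕ) (rt : V)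
  (lv : V → ℕ) (par : V → V), BT G X d rt lv par →
  (TGr X rt par ≤ G ∧ ∀ u v, (TGr X rt par).Adj u v →
    u ∈ X ∧ v ∈ X ∧ (lv u = lv v + 1 ∨ lv v = lv u + 1)) ∧
  (∀ Q, ¬ IsCyc (TGr X rt par) Q) ∧
  (∀ u ∈ X, ∀ w ∈ X, ∃ l, Pth (TGr X rt par) X u w l ∧ l.length ≤ 2 * d + 1) ∧
  (∀ (u w : V) (l : List V), Pth (TGr X rt par) Set.univ u w l →
    (∀ j, (l.toFinset.filter (fun x => lv x = j)).card ≤ 2) ∧ l.length ≤ 2 * d + 1)

/-- **F02 WebExists.**
Proof. For `X ∈ I` choose `rt X ∈ X` (`Blocks.ne`), let `lv X v` be the least number of edges of a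
walk inside `X` from `rt X` to `v` (`v ∈ X`; it exists and is at most `3a` by `Blocks.par`), and
`par X v` the vertex before `v` on such a walk. `Y` is the union of `Ce` and of the `TGr`. -/
def WebExists : Prop := ∀ (V : Type) (G : SimpleGraph V) (XX : Set (Set V)) (a g : ℕ)
  (I : Finset (Set V)) (Tc : Finset (Finset V)) (Ce : SimpleGraph V), Blocks G a g XX →
  Fail G XX I Tc Ce → ∃ (rt : Set V → V) (lv : Set V → V → ℕ) (par : Set V → V → V)
    (Y : SimpleGraph V), Web G a g XX I Tc Ce rt lv par Y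

/-- **F03 WebGirth.** All cycles of the web are longer than `g`.
Proof. Let `Q` be a cycle of `Y`. If all its edges are in `Ce`: contradiction to `Cells.acyc`.
Otherwise it has an edge in `TGr X` for some `X ∈ I`, so at least two vertices in `X`. If all vertices
of `Q` are in `X`, then all its edges are in `TGr X`: an edge of `TGr X'`, `X' ≠ X`, has two different
ends in `X'`, not both in `X` (`Blocks.one`); an edge of `Ce` has two different ends in one cell, not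
both in `X` (`Cells.one`). This contradicts `TreeFacts` (2). So there is `v ∈ Q` outside `X`; going
from `v` along `Q` in both directions to the first vertices `x`, `y` in `X`, we have `x ≠ y` as `Q` has
at least two vertices in `X`. The arc from `x` to `y` through `v` is a path of `G` with inner vertices
outside `X`, so `Blocks.ear` gives `g + 1 <` its number of vertices `≤ |Q|`. -/
def WebGirth : Prop := ∀ (V : Type) (G : SimpleGraph V) (XX : Set (Set V)) (a g : ℕ)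
  (I : Finset (Set V)) (Tc : Finset (Finset V)) (Ce : SimpleGraph V) (rt : Set V → V)
  (lv : Set V → V → ℕ) (par : Set V → V → V) (Y : SimpleGraph V),
  Web G a g XX I Tc Ce rt lv par Y → Y ≤ G ∧ ∀ Q, IsCyc Y Q → g < Q.length

/-- **F04 CycleIn** (pure). A finite set with as many edges as vertices contains a cycle.
Proof. Take a smallest nonempty subset `B` with `|B| ≤ ed Y B`. Every vertex of `B` has at least two
neighbours in `B` (otherwise remove it; `B` has at least two elements since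
`ed = 0` for one element). A longest path in `B` has an end all of whose neighbours are on the
path; the farthest one closes a cycle of length at least 3. -/
def CycleIn : Prop := ∀ (V : Type) (Y : SimpleGraph V) (A : Finset V), A.Nonempty →
  (A.card : ℝ) ≤ ed Y A → ∃ Q, IsCyc Y Q ∧ (∀ x ∈ Q, x ∈ A) ∧ Q.length ≤ A.card

/-- **F05 IncToDense.** The failing structure contains a dense finite part.
Proof. Call `(X, T) ∈ I × Tc` incident if `T` meets `X`, in exactly one vertex `p(X,T)`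
(`Cells.one`); let `inc` be the number of incident pairs. For `X ∈ I` let `A_X` be the set consisting
of `rt X`, the `p(X,T)` and all their ancestors in the tree of `X`: `|A_X| ≤ 1 + 3a·deg X`, where
`deg X` is the number of cells incident with `X`; the vertices `≠ rt X` of `A_X` have their parents
in `A_X`, so `TGr X` has at least `|A_X| - 1` edges inside `A_X`. `Ce` has at least `|T| - 1` edges
inside each `T ∈ Tc` (it is connected there). All these edges are different (edges of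
`TGr X`, `TGr X'` by `Blocks.one`; cell edges by `Cells.disj`, `Cells.one`). Let
`A = ⋃ A_X ∪ ⋃ T`. The ports `p(X,T)` of one `X` are distinct (the cells are disjoint), so
`|A| ≤ ∑_T |T| + ∑_X |A_X \ ⋃ T| ≤ ∑_T |T| + ∑_X (|A_X| - deg X) = ∑_T |T| + ∑_X |A_X| - inc`.
Hence `ed Y A - |A| ≥ inc - |I| - |Tc|` (*).
`inc ≥ 3|I|` (`deg3`), and `inc ≥ 2|Tc| - 2` (`deg1`, `deg2`). Adding: `2 inc ≥ 3|I| + 2|Tc| - 2`, so
`inc - |I| - |Tc| ≥ |I|/2 - 1 ≥ -1/2`, hence `≥ 0` (an integer). Also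
`inc - |I| - |Tc| ≥ inc - inc/3 - (inc+2)/2 = inc/6 - 1`. By `size`,
`|A| ≤ |I| + 3a·inc + 10·inc ≤ (3a + 11) inc`.
If `inc < 84` then `|A| ≤ 84(3a+11) ≤ g` and `ed Y A ≥ |A|`: `CycleIn` gives a cycle with at most
`|A| ≤ g` vertices, contrary to `WebGirth`. So `inc ≥ 84`,
`ed Y A - |A| ≥ inc/6 - 1 ≥ (13/84) inc ≥ (13/84) |A|/(3a+11) ≥ |A|/(22a)` for `a ≥ 100`. -/
def IncToDense : Prop := ∀ (V : Type) (G : SimpleGraph V) (XX : Set (Set V)) (a g : ℕ)
  (I : Finset (Set V)) (Tc : Finset (Finset V)) (Ce : SimpleGraph V) (rt : Set V → V)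
  (lv : Set V → V → ℕ) (par : Set V → V → V) (Y : SimpleGraph V),
  Web G a g XX I Tc Ce rt lv par Y → Fail G XX I Tc Ce → 100 ≤ a → 1000 * a ≤ g →
  ∃ A : Finset V, A.Nonempty ∧ (1 + 1 / (22 * (a : ℝ))) * A.card ≤ ed Y A

/-! ## Minimal dense sets of the web -/

/-- **F06 MuFacts** (numerical).
Proof. `log (x/s+3) ≥ log 3 > 1`: this gives (1); (2) monotone. (3) With `m' = m/s+3`,
`n' = n/s+3`: `mu n - mu m = (1/s)(1/log m' - 1/log n') = (1/s)(log n' - log m')/(log m' log n')`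
and `log n' - log m' ≥ 1 - m'/n' = (n-m)/(n+3s)`, `log m' log n' ≤ ell²`.
(4) `n/s = exp ell - 3 ≥ 10^6 ell^8` for `ell ≥ 1000`. -/
def MuFacts : Prop := (∀ s : ℕ, 1 ≤ s →
  (∀ x : ℕ, 1 + 1 / (s : ℝ) ≤ mu s x ∧ mu s x ≤ 1 + 2 / (s : ℝ)) ∧
  (∀ a b : ℕ, a ≤ b → mu s a ≤ mu s b) ∧
  (∀ (m n : ℕ) (ell : ℝ), m ≤ n → Real.log ((n : ℝ) / s + 3) ≤ ell →
    (1 / (s : ℝ)) * (((n : ℝ) - m) / (n + 3 * s)) / ell ^ 2 ≤ mu s n - mu s m)) ∧
  (∀ (s n : ℕ) (ell : ℝ), 1 ≤ s → ell = Real.log ((n : ℝ) / s + 3) → 1000 ≤ ell →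
    10 ^ 6 * (s : ℝ) * ell ^ 8 ≤ n)

/-- **F07 SizeLower.** A minimal dense set of a graph of girth larger than `g` is large.
Proof. Let `v ∈ H`, `B_i = bl Y H {v} i`. For `2 i + 1 ≤ g`, `ed Y B_i ≤ |B_i| - 1`: otherwise
some vertex of `B_i` has two neighbours of smaller or ... precisely: let the level of `x` be the
least `j` with `x ∈ B_j`; every `x ∈ B_i`, `x ≠ v`, has a neighbour of level one less. If every edge
inside `B_i` joined consecutive levels and every vertex had exactly one lower neighbour, there would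
be `|B_i| - 1` edges; an edge between two vertices of the same level `j ≤ i`, or two lower neighbours
of a vertex of level `j ≤ i`, together with two geodesics to `v` give a cycle with at most
`2j + 1 ≤ g` vertices, a contradiction.
`MinD.touch` and `ed_touch` (`R = ∅`): `mu(n) |B_i| ≤ ed H - ed (H \ B_i) ≤ ed (B_i ∪ nbr B_i) =
ed B_{i+1} ≤ |B_{i+1}| - 1` for `2(i+1)+1 ≤ g`. So `|B_{i+1}| + s ≥ (1+1/s)(|B_i| + s)`, and with
`R = (g-1)/2`: `n + s ≥ |B_R| + s ≥ (1+1/s)^R (1+s)`, `n/s + 3 ≥ (1+1/s)^R`, so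
`log(n/s+3) ≥ R log(1+1/s) ≥ 0.95 R/s ≥ g/(3s)` (`s ≥ 10`, `g ≥ 100`). -/
def SizeLower : Prop := ∀ (V : Type) (Y : SimpleGraph V) (s g : ℕ) (H : Finset V), 10 ≤ s →
  100 ≤ g → MinD Y (mu s) H → (∀ Q, IsCyc Y Q → g < Q.length) →
  (g : ℝ) / (3 * s) ≤ Real.log ((H.card : ℝ) / s + 3)

/-- **F08 ExpF** (expansion).
Proof. `B = ∅` trivial. `N = nbr Y H B`, `m = |B| + |N|`, `n = |H|`. If `3m ≥ 2n` then
`|N| ≥ n/6 ≥ |B|/3`. Otherwise `m < n`, and by `MinD.touch`, `ed_touch` (`R = ∅`), `MinD.le`: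
`mu(n) |B| ≤ ed (B ∪ N) ≤ mu(m) (|B| + |N|)`, so `mu(m) |N| ≥ (mu(n) - mu(m)) |B|`, `mu(m) ≤ 2`, and
`mu(n) - mu(m) ≥ (1/s)((n/3)/(n+3s))/ell² ≥ (1/s)(1/5)/ell²` (as `n ≥ 100 s`). So
`|N| ≥ |B|/(10 s ell²)`. -/
def ExpF : Prop := ∀ (V : Type) (Y : SimpleGraph V) (s : ℕ) (H : Finset V) (ell : ℝ),
  GS Y s H ell → ∀ B : Finset V, B ⊆ H → 2 * B.card ≤ H.card →
  (B.card : ℝ) ≤ 10 * s * ell ^ 2 * (nbr Y H B).card

/-- **F09 DiamF.**
Proof. Let `B_i = bl Y H {u} i`. While `2|B_i| ≤ n`: `nbr Y H B_i ≠ ∅` by `ExpF`, so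
`|B_{i+1}| ≥ |B_i| + 1`, and `|B_{i+1}| ≥ |B_i| (1 + 1/(10 s ell²))`. After `s` steps `|B_i| ≥ s`
(or more than `n/2`); then every `⌈10 s ell²⌉` further steps double the size (Bernoulli), so after
`⌈ell / log 2⌉ + 1` doublings the size would exceed `s exp ell > n`. Total number of steps at most
`s + (10 s ell² + 1)(1.5 ell + 2) ≤ 25 s ell³`. So balls of radius `⌊25 s ell³⌋` around `u` and
`v` have more than `n/2` vertices and meet. -/
def DiamF : Prop := ∀ (V : Type) (Y : SimpleGraph V) (s : ℕ) (H : Finset V) (ell : ℝ),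
  GS Y s H ell → ∀ R : ℕ, 50 * (s : ℝ) * ell ^ 3 ≤ R → ∀ u ∈ H, ∀ v ∈ H, v ∈ bl Y H {u} R

/-- **F10 PathCut.** A path cuts off only few vertices.
Proof. `P = l.toFinset`, `|P| = l.length ≤ n/10`, `m = |U| + |P| ≤ 0.6 n`. By `ed_touch` with
`A = U`, `R = P` (disjoint): `ed H - ed (H \ U) + ed P ≤ ed (U ∪ nbr U ∪ P) = ed (U ∪ P) ≤
mu(m) m`. A path has at least `|P| - 1` edges: `ed P ≥ |P| - 1`. With `MinD.touch`:
`mu(n)|U| + |P| - 1 ≤ mu(m)|U| + mu(m)|P| ≤ mu(m)|U| + |P| + 2|P|/s`. So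
`(mu(n) - mu(m))|U| ≤ 2|P|/s + 1`, and `mu(n) - mu(m) ≥ (1/s)(0.4 n/(n+3s))/ell² ≥ 1/(3 s ell²)`
(as `n ≥ 100 s`). Hence `|U| ≤ 3 s ell² (2|P|/s + 1) = 3 ell² (s + 2|P|)`. -/
def PathCut : Prop := ∀ (V : Type) (Y : SimpleGraph V) (s : ℕ) (H : Finset V) (ell : ℝ),
  GS Y s H ell → ∀ (u v : V) (l : List V) (U : Finset V), Pth Y (H : Set V) u v l →
  10 * l.length ≤ H.card → U ⊆ H → (∀ x ∈ U, x ∉ l) → (∀ x ∈ nbr Y H U, x ∈ l) →
  2 * U.card ≤ H.card → (U.card : ℝ) ≤ 3 * ell ^ 2 * (s + 2 * l.length)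

/-- **F11 Giant.** After deleting a path of moderate length a component with more than half of the
vertices remains.
Proof. Suppose all components of `Y[H \ l]` have at most `n/2` vertices. Their sizes sum up to
`n - |l| ≥ 0.9 n`. If one of them has at least `n/4` vertices let `U` be this one; otherwise add
components one by one until the size is at least `n/4`, then it is at most `n/2`: in both cases
there is a union `U` of components with `n/4 ≤ |U| ≤ n/2`. `PathCut`: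
`|U| ≤ 3 ell²(s + 2|l|) ≤ 3 ell² s + 6 ell² + 0.15 n < n/4` (since `|l| ≤ n/(40 ell²) + 1` and
`n ≥ 10^6 s ell^8`), a contradiction. A component `K` is connected (`Cn`) and
`nbr Y H K ⊆ l`. -/
def Giant : Prop := ∀ (V : Type) (Y : SimpleGraph V) (s : ℕ) (H : Finset V) (ell : ℝ),
  GS Y s H ell → ∀ (u v : V) (l : List V), Pth Y (H : Set V) u v l →
  40 * ell ^ 2 * ((l.length : ℝ) - 1) ≤ H.card →
  ∃ K : Finset V, K ⊆ H ∧ (∀ x ∈ K, x ∉ l) ∧ Cn Y K ∧ (∀ x ∈ nbr Y H K, x ∈ l) ∧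
    H.card < 2 * K.card

/-- **F12 LongPath.**
Proof. We construct by induction on `k ≥ 1`, `40 ell² (k-1) ≤ n`, a path `l` with `k` vertices
whose last vertex `v` has a neighbour in the giant set `K` of `Giant` for `l`. `k = 1`: by
`Giant` for `[u]`, `K` is connected with `nbr Y H K ⊆ {u}`; `H` is connected (by `DiamF`), so `u` is
adjacent to `K`. Step `k → k+1`: let `v' ∈ K` be adjacent to `v`, `l' = l ++ [v']`, `K'` the giant set of
`l'`. `K'` and `K` have more than `n/2` vertices, so they meet; `K'` is connected, disjoint from `l'`, and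
`nbr Y H K ⊆ l`, so `K' ⊆ K`. `K` is connected: take a path inside `K` from `v'` to a vertex of `K'`; its
second vertex `y` and the following ones are in `K \ {v'}`, disjoint from `l'`, and the last one is in
`K'`; because `nbr Y H K' ⊆ l'` all of them are in `K'`. So `v'` is adjacent to `y ∈ K'`. -/
def LongPath : Prop := ∀ (V : Type) (Y : SimpleGraph V) (s : ℕ) (H : Finset V) (ell : ℝ),
  GS Y s H ell → ∀ k : ℕ, 1 ≤ k → 40 * ell ^ 2 * (k : ℝ) ≤ H.card →
  ∃ (u v : V) (l : List V), Pth Y (H : Set V) u v l ∧ l.length = k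

/-- **F13 LongCycle.**
Proof. Let `l` be a path with `k = ⌊n/(40 ell²)⌋` vertices (`LongPath`), `l = l₁ ++ l₂ ++ l₃` with
`|l₂| = ⌈n/(1000 ell⁴)⌉` and `|l₁|, |l₃| ≥ n/(100 ell²)` (possible: `n/(40 ell²) - 1 -
n/(1000 ell⁴) - 1 ≥ 2n/(100 ell²)`). Suppose `l₁` and `l₃` are in different components of
`Y[H \ l₂]`; one of these has at most `n/2` vertices: `U`, `|U| ≥ n/(100 ell²)`, and `PathCut` for
`l₂` gives `|U| ≤ 3 ell² s + 6 ell²(n/(1000 ell⁴) + 1) < n/(100 ell²)`, a contradiction (as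
`n ≥ 10^6 s ell^8`). So there is a path of `Y[H \ l₂]` from `l₁` to `l₃`; between its last vertex
in `l₁` and the next vertex in `l₃` it has no vertex of `l`: a path `R` from `x ∈ l₁` to `y ∈ l₃`.
`R` and the part of `l` between `x` and `y`, which contains `l₂`, form a cycle with at least
`|l₂| + 2 ≥ n/(1000 ell⁴)` vertices (`Pth.theta`). -/
def LongCycle : Prop := ∀ (V : Type) (Y : SimpleGraph V) (s : ℕ) (H : Finset V) (ell : ℝ),
  GS Y s H ell → ∃ Q, IsCyc Y Q ∧ (∀ x ∈ Q, x ∈ H) ∧ (H.card : ℝ) ≤ 1000 * ell ^ 4 * Q.length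

/-- **F14 StepDown** (pure). A cycle longer than twice the diameter can be shortened, but not too
much.
Proof. For `x, y ∈ Q` let `d_Q` be the distance along `Q` and `d_H` the distance in `Y[H]` (the least
`i` with `y ∈ bl Y H {x} i`). Two vertices with `d_Q = ⌊|Q|/2⌋ ≥ D+1` have `d_H ≤ D < d_Q`. Choose
`x, y ∈ Q` with `d_H(x,y) < d_Q(x,y)` and `d_H(x,y)` minimal, and a shortest path `R` of `Y[H]` from `x`
to `y`. If an inner vertex `v` of `R` is on `Q` then `d_H(x,v) + d_H(v,y) = d_H(x,y) < d_Q(x,y) ≤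
d_Q(x,v) + d_Q(v,y)`, so one of the pairs `(x,v)`, `(v,y)` contradicts minimality. So `R` meets `Q` only in
`x, y`, and with the longer arc of `Q` between `x` and `y` it forms a cycle `Q'` with
`|Q| - d_Q(x,y) + d_H(x,y) < |Q|` vertices, at least `|Q| - d_Q ≥ |Q|/2`. -/
def StepDown : Prop := ∀ (V : Type) (Y : SimpleGraph V) (H : Finset V) (D : ℕ),
  (∀ u ∈ H, ∀ v ∈ H, v ∈ bl Y H {u} D) →
  ∀ Q, IsCyc Y Q → (∀ x ∈ Q, x ∈ H) → 2 * D + 1 < Q.length →
  ∃ Q', IsCyc Y Q' ∧ (∀ x ∈ Q', x ∈ H) ∧ Q'.length < Q.length ∧ Q.length ≤ 2 * Q'.length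

/-- **F15 CycleScales.**
Proof. Let `Q` be a shortest cycle in `H` with `t ≤ 2 |Q|` (`Q₀` is one). If `|Q| > t ≥ 2D+1` then
`StepDown` gives a shorter cycle `Q'` with `t < |Q| ≤ 2|Q'|`, a contradiction. So `|Q| ≤ t`. -/
def CycleScales : Prop := ∀ (V : Type) (Y : SimpleGraph V) (H : Finset V) (D : ℕ),
  (∀ u ∈ H, ∀ v ∈ H, v ∈ bl Y H {u} D) →
  ∀ Q₀, IsCyc Y Q₀ → (∀ x ∈ Q₀, x ∈ H) → ∀ t : ℕ, 2 * D + 1 ≤ t → t ≤ Q₀.length →
  ∃ Q, IsCyc Y Q ∧ (∀ x ∈ Q, x ∈ H) ∧ Q.length ≤ t ∧ t ≤ 2 * Q.length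

/-! ## Touches and detours -/

/-- **F16 TouchClosure.** Closing a set under the trees of the blocks it meets and under common
vertices of these blocks costs very little.
Proof. Let `f(A) = ed Y A - |A|`. Call `A` admissible if `A₀ ⊆ A`, `0 ≤ f(A)`,
`|A| ≤ |A₀| + 12 a f(A)` and `|A| ≤ 2|A₀|`; `A₀` is admissible. For admissible `A`:
`f(A) ≤ (2/s)|A| ≤ (2/s)(|A₀| + 12 a f(A))`, so `f(A) ≤ 3|A₀|/s` (`s = 10^6 a`) and
`|A| ≤ |A₀| + 36 a |A₀|/s ≤ 1.001 |A₀|`. Take an admissible `A` with `⌊f(A)⌋` maximal. Then there is no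
`B ⊇ A` with `|B| ≤ |A| + 12 a` and `f(B) ≥ f(A) + 1`, because such a `B` would be admissible
(`|B| ≤ |A₀| + 12 a f(A) + 12 a ≤ |A₀| + 12 a f(B)`, `|B| ≤ 1.001|A₀| + 12a ≤ 2|A₀|`).
(c1) Suppose `u, w ∈ A ∩ X` are not joined by a path of `TGr X` inside `A`. The tree path
(`TreeFacts` (3), at most `6a+1` vertices) from `u` to `w` leaves `A`: it contains a subpath with
both ends in `A`, inner vertices (at least one) outside `A`. Adding the `j ≤ 6a` inner vertices to `A`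
adds at least `j + 1` edges: contradiction.
(c2) Suppose `X ≠ X'` both meet `A`, `w ∈ X ∩ X'`, `w ∉ A`. Take the tree path in `X` from `w` to a vertex
of `A ∩ X`, cut at its first vertex in `A`, and the same in `X'`. The two paths share only `w`
(`Blocks.one`). Adding their `j ≤ 12a` vertices outside `A` adds at least `j + 1` edges
(edges of both paths; `j` = (edges of first) + (edges of second) - 1): contradiction. -/
def TouchClosure : Prop := ∀ (V : Type) (G : SimpleGraph V) (XX : Set (Set V)) (a g : ℕ)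
  (I : Finset (Set V)) (Tc : Finset (Finset V)) (Ce : SimpleGraph V) (rt : Set V → V)
  (lv : Set V → V → ℕ) (par : Set V → V → V) (Y : SimpleGraph V),
  Web G a g XX I Tc Ce rt lv par Y → 1 ≤ a → ∀ (s : ℕ) (A₀ : Finset V), s = 10 ^ 6 * a →
  (∀ A : Finset V, A.card ≤ 2 * A₀.card → ed Y A ≤ (1 + 2 / (s : ℝ)) * A.card) →
  (A₀.card : ℝ) ≤ ed Y A₀ → 24 * a ≤ A₀.card →
  ∃ A : Finset V, A₀ ⊆ A ∧ 1000 * A.card ≤ 1001 * A₀.card ∧
    (∀ X ∈ I, ∀ u ∈ A, ∀ w ∈ A, u ∈ X → w ∈ X →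
      ∃ l, Pth (TGr X (rt X) (par X)) (A : Set V) u w l) ∧
    (∀ X ∈ I, ∀ X' ∈ I, X ≠ X' → (∃ x ∈ A, x ∈ X) → (∃ x ∈ A, x ∈ X') →
      ∀ w, w ∈ X → w ∈ X' → w ∈ A)

/-- **F17 TouchCount.** Counting the touches of a cycle.
Proof. `Z = {z k : k < n}`, `U = Used`, `A' = Z ∪ ⋃_{X ∈ U} (A ∩ X)`, `|A'| ≤ |A| ≤ 1.001 n`. Count the
edges of `Y` inside `A'`: the `n` edges of the cycle (different, `n ≥ 3`), and for each `X ∈ U` the edges of
`TGr X` inside `A ∩ X` which are not edges of the cycle: `TGr X` is connected on `A ∩ X` (hypothesis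
(c1); the paths are in `A` and in `X`), so it has at least `|A ∩ X| - 1` edges there, of which
`|EX X|` are edges of the cycle. Edges for different `X` are different (`Blocks.one`). So
`ed Y A' ≥ n + ∑_{X∈U} (|A ∩ X| - 1 - |EX X|)`, and `|A ∩ X| = |VX X| + |(A \ Z) ∩ X|`. Also
`|A'| = n + |⋃_{X∈U} (A \ Z) ∩ X|`. With `k_w = |{X ∈ U : w ∈ X}|`,
`∑_{X∈U} |(A\Z) ∩ X| - |⋃_{X∈U} (A\Z) ∩ X| = ∑_w (k_w - 1)`, sum over `w ∈ A \ Z` with `k_w ≥ 1`. So the
left-hand side of the claim is at most `ed Y A' - |A'| ≤ (2/s)|A'| ≤ (2/s)(1.001 n) ≤ 3n/s`. -/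
def TouchCount : Prop := ∀ (V : Type) (G : SimpleGraph V) (XX : Set (Set V)) (a g : ℕ)
  (I : Finset (Set V)) (Tc : Finset (Finset V)) (Ce : SimpleGraph V) (rt : Set V → V)
  (lv : Set V → V → ℕ) (par : Set V → V → V) (Y : SimpleGraph V),
  Web G a g XX I Tc Ce rt lv par Y → 1 ≤ a → ∀ (s n : ℕ) (z : ℕ → V) (A : Finset V), 1 ≤ s →
  CycF Y n z → (∀ k, z k ∈ A) → 1000 * A.card ≤ 1001 * n →
  (∀ B : Finset V, B.card ≤ 2 * n → ed Y B ≤ (1 + 2 / (s : ℝ)) * B.card) →
  (∀ X ∈ I, ∀ u ∈ A, ∀ w ∈ A, u ∈ X → w ∈ X →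
      ∃ l, Pth (TGr X (rt X) (par X)) (A : Set V) u w l) →
  ∑ X ∈ Used I rt par n z,
      (((VX n z X).card : ℝ) - (EX n z (TGr X (rt X) (par X))).card - 1) +
    ∑ w ∈ A.filter (fun w => (∀ k, z k ≠ w) ∧ ∃ X ∈ Used I rt par n z, w ∈ X),
      ((((Used I rt par n z).filter (fun X => w ∈ X)).card : ℝ) - 1) ≤ 3 * n / s

/-- **F18 Runs** (pure). The vertices and edges of a cycle in one block.
Proof. Let `T = TGr X`, an acyclic graph all of whose paths have at most `6a + 1` vertices. The map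
`k ↦ (k+1) mod n` is injective from `EX` to `VX` (both ends of a `T`-edge are in `X`); the elements of
`VX` not in its image are the starts: `i ∈ VX` whose preceding edge `i - 1` (mod `n`) is not in
`EX`; there are `c = |VX| - |EX|` of them. `EX` is not everything (otherwise the cycle would be a
cycle of `T`), so from every element of `VX` one reaches a start by going backwards along edges of
`EX`: `VX` is the disjoint union of the `c` runs `i, i+1, ..., i+m` (all edges between in `EX`, the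
edge after the last one not). Each run is a path of `T`, so has at most `6a` edges: `|EX| ≤ 6a c`. If
`c = 1` there is one run `i, ..., i+m`, `m = |EX|`, `m < n`: (2). -/
def Runs : Prop := ∀ (V : Type) (Y T : SimpleGraph V) (X : Set V) (n d : ℕ) (z : ℕ → V),
  CycF Y n z → (∀ u v, T.Adj u v → u ∈ X ∧ v ∈ X) → (∀ Q, ¬ IsCyc T Q) →
  (∀ (u w : V) (l : List V), Pth T Set.univ u w l → l.length ≤ d + 1) →
  (EX n z T).Nonempty →
  (EX n z T).card + 1 ≤ (VX n z X).card ∧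
  (EX n z T).card ≤ d * ((VX n z X).card - (EX n z T).card) ∧
  ((VX n z X).card = (EX n z T).card + 1 → ∃ i < n, ∃ m, 1 ≤ m ∧ m < n ∧ m ≤ d ∧
    Pth T Set.univ (z i) (z (i + m)) (arcL z i m) ∧
    (∀ t ≤ m, z (i + t) ∈ X) ∧ (∀ t, m < t → t < n → z (i + t) ∉ X))

/-- **F19 CleanExists.** A cycle with few touches is clean.
Proof. `U = Used`, `Z` the vertex set of the cycle, `c_X = |VX X| - |EX X| ≥ 1` (`Runs` (1)),
`k_w = |{X ∈ U : w ∈ X}|`. Call `X ∈ U` clean if `c_X = 1` and every `w ∈ X \ Z` has `k_w = 1`.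
*Few unclean edges.* `∑_{X∈U, c_X ≥ 2} c_X ≤ 2∑(c_X - 1)`; every unclean `X` with `c_X = 1` contains a
`w ∉ Z` with `k_w ≥ 2`, and `w ∈ A` by (c2) (two used blocks both meet `A`): their number is at most
`∑_{w ∈ A\Z, k_w ≥ 2} k_w ≤ 2 ∑ (k_w - 1)`. By `Runs` (2) with `d = 6a` the number of cycle edges in
unclean blocks is at most `6a·2·(3n/s) = 36 n/10^6`.
*Many block edges.* A path of `Ce` has at most `11` vertices (it stays in one cell by `inside` and
`disj`; by `conn` its ends are joined by a path with at most 11 vertices, which is the same one, since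
two different paths with the same ends contain a cycle). So among any `11` consecutive edges of the
cycle (`n ≥ 13`) one is an edge of some `TGr X`: at least `n/11 - 1` block edges. Each cycle edge is in at
most one block tree. So at least `n/11 - 1 - 36n/10^6 ≥ n/12` edges in clean blocks.
Fix a clean `X₀ ∈ U`: by `Runs` (3) `Z ∩ X₀ = {z i, ..., z (i+m)}`, `1 ≤ m ≤ 6a`, `P₀ = arcL z i m`,
`u₀ = z i`, `w₀ = z (i+m)`, and `L` is the reverse of `arcL z (i+m) (n-m)`: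
`L[k] = z (i + n - k)`, `k ≤ n - m`, a path from `u₀` to `w₀`, `|P₀| + |L| = (m+1) + (n-m+1) = n + 2`; it
meets `X₀` only in `u₀, w₀`. The clean edges not in `X₀` (at least `n/12 - 6a`) are edges of `L`: the
edge of index `k` of `L` is the edge `i + n - k - 1` of the cycle. Take those with `k` even or
those with `k` odd, whichever is more: `|Kc| ≥ (n/12 - 6a)/2 ≥ n/30` for `n ≥ 1000a`. `Xk k` is the clean
block of the edge. `lev`: by `Runs` (3) `Z ∩ Xk k` is the vertex set of a path of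
`TGr (Xk k)`; use `TreeFacts` (4); `L ∪ P₀ = Z`. `shared`, `shared0`: a vertex `w ∉ Z` in two clean
blocks would have `k_w ≥ 2`. -/
def CleanExists : Prop := ∀ (V : Type) (G : SimpleGraph V) (XX : Set (Set V)) (a g : ℕ)
  (I : Finset (Set V)) (Tc : Finset (Finset V)) (Ce : SimpleGraph V) (rt : Set V → V)
  (lv : Set V → V → ℕ) (par : Set V → V → V) (Y : SimpleGraph V),
  Web G a g XX I Tc Ce rt lv par Y → 1 ≤ a → ∀ (s n : ℕ) (z : ℕ → V) (A : Finset V),
  s = 10 ^ 6 * a → 1000 * a ≤ n → CycF Y n z → (∀ k, z k ∈ A) →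
  (∀ X ∈ I, ∀ X' ∈ I, X ≠ X' → (∃ x ∈ A, x ∈ X) → (∃ x ∈ A, x ∈ X') →
      ∀ w, w ∈ X → w ∈ X' → w ∈ A) →
  ∑ X ∈ Used I rt par n z,
      (((VX n z X).card : ℝ) - (EX n z (TGr X (rt X) (par X))).card - 1) +
    ∑ w ∈ A.filter (fun w => (∀ k, z k ≠ w) ∧ ∃ X ∈ Used I rt par n z, w ∈ X),
      ((((Used I rt par n z).filter (fun X => w ∈ X)).card : ℝ) - 1) ≤ 3 * n / s →
  ∃ (P₀ L : List V) (u₀ w₀ : V) (X₀ : Set V) (Kc : Finset ℕ) (Xk : ℕ → Set V),
    Clean G a I lv n P₀ L u₀ w₀ X₀ Kc Xk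

/-- **F20 Greedy2** (pure).
Proof. Induction on `|I|`: let `a ∈ I` have maximal `lam a`, remove from `I` all `b` with `conf a b` or
`b = a` (at most `12 lam a`), apply induction to the rest, and add `a`. -/
def Greedy2 : Prop := ∀ (I : Finset ℕ) (lam : ℕ → ℕ) (conf : ℕ → ℕ → Prop),
  (∀ a b, conf a b → conf b a) →
  (∀ a ∈ I, (I.filter (fun b => lam b ≤ lam a ∧ (conf a b ∨ b = a))).card ≤ 12 * lam a) →
  ∃ J : Finset ℕ, J ⊆ I ∧ (∀ a ∈ J, ∀ b ∈ J, a ≠ b → ¬ conf a b) ∧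
    I.card ≤ 12 * ∑ a ∈ J, lam a

/-- **F21 WebLengths.** All lengths in `[2n, 5n]` from a clean cycle of length `n`.
Proof. For `k ∈ Kc` let `x_k = L[k]`, `y_k = L[k+1]`, `X = Xk k ∈ I`; `G.Adj x_k y_k`. `Cov` gives a blob
`(Γ_k, col_k, H_k, lam_k)`, `lam_k ≥ lam₀`, with `x_k, y_k ∈ H_k`; `BlobInside` (`κ = 3000`) gives
`H_k ⊆ X` and `lam_k^200 < 3a+1`, so `lam_k ≤ 3a`. Let `W_k = (L ∪ P₀) \ {x_k, y_k}` (finite set).
*Thinness.* Let `w ∈ W_k ∩ H_k` be adjacent to a vertex of `bl Γ_k (H_k \ W_k) {x_k} i`. Edges of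
`Γ_k` inside `H_k ⊆ X` are edges of `G[X]`, so they change the level `lv X` by at most 1
(`BT.lip`): `|lv w - lv x_k| ≤ i + 1`. By `lev` there are at most `2(2i+3) ≤ 3000 (i+1)³` such
`w`. The same at `y_k`. So `Thin Γ_k 3000 H_k W_k` holds at both ends, and `Blob` gives for odd `ℓ`,
`lam_k ≤ ℓ ≤ lam_k^C`, a path with `ℓ` edges from `x_k` to `y_k` in `H_k \ W_k` with all vertices in
`bl Γ_k (H_k \ W_k) {x_k} lam_k` (the colours of `x_k, y_k` differ), so with
levels within `lam_k` of `lv X x_k`.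
*Selection.* `conf k k'` : `Xk k = Xk k'` and the levels of `x_k`, `x_{k'}` differ by at most
`lam_k + lam_{k'} + 2`. For fixed `k`, the `k'` with `lam_{k'} ≤ lam_k` and `conf k k'` have `x_{k'}` in
`X`, at one of `4 lam_k + 5` levels, with at most two vertices of `L ∪ P₀` each (`lev`), and
`k' ↦ x_{k'}` is injective (`L` is a path): at most `8 lam_k + 10 ≤ 12 lam_k`. `Greedy2` gives `J ⊆ Kc`
without conflicts, `∑_J lam_k ≥ |Kc|/12 ≥ n/360`.
*Disjointness.* Let `D k` be the path of `Blob` with `inc k + 1` edges if `inc k ≠ 0`, and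
`[x_k, y_k]` otherwise. For `k ≠ k'` in `J` the lists `D k`, `D k'` are disjoint: if
`Xk k = Xk k'`, a common vertex would have level within `lam_k` of `lv x_k` and within `lam_{k'}` of
`lv x_{k'}` (level of `y_k` is within 1). If `Xk k ≠ Xk k'`, a common vertex `w` is in both blocks, so in
`L ∪ P₀` by `shared`, hence in `{x_k, y_k} ∩ {x_{k'}, y_{k'}}`, empty by `sep`.
*Total.* Let `2n ≤ m ≤ 5n`. By `Blocks.par` there is a path `P₁` from `u₀` to `w₀` in `X₀` with at most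
`3a+1` vertices and with parity of length different from `P₀`; let `P ∈ {P₀, P₁}` be such that
`t = m - (|P| - 1) - (|L| - 1)` is even. `(|P|-1)+(|L|-1) ≤ n + 3a`, so `t ≥ n - 3a ≥ 3a + 1`; and
`t ≤ 5n ≤ ∑_J (lam_k^C - 2)`, because `lam_k^C - 2 ≥ 3000 lam_k` (`lam_k ≥ 100`, `C ≥ 3`). `Sumset` with
`Λ = 3a` gives `inc`; `Detour` applied to `L`, `J`, `D` gives a path `L'` from `u₀` to `w₀` of `G` with
`|L| - 1 + t` edges, whose vertices are in `L` or in some `D k`. `L'` meets `X₀` only in `u₀, w₀`: for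
`x ∈ L` by `meet`; for `x ∈ D k ∩ X₀` by `shared0` `x ∈ L ∪ P₀`, so `x ∈ {x_k, y_k} ⊆ L`, and again by
`meet`. `P ⊆ X₀`. So `P` and `L'` form a cycle (`Pth.theta`) with
`(|P|-1) + (|L|-1) + t = m` vertices. -/
def WebLengths : Prop := ∀ (V : Type) (G : SimpleGraph V) (XX : Set (Set V)) (a g : ℕ)
  (I : Finset (Set V)) (Tc : Finset (Finset V)) (Ce : SimpleGraph V) (rt : Set V → V)
  (lv : Set V → V → ℕ) (par : Set V → V → V) (Y : SimpleGraph V) (A R C lam₀ : ℕ),
  Web G a g XX I Tc Ce rt lv par Y → 1 ≤ a → 3 * a + 1 ≤ g → 1 ≤ A → Miss G A R →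
  202 * A + 3 ≤ C → 100 ≤ lam₀ → R ≤ lam₀ → Cov G 3000 C lam₀ →
  ∀ (n : ℕ) (P₀ L : List V) (u₀ w₀ : V) (X₀ : Set V) (Kc : Finset ℕ) (Xk : ℕ → Set V),
  1000 * a ≤ n → Clean G a I lv n P₀ L u₀ w₀ X₀ Kc Xk →
  ∀ m : ℕ, 2 * n ≤ m → m ≤ 5 * n → ∃ D, IsCyc G D ∧ D.length = m

/-- **F22 GrowthNum** (numerical).
Proof. `exp ell / ell^k → ∞`, and `⌊ell²⌋₊ ≥ ell² - 1 ≥ ell²/2`. -/
def GrowthNum : Prop := ∀ B : ℕ, ∃ E₀ : ℝ, 1000 ≤ E₀ ∧ ∀ ell : ℝ, E₀ ≤ ell →
  ell ^ (2 * B + 4) ≤ Real.exp ell - 3 ∧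
  10 ^ 10 * ell ^ 3 + 10 ≤ ((⌊ell ^ 2⌋₊ : ℕ) : ℝ) ^ 4

/-!
**F23 growthThm** (assembly: `theorem growthThm (all the Props above) (hBI : BlobInside)
(hSu : Sumset) (hD : Detour) : GrowthThm`; the statement `GrowthThm` is in `GrowthDef.lean`).
Proof. Given `A, R, B`; `E₀` from `GrowthNum B`; `Δ₀ = ⌈2.4·10^7·E₀⌉ + 10^15`; `C = 202 A + 3`,
`lam₀ = max 100 R`, `a₀ = 100`. Let `Δ ≥ Δ₀`, and let the data be given, `Δ a ≤ 8 g`, so
`g ≥ 10^14 a`. `WebExists` gives the web `Y`, `WebGirth` its girth, `IncToDense` a set `A'` with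
`(1 + 1/(22a))|A'| ≤ ed Y A'`. Put `s = 10^6 a`; `mu s |A'| ≤ 1 + 2/s ≤ 1 + 1/(22a)`, so `exists_minD` gives
`H` with `MinD Y (mu s) H`; `n = |H|`, `ell = log(n/s+3)`. `SizeLower`: `ell ≥ g/(3s) ≥
Δ a/(24·10^6 a) = Δ/(2.4·10^7) ≥ E₀ ≥ 1000`; `MuFacts` (4) gives `nbig`: we have `GS Y s H ell`. Put
`w = ⌊ell²⌋₊`; `w ≥ (Δ/(2.4·10^7))² - 1 ≥ Δ`. Let `a w^4 ≤ ℓ ≤ a w^B`. Let `D₀ = ⌈50 s ell³⌉₊`
(`DiamF`), `Q₀` from `LongCycle`, `t = ℓ/2` (natural division). `2 D₀ + 1 ≤ t`: by `GrowthNum`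
`ℓ ≥ a w^4 ≥ a(10^10 ell³ + 10) ≥ 2(2D₀+1) + 2`. `t ≤ |Q₀|`: `ℓ ≤ a w^B ≤ a ell^{2B}` and
`|Q₀| ≥ n/(1000 ell^4) = s(exp ell - 3)/(1000 ell^4) ≥ 1000 a ell^{2B}`. `CycleScales` gives a cycle `Q`
in `H` with `|Q| ≤ t ≤ 2|Q|`; so `2|Q| ≤ ℓ ≤ 2t+1 ≤ 5|Q|`. By `WebGirth` `|Q| > g ≥ 1000 a`. Let
`A₀ = Q.toFinset`, `|A₀| = |Q| ≤ ed Y A₀` (the edges of the cycle). For `|B'| ≤ 2|A₀| ≤ ℓ < n`:
`ed Y B' ≤ mu s |B'| · |B'| ≤ (1+2/s)|B'|` (`MinD.le`). `CycConv` gives `z`; `TouchClosure`, `TouchCount`,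
`CleanExists` and `WebLengths` (with `n := |Q|`) give a cycle of `G` of length `ℓ`.
-/

end Pool.Agent.Lib.MP_b6048d_co.F
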