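import Pool.Agent.Lib.MP_b6048d_co.F.SpecE2
import Pool.Agent.Lib.MP_b6048d_co.F.PalExists
import Pool.Agent.Lib.MP_b6048d_co.F.BlockBall
import Pool.Agent.Lib.MP_b6048d_co.F.NbrFacts
import Pool.Agent.Lib.MP_b6048d_co.F.ColStep
import Pool.Agent.Lib.MP_b6048d_co.F.ColBase
import Pool.Agent.Lib.MP_b6048d_co.F.ColUp
import Pool.Agent.Lib.MP_b6048d_co.F.Process
import Pool.Agent.Lib.MP_b6048d_co.F.StageProc

set_option autoImplicit false

/-!
Section E, part 1: assembly of the stage theorem.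
-/

open scoped Classical

namespace Pool.Agent.Lib.MP_b6048d_co.F

theorem stageThm_of (h : StageExists) : StageThm := by
  intro V G XX a g K K₁ r h1 h2 h3 h4 h5 h6 h7 h8
  obtain ⟨S, W, hS, -, hst⟩ := h V G XX a g K K₁ r h1 (by omega) (by omega) h5 h6 h7 h8
  exact ⟨S, W, hS, hst⟩

theorem stageThm : StageThm :=
  stageThm_of (stageProc palExists (process colBase (colUp (colStep nbrFacts blockBall))))

end Pool.Agent.Lib.MP_b6048d_co.F
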